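import Mathlib

/-!
# JOB AH: the Artin-Hasse series modulo `p`

`A = ∏_{1 ≤ r < p², p ∤ r} (1 - X ^ r) ^ (c r)` with natural numbers `c r` such that `(c r : ZMod p) * r = - μ(r)` (`ArithmeticFunction.moebius`; `r` is a unit mod `p`).
Logarithmic derivative: `X * d/dX (A) = A * ∑_r (- c r * r) X^r / (1 - X^r) = A * ∑_r μ(r) ∑_{j ≥ 1} X^(r j)`, modulo `X^(p²)` (use `PowerSeries`, `(1 - X^r)` is invertible with inverse the geometric series;
or prove the coefficient identity for the product by induction over the finite set: if `X A' = A U` and `X B' = B V` then `X (A B)' = A B (U + V)`; and for `B = (1 - X^r)^c`,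
`X B' = B * (-(c r) ∑_{j≥1} X^(r j))`). The coefficient of `X^N`, `1 ≤ N < p²`, in the sum is `∑_{r ∣ N, p ∤ r} μ(r) = ∑_{r ∣ N'} μ(r)` with `N = p^i N'`, `p ∤ N'`,
which is `1` if `N' = 1` and `0` otherwise (`ArithmeticFunction.sum_moebius...`, `coe_zeta_mul_moebius`); for `N < p²` this is `1` exactly for `N = 1, p`.
Comparing the coefficients of `X^N` in `X A' = A (X + X^p + O(X^(p²)))` gives the claim.
-/

set_option autoImplicit false

namespace MPadcBK

section Aux

variable {R : Type*} [CommRing R]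

/-- the operator `X d/dX` -/
private noncomputable def ah_th (A : PowerSeries R) : PowerSeries R :=
  PowerSeries.mk fun N => (N : R) * PowerSeries.coeff N A

private theorem ah_th_coeff (A : PowerSeries R) (N : ℕ) :
    PowerSeries.coeff N (ah_th A) = (N : R) * PowerSeries.coeff N A := PowerSeries.coeff_mk _ _

private theorem ah_th_mul (A B : PowerSeries R) : ah_th (A * B) = ah_th A * B + A * ah_th B := by
  ext N
  rw [ah_th_coeff, map_add, PowerSeries.coeff_mul, PowerSeries.coeff_mul, PowerSeries.coeff_mul,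
    Finset.mul_sum, ← Finset.sum_add_distrib]
  refine Finset.sum_congr rfl fun x hx => ?_
  replace hx := Finset.HasAntidiagonal.mem_antidiagonal.1 hx
  rw [ah_th_coeff, ah_th_coeff, ← hx, Nat.cast_add]
  ring

private theorem ah_L_mul {A B U V : PowerSeries R} (hA : ah_th A = A * U) (hB : ah_th B = B * V) :
    ah_th (A * B) = A * B * (U + V) := by
  rw [ah_th_mul, hA, hB]
  ring

private theorem ah_L_one : ah_th (1 : PowerSeries R) = 1 * 0 := by
  ext N
  rw [ah_th_coeff, mul_zero, map_zero, PowerSeries.coeff_one]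
  by_cases h : N = 0
  · rw [h, Nat.cast_zero, zero_mul]
  · rw [if_neg h, mul_zero]

private theorem ah_L_pow {A U : PowerSeries R} (hA : ah_th A = A * U) (c : ℕ) :
    ah_th (A ^ c) = A ^ c * (c • U) := by
  induction c with
  | zero => rw [pow_zero, zero_smul, ah_L_one]
  | succ c ih =>
    rw [pow_succ, ah_L_mul ih hA, succ_nsmul]

private theorem ah_L_prod {ι : Type*} (s : Finset ι) (A U : ι → PowerSeries R)
    (h : ∀ i ∈ s, ah_th (A i) = A i * U i) :
    ah_th (∏ i ∈ s, A i) = (∏ i ∈ s, A i) * ∑ i ∈ s, U i := by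
  classical
  induction s using Finset.induction_on with
  | empty => rw [Finset.prod_empty, Finset.sum_empty, ah_L_one]
  | insert a t ha ih =>
    rw [Finset.prod_insert ha, Finset.sum_insert ha]
    exact ah_L_mul (h a (Finset.mem_insert_self _ _))
      (ih fun i hi => h i (Finset.mem_insert_of_mem hi))

open Classical in
/-- the series `∑_{j ≥ 1} X ^ (r j)` -/
private noncomputable def ah_G (r : ℕ) : PowerSeries R :=
  PowerSeries.mk fun N => if r ∣ N ∧ 1 ≤ N then 1 else 0

private theorem ah_G_mul {r : ℕ} (hr : 1 ≤ r) :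
    (1 - PowerSeries.X ^ r) * (ah_G r : PowerSeries R) = PowerSeries.X ^ r := by
  ext N
  rw [sub_mul, one_mul, map_sub, PowerSeries.coeff_X_pow_mul', PowerSeries.coeff_X_pow, ah_G,
    PowerSeries.coeff_mk]
  by_cases h1 : r ≤ N
  · rw [if_pos h1, PowerSeries.coeff_mk]
    by_cases h2 : r ∣ N
    · have h3 : r ∣ N - r := Nat.dvd_sub h2 dvd_rfl
      rw [if_pos ⟨h2, hr.trans h1⟩]
      by_cases h4 : N = r
      · rw [if_pos h4, if_neg, sub_zero]
        rintro ⟨-, h⟩
        omega
      · rw [if_neg h4, if_pos ⟨h3, by omega⟩, sub_self]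
    · have h3 : ¬ r ∣ N - r := by
        intro h
        exact h2 (by
          have h5 := dvd_add h (dvd_refl r)
          rwa [Nat.sub_add_cancel h1] at h5)
      rw [if_neg fun h => h2 h.1, if_neg fun h => h3 h.1, sub_self, if_neg]
      rintro rfl
      exact h2 dvd_rfl
  · rw [if_neg h1, sub_zero, if_neg, if_neg]
    · intro h
      omega
    · rintro ⟨h, h'⟩
      exact h1 (Nat.le_of_dvd (by omega) h)

private theorem ah_L_lin {r : ℕ} (hr : 1 ≤ r) :
    ah_th (1 - PowerSeries.X ^ r : PowerSeries R) =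
      (1 - PowerSeries.X ^ r) * (-((r : PowerSeries R) * ah_G r)) := by
  have h1 : (1 - PowerSeries.X ^ r) * (-((r : PowerSeries R) * ah_G r)) =
      -((r : PowerSeries R) * ((1 - PowerSeries.X ^ r) * ah_G r)) := by ring
  rw [h1, ah_G_mul hr]
  ext N
  have h2 : (r : PowerSeries R) = PowerSeries.C (r : R) := (map_natCast _ _).symm
  rw [ah_th_coeff, map_sub, PowerSeries.coeff_one, PowerSeries.coeff_X_pow, map_neg, h2,
    PowerSeries.coeff_C_mul, PowerSeries.coeff_X_pow]
  by_cases h3 : N = 0
  · subst h3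
    rw [Nat.cast_zero, zero_mul, if_neg (by omega), mul_zero, neg_zero]
  · rw [if_neg h3, zero_sub]
    by_cases h4 : N = r
    · rw [if_pos h4, h4, mul_one, mul_neg, mul_one]
    · rw [if_neg h4, neg_zero, mul_zero, mul_zero, neg_zero]

end Aux

private theorem ah_mu (N : ℕ) (R : Type*) [Ring R] :
    ∑ r ∈ N.divisors, ((ArithmeticFunction.moebius r : ℤ) : R) = if N = 1 then 1 else 0 := by
  have h1 := ArithmeticFunction.coe_mul_zeta_apply (f := ArithmeticFunction.moebius) (x := N)
  rw [ArithmeticFunction.moebius_mul_coe_zeta, ArithmeticFunction.one_apply] at h1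
  have h2 := congrArg (fun z : ℤ => (z : R)) h1
  simp only [Int.cast_sum] at h2
  rw [← h2]
  by_cases h : N = 1
  · rw [if_pos h, if_pos h, Int.cast_one]
  · rw [if_neg h, if_neg h, Int.cast_zero]

private theorem ah_sum (p : ℕ) [hp : Fact p.Prime] (N : ℕ) (hN : N < p ^ 2) (h1 : 1 ≤ N)
    (R : Type*) [Ring R] :
    ∑ r ∈ (Finset.range (p ^ 2)).filter (fun r => ¬ p ∣ r),
      (if r ∣ N then ((ArithmeticFunction.moebius r : ℤ) : R) else 0) =
      (if N = 1 then 1 else 0) + (if N = p then 1 else 0) := by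
  rw [← Finset.sum_filter, Finset.filter_filter]
  have hp1 : 1 < p := hp.out.one_lt
  by_cases h : p ∣ N
  · obtain ⟨M, rfl⟩ := h
    have hM0 : 1 ≤ M := Nat.pos_of_ne_zero (by
      rintro rfl
      rw [mul_zero] at h1
      omega)
    have hMp : M < p := by
      rw [pow_two] at hN
      exact Nat.lt_of_mul_lt_mul_left hN
    have h2 : (Finset.range (p ^ 2)).filter (fun r => ¬ p ∣ r ∧ r ∣ p * M) = M.divisors := by
      ext r
      rw [Finset.mem_filter, Finset.mem_range, Nat.mem_divisors]
      constructor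
      · rintro ⟨-, h3, h4⟩
        refine ⟨?_, by omega⟩
        exact Nat.Coprime.dvd_of_dvd_mul_left ((Nat.Prime.coprime_iff_not_dvd hp.out).2 h3).symm h4
      · rintro ⟨h3, -⟩
        have h4 : r ≤ M := Nat.le_of_dvd hM0 h3
        have h5 : 0 < r := Nat.pos_of_dvd_of_pos h3 hM0
        refine ⟨?_, fun h => ?_, dvd_mul_of_dvd_right h3 p⟩
        · have : p ≤ p ^ 2 := Nat.le_self_pow (by norm_num) p
          omega
        · have := Nat.le_of_dvd h5 h
          omega
    rw [h2, ah_mu, if_neg (show ¬ p * M = 1 by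
      intro h
      have := Nat.eq_one_of_mul_eq_one_right h
      omega), zero_add]
    have h3 : M = 1 ↔ p * M = p := by
      constructor
      · intro h
        rw [h, mul_one]
      · intro h
        exact Nat.eq_of_mul_eq_mul_left (by omega) (h.trans (mul_one p).symm)
    by_cases h4 : M = 1
    · rw [if_pos h4, if_pos (h3.1 h4)]
    · rw [if_neg h4, if_neg fun h => h4 (h3.2 h)]
  · have h2 : (Finset.range (p ^ 2)).filter (fun r => ¬ p ∣ r ∧ r ∣ N) = N.divisors := by
      ext r
      rw [Finset.mem_filter, Finset.mem_range, Nat.mem_divisors]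
      constructor
      · rintro ⟨-, -, h4⟩
        exact ⟨h4, by omega⟩
      · rintro ⟨h3, -⟩
        have h4 : r ≤ N := Nat.le_of_dvd h1 h3
        exact ⟨by omega, fun h5 => h (h5.trans h3), h3⟩
    rw [h2, ah_mu, if_neg (show ¬ N = p by
      rintro rfl
      exact h dvd_rfl), add_zero]

theorem exists_AH (p : ℕ) [Fact p.Prime] : ∃ A : PowerSeries (ZMod p),
    PowerSeries.coeff 0 A = 1 ∧ ∀ N : ℕ, N < p ^ 2 →
      (N : ZMod p) * PowerSeries.coeff N A =
        (if 1 ≤ N then PowerSeries.coeff (N - 1) A else 0) +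
        (if p ≤ N then PowerSeries.coeff (N - p) A else 0) := by
  classical
  have hp : p.Prime := Fact.out
  let c : ℕ → ℕ := fun r => ((-(ArithmeticFunction.moebius r : ℤ) : ZMod p) * (r : ZMod p)⁻¹).val
  have hc : ∀ r : ℕ, ¬ p ∣ r → ((c r : ℕ) : ZMod p) * (r : ZMod p) =
      -((ArithmeticFunction.moebius r : ℤ) : ZMod p) := by
    intro r hr
    have h1 : (r : ZMod p) ≠ 0 := fun h => hr ((ZMod.natCast_eq_zero_iff r p).1 h)
    rw [ZMod.natCast_zmod_val, mul_assoc, inv_mul_cancel₀ h1, mul_one]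
  let S : Finset ℕ := (Finset.range (p ^ 2)).filter (fun r => ¬ p ∣ r)
  have hS : ∀ r ∈ S, ¬ p ∣ r := fun r hr => (Finset.mem_filter.1 hr).2
  have hS1 : ∀ r ∈ S, 1 ≤ r := by
    intro r hr
    rcases Nat.eq_zero_or_pos r with h | h
    · exact absurd (h ▸ dvd_zero p) (hS r hr)
    · exact h
  let A : PowerSeries (ZMod p) := ∏ r ∈ S, (1 - PowerSeries.X ^ r) ^ c r
  let U : PowerSeries (ZMod p) := ∑ r ∈ S, c r • (-((r : PowerSeries (ZMod p)) * ah_G r))
  have hA : ah_th A = A * U := ah_L_prod S _ _ fun r hr => ah_L_pow (ah_L_lin (hS1 r hr)) _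
  have hU : ∀ N, N < p ^ 2 → PowerSeries.coeff N U =
      (if N = 1 then 1 else 0) + (if N = p then 1 else 0) := by
    intro N hN
    have h1 : PowerSeries.coeff N U = ∑ r ∈ S, (if r ∣ N ∧ 1 ≤ N then
        ((ArithmeticFunction.moebius r : ℤ) : ZMod p) else 0) := by
      change PowerSeries.coeff N (∑ r ∈ S, c r • (-((r : PowerSeries (ZMod p)) * ah_G r))) = _
      rw [map_sum]
      refine Finset.sum_congr rfl fun r hr => ?_
      have h2 : (c r • (-((r : PowerSeries (ZMod p)) * ah_G r)) : PowerSeries (ZMod p)) =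
          PowerSeries.C (-(((c r : ℕ) : ZMod p) * (r : ZMod p))) * ah_G r := by
        rw [nsmul_eq_mul, map_neg, map_mul, map_natCast, map_natCast]
        ring
      rw [h2, hc r (hS r hr), neg_neg, PowerSeries.coeff_C_mul, ah_G, PowerSeries.coeff_mk,
        mul_ite, mul_one, mul_zero]
    rw [h1]
    rcases Nat.eq_zero_or_pos N with h2 | h2
    · subst h2
      have h3 : (0 : ℕ) ≠ p := hp.ne_zero.symm
      rw [if_neg (by norm_num), if_neg h3, add_zero]
      refine Finset.sum_eq_zero fun r _ => ?_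
      rw [if_neg]
      rintro ⟨-, h⟩
      omega
    · rw [← ah_sum p N hN h2 (ZMod p)]
      refine Finset.sum_congr rfl fun r _ => ?_
      by_cases h3 : r ∣ N
      · rw [if_pos ⟨h3, h2⟩, if_pos h3]
      · rw [if_neg fun h => h3 h.1, if_neg h3]
  refine ⟨A, ?_, fun N hN => ?_⟩
  · rw [PowerSeries.coeff_zero_eq_constantCoeff_apply]
    change PowerSeries.constantCoeff (∏ r ∈ S, (1 - PowerSeries.X ^ r) ^ c r) = 1
    rw [map_prod]
    refine Finset.prod_eq_one fun r hr => ?_
    rw [map_pow, map_sub, map_one, map_pow, PowerSeries.constantCoeff_X,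
      zero_pow (by have := hS1 r hr; omega), sub_zero, one_pow]
  · rw [← ah_th_coeff, hA]
    have h1 : PowerSeries.coeff N (A * U) =
        PowerSeries.coeff N (A * (PowerSeries.X ^ 1 + PowerSeries.X ^ p)) := by
      rw [PowerSeries.coeff_mul, PowerSeries.coeff_mul]
      refine Finset.sum_congr rfl fun x hx => ?_
      replace hx := Finset.HasAntidiagonal.mem_antidiagonal.1 hx
      rw [hU x.2 (by omega), map_add, PowerSeries.coeff_X_pow, PowerSeries.coeff_X_pow]
    rw [h1, mul_add, map_add, PowerSeries.coeff_mul_X_pow', PowerSeries.coeff_mul_X_pow']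

/-- The Artin-Hasse series modulo `p` (truncated). -/
noncomputable def AH (p : ℕ) [Fact p.Prime] : PowerSeries (ZMod p) := Classical.choose (exists_AH p)

theorem AH_zero (p : ℕ) [Fact p.Prime] : PowerSeries.coeff 0 (AH p) = 1 :=
  (Classical.choose_spec (exists_AH p)).1

theorem AH_rec (p : ℕ) [Fact p.Prime] (N : ℕ) (hN : N < p ^ 2) :
    (N : ZMod p) * PowerSeries.coeff N (AH p) =
      (if 1 ≤ N then PowerSeries.coeff (N - 1) (AH p) else 0) +
      (if p ≤ N then PowerSeries.coeff (N - p) (AH p) else 0) :=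
  (Classical.choose_spec (exists_AH p)).2 N hN

end MPadcBK
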