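import Pool.Agent.Lib.MP_adc574_ag_BK.AH

/-!
# JOB EC: the series `E(T) = ∏_u AH (- a_u x^u T)` of a polynomial `F = ∑ a_u x^u`

`Ec_der`: for a derivation `D` of `S = MvPolynomial σ R` and `c = - a_u x^u`: `D (coeff N (rescale c A)) = D (c ^ N) A_N = N c^(N-1) D c A_N = (D c) (c^(N-1) A_(N-1) + c^(p-1) c^(N-p) A_(N-p))` for
`N < p²` by `AH_rec`. For products: `D (coeff N (P Q)) = ∑ (D P_a) Q_b + P_a (D Q_b)`; so if `D P_a = U P_(a-1) + V P_(a-p)` and `D Q_b = U' Q_(b-1) + V' Q_(b-p)` for all `a, b < p²` then the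
product satisfies it with `U + U'`, `V + V'` (`Finset.Nat.antidiagonal` sums; induction over the finite set of the support). `∑ D (- a_u x^u) = - D F`, and
`(- a_u x^u)^(p-1) D (- a_u x^u) = - (a_u x^u)^(p-1) D (a_u x^u)` as `(-1)^p = -1` in characteristic `p`.
-/

set_option autoImplicit false

namespace MPadcBK

open MvPolynomial

variable {R σ : Type*} [CommRing R] (p : ℕ) [Fact p.Prime] [CharP R p]

/-- The series `E(T)` of the polynomial `F`. -/
noncomputable def ES (F : MvPolynomial σ R) : PowerSeries (MvPolynomial σ R) :=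
  ∏ u ∈ F.support, PowerSeries.rescale (-(monomial u (F.coeff u)))
    (PowerSeries.map ((C : R →+* MvPolynomial σ R).comp (ZMod.castHom (dvd_refl p) R)) (AH p))

/-- The coefficients of `E(T)`. -/
noncomputable def Ec (F : MvPolynomial σ R) (N : ℕ) : MvPolynomial σ R := PowerSeries.coeff N (ES p F)

/-- The coefficients of `E(T)`, `0` for negative indices. -/
noncomputable def Eci (F : MvPolynomial σ R) (N : ℤ) : MvPolynomial σ R :=
  if 0 ≤ N then Ec p F N.toNat else 0

/-- the ring homomorphism from the prime field -/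
private noncomputable def ec_iota (R σ : Type*) [CommRing R] (p : ℕ) [CharP R p] :
    ZMod p →+* MvPolynomial σ R :=
  (C : R →+* MvPolynomial σ R).comp (ZMod.castHom (dvd_refl p) R)

private theorem ec_coeff (c : MvPolynomial σ R) (N : ℕ) :
    PowerSeries.coeff N (PowerSeries.rescale c (PowerSeries.map (ec_iota R σ p) (AH p))) =
      c ^ N * ec_iota R σ p (PowerSeries.coeff N (AH p)) := by
  rw [PowerSeries.coeff_rescale, PowerSeries.coeff_map]

private theorem ec_factor_zero :
    PowerSeries.rescale (0 : MvPolynomial σ R) (PowerSeries.map (ec_iota R σ p) (AH p)) = 1 := by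
  ext1 N
  rw [ec_coeff, PowerSeries.coeff_one]
  by_cases h : N = 0
  · subst h
    rw [if_pos rfl, pow_zero, one_mul, AH_zero, map_one]
  · rw [if_neg h, zero_pow h, zero_mul]

private theorem ec_ES (F : MvPolynomial σ R) : ES p F =
    ∏ u ∈ F.support, PowerSeries.rescale (-(monomial u (F.coeff u)))
      (PowerSeries.map (ec_iota R σ p) (AH p)) := rfl

theorem Ec_zero (F : MvPolynomial σ R) : Ec p F 0 = 1 := by
  unfold Ec
  rw [ec_ES, PowerSeries.coeff_zero_eq_constantCoeff_apply, map_prod]
  apply Finset.prod_eq_one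
  intro u _
  rw [← PowerSeries.coeff_zero_eq_constantCoeff_apply, ec_coeff, pow_zero, one_mul, AH_zero,
    map_one]

private theorem ec_hom_prod {ι : Type*} (s : Finset ι) (P : ι → PowerSeries (MvPolynomial σ R))
    {d : ℕ} (h : ∀ i ∈ s, ∀ N, (PowerSeries.coeff N (P i)).IsHomogeneous (N * d)) (N : ℕ) :
    (PowerSeries.coeff N (∏ i ∈ s, P i)).IsHomogeneous (N * d) := by
  classical
  induction s using Finset.induction_on generalizing N with
  | empty =>
    rw [Finset.prod_empty, PowerSeries.coeff_one]
    by_cases h : N = 0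
    · subst h
      rw [if_pos rfl, zero_mul]
      exact isHomogeneous_one σ R
    · rw [if_neg h]
      exact isHomogeneous_zero σ R _
  | insert a s ha ih =>
    rw [Finset.prod_insert ha, PowerSeries.coeff_mul]
    apply IsHomogeneous.sum
    intro x hx
    have h1 : x.1 * d + x.2 * d = N * d := by
      rw [← add_mul, Finset.HasAntidiagonal.mem_antidiagonal.mp hx]
    rw [← h1]
    exact (h a (Finset.mem_insert_self a s) x.1).mul
      (ih (fun i hi => h i (Finset.mem_insert_of_mem hi)) x.2)

theorem Ec_hom {F : MvPolynomial σ R} {d : ℕ} (hF : F.IsHomogeneous d) (N : ℕ) :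
    (Ec p F N).IsHomogeneous (N * d) := by
  unfold Ec
  rw [ec_ES]
  apply ec_hom_prod
  intro u hu N
  rw [ec_coeff]
  have hdeg : u.degree = d := by
    have h1 := hF (mem_support_iff.mp hu)
    rw [Finsupp.degree_eq_weight_one]
    exact h1
  have h2 : (-(monomial u (F.coeff u)) : MvPolynomial σ R).IsHomogeneous d :=
    (isHomogeneous_monomial _ hdeg).neg
  have h3 := (h2.pow N).mul (isHomogeneous_C σ
    (ZMod.castHom (dvd_refl p) R (PowerSeries.coeff N (AH p))))
  rw [add_zero, mul_comm d N] at h3
  exact h3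

theorem Ec_map {R' : Type*} [CommRing R'] [CharP R' p] (φ : R →+* R') (F : MvPolynomial σ R)
    (N : ℕ) : Ec p (MvPolynomial.map φ F) N = MvPolynomial.map φ (Ec p F N) := by
  classical
  unfold Ec
  rw [← PowerSeries.coeff_map]
  congr 1
  rw [ec_ES, ec_ES, map_prod]
  have hfac : ∀ u, PowerSeries.map (MvPolynomial.map φ : MvPolynomial σ R →+* MvPolynomial σ R')
      (PowerSeries.rescale (-(monomial u (F.coeff u)))
        (PowerSeries.map (ec_iota R σ p) (AH p))) =
      PowerSeries.rescale (-(monomial u ((MvPolynomial.map φ F).coeff u)))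
        (PowerSeries.map (ec_iota R' σ p) (AH p)) := by
    intro u
    ext1 N
    rw [PowerSeries.coeff_map, ec_coeff, ec_coeff, map_mul, map_pow, map_neg, map_monomial,
      coeff_map]
    have h1 : (MvPolynomial.map φ : MvPolynomial σ R →+* MvPolynomial σ R').comp
        (ec_iota R σ p) = ec_iota R' σ p := Subsingleton.elim _ _
    rw [← h1, RingHom.comp_apply]
  rw [Finset.prod_congr rfl (fun u _ => hfac u)]
  refine Finset.prod_subset (support_map_subset φ F) ?_
  intro u _ hu
  rw [notMem_support_iff.mp hu, monomial_zero, neg_zero, ec_factor_zero]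

/-- the differential equation for power series -/
private def ec_DP (D : Derivation ℤ (MvPolynomial σ R) (MvPolynomial σ R)) (M : ℕ)
    (P : PowerSeries (MvPolynomial σ R)) (U V : MvPolynomial σ R) : Prop :=
  ∀ N, N < M → D (PowerSeries.coeff N P) = PowerSeries.coeff N
    (PowerSeries.C U * PowerSeries.X ^ 1 * P + PowerSeries.C V * PowerSeries.X ^ p * P)

private theorem ec_DP_coeff (P : PowerSeries (MvPolynomial σ R)) (U V : MvPolynomial σ R) (N : ℕ) :
    PowerSeries.coeff N
      (PowerSeries.C U * PowerSeries.X ^ 1 * P + PowerSeries.C V * PowerSeries.X ^ p * P) =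
    U * (if 1 ≤ N then PowerSeries.coeff (N - 1) P else 0) +
      V * (if p ≤ N then PowerSeries.coeff (N - p) P else 0) := by
  rw [map_add, mul_assoc, mul_assoc, PowerSeries.coeff_C_mul, PowerSeries.coeff_C_mul,
    PowerSeries.coeff_X_pow_mul', PowerSeries.coeff_X_pow_mul']

private theorem ec_iota_der (D : Derivation ℤ (MvPolynomial σ R) (MvPolynomial σ R))
    (a : ZMod p) : D (ec_iota R σ p a) = 0 := by
  have h1 : ec_iota R σ p a = ((a.val : ℕ) : MvPolynomial σ R) := by
    conv_lhs => rw [← ZMod.natCast_zmod_val a]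
    exact map_natCast _ _
  rw [h1]
  exact D.map_natCast _

private theorem ec_DP_one (D : Derivation ℤ (MvPolynomial σ R) (MvPolynomial σ R))
    (c : MvPolynomial σ R) :
    ec_DP p D (p ^ 2) (PowerSeries.rescale c (PowerSeries.map (ec_iota R σ p) (AH p)))
      (D c) (c ^ (p - 1) * D c) := by
  have hp1 : 1 ≤ p := (Fact.out : p.Prime).one_lt.le
  intro N hN
  rw [ec_DP_coeff, ec_coeff]
  have hrec := AH_rec p N hN
  have h1 : D (c ^ N * ec_iota R σ p (PowerSeries.coeff N (AH p))) =
      (c ^ (N - 1) * D c) * ec_iota R σ p ((N : ZMod p) * PowerSeries.coeff N (AH p)) := by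
    rw [Derivation.leibniz, ec_iota_der, smul_zero, zero_add, Derivation.leibniz_pow, map_mul,
      map_natCast, nsmul_eq_mul, smul_eq_mul, smul_eq_mul]
    ring
  rw [h1, hrec, map_add, mul_add]
  congr 1
  · by_cases h : 1 ≤ N
    · rw [if_pos h, if_pos h, ec_coeff]
      ring
    · rw [if_neg h, if_neg h, map_zero, mul_zero, mul_zero]
  · by_cases h : p ≤ N
    · rw [if_pos h, if_pos h, ec_coeff]
      have h2 : c ^ (N - 1) = c ^ (p - 1) * c ^ (N - p) := by
        rw [← pow_add]
        congr 1
        omega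
      rw [h2]
      ring
    · rw [if_neg h, if_neg h, map_zero, mul_zero, mul_zero]

private theorem ec_DP_mul (D : Derivation ℤ (MvPolynomial σ R) (MvPolynomial σ R)) {M : ℕ}
    {P Q : PowerSeries (MvPolynomial σ R)} {U V U' V' : MvPolynomial σ R}
    (h : ec_DP p D M P U V) (h' : ec_DP p D M Q U' V') :
    ec_DP p D M (P * Q) (U + U') (V + V') := by
  intro N hN
  have h1 : PowerSeries.C (U + U') * PowerSeries.X ^ 1 * (P * Q) +
      PowerSeries.C (V + V') * PowerSeries.X ^ p * (P * Q) =
      P * (PowerSeries.C U' * PowerSeries.X ^ 1 * Q + PowerSeries.C V' * PowerSeries.X ^ p * Q) +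
      (PowerSeries.C U * PowerSeries.X ^ 1 * P + PowerSeries.C V * PowerSeries.X ^ p * P) * Q := by
    rw [map_add, map_add]
    ring
  rw [h1, map_add, PowerSeries.coeff_mul, PowerSeries.coeff_mul, PowerSeries.coeff_mul, map_sum,
    ← Finset.sum_add_distrib]
  apply Finset.sum_congr rfl
  intro x hx
  have hx' := Finset.HasAntidiagonal.mem_antidiagonal.mp hx
  rw [Derivation.leibniz, h x.1 (by omega), h' x.2 (by omega), smul_eq_mul, smul_eq_mul]
  ring

private theorem ec_DP_prod (D : Derivation ℤ (MvPolynomial σ R) (MvPolynomial σ R)) {M : ℕ}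
    {ι : Type*} (s : Finset ι) (P : ι → PowerSeries (MvPolynomial σ R))
    (U V : ι → MvPolynomial σ R) (h : ∀ i ∈ s, ec_DP p D M (P i) (U i) (V i)) :
    ec_DP p D M (∏ i ∈ s, P i) (∑ i ∈ s, U i) (∑ i ∈ s, V i) := by
  classical
  induction s using Finset.induction_on with
  | empty =>
    intro N _
    rw [ec_DP_coeff, Finset.prod_empty, Finset.sum_empty, Finset.sum_empty, zero_mul, zero_mul,
      add_zero, PowerSeries.coeff_one]
    by_cases h : N = 0
    · rw [if_pos h]
      exact D.map_one_eq_zero
    · rw [if_neg h, map_zero]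
  | insert a s ha ih =>
    rw [Finset.prod_insert ha, Finset.sum_insert ha, Finset.sum_insert ha]
    exact ec_DP_mul p D (h a (Finset.mem_insert_self a s))
      (ih (fun i hi => h i (Finset.mem_insert_of_mem hi)))

theorem Ec_der (D : Derivation ℤ (MvPolynomial σ R) (MvPolynomial σ R)) (F : MvPolynomial σ R)
    (N : ℤ) (hN : N < p ^ 2) :
    D (Eci p F N) = -(D F * Eci p F (N - 1) +
      (∑ u ∈ F.support, monomial u (F.coeff u) ^ (p - 1) * D (monomial u (F.coeff u))) *
        Eci p F (N - p)) := by
  classical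
  have hp1 : 1 ≤ p := (Fact.out : p.Prime).one_lt.le
  have hpz : (1 : ℤ) ≤ p := by exact_mod_cast hp1
  by_cases h0 : 0 ≤ N
  · obtain ⟨n, rfl⟩ := Int.eq_ofNat_of_zero_le h0
    have hn : n < p ^ 2 := by exact_mod_cast hN
    have h1 := ec_DP_prod p D F.support _ _ _ (fun u _ => ec_DP_one p D (-(monomial u (F.coeff u))))
      n hn
    rw [ec_DP_coeff, ← ec_ES] at h1
    have hU : ∑ u ∈ F.support, D (-(monomial u (F.coeff u))) = -(D F) := by
      conv_rhs => rw [← support_sum_monomial_coeff F]
      rw [map_sum, ← Finset.sum_neg_distrib]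
      apply Finset.sum_congr rfl
      intro u _
      exact map_neg _ _
    have hV : ∑ u ∈ F.support, (-(monomial u (F.coeff u))) ^ (p - 1) *
        D (-(monomial u (F.coeff u))) =
        -(∑ u ∈ F.support, monomial u (F.coeff u) ^ (p - 1) * D (monomial u (F.coeff u))) := by
      rw [← Finset.sum_neg_distrib]
      apply Finset.sum_congr rfl
      intro u _
      have h2 : (-1 : MvPolynomial σ R) ^ p = -1 := by
        have h3 : (-1 : R) ^ p = -1 := neg_one_pow_char R p
        have h4 := congrArg (C : R →+* MvPolynomial σ R) h3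
        rw [map_pow, map_neg, map_one] at h4
        exact h4
      have h5 : (-1 : MvPolynomial σ R) ^ (p - 1) * (-1) = -1 := by
        rw [← pow_succ, Nat.sub_add_cancel hp1, h2]
      rw [map_neg, neg_pow]
      linear_combination (monomial u (F.coeff u) ^ (p - 1) * D (monomial u (F.coeff u))) * h5
    rw [hU, hV] at h1
    have e0 : Eci p F (n : ℤ) = PowerSeries.coeff n (ES p F) := by
      unfold Eci
      rw [if_pos (Int.natCast_nonneg n), Int.toNat_natCast]
      rfl
    have e1 : Eci p F ((n : ℤ) - 1) = if 1 ≤ n then PowerSeries.coeff (n - 1) (ES p F) else 0 := by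
      unfold Eci
      by_cases h : 1 ≤ n
      · have h6 : (0 : ℤ) ≤ (n : ℤ) - 1 := by omega
        have h7 : ((n : ℤ) - 1).toNat = n - 1 := by omega
        rw [if_pos h6, if_pos h, h7]
        rfl
      · have h6 : ¬ (0 : ℤ) ≤ (n : ℤ) - 1 := by omega
        rw [if_neg h6, if_neg h]
    have e2 : Eci p F ((n : ℤ) - p) = if p ≤ n then PowerSeries.coeff (n - p) (ES p F) else 0 := by
      unfold Eci
      by_cases h : p ≤ n
      · have h6 : (0 : ℤ) ≤ (n : ℤ) - p := by omega
        have h7 : ((n : ℤ) - p).toNat = n - p := by omega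
        rw [if_pos h6, if_pos h, h7]
        rfl
      · have h6 : ¬ (0 : ℤ) ≤ (n : ℤ) - p := by omega
        rw [if_neg h6, if_neg h]
    rw [e0, e1, e2, h1]
    ring
  · have e0 : Eci p F N = 0 := by
      unfold Eci
      rw [if_neg h0]
    have e1 : Eci p F (N - 1) = 0 := by
      unfold Eci
      rw [if_neg (by omega)]
    have e2 : Eci p F (N - p) = 0 := by
      unfold Eci
      rw [if_neg (by omega)]
    rw [e0, e1, e2, mul_zero, mul_zero, add_zero, neg_zero, map_zero]

end MPadcBK
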