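import Pool.Agent.Lib.MP_adc574_ag_BK.Frob
import Pool.Agent.Lib.MP_adc574_ag_BK.EC

/-!
# JOB EForm: the coefficients of `E(T)` as forms

`dd_pf_eq`: coefficientwise, `ι (bar e) = ∑ i, (e i) ι (Pi.single i 1)` and `X i * ∂_i (x^u) = u_i x^u`.
`dd_pf_Eci`: by `dd_pf_eq` and `Ec_der` applied to the derivations `D_i = X i • pderiv i` (as a `Derivation ℤ`: `(X i • (pderiv i)).restrictScalars ℤ`);
`D_i (monomial u a) = u_i • monomial u a`, so `∑_u mono^(p-1) D_i mono = ∑_u u_i mono^p` and
`Fr (dd (pf F)) = ∑_u (a_u)^p x^(p u) ι (bar u)` (`Fr_mo`, `tw_iota`, Frobenius is the identity on integers).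
`Ec_fact`: (in `MvPolynomial σ R`) if two power series `P, Q` satisfy `N! P_N = a^N`, `N! Q_N = b^N` for all `N < p` then `N! (P Q)_N = (a+b)^N` for `N < p`
(binomial theorem `add_pow` over `Finset.antidiagonal`, `N! = (N choose k) k! (N-k)!`);
`N! (AH)_N = 1` for `N < p` by induction from `AH_rec` (`N (AH)_N = (AH)_(N-1)`); `rescale c`: `N! = c^N`. Induction over the support of `F`; `∑ (- monomial) = - F`.
`pf_Ec_last`: `N = p - 1`, `(p-1)! = -1` (`ZMod.wilsons_lemma`), `(-1)^(p-1) = 1`.
-/

set_option autoImplicit false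

namespace MPadcBK

open ExteriorAlgebra

universe u

private theorem eform_fact_AH (p : ℕ) [Fact p.Prime] (N : ℕ) (hN : N < p) :
    (N.factorial : ZMod p) * PowerSeries.coeff N (AH p) = 1 := by
  induction N with
  | zero => rw [Nat.factorial_zero, Nat.cast_one, one_mul, AH_zero]
  | succ N ih =>
    have hp : p.Prime := Fact.out
    have h1 : N + 1 < p ^ 2 := lt_of_lt_of_le hN (Nat.le_self_pow (by norm_num) p)
    have h2 := AH_rec p (N + 1) h1
    rw [if_pos (Nat.succ_le_succ (Nat.zero_le N)), if_neg (not_le.mpr hN), add_zero,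
      Nat.add_sub_cancel] at h2
    rw [Nat.factorial_succ, Nat.cast_mul, mul_comm ((N + 1 : ℕ) : ZMod p), mul_assoc, h2]
    exact ih (by omega)

/-- the truncated exponential property -/
private def eform_P {S : Type*} [CommRing S] (p : ℕ) (P : PowerSeries S) (a : S) : Prop :=
  ∀ N, N < p → (N.factorial : S) * PowerSeries.coeff N P = a ^ N

private theorem eform_P_mul {S : Type*} [CommRing S] (p : ℕ) {P Q : PowerSeries S} {a b : S}
    (hP : eform_P p P a) (hQ : eform_P p Q b) : eform_P p (P * Q) (a + b) := by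
  intro N hN
  rw [PowerSeries.coeff_mul, Finset.mul_sum, (Commute.all a b).add_pow']
  refine Finset.sum_congr rfl fun x hx => ?_
  have hx' := Finset.HasAntidiagonal.mem_antidiagonal.mp hx
  rw [← hP x.1 (by omega), ← hQ x.2 (by omega)]
  have h1 : N.factorial = N.choose x.1 * x.1.factorial * x.2.factorial := by
    rw [← hx', Nat.choose_symm_add]
    exact (Nat.add_choose_mul_factorial_mul_factorial x.1 x.2).symm
  rw [h1, nsmul_eq_mul, Nat.cast_mul, Nat.cast_mul]
  ring

private theorem eform_P_prod {S ι : Type*} [CommRing S] (p : ℕ) (s : Finset ι)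
    (P : ι → PowerSeries S) (a : ι → S) (h : ∀ i ∈ s, eform_P p (P i) (a i)) :
    eform_P p (∏ i ∈ s, P i) (∑ i ∈ s, a i) := by
  classical
  induction s using Finset.induction_on with
  | empty =>
    intro N _
    rw [Finset.prod_empty, Finset.sum_empty, PowerSeries.coeff_one]
    by_cases h : N = 0
    · subst h
      rw [if_pos rfl, Nat.factorial_zero, Nat.cast_one, one_mul, pow_zero]
    · rw [if_neg h, mul_zero, zero_pow h]
  | insert i s hi ih =>
    rw [Finset.prod_insert hi, Finset.sum_insert hi]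
    exact eform_P_mul p (h i (Finset.mem_insert_self i s))
      (ih fun j hj => h j (Finset.mem_insert_of_mem hj))

theorem Ec_fact {R σ : Type*} [CommRing R] (p : ℕ) [Fact p.Prime] [CharP R p]
    (F : MvPolynomial σ R) {N : ℕ} (hN : N < p) :
    (N.factorial : MvPolynomial σ R) * Ec p F N = (-F) ^ N := by
  have h1 : ∀ u ∈ F.support, eform_P p (PowerSeries.rescale (-(MvPolynomial.monomial u (F.coeff u)))
      (PowerSeries.map ((MvPolynomial.C : R →+* MvPolynomial σ R).comp
        (ZMod.castHom (dvd_refl p) R)) (AH p))) (-(MvPolynomial.monomial u (F.coeff u))) := by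
    intro u _ M hM
    have h2 := congrArg ((MvPolynomial.C : R →+* MvPolynomial σ R).comp
        (ZMod.castHom (dvd_refl p) R)) (eform_fact_AH p M hM)
    rw [map_mul, map_natCast, map_one] at h2
    rw [PowerSeries.coeff_rescale, PowerSeries.coeff_map, mul_left_comm, h2, mul_one]
  have h3 := eform_P_prod p F.support _ _ h1 N hN
  have h4 : ∑ u ∈ F.support, -(MvPolynomial.monomial u (F.coeff u)) = -F := by
    rw [Finset.sum_neg_distrib, MvPolynomial.support_sum_monomial_coeff]
  rw [h4] at h3
  exact h3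

theorem Ec_last {R σ : Type*} [CommRing R] (p : ℕ) [Fact p.Prime] [CharP R p]
    (F : MvPolynomial σ R) : Ec p F (p - 1) = - F ^ (p - 1) := by
  have hp1 : 1 ≤ p := (Fact.out : p.Prime).one_lt.le
  have h1 := Ec_fact p F (N := p - 1) (by omega)
  have h2 : (((p - 1).factorial : ℕ) : MvPolynomial σ R) = -1 := by
    have h3 := congrArg ((MvPolynomial.C : R →+* MvPolynomial σ R).comp
        (ZMod.castHom (dvd_refl p) R)) (ZMod.wilsons_lemma p)
    rw [map_natCast, map_neg, map_one] at h3
    exact h3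
  have h4 : (-1 : MvPolynomial σ R) ^ p = -1 := by
    have h3 : (-1 : R) ^ p = -1 := neg_one_pow_char R p
    have h4 := congrArg (MvPolynomial.C : R →+* MvPolynomial σ R) h3
    rw [map_pow, map_neg, map_one] at h4
    exact h4
  have h5 : (-1 : MvPolynomial σ R) ^ (p - 1) * (-1) = -1 := by
    rw [← pow_succ, Nat.sub_add_cancel hp1, h4]
  rw [h2, neg_pow] at h1
  linear_combination (-1) * h1 + F ^ (p - 1) * h5

variable {κ : Type u} [Field κ] {m : ℕ}

/-- The form `dlog x_i`. -/
noncomputable def dl (i : Fin m) : Fo κ m := AddMonoidAlgebra.single 0 (ι κ (Pi.single i 1))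

private theorem eform_dd_single (e : Ex m) (a : Lam κ m) :
    dd (AddMonoidAlgebra.single e a : Fo κ m) = AddMonoidAlgebra.single e (ι κ (bar κ e) * a) := by
  classical
  apply fo_ext
  intro e'
  rw [dd_coeff, AddMonoidAlgebra.coeff_single, AddMonoidAlgebra.coeff_single,
    Finsupp.single_apply, Finsupp.single_apply]
  by_cases h : e = e'
  · subst h
    rw [if_pos rfl, if_pos rfl]
  · rw [if_neg h, if_neg h, mul_zero]

private theorem eform_pf_monomial (u : Fin m →₀ ℕ) (a : κ) :
    (pf (MvPolynomial.monomial u a) : Fo κ m) =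
      AddMonoidAlgebra.single (ex u) (algebraMap κ (Lam κ m) a) := by
  unfold pf fn
  rw [pl_monomial, AddMonoidAlgebra.mapRingHom_single]

theorem dd_pf_eq (G : MvPolynomial (Fin m) κ) :
    (dd (pf G) : Fo κ m) = ∑ i, dl i * pf (MvPolynomial.X i * MvPolynomial.pderiv i G) := by
  induction G using MvPolynomial.induction_on' with
  | monomial u a =>
    have h1 : ∀ i : Fin m, (dl i * pf (MvPolynomial.X i * MvPolynomial.pderiv i
        (MvPolynomial.monomial u a)) : Fo κ m) =
        AddMonoidAlgebra.single (ex u) (ι κ ((u i : κ) • (Pi.single i 1 : Fin m → κ)) *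
          algebraMap κ (Lam κ m) a) := by
      intro i
      rw [MvPolynomial.X_mul_pderiv_monomial, ← map_nsmul, eform_pf_monomial]
      unfold dl
      rw [AddMonoidAlgebra.single_mul_single, zero_add, (ι κ).map_smul, smul_mul_assoc,
        nsmul_eq_mul, map_mul, ← Algebra.smul_def, mul_smul_comm]
    rw [Finset.sum_congr rfl fun i _ => h1 i, eform_pf_monomial, eform_dd_single]
    have h2 : bar κ (ex u) = ∑ i, (u i : κ) • (Pi.single i 1 : Fin m → κ) := by
      funext j
      rw [Finset.sum_apply]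
      have h3 : ∀ i : Fin m, ((u i : κ) • (Pi.single i 1 : Fin m → κ)) j =
          if j = i then (u i : κ) else 0 := by
        intro i
        rw [Pi.smul_apply, Pi.single_apply, smul_eq_mul, mul_ite, mul_one, mul_zero]
      rw [Finset.sum_congr rfl fun i _ => h3 i, Finset.sum_ite_eq, if_pos (Finset.mem_univ j)]
      change (((u j : ℕ) : ℤ) : κ) = _
      exact Int.cast_natCast _
    rw [h2, map_sum, Finset.sum_mul]
    exact map_sum (AddMonoidAlgebra.singleAddHom (ex u)) _ _
  | add F G hF hG =>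
    rw [pf_add, map_add, hF, hG, ← Finset.sum_add_distrib]
    refine Finset.sum_congr rfl fun i _ => ?_
    rw [map_add, mul_add, pf_add, mul_add]

variable (p : ℕ) [hp : Fact p.Prime] [CharP κ p] [PerfectRing κ p]

private theorem eform_Fr_dl (i : Fin m) : Fr p (dl i : Fo κ m) = dl i := by
  unfold dl
  change AddMonoidAlgebra.mapDomain (pmul p m)
    (AddMonoidAlgebra.mapRingHom (Ex m) (tw (frobeniusEquiv κ p)).toRingHom
      (AddMonoidAlgebra.single 0 (ι κ (Pi.single i 1 : Fin m → κ)))) = _
  rw [AddMonoidAlgebra.mapRingHom_single, AddMonoidAlgebra.mapDomain_single, map_zero]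
  congr 1
  change tw (frobeniusEquiv κ p) (ι κ (Pi.single i 1 : Fin m → κ)) = _
  rw [tw_iota]
  congr 1
  funext j
  rw [Pi.single_apply]
  split_ifs
  · exact map_one _
  · exact map_zero _

omit [PerfectRing κ p] in
private theorem eform_pow (F : MvPolynomial (Fin m) κ) (i : Fin m) :
    (MvPolynomial.X i * MvPolynomial.pderiv i F) ^ p =
      ∑ u ∈ F.support, MvPolynomial.monomial u (F.coeff u) ^ (p - 1) *
        (MvPolynomial.X i * MvPolynomial.pderiv i (MvPolynomial.monomial u (F.coeff u))) := by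
  have hp1 : 1 ≤ p := hp.out.one_lt.le
  have : ExpChar (MvPolynomial (Fin m) κ) p := ExpChar.prime hp.out
  conv_lhs => rw [← MvPolynomial.support_sum_monomial_coeff F, map_sum, Finset.mul_sum,
    sum_pow_char p]
  refine Finset.sum_congr rfl fun u _ => ?_
  rw [MvPolynomial.X_mul_pderiv_monomial, nsmul_eq_mul, mul_pow]
  have h1 : ((u i : ℕ) : MvPolynomial (Fin m) κ) ^ p = ((u i : ℕ) : MvPolynomial (Fin m) κ) :=
    map_natCast (frobenius (MvPolynomial (Fin m) κ) p) (u i)
  rw [h1, mul_left_comm, ← pow_succ, Nat.sub_add_cancel hp1]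

theorem dd_pf_Eci (F : MvPolynomial (Fin m) κ) (N : ℤ) (hN : N < p ^ 2) :
    (dd (pf (Eci p F N)) : Fo κ m) = -(dd (pf F) * pf (Eci p F (N - 1)) +
      Fr p (dd (pf F)) * pf (Eci p F (N - p))) := by
  have h1 : ∀ i : Fin m, MvPolynomial.X i * MvPolynomial.pderiv i (Eci p F N) =
      -((MvPolynomial.X i * MvPolynomial.pderiv i F) * Eci p F (N - 1) +
        (MvPolynomial.X i * MvPolynomial.pderiv i F) ^ p * Eci p F (N - p)) := by
    intro i
    have h2 := Ec_der p (((MvPolynomial.X i : MvPolynomial (Fin m) κ) •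
      (MvPolynomial.pderiv i : Derivation κ (MvPolynomial (Fin m) κ) (MvPolynomial (Fin m) κ)) :
      Derivation κ (MvPolynomial (Fin m) κ) (MvPolynomial (Fin m) κ)).restrictScalars ℤ) F N hN
    rw [eform_pow]
    exact h2
  rw [dd_pf_eq, dd_pf_eq F, map_sum, Finset.sum_mul, Finset.sum_mul, ← Finset.sum_add_distrib,
    ← Finset.sum_neg_distrib]
  refine Finset.sum_congr rfl fun i _ => ?_
  rw [h1, pf_neg, pf_add, pf_mul (MvPolynomial.X i * MvPolynomial.pderiv i F) (Eci p F (N - 1)),
    pf_mul ((MvPolynomial.X i * MvPolynomial.pderiv i F) ^ p) (Eci p F (N - p)),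
    map_mul (Fr p), eform_Fr_dl, Fr_pf, mul_neg, mul_add, ← mul_assoc, ← mul_assoc]

end MPadcBK
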