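import Pool.Agent.Lib.MP_adc574_ag_BK.Prj
import Pool.Agent.Lib.MP_adc574_ag_BK.EForm

/-!
# JOB Alp: the maps `al i`

`al p F d i x = Ca (∑ k ≤ p i, E_(p i - k) * prj (k d) x)`.
`al_TD`: `E_(pi-k) * prj (k d) x` has total degree `(p i - k) d + k d = p (i d)`; `Ca_TD` (`p t = p (i d)` iff `t = i d`).
`al_DD`: with `x_k = prj (k d) x`, `x_0 = 0` and `prj (-d) x = 0` (`x ∈ TI`): `prj (k d) (DD x) = dd x_k - dF * x_(k-1)` (`prj_DD`). By `dd_pf_mul`, `dd_pf_Eci` (for `N = p i - k < p^2`):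
`∑_{k ≤ pi} E_(pi-k) dd x_k = dd (∑ E_(pi-k) x_k) + ∑ dF * E_(pi-k-1) x_k + Fr (dF) * ∑ E_(p(i-1)-k) x_k` (`Eci` is 0 at negative arguments)
and `∑_{k ≤ pi} E_(pi-k) dF * x_(k-1) = ∑_{k ≤ pi} dF * E_(pi-k-1) x_k` (shift, `x_0 = 0`, `pf` is central). Apply `Ca`: `Ca_dd`, `Ca_Fr_mul`.
`al_KK`: only `k = 1` contributes (`1 ≤ d`), and `E_(p-1) = - F^(p-1)` (`Ec_last`).
`al_ZK`: `x ∈ ZK F d q I`: `DD F x = 0`, so `0 = al 2 (DD F x) = dF * al 1 x` (`2 < p`).
-/

set_option autoImplicit false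

namespace MPadcBK

open ExteriorAlgebra

universe u

variable {κ : Type u} [Field κ] {m : ℕ} (p : ℕ) [hp : Fact p.Prime] [CharP κ p] [PerfectRing κ p]

/-- The maps `α_i`. -/
noncomputable def al (F : MvPolynomial (Fin m) κ) (d i : ℕ) (x : Fo κ m) : Fo κ m :=
  Ca p (∑ k ∈ Finset.range (p * i + 1), pf (Ec p F (p * i - k)) * prj ((k : ℤ) * d) x)

theorem al_add (F : MvPolynomial (Fin m) κ) (d i : ℕ) (x y : Fo κ m) :
    al p F d i (x + y) = al p F d i x + al p F d i y := by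
  unfold al
  rw [← map_add, ← Finset.sum_add_distrib]
  congr 1
  refine Finset.sum_congr rfl fun k _ => ?_
  rw [map_add, mul_add]

theorem al_zero_arg (F : MvPolynomial (Fin m) κ) (d i : ℕ) : al p F d i (0 : Fo κ m) = 0 := by
  unfold al
  rw [Finset.sum_eq_zero, map_zero]
  intro k _
  rw [map_zero, mul_zero]

theorem al_sub (F : MvPolynomial (Fin m) κ) (d i : ℕ) (x y : Fo κ m) :
    al p F d i (x - y) = al p F d i x - al p F d i y := by
  have h := al_add p F d i (x - y) y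
  rw [sub_add_cancel] at h
  rw [h, add_sub_cancel_right]

theorem al_neg (F : MvPolynomial (Fin m) κ) (d i : ℕ) (x : Fo κ m) :
    al p F d i (-x) = - al p F d i x := by
  have h := al_sub p F d i 0 x
  rwa [zero_sub, al_zero_arg, zero_sub] at h

theorem al_smul (F : MvPolynomial (Fin m) κ) (d i : ℕ) (a : κ) (x : Fo κ m) :
    al p F d i ((a ^ p) • x) = a • al p F d i x := by
  unfold al
  rw [← Ca_smul, Finset.smul_sum]
  congr 1
  refine Finset.sum_congr rfl fun k _ => ?_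
  rw [map_smul, mul_smul_comm]

/-- `al` as an additive map. -/
noncomputable def alH (F : MvPolynomial (Fin m) κ) (d i : ℕ) : Fo κ m →+ Fo κ m where
  toFun x := al p F d i x
  map_zero' := al_zero_arg p F d i
  map_add' x y := al_add p F d i x y

theorem al_FD (F : MvPolynomial (Fin m) κ) (d i : ℕ) {q : ℕ} {x : Fo κ m}
    (hx : x ∈ FD (κ := κ) (m := m) q) : al p F d i x ∈ FD (κ := κ) (m := m) q := by
  exact Ca_FD p (Submodule.sum_mem _ fun k _ => pf_mul_FD _ (prj_FD _ hx))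

theorem al_Reg (F : MvPolynomial (Fin m) κ) (d i : ℕ) {I : Set (Fin m)} {x : Fo κ m}
    (hx : x ∈ Reg (κ := κ) I) : al p F d i x ∈ Reg (κ := κ) I := by
  exact Ca_Reg p (Submodule.sum_mem _ fun k _ => pf_mul_Reg _ (prj_Reg _ hx))

theorem al_TD {F : MvPolynomial (Fin m) κ} {d : ℕ} (hF : F.IsHomogeneous d) (i : ℕ) (x : Fo κ m) :
    al p F d i x ∈ TD (κ := κ) (m := m) {(i : ℤ) * d} := by
  have h1 : (∑ k ∈ Finset.range (p * i + 1), pf (Ec p F (p * i - k)) * prj ((k : ℤ) * d) x) ∈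
      TD (κ := κ) (m := m) {(p : ℤ) * (i * d)} := by
    refine Submodule.sum_mem _ fun k hk => ?_
    have hk' : k ≤ p * i := Nat.lt_succ_iff.1 (Finset.mem_range.1 hk)
    refine TD_mono ?_ (pf_mul_TD (Ec_hom p hF (p * i - k)) (prj_TD ((k : ℤ) * d) x))
    intro t ht
    have h2 : t - ((p * i - k) * d : ℕ) = (k : ℤ) * d := ht
    rw [Nat.cast_mul, Nat.cast_sub hk'] at h2
    have h3 : t = (p : ℤ) * (i * d) := by
      push_cast at h2
      linarith
    exact h3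
  refine TD_mono ?_ (Ca_TD p h1)
  intro t ht
  have h2 : (p : ℤ) * t = (p : ℤ) * (i * d) := ht
  have hp0 : (p : ℤ) ≠ 0 := by exact_mod_cast hp.out.ne_zero
  exact mul_left_cancel₀ hp0 h2

omit [PerfectRing κ p] in
private theorem alp_Eci_nat (F : MvPolynomial (Fin m) κ) {a b : ℕ} (h : b ≤ a) :
    Eci p F ((a : ℤ) - b) = Ec p F (a - b) := by
  unfold Eci
  rw [if_pos (by omega)]
  congr 1
  omega

omit [PerfectRing κ p] in
private theorem alp_Eci_neg (F : MvPolynomial (Fin m) κ) {N : ℤ} (h : N < 0) :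
    Eci p F N = 0 := by
  unfold Eci
  rw [if_neg (by omega)]

private theorem alp_eq (F : MvPolynomial (Fin m) κ) (d i M : ℕ) (hM : p * i < M) (x : Fo κ m) :
    al p F d i x = Ca p (∑ k ∈ Finset.range M,
      pf (Eci p F (((p * i : ℕ) : ℤ) - k)) * prj ((k : ℤ) * d) x) := by
  unfold al
  congr 1
  rw [← Finset.sum_subset (Finset.range_subset_range.2 (show p * i + 1 ≤ M from hM))]
  · refine Finset.sum_congr rfl fun k hk => ?_
    rw [alp_Eci_nat p F (Nat.lt_succ_iff.1 (Finset.mem_range.1 hk))]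
  · intro k _ hk
    rw [Finset.mem_range, not_lt] at hk
    rw [alp_Eci_neg p F (by omega), pf_zero, zero_mul]

theorem al_zero_TI {F : MvPolynomial (Fin m) κ} {d : ℕ} (hd : 1 ≤ d) {q : ℕ}
    {I : Set (Fin m)} {x : Fo κ m} (hx : x ∈ TI (κ := κ) d q I) : al p F d 0 x = 0 := by
  unfold al
  rw [Finset.sum_eq_zero, map_zero]
  intro k hk
  have hk0 : k = 0 := by
    rw [mul_zero, zero_add, Finset.mem_range] at hk
    omega
  subst hk0
  rw [prj_of_notMem ?_ hx.2, mul_zero]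
  rintro ⟨k, hk1, hk2⟩
  have h1 : (1 : ℤ) ≤ k * d := by exact_mod_cast Nat.one_le_iff_ne_zero.2 (by positivity)
  rw [← hk2] at h1
  simp at h1

theorem al_DD {F : MvPolynomial (Fin m) κ} {d : ℕ} (hF : F.IsHomogeneous d) (hd : 1 ≤ d) {q : ℕ}
    {I : Set (Fin m)} {x : Fo κ m} (hx : x ∈ TI (κ := κ) d q I) {i : ℕ} (hi : 1 ≤ i) (hi' : i < p) :
    al p F d i (DD F x) = dd (pf F) * al p F d (i - 1) x := by
  obtain ⟨X, hX⟩ : ∃ X : ℕ → Fo κ m, X = fun k : ℕ => prj ((k : ℤ) * d) x := ⟨_, rfl⟩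
  obtain ⟨e, he⟩ : ∃ e : ℤ → Fo κ m, e = fun N => pf (Eci p F N) := ⟨_, rfl⟩
  obtain ⟨M, hM⟩ : ∃ M : ℕ, M = p * i := ⟨_, rfl⟩
  have hneg : ∀ N : ℤ, N < 0 → e N = 0 := by
    intro N hN
    rw [he]
    show pf (Eci p F N) = 0
    rw [alp_Eci_neg p F hN, pf_zero]
  have hcomm : ∀ (N : ℤ) (y : Fo κ m), e N * y = y * e N := by
    intro N y
    rw [he]
    exact pf_mul_comm _ _
  have hx0 : prj ((0 : ℕ) * d - d : ℤ) x = 0 := by
    refine prj_of_notMem ?_ hx.2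
    rintro ⟨k, hk1, hk2⟩
    have h1 : (0 : ℤ) ≤ k * d := by positivity
    push_cast at hk2
    omega
  have hpr : ∀ k : ℕ, prj ((k : ℤ) * d) (DD F x) = dd (X k) - dd (pf F) * prj ((k : ℤ) * d - d) x := by
    intro k
    rw [prj_DD hF, hX]
  have hder : ∀ k : ℕ, e ((M : ℤ) - k) * dd (X k) = dd (e ((M : ℤ) - k) * X k) +
      dd (pf F) * (e ((M : ℤ) - k - 1) * X k) + Fr p (dd (pf F)) * (e ((M : ℤ) - k - p) * X k) := by
    intro k
    have h1 : dd (e ((M : ℤ) - k) * X k) = dd (e ((M : ℤ) - k)) * X k + e ((M : ℤ) - k) * dd (X k) := by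
      rw [he]
      exact dd_pf_mul _ _
    have hlt : (M : ℤ) - k < p ^ 2 := by
      have h3 : (M : ℤ) < p ^ 2 := by
        rw [hM]
        have h4 : p * i < p * p := Nat.mul_lt_mul_of_pos_left hi' hp.out.pos
        have h5 : ((p * i : ℕ) : ℤ) < ((p * p : ℕ) : ℤ) := by exact_mod_cast h4
        rw [pow_two]
        exact_mod_cast h5
      have h4 : (0 : ℤ) ≤ k := Int.natCast_nonneg k
      linarith
    have h2 : dd (e ((M : ℤ) - k)) = -(dd (pf F) * e ((M : ℤ) - k - 1) +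
        Fr p (dd (pf F)) * e ((M : ℤ) - k - p)) := by
      rw [he]
      exact dd_pf_Eci p F _ hlt
    rw [h1, h2, neg_mul, add_mul, mul_assoc, mul_assoc]
    abel
  have hS : (∑ k ∈ Finset.range (M + 1), e ((M : ℤ) - k) * prj ((k : ℤ) * d) (DD F x)) =
      dd (∑ k ∈ Finset.range (M + 1), e ((M : ℤ) - k) * X k) +
        Fr p (dd (pf F)) * ∑ k ∈ Finset.range (M + 1), e ((M : ℤ) - k - p) * X k := by
    have h1 : ∀ k ∈ Finset.range (M + 1), e ((M : ℤ) - k) * prj ((k : ℤ) * d) (DD F x) =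
        dd (e ((M : ℤ) - k) * X k) + Fr p (dd (pf F)) * (e ((M : ℤ) - k - p) * X k) +
        (dd (pf F) * (e ((M : ℤ) - k - 1) * X k) -
          dd (pf F) * (e ((M : ℤ) - k) * prj ((k : ℤ) * d - d) x)) := by
      intro k _
      have h2 : e ((M : ℤ) - k) * (dd (pf F) * prj ((k : ℤ) * d - d) x) =
          dd (pf F) * (e ((M : ℤ) - k) * prj ((k : ℤ) * d - d) x) := by
        rw [← mul_assoc, hcomm _ (dd (pf F)), mul_assoc]
      rw [hpr, mul_sub, hder, h2]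
      abel
    rw [Finset.sum_congr rfl h1, Finset.sum_add_distrib, Finset.sum_add_distrib,
      Finset.sum_sub_distrib, ← map_sum, ← Finset.mul_sum, ← Finset.mul_sum, ← Finset.mul_sum]
    have h3 : (∑ k ∈ Finset.range (M + 1), e ((M : ℤ) - k - 1) * X k) =
        ∑ k ∈ Finset.range (M + 1), e ((M : ℤ) - k) * prj ((k : ℤ) * d - d) x := by
      rw [Finset.sum_range_succ, Finset.sum_range_succ', hx0, mul_zero, add_zero,
        hneg ((M : ℤ) - M - 1) (by omega), zero_mul, add_zero]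
      refine Finset.sum_congr rfl fun k _ => ?_
      have h4 : (M : ℤ) - (k + 1 : ℕ) = (M : ℤ) - k - 1 := by
        push_cast
        ring
      have h5 : ((k + 1 : ℕ) : ℤ) * d - d = (k : ℤ) * d := by
        push_cast
        ring
      rw [h4, h5, hX]
    rw [h3, sub_self, add_zero]
  have hL : al p F d i (DD F x) =
      Ca p (∑ k ∈ Finset.range (M + 1), e ((M : ℤ) - k) * prj ((k : ℤ) * d) (DD F x)) := by
    rw [alp_eq p F d i (M + 1) (by omega), he, hM]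
  have hR : al p F d (i - 1) x =
      Ca p (∑ k ∈ Finset.range (M + 1), e ((M : ℤ) - k - p) * X k) := by
    rw [alp_eq p F d (i - 1) (M + 1) (by
      rw [hM]
      exact Nat.lt_succ_of_le (Nat.mul_le_mul_left _ (Nat.sub_le _ _))), he, hX]
    congr 1
    refine Finset.sum_congr rfl fun k _ => ?_
    have h4 : ((p * (i - 1) : ℕ) : ℤ) - k = (M : ℤ) - k - p := by
      rw [hM, Nat.cast_mul, Nat.cast_sub hi, Nat.cast_mul]
      push_cast
      ring
    rw [h4]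
  rw [hL, hS, map_add, Ca_dd, zero_add, Ca_Fr_mul, hR]

theorem al_one_DD {F : MvPolynomial (Fin m) κ} {d : ℕ} (hF : F.IsHomogeneous d) (hd : 1 ≤ d)
    {q : ℕ} {I : Set (Fin m)} {x : Fo κ m} (hx : x ∈ TI (κ := κ) d q I) :
    al p F d 1 (DD F x) = 0 := by
  have h := al_DD p hF hd hx (i := 1) le_rfl hp.out.one_lt
  rw [h, Nat.sub_self, al_zero_TI p hd hx, mul_zero]

theorem al_KK {F : MvPolynomial (Fin m) κ} {d : ℕ} (hd : 1 ≤ d) {q : ℕ} {I : Set (Fin m)}
    {x : Fo κ m} (hx : x ∈ KK F d q I) : al p F d 1 x = - Ca p (pf F ^ (p - 1) * x) := by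
  obtain ⟨⟨⟨-, -⟩, h3⟩, -⟩ := hx
  have h1 : (∑ k ∈ Finset.range (p * 1 + 1), pf (Ec p F (p * 1 - k)) * prj ((k : ℤ) * d) x) =
      - (pf F ^ (p - 1) * x) := by
    rw [Finset.sum_eq_single 1]
    · rw [mul_one, Ec_last, pf_neg, pf_pow, Nat.cast_one, one_mul, prj_of_mem h3, neg_mul]
    · intro k _ hk
      rw [prj_of_notMem ?_ h3, mul_zero]
      intro h4
      have h5 : (k : ℤ) * d = d := h4
      have h6 : k * d = 1 * d := by
        rw [one_mul]
        exact_mod_cast h5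
      exact hk (Nat.eq_of_mul_eq_mul_right hd h6)
    · intro h
      exfalso
      apply h
      rw [Finset.mem_range]
      have := hp.out.pos
      omega
  unfold al
  rw [h1, map_neg]

theorem al_ZK {F : MvPolynomial (Fin m) κ} {d : ℕ} (hF : F.IsHomogeneous d) (hd : 1 ≤ d)
    (hp2 : 2 < p) {q : ℕ} {I : Set (Fin m)} {x : Fo κ m} (hx : x ∈ ZK F d q I) :
    al p F d 1 x ∈ KK F d q I := by
  obtain ⟨h1, h2⟩ := hx
  have h2' : dd x = 0 := h2
  obtain ⟨⟨⟨hR, hFD⟩, hT⟩, hK⟩ := h1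
  have hK' : dd (pf F) * x = 0 := hK
  have hTI : x ∈ TI (κ := κ) d q I := TT_le_TI (KK_TI ⟨⟨⟨hR, hFD⟩, hT⟩, hK⟩)
  have hD : DD F x = 0 := by
    unfold DD
    rw [h2', hK', sub_zero]
  have h3 := al_DD p hF hd hTI (i := 2) (by norm_num) hp2
  rw [hD, al_zero_arg] at h3
  refine ⟨⟨⟨al_Reg p F d 1 hR, al_FD p F d 1 hFD⟩, ?_⟩, ?_⟩
  · have h4 := al_TD p hF 1 x
    rw [Nat.cast_one, one_mul] at h4
    exact h4
  · show dd (pf F) * al p F d 1 x = 0
    exact h3.symm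

theorem al_BK {F : MvPolynomial (Fin m) κ} {d : ℕ} (hF : F.IsHomogeneous d) (hd : 1 ≤ d)
    {q : ℕ} {I : Set (Fin m)} {x : Fo κ m} (hx : x ∈ BK F d q I) :
    al p F d 1 x = 0 := by
  obtain ⟨y, hy, rfl⟩ := hx
  have hTI : y ∈ TI (κ := κ) d q I := TT_le_TI (KK_TI hy)
  have hK' : dd (pf F) * y = 0 := hy.2
  have hD : DD F y = dd y := by
    unfold DD
    rw [hK', sub_zero]
  rw [← hD]
  exact al_one_DD p hF hd hTI

end MPadcBK
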