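import Pool.Agent.Lib.MP_adc574_ag_BK.Cc

/-!
# JOB Ap: the maps `ap i k`

`ap p F i k P = cc (E_(p i - k) * P)` (`E_N = Eci p F N`, `0` for `N < 0`).
`ap_exa`: `N = p i - k < p^2`. `E_N ∂_j Q = ∂_j (E_N Q) - (∂_j E_N) Q`, `cc (∂_j ..) = 0`, and `Ec_der` for the derivation `pderiv j` (restricted to `ℤ`): `- ∂_j E_N = ∂_j F E_(N-1) + V E_(N-p)`,
`V = ∑_u (monomial u a_u)^(p-1) * ∂_j (monomial u a_u) = ∑_u monomial (p u - single j 1) (a_u^p u_j) = X j ^ (p-1) * expand p (∂_j (F.map (frobenius R p)))` (terms with `u j = 0` vanish; the support of `F.map frobenius`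
is contained in that of `F`; `u_j` is an integer so `(u_j)^p = u_j` is not needed: `∂_j (x^u a_u^p) = u_j a_u^p x^(u - j)`). So `ap i k (∂_j Q) = cc (∂_j F E_(N-1) Q) + cc (V E_(N-p) Q)` and `cc_expand_mul`.
`ap_der`: `cder D (E_N P) = cder D E_N * P + E_N * cder D P`, `Ec_der` for the derivation `cderD D`: `cder D E_N = -(cder D F * E_(N-1) + V' E_(N-p))`,
`V' = ∑_u (monomial u a_u)^(p-1) * monomial u (D a_u) = expand p (vB p D F)`. `(N - p) = p (i-1) - k`; the index `i - 1` is written as an integer: `ap` has an integer index.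
`ap_fr`: `E_(p i - p i) = 1`, `E_(p i - p j) = 0` for `i < j`, `cc_monomial`.
-/

set_option autoImplicit false

namespace MPadcBK

open MvPolynomial MPadcGM MPadcHM

variable {m : ℕ} {R : Type*} [CommRing R] (p : ℕ) [hp : Fact p.Prime] [CharP R p]

/-- The map `α_i` on the polynomials of level `k`. -/
noncomputable def ap (F : MvPolynomial (Fin m) R) (i k : ℤ) :
    MvPolynomial (Fin m) R →ₗ[R] MvPolynomial (Fin m) R :=
  (cc p).comp (LinearMap.mulLeft R (Eci p F (p * i - k)))

theorem ap_apply (F : MvPolynomial (Fin m) R) (i k : ℤ) (P : MvPolynomial (Fin m) R) :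
    ap p F i k P = cc p (Eci p F (p * i - k) * P) := rfl

/-- The correction term for the derivation of the coefficients. -/
noncomputable def vB (D : Derivation ℤ R R) (F : MvPolynomial (Fin m) R) :
    MvPolynomial (Fin m) R :=
  ∑ u ∈ F.support, monomial u (coeff u F ^ (p - 1) * D (coeff u F))

theorem ap_map {S : Type*} [CommRing S] [CharP S p] (φ : R →+* S) (F : MvPolynomial (Fin m) R)
    (i k : ℤ) (P : MvPolynomial (Fin m) R) :
    ap p (F.map φ) i k (P.map φ) = (ap p F i k P).map φ := by
  rw [ap_apply, ap_apply, Eci_map, ← map_mul, cc_map hp.out.pos]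

theorem ap_neg (F : MvPolynomial (Fin m) R) {i k : ℤ} (h : (p : ℤ) * i < k)
    (P : MvPolynomial (Fin m) R) : ap p F i k P = 0 := by
  rw [ap_apply, Eci_neg p F (by omega), zero_mul, map_zero]

private theorem ap_frob (F : MvPolynomial (Fin m) R) :
    F.map (frobenius R p) = ∑ u ∈ F.support, monomial u (coeff u F ^ p) := by
  conv_lhs => rw [← support_sum_monomial_coeff F]
  rw [map_sum]
  refine Finset.sum_congr rfl fun u _ => ?_
  rw [map_monomial, frobenius_def]

private theorem ap_V (F : MvPolynomial (Fin m) R) (j : Fin m) :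
    ∑ u ∈ F.support, monomial u (coeff u F) ^ (p - 1) * pderiv j (monomial u (coeff u F)) =
      expand p (pderiv j (F.map (frobenius R p))) * X j ^ (p - 1) := by
  classical
  have hp0 := hp.out.pos
  rw [ap_frob, map_sum, map_sum, Finset.sum_mul]
  refine Finset.sum_congr rfl fun u _ => ?_
  rw [pderiv_monomial, pderiv_monomial, monomial_pow, monomial_mul, expand_monomial, X,
    monomial_pow, monomial_mul, one_pow, mul_one]
  by_cases h : u j = 0
  · rw [h, Nat.cast_zero, mul_zero, mul_zero, mul_zero, monomial_zero, monomial_zero]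
  · have h1 : (p - 1) • u + (u - Finsupp.single j 1) =
        p • (u - Finsupp.single j 1) + (p - 1) • Finsupp.single j 1 := by
      ext i
      rw [Finsupp.add_apply, Finsupp.add_apply, Finsupp.smul_apply, Finsupp.smul_apply,
        Finsupp.smul_apply, Finsupp.tsub_apply, smul_eq_mul, smul_eq_mul, smul_eq_mul]
      obtain ⟨q, hq⟩ : ∃ q, p = q + 1 := ⟨p - 1, by omega⟩
      rw [hq, Nat.add_sub_cancel]
      by_cases hij : j = i
      · subst hij
        rw [Finsupp.single_eq_same]
        obtain ⟨w, hw⟩ : ∃ w, u j = w + 1 := ⟨u j - 1, by omega⟩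
        rw [hw, Nat.add_sub_cancel]
        ring
      · rw [Finsupp.single_eq_of_ne' hij, Nat.sub_zero]
        ring
    have h2 : coeff u F ^ (p - 1) * (coeff u F * ((u j : ℕ) : R)) = coeff u F ^ p * ((u j : ℕ) : R) := by
      rw [← mul_assoc, ← pow_succ, Nat.sub_add_cancel hp0]
    rw [h1, h2]

theorem ap_exa (F : MvPolynomial (Fin m) R) {i k : ℤ} (h : (p : ℤ) * i - k < p ^ 2) (j : Fin m)
    (Q : MvPolynomial (Fin m) R) :
    ap p F i k (pderiv j Q) = ap p F i (k + 1) (Q * pderiv j F) +
      pderiv j (F.map (frobenius R p)) * cc p (X j ^ (p - 1) * Eci p F (p * (i - 1) - k) * Q) := by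
  have h1 := Ec_der p ((pderiv j : Derivation R (MvPolynomial (Fin m) R) _).restrictScalars ℤ) F
    (p * i - k) h
  have h2 : pderiv j (Eci p F (p * i - k)) = -(pderiv j F * Eci p F (p * i - k - 1) +
      (∑ u ∈ F.support, monomial u (F.coeff u) ^ (p - 1) * pderiv j (monomial u (F.coeff u))) *
        Eci p F (p * i - k - p)) := h1
  have e1 : (p : ℤ) * i - k - 1 = p * i - (k + 1) := by ring
  have e2 : (p : ℤ) * i - k - p = p * (i - 1) - k := by ring
  rw [ap_V, e1, e2] at h2
  have h3 : Eci p F (p * i - k) * pderiv j Q = pderiv j (Eci p F (p * i - k) * Q) +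
      (Eci p F (p * i - (k + 1)) * (Q * pderiv j F) + expand p (pderiv j (F.map (frobenius R p))) *
        (X j ^ (p - 1) * Eci p F (p * (i - 1) - k) * Q)) := by
    rw [Derivation.leibniz, h2, smul_eq_mul, smul_eq_mul]
    ring
  rw [ap_apply, ap_apply, h3, map_add, map_add, cc_pderiv, zero_add, cc_expand_mul hp.out.pos]

omit [CharP R p] in
private theorem ap_V' (D : Derivation ℤ R R) (F : MvPolynomial (Fin m) R) :
    ∑ u ∈ F.support, monomial u (coeff u F) ^ (p - 1) * cder D (monomial u (coeff u F)) =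
      expand p (vB p D F) := by
  classical
  have hp0 := hp.out.pos
  unfold vB
  rw [map_sum]
  refine Finset.sum_congr rfl fun u _ => ?_
  rw [cder_monomial, monomial_pow, monomial_mul, expand_monomial]
  have h1 : (p - 1) • u + u = p • u := by
    rw [← succ_nsmul, Nat.sub_add_cancel hp0]
  rw [h1]

theorem ap_der (F : MvPolynomial (Fin m) R) {i k : ℤ} (h : (p : ℤ) * i - k < p ^ 2)
    (D : Derivation ℤ R R) (P : MvPolynomial (Fin m) R) :
    cder D (ap p F i k P) = ap p F i k (cder D P) - ap p F i (k + 1) (cder D F * P) -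
      vB p D F * ap p F (i - 1) k P := by
  have h1 : cder D (Eci p F (p * i - k)) = -(cder D F * Eci p F (p * i - k - 1) +
      (∑ u ∈ F.support, monomial u (F.coeff u) ^ (p - 1) * cder D (monomial u (F.coeff u))) *
        Eci p F (p * i - k - p)) := Ec_der p (cderD D) F (p * i - k) h
  have e1 : (p : ℤ) * i - k - 1 = p * i - (k + 1) := by ring
  have e2 : (p : ℤ) * i - k - p = p * (i - 1) - k := by ring
  rw [ap_V', e1, e2] at h1
  have h3 : cder D (Eci p F (p * i - k) * P) = Eci p F (p * i - k) * cder D P -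
      Eci p F (p * i - (k + 1)) * (cder D F * P) -
        expand p (vB p D F) * (Eci p F (p * (i - 1) - k) * P) := by
    rw [cder_mul, h1]
    ring
  rw [ap_apply, ap_apply, ap_apply, ap_apply, cc_cder hp.out.pos, h3, map_sub, map_sub,
    cc_expand_mul hp.out.pos]

theorem ap_fr (F : MvPolynomial (Fin m) R) (i j : ℤ) (hij : i ≤ j) (v : Fin m →₀ ℕ) :
    ap p F i (p * j) (monomial (p • v + pm1 m p) 1) = if i = j then monomial v 1 else 0 := by
  by_cases h : i = j
  · rw [if_pos h, ap_apply, h, sub_self, Eci_zero, one_mul, cc_monomial hp.out.pos]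
  · rw [if_neg h]
    refine ap_neg p F ?_ _
    have h1 : i < j := lt_of_le_of_ne hij h
    have h2 : (0 : ℤ) < p := by exact_mod_cast hp.out.pos
    exact mul_lt_mul_of_pos_left h1 h2

/-- If `P` is homogeneous of degree `N` with `N + m = k d` then `ap i k P` is homogeneous of degree
`M` with `M + m = i d`. -/
theorem ap_homog {F : MvPolynomial (Fin m) R} {d : ℕ} (hF : F.IsHomogeneous d) {i k N M : ℕ}
    {P : MvPolynomial (Fin m) R} (hP : P.IsHomogeneous N) (hN : N + m = k * d)
    (hM : M + m = i * d) : (ap p F i k P).IsHomogeneous M := by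
  by_cases h : (p : ℤ) * i < k
  · rw [ap_neg p F h]
    exact isHomogeneous_zero _ _ _
  · rw [not_lt] at h
    have h1 : k ≤ p * i := by exact_mod_cast h
    have h2 : Eci p F ((p : ℤ) * i - k) = Ec p F (p * i - k) := by
      unfold Eci
      rw [if_pos (by linarith)]
      congr 1
      omega
    rw [ap_apply, h2]
    refine cc_homog hp.out.pos ((Ec_hom p hF (p * i - k)).mul hP) ?_
    have h3 : (p * i - k) * d + k * d = p * (i * d) := by
      rw [← add_mul, Nat.sub_add_cancel h1, mul_assoc]
    rw [hM, ← h3]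
    omega

end MPadcBK
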