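import Pool.Agent.Lib.MP_adc574_ag_BK.Defs

/-!
# Bloch-Kato ordinarity of a projective hypersurface: definitions

`X` is the hypersurface `F = 0` in the projective space with the homogeneous coordinates `x_i`, `i : Fin m`,
over the field `κ`, where `F` is homogeneous.
-/

set_option autoImplicit false

namespace MPadcBK

universe u

section Forms

variable (κ L : Type u) [Field κ] [Field L] [Algebra κ L]

/-- The rational form `D a_0 ∧ ⋯ ∧ D a_{n-1}`, in the exterior algebra of the Kähler differentials of `L`
over `κ`. -/
noncomputable def wedgeD {n : ℕ} (a : Fin n → L) : ExteriorAlgebra L (Ω[L⁄κ]) :=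
  ExteriorAlgebra.ιMulti L n fun l => KaehlerDifferential.D κ L (a l)

/-- The exact forms of degree `q + 1` for a ring `O` of functions in the field `L`: the group generated by
the forms `D a_0 ∧ ⋯ ∧ D a_q = D (a_0 D a_1 ∧ ⋯ ∧ D a_q)` with `a_0, …, a_q` in `O`. -/
noncomputable def exactForms (O : Set L) (q : ℕ) : AddSubgroup (ExteriorAlgebra L (Ω[L⁄κ])) :=
  AddSubgroup.closure {ω | ∃ a : Fin (q + 1) → L, (∀ l, a l ∈ O) ∧ ω = wedgeD κ L a}

end Forms

section Hypersurface

variable {κ L : Type u} [Field κ] [Field L] [Algebra κ L] {m : ℕ}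

/-- `y` is the generic point of the integral hypersurface `F = 0`: a homogeneous polynomial vanishes at `y`
if and only if it is divisible by `F`, and `L` is the function field, generated by the quotients
`y_i / y_j`. -/
def IsGenericPoint (F : MvPolynomial (Fin m) κ) (y : Fin m → L) : Prop :=
  (∃ i, y i ≠ 0) ∧
  (∀ (N : ℕ) (P : MvPolynomial (Fin m) κ), P.IsHomogeneous N → (MvPolynomial.aeval y P = 0 ↔ F ∣ P)) ∧
  IntermediateField.adjoin κ {z | ∃ i j, z = y i / y j} = ⊤

/-- The ring of the regular functions on the affine open set of the points of `X` with `x_i ≠ 0` for all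
`i ∈ I` (for `I` nonempty): it is generated by the `x_j / x_i`, `i ∈ I`. -/
noncomputable def regularFunctions (κ : Type u) {L : Type u} [Field κ] [Field L] [Algebra κ L] {m : ℕ}
    (y : Fin m → L) (I : Set (Fin m)) : Subalgebra κ L :=
  Algebra.adjoin κ {z | ∃ j, ∃ i ∈ I, z = y j / y i}

/-- The exact forms of degree `q + 1` on this open set. -/
noncomputable def exactFormsOn (κ : Type u) {L : Type u} [Field κ] [Field L] [Algebra κ L] {m : ℕ}
    (y : Fin m → L) (q : ℕ) (I : Set (Fin m)) : AddSubgroup (ExteriorAlgebra L (Ω[L⁄κ])) :=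
  exactForms κ L {z | z ∈ regularFunctions κ y I} q

/-- The hypersurface `X : F = 0` is integral and ordinary in the sense of Bloch and Kato:
`H ^ j (X, B Ω ^ i) = 0` for all `i ≥ 1` and all `j ≥ 0`, where the cohomology is computed by the Čech complex
of the covering by the open sets `x_i ≠ 0`. -/
def IsBlochKatoOrdinary (F : MvPolynomial (Fin m) κ) : Prop :=
  ∃ (L : Type u) (_ : Field L) (_ : Algebra κ L) (y : Fin m → L), IsGenericPoint F y ∧
    ∀ q j : ℕ, HZero (exactFormsOn κ y q) j

end Hypersurface

end MPadcBK
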