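import Pool.Agent.Lib.MP_adc574_ag_BK.FreeX
import Pool.Agent.Lib.MP_adc574_ag_HM.BC

/-!
# JOB BasK: a basis of the Jacobian ring of the generic member of the pencil

`K = κ(t)`, `t = RatFunc.X`, `FK = Φ^K - t x_0^d`, `Jac FK = JT Φ^K + (∂_0 FK)`, `∂_0 FK = ∂_0 Φ^K - d t x_0^(d-1)` (`∂_{j+1} FK = ∂_{j+1} Φ^K`). Fix `N`. For `u ∈ U` with `|u| ≤ N` let `b_u = x^(mx N u)`. It is called high if `|u| + (d-1) ≤ N` (its `x_0` exponent is `≥ d-1`), low otherwise (`N - |u| + 1 < d`).
`free_span` over `κ` for the monomials of `∂_0 Φ * x^(mx (N-(d-1)) u)` (`u` high, homogeneous of degree `N`; if `N < d - 1` there are no high `u`): `∂_0 Φ * x^(mx (N-(d-1)) u) ≡ ∑_{u'} A u' u b_u' mod JT Φ` with `A u' u ∈ κ`. Over `K` (`MvPolynomial.map`): for `u` high `∂_0 FK * x^(mx (N-(d-1)) u) ≡ ∑_{u' low} A u' u b_u' + ∑_{u' high} (A u' u - d t δ) b_u'`.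
The square matrix `A^hh - d t` over `K` is invertible: its determinant is, up to the unit `(-d)^r`, the characteristic polynomial of `d⁻¹ A^hh` at `t`, and `Matrix.charpoly` is monic, not 0, with coefficients in `κ` (`t` is transcendental).
* `bas_span`: `free_span` for `Φ^K` (`IsMB_map` for `K / κ`) and replace the high `b_u`: they are combinations of the low ones modulo `Jac FK` (invert the matrix).
* `bas_ind`: let `∑_{low} c_u b_u ∈ Jac FK`, `= ∑_j (..) ∂_{j+1} Φ^K + R ∂_0 FK`, `R` homogeneous of degree `N - (d-1)` (homogeneous components; `0` if `N < d-1`). By `free_span` over `K`: `R ≡ ∑_{u, |u| ≤ N-(d-1)} r_u x^(mx (N-(d-1)) u)` mod `JT Φ^K`. So `∑_{low} c_u b_u ≡ ∑_{u' low} (A r) b_u' + ∑_{u' high} ((A^hh - d t) r)_u' b_u'`;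
  `free_ind` over `K`: `(A^hh - d t) r = 0`, so `r = 0`, and then `c = 0`. (The condition `hM` for `Φ^K` by `mem_Jac_map`.)
* `exists_cdata`: `V = {u ∈ U | ¬ d ∣ wtp u, wtp u < J d}` (`wtp (fun _ => 1) u = |u| + n`), `lvu u = wtp u / d + 1`, `gu u = cons (lvu u * d - wtp u - 1) u`, so `tdg (gu u) = lvu u * d`. For `e` of level `i`, `N = ∑ e = i d - (n+1)`: the low `u` for `N` are exactly the `u ∈ U` with `(i-1) d < wtp u < i d`, i.e. the `u ∈ V` with `lvu u = i`, and `mx N u = gu u`.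
  `c u e` = the coefficient of `bas_span` (unique by `bas_ind`) if `tdg e = lvu u * d`, else 0. `ker`: `Q = x^e'` by linearity; `x^e' ∂_j FK` is homogeneous; if it has level `i ≤ J` then `∑_u (∑_e coeff c u e) x^(gu u) ∈ Jac FK`, and `bas_ind`. `self`: `bas_ind`.
-/

set_option autoImplicit false

namespace MPadcBK

open MvPolynomial MPadcGM MPadcHM

universe u

/-- The equation `Φ - t x_0 ^ d` over `κ(t)`. -/
noncomputable def FK {κ : Type u} [Field κ] {n : ℕ} (Φ : MvPolynomial (Fin (n + 1)) κ) (d : ℕ) :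
    MvPolynomial (Fin (n + 1)) (RatFunc κ) :=
  Φ.map (algebraMap κ (RatFunc κ)) - C RatFunc.X * X 0 ^ d

/-- The index set. -/
noncomputable def Vs {n : ℕ} (U : Finset (Fin n →₀ ℕ)) (d J : ℕ) : Finset (Fin n →₀ ℕ) := by
  classical
  exact U.filter fun u => ¬ d ∣ wtp (fun _ => 1) u ∧ wtp (fun _ => 1) u < J * d

theorem mem_Vs {n : ℕ} {U : Finset (Fin n →₀ ℕ)} {d J : ℕ} {u : Fin n →₀ ℕ} :
    u ∈ Vs U d J ↔ u ∈ U ∧ ¬ d ∣ wtp (fun _ => 1) u ∧ wtp (fun _ => 1) u < J * d := by
  classical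
  unfold Vs
  rw [Finset.mem_filter]

/-- The level of an exponent. -/
def lvu {n : ℕ} (d : ℕ) (u : Fin n →₀ ℕ) : ℕ := wtp (fun _ => 1) u / d + 1

/-- The homogenized exponent. -/
noncomputable def gu {n : ℕ} (d : ℕ) (u : Fin n →₀ ℕ) : Fin (n + 1) →₀ ℕ :=
  Finsupp.cons (lvu d u * d - wtp (fun _ => 1) u - 1) u

section aux

variable {K : Type*} [Field K] {n : ℕ}

private theorem bask_deg {m : ℕ} {R : Type*} [CommRing R] {N : ℕ} {P : MvPolynomial (Fin m) R}
    (hP : P.IsHomogeneous N) {e : Fin m →₀ ℕ} (he : e ∈ P.support) : ∑ i, e i = N := by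
  have h1 := hP (MvPolynomial.mem_support_iff.mp he)
  rw [Finsupp.weight_apply, Finsupp.sum_fintype _ _ (by simp)] at h1
  simp only [Pi.one_apply, smul_eq_mul, mul_one] at h1
  exact h1

private theorem bask_mono {m : ℕ} {R : Type*} [CommRing R] {N : ℕ} {e : Fin m →₀ ℕ} (a : R)
    (he : ∑ i, e i = N) : (monomial e a : MvPolynomial (Fin m) R).IsHomogeneous N := by
  apply isHomogeneous_monomial
  rw [Finsupp.degree_eq_sum, he]

private theorem bask_mx {N : ℕ} {u : Fin n →₀ ℕ} (h : ∑ i, u i ≤ N) : ∑ i, mx N u i = N := by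
  unfold mx
  rw [Fin.sum_univ_succ, Finsupp.cons_zero]
  simp only [Finsupp.cons_succ]
  omega

private theorem bask_spanhom {d : ℕ} {Ψ : MvPolynomial (Fin (n + 1)) K} (hΨ : Ψ.IsHomogeneous d)
    {U : Finset (Fin n →₀ ℕ)} (hU : IsMB (fun _ => 1) (bdr Ψ) U) {N : ℕ}
    {P : MvPolynomial (Fin (n + 1)) K} (hP : P.IsHomogeneous N) :
    ∃ c : (Fin n →₀ ℕ) → K,
      P - ∑ u ∈ U with ∑ i, u i ≤ N, monomial (mx N u) (c u) ∈ JT Ψ := by
  classical
  choose f hf using fun e => free_span hΨ hU e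
  refine ⟨fun u => ∑ e ∈ P.support, coeff e P * f e u, ?_⟩
  have h1 : P - ∑ u ∈ U with ∑ i, u i ≤ N,
        monomial (mx N u) (∑ e ∈ P.support, coeff e P * f e u) =
      ∑ e ∈ P.support, C (coeff e P) *
        (monomial e 1 - ∑ u ∈ U with ∑ i, u i ≤ N, monomial (mx N u) (f e u)) := by
    simp_rw [mul_sub, Finset.sum_sub_distrib, Finset.mul_sum, C_mul_monomial, mul_one]
    rw [Finset.sum_comm, ← P.as_sum]
    congr 1
    refine Finset.sum_congr rfl fun u _ => ?_
    rw [map_sum]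
  rw [h1]
  refine Ideal.sum_mem _ fun e he => Ideal.mul_mem_left _ _ ?_
  have h2 := hf e
  rw [bask_deg hP he] at h2
  exact h2

private theorem bask_comp_mul {m : ℕ} {D N : ℕ} {G : MvPolynomial (Fin m) K}
    (hG : G.IsHomogeneous D) (Q : MvPolynomial (Fin m) K) (hN : D ≤ N) :
    homogeneousComponent N (Q * G) = homogeneousComponent (N - D) Q * G := by
  classical
  have h1 : Q * G = ∑ i ∈ Finset.range (Q.totalDegree + 1), homogeneousComponent i Q * G := by
    rw [← Finset.sum_mul, sum_homogeneousComponent]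
  rw [h1, map_sum]
  have h2 : ∀ i, homogeneousComponent N (homogeneousComponent i Q * G) =
      if i = N - D then homogeneousComponent (N - D) Q * G else 0 := by
    intro i
    rw [homogeneousComponent_of_mem ((homogeneousComponent_isHomogeneous i Q).mul hG)]
    split_ifs with h3 h4 h4
    · rw [h4]
    · omega
    · omega
    · rfl
  rw [Finset.sum_congr rfl fun i _ => h2 i, Finset.sum_ite_eq']
  split_ifs with h3
  · rfl
  · rw [Finset.mem_range, not_lt] at h3
    rw [homogeneousComponent_eq_zero _ _ (by omega), zero_mul]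

private theorem bask_comp_mul' {m : ℕ} {D N : ℕ} {G : MvPolynomial (Fin m) K}
    (hG : G.IsHomogeneous D) (Q : MvPolynomial (Fin m) K) (hN : N < D) :
    homogeneousComponent N (Q * G) = 0 := by
  classical
  have h1 : Q * G = ∑ i ∈ Finset.range (Q.totalDegree + 1), homogeneousComponent i Q * G := by
    rw [← Finset.sum_mul, sum_homogeneousComponent]
  rw [h1, map_sum]
  refine Finset.sum_eq_zero fun i _ => ?_
  rw [homogeneousComponent_of_mem ((homogeneousComponent_isHomogeneous i Q).mul hG), if_neg]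
  omega

private theorem bask_comp_span {m : ℕ} {ι : Type*} [Fintype ι] {D : ℕ}
    {G : ι → MvPolynomial (Fin m) K} (hG : ∀ j, (G j).IsHomogeneous D) (N : ℕ)
    {P : MvPolynomial (Fin m) K} (hP : P ∈ Ideal.span (Set.range G)) :
    homogeneousComponent N P ∈ Ideal.span (Set.range G) := by
  rw [Ideal.mem_span_range_iff_exists_fun] at hP
  obtain ⟨c, rfl⟩ := hP
  rw [map_sum]
  refine Ideal.sum_mem _ fun j _ => ?_
  rcases Nat.lt_or_ge N D with h | h
  · rw [bask_comp_mul' (hG j) _ h]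
    exact Ideal.zero_mem _
  · rw [bask_comp_mul (hG j) _ h]
    exact Ideal.mul_mem_left _ _ (Ideal.subset_span ⟨j, rfl⟩)

private theorem bask_pd_succ (Ψ : MvPolynomial (Fin (n + 1)) K) (s : K) (d : ℕ) (j : Fin n) :
    pderiv j.succ (Ψ - C s * X 0 ^ d) = pderiv j.succ Ψ := by
  rw [map_sub, pderiv_C_mul, pderiv_pow, pderiv_X_of_ne (Fin.succ_ne_zero j).symm, mul_zero,
    mul_zero, sub_zero]

private theorem bask_pd_zero (Ψ : MvPolynomial (Fin (n + 1)) K) (s : K) (d : ℕ) :
    pderiv 0 (Ψ - C s * X 0 ^ d) = pderiv 0 Ψ - C ((d : K) * s) * X 0 ^ (d - 1) := by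
  rw [map_sub, pderiv_C_mul, pderiv_pow, pderiv_X_self, mul_one, C_mul, map_natCast]
  ring

private theorem bask_split {M : Type*} [AddCommMonoid M] {U : Finset (Fin n →₀ ℕ)} {d N : ℕ}
    (hd : 1 ≤ d) (f : (Fin n →₀ ℕ) → M) :
    ∑ u ∈ U with ∑ i, u i ≤ N, f u =
      ∑ u ∈ U with ∑ i, u i ≤ N ∧ N - ∑ i, u i + 1 < d, f u +
      ∑ u ∈ U with ∑ i, u i + (d - 1) ≤ N, f u := by
  classical
  rw [Finset.sum_filter, Finset.sum_filter, Finset.sum_filter, ← Finset.sum_add_distrib]
  refine Finset.sum_congr rfl fun u _ => ?_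
  generalize ∑ i, u i = a
  split_ifs <;> first | omega | simp

private theorem bask_X_mul {d N : ℕ} {u : Fin n →₀ ℕ} (h : ∑ i, u i + (d - 1) ≤ N) :
    (X 0 : MvPolynomial (Fin (n + 1)) K) ^ (d - 1) * monomial (mx (N - (d - 1)) u) 1 =
      monomial (mx N u) 1 := by
  rw [X_pow_eq_monomial, monomial_mul, one_mul]
  congr 2
  ext i
  unfold mx
  refine Fin.cases ?_ (fun j => ?_) i
  · rw [Finsupp.add_apply, Finsupp.single_eq_same, Finsupp.cons_zero, Finsupp.cons_zero]
    omega
  · rw [Finsupp.add_apply, Finsupp.cons_succ, Finsupp.cons_succ, Finsupp.single_apply,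
      if_neg (Fin.succ_ne_zero j).symm, zero_add]

end aux

section aux2

variable {κ : Type u} [Field κ] {n : ℕ} {d : ℕ}

/-- Base change of `JT`. -/
private theorem bask_jt_map {K : Type*} [Field K] [Algebra κ K] {Φ : MvPolynomial (Fin (n + 1)) κ}
    {P : MvPolynomial (Fin (n + 1)) κ} (hP : P ∈ JT Φ) :
    P.map (algebraMap κ K) ∈ JT (Φ.map (algebraMap κ K)) := by
  have h1 := Ideal.mem_map_of_mem (MvPolynomial.map (algebraMap κ K)) hP
  unfold JT at h1 ⊢
  rw [Ideal.map_span, ← Set.range_comp] at h1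
  have h2 : ((MvPolynomial.map (algebraMap κ K)) ∘ fun j : Fin n => pderiv j.succ Φ) =
      fun j : Fin n => pderiv j.succ (MvPolynomial.map (algebraMap κ K) Φ) := by
    funext j
    rw [MvPolynomial.pderiv_map]
    rfl
  rw [h2] at h1
  exact h1

private theorem bask_transc (hdκ : (d : κ) ≠ 0) :
    Transcendental κ ((d : RatFunc κ) * RatFunc.X) := by
  intro h
  apply RatFunc.transcendental_X (K := κ)
  have h1 : IsAlgebraic κ (algebraMap κ (RatFunc κ) ((d : κ)⁻¹)) := isAlgebraic_algebraMap _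
  have h2 := h1.mul h
  have h3 : algebraMap κ (RatFunc κ) ((d : κ)⁻¹) * ((d : RatFunc κ) * RatFunc.X) = RatFunc.X := by
    rw [← mul_assoc, ← map_natCast (algebraMap κ (RatFunc κ)) d, ← map_mul, inv_mul_cancel₀ hdκ,
      map_one, one_mul]
  rw [h3] at h2
  exact h2

private theorem bask_det {H : Type*} [Fintype H] [DecidableEq H] (A : Matrix H H κ)
    {s : RatFunc κ} (hs : Transcendental κ s) :
    (A.map (algebraMap κ (RatFunc κ)) - Matrix.scalar H s).det ≠ 0 := by
  have h1 : A.map (algebraMap κ (RatFunc κ)) - Matrix.scalar H s =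
      -(Matrix.scalar H s - A.map (algebraMap κ (RatFunc κ))) := by abel
  rw [h1, Matrix.det_neg, ← Matrix.eval_charpoly]
  refine mul_ne_zero (pow_ne_zero _ (neg_ne_zero.mpr one_ne_zero)) ?_
  rw [Matrix.charpoly_map, Polynomial.eval_map_algebraMap]
  intro h2
  exact hs ⟨A.charpoly, A.charpoly_monic.ne_zero, h2⟩

/-- The data `A`. -/
private theorem bask_exA {Φ : MvPolynomial (Fin (n + 1)) κ} (hΦ : Φ.IsHomogeneous d)
    {U : Finset (Fin n →₀ ℕ)} (hU : IsMB (fun _ => 1) (bdr Φ) U) (N : ℕ) :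
    ∃ A : (Fin n →₀ ℕ) → (Fin n →₀ ℕ) → κ, ∀ u, ∑ i, u i + (d - 1) ≤ N →
      pderiv 0 Φ * monomial (mx (N - (d - 1)) u) 1 -
        ∑ u' ∈ U with ∑ i, u' i ≤ N, monomial (mx N u') (A u u') ∈ JT Φ := by
  classical
  have h1 : ∀ u : Fin n →₀ ℕ, ∃ a : (Fin n →₀ ℕ) → κ, ∑ i, u i + (d - 1) ≤ N →
      pderiv 0 Φ * monomial (mx (N - (d - 1)) u) 1 -
        ∑ u' ∈ U with ∑ i, u' i ≤ N, monomial (mx N u') (a u') ∈ JT Φ := by
    intro u
    by_cases hu : ∑ i, u i + (d - 1) ≤ N
    · have h2 : (pderiv 0 Φ * monomial (mx (N - (d - 1)) u) 1).IsHomogeneous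
          ((d - 1) + (N - (d - 1))) :=
        hΦ.pderiv.mul (bask_mono 1 (bask_mx (by omega)))
      rw [show (d - 1) + (N - (d - 1)) = N by omega] at h2
      obtain ⟨a, ha⟩ := bask_spanhom hΦ hU h2
      exact ⟨a, fun _ => ha⟩
    · exact ⟨0, fun h => absurd h hu⟩
  choose A hA using h1
  exact ⟨A, hA⟩

/-- The relations over `K`. -/
private theorem bask_rel {Φ : MvPolynomial (Fin (n + 1)) κ} 
    {U : Finset (Fin n →₀ ℕ)} {N : ℕ} {A : (Fin n →₀ ℕ) → (Fin n →₀ ℕ) → κ}
    (hA : ∀ u, ∑ i, u i + (d - 1) ≤ N →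
      pderiv 0 Φ * monomial (mx (N - (d - 1)) u) 1 -
        ∑ u' ∈ U with ∑ i, u' i ≤ N, monomial (mx N u') (A u u') ∈ JT Φ)
    (u : Fin n →₀ ℕ) (hu : ∑ i, u i + (d - 1) ≤ N) :
    pderiv 0 (FK Φ d) * monomial (mx (N - (d - 1)) u) 1 -
      (∑ u' ∈ U with ∑ i, u' i ≤ N, monomial (mx N u') (algebraMap κ (RatFunc κ) (A u u')) -
        monomial (mx N u) ((d : RatFunc κ) * RatFunc.X)) ∈
      JT (Φ.map (algebraMap κ (RatFunc κ))) := by
  have h1 := bask_jt_map (K := RatFunc κ) (hA u hu)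
  rw [map_sub, map_mul, map_monomial, map_one, map_sum, ← pderiv_map] at h1
  simp only [map_monomial] at h1
  unfold FK
  rw [bask_pd_zero, sub_mul, mul_assoc, bask_X_mul hu, C_mul_monomial, mul_one]
  rw [sub_sub_sub_comm, sub_self, sub_zero]
  exact h1

private theorem bask_jt_le (Φ : MvPolynomial (Fin (n + 1)) κ) :
    JT (Φ.map (algebraMap κ (RatFunc κ))) ≤
      Ideal.span (Set.range fun j => pderiv j (FK Φ d)) := by
  unfold JT
  rw [Ideal.span_le]
  rintro _ ⟨j, rfl⟩
  refine Ideal.subset_span ⟨j.succ, ?_⟩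
  unfold FK
  exact bask_pd_succ _ _ _ _

private theorem bask_jac_mem {P : MvPolynomial (Fin (n + 1)) (RatFunc κ)}
    {Ψ : MvPolynomial (Fin (n + 1)) κ} (h : P ∈ Ideal.span (Set.range fun j => pderiv j (FK Ψ d))) :
    ∃ Q, P - Q * pderiv 0 (FK Ψ d) ∈ JT (Ψ.map (algebraMap κ (RatFunc κ))) := by
  rw [Ideal.mem_span_range_iff_exists_fun] at h
  obtain ⟨c, rfl⟩ := h
  refine ⟨c 0, ?_⟩
  rw [Fin.sum_univ_succ, add_sub_cancel_left]
  refine Ideal.sum_mem _ fun j _ => Ideal.mul_mem_left _ _ ?_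
  unfold FK
  rw [bask_pd_succ]
  exact Ideal.subset_span ⟨j, rfl⟩

end aux2

private theorem bask_wtp {n : ℕ} (u : Fin n →₀ ℕ) : wtp (fun _ => 1) u = ∑ i, u i + n := by
  unfold wtp
  simp only [one_mul]
  rw [Finset.sum_add_distrib]
  simp

private theorem bask_tdg {m : ℕ} (e : Fin m →₀ ℕ) : tdg e = ∑ i, e i + m := by
  unfold tdg
  rw [Finset.sum_add_distrib]
  simp

private theorem bask_lvu_lt {n d : ℕ} (hd : 1 ≤ d) (u : Fin n →₀ ℕ) :
    wtp (fun _ => 1) u < lvu d u * d := by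
  unfold lvu
  rw [add_mul, one_mul, mul_comm]
  have h1 := Nat.div_add_mod (wtp (fun _ => 1) u) d
  have h2 := Nat.mod_lt (wtp (fun _ => 1) u) (show 0 < d by omega)
  omega

private theorem bask_tdg_gu {n d : ℕ} (hd : 1 ≤ d) (u : Fin n →₀ ℕ) :
    tdg (gu d u) = lvu d u * d := by
  have h1 := bask_lvu_lt hd u
  have h2 := bask_wtp u
  rw [bask_tdg]
  unfold gu
  rw [Fin.sum_univ_succ, Finsupp.cons_zero]
  simp only [Finsupp.cons_succ]
  omega

private theorem bask_gu_mx {n d N : ℕ} (u : Fin n →₀ ℕ) (hN : N + (n + 1) = lvu d u * d) :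
    gu d u = mx N u := by
  have h2 := bask_wtp u
  unfold gu mx
  congr 1
  omega

private theorem bask_lv_iff {n d N i : ℕ} (hd : 1 ≤ d) (u : Fin n →₀ ℕ)
    (hN : N + (n + 1) = i * d) :
    (¬ d ∣ wtp (fun _ => 1) u ∧ lvu d u = i) ↔
      (∑ i, u i ≤ N ∧ N - ∑ i, u i + 1 < d) := by
  have h2 := bask_wtp u
  have h1 := Nat.div_add_mod (wtp (fun _ => 1) u) d
  have h3 := Nat.mod_lt (wtp (fun _ => 1) u) (show 0 < d by omega)
  rw [Nat.dvd_iff_mod_eq_zero]
  unfold lvu
  constructor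
  · rintro ⟨h4, h5⟩
    have h6 : i * d = d * (wtp (fun _ => 1) u / d) + d := by
      rw [← h5, add_mul, one_mul, mul_comm]
    omega
  · rintro ⟨h4, h5⟩
    obtain ⟨i, rfl⟩ : ∃ k, i = k + 1 := by
      refine ⟨i - 1, ?_⟩
      have : i ≠ 0 := by
        rintro rfl
        omega
      omega
    have h6 : (i + 1) * d = i * d + d := by ring
    have h7 : i * d < wtp (fun _ => 1) u := by omega
    have h8 : wtp (fun _ => 1) u < (i + 1) * d := by omega
    have h9 : wtp (fun _ => 1) u / d = i :=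
      Nat.div_eq_of_lt_le (by omega) h8
    refine ⟨?_, by rw [h9]⟩
    rw [h9] at h1
    have h10 : d * i = i * d := mul_comm _ _
    omega

variable {κ : Type u} [Field κ] {n : ℕ} {d : ℕ} (hd : 1 ≤ d) (hdκ : (d : κ) ≠ 0)
  {Φ : MvPolynomial (Fin (n + 1)) κ} (hΦ : Φ.IsHomogeneous d)
  {U : Finset (Fin n →₀ ℕ)} (hU : IsMB (fun _ => 1) (bdr Φ) U)

include hd hdκ hΦ hU

theorem bas_span (e : Fin (n + 1) →₀ ℕ) :
    ∃ c : (Fin n →₀ ℕ) → RatFunc κ, monomial e 1 -
      ∑ u ∈ U with ∑ i, u i ≤ ∑ i, e i ∧ ∑ i, e i - ∑ i, u i + 1 < d,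
        monomial (mx (∑ i, e i) u) (c u) ∈ Ideal.span (Set.range fun j => pderiv j (FK Φ d)) := by
  classical
  obtain ⟨N, hN⟩ : ∃ N, N = ∑ i, e i := ⟨_, rfl⟩
  obtain ⟨c0, hc0⟩ := free_span hΦ hU e
  rw [← hN] at hc0 ⊢
  obtain ⟨A, hA⟩ := bask_exA hΦ hU N
  let bb : (Fin n →₀ ℕ) → MvPolynomial (Fin (n + 1)) (RatFunc κ) := fun u => monomial (mx N u) 1
  let L : Finset (Fin n →₀ ℕ) := U.filter fun u => ∑ i, u i ≤ N ∧ N - ∑ i, u i + 1 < d
  let H : Finset (Fin n →₀ ℕ) := U.filter fun u => ∑ i, u i + (d - 1) ≤ N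
  let JK : Ideal (MvPolynomial (Fin (n + 1)) (RatFunc κ)) :=
    Ideal.span (Set.range fun j => pderiv j (FK Φ d))
  let W : Submodule (RatFunc κ) (MvPolynomial (Fin (n + 1)) (RatFunc κ)) :=
    Submodule.span (RatFunc κ) (bb '' (L : Set (Fin n →₀ ℕ))) ⊔ JK.restrictScalars (RatFunc κ)
  have hWJ : ∀ P, P ∈ JK → P ∈ W := fun P hP =>
    (le_sup_right : JK.restrictScalars (RatFunc κ) ≤ W) hP
  have hWL : ∀ u ∈ L, bb u ∈ W := fun u hu =>
    (le_sup_left : Submodule.span (RatFunc κ) (bb '' (L : Set (Fin n →₀ ℕ))) ≤ W)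
      (Submodule.subset_span ⟨u, Finset.mem_coe.mpr hu, rfl⟩)
  have hmon : ∀ (u : Fin n →₀ ℕ) (a : RatFunc κ), monomial (mx N u) a = a • bb u := by
    intro u a
    change _ = a • monomial (mx N u) 1
    rw [smul_monomial, smul_eq_mul, mul_one]
  have hWH : ∀ v ∈ H, bb v ∈ W := by
    let s : RatFunc κ := (d : RatFunc κ) * RatFunc.X
    let B : Matrix H H (RatFunc κ) :=
      (Matrix.of fun (u' u : H) => A u.1 u'.1).map (algebraMap κ (RatFunc κ)) - Matrix.scalar H s
    have hB : IsUnit B.det := isUnit_iff_ne_zero.mpr (bask_det _ (bask_transc hdκ))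
    have hBB := Matrix.mul_nonsing_inv B hB
    have hrel : ∀ u : H, ∑ u' : H, B u' u • bb u'.1 ∈ W := by
      intro u
      have hu : ∑ i, u.1 i + (d - 1) ≤ N := (Finset.mem_filter.mp u.2).2
      have h1 := hWJ _ (bask_jt_le (d := d) Φ (bask_rel hA u.1 hu))
      have h2 : pderiv 0 (FK Φ d) * monomial (mx (N - (d - 1)) u.1) 1 ∈ W :=
        hWJ _ (Ideal.mul_mem_right _ _ (Ideal.subset_span ⟨0, rfl⟩))
      have h3 := W.sub_mem h2 h1
      rw [sub_sub_cancel, bask_split hd] at h3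
      have h4 : ∑ u' ∈ L, monomial (mx N u') (algebraMap κ (RatFunc κ) (A u.1 u')) ∈ W := by
        refine W.sum_mem fun u' hu' => ?_
        rw [hmon]
        exact W.smul_mem _ (hWL u' hu')
      have h5 := W.sub_mem h3 h4
      have h6 : ∑ u' : H, B u' u • bb u'.1 =
          ∑ u' ∈ U with ∑ i, u' i ≤ N ∧ N - ∑ i, u' i + 1 < d,
              monomial (mx N u') (algebraMap κ (RatFunc κ) (A u.1 u')) +
            ∑ u' ∈ U with ∑ i, u' i + (d - 1) ≤ N,
              monomial (mx N u') (algebraMap κ (RatFunc κ) (A u.1 u')) - monomial (mx N u.1) s -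
          ∑ u' ∈ L, monomial (mx N u') (algebraMap κ (RatFunc κ) (A u.1 u')) := by
        have h7 : ∀ u' : H, B u' u • bb u'.1 =
            algebraMap κ (RatFunc κ) (A u.1 u'.1) • bb u'.1 - (if u' = u then s • bb u'.1 else 0) := by
          intro u'
          change (algebraMap κ (RatFunc κ) (A u.1 u'.1) - Matrix.scalar H s u' u) • bb u'.1 = _
          rw [sub_smul, Matrix.scalar_apply, Matrix.diagonal_apply]
          split_ifs with h8
          · rfl
          · rw [zero_smul]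
        rw [Finset.sum_congr rfl fun u' _ => h7 u', Finset.sum_sub_distrib,
          Finset.sum_ite_eq' Finset.univ u, if_pos (Finset.mem_univ _),
          Finset.sum_coe_sort H (fun u' => algebraMap κ (RatFunc κ) (A u.1 u') • bb u')]
        simp only [hmon]
        change _ = ∑ u' ∈ L, _ + ∑ u' ∈ H, _ - _ - _
        abel
      rw [h6]
      exact h5
    intro v hv
    have h1 : bb v = ∑ u : H, B⁻¹ u ⟨v, hv⟩ • ∑ u' : H, B u' u • bb u'.1 := by
      have h2 : ∀ u' : H, ∑ u : H, (B⁻¹ u ⟨v, hv⟩ * B u' u) = if u' = ⟨v, hv⟩ then 1 else 0 := by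
        intro u'
        have h3 := congrFun (congrFun hBB u') ⟨v, hv⟩
        rw [Matrix.mul_apply, Matrix.one_apply] at h3
        rw [← h3]
        exact Finset.sum_congr rfl fun u _ => mul_comm _ _
      simp_rw [Finset.smul_sum, smul_smul]
      rw [Finset.sum_comm]
      simp_rw [← Finset.sum_smul, h2, ite_smul, one_smul, zero_smul]
      rw [Finset.sum_ite_eq' Finset.univ (⟨v, hv⟩ : H), if_pos (Finset.mem_univ _)]
    rw [h1]
    exact W.sum_mem fun u _ => W.smul_mem _ (hrel u)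
  have hmem : (monomial e 1 : MvPolynomial (Fin (n + 1)) (RatFunc κ)) ∈ W := by
    have h1 := bask_jt_le (d := d) Φ (bask_jt_map (K := RatFunc κ) hc0)
    rw [map_sub, map_monomial, map_one, map_sum] at h1
    have h2 := hWJ _ h1
    rw [bask_split hd] at h2
    simp only [map_monomial, hmon] at h2
    have h3 : ∑ u ∈ U with ∑ i, u i ≤ N ∧ N - ∑ i, u i + 1 < d,
        algebraMap κ (RatFunc κ) (c0 u) • bb u ∈ W :=
      W.sum_mem fun u hu => W.smul_mem _ (hWL u hu)
    have h4 : ∑ u ∈ U with ∑ i, u i + (d - 1) ≤ N,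
        algebraMap κ (RatFunc κ) (c0 u) • bb u ∈ W :=
      W.sum_mem fun u hu => W.smul_mem _ (hWH u hu)
    have h5 := W.add_mem h2 (W.add_mem h3 h4)
    rw [sub_add_cancel] at h5
    exact h5
  obtain ⟨y, hy, z, hz, hyz⟩ := Submodule.mem_sup.mp hmem
  rw [Submodule.mem_span_image_finset_iff_exists_fun'] at hy
  obtain ⟨c, hc⟩ := hy
  refine ⟨c, ?_⟩
  have h1 : (monomial e 1 : MvPolynomial (Fin (n + 1)) (RatFunc κ)) -
      ∑ u ∈ U with ∑ i, u i ≤ N ∧ N - ∑ i, u i + 1 < d, monomial (mx N u) (c u) = z := by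
    rw [← hyz, ← hc, sub_eq_iff_eq_add']
    congr 1
    exact Finset.sum_congr rfl fun u _ => (hmon u (c u)).symm
  rw [h1]
  exact hz

theorem bas_ind {M : ℕ} (hM : ∀ i, (X i : MvPolynomial (Fin n) κ) ^ M ∈ Jac (bdr Φ)) (N : ℕ)
    (c : (Fin n →₀ ℕ) → RatFunc κ)
    (h : ∑ u ∈ U with ∑ i, u i ≤ N ∧ N - ∑ i, u i + 1 < d, monomial (mx N u) (c u) ∈
      Ideal.span (Set.range fun j => pderiv j (FK Φ d))) :
    ∀ u ∈ U, ∑ i, u i ≤ N → N - ∑ i, u i + 1 < d → c u = 0 := by
  classical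
  obtain ⟨A, hA⟩ := bask_exA hΦ hU N
  obtain ⟨Q0, hQ0⟩ := bask_jac_mem h
  have hΨ : (Φ.map (algebraMap κ (RatFunc κ))).IsHomogeneous d := hΦ.map _
  have hUK : IsMB (fun _ => 1) (bdr (Φ.map (algebraMap κ (RatFunc κ)))) U := by
    rw [bdr_map]
    exact IsMB_map _ _ _ hU
  have hMK : ∀ i, (X i : MvPolynomial (Fin n) (RatFunc κ)) ^ M ∈
      Jac (bdr (Φ.map (algebraMap κ (RatFunc κ)))) := by
    intro i
    have h1 := Ideal.mem_map_of_mem (MvPolynomial.map (algebraMap κ (RatFunc κ))) (hM i)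
    unfold Jac at h1 ⊢
    rw [Ideal.map_span, ← Set.range_comp] at h1
    have h2 : ((MvPolynomial.map (algebraMap κ (RatFunc κ))) ∘ fun j => pderiv j (bdr Φ)) =
        fun j => pderiv j (bdr (MvPolynomial.map (algebraMap κ (RatFunc κ)) Φ)) := by
      funext j
      rw [bdr_map, MvPolynomial.pderiv_map]
      rfl
    rw [h2, map_pow, map_X] at h1
    exact h1
  have hJTc : ∀ P, P ∈ JT (Φ.map (algebraMap κ (RatFunc κ))) →
      homogeneousComponent N P ∈ JT (Φ.map (algebraMap κ (RatFunc κ))) := fun P hP =>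
    bask_comp_span (D := d - 1) (fun j => hΨ.pderiv) N hP
  have hFK : (FK Φ d).IsHomogeneous d := by
    unfold FK
    refine hΨ.sub ?_
    have h1 := (isHomogeneous_C (Fin (n + 1)) (RatFunc.X : RatFunc κ)).mul
      ((isHomogeneous_X (RatFunc κ) (0 : Fin (n + 1))).pow d)
    rw [zero_add, one_mul] at h1
    exact h1
  have hL : (∑ u ∈ U with ∑ i, u i ≤ N ∧ N - ∑ i, u i + 1 < d, monomial (mx N u) (c u) :
      MvPolynomial (Fin (n + 1)) (RatFunc κ)).IsHomogeneous N :=
    IsHomogeneous.sum _ _ _ fun u hu => bask_mono _ (bask_mx (Finset.mem_filter.mp hu).2.1)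
  have h1 := hJTc _ hQ0
  rw [map_sub, homogeneousComponent_eq_self hL] at h1
  rcases Nat.lt_or_ge N (d - 1) with hNd | hNd
  · rw [bask_comp_mul' hFK.pderiv Q0 hNd, sub_zero] at h1
    intro u hu hu1 hu2
    refine free_ind hΨ hMK hUK N c ?_ u hu hu1
    rw [bask_split hd]
    have h2 : ∑ u ∈ U with ∑ i, u i + (d - 1) ≤ N,
        (monomial (mx N u) (c u) : MvPolynomial (Fin (n + 1)) (RatFunc κ)) = 0 := by
      refine Finset.sum_eq_zero fun u hu => ?_
      have h3 := (Finset.mem_filter.mp hu).2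
      omega
    rw [h2, add_zero]
    exact h1
  · rw [bask_comp_mul hFK.pderiv Q0 hNd] at h1
    obtain ⟨r, hr⟩ := bask_spanhom hΨ hUK
      (homogeneousComponent_isHomogeneous (N - (d - 1)) Q0)
    let H : Finset (Fin n →₀ ℕ) := U.filter fun u => ∑ i, u i + (d - 1) ≤ N
    have hH : U.filter (fun u => ∑ i, u i ≤ N - (d - 1)) = H := by
      ext u
      rw [Finset.mem_filter, Finset.mem_filter]
      refine and_congr_right fun _ => ?_
      omega
    rw [hH] at hr
    let s : RatFunc κ := (d : RatFunc κ) * RatFunc.X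
    have h2 := Ideal.mul_mem_right (pderiv 0 (FK Φ d)) _ hr
    have h3 := Ideal.add_mem _ h1 h2
    have h4 : ∀ u ∈ H, C (r u) * (pderiv 0 (FK Φ d) * monomial (mx (N - (d - 1)) u) 1 -
      (∑ u' ∈ U with ∑ i, u' i ≤ N, monomial (mx N u') (algebraMap κ (RatFunc κ) (A u u')) -
        monomial (mx N u) ((d : RatFunc κ) * RatFunc.X))) ∈
      JT (Φ.map (algebraMap κ (RatFunc κ))) := fun u hu =>
      Ideal.mul_mem_left _ _ (bask_rel hA u (Finset.mem_filter.mp hu).2)
    have h5 := Ideal.add_mem _ h3 (Ideal.sum_mem _ h4)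
    let cc : (Fin n →₀ ℕ) → RatFunc κ := fun u' =>
      (if N - ∑ i, u' i + 1 < d then c u' else 0) -
        ∑ u ∈ H, r u * algebraMap κ (RatFunc κ) (A u u') + (if u' ∈ H then r u' * s else 0)
    have h6 : ∑ u' ∈ U with ∑ i, u' i ≤ N, monomial (mx N u') (cc u') ∈
        JT (Φ.map (algebraMap κ (RatFunc κ))) := by
      have h7 : ∑ u' ∈ U with ∑ i, u' i ≤ N, monomial (mx N u') (cc u') =
          ∑ u ∈ U with ∑ i, u i ≤ N ∧ N - ∑ i, u i + 1 < d, monomial (mx N u) (c u) -
            homogeneousComponent (N - (d - 1)) Q0 * pderiv 0 (FK Φ d) +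
          (homogeneousComponent (N - (d - 1)) Q0 -
            ∑ u ∈ H, monomial (mx (N - (d - 1)) u) (r u)) * pderiv 0 (FK Φ d) +
          ∑ u ∈ H, C (r u) * (pderiv 0 (FK Φ d) * monomial (mx (N - (d - 1)) u) 1 -
            (∑ u' ∈ U with ∑ i, u' i ≤ N, monomial (mx N u') (algebraMap κ (RatFunc κ) (A u u')) -
              monomial (mx N u) ((d : RatFunc κ) * RatFunc.X))) := by
        have e1 : ∑ u' ∈ U with ∑ i, u' i ≤ N,
            (monomial (mx N u') (if N - ∑ i, u' i + 1 < d then c u' else 0) :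
              MvPolynomial (Fin (n + 1)) (RatFunc κ)) =
            ∑ u ∈ U with ∑ i, u i ≤ N ∧ N - ∑ i, u i + 1 < d, monomial (mx N u) (c u) := by
          rw [Finset.sum_filter, Finset.sum_filter]
          refine Finset.sum_congr rfl fun u _ => ?_
          by_cases ha : ∑ i, u i ≤ N
          · by_cases hb : N - ∑ i, u i + 1 < d
            · rw [if_pos ha, if_pos hb, if_pos ⟨ha, hb⟩]
            · rw [if_pos ha, if_neg hb, if_neg fun h => hb h.2, monomial_zero]
          · rw [if_neg ha, if_neg fun h => ha h.1]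
        have e2 : ∑ u' ∈ U with ∑ i, u' i ≤ N,
            (monomial (mx N u') (if u' ∈ H then r u' * s else 0) :
              MvPolynomial (Fin (n + 1)) (RatFunc κ)) =
            ∑ u ∈ H, monomial (mx N u) (r u * s) := by
          rw [bask_split hd]
          have e3 : ∑ u ∈ U with ∑ i, u i ≤ N ∧ N - ∑ i, u i + 1 < d,
              (monomial (mx N u) (if u ∈ H then r u * s else 0) :
                MvPolynomial (Fin (n + 1)) (RatFunc κ)) = 0 := by
            refine Finset.sum_eq_zero fun u hu => ?_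
            rw [if_neg, monomial_zero]
            intro hu'
            have h8 := (Finset.mem_filter.mp hu).2
            have h9 := (Finset.mem_filter.mp hu').2
            omega
          rw [e3, zero_add]
          exact Finset.sum_congr rfl fun u hu => by rw [if_pos hu]
        have e4 : ∑ u' ∈ U with ∑ i, u' i ≤ N,
            (monomial (mx N u') (∑ u ∈ H, r u * algebraMap κ (RatFunc κ) (A u u')) :
              MvPolynomial (Fin (n + 1)) (RatFunc κ)) =
            ∑ u ∈ H, C (r u) * ∑ u' ∈ U with ∑ i, u' i ≤ N,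
              monomial (mx N u') (algebraMap κ (RatFunc κ) (A u u')) := by
          simp_rw [Finset.mul_sum, C_mul_monomial]
          rw [Finset.sum_comm]
          refine Finset.sum_congr rfl fun u _ => ?_
          rw [map_sum]
        have e5 : ∑ u ∈ H, C (r u) * (pderiv 0 (FK Φ d) * monomial (mx (N - (d - 1)) u) 1 -
            (∑ u' ∈ U with ∑ i, u' i ≤ N, monomial (mx N u') (algebraMap κ (RatFunc κ) (A u u')) -
              monomial (mx N u) ((d : RatFunc κ) * RatFunc.X))) =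
            (∑ u ∈ H, monomial (mx (N - (d - 1)) u) (r u)) * pderiv 0 (FK Φ d) -
            ∑ u ∈ H, C (r u) * ∑ u' ∈ U with ∑ i, u' i ≤ N,
              monomial (mx N u') (algebraMap κ (RatFunc κ) (A u u')) +
            ∑ u ∈ H, monomial (mx N u) (r u * s) := by
          rw [Finset.sum_mul, ← Finset.sum_sub_distrib, ← Finset.sum_add_distrib]
          refine Finset.sum_congr rfl fun u _ => ?_
          have e6 : (monomial (mx (N - (d - 1)) u) (r u) :
              MvPolynomial (Fin (n + 1)) (RatFunc κ)) =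
              C (r u) * monomial (mx (N - (d - 1)) u) 1 := by
            rw [C_mul_monomial, mul_one]
          have e7 : (monomial (mx N u) (r u * s) : MvPolynomial (Fin (n + 1)) (RatFunc κ)) =
              C (r u) * monomial (mx N u) ((d : RatFunc κ) * RatFunc.X) := by
            rw [C_mul_monomial]
          rw [e6, e7]
          ring
        rw [e5]
        have e8 : ∀ u', (monomial (mx N u') (cc u') : MvPolynomial (Fin (n + 1)) (RatFunc κ)) =
            monomial (mx N u') (if N - ∑ i, u' i + 1 < d then c u' else 0) -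
            monomial (mx N u') (∑ u ∈ H, r u * algebraMap κ (RatFunc κ) (A u u')) +
            monomial (mx N u') (if u' ∈ H then r u' * s else 0) := by
          intro u'
          change monomial (mx N u') (_ - _ + _) = _
          rw [map_add, map_sub]
        rw [Finset.sum_congr rfl fun u' _ => e8 u', Finset.sum_add_distrib,
          Finset.sum_sub_distrib, e1, e2, e4]
        ring
      rw [h7]
      exact h5
    have h8 := free_ind hΨ hMK hUK N cc h6
    let B : Matrix H H (RatFunc κ) :=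
      (Matrix.of fun (u' u : H) => A u.1 u'.1).map (algebraMap κ (RatFunc κ)) - Matrix.scalar H s
    have hB : B.det ≠ 0 := bask_det _ (bask_transc hdκ)
    have h9 : B.mulVec (fun u : H => r u.1) = 0 := by
      funext u'
      have h10 : ∑ i, u'.1 i + (d - 1) ≤ N := (Finset.mem_filter.mp u'.2).2
      have h11 := h8 u'.1 (Finset.mem_filter.mp u'.2).1 (by omega)
      change (if N - ∑ i, u'.1 i + 1 < d then c u'.1 else 0) -
        ∑ u ∈ H, r u * algebraMap κ (RatFunc κ) (A u u'.1) +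
        (if u'.1 ∈ H then r u'.1 * s else 0) = 0 at h11
      rw [if_neg (by omega), if_pos u'.2] at h11
      have h12 : B.mulVec (fun u : H => r u.1) u' =
          ∑ u : H, (r u.1 * algebraMap κ (RatFunc κ) (A u.1 u'.1) -
            (if u' = u then r u.1 * s else 0)) := by
        change ∑ u : H, B u' u * r u.1 = _
        refine Finset.sum_congr rfl fun u _ => ?_
        change (algebraMap κ (RatFunc κ) (A u.1 u'.1) - Matrix.scalar H s u' u) * r u.1 = _
        rw [sub_mul, Matrix.scalar_apply, Matrix.diagonal_apply, ite_mul, zero_mul, mul_comm,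
          mul_comm s]
      rw [h12, Finset.sum_sub_distrib, Finset.sum_ite_eq Finset.univ u',
        if_pos (Finset.mem_univ _),
        Finset.sum_coe_sort H (fun u => r u * algebraMap κ (RatFunc κ) (A u u'.1)), Pi.zero_apply]
      linear_combination -h11
    have h10 := Matrix.eq_zero_of_mulVec_eq_zero hB h9
    have hr0 : ∀ u ∈ H, r u = 0 := fun u hu => congrFun h10 ⟨u, hu⟩
    intro u hu hu1 hu2
    have h11 := h8 u hu hu1
    change (if N - ∑ i, u i + 1 < d then c u else 0) -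
        ∑ v ∈ H, r v * algebraMap κ (RatFunc κ) (A v u) +
        (if u ∈ H then r u * s else 0) = 0 at h11
    rw [if_pos hu2, if_neg, Finset.sum_eq_zero, sub_zero, add_zero] at h11
    · exact h11
    · intro v hv
      rw [hr0 v hv, zero_mul]
    · intro hu'
      have h12 := (Finset.mem_filter.mp hu').2
      omega

theorem exists_cdata {M : ℕ} (hM : ∀ i, (X i : MvPolynomial (Fin n) κ) ^ M ∈ Jac (bdr Φ))
    (J : ℕ) : ∃ c : Vs U d J → (Fin (n + 1) →₀ ℕ) → RatFunc κ,
      CData d J (FK Φ d) (fun v : Vs U d J => gu d v.1) (fun v => lvu d v.1) c 1 := by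
  classical
  choose f hf using fun e => bas_span hd hdκ hΦ hU e
  -- the coordinates of a homogeneous polynomial
  have hpoly : ∀ (N : ℕ) (P : MvPolynomial (Fin (n + 1)) (RatFunc κ)), P.IsHomogeneous N →
      P - ∑ u ∈ U with ∑ i, u i ≤ N ∧ N - ∑ i, u i + 1 < d,
        monomial (mx N u) (∑ e ∈ P.support, coeff e P * f e u) ∈
        Ideal.span (Set.range fun j => pderiv j (FK Φ d)) := by
    intro N P hP
    have h1 : P - ∑ u ∈ U with ∑ i, u i ≤ N ∧ N - ∑ i, u i + 1 < d,
          monomial (mx N u) (∑ e ∈ P.support, coeff e P * f e u) =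
        ∑ e ∈ P.support, C (coeff e P) *
          (monomial e 1 - ∑ u ∈ U with ∑ i, u i ≤ N ∧ N - ∑ i, u i + 1 < d,
            monomial (mx N u) (f e u)) := by
      simp_rw [mul_sub, Finset.sum_sub_distrib, Finset.mul_sum, C_mul_monomial, mul_one]
      rw [Finset.sum_comm, ← P.as_sum]
      congr 1
      refine Finset.sum_congr rfl fun u _ => ?_
      rw [map_sum]
    rw [h1]
    refine Ideal.sum_mem _ fun e he => Ideal.mul_mem_left _ _ ?_
    have h2 := hf e
    rw [bask_deg hP he] at h2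
    exact h2
  have hzero : ∀ (N : ℕ) (P : MvPolynomial (Fin (n + 1)) (RatFunc κ)), P.IsHomogeneous N →
      P ∈ Ideal.span (Set.range fun j => pderiv j (FK Φ d)) →
      ∀ u ∈ U, ∑ i, u i ≤ N → N - ∑ i, u i + 1 < d →
        ∑ e ∈ P.support, coeff e P * f e u = 0 := by
    intro N P hP hPJ
    have h1 := Ideal.sub_mem _ hPJ (hpoly N P hP)
    rw [sub_sub_cancel] at h1
    exact bas_ind hd hdκ hΦ hU hM N _ h1
  refine ⟨fun v e => if tdg e = lvu d v.1 * d then f e v.1 else 0, ?_, ?_, ?_, ?_, ?_, ?_, ?_⟩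
  · intro v
    exact Nat.le_add_left _ _
  · intro v
    have h1 := (mem_Vs.mp v.2).2.2
    exact Nat.succ_le_of_lt (Nat.div_lt_of_lt_mul (by rwa [mul_comm] at h1))
  · intro v
    exact bask_tdg_gu hd v.1
  · intro v j Q
    have hFK : (FK Φ d).IsHomogeneous d := by
      unfold FK
      refine (hΦ.map _).sub ?_
      have h1 := (isHomogeneous_C (Fin (n + 1)) (RatFunc.X : RatFunc κ)).mul
        ((isHomogeneous_X (RatFunc κ) (0 : Fin (n + 1))).pow d)
      rw [zero_add, one_mul] at h1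
      exact h1
    induction Q using MvPolynomial.induction_on' with
    | monomial e a =>
      have h1 : (monomial e a * pderiv j (FK Φ d)).IsHomogeneous (∑ i, e i + (d - 1)) :=
        (bask_mono a rfl).mul hFK.pderiv
      rw [ell_eq_sum]
      by_cases h2 : ∑ i, e i + (d - 1) + (n + 1) = lvu d v.1 * d
      · have h3 := (bask_lv_iff hd v.1 h2).mp ⟨(mem_Vs.mp v.2).2.1, rfl⟩
        have h4 := hzero _ _ h1 (Ideal.mul_mem_left _ _ (Ideal.subset_span ⟨j, rfl⟩)) v.1
          (mem_Vs.mp v.2).1 h3.1 h3.2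
        refine (Finset.sum_congr rfl fun e' he' => ?_).trans h4
        change _ * (if tdg e' = lvu d v.1 * d then f e' v.1 else 0) = _
        rw [if_pos]
        rw [bask_tdg, bask_deg h1 he', h2]
      · refine Finset.sum_eq_zero fun e' he' => ?_
        change _ * (if tdg e' = lvu d v.1 * d then f e' v.1 else 0) = _
        rw [if_neg, mul_zero]
        rw [bask_tdg, bask_deg h1 he']
        exact h2
    | add p q hp hq => rw [add_mul, map_add, hp, hq, add_zero]
  · intro v v'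

    rw [bask_tdg_gu hd]
    by_cases h1 : lvu d v'.1 * d = lvu d v.1 * d
    · rw [if_pos h1]
      have h2 : lvu d v'.1 = lvu d v.1 := Nat.eq_of_mul_eq_mul_right (by omega) h1
      obtain ⟨N, hN⟩ : ∃ N, N = ∑ i, gu d v'.1 i := ⟨_, rfl⟩
      have h3 : N + (n + 1) = lvu d v'.1 * d := by
        rw [← bask_tdg_gu hd, bask_tdg, hN]
      have h4 := hf (gu d v'.1)
      rw [← hN] at h4
      have h5 := (bask_lv_iff hd v'.1 h3).mp ⟨(mem_Vs.mp v'.2).2.1, rfl⟩
      have h6 : (monomial (gu d v'.1) 1 : MvPolynomial (Fin (n + 1)) (RatFunc κ)) =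
          ∑ u ∈ U with ∑ i, u i ≤ N ∧ N - ∑ i, u i + 1 < d,
            monomial (mx N u) (if u = v'.1 then 1 else 0) := by
        have h7 : ∀ u, (monomial (mx N u) (if u = v'.1 then 1 else 0) :
            MvPolynomial (Fin (n + 1)) (RatFunc κ)) =
            if u = v'.1 then monomial (mx N u) 1 else 0 := by
          intro u
          split_ifs with h8
          · rfl
          · exact monomial_zero
        rw [Finset.sum_congr rfl fun u _ => h7 u, Finset.sum_ite_eq', if_pos, bask_gu_mx v'.1 h3]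
        exact Finset.mem_filter.mpr ⟨(mem_Vs.mp v'.2).1, h5⟩
      rw [h6, ← Finset.sum_sub_distrib] at h4
      simp_rw [← map_sub] at h4
      rw [h2] at h3
      have h8 := (bask_lv_iff hd v.1 h3).mp ⟨(mem_Vs.mp v.2).2.1, rfl⟩
      have h9 := bas_ind hd hdκ hΦ hU hM N _ h4 v.1 (mem_Vs.mp v.2).1 h8.1 h8.2
      rw [sub_eq_zero] at h9
      rw [← h9]
      by_cases h10 : v = v'
      · rw [if_pos h10, if_pos (by rw [h10])]
      · rw [if_neg h10, if_neg fun h11 => h10 (Subtype.ext h11)]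
    · rw [if_neg h1, if_neg]
      rintro rfl
      exact h1 rfl
  · intro v e he
    exact if_neg he
  · intro i hi hiJ e he
    obtain ⟨N, hN⟩ : ∃ N, N = ∑ i, e i := ⟨_, rfl⟩
    have h1 := hf e
    rw [← hN] at h1
    have h2 : N + (n + 1) = i * d := by rw [← he, bask_tdg, hN]
    rw [C_1, one_mul]
    have h3 : ∑ v : Vs U d J, (if lvu d v.1 = i then
        (monomial (gu d v.1) (if tdg e = lvu d v.1 * d then f e v.1 else 0) :
          MvPolynomial (Fin (n + 1)) (RatFunc κ)) else 0) =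
        ∑ u ∈ U with ∑ i, u i ≤ N ∧ N - ∑ i, u i + 1 < d, monomial (mx N u) (f e u) := by
      rw [Finset.sum_coe_sort (Vs U d J) (fun u => (if lvu d u = i then
        (monomial (gu d u) (if tdg e = lvu d u * d then f e u else 0) :
          MvPolynomial (Fin (n + 1)) (RatFunc κ)) else 0)), ← Finset.sum_filter]
      have h4 : (Vs U d J).filter (fun u => lvu d u = i) =
          U.filter fun u => ∑ i, u i ≤ N ∧ N - ∑ i, u i + 1 < d := by
        ext u
        rw [Finset.mem_filter, mem_Vs, Finset.mem_filter]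
        constructor
        · rintro ⟨⟨h5, h6, _⟩, h7⟩
          exact ⟨h5, (bask_lv_iff hd u h2).mp ⟨h6, h7⟩⟩
        · rintro ⟨h5, h6⟩
          have h7 := (bask_lv_iff hd u h2).mpr h6
          refine ⟨⟨h5, h7.1, ?_⟩, h7.2⟩
          refine (bask_lvu_lt hd u).trans_le ?_
          rw [h7.2]
          exact Nat.mul_le_mul_right d hiJ
      rw [h4]
      refine Finset.sum_congr rfl fun u hu => ?_
      have h5 := (bask_lv_iff hd u h2).mpr (Finset.mem_filter.mp hu).2
      rw [if_pos (by rw [h5.2]; exact he), bask_gu_mx u (by rw [h5.2]; exact h2)]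
    change monomial e 1 - ∑ v : Vs U d J, (if lvu d v.1 = i then
        (monomial (gu d v.1) (if tdg e = lvu d v.1 * d then f e v.1 else 0) :
          MvPolynomial (Fin (n + 1)) (RatFunc κ)) else 0) ∈ _
    rw [h3]
    exact h1

end MPadcBK
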