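import Pool.Agent.Lib.MP_adc574_ag_BK.CData

/-!
# JOB Gam: the functionals `γ_v` in characteristic `p`

`gam p F c lv v k P = ell (c^p) v (ap p F (lv v) k P)`. `CData.frob` gives coordinates modulo the Jacobian ideal of `F^(p) = F.map (frobenius R p)`.
* `gam_exa`: `ap_exa` and `ell (c^p) v` kills the multiples of `∂_j F^(p)` (`CData.ker`).
* `gam_der`: `D (c^p) = 0` in characteristic `p`, so `D (ell (c^p) v G) = ell (c^p) v (cder D G)`; `ap_der` (`P = x^e`, `cder D (x^e) = 0`). `G = ap (i-1) k (x^e)`, `i = lv v`, is homogeneous of degree `M`, `M + m = (i-1) d` (`ap_homog`), if `i ≥ 2`: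
  by `CData.coord` (for `F^(p)`) `h^p G - ∑_{lv v' = i-1} ell (c^p) v' G • x^(g v') ∈ Jac F^(p)`, multiply by `vB p D F`, apply `ell (c^p) v`: `h^p ell v (vB G) = ∑_{lv v' = i-1} gam v' k (x^e) * ell v (vB * x^(g v'))`. For `i = 1` `G = ap 0 k (x^e) = 0`, `k ≥ 1` (`ap_neg`).
* `gam_indep`: `K` a field of characteristic `p`, all monomials `x^e` with `∑ e ≥ M` are in the Jacobian ideal of `F`; `∑_v λ_v γ_v(k0, x^e) = 0` for all `e` of level `k0`; `M + m ≤ k0 d`, `1 ≤ k0 ≤ p`.
  First the same for all levels `k ≥ k0`, by induction: `x^e = ∑ Q_j ∂_j F` with `Q_j` homogeneous (take the homogeneous components of degree `∑ e - (d - 1)` of the `Q_j`), `gam (k+1) (Q_j ∂_j F) = gam k (∂_j Q_j)` (`gam_exa`, `p lv v - k < p^2` as `lv v < p`), and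
  `∂_j Q_j` is a combination of monomials of level `k`. Suppose `λ ≠ 0`; choose `v0` with `λ_v0 ≠ 0` and `lv v0 = J'` maximal. Apply it with `k = p J' ≥ p ≥ k0` and `e = p g(v0) + (p-1)` (`tdg e = p J' d`): by `ap_fr` only the `v` with `lv v = J'` contribute (`λ_v = 0` for `lv v > J'`),
  `ell (c^p) v (x^(g v0)) = h^p δ`. So `λ_v0 h^p = 0`.
-/

set_option autoImplicit false

namespace MPadcBK

open MvPolynomial MPadcGM MPadcHM

section

variable {m : ℕ} {R : Type*} [CommRing R] (p : ℕ) [hp : Fact p.Prime] [CharP R p]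
  {V : Type*} [Fintype V] [DecidableEq V]

/-- The functionals. -/
noncomputable def gam (F : MvPolynomial (Fin m) R) (c : V → (Fin m →₀ ℕ) → R) (lv : V → ℕ)
    (v : V) (k : ℕ) : MvPolynomial (Fin m) R →ₗ[R] R :=
  (ell (fun v e => c v e ^ p) v).comp (ap p F (lv v) k)

theorem gam_apply (F : MvPolynomial (Fin m) R) (c : V → (Fin m →₀ ℕ) → R) (lv : V → ℕ)
    (v : V) (k : ℕ) (P : MvPolynomial (Fin m) R) :
    gam p F c lv v k P = ell (fun v e => c v e ^ p) v (ap p F (lv v) k P) := rfl

private theorem gam_tdg (e : Fin m →₀ ℕ) : tdg e = ∑ i, e i + m := by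
  unfold tdg
  rw [Finset.sum_add_distrib, Finset.sum_const, Finset.card_univ, Fintype.card_fin, smul_eq_mul,
    mul_one]

private theorem gam_weight (u : Fin m →₀ ℕ) :
    Finsupp.weight (1 : Fin m → ℕ) u = ∑ i, u i := by
  rw [Finsupp.weight_apply, Finsupp.sum_fintype _ _ (fun i => zero_smul ℕ ((1 : Fin m → ℕ) i))]
  exact Finset.sum_congr rfl fun i _ => by rw [Pi.one_apply, smul_eq_mul, mul_one]

private theorem gam_pm1 (w : Fin m →₀ ℕ) : tdg (p • w + pm1 m p) = p * tdg w := by
  unfold tdg
  rw [Finset.mul_sum]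
  refine Finset.sum_congr rfl fun i _ => ?_
  have h : (p • w + pm1 m p) i = p * w i + (p - 1) := rfl
  have h1 := hp.out.one_le
  rw [h, mul_add, mul_one, add_assoc, Nat.sub_add_cancel h1]

private theorem gam_coeff {d : ℕ} {F : MvPolynomial (Fin m) R} (hF : F.IsHomogeneous d)
    {i k : ℕ} {e w : Fin m →₀ ℕ}
    (h : coeff w (ap p F i k (monomial e 1)) ≠ 0) :
    p * tdg w + k * d = p * i * d + tdg e := by
  rw [ap_apply, cc_coeff hp.out.pos] at h
  by_cases hN : (0 : ℤ) ≤ (p : ℤ) * i - k
  · rw [Eci, if_pos hN] at h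
    have h1 : (Ec p F ((p : ℤ) * i - k).toNat * monomial e (1 : R)).IsHomogeneous
        (((p : ℤ) * i - k).toNat * d + ∑ i, e i) := by
      refine (Ec_hom p hF _).mul ?_
      refine isHomogeneous_monomial (1 : R) ?_
      rw [Finsupp.degree_eq_sum]
    have h2 := h1 h
    rw [gam_weight] at h2
    have h3 := gam_pm1 p w
    rw [gam_tdg (p • w + pm1 m p), h2] at h3
    have h4 : ((p : ℤ) * i - k).toNat + k = p * i := by
      have h5 := Int.toNat_of_nonneg hN
      have h6 : ((((p : ℤ) * i - k).toNat + k : ℕ) : ℤ) = ((p * i : ℕ) : ℤ) := by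
        push_cast
        rw [h5]
        ring
      exact_mod_cast h6
    rw [← h3, ← h4, gam_tdg e]
    ring
  · rw [Eci, if_neg hN, zero_mul, coeff_zero] at h
    exact absurd rfl h

private theorem gam_ell_jac {F : MvPolynomial (Fin m) R} {d J : ℕ} {g : V → Fin m →₀ ℕ}
    {lv : V → ℕ} {c : V → (Fin m →₀ ℕ) → R} {h : R} (hC : CData d J F g lv c h) (v : V)
    {P : MvPolynomial (Fin m) R} (hP : P ∈ Ideal.span (Set.range fun j => pderiv j F)) :
    ell c v P = 0 := by
  obtain ⟨Q, rfl⟩ := Ideal.mem_span_range_iff_exists_fun.1 hP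
  rw [map_sum]
  exact Finset.sum_eq_zero fun j _ => hC.ker v j _

private theorem gam_lt {a J : ℕ} (h : a ≤ J) (hJ : J < p) (k : ℕ) :
    (p : ℤ) * a - k < (p : ℤ) ^ 2 := by
  have h1 : a < p := lt_of_le_of_lt h hJ
  have h2 : p * a < p * p := Nat.mul_lt_mul_of_pos_left h1 hp.out.pos
  have h3 : (p : ℤ) * a < p * p := by exact_mod_cast h2
  have h4 : (0 : ℤ) ≤ k := Int.natCast_nonneg k
  rw [pow_two]
  omega

theorem gam_map {S : Type*} [CommRing S] [CharP S p] (φ : R →+* S)
    (F : MvPolynomial (Fin m) R) (c : V → (Fin m →₀ ℕ) → R) (lv : V → ℕ) (v : V) (k : ℕ)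
    (P : MvPolynomial (Fin m) R) :
    gam p (F.map φ) (fun v e => φ (c v e)) lv v k (P.map φ) = φ (gam p F c lv v k P) := by
  rw [gam_apply, gam_apply, ap_map]
  have h1 : (fun (v : V) (e : Fin m →₀ ℕ) => φ (c v e) ^ p) =
      fun (v : V) (e : Fin m →₀ ℕ) => φ (c v e ^ p) := by
    funext v e
    rw [map_pow]
  rw [h1]
  exact ell_map φ (fun v e => c v e ^ p) v _

variable {d J : ℕ} {F : MvPolynomial (Fin m) R}
  {g : V → Fin m →₀ ℕ} {lv : V → ℕ} {c : V → (Fin m →₀ ℕ) → R} {h : R}

private theorem gam_zero (hF : F.IsHomogeneous d) (hC : CData d J F g lv c h) (v : V) {k : ℕ}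
    {e : Fin m →₀ ℕ} (he : tdg e ≠ k * d) : gam p F c lv v k (monomial e 1) = 0 := by
  rw [gam_apply, ell_eq_sum]
  refine Finset.sum_eq_zero fun w hw => ?_
  have h1 := gam_coeff p hF (mem_support_iff.1 hw)
  have h2 : tdg w ≠ lv v * d := by
    intro h3
    apply he
    rw [h3, mul_assoc] at h1
    omega
  have h3 := (hC.frob p).zero v w h2
  rw [h3, mul_zero]

private theorem gam_D_ell (D : Derivation ℤ R R) (v : V) (G : MvPolynomial (Fin m) R) :
    D (ell (fun v e => c v e ^ p) v G) = ell (fun v e => c v e ^ p) v (cder D G) := by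
  rw [ell_eq_sum, map_sum, cder, map_sum]
  refine Finset.sum_congr rfl fun e _ => ?_
  rw [ell_monomial, Derivation.leibniz, Derivation.leibniz_pow]
  have h1 : (p • c v e ^ (p - 1) • D (c v e) : R) = 0 := by
    rw [nsmul_eq_mul, CharP.cast_eq_zero R p, zero_mul]
  rw [h1, smul_zero, zero_add, smul_eq_mul, mul_comm]

theorem gam_exa (hC : CData d J F g lv c h) (hJ : J < p) (v : V) {k : ℕ} (hk : 1 ≤ k)
    (j : Fin m) (Q : MvPolynomial (Fin m) R) :
    gam p F c lv v (k + 1) (Q * pderiv j F) = gam p F c lv v k (pderiv j Q) := by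
  rw [gam_apply, gam_apply, ap_exa p F (gam_lt p (hC.lv_le v) hJ k), map_add,
    mul_comm (pderiv j (F.map (frobenius R p))), (hC.frob p).ker, add_zero]
  push_cast
  rfl

theorem gam_der (hF : F.IsHomogeneous d) (hC : CData d J F g lv c h) (hJ : J < p)
    (D : Derivation ℤ R R) (v : V) {k : ℕ} (hk : 1 ≤ k) (e : Fin m →₀ ℕ) (he : tdg e = k * d) :
    h ^ p * D (gam p F c lv v k (monomial e 1)) =
      - h ^ p * gam p F c lv v (k + 1) (cder D F * monomial e 1) -
      ∑ v', (if lv v' + 1 = lv v then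
        ell (fun v e => c v e ^ p) v (vB p D F * monomial (g v') 1) else 0) *
        gam p F c lv v' k (monomial e 1) := by
  classical
  have hlt := gam_lt p (hC.lv_le v) hJ k
  have h0 : cder D (monomial e (1 : R) : MvPolynomial (Fin m) R) = 0 := by
    rw [cder_monomial, Derivation.map_one_eq_zero, monomial_zero]
  have h1 : D (gam p F c lv v k (monomial e 1)) =
      - gam p F c lv v (k + 1) (cder D F * monomial e 1) -
        ell (fun v e => c v e ^ p) v (vB p D F * ap p F ((lv v : ℤ) - 1) k (monomial e 1)) := by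
    rw [gam_apply, gam_D_ell, ap_der p F hlt, h0, map_zero, zero_sub, map_sub, map_neg, gam_apply]
    push_cast
    rfl
  have h2 : h ^ p * ell (fun v e => c v e ^ p) v
      (vB p D F * ap p F ((lv v : ℤ) - 1) k (monomial e 1)) =
      ∑ v', (if lv v' + 1 = lv v then
        ell (fun v e => c v e ^ p) v (vB p D F * monomial (g v') 1) else 0) *
        gam p F c lv v' k (monomial e 1) := by
    rcases Nat.lt_or_ge (lv v) 2 with hv | hv
    · have hv1 : lv v = 1 := by
        have := hC.lv_pos v
        omega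
      have h3 : ap p F ((lv v : ℤ) - 1) k (monomial e (1 : R)) = 0 := by
        apply ap_neg
        rw [hv1]
        have h4 : (p : ℤ) * (((1 : ℕ) : ℤ) - 1) = 0 := by
          push_cast
          ring
        rw [h4]
        exact_mod_cast hk
      rw [h3, mul_zero, map_zero, mul_zero]
      symm
      refine Finset.sum_eq_zero fun v' _ => ?_
      have := hC.lv_pos v'
      rw [if_neg (by omega), zero_mul]
    · obtain ⟨i, hi⟩ : ∃ i, lv v = i + 1 := ⟨lv v - 1, by omega⟩
      have hi1 : 1 ≤ i := by omega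
      have hiJ : i ≤ J := by
        have := hC.lv_le v
        omega
      have h3 : ((lv v : ℤ) - 1) = (i : ℤ) := by
        rw [hi]
        push_cast
        ring
      rw [h3]
      have h6 : ∀ v', lv v' = i → gam p F c lv v' k (monomial e 1) =
          ell (fun v e => c v e ^ p) v' (ap p F (i : ℤ) k (monomial e 1)) := by
        intro v' hv'
        rw [gam_apply, hv']
      by_cases hm : m ≤ i * d
      · have h4 : (ap p F (i : ℤ) k (monomial e (1 : R))).IsHomogeneous (i * d - m) := by
          intro w hw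
          have h5 := gam_coeff p hF hw
          rw [he] at h5
          have h7 : p * tdg w = p * (i * d) := by
            rw [mul_assoc] at h5
            omega
          have h8 := Nat.eq_of_mul_eq_mul_left hp.out.pos h7
          rw [gam_weight]
          rw [gam_tdg] at h8
          omega
        have h5 := (hC.frob p).coord hi1 hiJ (Nat.sub_add_cancel hm) h4
        have h7 := gam_ell_jac (hC.frob p) v (Ideal.mul_mem_left _ (vB p D F) h5)
        rw [mul_sub, map_sub, Finset.mul_sum, map_sum, ← mul_assoc, mul_comm (vB p D F) (C (h ^ p)),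
          mul_assoc, ← smul_eq_C_mul, map_smul, smul_eq_mul] at h7
        rw [sub_eq_zero.1 h7]
        refine Finset.sum_congr rfl fun v' _ => ?_
        by_cases hv' : lv v' = i
        · rw [if_pos hv', if_pos (by omega), h6 v' hv']
          have h9 : (monomial (g v') (ell (fun v e => c v e ^ p) v'
              (ap p F (i : ℤ) k (monomial e (1 : R)))) : MvPolynomial (Fin m) R) =
              ell (fun v e => c v e ^ p) v' (ap p F (i : ℤ) k (monomial e (1 : R))) •
                monomial (g v') 1 := by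
            rw [smul_monomial, smul_eq_mul, mul_one]
          rw [h9, mul_smul_comm, map_smul, smul_eq_mul, mul_comm]
        · rw [if_neg hv', if_neg (by omega), mul_zero, map_zero, zero_mul]
      · have h4 : ap p F (i : ℤ) k (monomial e (1 : R)) = 0 := by
          ext w
          rw [coeff_zero]
          by_contra hw
          have h5 := gam_coeff p hF hw
          rw [he] at h5
          have h7 : p * tdg w = p * (i * d) := by
            rw [mul_assoc] at h5
            omega
          have h8 := Nat.eq_of_mul_eq_mul_left hp.out.pos h7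
          rw [gam_tdg] at h8
          omega
        rw [h4, mul_zero, map_zero, mul_zero]
        symm
        refine Finset.sum_eq_zero fun v' _ => ?_
        by_cases hv' : lv v' = i
        · rw [h6 v' hv', h4, map_zero, mul_zero]
        · rw [if_neg (by omega), zero_mul]
  rw [h1, mul_sub, h2, mul_neg, neg_mul]

end

theorem gam_indep {m : ℕ} {K : Type*} [Field K] (p : ℕ) [hp : Fact p.Prime] [CharP K p]
    {V : Type*} [Fintype V] [DecidableEq V] {d J : ℕ} {F : MvPolynomial (Fin m) K}
    {g : V → Fin m →₀ ℕ} {lv : V → ℕ} {c : V → (Fin m →₀ ℕ) → K} {h : K}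
    (hd : 1 ≤ d) (hF : F.IsHomogeneous d) (hC : CData d J F g lv c h) (hh : h ≠ 0) (hJ : J < p)
    {M k₀ : ℕ}
    (hM : ∀ e : Fin m →₀ ℕ, M ≤ ∑ i, e i → monomial e (1 : K) ∈
      Ideal.span (Set.range fun j => pderiv j F))
    (hk : 1 ≤ k₀) (hk' : k₀ ≤ p) (hMk : M + m ≤ k₀ * d) (lam : V → K)
    (hlam : ∀ e : Fin m →₀ ℕ, tdg e = k₀ * d → ∑ v, lam v * gam p F c lv v k₀ (monomial e 1) = 0) :
    lam = 0 := by
  classical
  have h1 : ∀ k, k₀ ≤ k → ∀ P : MvPolynomial (Fin m) K,
      ∑ v, lam v * gam p F c lv v k P = 0 := by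
    have h2 : ∀ k, (∀ e : Fin m →₀ ℕ, tdg e = k * d →
        ∑ v, lam v * gam p F c lv v k (monomial e 1) = 0) →
        ∀ P : MvPolynomial (Fin m) K, ∑ v, lam v * gam p F c lv v k P = 0 := by
      intro k h3 P
      have h4 : (∑ v, lam v • gam p F c lv v k : MvPolynomial (Fin m) K →ₗ[K] K) = 0 := by
        refine (MvPolynomial.basisMonomials (Fin m) K).ext fun e => ?_
        rw [coe_basisMonomials, LinearMap.sum_apply, LinearMap.zero_apply]
        change ∑ v, lam v * gam p F c lv v k (monomial e 1) = 0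
        by_cases he : tdg e = k * d
        · exact h3 e he
        · exact Finset.sum_eq_zero fun v _ => by rw [gam_zero p hF hC v he, mul_zero]
      have h5 := LinearMap.congr_fun h4 P
      rw [LinearMap.sum_apply, LinearMap.zero_apply] at h5
      exact h5
    intro k hkk
    induction k, hkk using Nat.le_induction with
    | base => exact h2 k₀ hlam
    | succ k hkk ih =>
      refine h2 (k + 1) fun e he => ?_
      have h3 : M ≤ ∑ i, e i := by
        rw [gam_tdg, add_mul, one_mul] at he
        have h4 : k₀ * d ≤ k * d := Nat.mul_le_mul_right d hkk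
        omega
      obtain ⟨Q, hQ⟩ := Ideal.mem_span_range_iff_exists_fun.1 (hM e h3)
      rw [← hQ]
      have h4 : ∀ v, lam v * gam p F c lv v (k + 1) (∑ j, Q j * pderiv j F) =
          ∑ j, lam v * gam p F c lv v k (pderiv j (Q j)) := by
        intro v
        rw [map_sum, Finset.mul_sum]
        exact Finset.sum_congr rfl fun j _ => by
          rw [gam_exa p hC hJ v (le_trans hk hkk)]
      rw [Finset.sum_congr rfl fun v _ => h4 v, Finset.sum_comm]
      exact Finset.sum_eq_zero fun j _ => ih _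
  by_contra hne
  have hex : (Finset.univ.filter fun v => lam v ≠ 0).Nonempty := by
    obtain ⟨v, hv⟩ := Function.ne_iff.1 hne
    exact ⟨v, Finset.mem_filter.2 ⟨Finset.mem_univ v, hv⟩⟩
  obtain ⟨v₀, hv₀, hmax⟩ := Finset.exists_max_image _ lv hex
  have hl0 : lam v₀ ≠ 0 := (Finset.mem_filter.1 hv₀).2
  have hle : ∀ v, lam v ≠ 0 → lv v ≤ lv v₀ := fun v hv =>
    hmax v (Finset.mem_filter.2 ⟨Finset.mem_univ v, hv⟩)
  have hkp : k₀ ≤ p * lv v₀ := le_trans hk' (Nat.le_mul_of_pos_right p (hC.lv_pos v₀))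
  have h2 := h1 (p * lv v₀) hkp (monomial (p • g v₀ + pm1 m p) 1)
  rw [Finset.sum_eq_single v₀] at h2
  · rw [gam_apply, Nat.cast_mul, ap_fr p F _ _ le_rfl, if_pos rfl, ell_monomial, one_mul, hC.self,
      if_pos rfl] at h2
    exact mul_ne_zero hl0 (pow_ne_zero p hh) h2
  · intro v _ hv
    by_cases hl : lam v = 0
    · rw [hl, zero_mul]
    · rw [gam_apply, Nat.cast_mul, ap_fr p F _ _ (by exact_mod_cast hle v hl)]
      by_cases hvv : ((lv v : ℕ) : ℤ) = ((lv v₀ : ℕ) : ℤ)
      · rw [if_pos hvv, ell_monomial, one_mul, hC.self, if_neg hv, zero_pow hp.out.ne_zero,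
          mul_zero]
      · rw [if_neg hvv, map_zero, mul_zero]
  · intro h3
    exact absurd (Finset.mem_univ v₀) h3

end MPadcBK
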