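import Pool.Agent.Lib.MP_adc574_ag_BK.Alp

/-!
# JOB Inj: the dimension count

`semi_ker`: `φ : V →+ W` with `φ (a ^ p • x) = a • φ x`, `κ` perfect, `V`, `W` finite dimensional, `φ` surjective: `K = ker φ` is a subspace (`a = (a^{1/p})^p`), and `finrank K + finrank W = finrank V`:
choose `w_i` a basis of `W` and `v_i` with `φ v_i = w_i`, `V = K ⊕ span v_i` (`x - ∑ b_i^p v_i ∈ K` if `φ x = ∑ b_i w_i`; `∑ a_i v_i ∈ K` implies `∑ a_i^{1/p} w_i = 0`). Consequence `semi_inj`: if `U ≤ K` and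
`finrank V ≤ finrank U + finrank W` then `U = K`.
`InjJ`: `V = TT d j (n+1) ∅` (finite dimensional: it is the sum over `1 ≤ k ≤ j` of the finite dimensional spaces `Reg ∅ ⊓ FD (n+1) ⊓ TD {k d}`; exponents `≥ 0` of given sum, `Lam` is finite dimensional),
`W = ∏_{i=1..j} T_i / J_i` with `T_i = Reg ∅ ⊓ FD (n+1) ⊓ TD {i d}`, `J_i = JJ F d i ≤ T_i`; `φ P = (class of al i P)_i`, surjective by `SurjJ`; `U = DD F (TT d (j-1) n ∅)`; `U ≤ ker φ` by `al_DD`
(`al (i-1) η ∈ Reg ∅ ⊓ FD n ⊓ TD {(i-1) d}`). Dimensions: `dim V = ∑ dim T_i`, `dim W = ∑ (dim T_i - dim J_i)`, and `dim U ≥ ∑_{i=1..j} dim J_i`: `J_1 = dF * (Reg ∅ ⊓ FD n ⊓ TD {0}) = 0`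
(`Reg_empty_tot`, `1 ≤ n`), and for `1 ≤ k`: `prj ((k+1) d)` maps `DD F (TT d k n ∅)` onto `J_(k+1)` (`prj_DD`) and kills `DD F (TT d (k-1) n ∅)`, so `dim DD F (TT d k n ∅) ≥ dim DD F (TT d (k-1) n ∅) + dim J_(k+1)`.
-/

set_option autoImplicit false

namespace MPadcBK

open ExteriorAlgebra

universe u

/-- The top forms `dF ∧ (n-forms)` of total degree `i d`. -/
noncomputable def JJ {κ : Type u} [Field κ] {n : ℕ} (F : MvPolynomial (Fin (n + 1)) κ) (d i : ℕ) :
    Submodule κ (Fo κ (n + 1)) :=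
  (Reg ∅ ⊓ FD n ⊓ TD {((i : ℤ) - 1) * d}).map (LinearMap.mulLeft κ (dd (pf F)))

/-- Surjectivity modulo the Jacobian forms. -/
def SurjJ {κ : Type u} [Field κ] {n : ℕ} (p : ℕ) [Fact p.Prime] [CharP κ p] [PerfectRing κ p]
    (F : MvPolynomial (Fin (n + 1)) κ) (d j : ℕ) : Prop :=
  ∀ y : ℕ → Fo κ (n + 1), (∀ i, 1 ≤ i → i ≤ j →
    y i ∈ Reg (κ := κ) ∅ ⊓ FD (n + 1) ⊓ TD {(i : ℤ) * d}) →
    ∃ P ∈ TT (κ := κ) d j (n + 1) ∅, ∀ i, 1 ≤ i → i ≤ j → al p F d i P - y i ∈ JJ F d i

variable {κ : Type u} [Field κ] {n : ℕ} (p : ℕ) [hp : Fact p.Prime] [CharP κ p] [PerfectRing κ p]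

theorem semi_inj {V W : Type*} [AddCommGroup V] [Module κ V] [AddCommGroup W] [Module κ W]
    [FiniteDimensional κ V] [FiniteDimensional κ W] (φ : V →+ W)
    (hφ : ∀ (a : κ) (x : V), φ (a ^ p • x) = a • φ x) (hs : Function.Surjective φ)
    (U : Submodule κ V) (hU : ∀ x ∈ U, φ x = 0)
    (hdim : Module.finrank κ V ≤ Module.finrank κ U + Module.finrank κ W) (x : V)
    (hx : φ x = 0) : x ∈ U := by
  have hroot : ∀ a : κ, ∃ b : κ, b ^ p = a := fun a => by
    obtain ⟨b, hb⟩ := (PerfectRing.bijective_frobenius (R := κ) (p := p)).2 a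
    exact ⟨b, hb⟩
  let K : Submodule κ V :=
    { carrier := {x | φ x = 0}
      zero_mem' := map_zero φ
      add_mem' := fun {x y} hx hy => by
        show φ (x + y) = 0
        rw [map_add, show φ x = 0 from hx, show φ y = 0 from hy, add_zero]
      smul_mem' := fun a x hx => by
        show φ (a • x) = 0
        obtain ⟨b, rfl⟩ := hroot a
        rw [hφ, show φ x = 0 from hx, smul_zero] }
  have hUK : U ≤ K := fun y hy => hU y hy
  have hK : Module.finrank κ W ≤ Module.finrank κ (V ⧸ K) := by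
    let w := Module.finBasis κ W
    choose v hv using fun i => hs (w i)
    have hli : LinearIndependent κ (fun i => (Submodule.Quotient.mk (v i) : V ⧸ K)) := by
      rw [Fintype.linearIndependent_iff]
      intro g hg i
      have h1 : (Submodule.Quotient.mk (∑ i, g i • v i) : V ⧸ K) = 0 := by
        rw [← hg]
        show K.mkQ (∑ i, g i • v i) = ∑ i, g i • K.mkQ (v i)
        rw [map_sum]
        exact Finset.sum_congr rfl fun i _ => map_smul _ _ _
      rw [Submodule.Quotient.mk_eq_zero] at h1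
      have h2 : φ (∑ i, g i • v i) = 0 := h1
      choose b hb using fun i => hroot (g i)
      have h3 : ∑ i, b i • w i = 0 := by
        rw [← h2, map_sum]
        refine Finset.sum_congr rfl fun i _ => ?_
        rw [← hb i, hφ, hv]
      have h4 := Fintype.linearIndependent_iff.1 w.linearIndependent b h3 i
      rw [← hb i, h4, zero_pow hp.out.ne_zero]
    have h5 := hli.fintype_card_le_finrank
    rwa [Fintype.card_fin] at h5
  have hq := Submodule.finrank_quotient_add_finrank K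
  have hle : Module.finrank κ K ≤ Module.finrank κ U := by omega
  have hKU : U = K := Submodule.eq_of_le_of_finrank_le hUK hle
  rw [hKU]
  exact hx

private theorem inj_supp {d j q : ℕ} {x : Fo κ (n + 1)}
    (hx : x ∈ TT (κ := κ) d j q (∅ : Set (Fin (n + 1)))) (e : Ex (n + 1))
    (he : x.coeff e ≠ 0) : e ∈ (Fintype.piFinset fun _ : Fin (n + 1) => Finset.Icc 0 ((j : ℤ) * d)) := by
  have h0 : ∀ i, 0 ≤ e i := fun i => by
    by_contra h
    exact he ((hx.1.1 e i (Set.notMem_empty _)).1 (not_le.1 h))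
  have h1 : ∃ k : ℕ, 1 ≤ k ∧ k ≤ j ∧ tot e = k * d := by
    by_contra h
    exact he (hx.2 e h)
  obtain ⟨k, -, hk, ht⟩ := h1
  rw [Fintype.mem_piFinset]
  intro i
  rw [Finset.mem_Icc]
  refine ⟨h0 i, ?_⟩
  have h2 : e i ≤ tot e := Finset.single_le_sum (f := e) (fun i _ => h0 i) (Finset.mem_univ i)
  have h3 : (k : ℤ) * d ≤ (j : ℤ) * d := by
    have : (k : ℤ) ≤ j := by exact_mod_cast hk
    exact mul_le_mul_of_nonneg_right this (by positivity)
  linarith

theorem TT_fin (d j q : ℕ) :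
    FiniteDimensional κ (TT (κ := κ) d j q (∅ : Set (Fin (n + 1)))) := by
  let S : Finset (Ex (n + 1)) := Fintype.piFinset fun _ => Finset.Icc 0 ((j : ℤ) * d)
  let f : TT (κ := κ) d j q (∅ : Set (Fin (n + 1))) →ₗ[κ] (S → ⋀[κ]^q (Fin (n + 1) → κ)) :=
    { toFun := fun x e => ⟨x.1.coeff e.1, x.2.1.2 e.1⟩
      map_add' := fun x y => by
        funext e
        apply Subtype.ext
        show (x.1 + y.1).coeff e.1 = x.1.coeff e.1 + y.1.coeff e.1
        rw [AddMonoidAlgebra.coeff_add, Finsupp.add_apply]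
      map_smul' := fun a x => by
        funext e
        apply Subtype.ext
        show (a • x.1).coeff e.1 = a • x.1.coeff e.1
        rw [AddMonoidAlgebra.coeff_smul, Finsupp.smul_apply] }
  have hf : Function.Injective f := by
    intro x y hxy
    apply Subtype.ext
    refine fo_ext fun e => ?_
    by_cases he : e ∈ S
    · exact congrArg Subtype.val (congrFun hxy ⟨e, he⟩)
    · have hx : x.1.coeff e = 0 := by
        by_contra h
        exact he (inj_supp x.2 e h)
      have hy : y.1.coeff e = 0 := by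
        by_contra h
        exact he (inj_supp y.2 e h)
      rw [hx, hy]
  exact Module.Finite.of_injective f hf

/-- The top forms of total degree `i d`. -/
private noncomputable abbrev injT (κ : Type u) [Field κ] (n d i : ℕ) : Submodule κ (Fo κ (n + 1)) :=
  Reg ∅ ⊓ FD (n + 1) ⊓ TD {(i : ℤ) * d}

private theorem injT_le {d i j : ℕ} (h1 : 1 ≤ i) (h2 : i ≤ j) :
    injT κ n d i ≤ TT (κ := κ) d j (n + 1) (∅ : Set (Fin (n + 1))) := by
  intro x hx
  refine ⟨hx.1, TD_mono ?_ hx.2⟩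
  rintro t rfl
  exact ⟨i, h1, h2, rfl⟩

private theorem injT_fin {d i : ℕ} (h1 : 1 ≤ i) : FiniteDimensional κ (injT κ n d i) := by
  have := TT_fin (κ := κ) (n := n) d i (n + 1)
  exact Submodule.finiteDimensional_of_le (injT_le h1 le_rfl)

private theorem injJ_le {F : MvPolynomial (Fin (n + 1)) κ} {d : ℕ} (hF : F.IsHomogeneous d)
    (i : ℕ) : JJ F d i ≤ injT κ n d i := by
  rintro _ ⟨z, hz, rfl⟩
  refine ⟨⟨ddpf_mul_Reg F hz.1.1, ddpf_mul_FD F hz.1.2⟩, ?_⟩
  refine TD_mono ?_ (ddpf_mul_TD hF hz.2)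
  intro t ht
  have ht' : t - d = ((i : ℤ) - 1) * d := ht
  show t = (i : ℤ) * d
  linarith

/-- `DD` as a linear map. -/
private noncomputable def injD (F : MvPolynomial (Fin (n + 1)) κ) :
    Fo κ (n + 1) →ₗ[κ] Fo κ (n + 1) := dd - LinearMap.mulLeft κ (dd (pf F))

private theorem injD_apply (F : MvPolynomial (Fin (n + 1)) κ) (x : Fo κ (n + 1)) :
    injD F x = DD F x := rfl

private theorem inj_cast_sub (k d : ℕ) : (((k + 1 : ℕ) : ℤ) * d) - d = (k : ℤ) * d := by
  push_cast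
  ring

private theorem inj_JJ_one {F : MvPolynomial (Fin (n + 1)) κ} {d : ℕ} (hn : 1 ≤ n) :
    JJ F d 1 = ⊥ := by
  rw [eq_bot_iff]
  rintro _ ⟨z, hz, rfl⟩
  have h0 : z = 0 := by
    refine Reg_empty_tot (t := 0) (by exact_mod_cast hn) hz.1.1 hz.1.2 (TD_mono ?_ hz.2)
    intro t ht
    have ht' : t = (((1 : ℕ) : ℤ) - 1) * d := ht
    show t = 0
    rw [ht']
    simp
  rw [h0, map_zero]
  exact Submodule.zero_mem _

private theorem inj_dim {F : MvPolynomial (Fin (n + 1)) κ} {d : ℕ} (hF : F.IsHomogeneous d)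
    (hd : 1 ≤ d) (hn : 1 ≤ n) (k : ℕ) :
    ∑ i ∈ Finset.range (k + 1), Module.finrank κ (JJ F d (i + 1)) ≤
      Module.finrank κ ((TT (κ := κ) d k n (∅ : Set (Fin (n + 1)))).map (injD F)) := by
  induction k with
  | zero =>
    rw [zero_add, Finset.sum_range_one, zero_add, inj_JJ_one hn, finrank_bot]
    exact Nat.zero_le _
  | succ k ih =>
    have := TT_fin (κ := κ) (n := n) d k n
    have := TT_fin (κ := κ) (n := n) d (k + 1) n
    have hfJ : FiniteDimensional κ (JJ F d (k + 2)) := by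
      have := injT_fin (κ := κ) (n := n) (d := d) (i := k + 2) (by omega)
      exact Submodule.finiteDimensional_of_le (injJ_le hF (k + 2))
    set A := (TT (κ := κ) d k n (∅ : Set (Fin (n + 1)))).map (injD F) with hA
    set B := (TT (κ := κ) d (k + 1) n (∅ : Set (Fin (n + 1)))).map (injD F) with hB
    have hAB : A ≤ B := Submodule.map_mono (TT_mono (Nat.le_succ k) le_rfl)
    let f : B →ₗ[κ] Fo κ (n + 1) := (prj (((k + 2 : ℕ) : ℤ) * d)).comp B.subtype
    have hrk := LinearMap.finrank_range_add_finrank_ker f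
    -- the image contains the Jacobian forms
    have h1 : JJ F d (k + 2) ≤ LinearMap.range f := by
      rintro _ ⟨z, hz, rfl⟩
      have hzT : z ∈ TT (κ := κ) d (k + 1) n (∅ : Set (Fin (n + 1))) := by
        refine ⟨hz.1, TD_mono ?_ hz.2⟩
        intro t ht
        have ht' : t = (((k + 2 : ℕ) : ℤ) - 1) * d := ht
        refine ⟨k + 1, by omega, le_rfl, ?_⟩
        rw [ht']
        push_cast
        ring
      refine ⟨⟨injD F (-z), ⟨-z, Submodule.neg_mem _ hzT, rfl⟩⟩, ?_⟩
      show prj (((k + 2 : ℕ) : ℤ) * d) (DD F (-z)) = dd (pf F) * z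
      have h2 : prj (((k + 2 : ℕ) : ℤ) * d) (-z) = 0 :=
        prj_TT_zero hd (Submodule.neg_mem _ hzT) (Or.inr (by omega))
      have h3 : prj (((k + 2 : ℕ) : ℤ) * d - d) (-z) = -z := by
        refine prj_of_mem (Submodule.neg_mem _ (TD_mono ?_ hz.2))
        intro t ht
        have ht' : t = (((k + 2 : ℕ) : ℤ) - 1) * d := ht
        show t = ((k + 2 : ℕ) : ℤ) * d - d
        rw [ht']
        ring
      rw [prj_DD hF, h2, h3, map_zero, zero_sub, mul_neg, neg_neg]
    have h1' : Module.finrank κ (JJ F d (k + 2)) ≤ Module.finrank κ (LinearMap.range f) :=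
      Submodule.finrank_mono h1
    -- the kernel contains A
    have h4 : ∀ a ∈ A, prj (((k + 2 : ℕ) : ℤ) * d) a = 0 := by
      rintro _ ⟨z, hz, rfl⟩
      rw [injD_apply, prj_DD hF]
      have h5 : prj (((k + 2 : ℕ) : ℤ) * d) z = 0 := prj_TT_zero hd hz (Or.inr (by omega))
      have h6 : prj (((k + 2 : ℕ) : ℤ) * d - d) z = 0 := by
        have h7 : ((k + 2 : ℕ) : ℤ) * d - d = ((k + 1 : ℕ) : ℤ) * d := inj_cast_sub (k + 1) d
        rw [h7]
        exact prj_TT_zero hd hz (Or.inr (by omega))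
      rw [h5, h6, map_zero, mul_zero, sub_zero]
    let g : A →ₗ[κ] LinearMap.ker f :=
      LinearMap.codRestrict (LinearMap.ker f) (Submodule.inclusion hAB) (fun a => by
        rw [LinearMap.mem_ker]
        exact h4 a.1 a.2)
    have hg : Function.Injective g := by
      intro a b hab
      have h5 : Submodule.inclusion hAB a = Submodule.inclusion hAB b := congrArg Subtype.val hab
      exact Submodule.inclusion_injective hAB h5
    have h6 : Module.finrank κ A ≤ Module.finrank κ (LinearMap.ker f) :=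
      LinearMap.finrank_le_finrank_of_injective hg
    rw [Finset.sum_range_succ]
    have h7 : Module.finrank κ (JJ F d (k + 1 + 1)) ≤ Module.finrank κ (LinearMap.range f) := h1'
    omega

private theorem inj_dimV (d j : ℕ) (hd : 1 ≤ d) :
    Module.finrank κ (TT (κ := κ) d j (n + 1) (∅ : Set (Fin (n + 1)))) ≤
      ∑ i : Fin j, Module.finrank κ (injT κ n d ((i : ℕ) + 1)) := by
  have : ∀ i : Fin j, FiniteDimensional κ (injT κ n d ((i : ℕ) + 1)) := fun i =>
    injT_fin (Nat.le_add_left 1 _)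
  rw [← Module.finrank_pi_fintype κ]
  let f : TT (κ := κ) d j (n + 1) (∅ : Set (Fin (n + 1))) →ₗ[κ]
      ((i : Fin j) → injT κ n d ((i : ℕ) + 1)) :=
    LinearMap.pi fun i => LinearMap.codRestrict (injT κ n d ((i : ℕ) + 1))
      ((prj ((((i : ℕ) + 1 : ℕ) : ℤ) * d)).comp (Submodule.subtype _))
      (fun x => ⟨⟨prj_Reg _ x.2.1.1, prj_FD _ x.2.1.2⟩, prj_TD _ _⟩)
  have hf : Function.Injective f := by
    rw [← LinearMap.ker_eq_bot, LinearMap.ker_eq_bot']
    intro x hx
    apply Subtype.ext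
    rw [TT_decomp hd x.2]
    refine Finset.sum_eq_zero fun k hk => ?_
    rcases Nat.eq_zero_or_pos k with h0 | h0
    · exact prj_TT_zero hd x.2 (Or.inl h0)
    · rw [Finset.mem_range] at hk
      have h1 := congrArg Subtype.val (congrFun hx ⟨k - 1, by omega⟩)
      have h2 : prj (((k - 1 + 1 : ℕ) : ℤ) * d) x.1 = 0 := h1
      rwa [Nat.sub_add_cancel h0] at h2
  exact LinearMap.finrank_le_finrank_of_injective hf

/-- The forms `T_i` modulo `J_i`. -/
private def injQ (F : MvPolynomial (Fin (n + 1)) κ) (d i : ℕ) : Type u :=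
  (injT κ n d i) ⧸ (JJ F d i).submoduleOf (injT κ n d i)

private noncomputable instance injQgroup (F : MvPolynomial (Fin (n + 1)) κ) (d i : ℕ) :
    AddCommGroup (injQ F d i) :=
  inferInstanceAs (AddCommGroup ((injT κ n d i) ⧸ (JJ F d i).submoduleOf (injT κ n d i)))

private noncomputable instance injQmodule (F : MvPolynomial (Fin (n + 1)) κ) (d i : ℕ) :
    Module κ (injQ F d i) :=
  inferInstanceAs (Module κ ((injT κ n d i) ⧸ (JJ F d i).submoduleOf (injT κ n d i)))

/-- The quotient map. -/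
private noncomputable def injq (F : MvPolynomial (Fin (n + 1)) κ) (d i : ℕ) :
    injT κ n d i →ₗ[κ] injQ F d i := ((JJ F d i).submoduleOf (injT κ n d i)).mkQ

private theorem injq_surj (F : MvPolynomial (Fin (n + 1)) κ) (d i : ℕ) :
    Function.Surjective (injq F d i) := Submodule.mkQ_surjective _

private theorem injq_zero (F : MvPolynomial (Fin (n + 1)) κ) (d i : ℕ) (x : injT κ n d i) :
    injq F d i x = 0 ↔ x.1 ∈ JJ F d i := Submodule.Quotient.mk_eq_zero _

private theorem injq_dim {F : MvPolynomial (Fin (n + 1)) κ} {d : ℕ} (hF : F.IsHomogeneous d)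
    (i : ℕ) (hi : 1 ≤ i) : Module.finrank κ (injT κ n d i) =
      Module.finrank κ (injQ F d i) + Module.finrank κ (JJ F d i) := by
  have := injT_fin (κ := κ) (n := n) (d := d) hi
  have h1 := Submodule.finrank_quotient_add_finrank ((JJ F d i).submoduleOf (injT κ n d i))
  have h2 : Module.finrank κ ((JJ F d i).submoduleOf (injT κ n d i)) =
      Module.finrank κ (JJ F d i) := (Submodule.submoduleOfEquivOfLe (injJ_le hF i)).finrank_eq
  rw [h2] at h1
  exact h1.symm

private theorem injQ_fin (F : MvPolynomial (Fin (n + 1)) κ) (d i : ℕ) (hi : 1 ≤ i) :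
    FiniteDimensional κ (injQ F d i) := by
  have := injT_fin (κ := κ) (n := n) (d := d) hi
  exact Module.Finite.of_surjective (injq F d i) (injq_surj F d i)

/-- The maps `al i` modulo the Jacobian forms. -/
private noncomputable def injPhi {F : MvPolynomial (Fin (n + 1)) κ} {d : ℕ}
    (hF : F.IsHomogeneous d) (j : ℕ) :
    TT (κ := κ) d j (n + 1) (∅ : Set (Fin (n + 1))) →+ ((i : Fin j) → injQ F d ((i : ℕ) + 1)) where
  toFun x i := injq F d ((i : ℕ) + 1) ⟨al p F d ((i : ℕ) + 1) x.1,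
    ⟨⟨al_Reg p F d _ x.2.1.1, al_FD p F d _ x.2.1.2⟩, al_TD p hF _ x.1⟩⟩
  map_zero' := by
    funext i
    rw [Pi.zero_apply, injq_zero]
    show al p F d ((i : ℕ) + 1) (0 : Fo κ (n + 1)) ∈ JJ F d ((i : ℕ) + 1)
    rw [al_zero_arg]
    exact Submodule.zero_mem _
  map_add' x y := by
    funext i
    rw [Pi.add_apply, ← map_add]
    congr 1
    apply Subtype.ext
    exact al_add p F d _ x.1 y.1

private theorem injPhi_zero_iff {F : MvPolynomial (Fin (n + 1)) κ} {d : ℕ}
    (hF : F.IsHomogeneous d) (j : ℕ) (x : TT (κ := κ) d j (n + 1) (∅ : Set (Fin (n + 1)))) :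
    injPhi p hF j x = 0 ↔ ∀ i : Fin j, al p F d ((i : ℕ) + 1) x.1 ∈ JJ F d ((i : ℕ) + 1) := by
  rw [funext_iff]
  refine forall_congr' fun i => ?_
  rw [Pi.zero_apply]
  exact injq_zero F d _ _

theorem InjJ {F : MvPolynomial (Fin (n + 1)) κ} {d : ℕ} (hF : F.IsHomogeneous d) (hd : 1 ≤ d)
    (hn : 1 ≤ n) {j : ℕ} (hj : 1 ≤ j) (hjp : j < p) (hS : SurjJ p F d j) {P : Fo κ (n + 1)}
    (hP : P ∈ TT (κ := κ) d j (n + 1) ∅) (h : ∀ i, 1 ≤ i → i ≤ j → al p F d i P ∈ JJ F d i) :
    ∃ η ∈ TT (κ := κ) d (j - 1) n ∅, DD F η = P := by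
  have hfV := TT_fin (κ := κ) (n := n) d j (n + 1)
  have hfU := TT_fin (κ := κ) (n := n) d (j - 1) n
  have hfT : ∀ i : Fin j, FiniteDimensional κ (injT κ n d ((i : ℕ) + 1)) := fun i =>
    injT_fin (Nat.le_add_left 1 _)
  set A := (TT (κ := κ) d (j - 1) n (∅ : Set (Fin (n + 1)))).map (injD F) with hA
  have hAV : A ≤ TT (κ := κ) d j (n + 1) (∅ : Set (Fin (n + 1))) := by
    rintro _ ⟨z, hz, rfl⟩
    have h1 := DD_TT hF hz
    rwa [Nat.sub_add_cancel hj] at h1
  have hfQ : ∀ i : Fin j, FiniteDimensional κ (injQ F d ((i : ℕ) + 1)) := fun i =>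
    injQ_fin F d _ (Nat.le_add_left 1 _)
  have key := semi_inj p (injPhi p hF j) ?_ ?_ (A.submoduleOf (TT (κ := κ) d j (n + 1) ∅)) ?_ ?_
    ⟨P, hP⟩ ?_
  · obtain ⟨η, hη, h1⟩ := key
    exact ⟨η, hη, h1⟩
  · -- semilinearity
    intro a x
    funext i
    show injq F d ((i : ℕ) + 1) _ = a • injq F d ((i : ℕ) + 1) _
    rw [← map_smul]
    congr 1
    apply Subtype.ext
    exact al_smul p F d _ a x.1
  · -- surjectivity
    intro y
    choose z hz using fun i : Fin j => injq_surj F d ((i : ℕ) + 1) (y i)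
    obtain ⟨Q, hQ, hQ2⟩ := hS (fun i => if hi : i - 1 < j then (z ⟨i - 1, hi⟩).1 else 0) (by
      intro i hi1 hi2
      have hi : i - 1 < j := by omega
      rw [dif_pos hi]
      have h2 := (z ⟨i - 1, hi⟩).2
      have h3 : injT κ n d (i - 1 + 1) = injT κ n d i := by rw [Nat.sub_add_cancel hi1]
      exact (le_of_eq h3) h2)
    refine ⟨⟨Q, hQ⟩, ?_⟩
    funext i
    rw [← hz i, ← sub_eq_zero]
    show injq F d ((i : ℕ) + 1) _ - injq F d ((i : ℕ) + 1) _ = 0
    rw [← map_sub, injq_zero]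
    have h2 := hQ2 ((i : ℕ) + 1) (Nat.le_add_left 1 _) i.2
    have h3 : ((i : ℕ) + 1 - 1) < j := by
      rw [Nat.add_sub_cancel]
      exact i.2
    rw [dif_pos h3] at h2
    exact h2
  · -- U is in the kernel
    intro x hx
    rw [injPhi_zero_iff]
    intro i
    obtain ⟨η, hη, h1⟩ := hx
    have h2 : DD F η = x.1 := h1
    rw [← h2, al_DD p hF hd (TT_le_TI hη) (Nat.le_add_left 1 _) (lt_of_le_of_lt i.2 hjp)]
    refine ⟨al p F d ((i : ℕ) + 1 - 1) η, ⟨⟨al_Reg p F d _ hη.1.1, al_FD p F d _ hη.1.2⟩, ?_⟩, rfl⟩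
    refine TD_mono ?_ (al_TD p hF _ η)
    intro t ht
    have ht' : t = (((i : ℕ) + 1 - 1 : ℕ) : ℤ) * d := ht
    show t = ((((i : ℕ) + 1 : ℕ) : ℤ) - 1) * d
    rw [ht', Nat.add_sub_cancel]
    push_cast
    ring
  · -- dimensions
    have h1 := inj_dimV (κ := κ) (n := n) d j hd
    have h2 := inj_dim hF hd hn (j - 1)
    rw [Nat.sub_add_cancel hj, ← hA] at h2
    rw [Module.finrank_pi_fintype κ]
    have h3 : ∀ i : Fin j, Module.finrank κ (injT κ n d ((i : ℕ) + 1)) =
        Module.finrank κ (injQ F d ((i : ℕ) + 1)) +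
        Module.finrank κ (JJ F d ((i : ℕ) + 1)) := fun i => injq_dim hF _ (Nat.le_add_left 1 _)
    have h4 : Module.finrank κ (A.submoduleOf (TT (κ := κ) d j (n + 1) ∅)) = Module.finrank κ A :=
      (Submodule.submoduleOfEquivOfLe hAV).finrank_eq
    have h5 : ∑ i ∈ Finset.range j, Module.finrank κ (JJ F d (i + 1)) =
        ∑ i : Fin j, Module.finrank κ (JJ F d ((i : ℕ) + 1)) :=
      Finset.sum_range fun i => Module.finrank κ (JJ F d (i + 1))
    rw [Finset.sum_congr rfl fun i _ => h3 i, Finset.sum_add_distrib] at h1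
    rw [h4]
    omega
  · rw [injPhi_zero_iff]
    intro i
    exact h _ (Nat.le_add_left 1 _) i.2

end MPadcBK
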