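import Pool.Agent.Lib.MP_adc574_ag_BK.Vol
import Pool.Agent.Lib.MP_adc574_ag_BK.Gam
import Pool.Agent.Lib.MP_adc574_ag_BK.Inj

/-!
# JOB Br: from the determinant to `SurjJ`

`τ = (frobeniusEquiv κ p).symm`.
* `CData.restr`: restriction to the levels `≤ j`.
* `al_pt`: `P` homogeneous of degree `N`, `N + m = k d`, `1 ≤ k`: in the sum defining `al` only the term `k` contributes (`prj_of_mem`, `prj_of_notMem`, `1 ≤ d`), if `k ≤ p i` (otherwise both sides are 0: `ap_neg`); `pf_mul_pt`, `Ca_pt`.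
* `jj_of_jac`: `G` homogeneous of degree `N`, `N + (n+1) = i d`, `G = ∑ Q_j ∂_j F`; replace `Q_j` by its homogeneous component of degree `N - (d - 1)` (if `N < d - 1` then `G = 0`, as all monomials of `∑ Q_j ∂_j F` have degree `≥ d - 1`); then `∑ cj j (pt Q_j) ∈ Reg ∅ ⊓ FD n ⊓ TD {(i-1) d}` (`cj_Reg`, `cj_FD`, `cj_TD`,
  `pt_mem`) and `ddpf_cj_pt`.
* `surjJ_of_det`: given `y i = pt (Y i)` (`exists_pt`; if `i d < n + 1` then `y i = 0` by `Reg_empty_tot`), solve `∑_u b_u M v u = (ell c v (Y (lv v)))^p`, `M v u = gam v (lv u) (x^(g u))` (invertible matrix, `Matrix.mulVec`), `P = ∑_u b_u • pt (x^(g u))`, an element of `TT d J (n+1) ∅`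
  (`CData.lev`). `al i P = ∑_u τ(b_u) • pt ((ap i (lv u) (x^(g u))).map τ) = pt Z`, (`al_smul` with `b_u = (τ b_u)^p`), `Z` homogeneous of degree `i d - (n+1)` (`ap_homog`), and for `lv v = i`: `ell c v Z = ∑ τ(b_u) τ(M v u) = τ (∑ b_u M v u) = ell c v (Y i)`:
  `ell c v (G.map τ) = τ (ell (c^p) v G)` (`ell_map` with `τ (c^p) = c`). So `Z - Y i ∈ Jac F` (`CData.jac`) and `pt (Z - Y i) ∈ JJ F d i`.
-/

set_option autoImplicit false

namespace MPadcBK

open MvPolynomial MPadcGM MPadcHM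

universe u

theorem CData.restr {m : ℕ} {R : Type*} [CommRing R] {V : Type*} [Fintype V] [DecidableEq V]
    {d J : ℕ} {F : MvPolynomial (Fin m) R} {g : V → Fin m →₀ ℕ} {lv : V → ℕ}
    {c : V → (Fin m →₀ ℕ) → R} {h : R} (hC : CData d J F g lv c h) {j : ℕ} (hj : j ≤ J) :
    CData (V := {v : V // lv v ≤ j}) d j F (fun v => g v.1) (fun v => lv v.1)
      (fun v => c v.1) h := by
  refine ⟨fun v => hC.lv_pos v.1, fun v => v.2, fun v => hC.lev v.1, fun v j' Q => hC.ker v.1 j' Q,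
    fun v v' => ?_, fun v e he => hC.zero v.1 e he, fun i hi hij e he => ?_⟩
  · rw [hC.self v.1 v'.1]
    by_cases hv : v = v'
    · rw [if_pos hv, if_pos (congrArg Subtype.val hv)]
    · rw [if_neg hv, if_neg (fun h' => hv (Subtype.ext h'))]
  · have h1 := hC.span i hi (le_trans hij hj) e he
    have h2 : ∑ v, (if lv v = i then (monomial (g v) (c v e) : MvPolynomial (Fin m) R) else 0) =
        ∑ v : {v : V // lv v ≤ j}, (if lv v.1 = i then monomial (g v.1) (c v.1 e) else 0) := by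
      rw [← Finset.sum_subtype (Finset.univ.filter fun v => lv v ≤ j)
        (fun v => by rw [Finset.mem_filter]; exact ⟨fun h => h.2, fun h => ⟨Finset.mem_univ v, h⟩⟩)
        (fun v => if lv v = i then (monomial (g v) (c v e) : MvPolynomial (Fin m) R) else 0)]
      symm
      refine Finset.sum_subset (Finset.filter_subset _ _) fun v _ hv => ?_
      rw [if_neg]
      intro h3
      apply hv
      rw [Finset.mem_filter]
      exact ⟨Finset.mem_univ v, by omega⟩
    rw [h2] at h1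
    exact h1

variable {κ : Type u} [Field κ] {n : ℕ} (p : ℕ) [hp : Fact p.Prime] [CharP κ p] [PerfectRing κ p]

private theorem br_Eci {m : ℕ} (F : MvPolynomial (Fin m) κ) {a b : ℕ} (h : b ≤ a) :
    Eci p F ((a : ℤ) - b) = Ec p F (a - b) := by
  have h1 : (0 : ℤ) ≤ (a : ℤ) - b := by omega
  have h2 : ((a : ℤ) - b).toNat = a - b := by omega
  rw [Eci, if_pos h1, h2]

private theorem br_tdg {m : ℕ} (e : Fin m →₀ ℕ) : tdg e = ∑ i, e i + m := by
  unfold tdg
  rw [Finset.sum_add_distrib, Finset.sum_const, Finset.card_univ, Fintype.card_fin, smul_eq_mul,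
    mul_one]

private theorem br_mono {m : ℕ} (e : Fin m →₀ ℕ) :
    (monomial e (1 : κ)).IsHomogeneous (∑ i, e i) := by
  refine isHomogeneous_monomial (1 : κ) ?_
  rw [Finsupp.degree_eq_sum]

private theorem br_pt_one {m : ℕ} (Q : MvPolynomial (Fin m) κ) :
    (pt Q : Fo κ m) = pf Q * pt 1 := by
  rw [pf_mul_pt, mul_one]

private theorem br_pt_Reg {m : ℕ} (Q : MvPolynomial (Fin m) κ) :
    (pt Q : Fo κ m) ∈ Reg (κ := κ) ∅ := by
  rw [br_pt_one]
  exact pf_mul_Reg Q (pt_mem (isHomogeneous_one (Fin m) κ)).1.1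

private theorem br_pt_FD {m : ℕ} (Q : MvPolynomial (Fin m) κ) :
    (pt Q : Fo κ m) ∈ FD (κ := κ) m := by
  rw [br_pt_one]
  exact pf_mul_FD Q (pt_mem (isHomogeneous_one (Fin m) κ)).1.2

theorem al_pt {m : ℕ} {F : MvPolynomial (Fin m) κ} {d : ℕ} (hd : 1 ≤ d) (i : ℕ) {k N : ℕ}
    (hN : N + m = k * d) {P : MvPolynomial (Fin m) κ} (hP : P.IsHomogeneous N) :
    al p F d i (pt P) =
      pt ((ap p F i k P).map ((frobeniusEquiv κ p).symm : κ ≃+* κ).toRingHom) := by
  have hx : (pt P : Fo κ m) ∈ TD (κ := κ) (m := m) {((k : ℤ) * d)} := by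
    have h1 := (pt_mem hP).2
    rw [hN] at h1
    push_cast at h1
    exact h1
  have h0 : ∀ k' : ℕ, k' ≠ k → prj ((k' : ℤ) * d) (pt P : Fo κ m) = 0 := by
    intro k' hk'
    refine prj_of_notMem ?_ hx
    intro h1
    rw [Set.mem_singleton_iff] at h1
    have h2 : k' * d = k * d := by exact_mod_cast h1
    exact hk' (Nat.eq_of_mul_eq_mul_right hd h2)
  have h1 : prj ((k : ℤ) * d) (pt P : Fo κ m) = pt P := prj_of_mem hx
  rw [al]
  by_cases hk : k ≤ p * i
  · rw [Finset.sum_eq_single k]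
    · rw [h1, pf_mul_pt, Ca_pt, ap_apply]
      have h2 : ((p : ℤ) * i - k) = ((p * i : ℕ) : ℤ) - k := by push_cast; rfl
      rw [h2, br_Eci p F hk]
    · intro k' _ hk'
      rw [h0 k' hk', mul_zero]
    · intro h2
      exact absurd (Finset.mem_range.2 (by omega)) h2
  · rw [Finset.sum_eq_zero, map_zero, ap_neg, map_zero, pt_zero]
    · push Not at hk
      exact_mod_cast hk
    · intro k' hk'
      have h2 := Finset.mem_range.1 hk'
      rw [h0 k' (by omega), mul_zero]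

theorem jj_of_jac {F G : MvPolynomial (Fin (n + 1)) κ} {d i N : ℕ} (hF : F.IsHomogeneous d)
    (hd : 1 ≤ d) (hG : G.IsHomogeneous N) (hN : N + (n + 1) = i * d)
    (h : G ∈ Ideal.span (Set.range fun j => pderiv j F)) : pt G ∈ JJ F d i := by
  obtain ⟨Q, hQ⟩ := Ideal.mem_span_range_iff_exists_fun.1 h
  have h1 : dd (pf F) * (∑ j, cj j (pt (Q j) : Fo κ (n + 1))) = pt G := by
    rw [Finset.mul_sum, ← hQ, pt_sum]
    exact Finset.sum_congr rfl fun j _ => ddpf_cj_pt F (Q j) j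
  have h2 : (pt G : Fo κ (n + 1)) ∈ TD (κ := κ) (m := n + 1) {((i : ℤ) * d)} := by
    have h3 := (pt_mem hG).2
    rw [hN] at h3
    push_cast at h3
    exact h3
  have h3 := prj_ddpf hF ((i : ℤ) * d) (∑ j, cj j (pt (Q j) : Fo κ (n + 1)))
  rw [h1, prj_of_mem h2] at h3
  refine ⟨prj ((i : ℤ) * d - d) (∑ j, cj j (pt (Q j) : Fo κ (n + 1))), ⟨⟨?_, ?_⟩, ?_⟩, h3.symm⟩
  · exact prj_Reg _ (Submodule.sum_mem _ fun j _ => cj_Reg j (br_pt_Reg (Q j)))
  · exact prj_FD _ (Submodule.sum_mem _ fun j _ => cj_FD j (br_pt_FD (Q j)))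
  · have h4 := prj_TD ((i : ℤ) * d - d) (∑ j, cj j (pt (Q j) : Fo κ (n + 1)))
    have h5 : (i : ℤ) * d - d = ((i : ℤ) - 1) * d := by ring
    rw [h5] at h4 ⊢
    exact h4

theorem surjJ_of_det {V : Type*} [Fintype V] [DecidableEq V] {F : MvPolynomial (Fin (n + 1)) κ}
    {d J : ℕ} {g : V → Fin (n + 1) →₀ ℕ} {lv : V → ℕ} {c : V → (Fin (n + 1) →₀ ℕ) → κ} {h : κ}
    (hF : F.IsHomogeneous d) (hd : 1 ≤ d) (hC : CData d J F g lv c h) (hh : h ≠ 0)
    (hdet : (Matrix.of fun v u : V => gam p F c lv v (lv u) (monomial (g u) 1)).det ≠ 0) :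
    SurjJ p F d J := by
  classical
  intro y hy
  set τ : κ ≃+* κ := (frobeniusEquiv κ p).symm with hτ
  have hτp : ∀ a : κ, τ (a ^ p) = a := by
    intro a
    rw [hτ, ← frobeniusEquiv_def, RingEquiv.symm_apply_apply]
  have hτp' : ∀ a : κ, (τ a) ^ p = a := by
    intro a
    rw [hτ, ← frobeniusEquiv_def, RingEquiv.apply_symm_apply]
  have hY : ∀ i, ∃ Y : MvPolynomial (Fin (n + 1)) κ, 1 ≤ i → i ≤ J → n + 1 ≤ i * d →
      Y.IsHomogeneous (i * d - (n + 1)) ∧ y i = pt Y := by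
    intro i
    by_cases hi : 1 ≤ i ∧ i ≤ J ∧ n + 1 ≤ i * d
    · obtain ⟨hi1, hi2, hi3⟩ := hi
      have h1 := hy i hi1 hi2
      have h2 : ((i : ℤ) * d) = (((i * d - (n + 1)) + (n + 1) : ℕ) : ℤ) := by
        rw [Nat.sub_add_cancel hi3]
        push_cast
        rfl
      rw [h2] at h1
      obtain ⟨Y, hY1, hY2⟩ := exists_pt h1
      exact ⟨Y, fun _ _ _ => ⟨hY1, hY2⟩⟩
    · exact ⟨0, fun h1 h2 h3 => absurd ⟨h1, h2, h3⟩ hi⟩
  choose Y hY using hY
  set A : Matrix V V κ := Matrix.of fun v u : V => gam p F c lv v (lv u) (monomial (g u) 1) with hA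
  let r : V → κ := fun v => (ell c v (Y (lv v))) ^ p
  let b : V → κ := A⁻¹.mulVec r
  have hb : A.mulVec b = r := by
    change A.mulVec (A⁻¹.mulVec r) = r
    rw [Matrix.mulVec_mulVec, Matrix.mul_nonsing_inv A (isUnit_iff_ne_zero.2 hdet),
      Matrix.one_mulVec]
  have hbv : ∀ v, ∑ u, gam p F c lv v (lv u) (monomial (g u) 1) * b u =
      (ell c v (Y (lv v))) ^ p := fun v => congrFun hb v
  have hmono : ∀ u, ∑ i, g u i + (n + 1) = lv u * d := fun u => by
    rw [← br_tdg, hC.lev u]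
  have hptu : ∀ u, (pt (monomial (g u) (1 : κ)) : Fo κ (n + 1)) ∈
      TT (κ := κ) d J (n + 1) ∅ := by
    intro u
    have h1 := pt_mem (br_mono (κ := κ) (g u))
    refine ⟨h1.1, TD_mono ?_ h1.2⟩
    intro t ht
    rw [Set.mem_singleton_iff] at ht
    refine ⟨lv u, hC.lv_pos u, hC.lv_le u, ?_⟩
    rw [ht, hmono u]
    push_cast
    rfl
  refine ⟨∑ u, b u • pt (monomial (g u) 1),
    Submodule.sum_mem _ fun u _ => Submodule.smul_mem _ _ (hptu u), fun i hi hiJ => ?_⟩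
  by_cases hm : n + 1 ≤ i * d
  · obtain ⟨hY1, hY2⟩ := hY i hi hiJ hm
    have h1 : al p F d i (∑ u, b u • (pt (monomial (g u) 1) : Fo κ (n + 1))) =
        pt (∑ u, τ (b u) • (ap p F i (lv u) (monomial (g u) 1)).map τ.toRingHom) := by
      have h2 : al p F d i (∑ u, b u • (pt (monomial (g u) 1) : Fo κ (n + 1))) =
          ∑ u, al p F d i (b u • (pt (monomial (g u) 1) : Fo κ (n + 1))) :=
        map_sum (alH p F d i) _ _
      rw [h2, pt_sum]
      refine Finset.sum_congr rfl fun u _ => ?_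
      rw [pt_smul, ← al_pt p hd i (hmono u) (br_mono (g u)), ← al_smul, hτp']
    have hZ : (∑ u, τ (b u) • (ap p F i (lv u) (monomial (g u) (1 : κ))).map
        τ.toRingHom).IsHomogeneous (i * d - (n + 1)) := by
      refine IsHomogeneous.sum _ _ _ fun u _ => ?_
      refine (homogeneousSubmodule (Fin (n + 1)) κ (i * d - (n + 1))).smul_mem _ ?_
      exact (ap_homog p hF (br_mono (g u)) (hmono u) (Nat.sub_add_cancel hm)).map τ.toRingHom
    rw [h1, hY2, ← pt_sub]
    refine jj_of_jac hF hd (hZ.sub hY1) (Nat.sub_add_cancel hm) ?_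
    refine hC.jac hh hi hiJ (Nat.sub_add_cancel hm) (hZ.sub hY1) fun v hv => ?_
    have h3 : ∀ G : MvPolynomial (Fin (n + 1)) κ, ell c v (G.map τ.toRingHom) =
        τ (ell (fun v e => c v e ^ p) v G) := by
      intro G
      have h4 := ell_map τ.toRingHom (fun v e => c v e ^ p) v G
      have h5 : (fun (v : V) (e : Fin (n + 1) →₀ ℕ) => τ.toRingHom (c v e ^ p)) = c := by
        funext v e
        exact hτp (c v e)
      rw [h5] at h4
      exact h4
    rw [map_sub, map_sum]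
    have h6 : ∀ u, ell c v (τ (b u) • (ap p F i (lv u) (monomial (g u) (1 : κ))).map
        τ.toRingHom) = τ (gam p F c lv v (lv u) (monomial (g u) 1) * b u) := by
      intro u
      rw [map_smul, h3, smul_eq_mul, map_mul, mul_comm, gam_apply, hv]
    rw [Finset.sum_congr rfl fun u _ => h6 u, ← map_sum, hbv v, hτp, hv, sub_self]
  · have hlt : ((i : ℤ) * d) < ((n + 1 : ℕ) : ℤ) := by
      push Not at hm
      exact_mod_cast hm
    have h1 := hy i hi hiJ
    have h2 : y i = 0 := Reg_empty_tot hlt h1.1.1 h1.1.2 h1.2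
    have hP : (∑ u, b u • (pt (monomial (g u) 1) : Fo κ (n + 1))) ∈
        TT (κ := κ) d J (n + 1) ∅ :=
      Submodule.sum_mem _ fun u _ => Submodule.smul_mem _ _ (hptu u)
    have h3 : al p F d i (∑ u, b u • (pt (monomial (g u) 1) : Fo κ (n + 1))) = 0 :=
      Reg_empty_tot hlt (al_Reg p F d i hP.1.1) (al_FD p F d i hP.1.2) (al_TD p hF i _)
    rw [h2, h3, sub_zero]
    exact Submodule.zero_mem _

end MPadcBK
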