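import Pool.Agent.Lib.MP_adc574_ag_BK.Ap
import Pool.Agent.Lib.MP_adc574_ag_HM.PCoreA

/-!
# JOB CData: coordinates modulo the Jacobian ideal

`ell c v` is the linear functional with the values `c v e` at the monomials `x ^ e`. A monomial `x ^ e` (`m` variables) has level `i` if `tdg e = ∑ (e i + 1) = i d`.
`CData d J F V g lv c h`: `ell c v` kills the Jacobian ideal, `ell c v (x ^ (g v')) = h δ`, and `h x ^ e - ∑_{lv v = i} (c v e) x ^ (g v)` is in the Jacobian ideal for `e` of level `i ≤ J`.
* `CData.map`: `ell (φ ∘ c) v (P.map φ) = φ (ell c v P)` (`ell_map`), `pderiv_map`; for the kernel condition it is enough to consider monomials `Q = x ^ e` (linearity), `x^e ∂_j F` is the image of a polynomial over `R`.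
* `CData.frob`: apply `CData.map` with `φ = frobenius R p`: data for `F.map (frobenius R p)`, with `(c v e)^p`, `h^p`.
* `jac_of_coord`: for `P` homogeneous of degree `N`, `N + m = i d`, `1 ≤ i ≤ J`: `h P - ∑_{lv v = i} ell c v P • x ^ (g v) ∈ Jac` (linearity, `P = ∑ coeff e P x^e`); so if `h` is a unit (field, `h ≠ 0`) and all `ell c v P = 0` then `P ∈ Jac`.
-/

set_option autoImplicit false

namespace MPadcBK

open MvPolynomial MPadcGM MPadcHM

/-- The total degree of `x ^ e dx`. -/
def tdg {m : ℕ} (e : Fin m →₀ ℕ) : ℕ := ∑ i, (e i + 1)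

section

variable {m : ℕ} {R : Type*} [CommRing R] {V : Type*}

/-- The linear functional with prescribed values on the monomials. -/
noncomputable def ell (c : V → (Fin m →₀ ℕ) → R) (v : V) : MvPolynomial (Fin m) R →ₗ[R] R :=
  (MvPolynomial.basisMonomials (Fin m) R).constr R fun e => c v e

theorem ell_monomial (c : V → (Fin m →₀ ℕ) → R) (v : V) (e : Fin m →₀ ℕ) (a : R) :
    ell c v (monomial e a) = a * c v e := by
  have h1 : (monomial e a : MvPolynomial (Fin m) R) = a • MvPolynomial.basisMonomials (Fin m) R e := by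
    rw [MvPolynomial.coe_basisMonomials, MvPolynomial.smul_monomial, smul_eq_mul, mul_one]
  rw [h1, map_smul, smul_eq_mul]
  unfold ell
  rw [Module.Basis.constr_basis]

theorem ell_eq_sum (c : V → (Fin m →₀ ℕ) → R) (v : V) (P : MvPolynomial (Fin m) R) :
    ell c v P = ∑ e ∈ P.support, coeff e P * c v e := by
  conv_lhs => rw [MvPolynomial.as_sum P]
  rw [map_sum]
  exact Finset.sum_congr rfl fun e _ => ell_monomial c v e _

theorem ell_map {S : Type*} [CommRing S] (φ : R →+* S) (c : V → (Fin m →₀ ℕ) → R) (v : V)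
    (P : MvPolynomial (Fin m) R) :
    ell (fun v e => φ (c v e)) v (P.map φ) = φ (ell c v P) := by
  induction P using MvPolynomial.induction_on' with
  | monomial u a => rw [MvPolynomial.map_monomial, ell_monomial, ell_monomial, map_mul]
  | add p q hp hq => rw [map_add, map_add, hp, hq, map_add, map_add]

private theorem cdata_tdg {m : ℕ} (e : Fin m →₀ ℕ) : tdg e = ∑ i, e i + m := by
  unfold tdg
  rw [Finset.sum_add_distrib]
  simp

private theorem cdata_hom {m : ℕ} {R : Type*} [CommRing R] {N : ℕ} {P : MvPolynomial (Fin m) R}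
    (hP : P.IsHomogeneous N) {e : Fin m →₀ ℕ} (he : e ∈ P.support) : tdg e = N + m := by
  rw [cdata_tdg]
  have h1 := hP (MvPolynomial.mem_support_iff.mp he)
  rw [Finsupp.weight_apply, Finsupp.sum_fintype _ _ (by simp)] at h1
  simp only [Pi.one_apply, smul_eq_mul, mul_one] at h1
  rw [h1]

/-- Coordinates modulo the Jacobian ideal up to level `J`. -/
structure CData (d J : ℕ) (F : MvPolynomial (Fin m) R) (g : V → Fin m →₀ ℕ) (lv : V → ℕ)
    [Fintype V] [DecidableEq V] (c : V → (Fin m →₀ ℕ) → R) (h : R) : Prop where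
  lv_pos : ∀ v, 1 ≤ lv v
  lv_le : ∀ v, lv v ≤ J
  lev : ∀ v, tdg (g v) = lv v * d
  ker : ∀ v j Q, ell c v (Q * pderiv j F) = 0
  self : ∀ v v', c v (g v') = if v = v' then h else 0
  zero : ∀ v e, tdg e ≠ lv v * d → c v e = 0
  span : ∀ i, 1 ≤ i → i ≤ J → ∀ e, tdg e = i * d →
    C h * monomial e 1 - ∑ v, (if lv v = i then monomial (g v) (c v e) else 0) ∈
      Ideal.span (Set.range fun j => pderiv j F)

variable [Fintype V] [DecidableEq V] {d J : ℕ} {F : MvPolynomial (Fin m) R}
  {g : V → Fin m →₀ ℕ} {lv : V → ℕ} {c : V → (Fin m →₀ ℕ) → R} {h : R}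

theorem CData.map (hC : CData d J F g lv c h) {S : Type*} [CommRing S] (φ : R →+* S) :
    CData d J (F.map φ) g lv (fun v e => φ (c v e)) (φ h) := by
  refine ⟨hC.lv_pos, hC.lv_le, hC.lev, ?_, ?_, ?_, ?_⟩
  · intro v j Q
    rw [MvPolynomial.pderiv_map]
    induction Q using MvPolynomial.induction_on' with
    | monomial u a =>
      have h1 : (monomial u a : MvPolynomial (Fin m) S) * MvPolynomial.map φ (pderiv j F) =
          a • MvPolynomial.map φ (monomial u 1 * pderiv j F) := by
        rw [map_mul, MvPolynomial.map_monomial, map_one, ← smul_mul_assoc,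
          MvPolynomial.smul_monomial, smul_eq_mul, mul_one]
      rw [h1, map_smul, ell_map, hC.ker, map_zero, smul_zero]
    | add p q hp hq => rw [add_mul, map_add, hp, hq, add_zero]
  · intro v v'
    change φ (c v (g v')) = _
    rw [hC.self]
    split_ifs with h1
    · rfl
    · exact map_zero φ
  · intro v e he
    change φ (c v e) = 0
    rw [hC.zero v e he, map_zero]
  · intro i hi hiJ e he
    have h1 := Ideal.mem_map_of_mem (MvPolynomial.map φ) (hC.span i hi hiJ e he)
    rw [Ideal.map_span, ← Set.range_comp] at h1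
    have h2 : ((MvPolynomial.map φ) ∘ fun j => pderiv j F) =
        fun j => pderiv j (MvPolynomial.map φ F) := by
      funext j
      rw [MvPolynomial.pderiv_map]
      rfl
    rw [h2, map_sub, map_mul, MvPolynomial.map_C, MvPolynomial.map_monomial, map_one, map_sum] at h1
    have h3 : ∀ v, MvPolynomial.map φ (if lv v = i then monomial (g v) (c v e) else 0) =
        if lv v = i then monomial (g v) (φ (c v e)) else 0 := by
      intro v
      split_ifs with h4
      · rw [MvPolynomial.map_monomial]
      · exact map_zero _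
    rw [Finset.sum_congr rfl fun v _ => h3 v] at h1
    exact h1

theorem CData.frob (hC : CData d J F g lv c h) (p : ℕ) [Fact p.Prime] [CharP R p] :
    CData d J (F.map (frobenius R p)) g lv (fun v e => c v e ^ p) (h ^ p) := by
  have h1 := hC.map (frobenius R p)
  simp only [frobenius_def] at h1
  exact h1

theorem CData.coord (hC : CData d J F g lv c h) {i N : ℕ} (hi : 1 ≤ i) (hiJ : i ≤ J)
    (hN : N + m = i * d) {P : MvPolynomial (Fin m) R} (hP : P.IsHomogeneous N) :
    C h * P - ∑ v, (if lv v = i then monomial (g v) (ell c v P) else 0) ∈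
      Ideal.span (Set.range fun j => pderiv j F) := by
  have h1 : C h * P - ∑ v, (if lv v = i then monomial (g v) (ell c v P) else 0) =
      ∑ e ∈ P.support, C (coeff e P) *
        (C h * monomial e 1 - ∑ v, (if lv v = i then monomial (g v) (c v e) else 0)) := by
    have h2 : C h * P = ∑ e ∈ P.support, C (coeff e P) * (C h * monomial e 1) := by
      conv_lhs => rw [MvPolynomial.as_sum P]
      rw [Finset.mul_sum]
      refine Finset.sum_congr rfl fun e _ => ?_
      rw [MvPolynomial.C_mul_monomial, MvPolynomial.C_mul_monomial, MvPolynomial.C_mul_monomial,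
        mul_one, mul_comm]
    have h3 : ∑ v, (if lv v = i then monomial (g v) (ell c v P) else 0) =
        ∑ e ∈ P.support, C (coeff e P) * ∑ v, (if lv v = i then monomial (g v) (c v e) else 0) := by
      simp_rw [Finset.mul_sum]
      rw [Finset.sum_comm]
      refine Finset.sum_congr rfl fun v _ => ?_
      by_cases h4 : lv v = i
      · simp only [h4, if_true]
        rw [ell_eq_sum, map_sum]
        refine Finset.sum_congr rfl fun e _ => ?_
        rw [MvPolynomial.C_mul_monomial]
      · simp only [h4, if_false, mul_zero, Finset.sum_const_zero]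
    rw [h2, h3, ← Finset.sum_sub_distrib]
    refine Finset.sum_congr rfl fun e _ => ?_
    rw [mul_sub]
  rw [h1]
  refine Ideal.sum_mem _ fun e he => Ideal.mul_mem_left _ _ ?_
  exact hC.span i hi hiJ e (by rw [cdata_hom hP he, hN])

theorem CData.ell_zero (hC : CData d J F g lv c h) {N : ℕ} {v : V} (hN : N + m ≠ lv v * d)
    {P : MvPolynomial (Fin m) R} (hP : P.IsHomogeneous N) : ell c v P = 0 := by
  rw [ell_eq_sum]
  refine Finset.sum_eq_zero fun e he => ?_
  rw [hC.zero v e (by rw [cdata_hom hP he]; exact hN), mul_zero]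

end

theorem CData.jac {m : ℕ} {K : Type*} [Field K] {V : Type*} [Fintype V] [DecidableEq V]
    {d J : ℕ} {F : MvPolynomial (Fin m) K} {g : V → Fin m →₀ ℕ} {lv : V → ℕ}
    {c : V → (Fin m →₀ ℕ) → K} {h : K} (hC : CData d J F g lv c h) (hh : h ≠ 0) {i N : ℕ}
    (hi : 1 ≤ i) (hiJ : i ≤ J) (hN : N + m = i * d) {P : MvPolynomial (Fin m) K}
    (hP : P.IsHomogeneous N) (h0 : ∀ v, lv v = i → ell c v P = 0) :
    P ∈ Ideal.span (Set.range fun j => pderiv j F) := by
  have h1 := hC.coord hi hiJ hN hP
  have h2 : ∑ v, (if lv v = i then monomial (g v) (ell c v P) else 0) = 0 := by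
    refine Finset.sum_eq_zero fun v _ => ?_
    split_ifs with h3
    · rw [h0 v h3, MvPolynomial.monomial_zero]
    · rfl
  rw [h2, sub_zero] at h1
  have h3 := Ideal.mul_mem_left _ (C h⁻¹) h1
  rw [← mul_assoc, ← C_mul, inv_mul_cancel₀ hh, C_1, one_mul] at h3
  exact h3

end MPadcBK
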