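import Pool.Agent.Lib.MP_adc574_ag_BK.FoA

/-!
# JOB Cech: Čech complexes

`del_del`: the usual cancellation (`Fin.succAbove` double sum; compare `Mathlib.AlgebraicTopology.AlternatingFaceMapComplex`, `d_squared`, or split the
double sum into `k < l` and `l ≤ k`, `Fin.succAbove_succAbove...`).
`contract`: for `e` of the second kind let `i₀ e` be the index. Given `c` closed of length `l + 1` put
`(b s).coeff e = (c (Fin.cons (i₀ e) s)).coeff e` for `e` of the second kind, `0` otherwise (finite support: contained in the union over `i` of the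
supports of the `c (Fin.cons i s)`). `Set.range (Fin.cons i s) = insert i (Set.range s)`. `del b = c`: the coefficient `e` of
`del c (Fin.cons i₀ s) = c s - ∑ k, (-1)^k c (Fin.cons i₀ (s ∘ k.succAbove))` (`Fin.sum_univ_succ`, `Fin.cons_comp_succ`...).
`exact_pos`: `A e I = {y ∈ ⋀^q | (tot e ∉ P → y = 0) ∧ ∀ i ∉ I, (e i < 0 → y = 0) ∧ (e i = 0 → cti i y = 0)}`; if `tot e ∈ P` then `1 ≤ tot e`, so
`1 ≤ e i` for some `i`, and the condition at `i` is empty.
-/

set_option autoImplicit false

namespace MPadcBK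

open ExteriorAlgebra

universe u

section Gen

variable {G : Type*} [AddCommGroup G] {ι : Type*} {l : ℕ}

private theorem cech_comp (s : Fin (l + 2) → ι) (k : Fin (l + 2)) (j : Fin (l + 1)) :
    (s ∘ (k.succAbove j).succAbove) ∘ (j.predAbove k).succAbove =
      (s ∘ k.succAbove) ∘ j.succAbove := by
  funext i
  exact congrArg s (Fin.succAbove_succAbove_succAbove_predAbove k j i)

theorem del_del (c : (Fin l → ι) → G) : del (del c) = 0 := by
  funext s
  have h1 : del (del c) s = ∑ a : Fin (l + 2) × Fin (l + 1),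
      (-1 : ℤ) ^ ((a.1 : ℕ) + (a.2 : ℕ)) • c ((s ∘ a.1.succAbove) ∘ a.2.succAbove) := by
    rw [Fintype.sum_prod_type]
    unfold del
    refine Finset.sum_congr rfl fun k _ => ?_
    rw [Finset.smul_sum]
    refine Finset.sum_congr rfl fun j _ => ?_
    rw [pow_add, mul_smul]
  rw [h1, Pi.zero_apply]
  refine Finset.sum_ninvolution (fun a => (a.1.succAbove a.2, a.2.predAbove a.1)) ?_ ?_ ?_ ?_
  · rintro ⟨k, j⟩
    simp only
    rw [cech_comp, Fin.neg_one_pow_succAbove_add_predAbove, neg_smul, add_neg_cancel]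
  · rintro ⟨k, j⟩ _ h
    exact Fin.succAbove_ne k j (congrArg Prod.fst h)
  · intro a
    exact Finset.mem_univ _
  · rintro ⟨k, j⟩
    simp only
    rw [Fin.succAbove_succAbove_predAbove, Fin.predAbove_predAbove_succAbove]

theorem del_add (b c : (Fin l → ι) → G) : del (b + c) = del b + del c := by
  funext s
  rw [Pi.add_apply]
  unfold del
  rw [← Finset.sum_add_distrib]
  refine Finset.sum_congr rfl fun k _ => ?_
  rw [Pi.add_apply, smul_add]

theorem del_sub (b c : (Fin l → ι) → G) : del (b - c) = del b - del c := by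
  funext s
  rw [Pi.sub_apply]
  unfold del
  rw [← Finset.sum_sub_distrib]
  refine Finset.sum_congr rfl fun k _ => ?_
  rw [Pi.sub_apply, smul_sub]

theorem del_neg (c : (Fin l → ι) → G) : del (-c) = - del c := by
  funext s
  rw [Pi.neg_apply]
  unfold del
  rw [← Finset.sum_neg_distrib]
  refine Finset.sum_congr rfl fun k _ => ?_
  rw [Pi.neg_apply, smul_neg]

theorem del_zero : del (0 : (Fin l → ι) → G) = 0 := by
  funext s
  rw [Pi.zero_apply]
  unfold del
  refine Finset.sum_eq_zero fun k _ => ?_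
  rw [Pi.zero_apply, smul_zero]

theorem del_map {H : Type*} [AddCommGroup H] (φ : G →+ H) (c : (Fin l → ι) → G) :
    del (fun s => φ (c s)) = fun s => φ (del c s) := by
  funext s
  unfold del
  rw [map_sum]
  refine Finset.sum_congr rfl fun k _ => ?_
  rw [map_zsmul]

theorem del_Coch {M : Set ι → AddSubgroup G} (hM : ∀ I J : Set ι, I ⊆ J → M I ≤ M J)
    {c : (Fin l → ι) → G} (hc : Coch M c) : Coch M (del c) := by
  intro s
  unfold del
  refine AddSubgroup.sum_mem _ fun k _ => AddSubgroup.zsmul_mem _ ?_ _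
  exact hM _ _ (Set.range_comp_subset_range _ _) (hc (s ∘ k.succAbove))

/-- A closed cochain of length 1 is constant. -/
theorem const_of_del [Nonempty ι] {c : (Fin 1 → ι) → G} (hc : del c = 0) :
    ∃ g, ∀ s, c s = g := by
  obtain ⟨i₀⟩ := ‹Nonempty ι›
  refine ⟨c fun _ => i₀, fun s => ?_⟩
  have h1 := congrFun hc ![i₀, s 0]
  unfold del at h1
  rw [Fin.sum_univ_two, Pi.zero_apply, Fin.val_zero, Fin.val_one, pow_zero, one_smul, pow_one,
    neg_smul, one_smul] at h1
  have h2 : (![i₀, s 0] : Fin 2 → ι) ∘ (0 : Fin 2).succAbove = s := by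
    funext i
    rw [Subsingleton.elim i 0]
    rfl
  have h3 : (![i₀, s 0] : Fin 2 → ι) ∘ (1 : Fin 2).succAbove = fun _ => i₀ := by
    funext i
    rw [Subsingleton.elim i 0]
    rfl
  rw [h2, h3] at h1
  exact add_neg_eq_zero.1 h1

theorem del_const (g : G) : del (fun _ : Fin 1 → ι => g) = 0 := by
  funext s
  unfold del
  rw [Fin.sum_univ_two, Pi.zero_apply, Fin.val_zero, Fin.val_one, pow_zero, one_smul, pow_one,
    neg_smul, one_smul, add_neg_cancel]

theorem del_zero_len (b : (Fin 0 → ι) → G) (s : Fin 1 → ι) :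
    del b s = b Fin.elim0 := by
  unfold del
  rw [Fin.sum_univ_one, Fin.val_zero, pow_zero, one_smul]
  exact congrArg b (Subsingleton.elim _ _)

end Gen

variable {κ : Type u} [Field κ] {m : ℕ}

private theorem cech_coeff_sum {ι : Type*} (t : Finset ι) (f : ι → Fo κ m) (e : Ex m) :
    (∑ k ∈ t, f k).coeff e = ∑ k ∈ t, (f k).coeff e := by
  classical
  induction t using Finset.induction_on with
  | empty => rw [Finset.sum_empty, Finset.sum_empty, AddMonoidAlgebra.coeff_zero, Finsupp.zero_apply]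
  | insert a t ha ih =>
    rw [Finset.sum_insert ha, Finset.sum_insert ha, AddMonoidAlgebra.coeff_add, Finsupp.add_apply, ih]

private theorem cech_del_coeff {l : ℕ} (c : (Fin l → Fin m) → Fo κ m) (s : Fin (l + 1) → Fin m)
    (e : Ex m) : (del c s).coeff e = ∑ k : Fin (l + 1), (-1 : ℤ) ^ (k : ℕ) •
      (c (s ∘ k.succAbove)).coeff e := by
  unfold del
  rw [cech_coeff_sum]
  refine Finset.sum_congr rfl fun k _ => ?_
  rw [AddMonoidAlgebra.coeff_smul, Finsupp.smul_apply]

private theorem cech_cons_comp {ι : Type*} {l : ℕ} (i : ι) (s : Fin (l + 1) → ι)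
    (k : Fin (l + 1)) : (Fin.cons i s : Fin (l + 2) → ι) ∘ k.succ.succAbove =
      Fin.cons i (s ∘ k.succAbove) := by
  funext j
  refine Fin.cases ?_ (fun j => ?_) j
  · rw [Function.comp_apply, Fin.succ_succAbove_zero, Fin.cons_zero, Fin.cons_zero]
  · rw [Function.comp_apply, Fin.succ_succAbove_succ, Fin.cons_succ, Fin.cons_succ,
      Function.comp_apply]

open Classical in
/-- the homotopy -/
private noncomputable def cech_b (P : Ex m → Fin m → Prop) {l : ℕ}
    (c : (Fin (l + 1) → Fin m) → Fo κ m) (s : Fin l → Fin m) : Fo κ m :=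
  .ofCoeff (Finsupp.onFinset (Finset.univ.biUnion fun i : Fin m => (c (Fin.cons i s)).coeff.support)
    (fun e => if h : ∃ i, P e i then (c (Fin.cons h.choose s)).coeff e else 0) (by
      intro e he
      rw [Finset.mem_biUnion]
      by_cases h : ∃ i, P e i
      · rw [dif_pos h] at he
        exact ⟨h.choose, Finset.mem_univ _, Finsupp.mem_support_iff.2 he⟩
      · rw [dif_neg h] at he
        exact absurd rfl he))

open Classical in
private theorem cech_b_pos (P : Ex m → Fin m → Prop) {l : ℕ}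
    (c : (Fin (l + 1) → Fin m) → Fo κ m) {e : Ex m} (h : ∃ i, P e i) (s : Fin l → Fin m) :
    (cech_b P c s).coeff e = (c (Fin.cons h.choose s)).coeff e := by
  have h1 : (cech_b P c s).coeff e =
    if h : ∃ i, P e i then (c (Fin.cons h.choose s)).coeff e else 0 := rfl
  rw [h1, dif_pos h]

open Classical in
private theorem cech_b_neg (P : Ex m → Fin m → Prop) {l : ℕ}
    (c : (Fin (l + 1) → Fin m) → Fo κ m) {e : Ex m} (h : ¬ ∃ i, P e i) (s : Fin l → Fin m) :
    (cech_b P c s).coeff e = 0 := by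
  have h1 : (cech_b P c s).coeff e =
    if h : ∃ i, P e i then (c (Fin.cons h.choose s)).coeff e else 0 := rfl
  rw [h1, dif_neg h]

theorem contract (A : Ex m → Set (Fin m) → Submodule κ (Lam κ m))
    (hA : ∀ e, (∀ I, A e I = ⊥) ∨ ∃ i, ∀ I, A e (insert i I) ≤ A e I)
    (M : Set (Fin m) → AddSubgroup (Fo κ m))
    (hM : ∀ I x, x ∈ M I ↔ ∀ e, x.coeff e ∈ A e I) (l : ℕ) : ExactAt M l := by
  intro c hc hdc
  refine ⟨cech_b (fun e i => ∀ I, A e (insert i I) ≤ A e I) c, fun s => ?_, ?_⟩
  · rw [hM]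
    intro e
    by_cases h : ∃ i, ∀ I, A e (insert i I) ≤ A e I
    · rw [cech_b_pos (fun e i => ∀ I, A e (insert i I) ≤ A e I) c h]
      have h1 := (hM _ _).1 (hc (Fin.cons h.choose s)) e
      rw [Fin.range_cons] at h1
      exact h.choose_spec _ h1
    · rw [cech_b_neg (fun e i => ∀ I, A e (insert i I) ≤ A e I) c h]
      exact Submodule.zero_mem _
  · funext s
    refine fo_ext fun e => ?_
    rw [cech_del_coeff]
    by_cases h : ∃ i, ∀ I, A e (insert i I) ≤ A e I
    · have h1 : (del c (Fin.cons h.choose s)).coeff e = 0 := by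
        rw [hdc, Pi.zero_apply, AddMonoidAlgebra.coeff_zero, Finsupp.zero_apply]
      rw [cech_del_coeff, Fin.sum_univ_succ, Fin.val_zero, pow_zero, one_smul] at h1
      have h2 : (Fin.cons h.choose s : Fin (l + 2) → Fin m) ∘ (0 : Fin (l + 2)).succAbove = s := by
        funext j
        rw [Function.comp_apply, Fin.succAbove_zero, Fin.cons_succ]
      rw [h2] at h1
      have h3 : ∑ k : Fin (l + 1), (-1 : ℤ) ^ ((k.succ : Fin (l + 2)) : ℕ) •
          (c ((Fin.cons h.choose s : Fin (l + 2) → Fin m) ∘ k.succ.succAbove)).coeff e =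
          -∑ k : Fin (l + 1), (-1 : ℤ) ^ (k : ℕ) •
            (cech_b (fun e i => ∀ I, A e (insert i I) ≤ A e I) c (s ∘ k.succAbove)).coeff e := by
        rw [← Finset.sum_neg_distrib]
        refine Finset.sum_congr rfl fun k _ => ?_
        rw [cech_b_pos (fun e i => ∀ I, A e (insert i I) ≤ A e I) c h, cech_cons_comp,
          Fin.val_succ, pow_succ, mul_neg_one, neg_smul]
      rw [h3] at h1
      exact (add_neg_eq_zero.1 h1).symm
    · have h1 : ∀ I, A e I = ⊥ := (hA e).resolve_right h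
      have h2 := (hM _ _).1 (hc s) e
      rw [h1, Submodule.mem_bot] at h2
      rw [h2]
      refine Finset.sum_eq_zero fun k _ => ?_
      rw [cech_b_neg (fun e i => ∀ I, A e (insert i I) ≤ A e I) c h, smul_zero]

/-- the coefficients at `e` of the forms on the chart `I` -/
private def cech_A (P : Set ℤ) (q : ℕ) (e : Ex m) (I : Set (Fin m)) : Submodule κ (Lam κ m) where
  carrier := {y | y ∈ ⋀[κ]^q (Fin m → κ) ∧ (tot e ∉ P → y = 0) ∧
    ∀ i ∉ I, (e i < 0 → y = 0) ∧ (e i = 0 → cti i y = 0)}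
  zero_mem' := ⟨Submodule.zero_mem _, fun _ => rfl, fun i _ => ⟨fun _ => rfl, fun _ => map_zero _⟩⟩
  add_mem' := by
    rintro x y ⟨h1, h2, h3⟩ ⟨h4, h5, h6⟩
    refine ⟨Submodule.add_mem _ h1 h4, fun h => ?_, fun i hi => ⟨fun h => ?_, fun h => ?_⟩⟩
    · rw [h2 h, h5 h, add_zero]
    · rw [(h3 i hi).1 h, (h6 i hi).1 h, add_zero]
    · rw [map_add, (h3 i hi).2 h, (h6 i hi).2 h, add_zero]
  smul_mem' := by
    rintro a x ⟨h1, h2, h3⟩
    refine ⟨Submodule.smul_mem _ a h1, fun h => ?_, fun i hi => ⟨fun h => ?_, fun h => ?_⟩⟩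
    · rw [h2 h, smul_zero]
    · rw [(h3 i hi).1 h, smul_zero]
    · rw [map_smul, (h3 i hi).2 h, smul_zero]

private theorem cech_A_mem {P : Set ℤ} {q : ℕ} {e : Ex m} {I : Set (Fin m)} {y : Lam κ m} :
    y ∈ cech_A P q e I ↔ y ∈ ⋀[κ]^q (Fin m → κ) ∧ (tot e ∉ P → y = 0) ∧
      ∀ i ∉ I, (e i < 0 → y = 0) ∧ (e i = 0 → cti i y = 0) := Iff.rfl

theorem exact_pos (P : Set ℤ) (hP : ∀ t ∈ P, 1 ≤ t) (q l : ℕ) :
    ExactAt (fun I => (Reg (κ := κ) I ⊓ FD (m := m) q ⊓ TD P).toAddSubgroup) l := by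
  refine contract (fun e I => cech_A P q e I) (fun e => ?_) _ (fun I x => ?_) l
  · by_cases he : tot e ∈ P
    · refine Or.inr ?_
      have h1 : 0 < ∑ i, e i := lt_of_lt_of_le one_pos (hP _ he)
      obtain ⟨i, -, hi⟩ : ∃ i ∈ Finset.univ, 0 < e i := by
        by_contra h
        push Not at h
        exact absurd h1 (not_lt.2 (Finset.sum_nonpos h))
      refine ⟨i, fun I y hy => ?_⟩
      rw [cech_A_mem] at hy ⊢
      refine ⟨hy.1, hy.2.1, fun j hj => ?_⟩
      by_cases hji : j = i
      · subst hji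
        exact ⟨fun h => absurd h (by omega), fun h => absurd h (by omega)⟩
      · exact hy.2.2 j fun h => (Set.mem_insert_iff.1 h).elim hji hj
    · refine Or.inl fun I => ?_
      rw [eq_bot_iff]
      intro y hy
      rw [Submodule.mem_bot]
      exact (cech_A_mem.1 hy).2.1 he
  · rw [Submodule.mem_toAddSubgroup, Submodule.mem_inf, Submodule.mem_inf]
    constructor
    · rintro ⟨⟨h1, h2⟩, h3⟩ e
      exact cech_A_mem.2 ⟨h2 e, h3 e, h1 e⟩
    · intro h
      exact ⟨⟨fun e => (cech_A_mem.1 (h e)).2.2, fun e => (cech_A_mem.1 (h e)).1⟩,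
        fun e => (cech_A_mem.1 (h e)).2.1⟩

end MPadcBK
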