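import Pool.Agent.Lib.MP_adc574_ag_BK.Frob
import Pool.Agent.Lib.MP_adc574_ag_BK.Cech

/-!
# JOB Car: the Cartier theorem for Laurent forms

`hom = cw (fun e => if h : ∃ j, (e j : κ) ≠ 0 then ((e j : κ))⁻¹ • cti j else 0)` (`j` chosen). If `ι (bar e) * y = 0` then
`0 = cti j (ι (bar e) * y) = (e j) • y - ι (bar e) * cti j y`, so `y = ι (bar e) * (e j)⁻¹ cti j y`. If all `(e j : κ) = 0` then `e = pmul e'` and `Ca x = 0` gives
`x.coeff e = 0`. So `x = dd (hom x)` if `dd x = 0`, `Ca x = 0`. Regularity of `hom x`: at `i ∉ I` with `e i = 0`: `cti i (cti j y) = - cti j (cti i y) = 0` (`ct_comm`).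
`cfe (hom x)`: `cte (cti j y) = - cti j (cte y)`.
-/

set_option autoImplicit false

namespace MPadcBK

open ExteriorAlgebra

universe u

variable {κ : Type u} [Field κ] {m : ℕ} (p : ℕ) [Fact p.Prime] [CharP κ p] [PerfectRing κ p]

open Classical in
/-- the homotopy, coefficientwise -/
private noncomputable def car_A (e : Ex m) : Lam κ m →ₗ[κ] Lam κ m :=
  if h : ∃ j, bar κ e j ≠ 0 then (bar κ e h.choose)⁻¹ • cti h.choose else 0

/-- the homotopy -/
private noncomputable def car_hom : Fo κ m →ₗ[κ] Fo κ m := cw car_A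

private theorem car_hom_coeff (x : Fo κ m) (e : Ex m) :
    (car_hom x).coeff e = car_A e (x.coeff e) := rfl

private theorem car_pmul {e : Ex m} (h : ¬ ∃ j, bar κ e j ≠ 0) : ∃ e' : Ex m, e = pmul p m e' := by
  push Not at h
  have h1 : ∀ j, ∃ k : ℤ, e j = (p : ℤ) * k := by
    intro j
    have h2 : ((e j : ℤ) : κ) = 0 := h j
    rw [CharP.intCast_eq_zero_iff κ p] at h2
    exact h2
  choose e' he' using h1
  exact ⟨e', funext he'⟩

private theorem car_coeff_zero {x : Fo κ m} (hC : Ca p x = 0) {e : Ex m}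
    (h : ¬ ∃ j, bar κ e j ≠ 0) : x.coeff e = 0 := by
  obtain ⟨e', rfl⟩ := car_pmul p h
  have h1 : (Ca p x).coeff e' = 0 := by
    rw [hC]
    rfl
  rw [Ca_coeff] at h1
  have h2 := congrArg (tw (m := m) (frobeniusEquiv κ p)) h1
  rwa [RingEquiv.apply_symm_apply, map_zero] at h2

private theorem car_iota {e : Ex m} {y : Lam κ m} (h : ι κ (bar κ e) * y = 0) {j : Fin m} :
    ι κ (bar κ e) * cti j y = bar κ e j • y := by
  have h1 := cti_iota_mul j (bar κ e) y
  rw [h, map_zero] at h1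
  exact (sub_eq_zero.1 h1.symm).symm

private theorem car_dd_hom {x : Fo κ m} (h : dd x = 0) (hC : Ca p x = 0) : dd (car_hom x) = x := by
  refine fo_ext fun e => ?_
  have h1 : ι κ (bar κ e) * x.coeff e = 0 := by
    have h2 : (dd x).coeff e = 0 := by
      rw [h]
      rfl
    rwa [dd_coeff] at h2
  rw [dd_coeff, car_hom_coeff]
  unfold car_A
  split_ifs with hj
  · rw [LinearMap.smul_apply, mul_smul_comm, car_iota h1, smul_smul, inv_mul_cancel₀ hj.choose_spec, one_smul]
  · rw [LinearMap.zero_apply, mul_zero, car_coeff_zero p hC hj]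

private theorem car_hom_Reg {I : Set (Fin m)} {x : Fo κ m} (hx : x ∈ Reg (κ := κ) I) :
    car_hom x ∈ Reg (κ := κ) I := by
  intro e i hi
  rw [car_hom_coeff]
  refine ⟨fun h => by rw [(hx e i hi).1 h, map_zero], fun h => ?_⟩
  have h1 := (hx e i hi).2 h
  unfold car_A
  split_ifs with hj
  · rw [LinearMap.smul_apply, map_smul]
    have h2 : cti i (cti hj.choose (x.coeff e)) = 0 := by
      unfold cti at h1 ⊢
      rw [ct_comm, h1, map_zero, neg_zero]
    rw [h2, smul_zero]
  · rw [LinearMap.zero_apply, map_zero]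

private theorem car_hom_FD {q : ℕ} {x : Fo κ m} (hx : x ∈ FD (κ := κ) (m := m) (q + 1)) :
    car_hom x ∈ FD (κ := κ) (m := m) q := by
  intro e
  rw [car_hom_coeff]
  unfold car_A
  split_ifs with hj
  · rw [LinearMap.smul_apply]
    exact Submodule.smul_mem _ _ (ct_mem _ (hx e))
  · rw [LinearMap.zero_apply]
    exact Submodule.zero_mem _

private theorem car_hom_TD {P : Set ℤ} {x : Fo κ m} (hx : x ∈ TD (κ := κ) (m := m) P) :
    car_hom x ∈ TD (κ := κ) (m := m) P := by
  intro e he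
  rw [car_hom_coeff, hx e he, map_zero]

private theorem car_hom_cfe {x : Fo κ m} (hx : cfe x = 0) : cfe (car_hom x) = 0 := by
  refine fo_ext fun e => ?_
  have h1 : cte (x.coeff e) = 0 := by
    have h2 : (cfe x).coeff e = 0 := by
      rw [hx]
      rfl
    rwa [cfe_coeff] at h2
  rw [cfe_coeff, car_hom_coeff]
  show cte (car_A e (x.coeff e)) = 0
  unfold car_A
  split_ifs with hj
  · rw [LinearMap.smul_apply, map_smul]
    have h2 : cte (cti hj.choose (x.coeff e)) = 0 := by
      unfold cte at h1 ⊢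
      unfold cti
      rw [ct_comm, h1, map_zero, neg_zero]
    rw [h2, smul_zero]
  · rw [LinearMap.zero_apply, map_zero]

theorem cartier {I : Set (Fin m)} {q : ℕ} {P : Set ℤ} {x : Fo κ m}
    (hx : x ∈ Reg (κ := κ) I ⊓ FD (q + 1) ⊓ TD P) (h : dd x = 0) (hC : Ca p x = 0) :
    ∃ y ∈ Reg (κ := κ) I ⊓ FD q ⊓ TD P, dd y = x ∧ (cfe x = 0 → cfe y = 0) := by
  exact ⟨car_hom x, ⟨⟨car_hom_Reg hx.1.1, car_hom_FD hx.1.2⟩, car_hom_TD hx.2⟩, car_dd_hom p h hC, car_hom_cfe⟩

theorem cartier_zero {x : Fo κ m} (hx : x ∈ FD (κ := κ) (m := m) 0) (h : dd x = 0)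
    (hC : Ca p x = 0) : x = 0 := by
  refine fo_ext fun e => ?_
  show x.coeff e = 0
  by_cases hj : ∃ j, bar κ e j ≠ 0
  · obtain ⟨j, hj⟩ := hj
    have h1 : ι κ (bar κ e) * x.coeff e = 0 := by
      have h2 : (dd x).coeff e = 0 := by
        rw [h]
        rfl
      rwa [dd_coeff] at h2
    have h3 := car_iota h1 (j := j)
    have h4 : cti j (x.coeff e) = 0 := ct_mem_zero _ (hx e)
    rw [h4, mul_zero] at h3
    exact (smul_eq_zero.1 h3.symm).resolve_left hj
  · exact car_coeff_zero p hC hj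

/-- The exact forms of degree `q + 1` on `P^{m-1}`. -/
noncomputable def BP (q : ℕ) (I : Set (Fin m)) : Submodule κ (Fo κ m) :=
  (Reg I ⊓ FD q ⊓ TD {0} ⊓ LinearMap.ker cfe).map dd

/-- the possible coefficients at `e` of the primitives -/
private def car_Y (q : ℕ) (e : Ex m) (I : Set (Fin m)) : Submodule κ (Lam κ m) where
  carrier := {y | y ∈ ⋀[κ]^q (Fin m → κ) ∧ (tot e ≠ 0 → y = 0) ∧ cte y = 0 ∧
    ∀ i ∉ I, (e i < 0 → y = 0) ∧ (e i = 0 → cti i y = 0)}
  zero_mem' := ⟨Submodule.zero_mem _, fun _ => rfl, map_zero _, fun i _ => ⟨fun _ => rfl, fun _ => map_zero _⟩⟩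
  add_mem' := by
    rintro x y ⟨h1, h2, h2', h3⟩ ⟨h4, h5, h5', h6⟩
    refine ⟨Submodule.add_mem _ h1 h4, fun h => ?_, ?_, fun i hi => ⟨fun h => ?_, fun h => ?_⟩⟩
    · rw [h2 h, h5 h, add_zero]
    · rw [map_add, h2', h5', add_zero]
    · rw [(h3 i hi).1 h, (h6 i hi).1 h, add_zero]
    · rw [map_add, (h3 i hi).2 h, (h6 i hi).2 h, add_zero]
  smul_mem' := by
    rintro a x ⟨h1, h2, h2', h3⟩
    refine ⟨Submodule.smul_mem _ a h1, fun h => ?_, ?_, fun i hi => ⟨fun h => ?_, fun h => ?_⟩⟩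
    · rw [h2 h, smul_zero]
    · rw [map_smul, h2', smul_zero]
    · rw [(h3 i hi).1 h, smul_zero]
    · rw [map_smul, (h3 i hi).2 h, smul_zero]

private theorem car_Y_mem {q : ℕ} {e : Ex m} {I : Set (Fin m)} {y : Lam κ m} :
    y ∈ car_Y q e I ↔ y ∈ ⋀[κ]^q (Fin m → κ) ∧ (tot e ≠ 0 → y = 0) ∧ cte y = 0 ∧
      ∀ i ∉ I, (e i < 0 → y = 0) ∧ (e i = 0 → cti i y = 0) := Iff.rfl

private theorem car_tot {e : Ex m} (h : tot e = 0) (h0 : ∀ i, e i ≤ 0) : e = 0 := by
  unfold tot at h
  have h1 := (Finset.sum_eq_zero_iff_of_nonpos (s := Finset.univ) (f := e) fun i _ => h0 i).1 h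
  exact funext fun i => h1 i (Finset.mem_univ i)

private theorem car_bar_zero : bar κ (0 : Ex m) = 0 := by
  funext i
  show (((0 : Ex m) i : ℤ) : κ) = 0
  simp

/-- `x.coeff e ∈ A e I` with `A e I = {ι (bar e) * y | tot e = 0, y ∈ ⋀^q, cte y = 0, ∀ i ∉ I, (e i < 0 → y = 0) ∧ (e i = 0 → cti i y = 0)}`; use
`contract`. For `tot e = 0`: `e = 0` (then `bar e = 0`) or `1 ≤ e i` for some `i`. -/
theorem exact_BP (q l : ℕ) : ExactAt (fun I => (BP (κ := κ) (m := m) q I).toAddSubgroup) l := by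
  classical
  refine contract (fun e I => (car_Y q e I).map (LinearMap.mulLeft κ (ι κ (bar κ e)))) (fun e => ?_) _
    (fun I x => ?_) l
  · by_cases he : tot e = 0
    · by_cases hp : ∃ i, 0 < e i
      · obtain ⟨i, hi⟩ := hp
        refine Or.inr ⟨i, fun I => Submodule.map_mono ?_⟩
        intro y hy
        rw [car_Y_mem] at hy ⊢
        refine ⟨hy.1, hy.2.1, hy.2.2.1, fun k hk => ?_⟩
        by_cases hki : k = i
        · rw [hki]
          exact ⟨fun h => absurd h (by omega), fun h => absurd h (by omega)⟩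
        · exact hy.2.2.2 k fun h => (Set.mem_insert_iff.1 h).elim hki hk
      · left
        push Not at hp
        intro I
        rw [car_tot he hp, car_bar_zero, map_zero, eq_bot_iff]
        rintro _ ⟨y, -, rfl⟩
        rw [LinearMap.mulLeft_apply, zero_mul]
        exact Submodule.zero_mem _
    · left
      intro I
      rw [eq_bot_iff]
      rintro _ ⟨y, hy, rfl⟩
      have hy0 : y = 0 := hy.2.1 he
      rw [hy0, map_zero]
      exact Submodule.zero_mem _
  · show x ∈ BP q I ↔ _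
    unfold BP
    constructor
    · rintro ⟨y, hy, rfl⟩ e
      refine ⟨y.coeff e, ?_, rfl⟩
      show y.coeff e ∈ car_Y q e I
      rw [car_Y_mem]
      obtain ⟨⟨⟨h1, h2⟩, h3⟩, h4⟩ := hy
      refine ⟨h2 e, fun h => h3 e h, ?_, fun i hi => h1 e i hi⟩
      have h5 : cfe y = 0 := h4
      have h6 : (cfe y).coeff e = 0 := by
        rw [h5]
        rfl
      rwa [cfe_coeff] at h6
    · intro h
      have h1 : ∀ e, ∃ y ∈ car_Y q e I, ι κ (bar κ e) * y = x.coeff e := by
        intro e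
        obtain ⟨y, hy, hxy⟩ := h e
        exact ⟨y, hy, hxy⟩
      choose Y hY hYx using h1
      let y : Fo κ m := .ofCoeff (Finsupp.onFinset x.coeff.support (fun e => if x.coeff e = 0 then 0 else Y e) (by
        intro e he
        rw [Finsupp.mem_support_iff]
        intro h0
        exact he (by rw [if_pos h0])))
      have hy : ∀ e, y.coeff e = if x.coeff e = 0 then 0 else Y e := fun e => rfl
      have hmem : ∀ e, y.coeff e ∈ car_Y q e I := by
        intro e
        rw [hy]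
        split_ifs
        · exact Submodule.zero_mem _
        · exact hY e
      refine ⟨y, ⟨⟨⟨fun e i hi => ?_, fun e => ?_⟩, fun e he => ?_⟩, ?_⟩, ?_⟩
      · exact (hmem e).2.2.2 i hi
      · exact (hmem e).1
      · exact (hmem e).2.1 he
      · show cfe y = 0
        refine fo_ext fun e => ?_
        rw [cfe_coeff]
        exact (hmem e).2.2.1
      · refine fo_ext fun e => ?_
        rw [dd_coeff, hy]
        split_ifs with h0
        · rw [mul_zero, h0]
        · exact hYx e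

theorem BP_empty (q : ℕ) : BP (κ := κ) (m := m) q ∅ = ⊥ := by
  rw [eq_bot_iff]
  rintro _ ⟨y, ⟨⟨⟨h1, h2⟩, h3⟩, h4⟩, rfl⟩
  rw [Submodule.mem_bot]
  refine fo_ext fun e => ?_
  show (dd y).coeff e = 0
  rw [dd_coeff]
  by_cases he : tot e = 0
  · by_cases hn : ∃ i, e i < 0
    · obtain ⟨i, hi⟩ := hn
      rw [(h1 e i (Set.notMem_empty i)).1 hi, mul_zero]
    · push Not at hn
      have h5 : e = 0 := by
        unfold tot at he
        have h6 := (Finset.sum_eq_zero_iff_of_nonneg (s := Finset.univ) (f := e) fun i _ => hn i).1 he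
        exact funext fun i => h6 i (Finset.mem_univ i)
      rw [h5, car_bar_zero, map_zero, zero_mul]
  · rw [h3 e he, mul_zero]

end MPadcBK
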