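import Pool.Agent.Lib.MP_adc574_ag_BK.EC
import Pool.Agent.Lib.MP_adc574_ag_HM.Defs

/-!
# JOB Cc: the coefficient operator, coefficientwise derivations

`cc p P` has the coefficient `coeff (p v + (p - 1, …, p - 1)) P` at `x ^ v` (`cc_coeff`: `v ↦ p • v + pm1 m p` is injective for `0 < p`; by linearity on monomials, `Module.Basis.constr_basis`).
`cc_pderiv`: the coefficient of `x ^ e` in `∂_j P` is `(e j + 1) coeff (e + single j 1) P` (see `MP_adc574_ag_GM/CartA.lean`), and `p v j + (p - 1) + 1 = 0` in characteristic `p`.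
`cc_expand_mul`: on monomials `G = x ^ a`, `H = x ^ e`: `p a + e = p v + (p-1)` iff `v ≥ a` and `e = p (v - a) + (p - 1)` (`v ≥ a`: `p v i + p - 1 ≥ p a i`).
`cder D P = ∑ e ∈ P.support, monomial e (D (coeff e P))` (`MPadcHM.cder`).
`cc_homog`: if the coefficient at `v` is not 0 then `∑ (p v i + (p - 1)) = N'`, so `p (∑ v i + m) = N' + m`.
-/

set_option autoImplicit false

namespace MPadcBK

open MvPolynomial MPadcGM MPadcHM

variable {m : ℕ} {R : Type*} [CommRing R]

/-- The coefficient operator: the coefficient at `v` is the coefficient of `P` at `p v + (p - 1, …, p - 1)`. -/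
noncomputable def cc (p : ℕ) : MvPolynomial (Fin m) R →ₗ[R] MvPolynomial (Fin m) R := by
  classical
  exact (MvPolynomial.basisMonomials (Fin m) R).constr R fun e =>
    if h : ∃ v, e = p • v + pm1 m p then monomial h.choose 1 else 0

private theorem cc_pm1 (p : ℕ) (v : Fin m →₀ ℕ) (i : Fin m) :
    (p • v + pm1 m p) i = p * v i + (p - 1) := by
  simp [pm1]

private theorem cc_inj {p : ℕ} (hp : 0 < p) {v v' : Fin m →₀ ℕ}
    (h : p • v + pm1 m p = p • v' + pm1 m p) : v = v' := by
  ext i
  have h1 := DFunLike.congr_fun h i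
  rw [cc_pm1, cc_pm1] at h1
  exact Nat.eq_of_mul_eq_mul_left hp (Nat.add_right_cancel h1)

open Classical in
private theorem cc_apply_one (p : ℕ) (e : Fin m →₀ ℕ) :
    cc p (monomial e (1 : R)) =
      if h : ∃ v, e = p • v + pm1 m p then monomial h.choose 1 else 0 := by
  have h1 : (monomial e (1 : R)) = MvPolynomial.basisMonomials (Fin m) R e := by
    rw [MvPolynomial.coe_basisMonomials]
  rw [h1]
  unfold cc
  rw [Module.Basis.constr_basis]

theorem cc_coeff {p : ℕ} (hp : 0 < p) (P : MvPolynomial (Fin m) R) (v : Fin m →₀ ℕ) :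
    coeff v (cc p P) = coeff (p • v + pm1 m p) P := by
  classical
  induction P using MvPolynomial.induction_on' with
  | add P Q hP hQ => rw [map_add, coeff_add, coeff_add, hP, hQ]
  | monomial e a =>
    have h0 : monomial e a = a • monomial e (1 : R) := by
      rw [smul_monomial, smul_eq_mul, mul_one]
    rw [h0, map_smul, coeff_smul, coeff_smul, cc_apply_one]
    congr 1
    by_cases h : ∃ v, e = p • v + pm1 m p
    · rw [dif_pos h, coeff_monomial, coeff_monomial]
      have h2 := h.choose_spec
      by_cases h3 : h.choose = v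
      · rw [if_pos h3, if_pos]
        rw [← h3]
        exact h2
      · rw [if_neg h3, if_neg]
        intro h4
        exact h3 (cc_inj hp (h2.symm.trans h4))
    · rw [dif_neg h, coeff_zero, coeff_monomial, if_neg]
      intro h4
      exact h ⟨v, h4⟩

theorem cc_map {p : ℕ} (hp : 0 < p) {S : Type*} [CommRing S] (φ : R →+* S)
    (P : MvPolynomial (Fin m) R) : (cc p P).map φ = cc p (P.map φ) := by
  ext v
  rw [coeff_map, cc_coeff hp, cc_coeff hp, coeff_map]

theorem cc_pderiv (p : ℕ) [hp : Fact p.Prime] [CharP R p] (j : Fin m)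
    (P : MvPolynomial (Fin m) R) : cc p (pderiv j P) = 0 := by
  ext v
  rw [cc_coeff hp.out.pos, coeff_pderiv, coeff_zero]
  have hp1 := hp.out.one_lt
  have h3 : ((p • v + pm1 m p) j : ℕ) + 1 = p * (v j + 1) := by
    rw [cc_pm1, mul_add, mul_one]
    omega
  have h5 : (((p • v + pm1 m p) j : ℕ) : R) + 1 = 0 := by
    have h6 : ((((p • v + pm1 m p) j : ℕ) + 1 : ℕ) : R) = 0 := by
      rw [h3, Nat.cast_mul, CharP.cast_eq_zero R p, zero_mul]
    exact_mod_cast h6
  rw [h5, mul_zero]

theorem cc_expand_mul {p : ℕ} (hp : 0 < p) (G H : MvPolynomial (Fin m) R) :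
    cc p (expand p G * H) = G * cc p H := by
  classical
  induction G using MvPolynomial.induction_on' with
  | add G G' hG hG' => rw [map_add, add_mul, add_mul, map_add, hG, hG']
  | monomial a r =>
    ext v
    rw [cc_coeff hp, expand_monomial, coeff_monomial_mul', coeff_monomial_mul']
    by_cases h : a ≤ v
    · have h1 : p • a ≤ p • v + pm1 m p := fun i => by
        rw [cc_pm1, Finsupp.smul_apply, smul_eq_mul]
        exact (Nat.mul_le_mul_left p (h i)).trans (Nat.le_add_right _ _)
      have h2 : p • v + pm1 m p - p • a = p • (v - a) + pm1 m p := by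
        ext i
        rw [Finsupp.tsub_apply, cc_pm1, cc_pm1, Finsupp.smul_apply, smul_eq_mul,
          Finsupp.tsub_apply, Nat.mul_sub]
        have := Nat.mul_le_mul_left p (h i)
        omega
      rw [if_pos h, if_pos h1, h2, cc_coeff hp]
    · rw [if_neg h, if_neg]
      intro h1
      refine h fun i => ?_
      have h2 := h1 i
      rw [cc_pm1, Finsupp.smul_apply, smul_eq_mul] at h2
      by_contra h3
      have h4 : v i + 1 ≤ a i := by omega
      have h5 := Nat.mul_le_mul_left p h4
      rw [mul_add, mul_one] at h5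
      omega

private theorem cc_homog_aux {p : ℕ} (hp : 0 < p) {N N' : ℕ} (h : N' + m = p * (N + m))
    {v : Fin m →₀ ℕ} (h1 : ∑ i, (p • v + pm1 m p) i = N') : ∑ i, v i = N := by
  have h2 : ∑ i, (p • v + pm1 m p) i = p * ∑ i, v i + m * (p - 1) := by
    rw [Finset.sum_congr rfl fun i _ => cc_pm1 p v i, Finset.sum_add_distrib, Finset.mul_sum,
      Finset.sum_const, Finset.card_univ, Fintype.card_fin, smul_eq_mul]
  rw [h2] at h1
  have h3 : m * (p - 1) + m = p * m := by
    obtain ⟨q, rfl⟩ : ∃ q, p = q + 1 := ⟨p - 1, by omega⟩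
    rw [Nat.add_sub_cancel]
    ring
  have h4 : p * ∑ i, v i = p * N := by
    rw [mul_add] at h
    omega
  exact Nat.eq_of_mul_eq_mul_left hp h4

theorem cc_homog {p : ℕ} (hp : 0 < p) {P : MvPolynomial (Fin m) R} {N N' : ℕ}
    (hP : P.IsHomogeneous N') (h : N' + m = p * (N + m)) : (cc p P).IsHomogeneous N := by
  intro v hv
  rw [cc_coeff hp] at hv
  have h1 : (p • v + pm1 m p).degree = N' := by
    rw [Finsupp.degree_eq_weight_one]
    exact hP hv
  have h0 : v.degree = N := by
    rw [Finsupp.degree_eq_sum] at h1 ⊢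
    exact cc_homog_aux hp h h1
  rw [Finsupp.degree_eq_weight_one] at h0
  exact h0

theorem cc_monomial {p : ℕ} (hp : 0 < p) (v : Fin m →₀ ℕ) :
    cc p (monomial (p • v + pm1 m p) (1 : R)) = monomial v 1 := by
  classical
  ext v'
  rw [cc_coeff hp, coeff_monomial, coeff_monomial]
  by_cases h : v = v'
  · rw [if_pos h, if_pos (by rw [h])]
  · rw [if_neg h, if_neg fun h' => h (cc_inj hp h')]

theorem coeff_cder (D : Derivation ℤ R R) (P : MvPolynomial (Fin m) R) (e : Fin m →₀ ℕ) :
    coeff e (cder D P) = D (coeff e P) := by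
  classical
  unfold cder
  rw [coeff_sum]
  simp only [coeff_monomial]
  rw [Finset.sum_ite_eq']
  by_cases h : e ∈ P.support
  · rw [if_pos h]
  · rw [if_neg h, notMem_support_iff.1 h, map_zero]

theorem cder_add (D : Derivation ℤ R R) (P Q : MvPolynomial (Fin m) R) :
    cder D (P + Q) = cder D P + cder D Q := by
  ext e
  rw [coeff_cder, coeff_add, coeff_add, coeff_cder, coeff_cder, map_add]

theorem cder_mul (D : Derivation ℤ R R) (P Q : MvPolynomial (Fin m) R) :
    cder D (P * Q) = cder D P * Q + P * cder D Q := by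
  classical
  ext e
  rw [coeff_cder, coeff_add, coeff_mul, coeff_mul, coeff_mul, map_sum, ← Finset.sum_add_distrib]
  refine Finset.sum_congr rfl fun x _ => ?_
  rw [Derivation.leibniz, coeff_cder, coeff_cder, smul_eq_mul, smul_eq_mul]
  ring

theorem cder_monomial (D : Derivation ℤ R R) (e : Fin m →₀ ℕ) (a : R) :
    cder D (monomial e a) = monomial e (D a) := by
  classical
  ext e'
  rw [coeff_cder, coeff_monomial, coeff_monomial]
  split_ifs
  · rfl
  · exact map_zero _

/-- `cder` as a derivation. -/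
noncomputable def cderD (D : Derivation ℤ R R) :
    Derivation ℤ (MvPolynomial (Fin m) R) (MvPolynomial (Fin m) R) :=
  Derivation.mk' (AddMonoidHom.mk' (fun P => cder D P) (cder_add D)).toIntLinearMap
    (fun P Q => by
      show cder D (P * Q) = P • cder D Q + Q • cder D P
      rw [cder_mul, smul_eq_mul, smul_eq_mul]
      ring)

theorem cderD_apply (D : Derivation ℤ R R) (P : MvPolynomial (Fin m) R) :
    cderD D P = cder D P := rfl

theorem cc_cder {p : ℕ} (hp : 0 < p) (D : Derivation ℤ R R) (P : MvPolynomial (Fin m) R) :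
    cder D (cc p P) = cc p (cder D P) := by
  ext v
  rw [coeff_cder, cc_coeff hp, cc_coeff hp, coeff_cder]

theorem cder_map {S : Type*} [CommRing S] (φ : R →+* S) (D : Derivation ℤ R R)
    (D' : Derivation ℤ S S) (h : ∀ a, D' (φ a) = φ (D a)) (P : MvPolynomial (Fin m) R) :
    cder D' (P.map φ) = (cder D P).map φ := by
  ext e
  rw [coeff_cder, coeff_map, coeff_map, coeff_cder, h]

theorem Eci_neg (p : ℕ) [Fact p.Prime] [CharP R p] (F : MvPolynomial (Fin m) R) {N : ℤ}
    (hN : N < 0) : Eci p F N = 0 := by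
  unfold Eci
  rw [if_neg (not_le.2 hN)]

theorem Eci_zero (p : ℕ) [Fact p.Prime] [CharP R p] (F : MvPolynomial (Fin m) R) :
    Eci p F 0 = 1 := by
  unfold Eci
  rw [if_pos le_rfl, Int.toNat_zero, Ec_zero]

theorem Eci_map (p : ℕ) [Fact p.Prime] [CharP R p] {S : Type*} [CommRing S] [CharP S p]
    (φ : R →+* S) (F : MvPolynomial (Fin m) R) (N : ℤ) :
    Eci p (F.map φ) N = (Eci p F N).map φ := by
  unfold Eci
  split_ifs
  · exact Ec_map p φ F _
  · exact (map_zero _).symm

end MPadcBK
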