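import Pool.Agent.Lib.MP_adc574_ag_BK.CoreS
import Pool.Agent.Lib.MP_adc574_ag_HM.Irr

/-!
# JOB CoreG: all large primes

As `MPadcHM.core` (HM/Core.lean) from `core_seq`: suppose not; `exists_seq_of_primes` with the property `B p`: `¬ p.Prime ∨` for all `E`, `ψ` with `h^ψ ≠ 0` there is `j ∈ [1, J]` with `detg = 0` (write `B p := ∀ (hp : Fact p.Prime) (E : Type u) (_ : Field E) (_ : CharP E p) (_ : CharP (RatFunc E) p) (ψ : R →+* E), h.map ψ ≠ 0 →
∃ j, 1 ≤ j ∧ j ≤ J ∧ detg .. = 0`). Then `core_seqG` with the instances from the sequence (`CharP (RatFunc (E i)) (p i)`: `charP_of_injective_algebraMap`) gives an index `i` which contradicts it. `hirr` of `core_seqG` from `IrrHyp` and `pdat_ok` (`wt (fun _ => 1) e = ∑ e i`).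
`irrHyp_of_lt`: `gm_irr` (HM/Irr.lean), `∑ i : Fin n, 1 = n < d`.
-/

set_option autoImplicit false

namespace MPadcBK

open MvPolynomial MPadcGM MPadcHM

universe u

/-- Irreducibility of all Gauss-Manin modules of degree `d` pencils (weights 1). -/
def IrrHyp (n d : ℕ) : Prop :=
  ∀ (κ : Type u) [Field κ] [CharZero κ] (S : Dat κ n), S.Ok → (S.w = fun _ => 1) → S.d = d →
    GMIrr S

theorem irrHyp_of_lt {n d : ℕ} (hn : 2 ≤ n) (hd : n < d) : IrrHyp.{u} n d := by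
  intro κ _ _ S hS hw hd'
  refine gm_irr hn S hS ?_
  rw [hw, hd']
  simpa using hd

theorem coreG {R : Type u} [CommRing R] [IsDomain R] [CharZero R] [Algebra.FiniteType ℤ R]
    {n : ℕ} (hn : 2 ≤ n) (d : ℕ) (hd : 2 ≤ d) (hirr : IrrHyp.{u} n d)
    (Φ : MvPolynomial (Fin (n + 1)) R) (hΦ : Φ.IsHomogeneous d) (M : ℕ)
    (hjac : ∀ e : Fin n →₀ ℕ, M ≤ ∑ i, e i → monomial e (1 : R) ∈ Jac (bdr Φ))
    (ξ : Fin n → Polynomial R) (hξ : ∀ j, X j - Polynomial.aeval (aff Φ) (ξ j) ∈ Jac (aff Φ))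
    (δ : Polynomial R) (hδ : Polynomial.aeval (aff Φ) δ ∈ Jac (aff Φ)) (hsep : δ.Separable)
    (U : Finset (Fin n →₀ ℕ))
    (hU : IsMB (fun _ => 1) (bdr (Φ.map (algebraMap R (FractionRing R)))) U) (J : ℕ)
    (c : ∀ j, Vs U d j → (Fin (n + 1) →₀ ℕ) → Polynomial R) (hc : ℕ → Polynomial R)
    (hc0 : ∀ j, hc j ≠ 0) (hC : ∀ j, CData d j (peq d Φ) (fun v : Vs U d j => gu d v.1)
      (fun v => lvu d v.1) (c j) (hc j)) (h : Polynomial R) (hh : h ≠ 0) :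
    ∃ p₀ : ℕ, ∀ (p : ℕ) [Fact p.Prime], p₀ < p →
      ∃ (E : Type u) (_ : Field E) (_ : CharP E p) (_ : CharP (RatFunc E) p) (ψ : R →+* E),
        h.map ψ ≠ 0 ∧ ∀ j, 1 ≤ j → j ≤ J →
          detg p ((peq d Φ).map (pred ψ)) U d j (fun v e => pred ψ (c j v e)) ≠ 0 := by
  by_contra hcon
  push Not at hcon
  obtain ⟨p, E, hE, hchar, ψ, hp, hψ⟩ := exists_seq_of_primes (R := R)
    (fun p => ∀ (_ : Fact p.Prime) (E : Type u) (_ : Field E) (_ : CharP E p)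
      (_ : CharP (RatFunc E) p) (ψ : R →+* E), h.map ψ ≠ 0 →
      ∃ j, 1 ≤ j ∧ j ≤ J ∧
        detg p ((peq d Φ).map (pred ψ)) U d j (fun v e => pred ψ (c j v e)) = 0)
    (fun N => by
      obtain ⟨p, hpf, h1, h2⟩ := hcon N
      exact ⟨p, hpf.out, h1, fun _ => h2⟩)
  have hpf : ∀ i, Fact (p i).Prime := fun i => ⟨(hp i).1⟩
  have hchar' : ∀ i, CharP (RatFunc (E i)) (p i) := fun i =>
    charP_of_injective_algebraMap (algebraMap (E i) (RatFunc (E i))).injective (p i)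
  have hcons : (Fin.cons 1 (fun _ : Fin n => 1) : Fin (n + 1) → ℕ) = 1 := by
    funext i
    refine Fin.cases ?_ (fun j => ?_) i
    · rfl
    · rfl
  obtain ⟨i, hi1, hi2⟩ := core_seqG hn d hd Φ hΦ M hjac ξ hξ δ hδ hsep U hU J c hc hc0 hC p E ψ
    (fun i => (hp i).2.1) hψ (by
      intro Ul hcz _
      refine hirr (Ult Ul E) (pdat Ul (fun _ => 1) d Φ M δ ξ E ψ)
        (pdat_ok Ul (fun _ => 1) d Φ M δ ξ E ψ (fun _ => one_pos) (by omega) ?_ ?_ hξ hδ hsep) rfl rfl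
      · rw [hcons]
        exact hΦ
      · intro e he
        refine hjac e ?_
        unfold wt at he
        simpa using he) h hh
  obtain ⟨j, hj1, hj2, hj3⟩ := (hp i).2.2 (hpf i) (E i) (hE i) (hchar i) (hchar' i) (ψ i) hi1
  exact hi2 j hj1 hj2 hj3

end MPadcBK
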