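import Pool.Agent.Lib.MP_adc574_ag_BK.CoreS2

/-!
# JOB CoreG2: all large primes, arbitrary equation over `R[t]`

As `coreG` in `CoreG.lean` (complete, same directory) from `core_seq2`. `exists_seq_of_primes` gives fields `E i`; replace them by `AlgebraicClosure (E i)` (same universe, `CharP` by `charP_of_injective_algebraMap`), `ψ i` by the composition: the bad property is stated for all fields `E`. So `κ = Ult Ul E` is algebraically closed (`ult_isAlgClosed`) and `hkey` applies with `ρ = uphi Ul E ψ`.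
-/

set_option autoImplicit false

namespace MPadcBK

open MvPolynomial MPadcGM MPadcHM

universe u

theorem core2 {R : Type u} [CommRing R] [IsDomain R] [CharZero R] [Algebra.FiniteType ℤ R]
    {m : ℕ} (d : ℕ) (hd : 2 ≤ d)
    (F : MvPolynomial (Fin m) (Polynomial R)) (hF : F.IsHomogeneous d)
    (a : Polynomial R) (ha : a ≠ 0) (M : ℕ)
    (hsm : ∀ e : Fin m →₀ ℕ, M ≤ ∑ l, e l →
      C a * monomial e 1 ∈ Ideal.span (Set.range fun j => pderiv j F))
    (J : ℕ) (V : ℕ → Finset (Fin m →₀ ℕ))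
    (c : ∀ j, V j → (Fin m →₀ ℕ) → Polynomial R) (hc : ℕ → Polynomial R)
    (hc0 : ∀ j, hc j ≠ 0)
    (hC : ∀ j, CData d j F (fun v : V j => v.1) (fun v => tdg v.1 / d) (c j) (hc j))
    (hkey : ∀ (κ : Type u) [Field κ] [CharZero κ] [IsAlgClosed κ] (ρ : R →+* κ),
      Function.Injective ρ → Key κ d (F.map (pred ρ)))
    (h : Polynomial R) (hh : h ≠ 0) :
    ∃ p₀ : ℕ, ∀ (p : ℕ) [Fact p.Prime], p₀ < p →
      ∃ (E : Type u) (_ : Field E) (_ : CharP E p) (_ : CharP (RatFunc E) p) (ψ : R →+* E),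
        h.map ψ ≠ 0 ∧ ∀ j, 1 ≤ j → j ≤ J →
          dete p (F.map (pred ψ)) (V j) d (fun v e => pred ψ (c j v e)) ≠ 0 := by
  by_contra hcon
  push Not at hcon
  obtain ⟨p, E, hE, hchar, ψ, hp, hψ⟩ := exists_seq_of_primes (R := R)
    (fun p => ∀ (_ : Fact p.Prime) (E : Type u) (_ : Field E) (_ : CharP E p)
      (_ : CharP (RatFunc E) p) (ψ : R →+* E), h.map ψ ≠ 0 →
      ∃ j, 1 ≤ j ∧ j ≤ J ∧
        dete p (F.map (pred ψ)) (V j) d (fun v e => pred ψ (c j v e)) = 0)
    (fun N => by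
      obtain ⟨p, hpf, h1, h2⟩ := hcon N
      exact ⟨p, hpf.out, h1, fun _ => h2⟩)
  have hpf : ∀ i, Fact (p i).Prime := fun i => ⟨(hp i).1⟩
  have hcharA : ∀ i, CharP (AlgebraicClosure (E i)) (p i) := fun i =>
    charP_of_injective_algebraMap (algebraMap (E i) (AlgebraicClosure (E i))).injective (p i)
  have hchar' : ∀ i, CharP (RatFunc (AlgebraicClosure (E i))) (p i) := fun i =>
    charP_of_injective_algebraMap
      (algebraMap (AlgebraicClosure (E i)) (RatFunc (AlgebraicClosure (E i)))).injective (p i)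
  obtain ⟨i, hi1, hi2⟩ := core_seq2 d hd F hF a ha M hsm J V c hc hc0 hC p
    (fun i => AlgebraicClosure (E i))
    (fun i => (algebraMap (E i) (AlgebraicClosure (E i))).comp (ψ i))
    (fun i => (hp i).2.1) (by
      intro x hx
      obtain ⟨m, hm⟩ := hψ x hx
      refine ⟨m, fun i hi => ?_⟩
      rw [RingHom.comp_apply, Ne, map_eq_zero]
      exact hm i hi) (by
      intro Ul hcz hinj
      have hac : IsAlgClosed (Ult Ul fun i => AlgebraicClosure (E i)) :=
        ult_isAlgClosed Ul _ fun i => inferInstance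
      exact hkey _ _ hinj) h hh
  obtain ⟨j, hj1, hj2, hj3⟩ := (hp i).2.2 (hpf i) (AlgebraicClosure (E i)) inferInstance (hcharA i)
    (hchar' i) ((algebraMap (E i) (AlgebraicClosure (E i))).comp (ψ i)) hi1
  exact hi2 j hj1 hj2 hj3

end MPadcBK
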