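import Pool.Agent.Lib.MP_adc574_ag_BK.Gam
import Pool.Agent.Lib.MP_adc574_ag_HM.PUlt

/-!
# JOB UGam: the ultraproduct of the functionals `gam`

`A₀` a ring, `φ i : A₀ → κ i` homomorphisms to fields of characteristics `p i` (`hlarge`: they tend to infinity along `U`), `F ∈ A₀[x]` homogeneous of degree `d` with coordinate data `c`, `h` over `A₀`; `φ i h ≠ 0` for almost all `i`. `L = Ult U κ`.
`ug v k (x^e)` = class of `gam (p i) (F.map (φ i)) (φ i ∘ c) lv v k (x^e)`. See `MP_adc574_ag_GM/UPer.lean` and `MP_adc574_ag_HM/PUlt.lean` for the same arguments.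
* `ug_poly`: as `uper_poly`.
* `ug_exa`: by linearity `Q = x^e` (`MvPolynomial.induction_on'`), `ug_poly` for `x^e * ∂_j F` and `∂_j x^e`, and `gam_exa` for `CData.map` (`J < p i` for almost all `i`).
* `ug_der`: `gam_der` divided by `φ_i(h)^(p i)`; `ν v v'` = class of `- (if lv v' + 1 = lv v then ell (c^p) v (vB (p i) (δ i) (F.map φ_i) * x^(g v')) else 0) / φ_i(h)^(p i)`; `cder (δ i) (F.map (φ i)) = (cder D F).map (φ i)` (`cder_map`).
* `ug_indep`: as `uper_indep_at`: lift `lam`, finitely many `e` of level `k₀` (`∑ e` is bounded), `gam_indep`.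
-/

set_option autoImplicit false

namespace MPadcBK

open MvPolynomial MPadcGM MPadcHM

universe u

variable {I : Type} (U : Ultrafilter I) (κ : I → Type u) [∀ i, Field (κ i)] (p : I → ℕ)
  [hp : ∀ i, Fact (p i).Prime] [hchar : ∀ i, CharP (κ i) (p i)]
  {A₀ : Type u} [CommRing A₀] {m : ℕ} (F : MvPolynomial (Fin m) A₀) (φ : ∀ i, A₀ →+* κ i)
  {V : Type} [Fintype V] [DecidableEq V] (g : V → Fin m →₀ ℕ) (lv : V → ℕ)
  (c : V → (Fin m →₀ ℕ) → A₀)

/-- The ultraproduct of the functionals `gam`. -/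
noncomputable def ug (v : V) (k : ℕ) : MvPolynomial (Fin m) (Ult U κ) →ₗ[Ult U κ] Ult U κ :=
  (MvPolynomial.basisMonomials (Fin m) (Ult U κ)).constr (Ult U κ)
    fun e => ultMk U κ fun i =>
      gam (p i) (F.map (φ i)) (fun v e => φ i (c v e)) lv v k (monomial e 1)

theorem ug_monomial (v : V) (k : ℕ) (e : Fin m →₀ ℕ) :
    ug U κ p F φ lv c v k (monomial e 1) = ultMk U κ fun i =>
      gam (p i) (F.map (φ i)) (fun v e => φ i (c v e)) lv v k (monomial e 1) := by
  have h := (MvPolynomial.basisMonomials (Fin m) (Ult U κ)).constr_basis (Ult U κ)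
    (fun e => ultMk U κ fun i =>
      gam (p i) (F.map (φ i)) (fun v e => φ i (c v e)) lv v k (monomial e 1)) e
  rw [coe_basisMonomials] at h
  exact h

theorem ug_poly (v : V) (k : ℕ) (P : MvPolynomial (Fin m) A₀) :
    ug U κ p F φ lv c v k (P.map (uphi U κ φ)) = ultMk U κ fun i =>
      gam (p i) (F.map (φ i)) (fun v e => φ i (c v e)) lv v k (P.map (φ i)) := by
  induction P using MvPolynomial.induction_on' with
  | monomial e a =>
    have h1 : (monomial e a).map (uphi U κ φ) = (uphi U κ φ a) • monomial e (1 : Ult U κ) := by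
      rw [map_monomial, smul_monomial, smul_eq_mul, mul_one]
    have h2 : ∀ i, gam (p i) (F.map (φ i)) (fun v e => φ i (c v e)) lv v k
        ((monomial e a).map (φ i)) =
        φ i a * gam (p i) (F.map (φ i)) (fun v e => φ i (c v e)) lv v k (monomial e 1) := by
      intro i
      have h3 : (monomial e a).map (φ i) = (φ i a) • monomial e (1 : κ i) := by
        rw [map_monomial, smul_monomial, smul_eq_mul, mul_one]
      rw [h3, map_smul, smul_eq_mul]
    rw [h1, map_smul, smul_eq_mul, ug_monomial, uphi_apply, ← map_mul]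
    refine congrArg (ultMk U κ) ?_
    funext i
    rw [Pi.mul_apply]
    exact (h2 i).symm
  | add P Q hP hQ =>
    rw [map_add, map_add, hP, hQ, ← map_add]
    refine congrArg (ultMk U κ) ?_
    funext i
    rw [Pi.add_apply, ← map_add, ← map_add]

variable {d J : ℕ} {h : A₀} (hC : CData d J F g lv c h)
  (hlarge : ∀ n : ℕ, ∀ᶠ i in (U : Filter I), n < p i)

include hC hlarge

theorem ug_exa (v : V) {k : ℕ} (hk : 1 ≤ k) (j : Fin m) (Q : MvPolynomial (Fin m) (Ult U κ)) :
    ug U κ p F φ lv c v (k + 1) (Q * pderiv j (F.map (uphi U κ φ))) =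
      ug U κ p F φ lv c v k (pderiv j Q) := by
  induction Q using MvPolynomial.induction_on' with
  | monomial e a =>
    have hsm : monomial e a = a • monomial e (1 : Ult U κ) := by
      rw [smul_monomial, smul_eq_mul, mul_one]
    rw [hsm, smul_mul_assoc, Derivation.map_smul, map_smul, map_smul]
    refine congrArg (fun z => a • z) ?_
    have h1 : monomial e (1 : Ult U κ) * pderiv j (F.map (uphi U κ φ)) =
        (monomial e (1 : A₀) * pderiv j F).map (uphi U κ φ) := by
      rw [map_mul, monomial_one_map, pderiv_map]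
    have h2 : pderiv j (monomial e (1 : Ult U κ)) =
        (pderiv j (monomial e (1 : A₀))).map (uphi U κ φ) := by
      rw [← pderiv_map, monomial_one_map]
    rw [h1, h2, ug_poly, ug_poly, ultMk_eq]
    filter_upwards [hlarge J] with i hi
    rw [map_mul, monomial_one_map, ← pderiv_map, ← pderiv_map, monomial_one_map]
    exact gam_exa (p i) (hC.map (φ i)) hi v hk j (monomial e 1)
  | add P Q hP hQ =>
    rw [add_mul, map_add, map_add, map_add, hP, hQ]

theorem ug_der (hF : F.IsHomogeneous d) (hh : ∀ᶠ i in (U : Filter I), φ i h ≠ 0)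
    (D : Derivation ℤ A₀ A₀) (δ : ∀ i, Derivation ℤ (κ i) (κ i))
    (hδ : ∀ i a, δ i (φ i a) = φ i (D a)) (Δ : Derivation ℤ (Ult U κ) (Ult U κ))
    (hΔ : ∀ x : ∀ i, κ i, Δ (ultMk U κ x) = ultMk U κ fun i => δ i (x i)) :
    ∃ ν : Matrix V V (Ult U κ), ∀ (v : V) (k : ℕ), 1 ≤ k → ∀ e : Fin m →₀ ℕ, tdg e = k * d →
      Δ (ug U κ p F φ lv c v k (monomial e 1)) =
        - ug U κ p F φ lv c v (k + 1) ((cder D F).map (uphi U κ φ) * monomial e 1) +
        ∑ v', ν v v' * ug U κ p F φ lv c v' k (monomial e 1) := by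
  let nu : V → V → ∀ i, κ i := fun v v' i =>
    -((if lv v' + 1 = lv v then ell (fun v e => φ i (c v e) ^ p i) v
      (vB (p i) (δ i) (F.map (φ i)) * monomial (g v') 1) else 0) / φ i h ^ p i)
  refine ⟨fun v v' => ultMk U κ (nu v v'), ?_⟩
  intro v k hk e he
  have h1 : (cder D F).map (uphi U κ φ) * monomial e (1 : Ult U κ) =
      (cder D F * monomial e (1 : A₀)).map (uphi U κ φ) := by
    rw [map_mul, monomial_one_map]
  have h2 : ∑ v', ultMk U κ (nu v v') * ug U κ p F φ lv c v' k (monomial e 1) =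
      ultMk U κ fun i => ∑ v', nu v v' i *
        gam (p i) (F.map (φ i)) (fun v e => φ i (c v e)) lv v' k (monomial e 1) := by
    have h3 : (fun i => ∑ v', nu v v' i *
        gam (p i) (F.map (φ i)) (fun v e => φ i (c v e)) lv v' k (monomial e 1)) =
        ∑ v', nu v v' * (fun i =>
          gam (p i) (F.map (φ i)) (fun v e => φ i (c v e)) lv v' k (monomial e 1)) := by
      funext i
      rw [Finset.sum_apply]
      rfl
    rw [h3, map_sum]
    refine Finset.sum_congr rfl fun v' _ => ?_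
    rw [map_mul, ug_monomial]
  have h4 : (-ultMk U κ fun i => gam (p i) (F.map (φ i)) (fun v e => φ i (c v e)) lv v
        ((k + 1 : ℕ)) ((cder D F * monomial e (1 : A₀)).map (φ i))) +
      ultMk U κ (fun i => ∑ v', nu v v' i *
        gam (p i) (F.map (φ i)) (fun v e => φ i (c v e)) lv v' k (monomial e 1)) =
      ultMk U κ fun i =>
        δ i (gam (p i) (F.map (φ i)) (fun v e => φ i (c v e)) lv v k (monomial e 1)) := by
    rw [← map_neg, ← map_add, ultMk_eq]
    filter_upwards [hh, hlarge J] with i hi1 hi2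
    rw [Pi.add_apply, Pi.neg_apply]
    have hh0 : φ i h ^ p i ≠ 0 := pow_ne_zero _ hi1
    have h5 := gam_der (p i) (hF.map (φ i)) (hC.map (φ i)) hi2 (δ i) v hk e he
    have h6 : (cder D F * monomial e (1 : A₀)).map (φ i) =
        cder (δ i) (F.map (φ i)) * monomial e (1 : κ i) := by
      rw [map_mul, monomial_one_map, cder_map (φ i) D (δ i) (hδ i)]
    rw [h6]
    refine mul_left_cancel₀ hh0 ?_
    rw [h5, mul_add, Finset.mul_sum, sub_eq_add_neg, ← Finset.sum_neg_distrib]
    have h7 : ∀ v', φ i h ^ p i * (nu v v' i *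
        gam (p i) (F.map (φ i)) (fun v e => φ i (c v e)) lv v' k (monomial e 1)) =
        -((if lv v' + 1 = lv v then ell (fun v e => φ i (c v e) ^ p i) v
          (vB (p i) (δ i) (F.map (φ i)) * monomial (g v') 1) else 0) *
          gam (p i) (F.map (φ i)) (fun v e => φ i (c v e)) lv v' k (monomial e 1)) := by
      intro v'
      change φ i h ^ p i * (-(_ / φ i h ^ p i) * _) = _
      rw [neg_mul, mul_neg, ← mul_assoc, mul_div_cancel₀ _ hh0]
    rw [Finset.sum_congr rfl fun v' _ => h7 v']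
    rw [mul_neg, neg_mul]
  rw [ug_monomial, hΔ, h1, ug_poly, h2]
  exact h4.symm

theorem ug_indep (hd : 1 ≤ d) (hF : F.IsHomogeneous d)
    (hh : ∀ᶠ i in (U : Filter I), φ i h ≠ 0) {M k₀ : ℕ}
    (hM : ∀ᶠ i in (U : Filter I), ∀ e : Fin m →₀ ℕ, M ≤ ∑ l, e l → monomial e (1 : κ i) ∈
      Ideal.span (Set.range fun j => pderiv j (F.map (φ i))))
    (hk : 1 ≤ k₀) (hMk : M + m ≤ k₀ * d) (lam : V → Ult U κ)
    (hlam : ∀ e : Fin m →₀ ℕ, tdg e = k₀ * d →
      ∑ v, lam v * ug U κ p F φ lv c v k₀ (monomial e 1) = 0) : lam = 0 := by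
  choose la hla using fun v => ultMk_surjective U κ (lam v)
  have hfin : {e : Fin m →₀ ℕ | tdg e = k₀ * d}.Finite := by
    refine (Set.finite_Icc (0 : Fin m →₀ ℕ)
      (Finsupp.equivFunOnFinite.symm fun _ => k₀ * d)).subset ?_
    intro e he
    have he' : ∑ i, (e i + 1) = k₀ * d := he
    refine ⟨zero_le, fun l => ?_⟩
    have h1 : e l + 1 ≤ ∑ i, (e i + 1) :=
      Finset.single_le_sum (f := fun i => e i + 1) (fun i _ => Nat.zero_le _) (Finset.mem_univ l)
    have h2 : e l ≤ k₀ * d := by omega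
    exact h2
  have h1 : ∀ e ∈ {e : Fin m →₀ ℕ | tdg e = k₀ * d}, ∀ᶠ i in (U : Filter I),
      ∑ v, la v i * gam (p i) (F.map (φ i)) (fun v e => φ i (c v e)) lv v k₀ (monomial e 1) = 0 := by
    intro e he
    have h2 := hlam e he
    simp only [ug_monomial] at h2
    have h3 : ultMk U κ (fun i => ∑ v, la v i *
        gam (p i) (F.map (φ i)) (fun v e => φ i (c v e)) lv v k₀ (monomial e 1)) = 0 := by
      rw [← h2]
      have h4 : (fun i => ∑ v, la v i *
          gam (p i) (F.map (φ i)) (fun v e => φ i (c v e)) lv v k₀ (monomial e 1)) =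
          ∑ v, la v * (fun i =>
            gam (p i) (F.map (φ i)) (fun v e => φ i (c v e)) lv v k₀ (monomial e 1)) := by
        funext i
        rw [Finset.sum_apply]
        rfl
      rw [h4, map_sum]
      refine Finset.sum_congr rfl fun v _ => ?_
      rw [map_mul, hla v]
    exact (ultMk_eq_zero U κ _).1 h3
  have h5 : ∀ᶠ i in (U : Filter I), ∀ e ∈ {e : Fin m →₀ ℕ | tdg e = k₀ * d},
      ∑ v, la v i * gam (p i) (F.map (φ i)) (fun v e => φ i (c v e)) lv v k₀ (monomial e 1) = 0 :=
    (Filter.eventually_all_finite hfin).2 h1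
  funext v
  rw [← hla v, Pi.zero_apply, ultMk_eq_zero]
  filter_upwards [hh, hM, h5, hlarge J, hlarge k₀] with i hi1 hi2 hi3 hi4 hi5
  have h6 := gam_indep (p i) hd (hF.map (φ i)) (hC.map (φ i)) hi1 hi4 hi2 hk hi5.le hMk
    (fun v => la v i) (fun e he => hi3 e he)
  exact congrFun h6 v

end MPadcBK
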