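import Pool.Agent.Lib.MP_adc574_ag_BK.ThCG
import Pool.Agent.Lib.MP_adc574_ag_BK.UGam
import Pool.Agent.Lib.MP_adc574_ag_HM.Core

/-!
# JOB CoreS: determinants modulo `p` (ultraproduct)

`detg` is the determinant of the matrix of the functionals `gam`. Follow the proof of `MPadcHM.core_seq` (HM/CoreGen.lean).
By contradiction: for all `i` with `h^(ψ i) ≠ 0` there is `j ∈ [1, J]` with `detg j = 0`. `Ultra = Filter.hyperfilter ℕ`; for almost all `i` `h^(ψ i) ≠ 0`, so (finite union, ultrafilter) there is a fixed `j ∈ [1, J]` with `detg (p i) (..) U d j (..) = 0` for almost all `i`.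
Let `κ = Ult E`, `L = Ult (RatFunc E_i)`, the embedding `RatFunc κ → L` (`exists_ultRat`, algebraically closed), `DL` from `exists_ultD`, `hD` (`DK_unique`) as in `core_seq`. `S = pdat U (fun _ => 1) d Φ M δ ξ E ψ` (`pdat_ok`). `Φ' = Φ.map (uphi Ultra E ψ)` over `κ`: `aff Φ' = S.φ` (`aff_map`).
`F = peq d Φ` over `A₀ = R[t]`, `φ i = pred (ψ i)`. `F.map (uphi ..) = (FK Φ' d).map (algebraMap (RatFunc κ) L)` (as `heqn` in `core_seq`). `hUκ : IsMB (fun _ => 1) (bdr Φ') U`: from `hU` over `FractionRing R` by the ring homomorphism `FractionRing R → κ` (lift of the injective `uphi`), `IsMB_map` (make it an algebra) and `bdr_map`.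
`C v k = ug Ultra (fun i => RatFunc (E i)) p F φ lv (c j) v k`, `ug_exa`, `ug_der` with `D = Polynomial.derivative` (as in `core_seq`; `cder D F = - X 0 ^ d`), `ug_indep` at one level `k₀` with `M' + (n+1) ≤ k₀ d` (`peq_jac` gives `M'`), `hh` since `h_j ≠ 0` in `R[t]` (`pred_ne_zero`).
`theoremCG` gives: `det (C v (lvu u) (x^(gu u))) ≠ 0`, but it is the class of the family `detg` (`ug_monomial`, `RingHom.map_det` as in `core_seq`), which is 0 for almost all `i`.
-/

set_option autoImplicit false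

namespace MPadcBK

open MvPolynomial MPadcGM MPadcHM

universe u

/-- The determinant of the functionals `gam`. -/
noncomputable def detg (p : ℕ) [Fact p.Prime] {R : Type*} [CommRing R] [CharP R p] {n : ℕ}
    (F : MvPolynomial (Fin (n + 1)) R) (U : Finset (Fin n →₀ ℕ)) (d j : ℕ)
    (c : Vs U d j → (Fin (n + 1) →₀ ℕ) → R) : R :=
  (Matrix.of fun v u : Vs U d j => gam p F c (fun v => lvu d v.1) v (lvu d u.1)
    (monomial (gu d u.1) 1)).det

theorem detg_map (p : ℕ) [Fact p.Prime] {R : Type*} [CommRing R] [CharP R p] {S : Type*}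
    [CommRing S] [CharP S p] (φ : R →+* S) {n : ℕ}
    (F : MvPolynomial (Fin (n + 1)) R) (U : Finset (Fin n →₀ ℕ)) (d j : ℕ)
    (c : Vs U d j → (Fin (n + 1) →₀ ℕ) → R) :
    detg p (F.map φ) U d j (fun v e => φ (c v e)) = φ (detg p F U d j c) := by
  unfold detg
  rw [RingHom.map_det]
  apply congrArg
  ext v u
  rw [RingHom.mapMatrix_apply, Matrix.map_apply, Matrix.of_apply, Matrix.of_apply, ← gam_map,
    map_monomial, φ.map_one]

theorem detg_smul (p : ℕ) [Fact p.Prime] {R : Type*} [CommRing R] [CharP R p] {n : ℕ}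
    (F : MvPolynomial (Fin (n + 1)) R) (U : Finset (Fin n →₀ ℕ)) (d j : ℕ)
    (c : Vs U d j → (Fin (n + 1) →₀ ℕ) → R) (a : R) :
    detg p F U d j (fun v e => a * c v e) =
      (a ^ p) ^ (Fintype.card (Vs U d j)) * detg p F U d j c := by
  unfold detg
  rw [← Matrix.det_smul]
  apply congrArg
  ext v u
  rw [Matrix.smul_apply, Matrix.of_apply, Matrix.of_apply, smul_eq_mul, gam_apply, gam_apply,
    ell_eq_sum, ell_eq_sum, Finset.mul_sum]
  refine Finset.sum_congr rfl fun e _ => ?_
  rw [mul_pow]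
  ring

private theorem cores_MB {R : Type u} [CommRing R] [IsDomain R] {K : Type u} [Field K]
    (f : R →+* K) (hf : Function.Injective f) {n : ℕ} (g : MvPolynomial (Fin n) R)
    (U : Finset (Fin n →₀ ℕ)) (hU : IsMB (fun _ => 1) (g.map (algebraMap R (FractionRing R))) U) :
    IsMB (fun _ => 1) (g.map f) U := by
  let _ : Algebra (FractionRing R) K := (IsFractionRing.lift hf : FractionRing R →+* K).toAlgebra
  have h1 := IsMB_map (κ' := K) (fun _ => 1) _ U hU
  rw [map_map] at h1
  have h2 : (algebraMap (FractionRing R) K).comp (algebraMap R (FractionRing R)) = f := by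
    apply RingHom.ext
    intro r
    rw [RingHom.comp_apply, RingHom.algebraMap_toAlgebra, IsFractionRing.lift_algebraMap]
  rw [h2] at h1
  exact h1

private theorem cores_neg {L : Type u} [Field L] {m : ℕ} (f : MvPolynomial (Fin m) L →ₗ[L] L)
    (P Q : MvPolynomial (Fin m) L) : -(f (-P * Q)) = f (P * Q) := by
  rw [neg_mul, map_neg, neg_neg]

theorem core_seqG {R : Type u} [CommRing R] [IsDomain R] [CharZero R]
    {n : ℕ} (hn : 2 ≤ n) (d : ℕ) (hd : 2 ≤ d)
    (Φ : MvPolynomial (Fin (n + 1)) R) (hΦ : Φ.IsHomogeneous d) (M : ℕ)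
    (hjac : ∀ e : Fin n →₀ ℕ, M ≤ ∑ i, e i → monomial e (1 : R) ∈ Jac (bdr Φ))
    (ξ : Fin n → Polynomial R) (hξ : ∀ j, X j - Polynomial.aeval (aff Φ) (ξ j) ∈ Jac (aff Φ))
    (δ : Polynomial R) (hδ : Polynomial.aeval (aff Φ) δ ∈ Jac (aff Φ)) (hsep : δ.Separable)
    (U : Finset (Fin n →₀ ℕ))
    (hU : IsMB (fun _ => 1) (bdr (Φ.map (algebraMap R (FractionRing R)))) U) (J : ℕ)
    (c : ∀ j, Vs U d j → (Fin (n + 1) →₀ ℕ) → Polynomial R) (hc : ℕ → Polynomial R)
    (hc0 : ∀ j, hc j ≠ 0) (hC : ∀ j, CData d j (peq d Φ) (fun v : Vs U d j => gu d v.1)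
      (fun v => lvu d v.1) (c j) (hc j))
    (p : ℕ → ℕ) (E : ℕ → Type u) [hE : ∀ i, Field (E i)] [hchar : ∀ i, CharP (E i) (p i)]
    [hpf : ∀ i, Fact (p i).Prime] [hchar' : ∀ i, CharP (RatFunc (E i)) (p i)]
    (ψ : ∀ i, R →+* E i) (hp : ∀ i, i < p i)
    (hψ : ∀ x : R, x ≠ 0 → ∃ m, ∀ i, m ≤ i → ψ i x ≠ 0)
    (hirr : ∀ Ul : Ultrafilter ℕ, CharZero (Ult Ul E) → Function.Injective (uphi Ul E ψ) →
      GMIrr (pdat Ul (fun _ => 1) d Φ M δ ξ E ψ))
    (h : Polynomial R) (hh : h ≠ 0) :
    ∃ i, h.map (ψ i) ≠ 0 ∧ ∀ j, 1 ≤ j → j ≤ J →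
      detg (p i) ((peq d Φ).map (pred (ψ i))) U d j (fun v e => pred (ψ i) (c j v e)) ≠ 0 := by
  by_contra hcon
  push Not at hcon
  let U0 : Ultrafilter ℕ := Filter.hyperfilter ℕ
  have hge : ∀ m : ℕ, ∀ᶠ i in (U0 : Filter ℕ), m ≤ i := by
    intro m
    apply Filter.hyperfilter_le_cofinite
    rw [Filter.mem_cofinite]
    refine (Set.finite_lt_nat m).subset ?_
    intro i hi
    simp only [Set.mem_compl_iff, Set.mem_ofPred_eq, not_le] at hi
    exact hi
  have hlarge : ∀ m : ℕ, ∀ᶠ i in (U0 : Filter ℕ), m < p i := by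
    intro m
    filter_upwards [hge m] with i hi
    exact lt_of_le_of_lt hi (hp i)
  have hne : ∀ x : R, x ≠ 0 → ∀ᶠ i in (U0 : Filter ℕ), ψ i x ≠ 0 := by
    intro x hx
    obtain ⟨m, hm⟩ := hψ x hx
    filter_upwards [hge m] with i hi
    exact hm i hi
  have hρ : Function.Injective (uphi U0 E ψ) := by
    rw [injective_iff_map_eq_zero]
    intro x hx
    by_contra hx0
    rw [uphi_apply, ultMk_eq_zero] at hx
    obtain ⟨i, hi1, hi2⟩ := (hx.and (hne x hx0)).exists
    exact hi2 hi1
  have hcz : CharZero (Ult U0 E) := charZero_of_injective_ringHom hρ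
  have hφne : ∀ a : Polynomial R, a ≠ 0 → ∀ᶠ i in (U0 : Filter ℕ), pred (ψ i) a ≠ 0 := by
    intro a ha
    obtain ⟨l, hl⟩ : ∃ l, a.coeff l ≠ 0 := by
      by_contra hc
      push Not at hc
      exact ha (Polynomial.ext fun l => by rw [hc, Polynomial.coeff_zero])
    filter_upwards [hne _ hl] with i hi
    exact pred_ne_zero (ψ i) hi
  -- one value of `j`
  have hev : ∀ᶠ i in (U0 : Filter ℕ), ∃ j ∈ Set.Icc 1 J,
      detg (p i) ((peq d Φ).map (pred (ψ i))) U d j (fun v e => pred (ψ i) (c j v e)) = 0 := by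
    obtain ⟨l, hl⟩ : ∃ l, h.coeff l ≠ 0 := by
      by_contra hc'
      push Not at hc'
      exact hh (Polynomial.ext fun l => by rw [hc', Polynomial.coeff_zero])
    filter_upwards [hne _ hl] with i hi
    obtain ⟨j, h1, h2, h3⟩ := hcon i (by
      intro h0
      apply hi
      rw [← Polynomial.coeff_map, h0, Polynomial.coeff_zero])
    exact ⟨j, ⟨h1, h2⟩, h3⟩
  rw [Ultrafilter.eventually_exists_mem_iff (Set.finite_Icc 1 J)] at hev
  obtain ⟨j, -, hdet0⟩ := hev
  -- the embedding of the rational functions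
  obtain ⟨jj, hjC, hjX, hjcl⟩ := exists_ultRat U0 E
  let _ : Algebra (RatFunc (Ult U0 E)) (Ult U0 fun i => RatFunc (E i)) := jj.toAlgebra
  have hjalg : ∀ x, algebraMap (RatFunc (Ult U0 E)) (Ult U0 fun i => RatFunc (E i)) x = jj x :=
    fun x => rfl
  -- the derivation
  obtain ⟨DL, hDL⟩ := exists_ultD U0 (fun i => RatFunc (E i))
    (fun i => mkz (DK (E i)).toLinearMap.toAddMonoidHom (DK_mul (E i)))
  have hD : ∀ x, DL (algebraMap (RatFunc (Ult U0 E)) (Ult U0 fun i => RatFunc (E i)) x) =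
      algebraMap (RatFunc (Ult U0 E)) (Ult U0 fun i => RatFunc (E i)) (DK (Ult U0 E) x) := by
    intro x
    rw [hjalg, hjalg]
    refine DK_unique (Ult U0 E) jj DL ?_ ?_ x
    · intro a
      obtain ⟨y, rfl⟩ := ultMk_surjective U0 E a
      rw [hjC]
      refine (hDL _).trans ?_
      rw [ultMk_eq_zero]
      exact Filter.Eventually.of_forall fun i => DK_C (E i) (y i)
    · rw [hjX]
      refine (hDL _).trans ?_
      have h1 : (fun i => mkz (DK (E i)).toLinearMap.toAddMonoidHom (DK_mul (E i)) RatFunc.X) =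
          1 := by
        funext i
        exact DK_X (E i)
      rw [h1, map_one]
  -- weights
  have hcons : (Fin.cons 1 (fun _ => 1) : Fin (n + 1) → ℕ) = 1 := by
    funext i
    exact Fin.cases rfl (fun _ => rfl) i
  have hΦw : Φ.IsWeightedHomogeneous (Fin.cons 1 (fun _ => 1) : Fin (n + 1) → ℕ) d := by
    rw [hcons]
    exact hΦ
  have hF : (peq d Φ).IsHomogeneous d := by
    have h1 := peq_homog (fun _ => 1) d Φ hΦw
    rw [hcons] at h1
    exact h1
  have hwt : ∀ e : Fin n →₀ ℕ, wt (fun _ => 1) e = ∑ i, e i := by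
    intro e
    unfold wt
    exact Finset.sum_congr rfl fun i _ => one_mul _
  have hjac' : ∀ e : Fin n →₀ ℕ, M ≤ wt (fun _ => 1) e → monomial e (1 : R) ∈ Jac (bdr Φ) := by
    intro e he
    rw [hwt] at he
    exact hjac e he
  have hδ0 : δ ≠ 0 := fun h0 => by
    rw [h0] at hsep
    exact Polynomial.not_separable_zero hsep
  obtain ⟨a, M', ha, hJ⟩ := peq_jac (fun _ => 1) (fun _ => Nat.one_pos) d (by omega) Φ hΦw M hjac'
    δ hδ0 hδ
  -- the equation
  have heqn : (peq d Φ).map (uphi U0 (fun i => RatFunc (E i)) fun i => pred (ψ i)) =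
      (FK (Φ.map (uphi U0 E ψ)) d).map
        (algebraMap (RatFunc (Ult U0 E)) (Ult U0 fun i => RatFunc (E i))) := by
    rw [peq, FK, map_sub, map_sub, map_mul, map_mul, map_C, map_C, map_pow, map_pow, map_X, map_X,
      map_map, map_map, map_map]
    have h1 : (uphi U0 (fun i => RatFunc (E i)) fun i => pred (ψ i)).comp Polynomial.C =
        (algebraMap (RatFunc (Ult U0 E)) (Ult U0 fun i => RatFunc (E i))).comp
          ((algebraMap (Ult U0 E) (RatFunc (Ult U0 E))).comp (uphi U0 E ψ)) := by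
      apply RingHom.ext
      intro r
      rw [RingHom.comp_apply, RingHom.comp_apply, RingHom.comp_apply, hjalg, uphi_apply, uphi_apply,
        hjC]
      apply congrArg
      funext i
      exact pred_C (ψ i) r
    have h2 : uphi U0 (fun i => RatFunc (E i)) (fun i => pred (ψ i)) Polynomial.X =
        algebraMap (RatFunc (Ult U0 E)) (Ult U0 fun i => RatFunc (E i)) RatFunc.X := by
      rw [hjalg, hjX, uphi_apply]
      apply congrArg
      funext i
      exact pred_X (ψ i)
    rw [h1, h2, RingHom.comp_assoc]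
  -- the basis
  have hUκ : IsMB (fun _ => 1) (bdr (Φ.map (uphi U0 E ψ))) U := by
    rw [bdr_map]
    refine cores_MB (uphi U0 E ψ) hρ (bdr Φ) U ?_
    rw [← bdr_map]
    exact hU
  let D : Derivation ℤ (Polynomial R) (Polynomial R) :=
    (Polynomial.derivative' (R := R)).restrictScalars ℤ
  have hDφ : ∀ i (x : Polynomial R), mkz (DK (E i)).toLinearMap.toAddMonoidHom (DK_mul (E i))
      (pred (ψ i) x) = pred (ψ i) (D x) := by
    intro i x
    change DK (E i) (algebraMap (Polynomial (E i)) (RatFunc (E i)) (x.map (ψ i))) =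
      algebraMap (Polynomial (E i)) (RatFunc (E i)) ((Polynomial.derivative x).map (ψ i))
    rw [DK_poly, Polynomial.derivative_map]
  have hDf : cder D (peq d Φ) = -X 0 ^ d := by
    ext e : 1
    rw [coeff_cder, peq, coeff_sub, coeff_map, coeff_C_mul, coeff_neg, map_sub]
    have h2 : D (Polynomial.C (coeff e Φ)) = 0 := Polynomial.derivative_C
    have h3 : D (Polynomial.X * coeff e (X 0 ^ d : MvPolynomial (Fin (n + 1)) (Polynomial R))) =
        coeff e (X 0 ^ d : MvPolynomial (Fin (n + 1)) (Polynomial R)) := by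
      rw [coeff_X_pow]
      split_ifs
      · rw [mul_one]
        exact Polynomial.derivative_X
      · rw [mul_zero, map_zero]
    exact (congrArg₂ (fun x y => x - y) h2 h3).trans (zero_sub _)
  have hh0 : ∀ᶠ i in (U0 : Filter ℕ), pred (ψ i) (hc j) ≠ 0 := hφne _ (hc0 j)
  obtain ⟨ν, hν⟩ := ug_der U0 (fun i => RatFunc (E i)) p (peq d Φ) (fun i => pred (ψ i))
    (fun v : Vs U d j => gu d v.1) (fun v => lvu d v.1) (c j) (hC j) hlarge hF hh0 D
    (fun i => mkz (DK (E i)).toLinearMap.toAddMonoidHom (DK_mul (E i))) hDφ DL hDL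
  have hdet := theoremCG hn (pdat U0 (fun _ => 1) d Φ M δ ξ E ψ)
    (pdat_ok U0 (fun _ => 1) d Φ M δ ξ E ψ (fun _ => Nat.one_pos) (by omega) hΦw hjac' hξ hδ hsep)
    rfl hd (hirr U0 hcz hρ) (Φ := Φ.map (uphi U0 E ψ)) (hΦ.map _) (aff_map _ _) (U := U) hUκ j DL
    hD ?_ (fun v k => ug U0 (fun i => RatFunc (E i)) p (peq d Φ) (fun i => pred (ψ i))
      (fun v : Vs U d j => lvu d v.1) (c j) v k) ?_ ν ?_ ?_
  · -- the determinant
    apply hdet
    change (Matrix.of fun v u : Vs U d j => ug U0 (fun i => RatFunc (E i)) p (peq d Φ)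
      (fun i => pred (ψ i)) (fun v : Vs U d j => lvu d v.1) (c j) v (lvu d u.1)
        (monomial (gu d u.1) 1)).det = 0
    have h1 : (Matrix.of fun v u : Vs U d j => ug U0 (fun i => RatFunc (E i)) p (peq d Φ)
        (fun i => pred (ψ i)) (fun v : Vs U d j => lvu d v.1) (c j) v (lvu d u.1)
          (monomial (gu d u.1) 1)) =
        (ultMk U0 fun i => RatFunc (E i)).mapMatrix
          (Matrix.of fun (v u : Vs U d j) (i : ℕ) =>
            gam (p i) ((peq d Φ).map (pred (ψ i))) (fun v e => pred (ψ i) (c j v e))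
              (fun v : Vs U d j => lvu d v.1) v (lvu d u.1) (monomial (gu d u.1) 1)) := by
      ext v u
      rw [Matrix.of_apply, ug_monomial]
      simp only [RingHom.mapMatrix_apply, Matrix.map_apply, Matrix.of_apply]
    rw [h1, ← RingHom.map_det, ultMk_eq_zero]
    filter_upwards [hdet0] with i hi
    have h3 := (Pi.evalRingHom (fun i => RatFunc (E i)) i).map_det
      (Matrix.of fun (v u : Vs U d j) (i : ℕ) =>
            gam (p i) ((peq d Φ).map (pred (ψ i))) (fun v e => pred (ψ i) (c j v e))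
              (fun v : Vs U d j => lvu d v.1) v (lvu d u.1) (monomial (gu d u.1) 1))
    rw [Pi.evalRingHom_apply] at h3
    rw [h3]
    exact hi
  · -- algebraically closed
    intro x hx
    obtain ⟨P, hP, hPx⟩ := hx
    rw [Polynomial.aeval_def] at hPx
    exact hjcl x P hP hPx
  · -- exact forms
    intro v k hk l Q
    change ug U0 (fun i => RatFunc (E i)) p (peq d Φ) (fun i => pred (ψ i))
      (fun v : Vs U d j => lvu d v.1) (c j) v (k + 1)
        (Q * pderiv l ((FK (Φ.map (uphi U0 E ψ)) d).map (algebraMap _ _))) = _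
    rw [← heqn]
    exact ug_exa U0 (fun i => RatFunc (E i)) p (peq d Φ) (fun i => pred (ψ i))
      (fun v : Vs U d j => gu d v.1) (fun v => lvu d v.1) (c j) (hC j) hlarge v hk l Q
  · -- derivation
    intro v k hk e he
    have h1 := hν v k hk e he
    rw [hDf, map_neg, map_pow, map_X] at h1
    exact h1.trans (congrArg₂ (fun x y => x + y) (cores_neg _ _ _) rfl)
  · -- independence
    intro lam hlam
    refine ug_indep U0 (fun i => RatFunc (E i)) p (peq d Φ) (fun i => pred (ψ i))
      (fun v : Vs U d j => gu d v.1) (fun v => lvu d v.1) (c j) (hC j) hlarge (by omega) hF hh0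
      (M := M') (k₀ := M' + (n + 1)) ?_ (by omega) (Nat.le_mul_of_pos_right _ (by omega)) lam
      (fun e he => hlam (M' + (n + 1)) (by omega) e he)
    filter_upwards [hφne a ha] with i hi e he
    refine hJ (pred (ψ i)) hi e ?_
    rw [hcons]
    refine he.trans (le_of_eq ?_)
    exact Finset.sum_congr rfl fun l _ => (one_mul _).symm

end MPadcBK
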