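import Pool.Agent.Lib.MP_adc574_ag_BK.KeyD
import Pool.Agent.Lib.MP_adc574_ag_BK.UGam
import Pool.Agent.Lib.MP_adc574_ag_HM.Core

/-!
# JOB CoreS2: determinants modulo `p` (ultraproduct), arbitrary equation over `R[t]`

This is the file `CoreS.lean` (complete, same directory: copy its proofs) for an arbitrary homogeneous `F ∈ R[t][x]` instead of `peq d Φ`, finite sets `V j` of exponents instead of `Vs U d j`, `lv v = tdg v / d`, `g v = v`, and with the property `Key` (KeyD.lean) instead of `theoremCG` + `GMIrr`.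
* `dete_map`, `dete_smul`: as `detg_map`, `detg_smul` in CoreS.
* `ult_isAlgClosed`: a monic polynomial of degree `n ≥ 1` over `Ult U κ` (`IsAlgClosed.of_exists_root`): lift the coefficients `a l`, `l < n`, to `κ i`; every `X^n + ∑ a l i X^l` has a root `x i`; `ultMk x` is a root.
* `core_seq2`: as `core_seqG`: `heqn` becomes: `F.map (uphi U0 (RatFunc E_i) (pred ψ_i)) = (F.map (pred (uphi U0 E ψ))).map (algebraMap (RatFunc κ) L)` (both sides are `F.map` of ring homomorphisms `R[t] → L` which agree on constants and on `t`: `Polynomial.ringHom_ext`; see `h1`, `h2` in CoreS). The derivation: `(cder D F).map (uphi ..) = (cder (DZ κ) (F.map (pred ρ))).map (algebraMap ..)`: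
  coefficientwise `DZ κ (pred ρ x) = DK κ (pred ρ x) = pred ρ (derivative x)` (`DZ_apply`) (`DK_poly`, `Polynomial.derivative_map`). Smoothness: `ug_indep` with `M' = M` and `k₀ = M + m + 1` (`hM` for almost all `i` from `hsm` and `pred (ψ i) a ≠ 0`: map the membership, divide by the unit). `IndepM`: `indepM_of_cdata` over `RatFunc κ` for `(hC j).map (pred ρ)`, `hM` from `hsm` (`X i ^ M = monomial (single i M) 1`), `pred ρ (hc j) ≠ 0` since `pred ρ` is injective.
  `Key` is applied with `V = V j`, `g v = v.1`, `lv v = tdg v.1 / d`; `1 ≤ lv v` and `tdg v = lv v * d` from `(hC j).lv_pos`, `(hC j).lev`.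
-/

set_option autoImplicit false

namespace MPadcBK

open MvPolynomial MPadcGM MPadcHM

universe u

/-- The determinant of the functionals `gam`. -/
noncomputable def dete (p : ℕ) [Fact p.Prime] {R : Type*} [CommRing R] [CharP R p] {m : ℕ}
    (F : MvPolynomial (Fin m) R) (V : Finset (Fin m →₀ ℕ)) (d : ℕ)
    (c : V → (Fin m →₀ ℕ) → R) : R :=
  (Matrix.of fun v u : V => gam p F c (fun v => tdg v.1 / d) v (tdg u.1 / d)
    (monomial u.1 1)).det

theorem dete_map (p : ℕ) [Fact p.Prime] {R : Type*} [CommRing R] [CharP R p] {S : Type*}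
    [CommRing S] [CharP S p] (φ : R →+* S) {m : ℕ}
    (F : MvPolynomial (Fin m) R) (V : Finset (Fin m →₀ ℕ)) (d : ℕ)
    (c : V → (Fin m →₀ ℕ) → R) :
    dete p (F.map φ) V d (fun v e => φ (c v e)) = φ (dete p F V d c) := by
  unfold dete
  rw [RingHom.map_det]
  apply congrArg
  ext v u
  rw [RingHom.mapMatrix_apply, Matrix.map_apply, Matrix.of_apply, Matrix.of_apply, ← gam_map,
    map_monomial, φ.map_one]

theorem dete_smul (p : ℕ) [Fact p.Prime] {R : Type*} [CommRing R] [CharP R p] {m : ℕ}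
    (F : MvPolynomial (Fin m) R) (V : Finset (Fin m →₀ ℕ)) (d : ℕ)
    (c : V → (Fin m →₀ ℕ) → R) (a : R) :
    dete p F V d (fun v e => a * c v e) = (a ^ p) ^ (Fintype.card V) * dete p F V d c := by
  unfold dete
  rw [← Matrix.det_smul]
  apply congrArg
  ext v u
  rw [Matrix.smul_apply, Matrix.of_apply, Matrix.of_apply, smul_eq_mul, gam_apply, gam_apply,
    ell_eq_sum, ell_eq_sum, Finset.mul_sum]
  refine Finset.sum_congr rfl fun e _ => ?_
  rw [mul_pow]
  ring

private theorem cores2_mem {A K : Type*} [CommRing A] [Field K] {m : ℕ} (φ : A →+* K)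
    (F : MvPolynomial (Fin m) A) (a : A) (ha : φ a ≠ 0) (e : Fin m →₀ ℕ)
    (h : C a * monomial e 1 ∈ Ideal.span (Set.range fun j => pderiv j F)) :
    monomial e (1 : K) ∈ Ideal.span (Set.range fun j => pderiv j (F.map φ)) := by
  have h1 := Ideal.mem_map_of_mem (MvPolynomial.map φ) h
  rw [Ideal.map_span, ← Set.range_comp, map_mul, map_C, map_monomial, map_one] at h1
  have h2 : ((MvPolynomial.map φ) ∘ fun j => pderiv j F) = fun j => pderiv j (F.map φ) := by
    funext j
    exact (pderiv_map (φ := φ) (f := F) (i := j)).symm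
  rw [h2] at h1
  have h3 := Ideal.mul_mem_left _ (C (φ a)⁻¹) h1
  rw [← mul_assoc, ← C_mul, inv_mul_cancel₀ ha, C_1, one_mul] at h3
  exact h3

private theorem cores2_ne {R : Type*} [CommRing R] {E : Type*} [Field E] (ψ : R →+* E)
    {a : Polynomial R} (ha : a ≠ 0) (hψ : Function.Injective ψ) : pred ψ a ≠ 0 := by
  obtain ⟨l, hl⟩ : ∃ l, a.coeff l ≠ 0 := by
    by_contra hc
    push Not at hc
    exact ha (Polynomial.ext fun l => by rw [hc, Polynomial.coeff_zero])
  exact pred_ne_zero ψ ((map_ne_zero_iff ψ hψ).2 hl)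

theorem ult_isAlgClosed {I : Type} (U : Ultrafilter I) (κ : I → Type u) [∀ i, Field (κ i)]
    (h : ∀ i, IsAlgClosed (κ i)) : IsAlgClosed (Ult U κ) := by
  refine IsAlgClosed.of_exists_root _ fun P hP hirr => ?_
  have hn : P.natDegree ≠ 0 := (Polynomial.natDegree_pos_iff_degree_pos.2
    (Polynomial.degree_pos_of_irreducible hirr)).ne'
  obtain ⟨n, hn'⟩ : ∃ n, n = P.natDegree := ⟨_, rfl⟩
  rw [← hn'] at hn
  choose a ha using fun l => ultMk_surjective U κ (P.coeff l)
  have hroot : ∀ i, ∃ x : κ i, x ^ n + ∑ l ∈ Finset.range n, a l i * x ^ l = 0 := by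
    intro i
    have hi := h i
    have hdeg : (∑ l ∈ Finset.range n, Polynomial.C (a l i) * Polynomial.X ^ l :
        Polynomial (κ i)).degree < n := by
      rw [Polynomial.degree_lt_iff_coeff_zero]
      intro b hb
      rw [Polynomial.finsetSum_coeff]
      refine Finset.sum_eq_zero fun l hl => ?_
      rw [Polynomial.coeff_C_mul_X_pow, if_neg]
      have := Finset.mem_range.1 hl
      omega
    obtain ⟨x, hx⟩ := IsAlgClosed.exists_root (Polynomial.X ^ n +
      ∑ l ∈ Finset.range n, Polynomial.C (a l i) * Polynomial.X ^ l : Polynomial (κ i)) (by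
        rw [Polynomial.degree_add_eq_left_of_degree_lt (by rw [Polynomial.degree_X_pow]; exact hdeg),
          Polynomial.degree_X_pow]
        exact_mod_cast hn)
    refine ⟨x, ?_⟩
    have hx' : Polynomial.eval x (Polynomial.X ^ n +
      ∑ l ∈ Finset.range n, Polynomial.C (a l i) * Polynomial.X ^ l : Polynomial (κ i)) = 0 := hx
    rw [Polynomial.eval_add, Polynomial.eval_pow, Polynomial.eval_X, Polynomial.eval_finsetSum]
      at hx'
    rw [← hx']
    congr 1
    refine Finset.sum_congr rfl fun l _ => ?_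
    rw [Polynomial.eval_mul, Polynomial.eval_C, Polynomial.eval_pow, Polynomial.eval_X]
  choose x hx using hroot
  refine ⟨ultMk U κ x, ?_⟩
  have h1 := hP.as_sum
  rw [← hn'] at h1
  rw [h1, Polynomial.eval_add, Polynomial.eval_pow, Polynomial.eval_X, Polynomial.eval_finsetSum]
  have h2 : ∀ l, Polynomial.eval (ultMk U κ x) (Polynomial.C (P.coeff l) * Polynomial.X ^ l) =
      ultMk U κ (a l * x ^ l) := by
    intro l
    rw [Polynomial.eval_mul, Polynomial.eval_C, Polynomial.eval_pow, Polynomial.eval_X, map_mul,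
      map_pow, ha]
  rw [Finset.sum_congr rfl fun l _ => h2 l, ← map_pow, ← map_sum, ← map_add, ultMk_eq_zero]
  refine Filter.Eventually.of_forall fun i => ?_
  rw [Pi.add_apply, Pi.pow_apply, Finset.sum_apply]
  exact hx i

theorem core_seq2 {R : Type u} [CommRing R] [IsDomain R] [CharZero R]
    {m : ℕ} (d : ℕ) (hd : 2 ≤ d)
    (F : MvPolynomial (Fin m) (Polynomial R)) (hF : F.IsHomogeneous d)
    (a : Polynomial R) (ha : a ≠ 0) (M : ℕ)
    (hsm : ∀ e : Fin m →₀ ℕ, M ≤ ∑ l, e l →
      C a * monomial e 1 ∈ Ideal.span (Set.range fun j => pderiv j F))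
    (J : ℕ) (V : ℕ → Finset (Fin m →₀ ℕ))
    (c : ∀ j, V j → (Fin m →₀ ℕ) → Polynomial R) (hc : ℕ → Polynomial R)
    (hc0 : ∀ j, hc j ≠ 0)
    (hC : ∀ j, CData d j F (fun v : V j => v.1) (fun v => tdg v.1 / d) (c j) (hc j))
    (p : ℕ → ℕ) (E : ℕ → Type u) [hE : ∀ i, Field (E i)] [hchar : ∀ i, CharP (E i) (p i)]
    [hpf : ∀ i, Fact (p i).Prime] [hchar' : ∀ i, CharP (RatFunc (E i)) (p i)]
    (ψ : ∀ i, R →+* E i) (hp : ∀ i, i < p i)
    (hψ : ∀ x : R, x ≠ 0 → ∃ m, ∀ i, m ≤ i → ψ i x ≠ 0)
    (hkey : ∀ Ul : Ultrafilter ℕ, CharZero (Ult Ul E) → Function.Injective (uphi Ul E ψ) →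
      Key (Ult Ul E) d (F.map (pred (uphi Ul E ψ))))
    (h : Polynomial R) (hh : h ≠ 0) :
    ∃ i, h.map (ψ i) ≠ 0 ∧ ∀ j, 1 ≤ j → j ≤ J →
      dete (p i) (F.map (pred (ψ i))) (V j) d (fun v e => pred (ψ i) (c j v e)) ≠ 0 := by
  by_contra hcon
  push Not at hcon
  let U0 : Ultrafilter ℕ := Filter.hyperfilter ℕ
  have hge : ∀ m : ℕ, ∀ᶠ i in (U0 : Filter ℕ), m ≤ i := by
    intro m
    apply Filter.hyperfilter_le_cofinite
    rw [Filter.mem_cofinite]
    refine (Set.finite_lt_nat m).subset ?_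
    intro i hi
    simp only [Set.mem_compl_iff, Set.mem_ofPred_eq, not_le] at hi
    exact hi
  have hlarge : ∀ m : ℕ, ∀ᶠ i in (U0 : Filter ℕ), m < p i := by
    intro m
    filter_upwards [hge m] with i hi
    exact lt_of_le_of_lt hi (hp i)
  have hne : ∀ x : R, x ≠ 0 → ∀ᶠ i in (U0 : Filter ℕ), ψ i x ≠ 0 := by
    intro x hx
    obtain ⟨m, hm⟩ := hψ x hx
    filter_upwards [hge m] with i hi
    exact hm i hi
  have hρ : Function.Injective (uphi U0 E ψ) := by
    rw [injective_iff_map_eq_zero]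
    intro x hx
    by_contra hx0
    rw [uphi_apply, ultMk_eq_zero] at hx
    obtain ⟨i, hi1, hi2⟩ := (hx.and (hne x hx0)).exists
    exact hi2 hi1
  have hcz : CharZero (Ult U0 E) := charZero_of_injective_ringHom hρ
  have hφne : ∀ a : Polynomial R, a ≠ 0 → ∀ᶠ i in (U0 : Filter ℕ), pred (ψ i) a ≠ 0 := by
    intro a ha
    obtain ⟨l, hl⟩ : ∃ l, a.coeff l ≠ 0 := by
      by_contra hc
      push Not at hc
      exact ha (Polynomial.ext fun l => by rw [hc, Polynomial.coeff_zero])
    filter_upwards [hne _ hl] with i hi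
    exact pred_ne_zero (ψ i) hi
  -- one value of `j`
  have hev : ∀ᶠ i in (U0 : Filter ℕ), ∃ j ∈ Set.Icc 1 J,
      dete (p i) (F.map (pred (ψ i))) (V j) d (fun v e => pred (ψ i) (c j v e)) = 0 := by
    obtain ⟨l, hl⟩ : ∃ l, h.coeff l ≠ 0 := by
      by_contra hc'
      push Not at hc'
      exact hh (Polynomial.ext fun l => by rw [hc', Polynomial.coeff_zero])
    filter_upwards [hne _ hl] with i hi
    obtain ⟨j, h1, h2, h3⟩ := hcon i (by
      intro h0
      apply hi
      rw [← Polynomial.coeff_map, h0, Polynomial.coeff_zero])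
    exact ⟨j, ⟨h1, h2⟩, h3⟩
  rw [Ultrafilter.eventually_exists_mem_iff (Set.finite_Icc 1 J)] at hev
  obtain ⟨j, -, hdet0⟩ := hev
  -- the embedding of the rational functions
  obtain ⟨jj, hjC, hjX, hjcl⟩ := exists_ultRat U0 E
  let _ : Algebra (RatFunc (Ult U0 E)) (Ult U0 fun i => RatFunc (E i)) := jj.toAlgebra
  have hjalg : ∀ x, algebraMap (RatFunc (Ult U0 E)) (Ult U0 fun i => RatFunc (E i)) x = jj x :=
    fun x => rfl
  -- the derivation
  obtain ⟨DL, hDL⟩ := exists_ultD U0 (fun i => RatFunc (E i))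
    (fun i => mkz (DK (E i)).toLinearMap.toAddMonoidHom (DK_mul (E i)))
  have hD : ∀ x, DL (algebraMap (RatFunc (Ult U0 E)) (Ult U0 fun i => RatFunc (E i)) x) =
      algebraMap (RatFunc (Ult U0 E)) (Ult U0 fun i => RatFunc (E i)) (DK (Ult U0 E) x) := by
    intro x
    rw [hjalg, hjalg]
    refine DK_unique (Ult U0 E) jj DL ?_ ?_ x
    · intro a
      obtain ⟨y, rfl⟩ := ultMk_surjective U0 E a
      rw [hjC]
      refine (hDL _).trans ?_
      rw [ultMk_eq_zero]
      exact Filter.Eventually.of_forall fun i => DK_C (E i) (y i)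
    · rw [hjX]
      refine (hDL _).trans ?_
      have h1 : (fun i => mkz (DK (E i)).toLinearMap.toAddMonoidHom (DK_mul (E i)) RatFunc.X) =
          1 := by
        funext i
        exact DK_X (E i)
      rw [h1, map_one]
  -- the equation
  have hhom : uphi U0 (fun i => RatFunc (E i)) (fun i => pred (ψ i)) =
      (algebraMap (RatFunc (Ult U0 E)) (Ult U0 fun i => RatFunc (E i))).comp
        (pred (uphi U0 E ψ)) := by
    refine Polynomial.ringHom_ext ?_ ?_
    · intro r
      rw [RingHom.comp_apply, pred_C, hjalg, uphi_apply, uphi_apply]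
      refine Eq.trans ?_ (hjC _).symm
      apply congrArg
      funext i
      exact pred_C (ψ i) r
    · rw [RingHom.comp_apply, pred_X, hjalg, uphi_apply]
      refine Eq.trans ?_ hjX.symm
      apply congrArg
      funext i
      exact pred_X (ψ i)
  have heqn : F.map (uphi U0 (fun i => RatFunc (E i)) fun i => pred (ψ i)) =
      (F.map (pred (uphi U0 E ψ))).map
        (algebraMap (RatFunc (Ult U0 E)) (Ult U0 fun i => RatFunc (E i))) := by
    rw [map_map, hhom]
  let D : Derivation ℤ (Polynomial R) (Polynomial R) :=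
    (Polynomial.derivative' (R := R)).restrictScalars ℤ
  have hDφ : ∀ i (x : Polynomial R), mkz (DK (E i)).toLinearMap.toAddMonoidHom (DK_mul (E i))
      (pred (ψ i) x) = pred (ψ i) (D x) := by
    intro i x
    change DK (E i) (algebraMap (Polynomial (E i)) (RatFunc (E i)) (x.map (ψ i))) =
      algebraMap (Polynomial (E i)) (RatFunc (E i)) ((Polynomial.derivative x).map (ψ i))
    rw [DK_poly, Polynomial.derivative_map]
  have hDκ : ∀ x : Polynomial R, DZ (Ult U0 E) (pred (uphi U0 E ψ) x) =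
      pred (uphi U0 E ψ) (D x) := by
    intro x
    rw [DZ_apply]
    change DK (Ult U0 E) (algebraMap (Polynomial (Ult U0 E)) (RatFunc (Ult U0 E))
      (x.map (uphi U0 E ψ))) = algebraMap (Polynomial (Ult U0 E)) (RatFunc (Ult U0 E))
        ((Polynomial.derivative x).map (uphi U0 E ψ))
    rw [DK_poly, Polynomial.derivative_map]
  have hcder : (cder D F).map (uphi U0 (fun i => RatFunc (E i)) fun i => pred (ψ i)) =
      (cder (DZ (Ult U0 E)) (F.map (pred (uphi U0 E ψ)))).map
        (algebraMap (RatFunc (Ult U0 E)) (Ult U0 fun i => RatFunc (E i))) := by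
    rw [cder_map (pred (uphi U0 E ψ)) D (DZ (Ult U0 E)) hDκ, map_map, hhom]
  have hh0 : ∀ᶠ i in (U0 : Filter ℕ), pred (ψ i) (hc j) ≠ 0 := hφne _ (hc0 j)
  obtain ⟨ν, hν⟩ := ug_der U0 (fun i => RatFunc (E i)) p F (fun i => pred (ψ i))
    (fun v : V j => v.1) (fun v => tdg v.1 / d) (c j) (hC j) hlarge hF hh0 D
    (fun i => mkz (DK (E i)).toLinearMap.toAddMonoidHom (DK_mul (E i))) hDφ DL hDL
  have hsmκ : ∀ e : Fin m →₀ ℕ, M ≤ ∑ l, e l → monomial e (1 : RatFunc (Ult U0 E)) ∈
      Ideal.span (Set.range fun j => pderiv j (F.map (pred (uphi U0 E ψ)))) := fun e he =>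
    cores2_mem (pred (uphi U0 E ψ)) F a (cores2_ne _ ha hρ) e (hsm e he)
  have hdet := hkey U0 hcz hρ (Ult U0 fun i => RatFunc (E i)) DL hD ?_ (V j)
    (fun v k => ug U0 (fun i => RatFunc (E i)) p F (fun i => pred (ψ i))
      (fun v : V j => tdg v.1 / d) (c j) v k) ?_ ν ?_ ?_ (fun v => v.1) (fun v => tdg v.1 / d)
      (hC j).lv_pos (hC j).lev ?_
  · -- the determinant
    apply hdet
    change (Matrix.of fun v u : V j => ug U0 (fun i => RatFunc (E i)) p F
      (fun i => pred (ψ i)) (fun v : V j => tdg v.1 / d) (c j) v (tdg u.1 / d)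
        (monomial u.1 1)).det = 0
    have h1 : (Matrix.of fun v u : V j => ug U0 (fun i => RatFunc (E i)) p F
        (fun i => pred (ψ i)) (fun v : V j => tdg v.1 / d) (c j) v (tdg u.1 / d)
          (monomial u.1 1)) =
        (ultMk U0 fun i => RatFunc (E i)).mapMatrix
          (Matrix.of fun (v u : V j) (i : ℕ) =>
            gam (p i) (F.map (pred (ψ i))) (fun v e => pred (ψ i) (c j v e))
              (fun v : V j => tdg v.1 / d) v (tdg u.1 / d) (monomial u.1 1)) := by
      ext v u
      rw [Matrix.of_apply, ug_monomial]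
      simp only [RingHom.mapMatrix_apply, Matrix.map_apply, Matrix.of_apply]
    rw [h1, ← RingHom.map_det, ultMk_eq_zero]
    filter_upwards [hdet0] with i hi
    have h3 := (Pi.evalRingHom (fun i => RatFunc (E i)) i).map_det
      (Matrix.of fun (v u : V j) (i : ℕ) =>
            gam (p i) (F.map (pred (ψ i))) (fun v e => pred (ψ i) (c j v e))
              (fun v : V j => tdg v.1 / d) v (tdg u.1 / d) (monomial u.1 1))
    rw [Pi.evalRingHom_apply] at h3
    rw [h3]
    exact hi
  · -- algebraically closed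
    intro x hx
    obtain ⟨P, hP, hPx⟩ := hx
    rw [Polynomial.aeval_def] at hPx
    exact hjcl x P hP hPx
  · -- exact forms
    intro v k hk l Q
    change ug U0 (fun i => RatFunc (E i)) p F (fun i => pred (ψ i))
      (fun v : V j => tdg v.1 / d) (c j) v (k + 1)
        (Q * pderiv l ((F.map (pred (uphi U0 E ψ))).map (algebraMap _ _))) = _
    rw [← heqn]
    exact ug_exa U0 (fun i => RatFunc (E i)) p F (fun i => pred (ψ i))
      (fun v : V j => v.1) (fun v => tdg v.1 / d) (c j) (hC j) hlarge v hk l Q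
  · -- derivation
    intro v k hk e he
    have h1 := hν v k hk e he
    rw [hcder] at h1
    exact h1
  · -- independence
    intro lam hlam
    refine ug_indep U0 (fun i => RatFunc (E i)) p F (fun i => pred (ψ i))
      (fun v : V j => v.1) (fun v => tdg v.1 / d) (c j) (hC j) hlarge (by omega) hF hh0
      (M := M) (k₀ := M + m + 1) ?_ (by omega) ?_ lam
      (fun e he => hlam (M + m + 1) (by omega) e he)
    · filter_upwards [hφne a ha] with i hi e he
      exact cores2_mem (pred (ψ i)) F a hi e (hsm e he)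
    · calc M + m ≤ (M + m + 1) * 1 := by omega
        _ ≤ (M + m + 1) * d := Nat.mul_le_mul_left _ (by omega)
  · -- independence of the monomials
    refine indepM_of_cdata hd (hF.map _) (M := M) (fun i => ?_) ((hC j).map (pred (uphi U0 E ψ)))
      (cores2_ne _ (hc0 j) hρ)
    rw [X_pow_eq_monomial]
    refine hsmκ _ ?_
    rw [Finset.sum_eq_single i]
    · rw [Finsupp.single_eq_same]
    · intro b _ hb
      exact Finsupp.single_eq_of_ne hb
    · intro h
      exact absurd (Finset.mem_univ i) h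

end MPadcBK
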