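import Mathlib

/-!
# Laurent forms: definitions

`Fo κ m` is the ring of differential forms in `x_0, …, x_{m-1}` with Laurent polynomial coefficients,
written in the basis `dlog x_i`: the coefficient of `x ^ e` is an element of the exterior algebra
`Lam κ m` of `κ ^ m` (basis `dlog x_i`).
-/

set_option autoImplicit false

namespace MPadcBK

universe u

/-- Exponents. -/
abbrev Ex (m : ℕ) := Fin m → ℤ

/-- The exterior algebra on `dlog x_i`. -/
abbrev Lam (κ : Type u) [Field κ] (m : ℕ) := ExteriorAlgebra κ (Fin m → κ)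

/-- Laurent polynomials. -/
abbrev Fn (κ : Type u) [Field κ] (m : ℕ) := AddMonoidAlgebra κ (Ex m)

/-- Laurent forms. -/
abbrev Fo (κ : Type u) [Field κ] (m : ℕ) := AddMonoidAlgebra (Lam κ m) (Ex m)

variable {κ : Type u} [Field κ] {m : ℕ}

/-- The vector `∑ e_i dlog x_i`, reduced to `κ`. -/
def bar (κ : Type u) [Field κ] {m : ℕ} (e : Ex m) : Fin m → κ := fun i => (e i : κ)

/-- The total degree of an exponent. -/
def tot (e : Ex m) : ℤ := ∑ i, e i

/-- The contraction with the vector field `∑ φ_i x_i ∂_i`. -/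
noncomputable def ct (φ : Fin m → κ) : Lam κ m →ₗ[κ] Lam κ m :=
  CliffordAlgebra.contractLeft (∑ i, φ i • (LinearMap.proj i : (Fin m → κ) →ₗ[κ] κ))

/-- The contraction with `x_i ∂_i`. -/
noncomputable def cti (i : Fin m) : Lam κ m →ₗ[κ] Lam κ m := ct (Pi.single i 1)

/-- The contraction with the Euler field. -/
noncomputable def cte : Lam κ m →ₗ[κ] Lam κ m := ct fun _ => 1

/-- A coefficientwise operator. -/
noncomputable def cw (A : Ex m → Lam κ m →ₗ[κ] Lam κ m) : Fo κ m →ₗ[κ] Fo κ m where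
  toFun x := .ofCoeff (Finsupp.onFinset x.coeff.support (fun e => A e (x.coeff e)) (by
    intro e he
    rw [Finsupp.mem_support_iff]
    intro h
    exact he (by rw [h, map_zero])))
  map_add' x y := by
    apply AddMonoidAlgebra.coeff_injective
    ext e
    simp [AddMonoidAlgebra.coeff_add]
  map_smul' a x := by
    apply AddMonoidAlgebra.coeff_injective
    ext e
    simp

theorem cw_coeff (A : Ex m → Lam κ m →ₗ[κ] Lam κ m) (x : Fo κ m) (e : Ex m) :
    (cw A x).coeff e = A e (x.coeff e) := rfl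

/-- The exterior derivative. -/
noncomputable def dd : Fo κ m →ₗ[κ] Fo κ m :=
  cw fun e => LinearMap.mulLeft κ (ExteriorAlgebra.ι κ (bar κ e))

/-- The contraction of forms with `x_i ∂_i`. -/
noncomputable def cf (i : Fin m) : Fo κ m →ₗ[κ] Fo κ m := cw fun _ => cti i

/-- The contraction of forms with the Euler field. -/
noncomputable def cfe : Fo κ m →ₗ[κ] Fo κ m := cw fun _ => cte

/-- The monomial `x ^ e`. -/
noncomputable def mo (e : Ex m) : Fo κ m := AddMonoidAlgebra.single e 1

/-- Functions as forms. -/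
noncomputable def fn : Fn κ m →+* Fo κ m :=
  AddMonoidAlgebra.mapRingHom (Ex m) (algebraMap κ (Lam κ m))

/-- Polynomials as Laurent polynomials. -/
noncomputable def pl : MvPolynomial (Fin m) κ →ₐ[κ] Fn κ m :=
  MvPolynomial.aeval fun i => AddMonoidAlgebra.single (Pi.single i 1) 1

/-- A polynomial as a form. -/
noncomputable def pf (F : MvPolynomial (Fin m) κ) : Fo κ m := fn (pl F)

/-- The contraction with `∂_i`. -/
noncomputable def cj (i : Fin m) (x : Fo κ m) : Fo κ m := mo (-Pi.single i 1) * cf i x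

/-- `D = d - dF ∧`. -/
noncomputable def DD (F : MvPolynomial (Fin m) κ) (x : Fo κ m) : Fo κ m := dd x - dd (pf F) * x

/-- Forms of degree `q`. -/
noncomputable def FD (q : ℕ) : Submodule κ (Fo κ m) where
  carrier := {x | ∀ e, x.coeff e ∈ ⋀[κ]^q (Fin m → κ)}
  zero_mem' e := by simp
  add_mem' hx hy e := by
    rw [AddMonoidAlgebra.coeff_add, Finsupp.add_apply]
    exact Submodule.add_mem _ (hx e) (hy e)
  smul_mem' a x hx e := by
    rw [AddMonoidAlgebra.coeff_smul, Finsupp.smul_apply]
    exact Submodule.smul_mem _ a (hx e)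

/-- Forms all of whose exponents have total degree in the set `P`. -/
noncomputable def TD (P : Set ℤ) : Submodule κ (Fo κ m) where
  carrier := {x | ∀ e, tot e ∉ P → x.coeff e = 0}
  zero_mem' e _ := by simp
  add_mem' hx hy e he := by
    rw [AddMonoidAlgebra.coeff_add, Finsupp.add_apply, hx e he, hy e he, add_zero]
  smul_mem' a x hx e he := by
    rw [AddMonoidAlgebra.coeff_smul, Finsupp.smul_apply, hx e he, smul_zero]

/-- Forms which are regular along `x_i = 0` for all `i ∉ I`. -/
noncomputable def Reg (I : Set (Fin m)) : Submodule κ (Fo κ m) where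
  carrier := {x | ∀ e, ∀ i ∉ I, (e i < 0 → x.coeff e = 0) ∧ (e i = 0 → cti i (x.coeff e) = 0)}
  zero_mem' e i _ := by simp
  add_mem' hx hy e i hi := by
    rw [AddMonoidAlgebra.coeff_add, Finsupp.add_apply]
    refine ⟨fun h => ?_, fun h => ?_⟩
    · rw [(hx e i hi).1 h, (hy e i hi).1 h, add_zero]
    · rw [map_add, (hx e i hi).2 h, (hy e i hi).2 h, add_zero]
  smul_mem' a x hx e i hi := by
    rw [AddMonoidAlgebra.coeff_smul, Finsupp.smul_apply]
    refine ⟨fun h => ?_, fun h => ?_⟩
    · rw [(hx e i hi).1 h, smul_zero]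
    · rw [map_smul, (hx e i hi).2 h, smul_zero]

/-- The regular `q`-forms on the chart `I` whose exponents have total degree `k d`, `1 ≤ k ≤ N`. -/
noncomputable def TT (d N q : ℕ) (I : Set (Fin m)) : Submodule κ (Fo κ m) :=
  Reg I ⊓ FD q ⊓ TD {t | ∃ k : ℕ, 1 ≤ k ∧ k ≤ N ∧ t = k * d}

/-- The same without upper bound. -/
noncomputable def TI (d q : ℕ) (I : Set (Fin m)) : Submodule κ (Fo κ m) :=
  Reg I ⊓ FD q ⊓ TD {t | ∃ k : ℕ, 1 ≤ k ∧ t = k * d}

/-- The regular `q`-forms of total degree `t` with `dF ∧ x = 0`. -/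
noncomputable def KK (F : MvPolynomial (Fin m) κ) (t : ℤ) (q : ℕ) (I : Set (Fin m)) :
    Submodule κ (Fo κ m) :=
  Reg I ⊓ FD q ⊓ TD {t} ⊓ LinearMap.ker (LinearMap.mulLeft κ (dd (pf F)))

/-- The closed forms in `KK`. -/
noncomputable def ZK (F : MvPolynomial (Fin m) κ) (t : ℤ) (q : ℕ) (I : Set (Fin m)) :
    Submodule κ (Fo κ m) :=
  KK F t q I ⊓ LinearMap.ker dd

/-- The exact forms `d (KK)`, of degree `q + 1`. -/
noncomputable def BK (F : MvPolynomial (Fin m) κ) (t : ℤ) (q : ℕ) (I : Set (Fin m)) :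
    Submodule κ (Fo κ m) :=
  (KK F t q I).map dd

/-- `F` is smooth: a power of every variable is in the Jacobian ideal. -/
def Smooth (F : MvPolynomial (Fin m) κ) : Prop :=
  ∀ i, ∃ N : ℕ, (MvPolynomial.X i : MvPolynomial (Fin m) κ) ^ N ∈
    Ideal.span (Set.range fun j => MvPolynomial.pderiv j F)

section Cech

variable {G : Type*} [AddCommGroup G] {ι : Type*}

/-- The Čech differential (all tuples; a cochain of length `l` is a function on `l`-tuples). -/
def del {l : ℕ} (c : (Fin l → ι) → G) : (Fin (l + 1) → ι) → G :=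
  fun s => ∑ k : Fin (l + 1), (-1 : ℤ) ^ (k : ℕ) • c (s ∘ k.succAbove)

/-- Cochains of length `l` with values in the groups `M I`, `I` the set of indices of the tuple. -/
def Coch (M : Set ι → AddSubgroup G) {l : ℕ} (c : (Fin l → ι) → G) : Prop :=
  ∀ s, c s ∈ M (Set.range s)

/-- Exactness of the augmented Čech complex at the cochains of length `l + 1`. -/
def ExactAt (M : Set ι → AddSubgroup G) (l : ℕ) : Prop :=
  ∀ c : (Fin (l + 1) → ι) → G, Coch M c → del c = 0 → ∃ b : (Fin l → ι) → G, Coch M b ∧ del b = c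

/-- `H ^ j = 0` (no augmentation). -/
def HZero (M : Set ι → AddSubgroup G) (j : ℕ) : Prop :=
  match j with
  | 0 => ∀ c : (Fin 1 → ι) → G, Coch M c → del c = 0 → c = 0
  | j + 1 => ∀ c : (Fin (j + 2) → ι) → G, Coch M c → del c = 0 →
      ∃ b : (Fin (j + 1) → ι) → G, Coch M b ∧ del b = c

end Cech

end MPadcBK
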