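import Pool.Agent.Lib.MP_adc574_ag_BK.LC

/-!
# JOB Des: descent of the pole order, Cartier theorem for the twisted complex

`log_surj`: `q = 0`: `y = 0` (`kos_local_zero`). `y ∈ KK F d (q+1) I`: with `kk = kk hF hs i`, `i ∈ I`, `dF * kk y = y` (`kk_add`), `x = - dF * Fr (kk y)`; `kk y` has total degree `0`, so has `Fr (kk y)`;
`dd x = dF * dd (Fr ..) = 0` (`dd_ddpf_mul`, `dd_Fr`), `dF * x = 0` (`one_mul_self`). `al 1 x = Ca (E_(p-1) * x)` (only `k = 1` contributes, `al_KK`) and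
`Ca (pf E_(p-1) * dF) = - dF` (apply `Ca` to `dd_pf_Eci` with `N = p`: `0 = -(Ca (dF * E_(p-1)) + Ca (Fr dF * 1))`, `Ca_Fr`), so `al 1 x = dF * kk y = y` (`Ca_mul_Fr`).
`des0`: `x ∈ TT d N 0 I`, induction on `N`: the part of total degree `(N+1) d` of `DD F x = 0` is `- dF * prj (N d) x` (`prj_DD`), so `prj (N d) x = 0` (`kos_local_zero`) and `x ∈ TT d (N-1) 0 I`
(`mem_TD_of_prj` or `TT_decomp`).
`des1`: `x ∈ TT d N (q+1) I` (`TI_TT`), induction on `N`. `N = 0`: `x = 0`. `N = 1`: `x ∈ TD {d}`, the parts of degree `d` and `2 d` of `DD F x = 0` are `dd x = 0` and `dF * x = 0`: `x ∈ ZK`.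
`N ≥ 2`: `dF * x_N = 0` for `x_N = prj (N d) x`, `kos_local`: `x_N = dF * y`, `y ∈ Reg I ⊓ FD q ⊓ TD {(N-1) d}`; `x + DD F y = (x - x_N) + dd y ∈ TT d (N-1) (q+1) I` is `DD F`-closed (`DD_DD`).
`des2`: `ψ ∈ TT d N q I` with `DD F ψ = x ∈ TD {d}`, induction on `N`: `N ≤ 1`: `dd ψ = x`, `dF * ψ = 0`. `N ≥ 2`: `dF * ψ_N = 0`; if `q = 0` then `ψ_N = 0`; if `q = q' + 1`:
`ψ_N = dF * y`, `ψ' = ψ + DD F y ∈ TT d (N-1) q I`, `DD F ψ' = x`.
`CT`: `des1`: `x = x1 + DD F y`, `al 1 x1 = al 1 x - al 1 (DD F y) = 0` (`al_one_DD`), `log_cartier`: `x1 = dd κ0 = DD F κ0`, `κ0 ∈ KK F d q I`.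
`al_closed`: `0 = al 2 (DD F x) = dF * al 1 x`.
-/

set_option autoImplicit false

namespace MPadcBK

open ExteriorAlgebra

universe u

variable {κ : Type u} [Field κ] {m : ℕ} {d : ℕ} {F : MvPolynomial (Fin m) κ} (hd : 1 ≤ d)
  (hF : F.IsHomogeneous d) (hs : Smooth F)

private theorem des_red {N q : ℕ} {I : Set (Fin m)} {x : Fo κ m}
    (hx : x ∈ TT (κ := κ) d (N + 1) q I) (h : prj (((N + 1 : ℕ) : ℤ) * d) x = 0) :
    x ∈ TT (κ := κ) d N q I := by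
  obtain ⟨⟨h1, h2⟩, h3⟩ := hx
  refine ⟨⟨h1, h2⟩, mem_TD_of_prj fun t ht => ?_⟩
  by_cases htN : t = ((N + 1 : ℕ) : ℤ) * d
  · rw [htN, h]
  · refine prj_of_notMem ?_ h3
    rintro ⟨k, hk1, hk2, hk3⟩
    rcases Nat.lt_or_ge k (N + 1) with hk | hk
    · exact ht ⟨k, hk1, by omega, hk3⟩
    · have hkN : k = N + 1 := by omega
      rw [hkN] at hk3
      exact htN hk3

include hF in
private theorem des_prj {t : ℤ} {N q : ℕ} (hd : 1 ≤ d) {I : Set (Fin m)} {x : Fo κ m}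
    (hx : x ∈ TT (κ := κ) d N q I) (ht : t = ((N : ℤ) + 1) * d) :
    prj t (DD F x) = - (dd (pf F) * prj ((N : ℤ) * d) x) := by
  have h0 : prj t x = 0 := by
    have h := prj_TT_zero hd hx (k := N + 1) (Or.inr (Nat.lt_succ_self N))
    rw [ht]
    push_cast at h
    exact h
  have h1 : t - d = (N : ℤ) * d := by
    rw [ht]
    ring
  rw [prj_DD hF, h0, map_zero, h1, zero_sub]

include hd hF in
private theorem des_mod {N q : ℕ} {I : Set (Fin m)} {x y : Fo κ m}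
    (hx : x ∈ TT (κ := κ) d (N + 2) q I) (hq : DD F y ∈ FD (κ := κ) (m := m) q)
    (hy : y ∈ Reg (κ := κ) I) (hyt : y ∈ TD (κ := κ) (m := m) {t | t + d ∈ ({((N + 2 : ℕ) : ℤ) * d} : Set ℤ)})
    (h : dd (pf F) * y = prj (((N + 2 : ℕ) : ℤ) * d) x) :
    x + DD F y ∈ TT (κ := κ) d (N + 1) q I := by
  have hyt' : y ∈ TD (κ := κ) (m := m) {((N + 1 : ℕ) : ℤ) * d} := by
    refine TD_mono ?_ hyt
    intro t ht
    have h1 : t + d = ((N + 2 : ℕ) : ℤ) * d := ht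
    show t = ((N + 1 : ℕ) : ℤ) * d
    push_cast at h1 ⊢
    linear_combination h1
  have hD : DD F y ∈ TT (κ := κ) d (N + 2) q I := by
    refine ⟨⟨?_, hq⟩, ?_⟩
    · exact Submodule.sub_mem _ (dd_Reg hy) (ddpf_mul_Reg F hy)
    · refine Submodule.sub_mem _ ?_ ?_
      · refine TD_mono ?_ (dd_TD hyt')
        intro t ht
        exact ⟨N + 1, by omega, by omega, ht⟩
      · refine TD_mono ?_ (ddpf_mul_TD hF hyt')
        intro t ht
        have h1 : t - d = ((N + 1 : ℕ) : ℤ) * d := ht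
        refine ⟨N + 2, by omega, by omega, ?_⟩
        push_cast at h1 ⊢
        linear_combination h1
  refine des_red (Submodule.add_mem _ hx hD) ?_
  have h2 : prj (((N + 1 + 1 : ℕ) : ℤ) * d) y = 0 := by
    refine prj_of_notMem ?_ hyt'
    intro h3
    have h4 : ((N + 1 + 1 : ℕ) : ℤ) * d = ((N + 1 : ℕ) : ℤ) * d := h3
    push_cast at h4
    have h5 : (d : ℤ) = 0 := by linear_combination h4
    omega
  have h3 : prj (((N + 1 + 1 : ℕ) : ℤ) * d - d) y = y := by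
    have h4 : ((N + 1 + 1 : ℕ) : ℤ) * d - d = ((N + 1 : ℕ) : ℤ) * d := by
      push_cast
      ring
    rw [h4]
    exact prj_of_mem hyt'
  rw [map_add, prj_DD hF, h2, map_zero, h3, h, zero_sub]
  exact add_neg_cancel _

private theorem des_zero (hd : 1 ≤ d) {q : ℕ} {I : Set (Fin m)} {x : Fo κ m}
    (hx : x ∈ TT (κ := κ) d 0 q I) : x = 0 := by
  have h := TT_decomp hd hx
  rw [h, Finset.sum_range_one]
  exact prj_TT_zero hd hx (Or.inl rfl)

private theorem des_one {q : ℕ} {I : Set (Fin m)} {x : Fo κ m}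
    (hx : x ∈ TT (κ := κ) d 1 q I) : x ∈ TD (κ := κ) (m := m) {(d : ℤ)} := by
  refine TD_mono ?_ hx.2
  rintro t ⟨k, hk1, hk2, hk3⟩
  have hk : k = 1 := by omega
  rw [hk, Nat.cast_one, one_mul] at hk3
  exact hk3

private theorem des_neg {y : Fo κ m} (h : - y = 0) : y = 0 := neg_eq_zero.1 h

private theorem des_DD_zero : DD F (0 : Fo κ m) = 0 := by
  unfold DD
  rw [map_zero, mul_zero, sub_zero]

section

include hd hF hs

theorem des0 {I : Set (Fin m)} (hI : I.Nonempty) {x : Fo κ m} (hx : x ∈ TI (κ := κ) d 0 I)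
    (h : DD F x = 0) : x = 0 := by
  obtain ⟨i, hi⟩ := hI
  obtain ⟨N, hN⟩ := TI_TT hx
  clear hx
  induction N with
  | zero => exact des_zero hd hN
  | succ N ih =>
    refine ih (des_red hN ?_)
    have h1 := des_prj hF hd hN rfl
    rw [h, map_zero] at h1
    exact kos_local_zero hF hs i (prj_FD _ hN.1.2) (des_neg h1.symm)

theorem des1 {I : Set (Fin m)} (hI : I.Nonempty) {q : ℕ} {x : Fo κ m}
    (hx : x ∈ TI (κ := κ) d (q + 1) I) (h : DD F x = 0) :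
    ∃ x1 ∈ ZK F d (q + 1) I, ∃ y ∈ TI (κ := κ) d q I, x = x1 + DD F y := by
  obtain ⟨N, hN⟩ := TI_TT hx
  clear hx
  induction N generalizing x with
  | zero =>
    refine ⟨0, Submodule.zero_mem _, 0, Submodule.zero_mem _, ?_⟩
    rw [des_zero hd hN, des_DD_zero, add_zero]
  | succ N ih =>
    have h1 := des_prj hF hd hN rfl
    rw [h, map_zero] at h1
    have h2 := des_neg h1.symm
    rcases N with _ | N
    · have hx1 := des_one hN
      have h3 : dd (pf F) * x = 0 := by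
        have h4 : (((0 + 1 : ℕ) : ℤ)) * (d : ℤ) = d := by
          rw [zero_add, Nat.cast_one, one_mul]
        rw [h4, prj_of_mem hx1] at h2
        exact h2
      have h4 : dd x = 0 := by
        have h5 : dd x - dd (pf F) * x = 0 := h
        rwa [h3, sub_zero] at h5
      refine ⟨x, ⟨⟨⟨hN.1, hx1⟩, h3⟩, h4⟩, 0, Submodule.zero_mem _, ?_⟩
      rw [des_DD_zero, add_zero]
    · obtain ⟨y, ⟨⟨hy1, hy2⟩, hy3⟩, hy4⟩ := kos_local hF hs hI
        (x := prj (((N + 2 : ℕ) : ℤ) * d) x) ⟨⟨prj_Reg _ hN.1.1, prj_FD _ hN.1.2⟩, prj_TD _ _⟩ h2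
      have h5 : DD F y ∈ FD (κ := κ) (m := m) (q + 1) :=
        Submodule.sub_mem _ (dd_FD hy2) (ddpf_mul_FD F hy2)
      have h6 := des_mod hd hF hN h5 hy1 hy3 hy4
      have h7 : DD F (x + DD F y) = 0 := by
        rw [DD_add, h, DD_DD, add_zero]
      obtain ⟨x1, hx1, y1, hy5, hy6⟩ := ih h7 h6
      refine ⟨x1, hx1, y1 - y, Submodule.sub_mem _ hy5 ⟨⟨hy1, hy2⟩, ?_⟩, ?_⟩
      · refine TD_mono ?_ hy3
        intro t ht
        have h8 : t + d = ((N + 2 : ℕ) : ℤ) * d := ht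
        refine ⟨N + 1, by omega, ?_⟩
        push_cast at h8 ⊢
        linear_combination h8
      · rw [DD_sub, ← add_sub_assoc, ← hy6, add_sub_cancel_right]

theorem des2 {I : Set (Fin m)} (hI : I.Nonempty) {q : ℕ} {x ψ : Fo κ m}
    (hx : x ∈ TD (κ := κ) (m := m) {(d : ℤ)}) (hψ : ψ ∈ TI (κ := κ) d q I) (h : DD F ψ = x) :
    x ∈ BK F d q I := by
  obtain ⟨N, hN⟩ := TI_TT hψ
  clear hψ
  induction N generalizing ψ with
  | zero =>
    rw [← h, des_zero hd hN, des_DD_zero]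
    exact Submodule.zero_mem _
  | succ N ih =>
    have h1 := des_prj hF hd hN rfl
    have h0 : prj ((((N + 1 : ℕ) : ℤ) + 1) * d) (DD F ψ) = 0 := by
      rw [h]
      refine prj_of_notMem ?_ hx
      intro h3
      have h4 : (((N + 1 : ℕ) : ℤ) + 1) * d = (d : ℤ) := h3
      push_cast at h4
      have h5 : ((N : ℤ) + 1) * d = 0 := by linear_combination h4
      rcases mul_eq_zero.1 h5 with h6 | h6 <;> omega
    rw [h0] at h1
    have h2 := des_neg h1.symm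
    rcases N with _ | N
    · have hx1 := des_one hN
      have h3 : dd (pf F) * ψ = 0 := by
        have h4 : (((0 + 1 : ℕ) : ℤ)) * (d : ℤ) = d := by
          rw [zero_add, Nat.cast_one, one_mul]
        rw [h4, prj_of_mem hx1] at h2
        exact h2
      refine ⟨ψ, ⟨⟨hN.1, hx1⟩, h3⟩, ?_⟩
      rw [← h]
      unfold DD
      rw [h3, sub_zero]
    · rcases q with _ | q
      · obtain ⟨i, hi⟩ := hI
        exact ih h (des_red hN (kos_local_zero hF hs i (prj_FD _ hN.1.2) h2))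
      · obtain ⟨y, ⟨⟨hy1, hy2⟩, hy3⟩, hy4⟩ := kos_local hF hs hI
          (x := prj (((N + 2 : ℕ) : ℤ) * d) ψ) ⟨⟨prj_Reg _ hN.1.1, prj_FD _ hN.1.2⟩, prj_TD _ _⟩ h2
        have h5 : DD F y ∈ FD (κ := κ) (m := m) (q + 1) :=
          Submodule.sub_mem _ (dd_FD hy2) (ddpf_mul_FD F hy2)
        have h6 := des_mod hd hF hN h5 hy1 hy3 hy4
        exact ih (by rw [DD_add, h, DD_DD, add_zero]) h6

end

theorem ZK_TI {q : ℕ} {I : Set (Fin m)} {x : Fo κ m} (hx : x ∈ ZK F d q I) :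
    x ∈ TI (κ := κ) d q I ∧ DD F x = 0 := by
  refine ⟨TT_le_TI (KK_TI hx.1), ?_⟩
  have h1 : dd (pf F) * x = 0 := hx.1.2
  have h2 : dd x = 0 := hx.2
  unfold DD
  rw [h1, h2, sub_zero]

theorem BK_le_ZK {q : ℕ} {I : Set (Fin m)} : BK F d q I ≤ ZK F d (q + 1) I := by
  rintro _ ⟨y, ⟨⟨⟨h1, h2⟩, h3⟩, h4⟩, rfl⟩
  have h5 : dd (pf F) * y = 0 := h4
  refine ⟨⟨⟨⟨dd_Reg h1, dd_FD h2⟩, dd_TD h3⟩, ?_⟩, dd_dd y⟩
  show dd (pf F) * dd y = 0
  have h6 := dd_ddpf_mul F y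
  rw [h5, map_zero] at h6
  exact des_neg h6.symm

theorem ZK_mono {q : ℕ} {I J : Set (Fin m)} (h : I ⊆ J) : ZK F d q I ≤ ZK F d q J := by
  rintro x ⟨⟨⟨⟨h1, h2⟩, h3⟩, h4⟩, h5⟩
  exact ⟨⟨⟨⟨Reg_mono h h1, h2⟩, h3⟩, h4⟩, h5⟩

theorem BK_mono {q : ℕ} {I J : Set (Fin m)} (h : I ⊆ J) : BK F d q I ≤ BK F d q J := by
  refine Submodule.map_mono ?_
  rintro x ⟨⟨⟨h1, h2⟩, h3⟩, h4⟩
  exact ⟨⟨⟨Reg_mono h h1, h2⟩, h3⟩, h4⟩

variable (p : ℕ) [hp : Fact p.Prime] [CharP κ p] [PerfectRing κ p]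

include hd hF in
theorem al_closed (hp2 : 2 < p) {I : Set (Fin m)} {q : ℕ} {x : Fo κ m}
    (hx : x ∈ TI (κ := κ) d q I) (h : DD F x = 0) : al p F d 1 x ∈ KK F d q I := by
  refine ⟨⟨⟨al_Reg p F d 1 hx.1.1, al_FD p F d 1 hx.1.2⟩, ?_⟩, ?_⟩
  · refine TD_mono ?_ (al_TD p hF 1 x)
    intro t ht
    have h1 : t = ((1 : ℕ) : ℤ) * d := ht
    rw [Nat.cast_one, one_mul] at h1
    exact h1
  · show dd (pf F) * al p F d 1 x = 0
    have h1 := al_DD p hF hd hx (i := 2) (by norm_num) hp2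
    rw [h, al_zero_arg] at h1
    exact h1.symm

include hd hF hs

omit hd hF hs in
private theorem des_cart : Ca p (pf F ^ (p - 1) * dd (pf F) : Fo κ m) = dd (pf F) := by
  have hp1 : 1 < p := hp.out.one_lt
  have h1 := dd_pf_Eci p F (p : ℤ) (by
    have : (1 : ℤ) < p := by exact_mod_cast hp1
    nlinarith)
  have e1 : Eci p F ((p : ℤ) - 1) = - F ^ (p - 1) := by
    unfold Eci
    have h2 : (0 : ℤ) ≤ (p : ℤ) - 1 := by omega
    have h3 : ((p : ℤ) - 1).toNat = p - 1 := by omega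
    rw [if_pos h2, h3, Ec_last]
  have e2 : Eci p F ((p : ℤ) - p) = 1 := by
    unfold Eci
    rw [sub_self, if_pos le_rfl, Int.toNat_zero, Ec_zero]
  rw [e1, e2, pf_neg, pf_one, mul_neg] at h1
  have h2 := congrArg (Ca p) h1
  rw [Ca_dd, map_neg, map_add, map_neg, mul_one, Ca_Fr] at h2
  have h3 : dd (pf F) * pf (F ^ (p - 1)) = pf F ^ (p - 1) * dd (pf F) := by
    rw [← pf_mul_comm, pf_pow]
  rw [h3] at h2
  have h4 := des_neg h2.symm
  have h5 : dd (pf F) - Ca p (pf F ^ (p - 1) * dd (pf F) : Fo κ m) = 0 := by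
    rw [← h4]
    abel
  exact (sub_eq_zero.1 h5).symm

theorem log_surj (hp2 : 2 < p) {I : Set (Fin m)} (hI : I.Nonempty) {q : ℕ} {y : Fo κ m}
    (hy : y ∈ KK F d q I) : ∃ x ∈ ZK F d q I, al p F d 1 x = y := by
  obtain ⟨i, hi⟩ := hI
  obtain ⟨⟨⟨h1, h2⟩, h3⟩, h4⟩ := hy
  have h4' : dd (pf F) * y = 0 := h4
  rcases q with _ | q
  · refine ⟨0, Submodule.zero_mem _, ?_⟩
    rw [al_zero_arg, kos_local_zero hF hs i h2 h4']
  · obtain ⟨u, hu⟩ : ∃ u : Fo κ m, u = kk hF hs i y := ⟨_, rfl⟩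
    have hu1 : dd (pf F) * u = y := by
      have h5 := kk_add hF hs i y
      rw [h4', map_zero, zero_add] at h5
      rw [hu]
      exact h5
    have hu2 : u ∈ Reg (κ := κ) I := by
      rw [hu]
      exact kk_Reg hF hs hi h1
    have hu3 : u ∈ FD (κ := κ) (m := m) q := by
      rw [hu]
      exact kk_FD hF hs i h2
    have hu4 : u ∈ TD (κ := κ) (m := m) {t | t + d ∈ ({(d : ℤ)} : Set ℤ)} := by
      rw [hu]
      exact kk_TD hF hs i h3
    have hz : dd (pf F) * Fr p u ∈ ZK F d (q + 1) I := by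
      refine ⟨⟨⟨⟨ddpf_mul_Reg F (Fr_Reg p hu2), ddpf_mul_FD F (Fr_FD p hu3)⟩, ?_⟩, ?_⟩, ?_⟩
      · refine TD_mono ?_ (ddpf_mul_TD hF (Fr_TD p hu4))
        rintro t ⟨s, hs1, hs2⟩
        have hs3 : s + d = (d : ℤ) := hs1
        have hs4 : s = 0 := by omega
        rw [hs4, mul_zero] at hs2
        show t = d
        omega
      · exact one_mul_self (ddpf_mem F) _
      · show dd (dd (pf F) * Fr p u) = 0
        rw [dd_ddpf_mul, dd_Fr, mul_zero, neg_zero]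
    refine ⟨- (dd (pf F) * Fr p u), Submodule.neg_mem _ hz, ?_⟩
    rw [al_neg, al_KK p hd hz.1, neg_neg, ← mul_assoc, Ca_mul_Fr, des_cart, hu1]

theorem CT (hpd : ¬ p ∣ d) {I : Set (Fin m)} (hI : I.Nonempty) {q : ℕ} {x : Fo κ m}
    (hx : x ∈ TI (κ := κ) d (q + 1) I) (h : DD F x = 0) (h1 : al p F d 1 x = 0) :
    ∃ y ∈ TI (κ := κ) d q I, DD F y = x := by
  obtain ⟨x1, hx1, y, hy, hxy⟩ := des1 hd hF hs hI hx h
  have h2 : al p F d 1 x1 = 0 := by
    have h3 := al_add p F d 1 x1 (DD F y)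
    rw [← hxy, h1, al_one_DD p hF hd hy, add_zero] at h3
    exact h3.symm
  obtain ⟨k0, hk0, hk1⟩ := log_cartier p hd hpd hF hs hI hx1 h2
  refine ⟨k0 + y, Submodule.add_mem _ (TT_le_TI (KK_TI hk0)) hy, ?_⟩
  have h3 : dd (pf F) * k0 = 0 := hk0.2
  have h4 : DD F k0 = x1 := by
    unfold DD
    rw [h3, sub_zero, hk1]
  rw [DD_add, h4, hxy]

end MPadcBK
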