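import Pool.Agent.Lib.MP_adc574_ag_BK.Spr
import Pool.Agent.Lib.MP_adc574_ag_BK.BasK

/-!
# JOB DescG: coordinate data over `R[t]` and over `A`

* `CData.scale`: over a field, divide `c` by `h ≠ 0`.
* `CData.desc`: `K₁ → K₂` fields; let `ρ : K₂ → K₁` be `K₁`-linear with `ρ 1 = 1` (a retraction; exists over a field, `LinearMap.exists_leftInverse_of_injective` for the algebra map). `c' v e = ρ (c v e)`. `ker`: `Q` over `K₁`: `ell c v ((Q * ∂_j F).map) = 0`, apply `ρ` (`ell_eq_sum`, coefficients in `K₁`; support of the image is the same, the map is injective).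
  `span`: `x^e - ∑ monomial (g v) (c v e) = ∑ Q_j ∂_j (F.map)`; apply `ρ` coefficientwise (it is `K₁[x]`-linear): `x^e - ∑ monomial (g v) (ρ (c v e)) = ∑ (ρ Q_j) ∂_j F`.
* `exists_cdata_A`: `CData.scale` over `k`, `CData.desc` from `k` to `FractionRing A`, `CData.spread`.
* `exists_cdata_R`: `κ = FractionRing R`, `exists_cdata` for `Φ.map` over `RatFunc κ` (`d ≠ 0` in `κ`, characteristic 0), `FK (Φ.map) d = (peq d Φ).map ι` with `ι : R[t] → RatFunc κ` (`P ↦ algebraMap (P.map (algebraMap R κ))`), injective, and every element of `RatFunc κ` is a quotient of elements of `ι R[t]` (numerator and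
  denominator in `κ[t]`, clear the denominators in `R`: `IsLocalization.integerNormalization` or `IsLocalization.exist_integer_multiples`). `CData.spread`.
-/

set_option autoImplicit false

namespace MPadcBK

open MvPolynomial MPadcGM MPadcHM

universe u

private theorem descg_scale {m : ℕ} {R : Type*} [CommRing R] {V : Type*}
    (c : V → (Fin m →₀ ℕ) → R) (a : R) (v : V) (P : MvPolynomial (Fin m) R) :
    ell (fun v e => a * c v e) v P = a * ell c v P := by
  rw [ell_eq_sum, ell_eq_sum, Finset.mul_sum]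
  refine Finset.sum_congr rfl fun e _ => ?_
  ring

private theorem descg_retr {K₁ K₂ : Type*} [Field K₁] [Field K₂] (φ : K₁ →+* K₂) :
    ∃ ρ : K₂ →+ K₁, ρ 1 = 1 ∧ ∀ a x, ρ (φ a * x) = a * ρ x := by
  let _ := φ.toAlgebra
  have h1 : LinearMap.ker (Algebra.linearMap K₁ K₂) = ⊥ := by
    rw [LinearMap.ker_eq_bot]
    exact φ.injective
  obtain ⟨ρ, hρ⟩ := LinearMap.exists_leftInverse_of_injective _ h1
  refine ⟨ρ.toAddMonoidHom, ?_, ?_⟩
  · have h2 := LinearMap.congr_fun hρ 1
    rw [LinearMap.comp_apply, Algebra.linearMap_apply, map_one, LinearMap.id_apply] at h2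
    exact h2
  · intro a x
    change ρ (φ a * x) = a * ρ x
    have h2 : φ a * x = a • x := (Algebra.smul_def a x).symm
    rw [h2, map_smul, smul_eq_mul]

private theorem descg_poly {K₁ K₂ : Type*} [Field K₁] [Field K₂] (ρ : K₂ →+ K₁) {m : ℕ}
    (Q : MvPolynomial (Fin m) K₂) : ∃ Q' : MvPolynomial (Fin m) K₁,
      ∀ e, coeff e Q' = ρ (coeff e Q) := by
  classical
  refine ⟨∑ e ∈ Q.support, monomial e (ρ (coeff e Q)), fun e => ?_⟩
  rw [coeff_sum]
  simp only [coeff_monomial]
  rw [Finset.sum_ite_eq']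
  split_ifs with h
  · rfl
  · rw [notMem_support_iff.1 h, map_zero]

private theorem descg_clearP {R κ : Type*} [CommRing R] [IsDomain R] [Field κ] (ι : R →+* κ)
    (hfr : ∀ x : κ, ∃ b s : R, s ≠ 0 ∧ ι s * x = ι b) (P : Polynomial κ) :
    ∃ r : R, r ≠ 0 ∧ ∃ P' : Polynomial R, P'.map ι = Polynomial.C (ι r) * P := by
  induction P using Polynomial.induction_on' with
  | add p q hp hq =>
    obtain ⟨r, hr, p', hp'⟩ := hp
    obtain ⟨s, hs, q', hq'⟩ := hq
    refine ⟨r * s, mul_ne_zero hr hs, Polynomial.C s * p' + Polynomial.C r * q', ?_⟩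
    rw [Polynomial.map_add, Polynomial.map_mul, Polynomial.map_mul, hp', hq', Polynomial.map_C,
      Polynomial.map_C, map_mul, Polynomial.C_mul]
    ring
  | monomial k a =>
    obtain ⟨b, s, hs, hb⟩ := hfr a
    refine ⟨s, hs, Polynomial.monomial k b, ?_⟩
    rw [Polynomial.map_monomial, ← hb, Polynomial.C_mul_monomial]

theorem CData.scale {m : ℕ} {K : Type*} [Field K] {V : Type*} [Fintype V] [DecidableEq V]
    {d J : ℕ} {F : MvPolynomial (Fin m) K} {g : V → Fin m →₀ ℕ} {lv : V → ℕ}
    {c : V → (Fin m →₀ ℕ) → K} {h : K} (hC : CData d J F g lv c h) (hh : h ≠ 0) :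
    CData d J F g lv (fun v e => h⁻¹ * c v e) 1 := by
  refine ⟨hC.lv_pos, hC.lv_le, hC.lev, ?_, ?_, ?_, ?_⟩
  · intro v j Q
    rw [descg_scale, hC.ker, mul_zero]
  · intro v v'
    rw [hC.self]
    split_ifs with h1
    · exact inv_mul_cancel₀ hh
    · exact mul_zero _
  · intro v e he
    change h⁻¹ * c v e = 0
    rw [hC.zero v e he, mul_zero]
  · intro i hi hiJ e he
    have h1 := Ideal.mul_mem_left _ (C h⁻¹) (hC.span i hi hiJ e he)
    have h2 : C h⁻¹ * (C h * monomial e 1 -
        ∑ v, (if lv v = i then monomial (g v) (c v e) else 0)) =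
        C 1 * monomial e 1 -
          ∑ v, (if lv v = i then monomial (g v) (h⁻¹ * c v e) else 0) := by
      rw [mul_sub, ← mul_assoc, ← C_mul, inv_mul_cancel₀ hh, Finset.mul_sum]
      congr 1
      refine Finset.sum_congr rfl fun v _ => ?_
      split_ifs with h3
      · rw [C_mul_monomial]
      · exact mul_zero _
    rw [h2] at h1
    exact h1

theorem CData.desc {m : ℕ} {K₁ K₂ : Type*} [Field K₁] [Field K₂] (φ : K₁ →+* K₂) {V : Type*}
    [Fintype V] [DecidableEq V] {d J : ℕ} {F : MvPolynomial (Fin m) K₁} {g : V → Fin m →₀ ℕ}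
    {lv : V → ℕ} {c : V → (Fin m →₀ ℕ) → K₂} (hC : CData d J (F.map φ) g lv c 1) :
    ∃ c' : V → (Fin m →₀ ℕ) → K₁, CData d J F g lv c' 1 := by
  classical
  obtain ⟨ρ, hρ1, hρ⟩ := descg_retr φ
  have hell : ∀ v (P : MvPolynomial (Fin m) K₁),
      ell (fun v e => ρ (c v e)) v P = ρ (ell c v (P.map φ)) := by
    intro v P
    induction P using MvPolynomial.induction_on' with
    | monomial u a => rw [MvPolynomial.map_monomial, ell_monomial, ell_monomial, hρ]
    | add p q hp hq => rw [map_add, hp, hq, map_add, map_add, map_add]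
  refine ⟨fun v e => ρ (c v e), hC.lv_pos, hC.lv_le, hC.lev, ?_, ?_, ?_, ?_⟩
  · intro v j Q
    have h1 := hC.ker v j (Q.map φ)
    rw [hell, map_mul, ← MvPolynomial.pderiv_map, h1, map_zero]
  · intro v v'
    rw [hC.self]
    split_ifs with h1
    · exact hρ1
    · exact map_zero ρ
  · intro v e he
    change ρ (c v e) = 0
    rw [hC.zero v e he, map_zero]
  · intro i hi hiJ e he
    obtain ⟨Q, hQ⟩ := Ideal.mem_span_range_iff_exists_fun.1 (hC.span i hi hiJ e he)
    choose Q' hQ' using fun j => descg_poly ρ (Q j)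
    rw [Ideal.mem_span_range_iff_exists_fun]
    refine ⟨Q', ?_⟩
    ext f
    have h1 : coeff f (∑ j, Q' j * pderiv j F) =
        ρ (coeff f (∑ j, Q j * pderiv j (F.map φ))) := by
      rw [coeff_sum, coeff_sum, map_sum]
      refine Finset.sum_congr rfl fun j _ => ?_
      rw [coeff_mul, coeff_mul, map_sum]
      refine Finset.sum_congr rfl fun x _ => ?_
      rw [hQ', MvPolynomial.pderiv_map, coeff_map, mul_comm (coeff x.1 (Q j)), hρ, mul_comm]
    rw [h1, hQ, coeff_sub, coeff_sub, map_sub, C_1, one_mul, C_1, one_mul, coeff_sum, coeff_sum,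
      map_sum, coeff_monomial, coeff_monomial]
    congr 1
    · split_ifs with h2
      · exact hρ1
      · exact map_zero ρ
    · refine Finset.sum_congr rfl fun v _ => ?_
      by_cases h2 : lv v = i
      · simp only [if_pos h2]
        rw [coeff_monomial, coeff_monomial]
        split_ifs with h3
        · rfl
        · exact map_zero ρ
      · simp only [if_neg h2]
        rw [coeff_zero, coeff_zero, map_zero]

theorem exists_cdata_A {A k : Type*} [CommRing A] [IsDomain A] [Field k] (ι : A →+* k)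
    (hι : Function.Injective ι) {m : ℕ} {V : Type*}
    [Fintype V] [DecidableEq V] {d J : ℕ} {F : MvPolynomial (Fin m) A} {g : V → Fin m →₀ ℕ}
    {lv : V → ℕ} {c : V → (Fin m →₀ ℕ) → k} {h : k} (hC : CData d J (F.map ι) g lv c h)
    (hh : h ≠ 0) :
    ∃ (h' : A) (c' : V → (Fin m →₀ ℕ) → A), h' ≠ 0 ∧ CData d J F g lv c' h' := by
  have h1 := hC.scale hh
  let φ : FractionRing A →+* k := IsFractionRing.lift hι
  have h2 : F.map ι = (F.map (algebraMap A (FractionRing A))).map φ := by
    have h0 : φ.comp (algebraMap A (FractionRing A)) = ι :=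
      RingHom.ext fun a => IsFractionRing.lift_algebraMap (K := FractionRing A) hι a
    rw [MvPolynomial.map_map, h0]
  rw [h2] at h1
  obtain ⟨c1, hc1⟩ := CData.desc φ h1
  obtain ⟨h', c', hh', _, hc'⟩ := CData.spread (algebraMap A (FractionRing A))
    (IsFractionRing.injective _ _) (fun x => by
      obtain ⟨b, s, hs, hbs⟩ := IsFractionRing.div_surjective (A := A) x
      refine ⟨b, s, nonZeroDivisors.ne_zero hs, ?_⟩
      have h3 : algebraMap A (FractionRing A) s ≠ 0 := by
        intro h4
        exact nonZeroDivisors.ne_zero hs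
          ((map_eq_zero_iff _ (IsFractionRing.injective A (FractionRing A))).1 h4)
      rw [← hbs, mul_div_cancel₀ _ h3]) hc1
  exact ⟨h', c', hh', hc'⟩

theorem exists_cdata_R {R : Type u} [CommRing R] [IsDomain R] [CharZero R] {n d : ℕ} (hd : 1 ≤ d)
    {Φ : MvPolynomial (Fin (n + 1)) R} (hΦ : Φ.IsHomogeneous d) {M : ℕ}
    (hM : ∀ i, (X i : MvPolynomial (Fin n) (FractionRing R)) ^ M ∈
      Jac (bdr (Φ.map (algebraMap R (FractionRing R)))))
    {U : Finset (Fin n →₀ ℕ)}
    (hU : IsMB (fun _ => 1) (bdr (Φ.map (algebraMap R (FractionRing R)))) U) (j : ℕ) :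
    ∃ (h : Polynomial R) (c : Vs U d j → (Fin (n + 1) →₀ ℕ) → Polynomial R), h ≠ 0 ∧
      CData d j (peq d Φ) (fun v : Vs U d j => gu d v.1) (fun v => lvu d v.1) c h := by
  have hinj : Function.Injective (algebraMap R (FractionRing R)) := IsFractionRing.injective _ _
  have hck : CharZero (FractionRing R) := charZero_of_injective_algebraMap hinj
  have hdκ : (d : FractionRing R) ≠ 0 := Nat.cast_ne_zero.2 (by omega)
  have hΦ' : (Φ.map (algebraMap R (FractionRing R))).IsHomogeneous d := hΦ.map _
  obtain ⟨c, hc⟩ := exists_cdata hd hdκ hΦ' hU hM j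
  have h1 : FK (Φ.map (algebraMap R (FractionRing R))) d =
      (peq d Φ).map (pred (algebraMap R (FractionRing R))) := by
    rw [peq_map]
    rfl
  rw [h1] at hc
  have hfr : ∀ x : FractionRing R, ∃ b s : R, s ≠ 0 ∧
      algebraMap R (FractionRing R) s * x = algebraMap R (FractionRing R) b := by
    intro x
    obtain ⟨b, s, hs, hbs⟩ := IsFractionRing.div_surjective (A := R) x
    refine ⟨b, s, nonZeroDivisors.ne_zero hs, ?_⟩
    have h3 : algebraMap R (FractionRing R) s ≠ 0 := by
      intro h4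
      exact nonZeroDivisors.ne_zero hs ((map_eq_zero_iff _ hinj).1 h4)
    rw [← hbs, mul_div_cancel₀ _ h3]
  have hpinj : Function.Injective (pred (algebraMap R (FractionRing R))) := by
    unfold pred
    rw [RingHom.coe_comp]
    refine (RatFunc.algebraMap_injective _).comp ?_
    rw [Polynomial.coe_mapRingHom]
    exact Polynomial.map_injective _ hinj
  obtain ⟨h, c', hh, _, hc'⟩ := CData.spread (pred (algebraMap R (FractionRing R))) hpinj
    (fun x => by
      obtain ⟨r1, hr1, N', hN'⟩ := descg_clearP _ hfr x.num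
      obtain ⟨r2, hr2, D', hD'⟩ := descg_clearP _ hfr x.denom
      have hden : algebraMap (Polynomial (FractionRing R)) (RatFunc (FractionRing R)) x.denom ≠ 0 := by
        intro h4
        exact x.denom_ne_zero ((map_eq_zero_iff _ (RatFunc.algebraMap_injective _)).1 h4)
      refine ⟨Polynomial.C r2 * N', Polynomial.C r1 * D', ?_, ?_⟩
      · refine mul_ne_zero (Polynomial.C_ne_zero.2 hr1) ?_
        intro h4
        rw [h4, Polynomial.map_zero] at hD'
        refine mul_ne_zero (Polynomial.C_ne_zero.2 ?_) x.denom_ne_zero hD'.symm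
        intro h5
        exact hr2 ((map_eq_zero_iff _ hinj).1 h5)
      · unfold pred
        rw [RingHom.comp_apply, RingHom.comp_apply, Polynomial.coe_mapRingHom, Polynomial.map_mul,
          Polynomial.map_mul, hN', hD', Polynomial.map_C, Polynomial.map_C]
        conv_lhs =>
          enter [2]
          rw [← x.num_div_denom]
        rw [mul_div_assoc', div_eq_iff hden, ← map_mul, ← map_mul]
        congr 1
        ring) hc
  exact ⟨h, c', hh, hc'⟩

end MPadcBK
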