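import Pool.Agent.Lib.MP_adc574_ag_BK.Defs

/-!
# JOB Ext: the exterior algebra

All statements follow from Mathlib (`CliffordAlgebra.contractLeft_ι_mul`, `contractLeft_contractLeft`, `contractLeft_comm`,
`ExteriorAlgebra.ι_sq_zero`, `ExteriorAlgebra.ι_add_mul_swap`, `CliffordAlgebra.left_induction`). `⋀[κ]^q V` is by definition
`(LinearMap.range (ι κ)) ^ q` (`ExteriorAlgebra.exteriorPower`); membership statements by `Submodule.pow_induction_on_left'`
or by `pow_succ'` and `Submodule.mul_induction_on`. `ct_mem`: induction on `q` with `ct_iota_mul`. `ext_top`: `⋀^q` is spanned by the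
`ιMulti` (`ExteriorAlgebra.ιMulti_span_fixedDegree`) and an alternating map in more than `m` vectors of `κ^m` is 0
(`AlternatingMap.map_linearDependent`), or use a finrank lemma of `Mathlib.LinearAlgebra.ExteriorPower.Basis`.
-/

set_option autoImplicit false

namespace MPadcBK

open ExteriorAlgebra

universe u

variable {κ : Type u} [Field κ] {m : ℕ}

private theorem Ext_dual (φ v : Fin m → κ) :
    (∑ i, φ i • (LinearMap.proj i : (Fin m → κ) →ₗ[κ] κ)) v = ∑ i, φ i * v i := by
  rw [LinearMap.sum_apply]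
  exact Finset.sum_congr rfl fun i _ => by
    rw [LinearMap.smul_apply, LinearMap.proj_apply, smul_eq_mul]

private theorem Ext_single (i : Fin m) :
    (∑ j, (Pi.single i (1 : κ) : Fin m → κ) j • (LinearMap.proj j : (Fin m → κ) →ₗ[κ] κ)) =
      LinearMap.proj i := by
  apply LinearMap.ext
  intro v
  rw [Ext_dual, LinearMap.proj_apply, Finset.sum_eq_single i]
  · rw [Pi.single_eq_same, one_mul]
  · intro j _ hj
    rw [Pi.single_eq_of_ne hj, zero_mul]
  · intro h
    exact absurd (Finset.mem_univ i) h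

theorem ct_iota_mul (φ v : Fin m → κ) (x : Lam κ m) :
    ct φ (ι κ v * x) = (∑ i, φ i * v i) • x - ι κ v * ct φ x := by
  unfold ct
  have h := CliffordAlgebra.contractLeft_ι_mul (Q := (0 : QuadraticForm κ (Fin m → κ)))
    (∑ i, φ i • (LinearMap.proj i : (Fin m → κ) →ₗ[κ] κ)) v x
  rw [Ext_dual] at h
  exact h

theorem cti_iota_mul (i : Fin m) (v : Fin m → κ) (x : Lam κ m) :
    cti i (ι κ v * x) = v i • x - ι κ v * cti i x := by
  unfold cti
  rw [ct_iota_mul, Finset.sum_eq_single i]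
  · rw [Pi.single_eq_same, one_mul]
  · intro j _ hj
    rw [Pi.single_eq_of_ne hj, zero_mul]
  · intro h
    exact absurd (Finset.mem_univ i) h

theorem cte_iota_mul (v : Fin m → κ) (x : Lam κ m) :
    cte (ι κ v * x) = (∑ i, v i) • x - ι κ v * cte x := by
  unfold cte
  rw [ct_iota_mul]
  simp only [one_mul]

theorem ct_smul_mul (φ : Fin m → κ) (a : κ) (x : Lam κ m) :
    ct φ (algebraMap κ (Lam κ m) a * x) = algebraMap κ (Lam κ m) a * ct φ x := by
  exact CliffordAlgebra.contractLeft_algebraMap_mul _ a x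

theorem ct_one (φ : Fin m → κ) : ct φ (1 : Lam κ m) = 0 := by
  exact CliffordAlgebra.contractLeft_one (Q := (0 : QuadraticForm κ (Fin m → κ))) _

theorem ct_ct (φ : Fin m → κ) (x : Lam κ m) : ct φ (ct φ x) = 0 := by
  exact CliffordAlgebra.contractLeft_contractLeft _ x

theorem ct_comm (φ ψ : Fin m → κ) (x : Lam κ m) : ct φ (ct ψ x) = - ct ψ (ct φ x) := by
  exact CliffordAlgebra.contractLeft_comm _ _ x

theorem ct_eq_sum (φ : Fin m → κ) (x : Lam κ m) : ct φ x = ∑ i, φ i • cti i x := by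
  have h1 : ∀ i, cti i x = CliffordAlgebra.contractLeft (Q := (0 : QuadraticForm κ (Fin m → κ)))
      (LinearMap.proj i : (Fin m → κ) →ₗ[κ] κ) x := by
    intro i
    unfold cti ct
    rw [Ext_single]
  rw [Finset.sum_congr rfl fun i _ => by rw [h1 i]]
  unfold ct
  rw [map_sum, LinearMap.sum_apply]
  exact Finset.sum_congr rfl fun i _ => by rw [map_smul, LinearMap.smul_apply]

theorem cte_eq_sum (x : Lam κ m) : cte x = ∑ i, cti i x := by
  unfold cte
  rw [ct_eq_sum]
  exact Finset.sum_congr rfl fun i _ => one_smul _ _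

theorem iota_self (v : Fin m → κ) (x : Lam κ m) : ι κ v * (ι κ v * x) = 0 := by
  rw [← mul_assoc, ι_sq_zero, zero_mul]

theorem iota_comm (v w : Fin m → κ) (x : Lam κ m) :
    ι κ v * (ι κ w * x) = - (ι κ w * (ι κ v * x)) := by
  rw [← mul_assoc, ← mul_assoc, ← neg_mul, eq_neg_of_add_eq_zero_left (ι_add_mul_swap v w)]

theorem iota_mem (v : Fin m → κ) {q : ℕ} {x : Lam κ m} (hx : x ∈ ⋀[κ]^q (Fin m → κ)) :
    ι κ v * x ∈ ⋀[κ]^(q + 1) (Fin m → κ) := by
  rw [exteriorPower, pow_succ']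
  exact Submodule.mul_mem_mul (LinearMap.mem_range_self _ v) hx

private theorem Ext_zero (φ : Fin m → κ) {x : Lam κ m} (hx : x ∈ ⋀[κ]^0 (Fin m → κ)) :
    ct φ x = 0 := by
  rw [exteriorPower, pow_zero, Submodule.mem_one] at hx
  obtain ⟨a, rfl⟩ := hx
  exact CliffordAlgebra.contractLeft_algebraMap (Q := (0 : QuadraticForm κ (Fin m → κ))) _ a

theorem ct_mem (φ : Fin m → κ) {q : ℕ} {x : Lam κ m} (hx : x ∈ ⋀[κ]^(q + 1) (Fin m → κ)) :
    ct φ x ∈ ⋀[κ]^q (Fin m → κ) := by
  induction q generalizing x with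
  | zero =>
    rw [exteriorPower, pow_succ'] at hx
    refine Submodule.mul_induction_on hx ?_ ?_
    · rintro _ ⟨v, rfl⟩ y hy
      rw [ct_iota_mul, Ext_zero φ hy, mul_zero, sub_zero]
      exact Submodule.smul_mem _ _ hy
    · intro y z hy hz
      rw [map_add]
      exact Submodule.add_mem _ hy hz
  | succ q ih =>
    rw [exteriorPower, pow_succ'] at hx
    refine Submodule.mul_induction_on hx ?_ ?_
    · rintro _ ⟨v, rfl⟩ y hy
      rw [ct_iota_mul]
      exact Submodule.sub_mem _ (Submodule.smul_mem _ _ hy) (iota_mem v (ih hy))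
    · intro y z hy hz
      rw [map_add]
      exact Submodule.add_mem _ hy hz

theorem ct_mem_zero (φ : Fin m → κ) {x : Lam κ m} (hx : x ∈ ⋀[κ]^0 (Fin m → κ)) :
    ct φ x = 0 := by
  exact Ext_zero φ hx

theorem mem_zero_iff {x : Lam κ m} :
    x ∈ ⋀[κ]^0 (Fin m → κ) ↔ ∃ a : κ, x = algebraMap κ (Lam κ m) a := by
  rw [exteriorPower, pow_zero, Submodule.mem_one]
  exact ⟨fun ⟨a, h⟩ => ⟨a, h.symm⟩, fun ⟨a, h⟩ => ⟨a, h.symm⟩⟩

theorem ext_top {q : ℕ} (hq : m < q) {x : Lam κ m} (hx : x ∈ ⋀[κ]^q (Fin m → κ)) : x = 0 := by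
  rw [← ιMulti_span_fixedDegree] at hx
  have h : Submodule.span κ (Set.range (ιMulti κ q (M := Fin m → κ))) ≤ ⊥ := by
    rw [Submodule.span_le]
    rintro _ ⟨v, rfl⟩
    rw [SetLike.mem_coe, Submodule.mem_bot]
    refine AlternatingMap.map_linearDependent (ιMulti κ q (M := Fin m → κ)) v fun hv => ?_
    have h1 := hv.fintype_card_le_finrank
    rw [Fintype.card_fin, Module.finrank_fin_fun] at h1
    omega
  exact (Submodule.mem_bot κ).1 (h hx)

/-- The splitting `x = dlog x_i ∧ ι_i x + ι_i (dlog x_i ∧ x)`. -/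
theorem split_i (i : Fin m) (x : Lam κ m) :
    x = ι κ (Pi.single i 1) * cti i x + cti i (ι κ (Pi.single i 1) * x) := by
  rw [cti_iota_mul, Pi.single_eq_same, one_smul, add_sub_cancel]

end MPadcBK
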