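import Pool.Agent.Lib.MP_adc574_ag_BK.FactH

/-!
# JOB FactD: the derivation rule on `Hprim`

On the generators `h = lv k (x^e)`, `wtp e < d (k+1)`: `k! cb v h = C v (k+1) (x^E)`, `E = hx d (k+1) e`, `tdg E = (k+1) d` (`tdg E = E 0 + 1 + wtp e`), so `k! DL (cb v h) = C v (k+2) (X 0 ^ d * x^E) + ∑ ν v v' C v' (k+1) (x^E)`, where `X 0 ^ d * x^E = x^(hx d (k+2) e)`, and
`C v (k+2) (x^(hx d (k+2) e)) = (k+1)! cb v (lv (k+1) (x^e)) = k! cb v (nab (lv k (x^e)))` (`nab_lv`). (`DL (k!) = 0`; `k! ≠ 0` in `L`, characteristic 0.) For `K`-combinations `x • h`: `DL (cb v (x • h)) = DL (x) cb v h + x DL (cb v h)`, `nab (x • h) = DK x • h + x • nab h` (`leib`), `hD`. `Submodule.span_induction`.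
-/

set_option autoImplicit false

namespace MPadcBK

open MvPolynomial MPadcGM MPadcHM

universe u

private theorem factd_wtp {n : ℕ} (e : Fin n →₀ ℕ) : wtp (fun _ => 1) e = ∑ i, (e i + 1) := by
  unfold wtp
  exact Finset.sum_congr rfl fun i _ => by rw [one_mul]

private theorem factd_tdg {n : ℕ} (d k : ℕ) (e : Fin n →₀ ℕ) (h : wtp (fun _ => 1) e < d * k) :
    tdg (hx d k e) = k * d := by
  unfold tdg hx
  rw [Fin.sum_univ_succ, Finsupp.cons_zero]
  have h1 : ∑ i : Fin n, (Finsupp.cons (d * k - wtp (fun _ => 1) e - 1) e i.succ + 1) =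
      wtp (fun _ => 1) e := by
    rw [factd_wtp]
    exact Finset.sum_congr rfl fun i _ => by rw [Finsupp.cons_succ]
  rw [h1, mul_comm k d]
  omega

private theorem factd_X {L : Type*} [Field L] {n : ℕ} (d k : ℕ) (e : Fin n →₀ ℕ)
    (h : wtp (fun _ => 1) e < d * k) :
    (X 0 ^ d * monomial (hx d k e) 1 : MvPolynomial (Fin (n + 1)) L) =
      monomial (hx d (k + 1) e) 1 := by
  rw [X_pow_eq_monomial, monomial_mul, mul_one]
  refine congrArg (fun z => monomial z (1 : L)) ?_
  ext i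
  rw [Finsupp.add_apply]
  unfold hx
  refine Fin.cases ?_ (fun j => ?_) i
  · rw [Finsupp.single_eq_same, Finsupp.cons_zero, Finsupp.cons_zero]
    have : d * (k + 1) = d * k + d := by ring
    omega
  · rw [Finsupp.cons_succ, Finsupp.cons_succ, Finsupp.single_eq_of_ne (Fin.succ_ne_zero j), zero_add]

theorem fact_der {κ : Type u} [Field κ] [CharZero κ] {n : ℕ} {S : Dat κ n} (hS : S.Ok)
    (hw : S.w = fun _ => 1) {nab : HH S.fK →ₗ[κ] HH S.fK} (hG : IsGM S nab S.br)
    {L : Type u} [Field L] [Algebra (RatFunc κ) L] (DL : Derivation ℤ L L)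
    (hD : ∀ x, DL (algebraMap (RatFunc κ) L x) = algebraMap (RatFunc κ) L (DK κ x))
    {V : Type} [Fintype V] (C : V → ℕ → MvPolynomial (Fin (n + 1)) L →ₗ[L] L)
    (ν : Matrix V V L) (hder : ∀ (v : V) (k : ℕ), 1 ≤ k → ∀ e : Fin (n + 1) →₀ ℕ, tdg e = k * S.d →
      DL (C v k (monomial e 1)) = C v (k + 1) (X 0 ^ S.d * monomial e 1) +
        ∑ v', ν v v' * C v' k (monomial e 1))
    (cb : V → HH S.fK →ₗ[RatFunc κ] L)
    (hcb : ∀ (v : V) (k : ℕ) (e : Fin n →₀ ℕ), wtp (fun _ => 1) e < S.d * (k + 1) →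
      (k.factorial : L) * cb v (lv nab S.br k (monomial e 1)) =
        C v (k + 1) (monomial (hx S.d (k + 1) e) 1)) (v : V) (h : HH S.fK)
    (hh : h ∈ Hprim S nab S.br) :
    DL (cb v h) = cb v (nab h) + ∑ v', ν v v' * cb v' h := by
  have hc1 : CharZero (RatFunc κ) :=
    charZero_of_injective_algebraMap (algebraMap κ (RatFunc κ)).injective
  have hc2 : CharZero L := charZero_of_injective_algebraMap (algebraMap (RatFunc κ) L).injective
  unfold Hprim at hh
  refine Submodule.span_induction (p := fun h _ => DL (cb v h) = cb v (nab h) + ∑ v', ν v v' * cb v' h)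
    ?_ ?_ ?_ ?_ hh
  · rintro h ⟨k, e, hke, rfl⟩
    rw [hw] at hke
    have hfac : (k.factorial : L) ≠ 0 := Nat.cast_ne_zero.2 (Nat.factorial_ne_zero k)
    apply mul_left_cancel₀ hfac
    have hder1 := hder v (k + 1) (by omega) (hx S.d (k + 1) e) (factd_tdg _ _ _ hke)
    rw [factd_X _ _ _ hke] at hder1
    have hke2 : wtp (fun _ => 1) e < S.d * (k + 1 + 1) :=
      lt_of_lt_of_le hke (Nat.mul_le_mul_left _ (by omega))
    rw [← hcb v k e hke, ← hcb v (k + 1) e hke2, Derivation.leibniz, Derivation.map_natCast,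
      smul_zero, add_zero, smul_eq_mul] at hder1
    rw [hder1, nab_lv]
    have h1 : (((k : κ) + 1) • lv nab S.br (k + 1) (monomial e 1) : HH S.fK) =
        (k + 1 : ℕ) • lv nab S.br (k + 1) (monomial e 1) := by
      rw [← Nat.cast_smul_eq_nsmul κ, Nat.cast_add, Nat.cast_one]
    rw [h1, map_nsmul, nsmul_eq_mul, Nat.factorial_succ, mul_add, Finset.mul_sum]
    refine congrArg₂ (fun a b => a + b) ?_ (Finset.sum_congr rfl fun v' _ => ?_)
    · push_cast
      ring
    · rw [← hcb v' k e hke]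
      ring
  · simp only [map_zero, mul_zero, Finset.sum_const_zero, add_zero]
  · intro x y _ _ hx hy
    simp only [map_add, mul_add, Finset.sum_add_distrib, hx, hy]
    ring
  · intro a x _ hx
    have h1 : DL (cb v (a • x)) = algebraMap (RatFunc κ) L a * DL (cb v x) +
        cb v x * algebraMap (RatFunc κ) L (DK κ a) := by
      rw [map_smul, Algebra.smul_def, Derivation.leibniz, smul_eq_mul, smul_eq_mul, hD]
    have h3 : cb v (nab (a • x)) = algebraMap (RatFunc κ) L (DK κ a) * cb v x +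
        algebraMap (RatFunc κ) L a * cb v (nab x) := by
      rw [hG.leib, map_add, map_smul, map_smul, Algebra.smul_def, Algebra.smul_def]
    rw [h1, h3, hx]
    have h2 : ∑ v', ν v v' * cb v' (a • x) = algebraMap (RatFunc κ) L a * ∑ v', ν v v' * cb v' x := by
      rw [Finset.mul_sum]
      refine Finset.sum_congr rfl fun v' _ => ?_
      rw [map_smul, Algebra.smul_def]
      ring
    rw [h2]
    ring

end MPadcBK
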