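import Pool.Agent.Lib.MP_adc574_ag_HM.WA
import Pool.Agent.Lib.MP_adc574_ag_HM.MilDefs

/-!
# JOB IndH: a basis of the primitive part

Notation of `MP_adc574_ag_HM/WA.lean`: `hgen`, `hli`, `hspan` (the classes `br (x^u)`, `u ∈ U`, are a basis of `H` over `K = κ(t)`), `q_u = wtp u - d`, `InW S br U q x`, `InW_theta`.
`lead`: for `u ∈ U` and `k`: there is `b ∈ κ` with `lv nab br k (x^u) - (b t^(-k)) • br (x^u) ∈ W_{q_u - d k - 1}`, and `b ≠ 0` if `d ∤ wtp u`: induction on `k`: `(k+1) lv (k+1) = nab (lv k)` (`nab_lv`); for `x ∈ W_q`: `X • nab x - (q/d) • x ∈ W_{q-1}` (`InW_theta`), so `nab x - (q/d) t⁻¹ x ∈ W_{q-d-1}` and `nab x ∈ W_{q-d}` (`InW_mul` by `t⁻¹`).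
Apply it to `x = lv k (x^u) ∈ W_{q_u - d k}` (`q = q_u - d k`): `nab x ≡ (q/d) t⁻¹ x ≡ (q/d) t⁻¹ b t^(-k) br (x^u)` mod `W_{q-d-1}`; new `b' = b (q_u - d k) / (d (k+1))`, and `q_u - d k = wtp u - d (k+1) ≠ 0` if `d ∤ wtp u`.
`indH`: suppose `∑_{u ∈ U, ¬ d ∣ wtp u} a_u • lv (k u) (x^u) = 0` with some `a_u ≠ 0`. Let `ρ` be the maximum of `d deg a_u + q_u - d (k u)` over the `u` with `a_u ≠ 0` (`deg = RatFunc.intDegree`). Then `∑_{u : weight = ρ} (b_u a_u t^(-k u)) • br (x^u) ∈ W_{ρ-1}` (the other terms are in `W_{ρ-1}`).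
The coefficients are determined (`hli`), so for a `u` in this sum `Bd d (ρ - 1 - q_u) (b_u a_u t^(-k u))`: `d (deg a_u - k u) ≤ ρ - 1 - q_u`, contradiction.
`Hprim_span`: (not needed)
-/

set_option autoImplicit false

namespace MPadcBK

open MvPolynomial MPadcHM

universe u

variable {κ : Type u} [Field κ] [CharZero κ] {n : ℕ} {S : Dat κ n} {H : Type u} [AddCommGroup H]
  [Module (RatFunc κ) H] [Module κ H] [IsScalarTower κ (RatFunc κ) H] {nab : H →ₗ[κ] H}
  {br : MvPolynomial (Fin n) κ →ₗ[κ] H} {U : Finset (Fin n →₀ ℕ)}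

private theorem indh_sum {q : ℤ} (T : Finset (Fin n →₀ ℕ)) (f : (Fin n →₀ ℕ) → H)
    (h : ∀ u ∈ T, InW S br U q (f u)) : InW S br U q (∑ u ∈ T, f u) :=
  Finset.sum_induction f (InW S br U q) (fun _ _ ha hb => InW_add ha hb) (InW_zero q) h

omit [CharZero κ] in
private theorem indh_X (d k : ℕ) : Bd d (-((d : ℤ) * k)) (((RatFunc.X : RatFunc κ)⁻¹) ^ k) := by
  induction k with
  | zero =>
    right
    rw [pow_zero, RatFunc.intDegree_one]
    simp
  | succ k ih =>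
    have h1 : Bd d (-(d : ℤ)) ((RatFunc.X : RatFunc κ)⁻¹) := by
      right
      rw [RatFunc.intDegree_inv, RatFunc.intDegree_X]
      linarith
    rw [pow_succ]
    exact Bd_mono (Bd_mul ih h1) (by push_cast; linarith)

omit [CharZero κ] in
private theorem indh_Xp (d k : ℕ) : Bd d ((d : ℤ) * k) ((RatFunc.X : RatFunc κ) ^ k) := by
  have h1 := Bd_poly (κ := κ) (d := d) (Polynomial.X ^ k)
  rw [Polynomial.natDegree_X_pow, map_pow, RatFunc.algebraMap_X] at h1
  exact h1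

private theorem indh_mon
    (hgen : ∀ (P : MvPolynomial (Fin n) κ) (N : ℕ), (∀ e ∈ P.support, wt S.w e ≤ N) →
      ∃ a : (Fin n →₀ ℕ) → Polynomial κ, (∀ u, a u ≠ 0 → S.d * (a u).natDegree + wt S.w u ≤ N) ∧
        br P = ∑ u ∈ U, algebraMap (Polynomial κ) (RatFunc κ) (a u) • br (monomial u 1))
    (u : Fin n →₀ ℕ) :
    InW S br U ((wtp S.w u : ℤ) - S.d) (br (monomial u 1)) := by
  refine InW_br hgen _ _ fun e he => ?_
  classical
  rw [mem_support_iff, coeff_monomial] at he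
  by_cases h : u = e
  · rw [h]
  · rw [if_neg h] at he
    exact absurd rfl he

private theorem indh_lead (hn : 0 < n) (hS : S.Ok) (hG : IsGM S nab br)
    (hgen : ∀ (P : MvPolynomial (Fin n) κ) (N : ℕ), (∀ e ∈ P.support, wt S.w e ≤ N) →
      ∃ a : (Fin n →₀ ℕ) → Polynomial κ, (∀ u, a u ≠ 0 → S.d * (a u).natDegree + wt S.w u ≤ N) ∧
        br P = ∑ u ∈ U, algebraMap (Polynomial κ) (RatFunc κ) (a u) • br (monomial u 1))
    (u : Fin n →₀ ℕ) (k : ℕ) :
    ∃ b : κ, (¬ S.d ∣ wtp S.w u → b ≠ 0) ∧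
      InW S br U ((wtp S.w u : ℤ) - S.d - S.d * k - 1)
        (lv nab br k (monomial u 1) - (b • ((RatFunc.X : RatFunc κ)⁻¹) ^ k) • br (monomial u 1)) := by
  have hd : (S.d : κ) ≠ 0 := by exact_mod_cast hS.d_pos.ne'
  have hX : (RatFunc.X : RatFunc κ) ≠ 0 := RatFunc.X_ne_zero
  induction k with
  | zero =>
    refine ⟨1, fun _ => one_ne_zero, ?_⟩
    rw [lv_zero, pow_zero, one_smul, one_smul, sub_self]
    exact InW_zero _
  | succ k ih =>
    obtain ⟨b, hb, hr⟩ := ih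
    set q : ℤ := (wtp S.w u : ℤ) - S.d - S.d * k with hq
    set z : H := ((RatFunc.X : RatFunc κ)⁻¹) ^ k • br (monomial u 1) with hz
    have hz1 : InW S br U q z := by
      have h1 := InW_mul (indh_X (κ := κ) S.d k) (indh_mon hgen u)
      exact InW_mono (by rw [hq]; linarith) h1
    have hbz : (b • ((RatFunc.X : RatFunc κ)⁻¹) ^ k) • br (monomial u 1) = b • z := by
      rw [hz, smul_assoc]
    rw [hbz] at hr
    have hy : InW S br U q (lv nab br k (monomial u 1)) := by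
      have h1 := InW_add (InW_mono (by linarith : q - 1 ≤ q) hr) (InW_smul b hz1)
      rwa [sub_add_cancel] at h1
    have h2 := InW_theta hgen hn hS hG q _ hy
    have hXi : Bd S.d (-(S.d : ℤ)) ((RatFunc.X : RatFunc κ)⁻¹) := by
      have h3 := indh_X (κ := κ) S.d 1
      rw [pow_one, Nat.cast_one, mul_one] at h3
      exact h3
    have h3 := InW_mul hXi h2
    have h4 := InW_mul hXi hr
    rw [nab_lv] at h3
    have hk : ((k : κ) + 1) ≠ 0 := by exact_mod_cast Nat.succ_ne_zero k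
    refine ⟨((k : κ) + 1)⁻¹ * ((q : κ) / S.d) * b, fun hdiv => ?_, ?_⟩
    · refine mul_ne_zero (mul_ne_zero (inv_ne_zero hk) (div_ne_zero ?_ hd)) (hb hdiv)
      intro h5
      apply hdiv
      have h6 : q = 0 := by exact_mod_cast h5
      rw [hq] at h6
      have h7 : (wtp S.w u : ℤ) = ((S.d * (k + 1) : ℕ) : ℤ) := by
        push_cast
        linarith
      exact ⟨k + 1, by exact_mod_cast h7⟩
    · have h5 : lv nab br (k + 1) (monomial u 1) -
          ((((k : κ) + 1)⁻¹ * ((q : κ) / S.d) * b) • ((RatFunc.X : RatFunc κ)⁻¹) ^ (k + 1)) •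
            br (monomial u 1) =
          ((k : κ) + 1)⁻¹ • ((RatFunc.X : RatFunc κ)⁻¹ • ((RatFunc.X : RatFunc κ) •
            ((k : κ) + 1) • lv nab br (k + 1) (monomial u 1) -
              ((q : κ) / S.d) • lv nab br k (monomial u 1)) +
            ((q : κ) / S.d) • ((RatFunc.X : RatFunc κ)⁻¹ •
              (lv nab br k (monomial u 1) - b • z))) := by
        have e1 : (RatFunc.X : RatFunc κ)⁻¹ • ((RatFunc.X : RatFunc κ) •
            ((k : κ) + 1) • lv nab br (k + 1) (monomial u 1)) =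
            ((k : κ) + 1) • lv nab br (k + 1) (monomial u 1) := by
          rw [smul_smul, inv_mul_cancel₀ hX, one_smul]
        have e2 : ((((k : κ) + 1)⁻¹ * ((q : κ) / S.d) * b) • ((RatFunc.X : RatFunc κ)⁻¹) ^ (k + 1)) •
            br (monomial u 1) =
            ((k : κ) + 1)⁻¹ • ((q : κ) / S.d) • b • ((RatFunc.X : RatFunc κ)⁻¹ • z) := by
          rw [hz, smul_smul ((RatFunc.X : RatFunc κ)⁻¹), ← pow_succ', smul_assoc, smul_smul, smul_smul,
            mul_assoc]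
        have e3 : (RatFunc.X : RatFunc κ)⁻¹ • (((q : κ) / S.d) • lv nab br k (monomial u 1)) =
            ((q : κ) / S.d) • ((RatFunc.X : RatFunc κ)⁻¹ • lv nab br k (monomial u 1)) :=
          smul_comm _ _ _
        have e4 : (RatFunc.X : RatFunc κ)⁻¹ • (b • z) = b • ((RatFunc.X : RatFunc κ)⁻¹ • z) :=
          smul_comm _ _ _
        rw [e2, smul_sub (RatFunc.X : RatFunc κ)⁻¹, e1, e3, smul_sub (RatFunc.X : RatFunc κ)⁻¹, e4,
          smul_sub ((q : κ) / S.d), sub_add_sub_cancel, smul_sub, smul_smul ((k : κ) + 1)⁻¹ ((k : κ) + 1),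
          inv_mul_cancel₀ hk, one_smul]
      rw [h5]
      refine InW_smul _ (InW_add ?_ (InW_smul _ ?_))
      · refine InW_mono ?_ h3
        rw [hq]
        push_cast
        linarith
      · refine InW_mono ?_ h4
        rw [hq]
        push_cast
        linarith

theorem indH (hn : 0 < n) (hS : S.Ok) (hG : IsGM S nab br)
    (hgen : ∀ (P : MvPolynomial (Fin n) κ) (N : ℕ), (∀ e ∈ P.support, wt S.w e ≤ N) →
      ∃ a : (Fin n →₀ ℕ) → Polynomial κ, (∀ u, a u ≠ 0 → S.d * (a u).natDegree + wt S.w u ≤ N) ∧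
        br P = ∑ u ∈ U, algebraMap (Polynomial κ) (RatFunc κ) (a u) • br (monomial u 1))
    (hli : ∀ a : (Fin n →₀ ℕ) → RatFunc κ, ∑ u ∈ U, a u • br (monomial u 1) = 0 →
      ∀ u ∈ U, a u = 0) (k : (Fin n →₀ ℕ) → ℕ) (a : (Fin n →₀ ℕ) → RatFunc κ)
    (ha : ∀ u ∈ U, S.d ∣ wtp S.w u → a u = 0)
    (h : ∑ u ∈ U, a u • lv nab br (k u) (monomial u 1) = 0) : ∀ u ∈ U, a u = 0 := by
  classical
  by_contra hcon
  push Not at hcon
  obtain ⟨u0, hu0, hau0⟩ := hcon
  choose b hb hr using fun u : Fin n →₀ ℕ => indh_lead hn hS hG hgen u (k u)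
  obtain ⟨u1, hu1, hmax⟩ := Finset.exists_max_image (U.filter fun u => a u ≠ 0)
    (fun u => (S.d : ℤ) * (a u).intDegree + ((wtp S.w u : ℤ) - S.d - S.d * k u))
    ⟨u0, Finset.mem_filter.mpr ⟨hu0, hau0⟩⟩
  rw [Finset.mem_filter] at hu1
  obtain ⟨hu1U, hau1⟩ := hu1
  set ρ : ℤ := (S.d : ℤ) * (a u1).intDegree + ((wtp S.w u1 : ℤ) - S.d - S.d * k u1) with hρ
  have hdiv : ¬ S.d ∣ wtp S.w u1 := fun hc => hau1 (ha u1 hu1U hc)
  have hsmall : InW S br U (ρ - 1) (∑ u ∈ U, a u • (lv nab br (k u) (monomial u 1) -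
      (b u • ((RatFunc.X : RatFunc κ)⁻¹) ^ (k u)) • br (monomial u 1))) := by
    refine indh_sum U _ fun u hu => ?_
    by_cases hau : a u = 0
    · rw [hau, zero_smul]
      exact InW_zero _
    · have h1 := InW_mul (Or.inr le_rfl : Bd S.d ((S.d : ℤ) * (a u).intDegree) (a u)) (hr u)
      have h2 := hmax u (Finset.mem_filter.mpr ⟨hu, hau⟩)
      exact InW_mono (by linarith) h1
  have hz : ∑ u ∈ U, a u • (lv nab br (k u) (monomial u 1) -
      (b u • ((RatFunc.X : RatFunc κ)⁻¹) ^ (k u)) • br (monomial u 1)) =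
      -∑ u ∈ U, (a u * (b u • ((RatFunc.X : RatFunc κ)⁻¹) ^ (k u))) • br (monomial u 1) := by
    have h1 : ∑ u ∈ U, a u • (lv nab br (k u) (monomial u 1) -
        (b u • ((RatFunc.X : RatFunc κ)⁻¹) ^ (k u)) • br (monomial u 1)) =
        ∑ u ∈ U, a u • lv nab br (k u) (monomial u 1) -
        ∑ u ∈ U, (a u * (b u • ((RatFunc.X : RatFunc κ)⁻¹) ^ (k u))) • br (monomial u 1) := by
      rw [← Finset.sum_sub_distrib]
      refine Finset.sum_congr rfl fun u _ => ?_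
      rw [smul_sub, smul_smul]
    rw [h1, h, zero_sub]
  rw [hz] at hsmall
  obtain ⟨c, hc, hce⟩ := hsmall
  have hrel := hli (fun u => c u + a u * (b u • ((RatFunc.X : RatFunc κ)⁻¹) ^ (k u))) (by
    have h1 : ∑ u ∈ U, (c u + a u * (b u • ((RatFunc.X : RatFunc κ)⁻¹) ^ (k u))) • br (monomial u 1) =
        ∑ u ∈ U, c u • br (monomial u 1) +
        ∑ u ∈ U, (a u * (b u • ((RatFunc.X : RatFunc κ)⁻¹) ^ (k u))) • br (monomial u 1) := by
      rw [← Finset.sum_add_distrib]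
      refine Finset.sum_congr rfl fun u _ => ?_
      rw [add_smul]
    rw [h1, ← hce, neg_add_cancel]) u1 hu1U
  have hrel' : a u1 * (b u1 • ((RatFunc.X : RatFunc κ)⁻¹) ^ (k u1)) = (-1 : κ) • c u1 := by
    rw [neg_smul, one_smul]
    exact eq_neg_of_add_eq_zero_right hrel
  have h3 : Bd S.d (ρ - 1 - ((wtp S.w u1 : ℤ) - S.d))
      (a u1 * (b u1 • ((RatFunc.X : RatFunc κ)⁻¹) ^ (k u1))) := by
    rw [hrel']
    exact Bd_smul _ (hc u1)
  have h4 := Bd_smul ((b u1)⁻¹) (Bd_mul h3 (indh_Xp (κ := κ) S.d (k u1)))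
  have hb1 := hb u1 hdiv
  have hX : (RatFunc.X : RatFunc κ) ≠ 0 := RatFunc.X_ne_zero
  have h5 : (b u1)⁻¹ • (a u1 * (b u1 • ((RatFunc.X : RatFunc κ)⁻¹) ^ (k u1)) *
      (RatFunc.X : RatFunc κ) ^ (k u1)) = a u1 := by
    rw [mul_smul_comm, smul_mul_assoc, smul_smul, inv_mul_cancel₀ hb1, one_smul, mul_assoc,
      ← mul_pow, inv_mul_cancel₀ hX, one_pow, mul_one]
  rw [h5] at h4
  rcases h4 with h4 | h4
  · exact hau1 h4
  · rw [hρ] at h4
    linarith

end MPadcBK
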