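import Pool.Agent.Lib.MP_adc574_ag_BK.BasK
import Pool.Agent.Lib.MP_adc574_ag_BK.IndH
import Pool.Agent.Lib.MP_adc574_ag_HM.MilC
import Pool.Agent.Lib.MP_adc574_ag_HM.InfA

/-!
# JOB FactH: functionals on the forms of all pole orders factor through `Hprim`

`K = κ(t)`, weights 1, `Φ` homogeneous of degree `d = S.d` in `n + 1` variables, `aff Φ = S.φ`, `FK Φ d = Φ^K - t x_0^d`. `hx d k e` is the exponent `cons (d k - wtp e - 1) e` (level `k` if `wtp e < d k`). `C k` are `L`-linear functionals with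
`C (k+1) (Q * ∂_j F_L) = C k (∂_j Q)` for `1 ≤ k` (`F_L = (FK Φ d).map`). Claim: there is a `K`-linear `cb : H → L` with `k! * cb (lv k (x^e)) = C (k+1) (x^(hx d (k+1) e))` for `wtp e < d (k+1)`.

Proof. Let `T` be the set of pairs `(k, e)`, `e : Fin (n+1) →₀ ℕ`, `1 ≤ k`, `tdg e = k d`, and `M = T →₀ K`. `A : M → H` linear, `A (k, e) = (k-1)! • lv nab S.br (k-1) (x^(e.tail))` (`algebraMap` of the factorial), `B : M → L` `K`-linear, `B (k, e) = C k (x^e)`. To show: `A x = 0` implies `B x = 0` (then `cb` exists: `B` factors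
through the range of `A`, and a linear map on a subspace extends; `LinearMap.exists_extend`, or `(A.ker ≤ B.ker)`-factorization).
Write `[k, P]` for the element of `M` of a homogeneous polynomial `P` over `K` with `tdg = k d`. Relations: for `1 ≤ k`, `Q` over `K` homogeneous (all monomials `e` with `tdg e = k d + 1`): `ρ(k, j, Q) = [k, ∂_j Q] - [k+1, Q ∂_j F]`, `F = FK Φ d`. `B ρ = 0` by hypothesis.
`A ρ = 0`: by linearity `Q = x^e`, `e' = e.tail`. `j = i + 1`: `∂_j F` has the affine part `∂_i φ` (over `κ`), so `A ρ = (k-1)! [∂_i x^e']_{k-1} - k! [x^e' ∂_i φ]_k = 0` by `lv_exa`. `j = 0`: `∂_0 x^e = (e 0) x^(e - ε_0)`, `e 0 = k d - wtp e'`; `∂_0 F = ∂_0 Φ - d t x_0^(d-1)` and `aff (∂_0 Φ) = ψ = S.psi` (Euler for `Φ`: `d Φ = ∑ x_i ∂_i Φ`),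
so `A ρ = (k-1)! (k d - wtp e') [x^e']_{k-1} - k! ([x^e' ψ]_k - d t [x^e']_k) = 0` by `EU` (at `k - 1`).
Reduction: every element of `M` is, modulo the span `N` of the relations, a combination of the `[lvu u, x^(gu u)]`, `u ∈ U`, `¬ d ∣ wtp u`: induction on `k` for `[k, x^e]`: `bas_span`: `x^e = ∑_{u low} c_u x^(mx |e| u) + ∑ Q_j ∂_j F` (`Q_j` may be taken homogeneous; `tdg e = k d`: the low `u` for `|e|` are the `u ∈ U` with
`(k-1) d < wtp u < k d`, and `mx |e| u = gu d u`, `lvu d u = k`). If `k ≥ 2`: `[k, Q_j ∂_j F] ≡ [k-1, ∂_j Q_j]`. If `k = 1`: all `Q_j ∂_j F = 0`: `Q_j` would have degree `d - (n+1) - (d-1) < 0`.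
Now `A x = 0`, `x = ν + ∑ a_u [lvu u, x^(gu u)]`, `ν ∈ N`: `0 = A x = ∑ a_u (lvu u - 1)! lv (lvu u - 1) (x^u)`, so `a = 0` by `indH` (`h_gen`, `h_ind` from MilC; `part S.w S.d S.φ = bdr Φ`: `part_aff`), `x = ν`, `B x = 0`.
-/

set_option autoImplicit false

namespace MPadcBK

open MvPolynomial MPadcGM MPadcHM

universe u

/-- The homogenized exponent of level `k`. -/
noncomputable def hx {n : ℕ} (d k : ℕ) (e : Fin n →₀ ℕ) : Fin (n + 1) →₀ ℕ :=
  Finsupp.cons (d * k - wtp (fun _ => 1) e - 1) e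


section aux

variable {K : Type*} [Field K] {m : ℕ} {V : Type*} [AddCommGroup V] [Module K V]

/-- The linear map with prescribed values on the monomials. -/
private noncomputable def facth_f (f : (Fin m →₀ ℕ) → V) : MvPolynomial (Fin m) K →ₗ[K] V :=
  (MvPolynomial.basisMonomials (Fin m) K).constr K f

private theorem facth_mon (f : (Fin m →₀ ℕ) → V) (e : Fin m →₀ ℕ) (a : K) :
    facth_f f (monomial e a) = a • f e := by
  have h1 : (monomial e a : MvPolynomial (Fin m) K) = a • MvPolynomial.basisMonomials (Fin m) K e := by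
    rw [MvPolynomial.coe_basisMonomials, MvPolynomial.smul_monomial, smul_eq_mul, mul_one]
  rw [h1, map_smul]
  unfold facth_f
  rw [Module.Basis.constr_basis]

private theorem facth_sum (f : (Fin m →₀ ℕ) → V) (P : MvPolynomial (Fin m) K) :
    facth_f f P = ∑ e ∈ P.support, coeff e P • f e := by
  conv_lhs => rw [MvPolynomial.as_sum P]
  rw [map_sum]
  exact Finset.sum_congr rfl fun e _ => facth_mon f e _

private theorem facth_congr {f g : (Fin m →₀ ℕ) → V} {P : MvPolynomial (Fin m) K}
    (h : ∀ e ∈ P.support, f e = g e) : facth_f f P = facth_f g P := by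
  rw [facth_sum, facth_sum]
  exact Finset.sum_congr rfl fun e he => by rw [h e he]

private theorem facth_zero {f : (Fin m →₀ ℕ) → V} {P : MvPolynomial (Fin m) K}
    (h : ∀ e ∈ P.support, f e = 0) : facth_f f P = 0 := by
  rw [facth_sum]
  exact Finset.sum_eq_zero fun e he => by rw [h e he, smul_zero]

private theorem facth_prod {W : Type*} [AddCommGroup W] [Module K W] (f : (Fin m →₀ ℕ) → V)
    (g : (Fin m →₀ ℕ) → W) (P : MvPolynomial (Fin m) K) :
    facth_f (fun e => (f e, g e)) P = (facth_f f P, facth_f g P) := by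
  rw [facth_sum, facth_sum, facth_sum]
  apply Prod.ext
  · rw [Prod.fst_sum]
    rfl
  · rw [Prod.snd_sum]
    rfl

private theorem facth_sumdeg {N : ℕ} {P : MvPolynomial (Fin m) K}
    (hP : P.IsHomogeneous N) {e : Fin m →₀ ℕ} (he : e ∈ P.support) : ∑ i, e i = N := by
  have h1 := hP (MvPolynomial.mem_support_iff.mp he)
  rw [Finsupp.weight_apply, Finsupp.sum_fintype _ _ (by simp)] at h1
  simp only [Pi.one_apply, smul_eq_mul, mul_one] at h1
  exact h1

private theorem facth_tdg (e : Fin m →₀ ℕ) : tdg e = ∑ i, e i + m := by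
  unfold tdg
  rw [Finset.sum_add_distrib]
  simp

private theorem facth_tdg_pd {e : Fin m →₀ ℕ} {j : Fin m} {f : Fin m →₀ ℕ}
    (hf : f ∈ (pderiv j (monomial e (1 : K))).support) : tdg f + 1 = tdg e := by
  classical
  rw [pderiv_monomial, one_mul] at hf
  by_cases h : e j = 0
  · rw [h, Nat.cast_zero, map_zero, support_zero] at hf
    exact absurd hf (Finset.notMem_empty _)
  · have h1 := Finset.mem_singleton.1 (support_monomial_subset hf)
    rw [h1]
    unfold tdg
    rw [← Finset.add_sum_erase _ _ (Finset.mem_univ j),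
      ← Finset.add_sum_erase (f := fun i => e i + 1) _ (Finset.mem_univ j)]
    have h2 : ∑ i ∈ Finset.univ.erase j, ((e - Finsupp.single j 1 : Fin m →₀ ℕ) i + 1) =
        ∑ i ∈ Finset.univ.erase j, (e i + 1) := by
      refine Finset.sum_congr rfl fun i hi => ?_
      rw [Finsupp.coe_tsub, Pi.sub_apply, Finsupp.single_apply,
        if_neg (Finset.ne_of_mem_erase hi).symm, Nat.sub_zero]
    rw [h2, Finsupp.coe_tsub, Pi.sub_apply, Finsupp.single_eq_same]
    omega

end aux

section lev

variable {κ : Type u} [Field κ] [CharZero κ] {n : ℕ} {S : Dat κ n}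

omit [CharZero κ] in
private theorem facth_psi (hw : S.w = fun _ => 1) {Φ : MvPolynomial (Fin (n + 1)) κ}
    (hΦ : Φ.IsHomogeneous S.d) (haff : aff Φ = S.φ) : aff (pderiv 0 Φ) = S.psi := by
  have h1 := congrArg aff hΦ.sum_X_mul_pderiv
  rw [Fin.sum_univ_succ, aff_add, aff_mul, aff_X_zero, one_mul, aff_sum] at h1
  have h2 : aff (S.d • Φ) = (S.d : κ) • S.φ := by
    unfold aff
    rw [map_nsmul, Nat.cast_smul_eq_nsmul]
    congr 1
  have h3 : ∀ i : Fin n, aff (X i.succ * pderiv i.succ Φ) = X i * pderiv i S.φ := by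
    intro i
    rw [aff_mul, aff_pderiv, haff]
    congr 1
    unfold aff
    rw [aeval_X, Fin.cons_succ]
  rw [h2, Finset.sum_congr rfl fun i _ => h3 i] at h1
  unfold Dat.psi
  rw [← h1, hw]
  simp only [Nat.cast_one, one_smul]
  rw [add_sub_cancel_right]

variable {nab : HH S.fK →ₗ[κ] HH S.fK}

/-- The values of the first coordinate. -/
private noncomputable def facth_A (nab : HH S.fK →ₗ[κ] HH S.fK) (k : ℕ)
    (e : Fin (n + 1) →₀ ℕ) : HH S.fK :=
  (k.factorial : RatFunc κ) • lv nab S.br k (monomial e.tail 1)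

omit [CharZero κ] in
private theorem facth_A_map (k : ℕ) (P : MvPolynomial (Fin (n + 1)) κ) :
    facth_f (facth_A (S := S) nab k) (P.map (algebraMap κ (RatFunc κ))) =
      (k.factorial : RatFunc κ) • lv nab S.br k (aff P) := by
  induction P using MvPolynomial.induction_on' with
  | monomial e a =>
    rw [map_monomial, facth_mon, aff_monomial]
    have h1 : (monomial e.tail a : MvPolynomial (Fin n) κ) = a • monomial e.tail 1 := by
      rw [smul_monomial, smul_eq_mul, mul_one]
    rw [h1, map_smul, algebraMap_smul]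
    unfold facth_A
    rw [smul_comm]
  | add P Q hP hQ => rw [map_add, map_add, hP, hQ, aff_add, map_add, smul_add]

private theorem facth_succ (hG : IsGM S nab S.br) {Φ : MvPolynomial (Fin (n + 1)) κ}
    (haff : aff Φ = S.φ) (k : ℕ) (i : Fin n) (e : Fin (n + 1) →₀ ℕ) :
    facth_f (facth_A (S := S) nab (k + 1)) (monomial e (1 : RatFunc κ) * pderiv i.succ (FK Φ S.d)) =
      facth_f (facth_A (S := S) nab k) (pderiv i.succ (monomial e (1 : RatFunc κ))) := by
  have h1 : pderiv i.succ (FK Φ S.d) = (pderiv i.succ Φ).map (algebraMap κ (RatFunc κ)) := by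
    unfold FK
    rw [map_sub, pderiv_C_mul, pderiv_pow, pderiv_X_of_ne (Fin.succ_ne_zero i).symm, mul_zero,
      mul_zero, sub_zero, pderiv_map]
  have h2 : (monomial e 1 : MvPolynomial (Fin (n + 1)) (RatFunc κ)) =
      (monomial e (1 : κ)).map (algebraMap κ (RatFunc κ)) := by rw [map_monomial, RingHom.map_one]
  rw [h1, h2, ← map_mul, facth_A_map, pderiv_map, facth_A_map, aff_mul, aff_pderiv, haff,
    aff_pderiv, aff_monomial, lv_exa hG, Nat.factorial_succ, Nat.cast_mul, mul_comm, mul_smul]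
  congr 1
  rw [← algebraMap_smul (RatFunc κ) ((k : κ) + 1), RingHom.map_add, map_natCast, RingHom.map_one,
    Nat.cast_add, Nat.cast_one]

private theorem facth_zer (hw : S.w = fun _ => 1) (hG : IsGM S nab S.br)
    {Φ : MvPolynomial (Fin (n + 1)) κ} (hΦ : Φ.IsHomogeneous S.d)
    (haff : aff Φ = S.φ) (k : ℕ) (e : Fin (n + 1) →₀ ℕ) (he : tdg e = (k + 1) * S.d + 1) :
    facth_f (facth_A (S := S) nab (k + 1)) (monomial e (1 : RatFunc κ) * pderiv 0 (FK Φ S.d)) =
      facth_f (facth_A (S := S) nab k) (pderiv 0 (monomial e (1 : RatFunc κ))) := by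
  have h1 : pderiv 0 (FK Φ S.d) = (pderiv 0 Φ).map (algebraMap κ (RatFunc κ)) -
      C ((S.d : RatFunc κ) * RatFunc.X) * X 0 ^ (S.d - 1) := by
    unfold FK
    rw [map_sub, pderiv_C_mul, pderiv_pow, pderiv_X_self, mul_one, C_mul, map_natCast, pderiv_map]
    ring
  have h2 : (monomial e 1 : MvPolynomial (Fin (n + 1)) (RatFunc κ)) =
      (monomial e (1 : κ)).map (algebraMap κ (RatFunc κ)) := by rw [map_monomial, RingHom.map_one]
  have h3 : (X 0 ^ (S.d - 1) : MvPolynomial (Fin (n + 1)) (RatFunc κ)) =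
      (X 0 ^ (S.d - 1) : MvPolynomial (Fin (n + 1)) κ).map (algebraMap κ (RatFunc κ)) := by
    rw [map_pow, map_X]
  have h4 : (monomial e 1 : MvPolynomial (Fin (n + 1)) (RatFunc κ)) * pderiv 0 (FK Φ S.d) =
      (monomial e (1 : κ) * pderiv 0 Φ).map (algebraMap κ (RatFunc κ)) -
      ((S.d : RatFunc κ) * RatFunc.X) • (monomial e (1 : κ) * X 0 ^ (S.d - 1)).map
        (algebraMap κ (RatFunc κ)) := by
    rw [h1, h2, h3, mul_sub, smul_eq_C_mul]
    simp only [map_mul]
    ring
  have h5 : aff (pderiv 0 (monomial e (1 : κ))) = (e 0 : κ) • monomial e.tail 1 := by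
    have h7 : (e - Finsupp.single 0 1).tail = e.tail := by
      ext i
      rw [Finsupp.tail_apply, Finsupp.tail_apply, Finsupp.coe_tsub, Pi.sub_apply,
        Finsupp.single_apply, if_neg (Fin.succ_ne_zero i).symm, Nat.sub_zero]
    rw [pderiv_monomial, aff_monomial, one_mul, smul_monomial, smul_eq_mul, mul_one, h7]
  have h6 : e 0 + wtp (fun _ => 1) e.tail = (k + 1) * S.d := by
    have h7 : tdg e = e 0 + 1 + wtp (fun _ => 1) e.tail := by
      unfold tdg wtp
      rw [Fin.sum_univ_succ]
      congr 1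
      refine Finset.sum_congr rfl fun i _ => ?_
      rw [Finsupp.tail_apply, one_mul]
    omega
  have h8 : (e 0 : κ) = ((k : κ) + 1) * S.d - (wtp S.w e.tail : κ) := by
    rw [hw, eq_sub_iff_add_eq, ← Nat.cast_add, h6]
    push_cast
    ring
  have h9 := EU hG k e.tail
  rw [← h8] at h9
  rw [h4, map_sub, map_smul, facth_A_map, facth_A_map, h2, pderiv_map, facth_A_map, h5, aff_mul,
    aff_mul, aff_monomial, aff_pow, aff_X_zero, one_pow, mul_one, facth_psi hw hΦ haff, map_smul]
  set x := lv nab S.br (k + 1) (monomial e.tail 1 * S.psi)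
  set y := lv nab S.br (k + 1) (monomial e.tail 1)
  set z := lv nab S.br k (monomial e.tail 1)
  have hs : ∀ (a : κ) (h : HH S.fK), a • h = (algebraMap κ (RatFunc κ) a) • h :=
    fun a h => (algebraMap_smul _ a h).symm
  rw [hs, hs, hs, map_mul, map_add, map_natCast, map_one, map_natCast, map_natCast] at h9
  rw [hs, map_natCast, Nat.factorial_succ, Nat.cast_mul, Nat.cast_add, Nat.cast_one]
  have h10 : (e 0 : RatFunc κ) • z = ((k : RatFunc κ) + 1) • x -
      (((k : RatFunc κ) + 1) * S.d) • (RatFunc.X : RatFunc κ) • y := by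
    rw [h9, sub_sub_cancel]
  rw [h10]
  simp only [smul_sub, smul_smul]
  congr 1
  · congr 1
    ring
  · congr 1
    ring

end lev

section main

variable {κ : Type u} [Field κ] {n : ℕ} {L : Type u} [Field L] [Algebra (RatFunc κ) L]

private theorem facth_B (C : MvPolynomial (Fin (n + 1)) L →ₗ[L] L)
    (P : MvPolynomial (Fin (n + 1)) (RatFunc κ)) :
    facth_f (fun e => C (monomial e 1)) P = C (P.map (algebraMap (RatFunc κ) L)) := by
  induction P using MvPolynomial.induction_on' with
  | monomial e a =>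
    rw [map_monomial, facth_mon]
    have h1 : (monomial e (algebraMap (RatFunc κ) L a) : MvPolynomial (Fin (n + 1)) L) =
        (algebraMap (RatFunc κ) L a) • monomial e 1 := by
      rw [smul_monomial, smul_eq_mul, mul_one]
    rw [h1, map_smul, algebraMap_smul]
  | add P Q hP hQ => rw [map_add, map_add, hP, hQ, map_add]

private theorem facth_hom {d : ℕ} {Φ : MvPolynomial (Fin (n + 1)) κ} (hΦ : Φ.IsHomogeneous d)
    (j : Fin (n + 1)) (e : Fin (n + 1) →₀ ℕ) :
    (monomial e (1 : RatFunc κ) * pderiv j (FK Φ d)).IsHomogeneous (∑ i, e i + (d - 1)) := by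
  have h1 : (FK Φ d).IsHomogeneous d := by
    unfold FK
    refine (hΦ.map _).sub ?_
    have h2 := (isHomogeneous_C (Fin (n + 1)) (RatFunc.X : RatFunc κ)).mul
      ((isHomogeneous_X (RatFunc κ) (0 : Fin (n + 1))).pow d)
    rwa [zero_add, one_mul] at h2
  refine IsHomogeneous.mul (isHomogeneous_monomial _ ?_) h1.pderiv
  rw [Finsupp.degree_eq_sum]

private theorem facth_rel {V : Type*} [AddCommGroup V] [Module (RatFunc κ) V] {d : ℕ} (hd : 1 ≤ d)
    {Φ : MvPolynomial (Fin (n + 1)) κ} (hΦ : Φ.IsHomogeneous d) (j : Fin (n + 1))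
    (f g : (Fin (n + 1) →₀ ℕ) → V) (k : ℕ)
    (h : ∀ e : Fin (n + 1) →₀ ℕ, tdg e = (k + 1) * d + 1 →
      facth_f f (monomial e (1 : RatFunc κ) * pderiv j (FK Φ d)) =
        facth_f g (pderiv j (monomial e (1 : RatFunc κ)))) (Q : MvPolynomial (Fin (n + 1)) (RatFunc κ)) :
    facth_f (fun e => if tdg e = (k + 1 + 1) * d then f e else 0) (Q * pderiv j (FK Φ d)) =
      facth_f (fun e => if tdg e = (k + 1) * d then g e else 0) (pderiv j Q) := by
  have hmon : ∀ e : Fin (n + 1) →₀ ℕ,
      facth_f (fun e => if tdg e = (k + 1 + 1) * d then f e else 0)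
        (monomial e (1 : RatFunc κ) * pderiv j (FK Φ d)) =
      facth_f (fun e => if tdg e = (k + 1) * d then g e else 0)
        (pderiv j (monomial e (1 : RatFunc κ))) := by
    intro e
    have h1 : ∀ e' ∈ (monomial e (1 : RatFunc κ) * pderiv j (FK Φ d)).support,
        tdg e' + 1 = tdg e + d := by
      intro e' he'
      have h2 := facth_sumdeg (facth_hom hΦ j e) he'
      rw [facth_tdg, facth_tdg]
      omega
    have h3 : (k + 1 + 1) * d = (k + 1) * d + d := by ring
    by_cases he : tdg e = (k + 1) * d + 1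
    · have h6 : facth_f (fun e => if tdg e = (k + 1 + 1) * d then f e else 0)
          (monomial e (1 : RatFunc κ) * pderiv j (FK Φ d)) =
          facth_f f (monomial e (1 : RatFunc κ) * pderiv j (FK Φ d)) := by
        refine facth_congr fun e' he' => ?_
        have h4 := h1 e' he'
        rw [if_pos (by omega)]
      have h7 : facth_f (fun e => if tdg e = (k + 1) * d then g e else 0)
          (pderiv j (monomial e (1 : RatFunc κ))) =
          facth_f g (pderiv j (monomial e (1 : RatFunc κ))) := by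
        refine facth_congr fun e' he' => ?_
        have h4 := facth_tdg_pd he'
        rw [if_pos (by omega)]
      rw [h6, h7, h e he]
    · rw [facth_zero, facth_zero]
      · intro e' he'
        have h4 := facth_tdg_pd he'
        rw [if_neg (by omega)]
      · intro e' he'
        have h4 := h1 e' he'
        rw [if_neg (by omega)]
  induction Q using MvPolynomial.induction_on' with
  | monomial e a =>
    have h5 : (monomial e a : MvPolynomial (Fin (n + 1)) (RatFunc κ)) = a • monomial e 1 := by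
      rw [smul_monomial, smul_eq_mul, mul_one]
    rw [h5, smul_mul_assoc, map_smul, hmon e, Derivation.map_smul, map_smul]
  | add P Q hP hQ => rw [add_mul P Q, map_add, map_add, map_add, hP, hQ]

private theorem facth_rel0 {V : Type*} [AddCommGroup V] [Module (RatFunc κ) V] {d : ℕ} (hn : 2 ≤ n)
    {Φ : MvPolynomial (Fin (n + 1)) κ} (hΦ : Φ.IsHomogeneous d) (j : Fin (n + 1))
    (f : (Fin (n + 1) →₀ ℕ) → V) (Q : MvPolynomial (Fin (n + 1)) (RatFunc κ)) :
    facth_f (fun e => if tdg e = (0 + 1) * d then f e else 0) (Q * pderiv j (FK Φ d)) = 0 := by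
  induction Q using MvPolynomial.induction_on' with
  | monomial e a =>
    have h5 : (monomial e a : MvPolynomial (Fin (n + 1)) (RatFunc κ)) = a • monomial e 1 := by
      rw [smul_monomial, smul_eq_mul, mul_one]
    rw [h5, smul_mul_assoc, map_smul, facth_zero, smul_zero]
    intro e' he'
    have h2 := facth_sumdeg (facth_hom hΦ j e) he'
    have h3 := facth_tdg e'
    rw [if_neg (by omega)]
  | add P Q hP hQ => rw [add_mul P Q, map_add, hP, hQ, add_zero]

private theorem facth_lvu {n d N i : ℕ} (hd : 1 ≤ d) (u : Fin n →₀ ℕ)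
    (hN : N + (n + 1) = (i + 1) * d) (h4 : ∑ i, u i ≤ N) (h5 : N - ∑ i, u i + 1 < d) :
    ¬ d ∣ wtp (fun _ => 1) u ∧ lvu d u = i + 1 := by
  have h2 : wtp (fun _ => 1) u = ∑ i, u i + n := by
    unfold wtp
    simp only [one_mul]
    rw [Finset.sum_add_distrib]
    simp
  have h1 := Nat.div_add_mod (wtp (fun _ => 1) u) d
  have h3 := Nat.mod_lt (wtp (fun _ => 1) u) (show 0 < d by omega)
  rw [Nat.dvd_iff_mod_eq_zero]
  unfold lvu
  have h6 : (i + 1) * d = i * d + d := by ring
  have h7 : i * d < wtp (fun _ => 1) u := by omega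
  have h8 : wtp (fun _ => 1) u < (i + 1) * d := by omega
  have h9 : wtp (fun _ => 1) u / d = i := Nat.div_eq_of_lt_le (by omega) h8
  refine ⟨?_, by rw [h9]⟩
  rw [h9] at h1
  have h10 : d * i = i * d := mul_comm _ _
  omega

private theorem facth_gu {n d N i : ℕ} (u : Fin n →₀ ℕ)
    (hN : N + (n + 1) = (i + 1) * d) (h : lvu d u = i + 1) (h4 : ∑ i, u i ≤ N) :
    gu d u = mx N u := by
  have h2 : wtp (fun _ => 1) u = ∑ i, u i + n := by
    unfold wtp
    simp only [one_mul]
    rw [Finset.sum_add_distrib]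
    simp
  unfold gu mx
  rw [h]
  congr 1
  omega

private theorem facth_mb {S : Dat κ n} (hw : S.w = fun _ => 1)
    {Φ : MvPolynomial (Fin (n + 1)) κ} (hΦ : Φ.IsHomogeneous S.d) (haff : aff Φ = S.φ)
    {U : Finset (Fin n →₀ ℕ)} (hU : IsMB (fun _ => 1) (bdr Φ) U) :
    IsMB S.w (part S.w S.d S.φ) U := by
  have h1 : (Fin.cons 1 (fun _ => 1) : Fin (n + 1) → ℕ) = 1 := by
    funext i
    refine Fin.cases ?_ (fun j => ?_) i
    · rfl
    · rfl
  have h2 : Φ.IsWeightedHomogeneous (Fin.cons 1 (fun _ => 1) : Fin (n + 1) → ℕ) S.d := by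
    rw [h1]
    exact hΦ
  have h3 := part_aff (fun _ => 1) S.d Φ h2
  rw [hw, ← haff, h3]
  exact hU

end main

theorem fact {κ : Type u} [Field κ] [CharZero κ] {n : ℕ} (hn : 2 ≤ n) {S : Dat κ n} (hS : S.Ok)
    (hw : S.w = fun _ => 1) {nab : HH S.fK →ₗ[κ] HH S.fK} (hG : IsGM S nab S.br)
    {Φ : MvPolynomial (Fin (n + 1)) κ} (hΦ : Φ.IsHomogeneous S.d) (haff : aff Φ = S.φ)
    {U : Finset (Fin n →₀ ℕ)} (hU : IsMB (fun _ => 1) (bdr Φ) U)
    {L : Type u} [Field L] [Algebra (RatFunc κ) L]
    (C : ℕ → MvPolynomial (Fin (n + 1)) L →ₗ[L] L)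
    (hC : ∀ k, 1 ≤ k → ∀ j Q, C (k + 1) (Q * pderiv j ((FK Φ S.d).map (algebraMap (RatFunc κ) L))) =
      C k (pderiv j Q)) :
    ∃ cb : HH S.fK →ₗ[RatFunc κ] L, ∀ (k : ℕ) (e : Fin n →₀ ℕ), wtp (fun _ => 1) e < S.d * (k + 1) →
      (k.factorial : L) * cb (lv nab S.br k (monomial e 1)) =
        C (k + 1) (monomial (hx S.d (k + 1) e) 1) := by
  classical
  have hn0 : 0 < n := by omega
  have hd1 : 1 ≤ S.d := hS.d_pos
  have hdκ : (S.d : κ) ≠ 0 := by exact_mod_cast hS.d_pos.ne'
  have hcz : CharZero (RatFunc κ) :=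
    charZero_of_injective_algebraMap (algebraMap κ (RatFunc κ)).injective
  -- the pairs
  let B : ℕ → (Fin (n + 1) →₀ ℕ) → L := fun k e => C (k + 1) (monomial e 1)
  let th : ℕ → MvPolynomial (Fin (n + 1)) (RatFunc κ) →ₗ[RatFunc κ] HH S.fK × L := fun k =>
    facth_f (fun e => if tdg e = (k + 1) * S.d then (facth_A (S := S) nab k e, B k e) else 0)
  let q : (Fin n →₀ ℕ) → ℕ := fun u => wtp (fun _ => 1) u / S.d
  let U' : Finset (Fin n →₀ ℕ) := U.filter fun u => ¬ S.d ∣ wtp (fun _ => 1) u
  let v : U' → HH S.fK × L := fun u =>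
    (((q u.1).factorial : RatFunc κ) • lv nab S.br (q u.1) (monomial u.1 1), B (q u.1) (gu S.d u.1))
  let G : Submodule (RatFunc κ) (HH S.fK × L) := Submodule.span (RatFunc κ) (Set.range v)
  have hAB : ∀ (k : ℕ) (j : Fin (n + 1)) (e : Fin (n + 1) →₀ ℕ), tdg e = (k + 1) * S.d + 1 →
      facth_f (fun e => (facth_A (S := S) nab (k + 1) e, B (k + 1) e))
        (monomial e (1 : RatFunc κ) * pderiv j (FK Φ S.d)) =
      facth_f (fun e => (facth_A (S := S) nab k e, B k e))
        (pderiv j (monomial e (1 : RatFunc κ))) := by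
    intro k j e he
    rw [facth_prod, facth_prod]
    apply Prod.ext
    · refine Fin.cases ?_ (fun i => ?_) j
      · exact facth_zer hw hG hΦ haff k e he
      · exact facth_succ hG haff k i e
    · show facth_f (B (k + 1)) _ = facth_f (B k) _
      have h1 := facth_B (κ := κ) (C (k + 1 + 1)) (monomial e (1 : RatFunc κ) * pderiv j (FK Φ S.d))
      have h2 := facth_B (κ := κ) (C (k + 1)) (pderiv j (monomial e (1 : RatFunc κ)))
      refine h1.trans (Eq.trans ?_ h2.symm)
      rw [map_mul, ← pderiv_map, ← pderiv_map]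
      exact hC (k + 1) (by omega) j _
  -- the pairs of a monomial of the right degree
  have hth : ∀ (k : ℕ) (e : Fin (n + 1) →₀ ℕ) (a : RatFunc κ), tdg e = (k + 1) * S.d →
      th k (monomial e a) = a • (facth_A (S := S) nab k e, B k e) := by
    intro k e a he
    show facth_f _ _ = _
    rw [facth_mon, if_pos he]
  have hideal : ∀ (k : ℕ), (∀ (j : Fin (n + 1)) (Q : MvPolynomial (Fin (n + 1)) (RatFunc κ)),
      th k (Q * pderiv j (FK Φ S.d)) ∈ G) →
      ∀ P ∈ Ideal.span (Set.range fun j => pderiv j (FK Φ S.d)), th k P ∈ G := by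
    intro k hk P hP
    refine Submodule.span_induction (p := fun P _ => ∀ Q, th k (Q * P) ∈ G) ?_ ?_ ?_ ?_ hP 1 |> fun h => by
      rwa [one_mul] at h
    · rintro _ ⟨j, rfl⟩ Q
      exact hk j Q
    · intro Q
      rw [mul_zero, map_zero]
      exact G.zero_mem
    · intro x y _ _ hx hy Q
      rw [mul_add, map_add]
      exact G.add_mem (hx Q) (hy Q)
    · intro a x _ hx Q
      rw [smul_eq_mul, ← mul_assoc]
      exact hx (Q * a)
  have hstep : ∀ (k : ℕ), (∀ (j : Fin (n + 1)) (Q : MvPolynomial (Fin (n + 1)) (RatFunc κ)),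
      th k (Q * pderiv j (FK Φ S.d)) ∈ G) →
      ∀ P : MvPolynomial (Fin (n + 1)) (RatFunc κ), th k P ∈ G := by
    intro k hk P
    induction P using MvPolynomial.induction_on' with
    | add P Q hP hQ =>
      rw [map_add]
      exact G.add_mem hP hQ
    | monomial e a =>
      by_cases he : tdg e = (k + 1) * S.d
      swap
      · have h1 : th k (monomial e a) = 0 := by
          show facth_f _ _ = _
          rw [facth_mon, if_neg he, smul_zero]
        rw [h1]
        exact G.zero_mem
      have h0 : th k (monomial e a) = a • th k (monomial e 1) := by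
        rw [← map_smul, smul_monomial, smul_eq_mul, mul_one]
      rw [h0]
      refine G.smul_mem a ?_
      obtain ⟨c, hc⟩ := bas_span hd1 hdκ hΦ hU e
      have h1 := hideal k hk _ hc
      rw [map_sub, map_sum] at h1
      have h2 : ∑ u ∈ U with ∑ i, u i ≤ ∑ i, e i ∧ ∑ i, e i - ∑ i, u i + 1 < S.d,
          th k (monomial (mx (∑ i, e i) u) (c u)) ∈ G := by
        refine G.sum_mem fun u hu => ?_
        obtain ⟨hu1, hu2, hu3⟩ := Finset.mem_filter.1 hu
        have h3 : ∑ i, e i + (n + 1) = (k + 1) * S.d := by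
          rw [← facth_tdg, he]
        obtain ⟨h4, h5⟩ := facth_lvu hd1 u h3 hu2 hu3
        have h6 := facth_gu u h3 h5 hu2
        have h7 : q u = k := by
          have h8 : lvu S.d u = q u + 1 := rfl
          omega
        have h8 : tdg (mx (∑ i, e i) u) = (k + 1) * S.d := by
          rw [facth_tdg, ← h3]
          congr 1
          unfold mx
          rw [Fin.sum_univ_succ, Finsupp.cons_zero]
          simp only [Finsupp.cons_succ]
          omega
        rw [hth k _ _ h8]
        refine G.smul_mem _ (Submodule.subset_span ⟨⟨u, Finset.mem_filter.2 ⟨hu1, h4⟩⟩, ?_⟩)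
        show (((q u).factorial : RatFunc κ) • lv nab S.br (q u) (monomial u 1), B (q u) (gu S.d u)) = _
        rw [h7, h6]
        have h9 : (mx (∑ i, e i) u).tail = u := by
          unfold mx
          rw [Finsupp.tail_cons]
        unfold facth_A
        rw [h9]
      have h3 := G.add_mem h1 h2
      rwa [sub_add_cancel] at h3
  have hmem : ∀ (k : ℕ) (P : MvPolynomial (Fin (n + 1)) (RatFunc κ)), th k P ∈ G := by
    intro k
    induction k with
    | zero =>
      refine hstep 0 fun j Q => ?_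
      have h1 : th 0 (Q * pderiv j (FK Φ S.d)) = 0 := facth_rel0 hn hΦ j _ Q
      rw [h1]
      exact G.zero_mem
    | succ k ih =>
      refine hstep (k + 1) fun j Q => ?_
      have h1 : th (k + 1) (Q * pderiv j (FK Φ S.d)) = th k (pderiv j Q) :=
        facth_rel hd1 hΦ j _ _ k (hAB k j) Q
      rw [h1]
      exact ih _
  -- independence
  have hmb := facth_mb hw hΦ haff hU
  have hFi : LinearIndependent (RatFunc κ) fun u : U' => (v u).1 := by
    rw [Fintype.linearIndependent_iff]
    intro g hg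
    set a : (Fin n →₀ ℕ) → RatFunc κ := fun u =>
      if h : u ∈ U' then g ⟨u, h⟩ * ((q u).factorial : RatFunc κ) else 0 with ha
    have hsub : U' ⊆ U := fun u hu => (Finset.mem_filter.1 hu).1
    have hsum : ∑ u ∈ U, a u • lv nab S.br (q u) (monomial u 1) = 0 := by
      rw [← Finset.sum_subset hsub (fun u _ hu => by
        have h1 : a u = 0 := by
          rw [ha]
          exact dif_neg hu
        rw [h1, zero_smul])]
      rw [← hg, ← Finset.sum_coe_sort]
      refine Finset.sum_congr rfl fun u _ => ?_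
      have h1 : a u.1 = g u * ((q u.1).factorial : RatFunc κ) := by
        rw [ha]
        exact dif_pos u.2
      rw [h1, mul_smul]
    have hall := indH hn0 hS hG (fun P N hP => h_gen hn hS hG U hmb P N hP)
      (fun a h => h_ind hn S hS U hmb a h) q a (fun u _ hdv => by
        rw [ha]
        refine dif_neg fun h => ?_
        rw [hw] at hdv
        exact (Finset.mem_filter.1 h).2 hdv) hsum
    intro u
    have h1 := hall u.1 (hsub u.2)
    rw [ha] at h1
    have h2 : g u * ((q u.1).factorial : RatFunc κ) = 0 := by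
      have h3 : (if h : u.1 ∈ U' then g ⟨u.1, h⟩ * ((q u.1).factorial : RatFunc κ) else 0) =
        g u * ((q u.1).factorial : RatFunc κ) := dif_pos u.2
      rw [← h3]
      exact h1
    rcases mul_eq_zero.1 h2 with h3 | h3
    · exact h3
    · exact absurd h3 (Nat.cast_ne_zero.2 (Nat.factorial_ne_zero _))
  obtain ⟨cb, hcb⟩ : ∃ cb : HH S.fK →ₗ[RatFunc κ] L, ∀ u : U', cb (v u).1 = (v u).2 := by
    let bs := Module.Basis.span hFi
    obtain ⟨cb, hcb⟩ := LinearMap.exists_extend (bs.constr (RatFunc κ) fun u : U' => (v u).2)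
    refine ⟨cb, fun u => ?_⟩
    have h1 := LinearMap.congr_fun hcb (bs u)
    rw [LinearMap.comp_apply, Module.Basis.constr_basis] at h1
    rw [← h1]
    congr 1
    exact (congrArg Subtype.val (Module.Basis.span_apply hFi u)).symm
  have hG0 : ∀ x ∈ G, cb x.1 = x.2 := by
    intro x hx
    refine Submodule.span_induction (p := fun x _ => cb x.1 = x.2) ?_ ?_ ?_ ?_ hx
    · rintro _ ⟨u, rfl⟩
      exact hcb u
    · rw [Prod.fst_zero, Prod.snd_zero, map_zero]
    · intro x y _ _ hx hy
      rw [Prod.fst_add, Prod.snd_add, map_add, hx, hy]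
    · intro a x _ hx
      rw [Prod.smul_fst, Prod.smul_snd, map_smul, hx]
  refine ⟨cb, fun k e he => ?_⟩
  have h1 : tdg (hx S.d (k + 1) e) = (k + 1) * S.d := by
    unfold tdg hx
    rw [Fin.sum_univ_succ, Finsupp.cons_zero]
    simp only [Finsupp.cons_succ]
    have h2 : ∑ i, (e i + 1) = wtp (fun _ => 1) e := by
      unfold wtp
      exact Finset.sum_congr rfl fun i _ => (one_mul _).symm
    rw [h2]
    have h3 : (k + 1) * S.d = S.d * (k + 1) := mul_comm _ _
    omega
  have h2 := hG0 _ (hmem k (monomial (hx S.d (k + 1) e) 1))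
  rw [hth k _ _ h1, one_smul] at h2
  have h3 : cb (facth_A (S := S) nab k (hx S.d (k + 1) e)) =
      (k.factorial : L) * cb (lv nab S.br k (monomial e 1)) := by
    unfold facth_A hx
    rw [Finsupp.tail_cons, map_smul, Algebra.smul_def, map_natCast]
  rw [← h3]
  exact h2

end MPadcBK
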