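import Pool.Agent.Lib.MP_adc574_ag_BK.Zig3

/-!
# JOB Sur: surjectivity of `H^l (ZK^q) → H^l (KK^q)`

`lift_ZK`: `al 1` is surjective `ZK F d (q+1) I → KK F d (q+1) I` for `I` nonempty (`log_surj`) with kernel `BK F d q I` (`log_cartier`; `al_BK`). Given `c` closed of length `l + 1` in `KK F d (q+1)`:
`c s = al 1 (ν s)`, `del ν` is a closed cochain of length `l + 2` in `ker al 1 = BK F d q` (`ZK_mono`, `del_Coch`), `= del b`, `b ∈ Coch (BK F d q)` by `hA`; `z = ν - b` is closed in `ZK`, `al 1 ∘ z = c`.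
`sur`: `W` from `KK_fin` (`k = 1`). Let `B` be the space of closed cochains in `KK` of length `l + 1` modulo `del (Coch KK)`: it is finite dimensional over `κ`. Let `c_1, ..., c_r` be closed cochains whose classes
form a basis, `z_i` with `al 1 ∘ z_i = c_i` from `lift_ZK`. If `∑ a_i z_i = del θ` with `θ ∈ Coch KK`, then by `hinj` `∑ a_i z_i = del ζ`, `ζ ∈ Coch ZK`, and applying `al 1` (which is `p`-inverse linear, `al_smul`):
`∑ a_i^(1/p) c_i = del (al 1 ∘ ζ)`, `al 1 ∘ ζ ∈ Coch KK` (`al_ZK`), so all `a_i = 0`. Hence the classes of the `z_i` (`ZK ≤ KK`) are a basis of `B`.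
-/

set_option autoImplicit false

namespace MPadcBK

open ExteriorAlgebra

universe u

variable {κ : Type u} [Field κ] {n : ℕ} (p : ℕ) [hp : Fact p.Prime] [CharP κ p] [PerfectRing κ p]

theorem lift_ZK {d : ℕ} {F : MvPolynomial (Fin (n + 1)) κ} (H : Hyp p d F) {q l : ℕ}
    (hA : HZero (fun I => (BK F d q I).toAddSubgroup) (l + 1))
    (c : (Fin (l + 1) → Fin (n + 1)) → Fo κ (n + 1))
    (hc : Coch (fun I => (KK F d (q + 1) I).toAddSubgroup) c) (hdel : del c = 0) :
    ∃ z : (Fin (l + 1) → Fin (n + 1)) → Fo κ (n + 1),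
      Coch (fun I => (ZK F d (q + 1) I).toAddSubgroup) z ∧ del z = 0 ∧
        ∀ s, al p F d 1 (z s) = c s := by
  have hp2 : 2 < p := by
    have h1 := H.hn
    have h2 := H.hnp
    omega
  have hI : ∀ {k : ℕ} (s : Fin (k + 1) → Fin (n + 1)), (Set.range s).Nonempty :=
    fun s => Set.range_nonempty s
  have h1 : ∀ s, ∃ x ∈ ZK F d (q + 1) (Set.range s), al p F d 1 x = c s := by
    intro s
    exact log_surj H.hd H.hF H.hs p hp2 (hI s) (hc s)
  choose ν hν hν' using h1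
  have hνC : Coch (fun I => (ZK F d (q + 1) I).toAddSubgroup) ν := hν
  have hdν : Coch (fun I => (ZK F d (q + 1) I).toAddSubgroup) (del ν) :=
    del_Coch (fun I J h => ZK_mono h) hνC
  have hal : ∀ s, al p F d 1 (del ν s) = 0 := by
    intro s
    have h2 := congrFun (del_map (alH p F d 1) ν) s
    have h3 : (fun s => alH p F d 1 (ν s)) = c := funext hν'
    rw [h3, hdel] at h2
    exact h2.symm
  have hBK : Coch (fun I => (BK F d q I).toAddSubgroup) (del ν) := by
    intro s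
    exact log_cartier p H.hd H.hpd H.hF H.hs (hI s) (hdν s) (hal s)
  obtain ⟨b, hb, hdb⟩ := hA (del ν) hBK (del_del ν)
  refine ⟨ν - b, fun s => ?_, ?_, fun s => ?_⟩
  · have h2 : b s ∈ ZK F d (q + 1) (Set.range s) := BK_le_ZK (hb s)
    exact Submodule.sub_mem _ (hν s) h2
  · rw [del_sub, hdb, sub_self]
  · rw [Pi.sub_apply, al_sub, hν', al_BK p H.hF H.hd (hb s), sub_zero]

section Aux

omit hp [CharP κ p] [PerfectRing κ p] in
private theorem sur_del_smul {ι G : Type*} [AddCommGroup G] [Module κ G] {l : ℕ} (a : κ)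
    (c : (Fin l → ι) → G) : del (a • c) = a • del c := by
  funext s
  rw [Pi.smul_apply]
  unfold del
  rw [Finset.smul_sum]
  refine Finset.sum_congr rfl fun k _ => ?_
  rw [Pi.smul_apply, smul_comm]

/-- closed cochains as a subspace -/
private def surZ {ι G : Type*} [AddCommGroup G] [Module κ G] (M : Set ι → Submodule κ G) (l : ℕ) :
    Submodule κ ((Fin l → ι) → G) where
  carrier := {c | (∀ s, c s ∈ M (Set.range s)) ∧ del c = 0}
  zero_mem' := ⟨fun s => Submodule.zero_mem _, del_zero⟩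
  add_mem' := by
    rintro b c ⟨h1, h2⟩ ⟨h3, h4⟩
    exact ⟨fun s => Submodule.add_mem _ (h1 s) (h3 s), by rw [del_add, h2, h4, add_zero]⟩
  smul_mem' := by
    rintro a c ⟨h1, h2⟩
    exact ⟨fun s => Submodule.smul_mem _ _ (h1 s), by rw [sur_del_smul, h2, smul_zero]⟩

/-- boundaries as a subspace -/
private def surB {ι G : Type*} [AddCommGroup G] [Module κ G] (M : Set ι → Submodule κ G) (l : ℕ) :
    Submodule κ ((Fin (l + 1) → ι) → G) where
  carrier := {c | ∃ μ : (Fin l → ι) → G, (∀ s, μ s ∈ M (Set.range s)) ∧ del μ = c}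
  zero_mem' := ⟨0, fun s => Submodule.zero_mem _, del_zero⟩
  add_mem' := by
    rintro b c ⟨μ, h1, h2⟩ ⟨ν, h3, h4⟩
    exact ⟨μ + ν, fun s => Submodule.add_mem _ (h1 s) (h3 s), by rw [del_add, h2, h4]⟩
  smul_mem' := by
    rintro a c ⟨μ, h1, h2⟩
    exact ⟨a • μ, fun s => Submodule.smul_mem _ _ (h1 s), by rw [sur_del_smul, h2]⟩

omit [CharP κ p] in
/-- the dimension count -/
private theorem sur_abs {C : Type*} [AddCommGroup C] [Module κ C] (Z B ZZ W : Submodule κ C)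
    (hZZ : ZZ ≤ Z) [FiniteDimensional κ W] (hW : ∀ c ∈ Z, ∃ w ∈ W, c - w ∈ B)
    (φ : C →+ C) (hφ : ∀ (a : κ) (x : C), φ (a ^ p • x) = a • φ x)
    (hsurj : ∀ c ∈ Z, ∃ z ∈ ZZ, φ z = c) (hker : ∀ z ∈ ZZ, z ∈ B → φ z ∈ B) :
    ∀ c ∈ Z, ∃ z ∈ ZZ, c - z ∈ B := by
  classical
  let V : Submodule κ (C ⧸ B) := Z.map B.mkQ
  have hV : V ≤ W.map B.mkQ := by
    rintro _ ⟨c, hc, rfl⟩
    obtain ⟨w, hw, hcw⟩ := hW c hc
    refine ⟨w, hw, ?_⟩
    rw [Submodule.mkQ_apply, Submodule.mkQ_apply, eq_comm, Submodule.Quotient.eq]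
    exact hcw
  have hfV : FiniteDimensional κ V := Submodule.finiteDimensional_of_le hV
  let b := Module.finBasis κ V
  have h1 : ∀ i, ∃ c ∈ Z, B.mkQ c = (b i : C ⧸ B) := fun i => (b i).2
  choose c hc hc' using h1
  have h2 : ∀ i, ∃ z ∈ ZZ, φ z = c i := fun i => hsurj _ (hc i)
  choose z hz hz' using h2
  let t : Fin (Module.finrank κ V) → V := fun i => ⟨B.mkQ (z i), ⟨z i, hZZ (hz i), rfl⟩⟩
  have hlin : LinearIndependent κ t := by
    rw [Fintype.linearIndependent_iff]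
    intro g hg i
    have h3 : ∀ j, ∃ a : κ, a ^ p = g j := by
      intro j
      obtain ⟨a, ha⟩ := (PerfectRing.bijective_frobenius (R := κ) (p := p)).2 (g j)
      exact ⟨a, ha⟩
    choose a ha using h3
    have h4 : ∑ j, g j • z j ∈ B := by
      rw [← Submodule.Quotient.mk_eq_zero B, ← Submodule.mkQ_apply, map_sum]
      have h5 := congrArg (fun v : V => (v : C ⧸ B)) hg
      simp only [Submodule.coe_sum, Submodule.coe_smul, Submodule.coe_zero] at h5
      rw [← h5]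
      refine Finset.sum_congr rfl fun j _ => ?_
      rw [map_smul]
    have h5 : ∑ j, g j • z j ∈ ZZ := Submodule.sum_mem _ fun j _ => Submodule.smul_mem _ _ (hz j)
    have h6 := hker _ h5 h4
    have h7 : φ (∑ j, g j • z j) = ∑ j, a j • c j := by
      rw [map_sum]
      refine Finset.sum_congr rfl fun j _ => ?_
      rw [← ha j, hφ, hz']
    rw [h7] at h6
    have h8 : ∑ j, a j • b j = 0 := by
      apply Subtype.ext
      rw [Submodule.coe_sum, Submodule.coe_zero]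
      have h9 : B.mkQ (∑ j, a j • c j) = 0 := by
        rw [Submodule.mkQ_apply, Submodule.Quotient.mk_eq_zero]
        exact h6
      rw [map_sum] at h9
      rw [← h9]
      refine Finset.sum_congr rfl fun j _ => ?_
      rw [Submodule.coe_smul, map_smul, hc']
    have h9 := Fintype.linearIndependent_iff.1 b.linearIndependent a h8 i
    rw [← ha i, h9, zero_pow hp.out.ne_zero]
  have hspan := hlin.span_eq_top_of_card_eq_finrank' (by rw [Fintype.card_fin])
  intro x hx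
  have h3 : (⟨B.mkQ x, ⟨x, hx, rfl⟩⟩ : V) ∈ Submodule.span κ (Set.range t) := by
    rw [hspan]
    exact Submodule.mem_top
  obtain ⟨a, ha⟩ := (Submodule.mem_span_range_iff_exists_fun κ).1 h3
  refine ⟨∑ j, a j • z j, Submodule.sum_mem _ fun j _ => Submodule.smul_mem _ _ (hz j), ?_⟩
  have h4 := congrArg (fun v : V => (v : C ⧸ B)) ha
  simp only [Submodule.coe_sum, Submodule.coe_smul] at h4
  rw [← Submodule.Quotient.mk_eq_zero B, Submodule.Quotient.mk_sub, sub_eq_zero,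
    ← Submodule.mkQ_apply, ← Submodule.mkQ_apply, map_sum, ← h4]
  refine Finset.sum_congr rfl fun j _ => ?_
  rw [map_smul]

end Aux

theorem sur {d : ℕ} {F : MvPolynomial (Fin (n + 1)) κ} (H : Hyp p d F) {q l : ℕ} (hl : 1 ≤ l)
    (hq : l + q = n)
    (hA : HZero (fun I => (BK F d q I).toAddSubgroup) (l + 1))
    (hinj : ∀ (z : (Fin (l + 1) → Fin (n + 1)) → Fo κ (n + 1))
      (θ : (Fin l → Fin (n + 1)) → Fo κ (n + 1)),
      Coch (fun I => (ZK F d (q + 1) I).toAddSubgroup) z →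
      Coch (fun I => (KK F d (q + 1) I).toAddSubgroup) θ → del θ = z →
      ∃ ζ : (Fin l → Fin (n + 1)) → Fo κ (n + 1),
        Coch (fun I => (ZK F d (q + 1) I).toAddSubgroup) ζ ∧ del ζ = z)
    (c : (Fin (l + 1) → Fin (n + 1)) → Fo κ (n + 1))
    (hc : Coch (fun I => (KK F d (q + 1) I).toAddSubgroup) c) (hdel : del c = 0) :
    ∃ z : (Fin (l + 1) → Fin (n + 1)) → Fo κ (n + 1),
      Coch (fun I => (ZK F d (q + 1) I).toAddSubgroup) z ∧ del z = 0 ∧
      ∃ μ : (Fin l → Fin (n + 1)) → Fo κ (n + 1),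
        Coch (fun I => (KK F d (q + 1) I).toAddSubgroup) μ ∧ c = z + del μ := by
  have hp2 : 2 < p := by
    have h1 := H.hn
    have h2 := H.hnp
    omega
  have hm : 2 ≤ n + 1 := by
    have h1 := H.hn
    omega
  obtain ⟨W, hWf, hWZ, hW⟩ := KK_fin hm H.hd H.hF H.hs (k := 1) (q := q + 1) (l := l) le_rfl hl
    (by omega)
  have h1d : ((1 : ℕ) : ℤ) * (d : ℤ) = d := by rw [Nat.cast_one, one_mul]
  rw [h1d] at hW
  let φ : ((Fin (l + 1) → Fin (n + 1)) → Fo κ (n + 1)) →+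
      ((Fin (l + 1) → Fin (n + 1)) → Fo κ (n + 1)) :=
    { toFun := fun c s => al p F d 1 (c s)
      map_zero' := by
        funext s
        exact al_zero_arg p F d 1
      map_add' := fun b c => by
        funext s
        exact al_add p F d 1 (b s) (c s) }
  have key := sur_abs p (surZ (fun I => KK F d (q + 1) I) (l + 1)) (surB (fun I => KK F d (q + 1) I) l)
    (surZ (fun I => ZK F d (q + 1) I) (l + 1)) W ?_ ?_ φ ?_ ?_ ?_ c ⟨hc, hdel⟩
  · obtain ⟨z, ⟨hz1, hz2⟩, μ, hμ1, hμ2⟩ := key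
    exact ⟨z, hz1, hz2, μ, hμ1, by rw [hμ2, add_sub_cancel]⟩
  · rintro z ⟨h1, h2⟩
    refine ⟨fun s => ?_, h2⟩
    exact (h1 s).1
  · rintro x ⟨h1, h2⟩
    obtain ⟨w, hw, b, hb, hE⟩ := hW x h1 h2
    exact ⟨w, hw, b, hb, by rw [hE, add_sub_cancel_left]⟩
  · intro a x
    funext s
    exact al_smul p F d 1 a (x s)
  · rintro x ⟨h1, h2⟩
    obtain ⟨z, hz1, hz2, hz3⟩ := lift_ZK p H hA x h1 h2
    exact ⟨z, ⟨hz1, hz2⟩, funext hz3⟩
  · rintro z ⟨h1, h2⟩ ⟨θ, hθ1, hθ2⟩
    obtain ⟨ζ, hζ1, hζ2⟩ := hinj z θ h1 hθ1 hθ2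
    refine ⟨fun s => al p F d 1 (ζ s), fun s => al_ZK p H.hF H.hd hp2 (hζ1 s), ?_⟩
    have h3 := del_map (alH p F d 1) ζ
    rw [hζ2] at h3
    exact h3

end MPadcBK
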