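import Pool.Agent.Lib.MP_adc574_ag_BK.IndA
import Pool.Agent.Lib.MP_adc574_ag_BK.Sur

/-!
# JOB MainA: the cohomology of `BK` vanishes

`m = n + 1`. Notation: `K = KK F d (q+1)`, `Z = ZK F d (q+1)`, `B = BK F d (q+1) = dd K` (forms of degree `q + 2`), `A (q)`: `∀ j, HZero (BK F d q) j`.
`BK_zero`: `KK F d 0 I = 0` (`kos_local_zero`).
`ZK_exact`: `z` closed of length `l + 1` in `Z`, `l ≥ 1`. `al 1 ∘ z` is closed in `K` (`al_ZK`), `= del μ` (`KK_exact`, `k = 1`, `l + (q+1) ≠ n+1`), `μ = al 1 ∘ ν` with `ν ∈ Coch Z` of length `l ≥ 1` (`log_surj`, nonempty index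
sets), `z - del ν ∈ ker al 1 = BK F d q` (`log_cartier`), closed, `= del b` by `A (q)` at `j = l` (`HZero` for `l = l' + 1`), `b ∈ Coch (BK F d q) ≤ Coch Z` (`BK_le_ZK`).
`step` (from `A (q)` to `A (q+1)`): first `inj`: for all `l ≥ 1`, `z ∈ Coch Z` of length `l + 1`, `θ ∈ Coch K` of length `l`, `del θ = z` implies `z = del ζ`, `ζ ∈ Coch Z`: if `l + q + 1 = n + 1`
this is `indA` (`l = l' + 1`; `l ≤ n`), otherwise `ZK_exact` (`del z = 0` by `del_del`).
* `j = 0`: `c` closed of length 1 in `B`: `c s = dd (κ0 s)`, `κ0 ∈ Coch K` of length 1 (choose for every tuple `s`; for length 1 and more index sets are nonempty); `del κ0 ∈ Coch Z` since `dd (del κ0) = del c = 0`.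
  `inj` (`l = 1`): `del κ0 = del ζ`, `κ0 - ζ` is closed, constant `= g` (`const_of_del`), `g ∈ KK F d (q+1) ∅` (`reg_inter`), `c = dd g`. If `q + 1 = 1`: `g = a • dd (pf F)` (`KK_empty_one`), `dd g = 0`.
  If `2 ≤ q + 1 ≤ n`: `g = 0` (`KK_empty`). If `q + 1 ≥ n + 1`: `dd g` has degree `≥ n + 2`, `= 0` (`FD_top`).
* `j = l ≥ 1`: `c` closed of length `l + 1` in `B`, `c = dd ∘ κ0`, `κ0 ∈ Coch K`, `del κ0 ∈ Coch Z` of length `l + 2`, `= del ζ` by `inj` (for `l + 1`), `κ0 - ζ` closed in `K`. If `l + q + 1 ≠ n + 1`: `= del μ` (`KK_exact`).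
  If `l + q + 1 = n + 1`: `= z + del μ` by `sur`. In both cases `c = dd ∘ (κ0 - ζ) = del (dd ∘ μ)`.
-/

set_option autoImplicit false

namespace MPadcBK

open ExteriorAlgebra

universe u

variable {κ : Type u} [Field κ] {n : ℕ} (p : ℕ) [hp : Fact p.Prime] [CharP κ p] [PerfectRing κ p]

/-- `dd` as an additive map. -/
private noncomputable def maD : Fo κ (n + 1) →+ Fo κ (n + 1) := (dd (κ := κ)).toAddMonoidHom

private theorem ma_del_dd {l : ℕ} (c : (Fin l → Fin (n + 1)) → Fo κ (n + 1)) :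
    del (fun s => dd (c s)) = fun s => dd (del c s) :=
  del_map (maD (κ := κ) (n := n)) c

private theorem ma_two {d : ℕ} {F : MvPolynomial (Fin (n + 1)) κ} (H : Hyp p d F) : 2 < p := by
  have h1 := H.hn
  have h2 := H.hnp
  omega

private theorem ma_range {l : ℕ} (hl : 1 ≤ l) (s : Fin l → Fin (n + 1)) :
    (Set.range s).Nonempty := ⟨s ⟨0, by omega⟩, Set.mem_range_self _⟩

private theorem ma_KK_exact {d : ℕ} {F : MvPolynomial (Fin (n + 1)) κ} (H : Hyp p d F) {q l : ℕ}
    (hl : 1 ≤ l) (h : l + q ≠ n + 1) :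
    ExactAt (fun I => (KK F d q I).toAddSubgroup) l := by
  have hn := H.hn
  have h1 := KK_exact (m := n + 1) (by omega) H.hd H.hF H.hs (k := 1) (q := q) le_rfl hl h
  have e : (((1 : ℕ) : ℤ) * d) = (d : ℤ) := by rw [Nat.cast_one, one_mul]
  rw [e] at h1
  exact h1

private theorem ma_KK_del {d : ℕ} {F : MvPolynomial (Fin (n + 1)) κ} {q l : ℕ}
    {c : (Fin l → Fin (n + 1)) → Fo κ (n + 1)}
    (hc : Coch (fun I => (KK F d q I).toAddSubgroup) c) :
    Coch (fun I => (KK F d q I).toAddSubgroup) (del c) :=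
  del_Coch (fun _ _ h => Submodule.toAddSubgroup_mono (KK_mono h)) hc

private theorem ma_ZK_del {d : ℕ} {F : MvPolynomial (Fin (n + 1)) κ} {q l : ℕ}
    {c : (Fin l → Fin (n + 1)) → Fo κ (n + 1)}
    (hc : Coch (fun I => (ZK F d q I).toAddSubgroup) c) :
    Coch (fun I => (ZK F d q I).toAddSubgroup) (del c) :=
  del_Coch (fun _ _ h => Submodule.toAddSubgroup_mono (ZK_mono h)) hc

private theorem ma_ZK_dd {d : ℕ} {F : MvPolynomial (Fin (n + 1)) κ} {q : ℕ}
    {I : Set (Fin (n + 1))} {x : Fo κ (n + 1)} (hx : x ∈ ZK F d q I) : dd x = 0 := hx.2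

private theorem ma_ZK_KK {d : ℕ} {F : MvPolynomial (Fin (n + 1)) κ} {q : ℕ}
    {I : Set (Fin (n + 1))} {x : Fo κ (n + 1)} (hx : x ∈ ZK F d q I) : x ∈ KK F d q I := hx.1

/-- the injectivity statement -/
private def MaInj (F : MvPolynomial (Fin (n + 1)) κ) (d q : ℕ) : Prop :=
  ∀ l : ℕ, 1 ≤ l → ∀ (z : (Fin (l + 1) → Fin (n + 1)) → Fo κ (n + 1))
    (θ : (Fin l → Fin (n + 1)) → Fo κ (n + 1)),
      Coch (fun I => (ZK F d (q + 1) I).toAddSubgroup) z →
      Coch (fun I => (KK F d (q + 1) I).toAddSubgroup) θ → del θ = z →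
      ∃ ζ : (Fin l → Fin (n + 1)) → Fo κ (n + 1),
        Coch (fun I => (ZK F d (q + 1) I).toAddSubgroup) ζ ∧ del ζ = z

/-- lifting a closed cochain of exact forms -/
private theorem ma_lift {d : ℕ} {F : MvPolynomial (Fin (n + 1)) κ} {q l : ℕ} (hl : 1 ≤ l)
    (hI : MaInj F d q) {c : (Fin l → Fin (n + 1)) → Fo κ (n + 1)}
    (hc : Coch (fun I => (BK F d (q + 1) I).toAddSubgroup) c) (hdc : del c = 0) :
    ∃ k : (Fin l → Fin (n + 1)) → Fo κ (n + 1),
      Coch (fun I => (KK F d (q + 1) I).toAddSubgroup) k ∧ del k = 0 ∧ ∀ s, dd (k s) = c s := by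
  have h0 : ∀ s, ∃ k ∈ KK F d (q + 1) (Set.range s), dd k = c s := fun s => by
    have h := hc s
    have h' : c s ∈ BK F d (q + 1) (Set.range s) := h
    unfold BK at h'
    rw [Submodule.mem_map] at h'
    exact h'
  choose k hk hkc using h0
  have hkC : Coch (fun I => (KK F d (q + 1) I).toAddSubgroup) k := fun s => hk s
  have h1 : ∀ s, dd (del k s) = 0 := by
    intro s
    have h2 := congrFun (ma_del_dd k) s
    have h3 : (fun s => dd (k s)) = c := funext hkc
    rw [h3, hdc] at h2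
    exact h2.symm
  have h2 : Coch (fun I => (ZK F d (q + 1) I).toAddSubgroup) (del k) := by
    intro s
    show del k s ∈ ZK F d (q + 1) (Set.range s)
    unfold ZK
    rw [Submodule.mem_inf, LinearMap.mem_ker]
    exact ⟨ma_KK_del hkC s, h1 s⟩
  obtain ⟨ζ, hζ, hdζ⟩ := hI l hl (del k) k h2 hkC rfl
  refine ⟨k - ζ, ?_, ?_, ?_⟩
  · intro s
    show k s - ζ s ∈ KK F d (q + 1) (Set.range s)
    exact Submodule.sub_mem _ (hk s) (ma_ZK_KK (hζ s))
  · rw [del_sub, hdζ, sub_self]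
  · intro s
    rw [Pi.sub_apply, map_sub, hkc, ma_ZK_dd (hζ s), sub_zero]

theorem BK_zero {d : ℕ} {F : MvPolynomial (Fin (n + 1)) κ} (H : Hyp p d F)
    (I : Set (Fin (n + 1))) : BK F d 0 I = ⊥ := by
  rw [eq_bot_iff]
  intro x hx
  unfold BK at hx
  rw [Submodule.mem_map] at hx
  obtain ⟨y, hy, rfl⟩ := hx
  unfold KK at hy
  rw [Submodule.mem_inf, LinearMap.mem_ker, LinearMap.mulLeft_apply] at hy
  have h1 : y = 0 := kos_local_zero H.hF H.hs (0 : Fin (n + 1)) hy.1.1.2 hy.2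
  rw [h1, map_zero]
  exact Submodule.zero_mem _

theorem ZK_exact {d : ℕ} {F : MvPolynomial (Fin (n + 1)) κ} (H : Hyp p d F) {q l : ℕ}
    (hl : 1 ≤ l) (hq : l + q ≠ n) (hA : HZero (fun I => (BK F d q I).toAddSubgroup) l) :
    ExactAt (fun I => (ZK F d (q + 1) I).toAddSubgroup) l := by
  obtain ⟨l', rfl⟩ := Nat.exists_eq_add_of_le' hl
  have hp2 := ma_two p H
  intro c hc hdc
  have h1 : Coch (fun I => (KK F d (q + 1) I).toAddSubgroup) (fun s => al p F d 1 (c s)) :=
    fun s => al_ZK p H.hF H.hd hp2 (hc s)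
  have h2 : del (fun s => al p F d 1 (c s)) = 0 := by
    have h := del_map (alH p F d 1) c
    have h' : del (fun s => al p F d 1 (c s)) = fun s => al p F d 1 (del c s) := h
    rw [h', hdc]
    funext s
    exact al_zero_arg p F d 1
  obtain ⟨μ, hμ, hdμ⟩ := ma_KK_exact p H (q := q + 1) hl (by omega) _ h1 h2
  have h3 : ∀ s : Fin (l' + 1) → Fin (n + 1), ∃ x ∈ ZK F d (q + 1) (Set.range s),
      al p F d 1 x = μ s := fun s =>
    log_surj H.hd H.hF H.hs p hp2 (ma_range hl s) (hμ s)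
  choose ν hν hνμ using h3
  have hνC : Coch (fun I => (ZK F d (q + 1) I).toAddSubgroup) ν := fun s => hν s
  have h4 : ∀ s, al p F d 1 (del ν s) = al p F d 1 (c s) := by
    intro s
    have h := congrFun (del_map (alH p F d 1) ν) s
    have h' : del (fun s => al p F d 1 (ν s)) s = al p F d 1 (del ν s) := h
    have h5 : (fun s => al p F d 1 (ν s)) = μ := funext hνμ
    rw [h5, hdμ] at h'
    exact h'.symm
  have h5 : Coch (fun I => (BK F d q I).toAddSubgroup) (c - del ν) := by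
    intro s
    show c s - del ν s ∈ BK F d q (Set.range s)
    refine log_cartier p H.hd H.hpd H.hF H.hs (ma_range (by omega) s) ?_ ?_
    · exact Submodule.sub_mem _ (hc s) (ma_ZK_del hνC s)
    · rw [al_sub, h4, sub_self]
  have h6 : del (c - del ν) = 0 := by
    rw [del_sub, del_del, hdc, sub_zero]
  obtain ⟨b, hb, hdb⟩ := hA (c - del ν) h5 h6
  refine ⟨b + ν, ?_, ?_⟩
  · intro s
    show b s + ν s ∈ ZK F d (q + 1) (Set.range s)
    exact Submodule.add_mem _ (BK_le_ZK (hb s)) (hν s)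
  · rw [del_add, hdb, sub_add_cancel]

theorem step {d : ℕ} {F : MvPolynomial (Fin (n + 1)) κ} (H : Hyp p d F)
    (hS : ∀ j, 1 ≤ j → j ≤ n → SurjJ p F d j) {q : ℕ}
    (hA : ∀ j, HZero (fun I => (BK F d q I).toAddSubgroup) j) (j : ℕ) :
    HZero (fun I => (BK F d (q + 1) I).toAddSubgroup) j := by
  have hn := H.hn
  have inj : MaInj F d q := by
    intro l hl z θ hz hθ h
    by_cases hq : l + q = n
    · obtain ⟨l', rfl⟩ := Nat.exists_eq_add_of_le' hl
      exact indA p H (by omega) (hS (l' + 1) (by omega) (by omega)) (hA (l' + 1)) z hz θ hθ h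
    · refine ZK_exact p H hl hq (hA l) z hz ?_
      rw [← h, del_del]
  cases j with
  | zero =>
    intro c hc hdc
    obtain ⟨k, hk, hdk, hkc⟩ := ma_lift le_rfl inj hc hdc
    obtain ⟨g, hg⟩ := const_of_del hdk
    have hgi : ∀ i : Fin (n + 1), g ∈ KK F d (q + 1) {i} := by
      intro i
      have h1 := hk fun _ => i
      have h2 : Set.range (fun _ : Fin 1 => i) = {i} := Set.range_const
      have h3 : k (fun _ => i) ∈ KK F d (q + 1) (Set.range (fun _ : Fin 1 => i)) := h1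
      rw [h2, hg] at h3
      exact h3
    have hgE : g ∈ KK F d (q + 1) ∅ := by
      have h0 := hgi 0
      unfold KK at h0 ⊢
      refine ⟨⟨⟨reg_inter (by omega) fun i => ?_, h0.1.1.2⟩, h0.1.2⟩, h0.2⟩
      have h := hgi i
      unfold KK at h
      exact h.1.1.1
    have hdg : dd g = 0 := by
      rcases Nat.lt_or_ge (q + 1) (n + 1) with hq | hq
      · rcases Nat.eq_zero_or_pos q with hq0 | hq0
        · subst hq0
          obtain ⟨a, ha⟩ := KK_empty_one (m := n + 1) (by omega) H.hd H.hF H.hs hgE (by omega)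
          rw [ha, map_smul, dd_dd, smul_zero]
        · rw [KK_empty (m := n + 1) (by omega) H.hd H.hF H.hs (by omega) hq hgE, map_zero]
      · unfold KK at hgE
        exact FD_top (q := q + 1 + 1) (by omega) (dd_FD hgE.1.1.2)
    funext s
    rw [← hkc s, hg s, hdg]
    rfl
  | succ l =>
    intro c hc hdc
    obtain ⟨k, hk, hdk, hkc⟩ := ma_lift (by omega) inj hc hdc
    have key : ∃ μ : (Fin (l + 1) → Fin (n + 1)) → Fo κ (n + 1),
        Coch (fun I => (KK F d (q + 1) I).toAddSubgroup) μ ∧ ∀ s, dd (del μ s) = c s := by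
      by_cases hq : l + 1 + q = n
      · obtain ⟨z, hz, hdz, μ, hμ, hE⟩ := sur p H (by omega) hq (hA (l + 1 + 1))
          (fun z θ hz hθ h => inj (l + 1) (by omega) z θ hz hθ h) k hk hdk
        refine ⟨μ, hμ, fun s => ?_⟩
        rw [← hkc s, hE, Pi.add_apply, map_add, ma_ZK_dd (hz s), zero_add]
      · obtain ⟨μ, hμ, hdμ⟩ := ma_KK_exact p H (q := q + 1) (l := l + 1) (by omega) (by omega) k hk hdk
        refine ⟨μ, hμ, fun s => ?_⟩
        rw [← hkc s, hdμ]
    obtain ⟨μ, hμ, hE⟩ := key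
    refine ⟨fun s => dd (μ s), fun s => ?_, ?_⟩
    · show dd (μ s) ∈ BK F d (q + 1) (Set.range s)
      unfold BK
      exact Submodule.mem_map_of_mem (hμ s)
    · rw [ma_del_dd]
      exact funext hE

theorem mainA {d : ℕ} {F : MvPolynomial (Fin (n + 1)) κ} (H : Hyp p d F)
    (hS : ∀ j, 1 ≤ j → j ≤ n → SurjJ p F d j) (q j : ℕ) :
    HZero (fun I => (BK F d q I).toAddSubgroup) j := by
  induction q generalizing j with
  | zero =>
    have h0 : ∀ (l : ℕ) (c : (Fin l → Fin (n + 1)) → Fo κ (n + 1)),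
        Coch (fun I => (BK F d 0 I).toAddSubgroup) c → c = 0 := by
      intro l c hc
      funext s
      have h := hc s
      have h' : c s ∈ BK F d 0 (Set.range s) := h
      rw [BK_zero p H, Submodule.mem_bot] at h'
      exact h'
    cases j with
    | zero =>
      intro c hc _
      exact h0 1 c hc
    | succ l =>
      intro c hc _
      refine ⟨0, fun s => AddSubgroup.zero_mem _, ?_⟩
      rw [del_zero, h0 _ c hc]
  | succ q ih => exact step p H hS ih j

end MPadcBK
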