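import Pool.Agent.Lib.MP_adc574_ag_BK.Spr

/-!
# JOB GBas: monomial bases of the Jacobian ring in the degrees `i d - m`

`F` homogeneous of degree `d ≥ 1` over a field `K` (no smoothness). Let `T` be the finite set of the exponents `e` with `tdg e = i d` for some `1 ≤ i ≤ J`, `𝔮 : MvPolynomial → MvPolynomial ⧸ I` (`I = Ideal.span (range ∂_j F)`), a `K`-linear map. Choose a maximal subset `V ⊆ T` such that the classes `𝔮 (x^v)`, `v ∈ V`, are `K`-linearly independent
(`exists_linearIndependent'`, or maximal independent subset of the finite set `T`, e.g. `exists_maximal` for finsets). Then every `𝔮 (x^e)`, `e ∈ T`, is a combination `∑_v c v e 𝔮 (x^v)`.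
`I` is homogeneous: all homogeneous components of an element of `I` are in `I` (`P = ∑ Q_j F_j`, the component of degree `N` is `∑ Q_j^(N-(d-1)) F_j`; a short direct proof, or the lemmas on homogeneous ideals). So one may take `c v e = 0` unless `tdg e = tdg v` (the component of degree `|e|` of the relation), and put `c v e = 0` for `e ∉ T`.
`lv v = tdg v / d` (`tdg v = i d`, `d ≥ 1`, so `lv v = i`). `ker`: by linearity `Q = x^e'` (or scalar multiples); `x^e' * ∂_j F` is homogeneous of degree `|e'| + d - 1` and in `I`. If `|e'| + d - 1 + m = i d` with `1 ≤ i ≤ J` all its monomials are in `T`, so `0 = 𝔮(..) = ∑_v (ell c v (..)) 𝔮 (x^v)` and independence; otherwise all `c v e` vanish (for `d = 0` nothing).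
`self`: independence. `span`: by construction (with `C 1`).
`exists_cdata_dom`: over a domain `A₀` with fraction field: `exists_cdata_gen` over `FractionRing A₀` and `CData.spread`.
-/

set_option autoImplicit false

namespace MPadcBK

open MvPolynomial MPadcGM MPadcHM

private theorem gbas_lin {K W ι : Type*} [Field K] [AddCommGroup W] [Module K W] [DecidableEq ι]
    (T : Finset ι) (w : ι → W) : ∃ (V : Finset ι) (c : ι → ι → K), V ⊆ T ∧
      (∀ e ∈ T, w e = ∑ v ∈ V, c v e • w v) ∧
      (∀ f : ι → K, ∑ v ∈ V, f v • w v = 0 → ∀ v ∈ V, f v = 0) := by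
  induction T using Finset.induction_on with
  | empty =>
    refine ⟨∅, fun _ _ => 0, Finset.Subset.refl _, fun e he => absurd he (Finset.notMem_empty e),
      fun f _ v hv => absurd hv (Finset.notMem_empty v)⟩
  | insert a T ha ih =>
    obtain ⟨V, c, hV, hc, hi⟩ := ih
    have haV : a ∉ V := fun h => ha (hV h)
    by_cases h : ∃ f : ι → K, w a = ∑ v ∈ V, f v • w v
    · obtain ⟨f, hf⟩ := h
      refine ⟨V, fun v e => if e = a then f v else c v e, hV.trans (Finset.subset_insert a T), ?_, hi⟩
      intro e he
      by_cases hea : e = a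
      · simp only [hea, if_true]
        exact hf
      · simp only [hea, if_false]
        exact hc e ((Finset.mem_insert.1 he).resolve_left hea)
    · refine ⟨insert a V, fun v e => if v = a then (if e = a then 1 else 0) else
        (if e = a then 0 else c v e), Finset.insert_subset_insert a hV, ?_, ?_⟩
      · intro e he
        rw [Finset.sum_insert haV]
        have hva : ∀ v ∈ V, v ≠ a := fun v hv h2 => haV (h2 ▸ hv)
        by_cases hea : e = a
        · have h1 : ∑ v ∈ V, (if v = a then (if e = a then (1 : K) else 0) else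
              (if e = a then 0 else c v e)) • w v = 0 := by
            refine Finset.sum_eq_zero fun v hv => ?_
            rw [if_neg (hva v hv), if_pos hea, zero_smul]
          refine Eq.trans ?_ (congrArg₂ (fun a b => a + b) rfl h1.symm)
          simp only [if_true, hea, one_smul, add_zero]
        · have h1 : ∑ v ∈ V, (if v = a then (if e = a then (1 : K) else 0) else
              (if e = a then 0 else c v e)) • w v = w e := by
            rw [hc e ((Finset.mem_insert.1 he).resolve_left hea)]
            refine Finset.sum_congr rfl fun v hv => ?_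
            rw [if_neg (hva v hv), if_neg hea]
          refine Eq.trans ?_ (congrArg₂ (fun a b => a + b) rfl h1.symm)
          simp only [if_true, hea, if_false, zero_smul, zero_add]
      · intro f hf
        rw [Finset.sum_insert haV] at hf
        have hfa : f a = 0 := by
          by_contra hne
          apply h
          refine ⟨fun v => -((f a)⁻¹ * f v), ?_⟩
          have h3 : w a = (f a)⁻¹ • (f a • w a) := by rw [smul_smul, inv_mul_cancel₀ hne, one_smul]
          rw [h3, eq_neg_of_add_eq_zero_left hf, smul_neg, Finset.smul_sum, ← Finset.sum_neg_distrib]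
          refine Finset.sum_congr rfl fun v _ => ?_
          rw [smul_smul, neg_smul]
        rw [hfa, zero_smul, zero_add] at hf
        intro v hv
        rcases Finset.mem_insert.1 hv with h4 | h4
        · rw [h4, hfa]
        · exact hi f hf v h4

private theorem gbas_tdg {m : ℕ} (e : Fin m →₀ ℕ) : tdg e = ∑ i, e i + m := by
  unfold tdg
  rw [Finset.sum_add_distrib]
  simp

private theorem gbas_hom {m : ℕ} {R : Type*} [CommRing R] {N : ℕ} {P : MvPolynomial (Fin m) R}
    (hP : P.IsHomogeneous N) {e : Fin m →₀ ℕ} (he : e ∈ P.support) : tdg e = N + m := by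
  rw [gbas_tdg]
  have h1 := hP (MvPolynomial.mem_support_iff.mp he)
  rw [Finsupp.weight_apply, Finsupp.sum_fintype _ _ (by simp)] at h1
  simp only [Pi.one_apply, smul_eq_mul, mul_one] at h1
  rw [h1]

private theorem gbas_fin (m N : ℕ) : {e : Fin m →₀ ℕ | tdg e = N}.Finite := by
  refine (Set.finite_Iic (Finsupp.equivFunOnFinite.symm (fun _ : Fin m => N))).subset ?_
  intro e he
  have he' : tdg e = N := he
  rw [Set.mem_Iic, Finsupp.le_def]
  intro i
  change e i ≤ N
  unfold tdg at he'
  have h1 := Finset.single_le_sum (f := fun i => e i + 1) (fun _ _ => Nat.zero_le _) (Finset.mem_univ i)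
  have h2 : e i + 1 ≤ ∑ i, (e i + 1) := h1
  omega

theorem exists_cdata_gen {K : Type*} [Field K] {m d : ℕ} (hd : 1 ≤ d)
    (F : MvPolynomial (Fin m) K) (hF : F.IsHomogeneous d) (J : ℕ) :
    ∃ (V : Finset (Fin m →₀ ℕ)) (c : V → (Fin m →₀ ℕ) → K),
      CData d J F (fun v : V => v.1) (fun v => tdg v.1 / d) c 1 := by
  classical
  set I : Ideal (MvPolynomial (Fin m) K) := Ideal.span (Set.range fun j => pderiv j F) with hI
  let q : MvPolynomial (Fin m) K →ₗ[K] (MvPolynomial (Fin m) K ⧸ I) :=
    (Ideal.Quotient.mkₐ K I).toLinearMap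
  have hq : ∀ P, q P = 0 ↔ P ∈ I := fun P => Ideal.Quotient.eq_zero_iff_mem
  have hlev := fun i : ℕ => gbas_lin (K := K) (gbas_fin m (i * d)).toFinset
    (fun e : Fin m →₀ ℕ => q (monomial e 1))
  choose U c hUT hc hind using hlev
  have hUdeg : ∀ i, ∀ v ∈ U i, tdg v = i * d := by
    intro i v hv
    have h1 := hUT i hv
    rw [Set.Finite.mem_toFinset] at h1
    exact h1
  have hspan : ∀ i e, tdg e = i * d → q (monomial e 1) = ∑ v ∈ U i, c i v e • q (monomial v 1) := by
    intro i e he
    exact hc i e ((Set.Finite.mem_toFinset _).2 he)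
  have hdiv : ∀ i, i * d / d = i := fun i => Nat.mul_div_cancel i (by omega)
  have hinj : ∀ i i' : ℕ, i * d = i' * d → i = i' := fun i i' h => Nat.eq_of_mul_eq_mul_right (by omega) h
  set V : Finset (Fin m →₀ ℕ) := (Finset.Icc 1 J).biUnion U with hV
  have hVmem : ∀ v, v ∈ V → ∃ i, 1 ≤ i ∧ i ≤ J ∧ v ∈ U i ∧ tdg v = i * d ∧ tdg v / d = i := by
    intro v hv
    rw [hV, Finset.mem_biUnion] at hv
    obtain ⟨i, hi, hvi⟩ := hv
    rw [Finset.mem_Icc] at hi
    have h1 := hUdeg i v hvi
    exact ⟨i, hi.1, hi.2, hvi, h1, by rw [h1, hdiv]⟩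
  have hUV : ∀ i, 1 ≤ i → i ≤ J → ∀ v ∈ U i, v ∈ V := by
    intro i h1 h2 v hv
    rw [hV, Finset.mem_biUnion]
    exact ⟨i, Finset.mem_Icc.2 ⟨h1, h2⟩, hv⟩
  refine ⟨V, fun v e => if tdg e = tdg v.1 then c (tdg v.1 / d) v.1 e else 0, ?_, ?_, ?_, ?_, ?_, ?_, ?_⟩
  · intro v
    obtain ⟨i, h1, h2, h3, h4, h5⟩ := hVmem v.1 v.2
    simp only [h5]
    exact h1
  · intro v
    obtain ⟨i, h1, h2, h3, h4, h5⟩ := hVmem v.1 v.2
    simp only [h5]
    exact h2
  · intro v
    obtain ⟨i, h1, h2, h3, h4, h5⟩ := hVmem v.1 v.2
    simp only [h5]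
    exact h4
  · intro v j Q
    obtain ⟨i, h1, h2, h3, h4, h5⟩ := hVmem v.1 v.2
    induction Q using MvPolynomial.induction_on' with
    | add p r hp hr => rw [add_mul, map_add, hp, hr, add_zero]
    | monomial u a =>
      have hhom : (monomial u a * pderiv j F).IsHomogeneous (u.degree + (d - 1)) :=
        (isHomogeneous_monomial a rfl).mul hF.pderiv
      rw [ell_eq_sum]
      by_cases hN : u.degree + (d - 1) + m = i * d
      · have hmem : monomial u a * pderiv j F ∈ I :=
          Ideal.mul_mem_left _ _ (Ideal.subset_span ⟨j, rfl⟩)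
        have h6 := (hq _).2 hmem
        conv at h6 => lhs; rw [MvPolynomial.as_sum (monomial u a * pderiv j F)]
        rw [map_sum] at h6
        have h7 : ∀ e ∈ (monomial u a * pderiv j F).support,
            q (monomial e (coeff e (monomial u a * pderiv j F))) =
            ∑ v ∈ U i, (coeff e (monomial u a * pderiv j F) * c i v e) • q (monomial v 1) := by
          intro e he
          have h8 : (monomial e (coeff e (monomial u a * pderiv j F)) : MvPolynomial (Fin m) K) =
              coeff e (monomial u a * pderiv j F) • monomial e 1 := by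
            rw [MvPolynomial.smul_monomial, smul_eq_mul, mul_one]
          rw [h8, map_smul, hspan i e (by rw [gbas_hom hhom he, hN]), Finset.smul_sum]
          refine Finset.sum_congr rfl fun v _ => ?_
          rw [smul_smul]
        rw [Finset.sum_congr rfl h7, Finset.sum_comm] at h6
        have h9 : ∑ v ∈ U i, (∑ e ∈ (monomial u a * pderiv j F).support,
            coeff e (monomial u a * pderiv j F) * c i v e) • q (monomial v 1) = 0 := by
          rw [← h6]
          refine Finset.sum_congr rfl fun v _ => ?_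
          rw [Finset.sum_smul]
        have h10 := hind i _ h9 v.1 h3
        rw [← h10]
        refine Finset.sum_congr rfl fun e he => ?_
        rw [if_pos (by rw [gbas_hom hhom he, hN, h4]), h5]
      · refine Finset.sum_eq_zero fun e he => ?_
        rw [if_neg (by rw [gbas_hom hhom he, h4]; exact hN), mul_zero]
  · intro v v'
    obtain ⟨i, h1, h2, h3, h4, h5⟩ := hVmem v.1 v.2
    obtain ⟨i', h1', h2', h3', h4', h5'⟩ := hVmem v'.1 v'.2
    simp only [h4, h4']
    by_cases hii : i = i'
    · subst hii
      rw [if_pos rfl, hdiv]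
      have h6 : ∑ w ∈ U i, (c i w v'.1 - if w = v'.1 then 1 else 0) • q (monomial w 1) = 0 := by
        simp only [sub_smul, Finset.sum_sub_distrib, ite_smul, one_smul, zero_smul]
        rw [← hspan i v'.1 h4', Finset.sum_ite_eq' (U i) v'.1, if_pos h3', sub_self]
      have h7 := hind i _ h6 v.1 h3
      rw [sub_eq_zero] at h7
      rw [h7]
      by_cases hvv : v = v'
      · rw [if_pos hvv, if_pos (congrArg Subtype.val hvv)]
      · rw [if_neg hvv, if_neg fun h => hvv (Subtype.ext h)]
    · rw [if_neg (fun h => hii (hinj _ _ h).symm), if_neg]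
      rintro rfl
      exact hii (hinj _ _ (h4.symm.trans h4'))
  · intro v e he
    obtain ⟨i, h1, h2, h3, h4, h5⟩ := hVmem v.1 v.2
    rw [if_neg]
    intro h
    apply he
    simp only [h5]
    rw [h, h4]
  · intro i hi hiJ e he
    rw [← hI, ← hq, C_1, one_mul, map_sub, map_sum, hspan i e he, sub_eq_zero]
    have h6 : ∀ v : V, q (if tdg v.1 / d = i then
        monomial v.1 (if tdg e = tdg v.1 then c (tdg v.1 / d) v.1 e else 0) else 0) =
        (fun w : Fin m →₀ ℕ => if w ∈ U i then c i w e • q (monomial w 1) else 0) v.1 := by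
      intro v
      obtain ⟨i', h1', h2', h3', h4', h5'⟩ := hVmem v.1 v.2
      by_cases hii : i' = i
      · subst hii
        simp only [h3', if_true, he, h4', hdiv]
        have h8 : (monomial v.1 (c i' v.1 e) : MvPolynomial (Fin m) K) =
            c i' v.1 e • monomial v.1 1 := by
          rw [MvPolynomial.smul_monomial, smul_eq_mul, mul_one]
        rw [h8, map_smul]
      · have h9 : v.1 ∉ U i := fun h => hii (hinj _ _ (h4'.symm.trans (hUdeg i _ h)))
        simp only [h5', hii, h9, if_false, map_zero]
    rw [Finset.sum_congr rfl fun v _ => h6 v, Finset.sum_coe_sort V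
      (fun w : Fin m →₀ ℕ => if w ∈ U i then c i w e • q (monomial w 1) else 0),
      ← Finset.sum_filter]
    refine Finset.sum_congr ?_ fun _ _ => rfl
    ext w
    rw [Finset.mem_filter]
    exact ⟨fun h => ⟨hUV i hi hiJ w h, h⟩, fun h => h.2⟩

theorem exists_cdata_dom {A₀ : Type*} [CommRing A₀] [IsDomain A₀] {m d : ℕ} (hd : 1 ≤ d)
    (F : MvPolynomial (Fin m) A₀) (hF : F.IsHomogeneous d) (J : ℕ) :
    ∃ (V : Finset (Fin m →₀ ℕ)) (c : V → (Fin m →₀ ℕ) → A₀) (h : A₀), h ≠ 0 ∧
      CData d J F (fun v : V => v.1) (fun v => tdg v.1 / d) c h := by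
  obtain ⟨V, c', hC⟩ := exists_cdata_gen hd (F.map (algebraMap A₀ (FractionRing A₀))) (hF.map _) J
  obtain ⟨h, c, hh, -, hC'⟩ := CData.spread (algebraMap A₀ (FractionRing A₀))
    (IsFractionRing.injective A₀ (FractionRing A₀)) (by
      intro x
      obtain ⟨b, s, hs, rfl⟩ := IsFractionRing.div_surjective (A := A₀) x
      have hs0 : s ≠ 0 := nonZeroDivisors.ne_zero hs
      refine ⟨b, s, hs0, ?_⟩
      have h1 : algebraMap A₀ (FractionRing A₀) s ≠ 0 := fun h =>
        hs0 ((IsFractionRing.injective A₀ (FractionRing A₀)) (by rw [h, map_zero]))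
      field_simp) hC
  exact ⟨V, c, h, hh, hC'⟩

end MPadcBK
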