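import Pool.Agent.Lib.MP_adc574_ag_BK.CoreG2
import Pool.Agent.Lib.MP_adc574_ag_BK.GBas
import Pool.Agent.Lib.MP_adc574_ag_BK.FinG

/-!
# JOB FinG2: closed points, arbitrary equation over `R[t]`

Copy the proof of `pencilsG` in `FinG.lean` (complete, same directory; its private lemmas `fing_finite`, `fing_transfer`, `fing_good` have to be copied with `dete`, `V : Finset (Fin (n+1) →₀ ℕ)` instead of `detg`, `Vs U d j`). Differences:
* the equation `FR` over `R[t]` is arbitrary, `R` is given (`Subalgebra ℤ k₀`, finitely generated); `θ : R[t] → B` as there (`Polynomial.eval₂RingHom`), injective because `t` is transcendental over `k₀`.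
* `exists_cdata_dom` over `A₀ = R[t]` gives `V j`, `c j`, `hc j` for every `j` (instead of `exists_MB`, `exists_cdata_R`).
* smoothness over `k`: `hsm` mapped to `k` (`a` maps to something `≠ 0`), so `X i ^ M ∈ Jac (F.map (algebraMap A k))`, then `exists_jac` as there.
* `core2` instead of `coreG`, `J = n`.
-/

set_option autoImplicit false

namespace MPadcBK

open MvPolynomial MPadcGM MPadcHM

universe u

private theorem fing2_cons (n : ℕ) :
    (Fin.cons 1 (fun _ => 1) : Fin (n + 1) → ℕ) = 1 := by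
  funext i
  refine Fin.cases ?_ (fun j => ?_) i
  · rfl
  · rfl

private theorem fing2_finite {A : Type*} [CommRing A] [Algebra.FiniteType ℤ A] (m : Ideal A)
    [hm : m.IsMaximal] {p : ℕ} (hp : p.Prime) (hpm : (p : A) ∈ m) : Finite (A ⧸ m) := by
  let _ := Ideal.Quotient.field m
  have h1 : Algebra.FiniteType ℤ (A ⧸ m) :=
    Algebra.FiniteType.of_surjective (Ideal.Quotient.mkₐ ℤ m) (Ideal.Quotient.mkₐ_surjective ℤ m)
  have hj := isJacobsonRing_int
  have h2 : Module.Finite ℤ (A ⧸ m) := finite_of_finite_type_of_isJacobsonRing ℤ (A ⧸ m)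
  refine Module.finite_of_fg_torsion (A ⧸ m) ?_
  intro x
  refine ⟨⟨(p : ℤ), mem_nonZeroDivisors_of_ne_zero (by exact_mod_cast hp.ne_zero)⟩, ?_⟩
  show (p : ℤ) • x = 0
  have h3 : ((p : ℤ) : A ⧸ m) = 0 := by
    rw [Int.cast_natCast, ← map_natCast (Ideal.Quotient.mk m), Ideal.Quotient.eq_zero_iff_mem]
    exact hpm
  rw [zsmul_eq_mul, h3, zero_mul]

private theorem fing2_transfer (p : ℕ) [Fact p.Prime] {Ab Bb Rb L : Type*} [CommRing Ab]
    [CommRing Bb] [IsDomain Bb] [CommRing Rb] [CommRing L] [CharP Ab p] [CharP Bb p] [CharP Rb p]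
    [CharP L p] (iA : Ab →+* Bb) (iR : Rb →+* Bb) (hiR : Function.Injective iR) (iE : Rb →+* L)
    {m : ℕ} {FA : MvPolynomial (Fin m) Ab} {FR : MvPolynomial (Fin m) Rb}
    (hF : FA.map iA = FR.map iR) {V : Finset (Fin m →₀ ℕ)} {d j : ℕ}
    {cA : V → (Fin m →₀ ℕ) → Ab} {hA : Ab}
    (hCA : CData d j FA (fun v : V => v.1) (fun v => tdg v.1 / d) cA hA)
    (hA0 : iA hA ≠ 0) {cR : V → (Fin m →₀ ℕ) → Rb} {hR : Rb}
    (hCR : CData d j FR (fun v : V => v.1) (fun v => tdg v.1 / d) cR hR)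
    (hdet : dete p (FR.map iE) V d (fun v e => iE (cR v e)) ≠ 0) :
    dete p FA V d cA ≠ 0 := by
  rw [dete_map] at hdet
  have h1 : dete p FR V d cR ≠ 0 := by
    intro h0
    rw [h0, map_zero] at hdet
    exact hdet rfl
  have h2 : dete p (FR.map iR) V d (fun v e => iR (cR v e)) ≠ 0 := by
    rw [dete_map]
    exact (map_ne_zero_iff iR hiR).2 h1
  have h3 := hCA.map iA
  have h4 := hCR.map iR
  rw [← hF] at h4 h2
  have h5 : (fun (v : V) (e : Fin m →₀ ℕ) => iR hR * iA (cA v e)) =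
      fun v e => iA hA * iR (cR v e) := by
    funext v e
    exact CData.uniq h3 h4 v e
  intro h0
  have h6 : dete p (FA.map iA) V d (fun v e => iA (cA v e)) = 0 := by
    rw [dete_map, h0, map_zero]
  have h7 := dete_smul p (FA.map iA) V d (fun v e => iA (cA v e)) (iR hR)
  have h8 := dete_smul p (FA.map iA) V d (fun v e => iR (cR v e)) (iA hA)
  rw [h6, mul_zero, h5, h8] at h7
  exact mul_ne_zero (pow_ne_zero _ (pow_ne_zero _ hA0)) h2 h7

private theorem fing2_good {A : Type*} [CommRing A] {κ : Type u} [Field κ] [Finite κ]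
    (φ : A →+* κ) (p : ℕ) [hp : Fact p.Prime] [hch : CharP κ p] {n : ℕ} (hn : 2 ≤ n) {d : ℕ}
    (hd : 1 ≤ d) (hnp : n < p) (hdk : (d : κ) ≠ 0) {F : MvPolynomial (Fin (n + 1)) A}
    (hF : F.IsHomogeneous d) (hs : Smooth (F.map φ)) (V : ℕ → Finset (Fin (n + 1) →₀ ℕ))
    (cA : ∀ j, V j → (Fin (n + 1) →₀ ℕ) → A) (hA : ℕ → A)
    (hCA : ∀ j, CData d j F (fun v : V j => v.1) (fun v => tdg v.1 / d) (cA j) (hA j))
    (hA0 : ∀ j, 1 ≤ j → j ≤ n → φ (hA j) ≠ 0)
    (hdet : ∀ j, 1 ≤ j → j ≤ n → dete p (F.map φ) (V j) d (fun v e => φ (cA j v e)) ≠ 0) :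
    BKGood p d (F.map φ) := by
  have hperf : PerfectRing κ p := PerfectRing.ofFiniteOfIsReduced p κ
  have hFk : (F.map φ).IsHomogeneous d := hF.map φ
  refine ⟨hp, hch, hperf, ?_⟩
  have H : Hyp p d (F.map φ) := ⟨hn, hd, hnp, fun h => hdk ((CharP.cast_eq_zero_iff κ p d).2 h),
    hFk, hs⟩
  refine ⟨H, fun q j => mainA p H (fun j hj1 hjn => ?_) q j⟩
  have h1 := (hCA j).map φ
  have h2 := hdet j hj1 hjn
  unfold dete at h2
  exact surjJ_of_det p hFk hd h1 (hA0 j hj1 hjn) h2

theorem pencils2 {k : Type u} [Field k] [CharZero k] (k₀ : Subfield k) (t : k)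
    (ht : Transcendental k₀ t) {n : ℕ} (hn : 2 ≤ n) (d : ℕ) (hd : 2 ≤ d)
    (R : Subalgebra ℤ k₀) (hR : R.FG) (FR : MvPolynomial (Fin (n + 1)) (Polynomial R))
    (hFR : FR.IsHomogeneous d) (a : Polynomial R) (ha : a ≠ 0) (M : ℕ)
    (hsm : ∀ e : Fin (n + 1) →₀ ℕ, M ≤ ∑ l, e l →
      C a * monomial e 1 ∈ Ideal.span (Set.range fun j => pderiv j FR))
    (hkey : ∀ (κ : Type u) [Field κ] [CharZero κ] [IsAlgClosed κ] (ρ : R →+* κ),
      Function.Injective ρ → Key κ d (FR.map (pred ρ)))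
    (A : Subalgebra ℤ k) (hA : A.FG) (F : MvPolynomial (Fin (n + 1)) A)
    (hF : F.map (algebraMap A k) = FR.map
      (Polynomial.eval₂RingHom ((algebraMap k₀ k).comp (algebraMap R k₀)) t))
    (b : A) (hb : b ≠ 0) :
    ∃ p₀ : ℕ, ∀ p : ℕ, p.Prime → p₀ < p →
      ∃ (κ : Type u) (_ : Field κ) (_ : Finite κ) (φ : A →+* κ), Function.Surjective φ ∧
        φ b ≠ 0 ∧ BKGood p d (F.map φ) := by
  have hcons : (Fin.cons 1 (fun _ => 1) : Fin (n + 1) → ℕ) = 1 := fing2_cons n
  -- the image of `R` in `k`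
  let R' : Subalgebra ℤ k := R.map (k₀.subtype.toIntAlgHom)
  have hR' : R'.FG := hR.map _
  obtain ⟨B, hB, hAB, hRB, htB⟩ := exists_big A R' hA hR' t
  let ιR : R →+* B := (k₀.subtype.comp R.val.toRingHom).codRestrict B.toSubring
    fun x => hRB ⟨x, x.2, rfl⟩
  let ιA : A →+* B := (Subalgebra.inclusion hAB).toRingHom
  let ιB : B →+* k := B.val.toRingHom
  have hιB : Function.Injective ιB := Subtype.val_injective
  let θ : Polynomial R →+* B := Polynomial.eval₂RingHom ιR ⟨t, htB⟩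
  have hιR : ιB.comp ιR = (algebraMap k₀ k).comp (algebraMap R k₀) := rfl
  have hθk : ∀ P : Polynomial R, ιB (θ P) =
      Polynomial.aeval t (P.map (algebraMap R k₀)) := by
    intro P
    have h1 : ιB (θ P) = ιB (Polynomial.eval₂ ιR ⟨t, htB⟩ P) := rfl
    rw [h1, Polynomial.hom_eval₂, hιR, Polynomial.aeval_def, Polynomial.eval₂_map]
    rfl
  have hθ : Function.Injective θ := by
    rw [injective_iff_map_eq_zero]
    intro P hP
    have h1 := hθk P
    rw [hP, map_zero] at h1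
    have h2 : P.map (algebraMap R k₀) = 0 := by
      by_contra h3
      exact ht ⟨_, h3, h1.symm⟩
    exact (Polynomial.map_eq_zero_iff (FaithfulSMul.algebraMap_injective R k₀)).1 h2
  have hθ2 : ιB.comp θ =
      Polynomial.eval₂RingHom ((algebraMap k₀ k).comp (algebraMap R k₀)) t := by
    apply RingHom.ext
    intro P
    have h1 : (ιB.comp θ) P = ιB (Polynomial.eval₂ ιR ⟨t, htB⟩ P) := rfl
    rw [h1, Polynomial.hom_eval₂, hιR]
    rfl
  have hftR : Algebra.FiniteType ℤ R := R.fg_iff_finiteType.1 hR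
  have hftA : Algebra.FiniteType ℤ A := A.fg_iff_finiteType.1 hA
  have hftB : Algebra.FiniteType ℤ B := B.fg_iff_finiteType.1 hB
  have hθft : θ.FiniteType := by
    refine RingHom.FiniteType.of_comp_finiteType (f := algebraMap ℤ (Polynomial R)) ?_
    have h1 : θ.comp (algebraMap ℤ (Polynomial R)) = algebraMap ℤ B := Subsingleton.elim _ _
    rw [h1, RingHom.finiteType_algebraMap]
    exact hftB
  have hnoeth : IsNoetherianRing R := Algebra.FiniteType.isNoetherianRing ℤ R
  have hczR : CharZero R := (ιB.comp ιR).charZero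
  have hczA : CharZero A := (algebraMap A k).charZero
  -- the equation over `B`
  have hFk : F.map (algebraMap A k) = FR.map (ιB.comp θ) := by
    rw [hθ2]
    exact hF
  have hFB : F.map ιA = FR.map θ := by
    apply MvPolynomial.map_injective ιB hιB
    rw [map_map, map_map, ← hFk]
    rfl
  have hW : ∀ i, 0 < (Fin.cons 1 (fun _ => 1) : Fin (n + 1) → ℕ) i := by
    rw [hcons]
    intro i
    exact Nat.one_pos
  have hd0 : 0 < d := by omega
  have hd1 : 1 ≤ d := hd0
  have hιA : Function.Injective ιA := Subalgebra.inclusion_injective hAB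
  have hAk : Function.Injective (algebraMap A k) := FaithfulSMul.algebraMap_injective A k
  -- smoothness
  have hqs : ∀ i, (X i : MvPolynomial (Fin (n + 1)) k) ∈
      (Ideal.span (Set.range fun j => pderiv j (F.map (algebraMap A k)))).radical := by
    intro i
    refine ⟨M, ?_⟩
    have h1 := hsm (Finsupp.single i M) (by
      rw [Finset.sum_eq_single i]
      · rw [Finsupp.single_eq_same]
      · intro j _ hj
        rw [Finsupp.single_eq_of_ne hj]
      · intro h
        exact absurd (Finset.mem_univ i) h)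
    have h2 := Ideal.mem_map_of_mem (MvPolynomial.map (ιB.comp θ)) h1
    rw [Ideal.map_span, map_mul, map_C, map_monomial, map_one, ← X_pow_eq_monomial] at h2
    have h3 : (⇑(MvPolynomial.map (ιB.comp θ)) '' Set.range fun j => pderiv j FR) =
        Set.range fun j => pderiv j (F.map (algebraMap A k)) := by
      rw [← Set.range_comp, hFk]
      apply congrArg Set.range
      funext j
      rw [Function.comp_apply, MvPolynomial.pderiv_map]
    rw [h3] at h2
    have h4 : (ιB.comp θ) a ≠ 0 := by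
      rw [RingHom.comp_apply, Ne, map_eq_zero_iff _ hιB, map_eq_zero_iff _ hθ]
      exact ha
    have h5 := Ideal.mul_mem_left _ (C ((ιB.comp θ) a)⁻¹) h2
    rw [← mul_assoc, ← C_mul, inv_mul_cancel₀ h4, C_1, one_mul] at h5
    exact h5
  obtain ⟨aA, MA, haA, hJA⟩ := exists_jac.{u, u, u} (A := A) (k := k) hAk _ hW F hqs
  -- homogeneity of `F`
  have hFh : F.IsHomogeneous d := by
    intro e he
    have h1 : ιA (coeff e F) ≠ 0 := (map_ne_zero_iff ιA hιA).2 he
    rw [← coeff_map, hFB] at h1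
    exact hFR.map θ h1
  -- the bases
  choose V c hc hc0 hC using fun j => exists_cdata_dom hd1 FR hFR j
  have hCk : ∀ j, CData d j (F.map (algebraMap A k)) (fun v : V j => v.1)
      (fun v => tdg v.1 / d) (fun v e => (ιB.comp θ) (c j v e)) ((ιB.comp θ) (hc j)) := by
    intro j
    rw [hFk]
    exact (hC j).map (ιB.comp θ)
  have hck0 : ∀ j, (ιB.comp θ) (hc j) ≠ 0 := by
    intro j
    rw [RingHom.comp_apply, Ne, map_eq_zero_iff _ hιB, map_eq_zero_iff _ hθ]
    exact hc0 j
  choose hj cA hj0 hCA using fun j => exists_cdata_A (algebraMap A k) hAk (hCk j) (hck0 j)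
  have := isJacobsonRing_int
  have hjacA : IsJacobsonRing A := isJacobsonRing_of_finiteType (A := ℤ)
  obtain ⟨bb, hbb⟩ : ∃ bb : A, bb = b * aA * (d : A) * ∏ j ∈ Finset.range (n + 1), hj j :=
    ⟨_, rfl⟩
  have hbb0 : bb ≠ 0 := by
    rw [hbb]
    refine mul_ne_zero (mul_ne_zero (mul_ne_zero hb haA) ?_) ?_
    · exact Nat.cast_ne_zero.2 hd0.ne'
    · exact Finset.prod_ne_zero_iff.2 fun j _ => hj0 j
  obtain ⟨h, hh0, hlift⟩ := exists_prime_lift θ hθ hθft (ιA bb) (by
    rw [Ne, map_eq_zero_iff _ hιA]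
    exact hbb0)
  obtain ⟨p₀, hp₀⟩ := core2 d hd FR hFR a ha M hsm n V c hc hc0 hC hkey h hh0
  refine ⟨max p₀ n, fun p hp hpp => ?_⟩
  have hpf : Fact p.Prime := ⟨hp⟩
  have hnp : n < p := lt_of_le_of_lt (le_max_right _ _) hpp
  obtain ⟨E, _, _, _, ψ, hhψ, hdet⟩ := hp₀ p (lt_of_le_of_lt (le_max_left _ _) hpp)
  have hker : (RingHom.ker (pred ψ)).IsPrime := RingHom.ker_isPrime _
  have hhker : h ∉ RingHom.ker (pred ψ) := by
    rw [RingHom.mem_ker, pred, RingHom.comp_apply,
      map_eq_zero_iff _ (RatFunc.algebraMap_injective E)]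
    exact hhψ
  obtain ⟨Q, hQ, hcQ, hQq⟩ := hlift _ hker hhker
  have hQmem : ∀ x, θ x ∈ Q ↔ pred ψ x = 0 := by
    intro x
    rw [← Ideal.mem_comap, hQq, RingHom.mem_ker]
  let P : Ideal A := Q.comap ιA
  have hP : P.IsPrime := Ideal.IsPrime.comap ιA
  have hpker : ((p : ℕ) : Polynomial R) ∈ RingHom.ker (pred ψ) := by
    rw [RingHom.mem_ker, map_natCast]
    exact CharP.cast_eq_zero (RatFunc E) p
  have hpQ : ((p : ℕ) : B) ∈ Q := by
    have h1 : ((p : ℕ) : B) = θ (p : Polynomial R) := (map_natCast θ p).symm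
    rw [h1, hQmem, ← RingHom.mem_ker]
    exact hpker
  have hpP : (p : A) ∈ P := by
    rw [Ideal.mem_comap, map_natCast]
    exact hpQ
  have hntP : Nontrivial (A ⧸ P) := Ideal.Quotient.nontrivial_iff.2 hP.ne_top
  have hntQ : Nontrivial (B ⧸ Q) := Ideal.Quotient.nontrivial_iff.2 hQ.ne_top
  have hntR : Nontrivial (Polynomial R ⧸ RingHom.ker (pred ψ)) :=
    Ideal.Quotient.nontrivial_iff.2 hker.ne_top
  have hdomQ : IsDomain (B ⧸ Q) := Ideal.Quotient.isDomain Q
  have hchP : CharP (A ⧸ P) p := by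
    rw [CharP.charP_iff_prime_eq_zero hp, ← map_natCast (Ideal.Quotient.mk P),
      Ideal.Quotient.eq_zero_iff_mem]
    exact hpP
  have hchQ : CharP (B ⧸ Q) p := by
    rw [CharP.charP_iff_prime_eq_zero hp, ← map_natCast (Ideal.Quotient.mk Q),
      Ideal.Quotient.eq_zero_iff_mem]
    exact hpQ
  have hchR : CharP (Polynomial R ⧸ RingHom.ker (pred ψ)) p := by
    rw [CharP.charP_iff_prime_eq_zero hp, ← map_natCast (Ideal.Quotient.mk (RingHom.ker (pred ψ))),
      Ideal.Quotient.eq_zero_iff_mem]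
    exact hpker
  let iA : A ⧸ P →+* B ⧸ Q := Ideal.quotientMap Q ιA le_rfl
  let iR : Polynomial R ⧸ RingHom.ker (pred ψ) →+* B ⧸ Q := Ideal.quotientMap Q θ (le_of_eq hQq.symm)
  have hiR : Function.Injective iR := Ideal.quotientMap_injective' (le_of_eq hQq)
  let iE : Polynomial R ⧸ RingHom.ker (pred ψ) →+* RatFunc E := RingHom.kerLift (pred ψ)
  have hiA : iA.comp (Ideal.Quotient.mk P) = (Ideal.Quotient.mk Q).comp ιA :=
    Ideal.quotientMap_comp_mk _
  have hiRc : iR.comp (Ideal.Quotient.mk (RingHom.ker (pred ψ))) = (Ideal.Quotient.mk Q).comp θ :=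
    Ideal.quotientMap_comp_mk _
  have hiEc : iE.comp (Ideal.Quotient.mk (RingHom.ker (pred ψ))) = pred ψ :=
    RingHom.ext fun x => RingHom.kerLift_mk (pred ψ) x
  have hFQ : (F.map (Ideal.Quotient.mk P)).map iA =
      (FR.map (Ideal.Quotient.mk (RingHom.ker (pred ψ)))).map iR := by
    rw [map_map, map_map, hiA, hiRc, ← map_map, ← map_map, hFB]
  have hbQ : ∀ x y : A, x * y = bb → ιA x ∉ Q ∧ ιA y ∉ Q := by
    intro x y hxy
    constructor
    · intro h1
      apply hcQ
      rw [← hxy, map_mul]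
      exact Q.mul_mem_right _ h1
    · intro h1
      apply hcQ
      rw [← hxy, map_mul]
      exact Q.mul_mem_left _ h1
  have hjQ : ∀ j, j ≤ n → iA (Ideal.Quotient.mk P (hj j)) ≠ 0 := by
    intro j hjn h1
    have h2 : iA (Ideal.Quotient.mk P (hj j)) = Ideal.Quotient.mk Q (ιA (hj j)) :=
      congrArg (fun f : A →+* B ⧸ Q => f (hj j)) hiA
    rw [h2, Ideal.Quotient.eq_zero_iff_mem] at h1
    have h3 := (hbQ _ _ hbb.symm).2
    apply h3
    rw [← Finset.mul_prod_erase (Finset.range (n + 1)) hj (Finset.mem_range.2 (by omega : j < n + 1)),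
      map_mul]
    exact Q.mul_mem_right _ h1
  have hD : ∀ j, 1 ≤ j → j ≤ n → dete p (F.map (Ideal.Quotient.mk P)) (V j) d
      (fun v e => Ideal.Quotient.mk P (cA j v e)) ≠ 0 := by
    intro j hj1 hjn
    refine fing2_transfer p iA iR hiR iE hFQ ((hCA j).map (Ideal.Quotient.mk P)) (hjQ j hjn)
      ((hC j).map (Ideal.Quotient.mk (RingHom.ker (pred ψ)))) ?_
    have h1 := hdet j hj1 hjn
    have h2 : (FR.map (Ideal.Quotient.mk (RingHom.ker (pred ψ)))).map iE =
        FR.map (pred ψ) := by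
      rw [map_map, hiEc]
    rw [h2]
    exact h1
  choose D hDm using fun j => Ideal.Quotient.mk_surjective (I := P)
    (dete p (F.map (Ideal.Quotient.mk P)) (V j) d (fun v e => Ideal.Quotient.mk P (cA j v e)))
  have hDP : ∀ j, 1 ≤ j → j ≤ n → D j ∉ P := by
    intro j hj1 hjn h1
    apply hD j hj1 hjn
    rw [← hDm j, Ideal.Quotient.eq_zero_iff_mem]
    exact h1
  have hcd : bb * ∏ j ∈ Finset.Icc 1 n, D j ∉ P := by
    intro h1
    rcases hP.mem_or_mem h1 with h2 | h2
    · exact hcQ h2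
    · obtain ⟨j, hjm, h3⟩ := (Ideal.IsPrime.prod_mem_iff (p := P)).1 h2
      exact hDP j (Finset.mem_Icc.1 hjm).1 (Finset.mem_Icc.1 hjm).2 h3
  have hjac2 : P.jacobson = P := hjacA.out hP.isRadical
  rw [← hjac2, Ideal.jacobson, Ideal.mem_sInf] at hcd
  push Not at hcd
  obtain ⟨m, ⟨hPm, hm⟩, hmcd⟩ := hcd
  have hbm : bb ∉ m := fun h1 => hmcd (m.mul_mem_right _ h1)
  rw [hbb] at hbm
  have hbam : b * aA * (d : A) ∉ m := fun h1 => hbm (m.mul_mem_right _ h1)
  have hjm : ∀ j, j ≤ n → hj j ∉ m := by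
    intro j hjn h1
    apply hbm
    apply m.mul_mem_left
    rw [← Finset.mul_prod_erase (Finset.range (n + 1)) hj (Finset.mem_range.2 (by omega : j < n + 1))]
    exact m.mul_mem_right _ h1
  have hDm' : ∀ j, 1 ≤ j → j ≤ n → D j ∉ m := by
    intro j hj1 hjn h1
    apply hmcd
    apply m.mul_mem_left
    rw [← Finset.mul_prod_erase (Finset.Icc 1 n) D (Finset.mem_Icc.2 ⟨hj1, hjn⟩)]
    exact m.mul_mem_right _ h1
  have hfin : Finite (A ⧸ m) := fing2_finite m hp (hPm hpP)
  let : Field (A ⧸ m) := Ideal.Quotient.field m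
  have hcharm : CharP (A ⧸ m) p := by
    apply charP_of_cast_eq_zero hp
    rw [← map_natCast (Ideal.Quotient.mk m), Ideal.Quotient.eq_zero_iff_mem]
    exact hPm hpP
  have hfac : (Ideal.Quotient.factor hPm).comp (Ideal.Quotient.mk P) = Ideal.Quotient.mk m :=
    RingHom.ext fun x => Ideal.Quotient.factor_mk hPm x
  refine ⟨A ⧸ m, this, hfin, Ideal.Quotient.mk m, Ideal.Quotient.mk_surjective, ?_, ?_⟩
  · intro h1
    rw [Ideal.Quotient.eq_zero_iff_mem] at h1
    exact hbam (m.mul_mem_right _ (m.mul_mem_right _ h1))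
  · refine fing2_good (Ideal.Quotient.mk m) p hn hd1 hnp ?_ hFh ?_ V cA hj hCA ?_ ?_
    · intro h1
      rw [← map_natCast (Ideal.Quotient.mk m), Ideal.Quotient.eq_zero_iff_mem] at h1
      exact hbam (m.mul_mem_left _ h1)
    · intro i
      refine ⟨MA, ?_⟩
      rw [X_pow_eq_monomial]
      refine hJA (Ideal.Quotient.mk m) ?_ _ ?_
      · intro h1
        rw [Ideal.Quotient.eq_zero_iff_mem] at h1
        exact hbam (m.mul_mem_right _ (m.mul_mem_left _ h1))
      · rw [hcons, Finset.sum_eq_single i]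
        · rw [Finsupp.single_eq_same, Pi.one_apply, one_mul]
        · intro j _ hj
          rw [Finsupp.single_eq_of_ne hj, mul_zero]
        · intro h
          exact absurd (Finset.mem_univ i) h
    · intro j _ hjn h1
      rw [Ideal.Quotient.eq_zero_iff_mem] at h1
      exact hjm j hjn h1
    · intro j hj1 hjn
      have h1 := dete_map p (Ideal.Quotient.factor hPm) (F.map (Ideal.Quotient.mk P)) (V j) d
        (fun v e => Ideal.Quotient.mk P (cA j v e))
      rw [map_map, hfac, ← hDm j] at h1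
      intro h2
      have h3 : Ideal.Quotient.factor hPm (Ideal.Quotient.mk P (D j)) = 0 := h1.symm.trans h2
      rw [Ideal.Quotient.factor_mk, Ideal.Quotient.eq_zero_iff_mem] at h3
      exact hDm' j hj1 hjn h3

end MPadcBK
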