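import Pool.Agent.Lib.MP_adc574_ag_BK.KeyD
import Pool.Agent.Lib.MP_adc574_ag_LZ.PK

/-!
# JOB KeyB: `KeyHyp` (LZ) implies `Key`

`F` homogeneous of degree `d ≥ 1` in `m ≥ 2` variables over `K = κ(t)`. `tdg e = dg e + m`. A monomial `x^e` is in `W0` if `d ∣ tdg e`; then (as `m ≥ 1`) `tdg e = k d` with a unique `k ≥ 1`.
Given the data `C, ν, g, lv` of `Key`, `L` etc.: define `c₀ v : MvPolynomial (Fin m) K →ₗ[K] L` by `c₀ v (x^e) = (-1)^k C v k (x^e)` for `tdg e = k d`, `0` for `¬ d ∣ tdg e` (`(basisMonomials ..).constr K`; `k = tdg e / d`).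
* `c₀ v` of a polynomial all of whose monomials satisfy `tdg e = k d`: `c₀ v P = (-1)^k C v k (P.map (algebraMap K L))` (by linearity).
* `c₀ v (dl F i Q) = 0` (`dl F i Q = ∂_i Q + ∂_i F * Q`): by linearity `Q = x^e` (scalars: `dl` is additive and `K`-linear in `Q`); `∂_i x^e` is a multiple of a monomial with `tdg = tdg e - 1`, all monomials of `∂_i F * x^e` have `tdg = tdg e - 1 + d`. If `d ∣ tdg e - 1 = k d`: `k ≥ 1` because `tdg e ≥ m ≥ 2`, and `C v (k+1) (x^e ∂_i F) = C v k (∂_i x^e)` gives
  `(-1)^k C v k (∂_i x^e) + (-1)^(k+1) C v (k+1) (∂_i F x^e) = 0`. If `∂_i x^e = 0` (`e i = 0`) this also holds. Otherwise both terms are 0.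
* `exists_lift` gives `c v : PKm d F →ₗ L` with `c v (brP d F P) = c₀ v P`.
* Derivation rule: `DL (c v (brP P)) = c v (brP (nb (DZ κ) F P)) + ∑ ν v v' c v' (brP P)`: both sides are additive in `P`; for `P = a x^e`, `a ∈ K` (`nb (DZ κ) F (monomial e a) = monomial e (DZ a) + cder (DZ κ) F * monomial e a`, `cder_monomial` or directly): if `¬ d ∣ tdg e` all terms are 0 (the monomials of `cder (DZ κ) F * x^e` have `tdg = tdg e + d`), if `tdg e = k d`: Leibniz for `DL (a * ..)`, `hD`, and the rule of `Key` times `(-1)^k`.
* Independence: if `∑ lam_v c v = 0` on `PKm` then `∑ lam_v C v k (x^e) = 0` for all `k ≥ 1`, `tdg e = k d`, so `lam = 0`.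
* `f v = (-1)^(lv v) brP (x^(g v))` are `K`-independent: if `∑ a_v brP (x^(g v)) = 0` then `∑ a_v x^(g v) ∈ relZ d F`. Let `π` be the projection of `MvPolynomial` which keeps the monomials with `d ∣ tdg e` and kills the others (`(basisMonomials).constr`, or `Finsupp.filter`-like). `π` maps `relZ d F` into `RelM F` (on generators: `dl F i x^e` is either fixed or killed by `π`, by linearity in `Q`; `pderiv i Q + Q * pderiv i F` is `dl F i Q` up to commutativity; monomials outside are killed).
  So `∑ a_v x^(g v) = π (..) ∈ RelM F` and `IndepM` gives `a = 0`.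
* `C v (lv u) (x^(g u)) = c v (f u)`, so `KeyHyp` gives the claim.
-/

set_option autoImplicit false

namespace MPadcBK

open MvPolynomial MPadcGM MPadcHM MPadcLZ

universe u

section

variable {κ : Type u} [Field κ] {m : ℕ}

private theorem keyb_tdg (e : Fin m →₀ ℕ) : tdg e = e.degree + m := by
  unfold tdg
  rw [Finset.sum_add_distrib, Finsupp.degree_eq_sum]
  simp

private theorem keyb_dg (e : Fin m →₀ ℕ) : dg e + m = tdg e := by
  rw [keyb_tdg, Finsupp.degree_eq_sum]
  rfl

private theorem keyb_hom {R : Type*} [CommRing R] {N : ℕ} {P : MvPolynomial (Fin m) R}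
    (hP : P.IsHomogeneous N) {e : Fin m →₀ ℕ} (he : e ∈ P.support) : tdg e = N + m := by
  have h1 := hP (mem_support_iff.mp he)
  have h2 : e.degree = N := by
    rw [← h1, Finsupp.degree_eq_sum, Finsupp.weight_apply, Finsupp.sum_fintype _ _ (by simp)]
    simp
  rw [keyb_tdg, h2]

private theorem keyb_hom_mul {R : Type*} [CommRing R] {N : ℕ} {P : MvPolynomial (Fin m) R}
    (hP : P.IsHomogeneous N) (u : Fin m →₀ ℕ) (a : R) {e : Fin m →₀ ℕ}
    (he : e ∈ (P * monomial u a).support) : tdg e = N + tdg u := by
  have h1 : (P * monomial u a).IsHomogeneous (N + u.degree) :=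
    hP.mul (isHomogeneous_monomial a rfl)
  rw [keyb_hom h1 he, keyb_tdg, add_assoc]

private theorem keyb_cder {R : Type*} [CommRing R] {N : ℕ} {P : MvPolynomial (Fin m) R}
    (hP : P.IsHomogeneous N) (D : Derivation ℤ R R) : (cder D P).IsHomogeneous N := by
  intro e he
  apply hP
  intro h0
  apply he
  rw [coeff_cder, h0, map_zero]

private theorem keyb_pd {R : Type*} [CommRing R] (i : Fin m) (u : Fin m →₀ ℕ) (a : R)
    {e : Fin m →₀ ℕ} (he : e ∈ (pderiv i (monomial u a)).support) : tdg e + 1 = tdg u := by
  classical
  rw [pderiv_monomial] at he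
  by_cases h0 : u i = 0
  · rw [h0] at he
    simp at he
  · have h1 := support_monomial_subset he
    rw [Finset.mem_singleton] at h1
    rw [h1, keyb_tdg, keyb_tdg]
    have h2 : u - Finsupp.single i 1 + Finsupp.single i 1 = u := by
      apply tsub_add_cancel_of_le
      rw [Finsupp.single_le_iff]
      omega
    have h3 : (u - Finsupp.single i 1).degree + 1 = u.degree := by
      conv_rhs => rw [← h2]
      rw [map_add, Finsupp.degree_single]
    omega

/-- The projection to the monomials with `d ∣ tdg e`. -/
private noncomputable def keyb_pi (κ : Type u) [Field κ] (m d : ℕ) :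
    MvPolynomial (Fin m) (RatFunc κ) →ₗ[RatFunc κ] MvPolynomial (Fin m) (RatFunc κ) :=
  open Classical in
  (basisMonomials (Fin m) (RatFunc κ)).constr (RatFunc κ)
    fun e => if d ∣ tdg e then monomial e 1 else 0

private theorem keyb_constr {L : Type*} [AddCommGroup L] [Module (RatFunc κ) L]
    (w : (Fin m →₀ ℕ) → L) (e : Fin m →₀ ℕ) (a : RatFunc κ) :
    (basisMonomials (Fin m) (RatFunc κ)).constr (RatFunc κ) w (monomial e a) = a • w e := by
  have h1 : (monomial e a : MvPolynomial (Fin m) (RatFunc κ)) =
      a • basisMonomials (Fin m) (RatFunc κ) e := by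
    rw [coe_basisMonomials, smul_monomial, smul_eq_mul, mul_one]
  rw [h1, map_smul, Module.Basis.constr_basis]

private theorem keyb_constr_sum {L : Type*} [AddCommGroup L] [Module (RatFunc κ) L]
    (w : (Fin m →₀ ℕ) → L) (P : MvPolynomial (Fin m) (RatFunc κ)) :
    (basisMonomials (Fin m) (RatFunc κ)).constr (RatFunc κ) w P =
      ∑ e ∈ P.support, coeff e P • w e := by
  conv_lhs => rw [as_sum P]
  rw [map_sum]
  exact Finset.sum_congr rfl fun e _ => keyb_constr w e _

private theorem keyb_pi_in {d : ℕ} (P : MvPolynomial (Fin m) (RatFunc κ))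
    (h : ∀ e ∈ P.support, d ∣ tdg e) : keyb_pi κ m d P = P := by
  classical
  unfold keyb_pi
  rw [keyb_constr_sum]
  conv_rhs => rw [as_sum P]
  refine Finset.sum_congr rfl fun e he => ?_
  rw [if_pos (h e he), smul_monomial, smul_eq_mul, mul_one]

private theorem keyb_pi_out {d : ℕ} (P : MvPolynomial (Fin m) (RatFunc κ))
    (h : ∀ e ∈ P.support, ¬ d ∣ tdg e) : keyb_pi κ m d P = 0 := by
  classical
  unfold keyb_pi
  rw [keyb_constr_sum]
  refine Finset.sum_eq_zero fun e he => ?_
  rw [if_neg (h e he), smul_zero]

variable {L : Type u} [Field L] [Algebra (RatFunc κ) L]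

/-- The functional on the polynomials defined by `C v`. -/
private noncomputable def keyb_c (d : ℕ) (C : ℕ → MvPolynomial (Fin m) L →ₗ[L] L) :
    MvPolynomial (Fin m) (RatFunc κ) →ₗ[RatFunc κ] L :=
  open Classical in
  (basisMonomials (Fin m) (RatFunc κ)).constr (RatFunc κ)
    fun e => if d ∣ tdg e then (-1) ^ (tdg e / d) * C (tdg e / d) (monomial e 1) else 0

private theorem keyb_c_out {d : ℕ} (C : ℕ → MvPolynomial (Fin m) L →ₗ[L] L)
    (P : MvPolynomial (Fin m) (RatFunc κ)) (h : ∀ e ∈ P.support, ¬ d ∣ tdg e) :
    keyb_c d C P = 0 := by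
  classical
  unfold keyb_c
  rw [keyb_constr_sum]
  refine Finset.sum_eq_zero fun e he => ?_
  rw [if_neg (h e he), smul_zero]

private theorem keyb_c_in {d : ℕ} (hd : 1 ≤ d) (C : ℕ → MvPolynomial (Fin m) L →ₗ[L] L) (k : ℕ)
    (P : MvPolynomial (Fin m) (RatFunc κ)) (h : ∀ e ∈ P.support, tdg e = k * d) :
    keyb_c d C P = (-1) ^ k * C k (P.map (algebraMap (RatFunc κ) L)) := by
  classical
  unfold keyb_c
  rw [keyb_constr_sum]
  conv_rhs => rw [as_sum P]
  rw [map_sum, map_sum, Finset.mul_sum]
  refine Finset.sum_congr rfl fun e he => ?_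
  have h1 := h e he
  have h2 : tdg e / d = k := by
    rw [h1]
    exact Nat.mul_div_cancel k (by omega)
  rw [if_pos ⟨k, by rw [h1, mul_comm]⟩, h2, map_monomial]
  have h3 : (monomial e (algebraMap (RatFunc κ) L (coeff e P)) : MvPolynomial (Fin m) L) =
      algebraMap (RatFunc κ) L (coeff e P) • monomial e 1 := by
    rw [smul_monomial, smul_eq_mul, mul_one]
  rw [h3, map_smul, Algebra.smul_def, smul_eq_mul]
  ring

private theorem keyb_dl_supp {d : ℕ} {F : MvPolynomial (Fin m) (RatFunc κ)}
    (hF : F.IsHomogeneous d) (hd : 1 ≤ d) (i : Fin m) (u : Fin m →₀ ℕ) (a : RatFunc κ)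
    {e : Fin m →₀ ℕ} (he : e ∈ (pderiv i F * monomial u a).support) : tdg e + 1 = tdg u + d := by
  have h1 : (pderiv i F).IsHomogeneous (d - 1) := hF.pderiv
  have h2 := keyb_hom_mul h1 u a he
  omega

end

theorem key_of_keyHyp {κ : Type u} [Field κ] {m : ℕ} (hm : 2 ≤ m) {d : ℕ} (hd : 1 ≤ d)
    {F : MvPolynomial (Fin m) (RatFunc κ)} (hF : F.IsHomogeneous d) (h : KeyHyp d F) :
    Key κ d F := by
  classical
  intro L _ _ DL hDL halg V _ _ C hC ν hν hind g lv hlv hg hI
  have htm : ∀ e : Fin m →₀ ℕ, m ≤ tdg e := fun e => by rw [keyb_tdg]; omega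
  -- the relations
  have hc1 : ∀ v i Q, keyb_c (κ := κ) d (C v) (dl F i Q) = 0 := by
    intro v i Q
    induction Q using MvPolynomial.induction_on' with
    | monomial u a =>
      unfold dl
      rw [map_add]
      have hu := htm u
      by_cases hk : d ∣ tdg u - 1
      · obtain ⟨k, hk⟩ := hk
        have hk' : tdg u = k * d + 1 := by
          rw [mul_comm, ← hk]
          omega
        have hk1 : 1 ≤ k := by
          rcases Nat.eq_zero_or_pos k with h0 | h0
          · rw [h0, zero_mul] at hk'
            omega
          · exact h0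
        rw [keyb_c_in hd (C v) k _ (fun e he => by
            have := keyb_pd i u a he
            omega),
          keyb_c_in hd (C v) (k + 1) _ (fun e he => by
            have := keyb_dl_supp hF hd i u a he
            rw [add_mul, one_mul]
            omega)]
        have e1 : (pderiv i F * monomial u a).map (algebraMap (RatFunc κ) L) =
            (monomial u a : MvPolynomial (Fin m) (RatFunc κ)).map (algebraMap (RatFunc κ) L) *
              pderiv i (F.map (algebraMap (RatFunc κ) L)) := by
          rw [map_mul, pderiv_map, mul_comm]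
        rw [e1, hC v k hk1, pderiv_map]
        ring
      · rw [keyb_c_out, keyb_c_out, add_zero]
        · intro e he hdiv
          have := keyb_dl_supp hF hd i u a he
          apply hk
          have h2 : tdg u - 1 = tdg e - d := by omega
          rw [h2]
          exact Nat.dvd_sub hdiv dvd_rfl
        · intro e he hdiv
          have := keyb_pd i u a he
          apply hk
          have h2 : tdg u - 1 = tdg e := by omega
          rw [h2]
          exact hdiv
    | add p q hp hq =>
      have e1 : dl F i (p + q) = dl F i p + dl F i q := by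
        unfold dl
        rw [map_add]
        ring
      rw [e1, map_add, hp, hq, add_zero]
  have hc2 : ∀ v (e : Fin m →₀ ℕ), ¬ d ∣ dg e + m →
      keyb_c (κ := κ) d (C v) (monomial e 1) = 0 := by
    intro v e he
    refine keyb_c_out (C v) _ fun e' he' => ?_
    have h1 := support_monomial_subset he'
    rw [Finset.mem_singleton] at h1
    rw [h1, ← keyb_dg]
    exact he
  choose c hc using fun v => exists_lift d F (keyb_c (κ := κ) d (C v)) (hc1 v) (hc2 v)
  have hmon : ∀ v k (e : Fin m →₀ ℕ), tdg e = k * d →
      keyb_c (κ := κ) d (C v) (monomial e 1) = (-1) ^ k * C v k (monomial e 1) := by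
    intro v k e he
    rw [keyb_c_in hd (C v) k _ (fun e' he' => by
      have h1 := support_monomial_subset he'
      rw [Finset.mem_singleton] at h1
      rw [h1, he]), map_monomial, map_one]
  have hmona : ∀ v (e : Fin m →₀ ℕ) (a : RatFunc κ),
      keyb_c (κ := κ) d (C v) (monomial e a) =
        algebraMap (RatFunc κ) L a * keyb_c (κ := κ) d (C v) (monomial e 1) := by
    intro v e a
    have e1 : (monomial e a : MvPolynomial (Fin m) (RatFunc κ)) = a • monomial e 1 := by
      rw [smul_monomial, smul_eq_mul, mul_one]
    rw [e1, map_smul, Algebra.smul_def]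
  have hone : ∀ k : ℕ, ((-1 : L) ^ k) * (-1) ^ k = 1 := by
    intro k
    rw [← mul_pow]
    norm_num
  -- the derivation rule
  have hder : ∀ v P, DL (c v (brP d F P)) = c v (brP d F (nb (DZ κ) F P)) +
      ∑ v', ν v v' * c v' (brP d F P) := by
    intro v P
    simp only [hc]
    induction P using MvPolynomial.induction_on' with
    | monomial u a =>
      have hnb : nb (DZ κ) F (monomial u a) =
          monomial u (DZ κ a) + cder (DZ κ) F * monomial u a := by
        unfold nb
        rw [cder_monomial]
      rw [hnb, map_add]
      have hsup : ∀ e ∈ (cder (DZ κ) F * monomial u a).support, tdg e = d + tdg u :=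
        fun e he => keyb_hom_mul (keyb_cder hF (DZ κ)) u a he
      by_cases hk : d ∣ tdg u
      · obtain ⟨k, hk⟩ := hk
        have hk' : tdg u = k * d := by rw [hk, mul_comm]
        have hk1 : 1 ≤ k := by
          rcases Nat.eq_zero_or_pos k with h0 | h0
          · rw [h0, zero_mul] at hk'
            have := htm u
            omega
          · exact h0
        have e1 : keyb_c (κ := κ) d (C v) (cder (DZ κ) F * monomial u a) =
            (-1) ^ (k + 1) * (algebraMap (RatFunc κ) L a *
              C v (k + 1) ((cder (DZ κ) F).map (algebraMap (RatFunc κ) L) * monomial u 1)) := by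
          rw [keyb_c_in hd (C v) (k + 1) _ (fun e he => by
            rw [hsup e he, hk', add_mul, one_mul, add_comm])]
          congr 1
          have e2 : (cder (DZ κ) F * monomial u a).map (algebraMap (RatFunc κ) L) =
              algebraMap (RatFunc κ) L a •
                ((cder (DZ κ) F).map (algebraMap (RatFunc κ) L) * monomial u 1) := by
            rw [map_mul, map_monomial]
            have e3 : (monomial u (algebraMap (RatFunc κ) L a) : MvPolynomial (Fin m) L) =
                algebraMap (RatFunc κ) L a • monomial u 1 := by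
              rw [smul_monomial, smul_eq_mul, mul_one]
            rw [e3, mul_smul_comm]
          rw [e2, map_smul, smul_eq_mul]
        rw [e1, hmona v u a, hmona v u (DZ κ a), hmon v k u hk', Derivation.leibniz,
          Derivation.leibniz, hDL, hν v k hk1 u hk', DZ_apply]
        have e4 : DL ((-1 : L) ^ k) = 0 := by
          have : ((-1 : L) ^ k) = algebraMap ℤ L ((-1) ^ k) := by simp
          rw [this, Derivation.map_algebraMap]
        have e5 : ∑ v', ν v v' * keyb_c (κ := κ) d (C v') (monomial u a) =
            algebraMap (RatFunc κ) L a * ((-1) ^ k * ∑ v', ν v v' * C v' k (monomial u 1)) := by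
          rw [Finset.mul_sum, Finset.mul_sum]
          refine Finset.sum_congr rfl fun v' _ => ?_
          rw [hmona v' u a, hmon v' k u hk']
          ring
        rw [e4, e5]
        simp only [smul_eq_mul]
        ring
      · have e1 : ∀ v' (b : RatFunc κ), keyb_c (κ := κ) d (C v') (monomial u b) = 0 := by
          intro v' b
          refine keyb_c_out (C v') _ fun e' he' => ?_
          have h1 := support_monomial_subset he'
          rw [Finset.mem_singleton] at h1
          rw [h1]
          exact hk
        have e2 : keyb_c (κ := κ) d (C v) (cder (DZ κ) F * monomial u a) = 0 := by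
          refine keyb_c_out (C v) _ fun e he hdiv => ?_
          rw [hsup e he] at hdiv
          exact hk ((Nat.dvd_add_right dvd_rfl).1 hdiv)
        rw [e1 v a, e1 v (DZ κ a), e2, map_zero, add_zero, zero_add]
        symm
        refine Finset.sum_eq_zero fun v' _ => ?_
        rw [e1, mul_zero]
    | add p q hp hq =>
      have e1 : nb (DZ κ) F (p + q) = nb (DZ κ) F p + nb (DZ κ) F q := by
        unfold nb
        rw [cder_add]
        ring
      rw [e1, map_add, map_add, map_add, hp, hq]
      have e2 : ∑ v', ν v v' * keyb_c (κ := κ) d (C v') (p + q) =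
          ∑ v', ν v v' * keyb_c (κ := κ) d (C v') p +
            ∑ v', ν v v' * keyb_c (κ := κ) d (C v') q := by
        rw [← Finset.sum_add_distrib]
        refine Finset.sum_congr rfl fun v' _ => ?_
        rw [map_add, mul_add]
      rw [e2]
      ring
  -- independence of the functionals
  have hindep : ∀ lam : V → L, (∀ x, ∑ v, lam v * c v x = 0) → lam = 0 := by
    intro lam hlam
    refine hind lam fun k _ e he => ?_
    have h1 := hlam (brP d F (monomial e 1))
    simp only [hc] at h1
    have h2 : ∑ v, lam v * keyb_c (κ := κ) d (C v) (monomial e 1) =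
        (-1) ^ k * ∑ v, lam v * C v k (monomial e 1) := by
      rw [Finset.mul_sum]
      refine Finset.sum_congr rfl fun v _ => ?_
      rw [hmon v k e he]
      ring
    rw [h2] at h1
    rcases mul_eq_zero.1 h1 with h3 | h3
    · exact absurd h3 (pow_ne_zero _ (neg_ne_zero.2 one_ne_zero))
    · exact h3
  -- the projection
  have hpi : ∀ P ∈ relZ d F, keyb_pi κ m d P ∈ RelM F := by
    intro P hP
    have hle : relZ d F ≤ (RelM F).comap (keyb_pi κ m d) := by
      unfold relZ
      rw [Submodule.span_le]
      rintro P (⟨i, Q, rfl⟩ | ⟨e, he, rfl⟩)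
      · change keyb_pi κ m d (dl F i Q) ∈ RelM F
        induction Q using MvPolynomial.induction_on' with
        | monomial u a =>
          have hu := htm u
          have hmem : dl F i (monomial u a) ∈ RelM F := by
            refine Submodule.subset_span ⟨i, monomial u a, ?_⟩
            unfold dl
            rw [mul_comm]
          by_cases hk : d ∣ tdg u - 1
          · have e1 : keyb_pi κ m d (dl F i (monomial u a)) = dl F i (monomial u a) := by
              unfold dl
              rw [map_add, keyb_pi_in, keyb_pi_in]
              · intro e he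
                have := keyb_dl_supp hF hd i u a he
                have h2 : tdg e = tdg u - 1 + d := by omega
                rw [h2]
                exact Nat.dvd_add hk dvd_rfl
              · intro e he
                have := keyb_pd i u a he
                have h2 : tdg e = tdg u - 1 := by omega
                rw [h2]
                exact hk
            rw [e1]
            exact hmem
          · have e1 : keyb_pi κ m d (dl F i (monomial u a)) = 0 := by
              unfold dl
              rw [map_add, keyb_pi_out, keyb_pi_out, add_zero]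
              · intro e he hdiv
                have := keyb_dl_supp hF hd i u a he
                apply hk
                have h2 : tdg u - 1 = tdg e - d := by omega
                rw [h2]
                exact Nat.dvd_sub hdiv dvd_rfl
              · intro e he hdiv
                have := keyb_pd i u a he
                apply hk
                have h2 : tdg u - 1 = tdg e := by omega
                rw [h2]
                exact hdiv
            rw [e1]
            exact Submodule.zero_mem _
        | add p q hp hq =>
          have e1 : dl F i (p + q) = dl F i p + dl F i q := by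
            unfold dl
            rw [map_add]
            ring
          rw [e1, map_add]
          exact Submodule.add_mem _ hp hq
      · change keyb_pi κ m d (monomial e 1) ∈ RelM F
        rw [keyb_pi_out]
        · exact Submodule.zero_mem _
        · intro e' he'
          have h1 := support_monomial_subset he'
          rw [Finset.mem_singleton] at h1
          rw [h1, ← keyb_dg]
          exact he
    exact hle hP
  -- the vectors
  have hf : LinearIndependent (RatFunc κ)
      (fun u : V => ((-1 : RatFunc κ) ^ lv u) • brP d F (monomial (g u) 1)) := by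
    rw [Fintype.linearIndependent_iff]
    intro a ha
    have h1 : brP d F (∑ u, monomial (g u) (a u * (-1) ^ lv u)) = 0 := by
      rw [map_sum, ← ha]
      refine Finset.sum_congr rfl fun u _ => ?_
      have e1 : (monomial (g u) (a u * (-1) ^ lv u) : MvPolynomial (Fin m) (RatFunc κ)) =
          (a u * (-1) ^ lv u) • monomial (g u) 1 := by
        rw [smul_monomial, smul_eq_mul, mul_one]
      rw [e1, map_smul, smul_smul]
    have h2 : (∑ u, monomial (g u) (a u * (-1) ^ lv u) : MvPolynomial (Fin m) (RatFunc κ)) ∈
        relZ d F := (Submodule.Quotient.mk_eq_zero _).1 h1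
    have h3 := hpi _ h2
    rw [keyb_pi_in] at h3
    · have h4 := hI (fun u => a u * (-1) ^ lv u) h3
      intro u
      have h5 := congrFun h4 u
      simp only [Pi.zero_apply] at h5
      rcases mul_eq_zero.1 h5 with h6 | h6
      · exact h6
      · exact absurd h6 (pow_ne_zero _ (neg_ne_zero.2 one_ne_zero))
    · intro e he
      obtain ⟨u, -, hu⟩ := Finset.mem_biUnion.1 (support_sum he)
      have h5 := support_monomial_subset hu
      rw [Finset.mem_singleton] at h5
      rw [h5, hg u]
      exact Dvd.intro_left _ rfl
  have hdet := h L inferInstance inferInstance DL hDL halg V inferInstance inferInstance c ν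
    hder hindep _ hf
  have hmat : (Matrix.of fun v u : V => c v
      (((-1 : RatFunc κ) ^ lv u) • brP d F (monomial (g u) 1))) =
      Matrix.of fun v u : V => C v (lv u) (monomial (g u) 1) := by
    ext v u
    rw [Matrix.of_apply, Matrix.of_apply, map_smul, hc, hmon v (lv u) (g u) (hg u),
      Algebra.smul_def, map_pow, map_neg, map_one, ← mul_assoc, hone, one_mul]
  rw [hmat] at hdet
  exact hdet

end MPadcBK
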