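import Pool.Agent.Lib.MP_adc574_ag_BK.LitF

/-!
# JOB LitH: exact forms on the affine charts of `X`

* `OO_iff`: `→`: `Algebra.adjoin_induction`. Generator `x_j / x_i`, `i ∈ I`: `a = single (Pi.single j 1 - Pi.single i 1) 1` (regular on `I`, of total degree `0`), `ev (yu ..) a = (x_j / x_o) / (x_i / x_o)`. Sums, products
  (`fn_mul_Reg`, `fn_mul_TD`, `map_mul`), constants. `←`: `a` is a linear combination of `single e 1` with `tot e = 0` and `0 ≤ e l` for `l ∉ I`; fix `i ∈ I`: the value of the monomial is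
  `∏ l, (x_l / x_i) ^ e l` (`∑ l, e l = 0`), `x_l / x_i ∈ OO F I`, and for `l ∈ I` also its inverse `x_i / x_l ∈ OO F I`.
* `BO_eq`: `BP_gen`, `PsiD_dd_fn`, `ExteriorAlgebra.ιMulti_apply` (`ιMulti R n v = (List.ofFn fun i => ι R (v i)).prod`), `AddMonoidHom.map_closure`, `OO_iff`.
-/

set_option autoImplicit false

namespace MPadcBK

open ExteriorAlgebra

universe u

variable {κ : Type u} [Field κ] {m : ℕ} (F : MvPolynomial (Fin m) κ) [(Ideal.span {F}).IsPrime]

private theorem lith_supp {I : Set (Fin m)} {f : Fn κ m}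
    (hf : fn f ∈ Reg (κ := κ) I ⊓ TD {0}) {e : Ex m} (he : f.coeff e ≠ 0) :
    tot e = 0 ∧ ∀ i ∉ I, 0 ≤ e i := by
  have hc : ∀ e : Ex m, (fn f : Fo κ m).coeff e = algebraMap κ (Lam κ m) (f.coeff e) := by
    intro e
    unfold fn
    rw [AddMonoidAlgebra.coeff_mapRingHom]
  have hz : ∀ e : Ex m, (fn f : Fo κ m).coeff e = 0 → f.coeff e = 0 := by
    intro e h
    rw [hc e] at h
    exact (ExteriorAlgebra.algebraMap_eq_zero_iff (M := Fin m → κ) (f.coeff e)).1 h
  constructor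
  · by_contra h
    exact he (hz e (hf.2 e (fun h' => h (Set.mem_singleton_iff.1 h'))))
  · intro i hi
    by_contra h
    exact he (hz e ((hf.1 e i hi).1 (not_le.1 h)))

private theorem lith_of {I : Set (Fin m)} {e : Ex m} (h0 : tot e = 0) (he : ∀ i ∉ I, 0 ≤ e i)
    (a : κ) : fn (AddMonoidAlgebra.single e a : Fn κ m) ∈ Reg (κ := κ) I ⊓ TD {0} := by
  rw [fn_single]
  refine Submodule.smul_mem _ _ ⟨mo_Reg he, ?_⟩
  intro e' he'
  unfold mo
  rw [AddMonoidAlgebra.coeff_single, Finsupp.single_apply, if_neg]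
  rintro rfl
  exact he' (Set.mem_singleton_iff.2 h0)

private noncomputable def lith_sub (I : Set (Fin m)) : Subalgebra κ (Fn κ m) where
  carrier := {a | fn a ∈ Reg (κ := κ) I ⊓ TD {0}}
  mul_mem' {a b} ha hb := by
    have ha' : fn a ∈ Reg (κ := κ) I ⊓ TD {0} := ha
    have hb' : fn b ∈ Reg (κ := κ) I ⊓ TD {0} := hb
    show fn (a * b) ∈ Reg (κ := κ) I ⊓ TD {0}
    rw [map_mul]
    refine ⟨fn_mul_Reg ha'.1 hb'.1, ?_⟩
    have h := fn_mul_TD ha'.2 hb'.2
    rw [add_zero] at h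
    exact h
  add_mem' {a b} ha hb := by
    have ha' : fn a ∈ Reg (κ := κ) I ⊓ TD {0} := ha
    have hb' : fn b ∈ Reg (κ := κ) I ⊓ TD {0} := hb
    show fn (a + b) ∈ Reg (κ := κ) I ⊓ TD {0}
    rw [map_add]
    exact Submodule.add_mem _ ha' hb'
  algebraMap_mem' r := by
    show fn (algebraMap κ (Fn κ m) r) ∈ Reg (κ := κ) I ⊓ TD {0}
    rw [AddMonoidAlgebra.coe_algebraMap]
    exact lith_of (by unfold tot; simp) (fun i _ => le_refl _) _

private theorem lith_um_single {K : Type u} [Field K] (y : Fin m → Kˣ) (i : Fin m) :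
    um y (Multiplicative.ofAdd (Pi.single i 1 : Ex m)) = y i := by
  show ∏ l, y l ^ (Pi.single i 1 : Ex m) l = y i
  rw [Finset.prod_eq_single i]
  · rw [Pi.single_eq_same, zpow_one]
  · intro l _ hl
    rw [Pi.single_eq_of_ne hl, zpow_zero]
  · intro h
    exact absurd (Finset.mem_univ i) h

private theorem lith_gen (hx : ∀ i, xx F i ≠ 0) {I : Set (Fin m)} {i : Fin m} (hi : i ∈ I)
    (l : Fin m) : ((yu F hx i l : (FF F)ˣ) : FF F) ∈ OO F I :=
  Algebra.subset_adjoin ⟨l, i, hi, yu_coe F hx i l⟩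

private theorem lith_mono (hx : ∀ i, xx F i ≠ 0) (o : Fin m) {I : Set (Fin m)} {i : Fin m}
    (hi : i ∈ I) {e : Ex m} (h0 : tot e = 0) (he : ∀ i ∉ I, 0 ≤ e i) :
    ((um (yu F hx o) (Multiplicative.ofAdd e) : (FF F)ˣ) : FF F) ∈ OO F I := by
  have h1 : ((um (yu F hx o) (Multiplicative.ofAdd e) : (FF F)ˣ) : FF F) =
      ((um (yu F hx i) (Multiplicative.ofAdd e) : (FF F)ˣ) : FF F) := by
    apply Subtype.ext
    rw [um_yu F hx o h0, um_yu F hx i h0]
  rw [h1]
  have h2 : ((um (yu F hx i) (Multiplicative.ofAdd e) : (FF F)ˣ) : FF F) =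
      ∏ l, (((yu F hx i l) ^ (e l) : (FF F)ˣ) : FF F) := by
    show ((∏ l, (yu F hx i l) ^ (e l) : (FF F)ˣ) : FF F) = _
    rw [Units.coe_prod]
  rw [h2]
  refine Subalgebra.prod_mem _ fun l _ => ?_
  by_cases hl : 0 ≤ e l
  · obtain ⟨n, hn⟩ := Int.eq_ofNat_of_zero_le hl
    rw [hn, zpow_natCast, Units.val_pow_eq_pow_val]
    exact Subalgebra.pow_mem _ (lith_gen F hx hi l) n
  · have hlI : l ∈ I := by
      by_contra h
      exact hl (he l h)
    obtain ⟨n, hn⟩ := Int.eq_ofNat_of_zero_le (by omega : 0 ≤ -(e l))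
    have h3 : e l = -(n : ℤ) := by
      have h4 : -(e l) = (n : ℤ) := hn
      omega
    rw [h3, zpow_neg, zpow_natCast, ← inv_pow, Units.val_pow_eq_pow_val]
    refine Subalgebra.pow_mem _ ?_ n
    refine Algebra.subset_adjoin ⟨i, l, hlI, ?_⟩
    have h5 : (((yu F hx i l)⁻¹ : (FF F)ˣ) : FF F) = (((yu F hx i l : (FF F)ˣ) : FF F))⁻¹ :=
      Units.val_inv_eq_inv_val _
    rw [h5]
    show (((((yu F hx i l : (FF F)ˣ) : FF F))⁻¹ : FF F) : Cone F) = xx F i / xx F l
    rw [IntermediateField.coe_inv, yu_coe, inv_div]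

theorem OO_iff (hx : ∀ i, xx F i ≠ 0) (o : Fin m) {I : Set (Fin m)} (hI : I.Nonempty)
    (z : FF F) :
    z ∈ OO F I ↔ ∃ a : Fn κ m, fn a ∈ Reg (κ := κ) I ⊓ TD {0} ∧ ev (yu F hx o) a = z := by
  obtain ⟨i, hi⟩ := hI
  constructor
  · intro hz
    have hle : OO F I ≤ (lith_sub (κ := κ) I).map (ev (yu F hx o)) := by
      unfold OO
      refine Algebra.adjoin_le ?_
      rintro w ⟨j, i', hi', hw⟩
      refine Subalgebra.mem_map.2 ⟨AddMonoidAlgebra.single (Pi.single j 1 - Pi.single i' 1) 1, ?_, ?_⟩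
      · refine lith_of ?_ ?_ 1
        · unfold tot
          simp
        · intro l hl
          have hne : l ≠ i' := fun h => hl (h ▸ hi')
          rw [Pi.sub_apply, Pi.single_eq_of_ne hne, sub_zero]
          by_cases hlj : l = j
          · rw [hlj, Pi.single_eq_same]
            exact zero_le_one
          · rw [Pi.single_eq_of_ne hlj]
      · have h0 : tot (Pi.single j 1 - Pi.single i' 1 : Ex m) = 0 := by
          unfold tot
          simp
        rw [ev_single, one_smul]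
        apply Subtype.ext
        rw [um_yu F hx o h0, hw, ofAdd_sub, map_div, lith_um_single, lith_um_single,
          Units.val_div_eq_div_val, xu_coe, xu_coe]
    obtain ⟨a, ha, haz⟩ := Subalgebra.mem_map.1 (hle hz)
    exact ⟨a, ha, haz⟩
  · rintro ⟨a, ha, rfl⟩
    unfold ev
    rw [AddMonoidAlgebra.lift_apply]
    unfold Finsupp.sum
    refine Subalgebra.sum_mem _ fun e he => ?_
    have he' : a.coeff e ≠ 0 := Finsupp.mem_support_iff.1 he
    obtain ⟨h0, h1⟩ := lith_supp ha he'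
    refine Subalgebra.smul_mem _ ?_ _
    exact lith_mono F hx o hi h0 h1

theorem PsiD_prodd (hx : ∀ i, xx F i ≠ 0) (o : Fin m) {q : ℕ} (a : Fin q → Fn κ m) :
    PsiD (yu F hx o) (prodd a) = ExteriorAlgebra.ιMulti (FF F) q fun l =>
      KaehlerDifferential.D κ (FF F) (ev (yu F hx o) (a l)) := by
  unfold prodd
  rw [map_list_prod, List.map_ofFn, ExteriorAlgebra.ιMulti_apply]
  congr 2
  funext l
  exact PsiD_dd_fn (yu F hx o) (a l)

theorem BO_eq (p : ℕ) [Fact p.Prime] [CharP κ p] (hmp : m < p) (hx : ∀ i, xx F i ≠ 0)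
    (o : Fin m) (q : ℕ) {I : Set (Fin m)} (hI : I.Nonempty) :
    BO F q I = (BP (κ := κ) (m := m) q I).toAddSubgroup.map
      ((PsiD (yu F hx o)).toAddMonoidHom) := by
  have h1 : (BP (κ := κ) (m := m) q I).toAddSubgroup =
      AddSubgroup.closure {z : Fo κ m | ∃ a : Fin (q + 1) → Fn κ m,
        (∀ l, fn (a l) ∈ Reg (κ := κ) I ⊓ TD {0}) ∧ z = prodd a} := by
    ext x
    rw [Submodule.mem_toAddSubgroup]
    exact BP_gen p hmp hI q x
  rw [h1, AddMonoidHom.map_closure]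
  unfold BO
  congr 1
  ext ω
  constructor
  · rintro ⟨a, ha, rfl⟩
    have h2 : ∀ l, ∃ b : Fn κ m, fn b ∈ Reg (κ := κ) I ⊓ TD {0} ∧ ev (yu F hx o) b = a l :=
      fun l => (OO_iff F hx o hI (a l)).1 (ha l)
    choose b hb1 hb2 using h2
    refine ⟨prodd b, ⟨b, hb1, rfl⟩, ?_⟩
    show PsiD (yu F hx o) (prodd b) = _
    rw [PsiD_prodd F hx o b]
    congr 1
    funext l
    rw [hb2 l]
  · rintro ⟨x, ⟨b, hb, rfl⟩, rfl⟩
    refine ⟨fun l => ev (yu F hx o) (b l), fun l => (OO_iff F hx o hI _).2 ⟨b l, hb l, rfl⟩, ?_⟩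
    exact PsiD_prodd F hx o b

end MPadcBK
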