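import Pool.Agent.Lib.MP_adc574_ag_BK.Car

/-!
# JOB LogCarA: the operator `Ca (F ^ (p - 1) * x)`

* `Ca_pow_ddfn`: the map `f ↦ Ca (fn f ^ (p-1) * dd (fn f))` is additive: in characteristic `p`
  `(f+g)^(p-1) = ∑_{k<p} (-1)^k f^k g^(p-1-k)` (`(p-1).choose k = (-1)^k` in `κ`; for example multiply `(f - g') * ∑ f^k g'^(p-1-k) = f^p - g'^p = (f - g')^p`
  with `g' = -g` in the domain `Fn κ m`, or `Int.ModEq`/`ZMod` lemmas on binomial coefficients, or induction with `Nat.succ_mul_choose_eq`), so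
  `(f+g)^(p-1) d(f+g) = f^(p-1) df + g^(p-1) dg + ∑_{k=0}^{p-2} (-1)^k/(k+1) d (f^(k+1) g^(p-1-k))` because
  `d (f^(k+1) g^(p-1-k)) = (k+1) (f^k g^(p-1-k) df - f^(k+1) g^(p-2-k) dg)` (`p - 1 - k = -(k+1)` in `κ`); `Ca (dd _) = 0` (`Ca_dd`).
  (A shorter way, if you prefer: for commuting `f, g` put `c_k = (1/p) p.choose k` (an integer, `0<k<p`); over `ℤ` one has
  `(f+g)^(p-1) d(f+g) - f^(p-1) df - g^(p-1) dg = d ∑_{0<k<p} c_k f^k g^(p-k)`; same computation.)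
  For `f = single e a`: `fn f ^ (p-1) * dd (fn f) = single (p e) (a^p • ι (bar e))`, and `Ca` gives `single e (a • ι (bar e))` (`tw_symm_smul`, `tw_iota`,
  the twist fixes `bar e`). Conclude with `AddMonoidAlgebra.induction_linear`.
* `Ca_mult`: by `cartier` (`Car.lean`), with `I = Set.univ`, `P = Set.univ`: for `ξ` closed of degree `q + 1` put `ζ = ξ - Fr (Ca ξ)`: closed (`dd_Fr`), `Ca ζ = 0` (`Ca_Fr`), so
  `ζ = dd η`. `pf F ^ (p-1) * dd (pf F) * dd η = - dd (pf F ^ (p-1) * (dd (pf F) * η))` (`dd (pf F ^ (p-1) * dd (pf F) * η) = dd(pf F ^ (p-1)) * (dF * η) + F^(p-1) * dd (dF * η)`, the first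
  term is a multiple of `dF * (dF * η) = 0`), so its `Ca` is `0`; and `Ca (y * Fr (Ca ξ)) = Ca y * Ca ξ` (`Ca_mul_Fr`). For `q = 0` (functions) `cartier_zero` gives `ζ = 0`.
* `Ca_F_BK`: `pf F ^ (p-1) * dd y = dd (pf F ^ (p-1) * y)` if `dF * y = 0`.
* `Ca_F_KK` (all charts, also `I = ∅`): for `x` closed with `dF * x = 0`: regularity, form degree, total degree `((p-1) d + d)/p = d` by `pf_mul_Reg`, `Ca_Reg`, ....
  `dF * Ca (F^(p-1) x) = Ca (Fr dF * (F^(p-1) x))` (`Ca_Fr_mul`); `F^(p-1) dF - Fr dF` is closed with `Ca = 0` (`Ca_pow_ddfn`, `Ca_Fr`), so it is `dd η'` (`cartier`), and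
  `Fr dF * (F^(p-1) x) = F^(p-1) * (F^(p-1) * (dF * x)) - dd η' * (F^(p-1) x) = - dd (η' * (F^(p-1) x))` as `F^(p-1) x` is closed. (`η'` is of degree `0`, a function: `FD_zero_iff`.)
* `mem_KK`, `mem_ZK`: `Submodule.mem_inf`, `rfl`.
-/

set_option autoImplicit false

namespace MPadcBK

open ExteriorAlgebra

universe u

variable {κ : Type u} [Field κ] {m : ℕ}

theorem mem_KK {F : MvPolynomial (Fin m) κ} {t : ℤ} {q : ℕ} {I : Set (Fin m)} {x : Fo κ m} :
    x ∈ KK F t q I ↔ x ∈ Reg (κ := κ) I ∧ x ∈ FD (κ := κ) (m := m) q ∧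
      x ∈ TD (κ := κ) (m := m) {t} ∧ dd (pf F) * x = 0 := by
  constructor
  · rintro ⟨⟨⟨h1, h2⟩, h3⟩, h4⟩
    exact ⟨h1, h2, h3, h4⟩
  · rintro ⟨h1, h2, h3, h4⟩
    exact ⟨⟨⟨h1, h2⟩, h3⟩, h4⟩

theorem mem_ZK {F : MvPolynomial (Fin m) κ} {t : ℤ} {q : ℕ} {I : Set (Fin m)} {x : Fo κ m} :
    x ∈ ZK F t q I ↔ x ∈ KK F t q I ∧ dd x = 0 := by
  exact Iff.rfl

/-- `F ^ k x` is again killed by `dF ∧`. -/
theorem pf_pow_KK {d : ℕ} {F : MvPolynomial (Fin m) κ} (hF : F.IsHomogeneous d) {t : ℤ} {q : ℕ}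
    {I : Set (Fin m)} (k : ℕ) {x : Fo κ m} (hx : x ∈ KK F t q I) :
    pf F ^ k * x ∈ KK F (t + k * d) q I := by
  rw [mem_KK] at hx ⊢
  obtain ⟨h1, h2, h3, h4⟩ := hx
  rw [← pf_pow]
  refine ⟨pf_mul_Reg _ h1, pf_mul_FD _ h2, ?_, ?_⟩
  · refine TD_mono ?_ (pf_mul_TD (hF.pow k) h3)
    intro s hs
    rw [Set.mem_ofPred_eq, Set.mem_singleton_iff] at hs
    rw [Set.mem_singleton_iff]
    push_cast at hs
    linarith
  · rw [pf_mul_comm, ← mul_assoc, h4, zero_mul]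

/-- `d (F ^ k x) = F ^ k dx` for `x` killed by `dF ∧`. -/
theorem dd_pf_pow_KK {F : MvPolynomial (Fin m) κ} (k : ℕ) {x : Fo κ m}
    (hx : dd (pf F) * x = 0) : dd (pf F ^ k * x) = pf F ^ k * dd x := by
  induction k with
  | zero => rw [pow_zero, one_mul, one_mul]
  | succ k ih =>
    have h1 : dd (pf F) * (pf F ^ k * x) = 0 := by
      rw [← pf_pow, pf_mul_comm, ← mul_assoc, hx, zero_mul]
    rw [pow_succ', mul_assoc, mul_assoc, dd_pf_mul, h1, zero_add, ih]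

theorem pf_pow_comm (F : MvPolynomial (Fin m) κ) (k : ℕ) (x : Fo κ m) :
    pf F ^ k * x = x * pf F ^ k := by
  rw [← pf_pow, pf_mul_comm]

section

variable (p : ℕ) [hp : Fact p.Prime] [CharP κ p] [PerfectRing κ p]

omit hp [CharP κ p] [PerfectRing κ p] in
private theorem lca_mo_pow (e : Ex m) (k : ℕ) : (mo e : Fo κ m) ^ k = mo (k • e) := by
  induction k with
  | zero => rw [pow_zero, zero_smul, mo_zero]
  | succ k ih => rw [pow_succ, ih, succ_nsmul, mo_add]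

private theorem lca_dd_mo (e : Ex m) :
    dd (mo e : Fo κ m) = AddMonoidAlgebra.single e (ι κ (bar κ e)) := by
  refine fo_ext fun e' => ?_
  unfold mo
  rw [dd_coeff, AddMonoidAlgebra.coeff_single, AddMonoidAlgebra.coeff_single]
  by_cases h : e' = e
  · subst h
    rw [Finsupp.single_eq_same, Finsupp.single_eq_same, mul_one]
  · rw [Finsupp.single_eq_of_ne h, Finsupp.single_eq_of_ne h, mul_zero]

private theorem lca_Ca_single (e : Ex m) (y : Lam κ m) :
    Ca p (AddMonoidAlgebra.single (pmul p m e) y : Fo κ m) =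
      AddMonoidAlgebra.single e ((tw (frobeniusEquiv κ p)).symm y) := by
  refine fo_ext fun e' => ?_
  rw [Ca_coeff, AddMonoidAlgebra.coeff_single, AddMonoidAlgebra.coeff_single]
  by_cases h : e' = e
  · subst h
    rw [Finsupp.single_eq_same, Finsupp.single_eq_same]
  · rw [Finsupp.single_eq_of_ne h,
      Finsupp.single_eq_of_ne (fun h2 => h (pmul_injective p h2)), map_zero]

private theorem lca_dd_pow (f : Fn κ m) (k : ℕ) :
    dd (fn (f ^ k)) = k • (fn (f ^ (k - 1)) * dd (fn f)) := by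
  induction k with
  | zero =>
    have h3 := dd_fn_mul (1 : Fn κ m) 1
    rw [map_one, mul_one, mul_one, one_mul] at h3
    rw [pow_zero, map_one, zero_smul]
    exact left_eq_add.mp h3
  | succ k ih =>
    rw [Nat.add_sub_cancel]
    have h1 : dd (fn (f ^ (k + 1))) = dd (fn f) * fn (f ^ k) + fn f * dd (fn (f ^ k)) := by
      rw [pow_succ', map_mul, dd_fn_mul]
    rw [h1, ih, ← fn_mul_comm, mul_smul_comm, ← mul_assoc, ← map_mul, add_smul, one_smul, add_comm]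
    rcases Nat.eq_zero_or_pos k with hk | hk
    · subst hk
      rw [zero_smul, zero_smul]
    · rw [← pow_succ', Nat.sub_add_cancel hk]

omit [CharP κ p] [PerfectRing κ p] in
private theorem lca_W (f g : Fn κ m) : ∃ W : Fo κ m,
    fn (f + g) ^ (p - 1) * dd (fn (f + g)) =
      dd W + (fn f ^ (p - 1) * dd (fn f) + fn g ^ (p - 1) * dd (fn g)) := by
  have hpp : p.Prime := hp.out
  obtain ⟨n, hn⟩ : ∃ n, p = n + 1 := ⟨p - 1, (Nat.sub_add_cancel hpp.one_le).symm⟩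
  have hn' : p - 1 = n := by omega
  rw [hn']
  have hA : (f + g) ^ n = (∑ k ∈ Finset.range n, n.choose k • (f ^ k * g ^ (n - k))) + f ^ n := by
    rw [add_pow, Finset.sum_range_succ, Nat.choose_self, Nat.sub_self, pow_zero, mul_one,
      Nat.cast_one, mul_one]
    congr 1
    refine Finset.sum_congr rfl fun k _ => ?_
    rw [nsmul_eq_mul, mul_comm]
  have hB : (f + g) ^ n =
      (∑ k ∈ Finset.range n, n.choose (k + 1) • (f ^ (k + 1) * g ^ (n - (k + 1)))) + g ^ n := by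
    rw [add_pow, Finset.sum_range_succ', Nat.choose_zero_right, Nat.sub_zero, pow_zero, one_mul,
      Nat.cast_one, mul_one]
    congr 1
    refine Finset.sum_congr rfl fun k _ => ?_
    rw [nsmul_eq_mul, mul_comm]
  have hc1 : ∀ k, k < n → ((n + 1).choose (k + 1) / (n + 1)) * (k + 1) = n.choose k := by
    intro k hk
    have h1 : (n + 1) ∣ (n + 1).choose (k + 1) := by
      rw [← hn]
      exact hpp.dvd_choose_self (by omega) (by omega)
    obtain ⟨c, hc⟩ := h1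
    rw [hc, Nat.mul_div_cancel_left _ (Nat.succ_pos n)]
    have h2 := Nat.add_one_mul_choose_eq n k
    rw [hc] at h2
    have h3 : (n + 1) * (c * (k + 1)) = (n + 1) * n.choose k := by rw [h2]; ring
    exact Nat.eq_of_mul_eq_mul_left (Nat.succ_pos n) h3
  have hc2 : ∀ k, k < n → ((n + 1).choose (k + 1) / (n + 1)) * (n - k) = n.choose (k + 1) := by
    intro k hk
    have h1 : (n + 1) ∣ (n + 1).choose (k + 1) := by
      rw [← hn]
      exact hpp.dvd_choose_self (by omega) (by omega)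
    obtain ⟨c, hc⟩ := h1
    rw [hc, Nat.mul_div_cancel_left _ (Nat.succ_pos n)]
    have h2 := Nat.choose_mul_succ_eq n (k + 1)
    rw [hc, Nat.add_sub_add_right] at h2
    have h3 : (n + 1) * (c * (n - k)) = (n + 1) * n.choose (k + 1) := by
      rw [← mul_assoc, ← h2, mul_comm]
    exact Nat.eq_of_mul_eq_mul_left (Nat.succ_pos n) h3
  refine ⟨fn (∑ k ∈ Finset.range n,
    ((n + 1).choose (k + 1) / (n + 1)) • (f ^ (k + 1) * g ^ (n - k))), ?_⟩
  have hW : dd (fn (∑ k ∈ Finset.range n,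
      ((n + 1).choose (k + 1) / (n + 1)) • (f ^ (k + 1) * g ^ (n - k)))) =
      fn (∑ k ∈ Finset.range n, n.choose k • (f ^ k * g ^ (n - k))) * dd (fn f) +
      fn (∑ k ∈ Finset.range n, n.choose (k + 1) • (f ^ (k + 1) * g ^ (n - (k + 1)))) *
        dd (fn g) := by
    rw [map_sum, map_sum, map_sum, map_sum, Finset.sum_mul, Finset.sum_mul,
      ← Finset.sum_add_distrib]
    refine Finset.sum_congr rfl fun k hk => ?_
    have hk' : k < n := Finset.mem_range.1 hk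
    have h1 : dd (fn (f ^ (k + 1) * g ^ (n - k))) =
        (k + 1) • (fn (f ^ k * g ^ (n - k)) * dd (fn f)) +
          (n - k) • (fn (f ^ (k + 1) * g ^ (n - (k + 1))) * dd (fn g)) := by
      rw [map_mul, dd_fn_mul, lca_dd_pow f (k + 1), lca_dd_pow g (n - k), Nat.add_sub_cancel,
        Nat.sub_sub, smul_mul_assoc, mul_smul_comm, mul_assoc, ← fn_mul_comm, ← mul_assoc,
        ← mul_assoc, ← map_mul, ← map_mul]
    rw [map_nsmul, map_nsmul, h1, smul_add, smul_smul, smul_smul, hc1 k hk', hc2 k hk', map_nsmul,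
      map_nsmul, smul_mul_assoc, smul_mul_assoc]
  rw [hW, ← map_pow, ← map_pow, ← map_pow, map_add fn f g, map_add dd, mul_add]
  nth_rewrite 1 [hA]
  rw [hB, map_add, map_add, add_mul, add_mul]
  abel

theorem Ca_pow_ddfn (f : Fn κ m) : Ca p (fn f ^ (p - 1) * dd (fn f)) = dd (fn f) := by
  have hp1 : 1 ≤ p := hp.out.one_le
  induction f using AddMonoidAlgebra.induction_linear with
  | zero => rw [map_zero, map_zero, mul_zero, map_zero]
  | add f g hf hg =>
    obtain ⟨W, hW⟩ := lca_W p f g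
    rw [hW, map_add, map_add, Ca_dd, zero_add, hf, hg, map_add, map_add]
  | single e a =>
    have h1 : fn (AddMonoidAlgebra.single e a : Fn κ m) ^ (p - 1) *
        dd (fn (AddMonoidAlgebra.single e a : Fn κ m)) =
        (a ^ p) • (AddMonoidAlgebra.single (pmul p m e) (ι κ (bar κ e)) : Fo κ m) := by
      have h2 : (p - 1) • e + e = pmul p m e := by
        rw [← succ_nsmul, Nat.sub_add_cancel hp1]
        funext i
        rw [Pi.smul_apply, nsmul_eq_mul]
        rfl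
      have h3 : a ^ (p - 1) * a = a ^ p := by
        rw [← pow_succ, Nat.sub_add_cancel hp1]
      rw [fn_single, smul_pow, lca_mo_pow, map_smul, lca_dd_mo, smul_mul_smul_comm, h3, mo,
        AddMonoidAlgebra.single_mul_single, one_mul, h2]
    have h4 : (tw (m := m) (frobeniusEquiv κ p)).symm (ι κ (bar κ e)) = ι κ (bar κ e) := by
      rw [RingEquiv.symm_apply_eq, tw_iota]
      congr 1
      funext i
      unfold bar
      rw [map_intCast]
    rw [h1, Ca_smul, lca_Ca_single, h4, fn_single, map_smul, lca_dd_mo]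

theorem Ca_pow_ddpf (F : MvPolynomial (Fin m) κ) :
    Ca p (pf F ^ (p - 1) * dd (pf F)) = dd (pf F) := by
  exact Ca_pow_ddfn p (pl F)

theorem Ca_mult (F : MvPolynomial (Fin m) κ) {q : ℕ} {ξ : Fo κ m}
    (hξ : ξ ∈ FD (κ := κ) (m := m) q) (h : dd ξ = 0) :
    Ca p (pf F ^ (p - 1) * (dd (pf F) * ξ)) = dd (pf F) * Ca p ξ := by
  have h1 : dd (ξ - Fr p (Ca p ξ)) = 0 := by rw [map_sub, h, dd_Fr, sub_zero]
  have h2 : Ca p (ξ - Fr p (Ca p ξ)) = 0 := by rw [map_sub, Ca_Fr, sub_self]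
  have h3 : ξ - Fr p (Ca p ξ) ∈ FD (κ := κ) (m := m) q :=
    Submodule.sub_mem _ hξ (Fr_FD p (Ca_FD p hξ))
  have h4 : ∃ η : Fo κ m, dd η = ξ - Fr p (Ca p ξ) := by
    cases q with
    | zero => exact ⟨0, by rw [cartier_zero p h3 h1 h2, map_zero]⟩
    | succ q =>
      obtain ⟨y, _, hy, _⟩ := cartier p (I := Set.univ) (P := Set.univ)
        (x := ξ - Fr p (Ca p ξ)) ⟨⟨fun e i hi => absurd (Set.mem_univ i) hi, h3⟩,
          fun e he => absurd (Set.mem_univ _) he⟩ h1 h2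
      exact ⟨y, hy⟩
  obtain ⟨η, hη⟩ := h4
  have h5 : ξ = Fr p (Ca p ξ) + dd η := by rw [hη, add_sub_cancel]
  have h6 : pf F ^ (p - 1) * (dd (pf F) * dd η) = - dd (pf F ^ (p - 1) * (dd (pf F) * η)) := by
    rw [dd_pf_pow_KK (p - 1) (one_mul_self (ddpf_mem F) η), dd_ddpf_mul, mul_neg, neg_neg]
  have h7 : pf F ^ (p - 1) * (dd (pf F) * ξ) =
      pf F ^ (p - 1) * dd (pf F) * Fr p (Ca p ξ) + pf F ^ (p - 1) * (dd (pf F) * dd η) := by
    conv_lhs => rw [h5]
    rw [mul_add, mul_add, mul_assoc]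
  rw [h7, map_add, Ca_mul_Fr, Ca_pow_ddpf, h6, map_neg, Ca_dd, neg_zero, add_zero]

theorem Ca_F_dd (F : MvPolynomial (Fin m) κ) {y : Fo κ m} (hy : dd (pf F) * y = 0) :
    Ca p (pf F ^ (p - 1) * dd y) = 0 := by
  rw [← dd_pf_pow_KK (p - 1) hy, Ca_dd]

theorem Ca_F_BK {F : MvPolynomial (Fin m) κ} {t : ℤ} {q : ℕ} {I : Set (Fin m)} {x : Fo κ m}
    (hx : x ∈ BK F t q I) : Ca p (pf F ^ (p - 1) * x) = 0 := by
  obtain ⟨y, hy, rfl⟩ := hx
  exact Ca_F_dd p F (mem_KK.1 hy).2.2.2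

theorem Ca_F_KK {d : ℕ} {F : MvPolynomial (Fin m) κ} (hF : F.IsHomogeneous d) {q : ℕ}
    {I : Set (Fin m)} {x : Fo κ m} (hx : x ∈ ZK F d q I) :
    Ca p (pf F ^ (p - 1) * x) ∈ KK F d q I := by
  have hK := (mem_ZK.1 hx).1
  have hd := (mem_ZK.1 hx).2
  have h1 := mem_KK.1 (pf_pow_KK hF (p - 1) hK)
  have hp1 : 1 ≤ p := hp.out.one_le
  have h2 : dd (pf F ^ (p - 1) * x) = 0 := by
    rw [dd_pf_pow_KK (p - 1) (mem_KK.1 hK).2.2.2, hd, mul_zero]
  rw [mem_KK]
  refine ⟨Ca_Reg p h1.1, Ca_FD p h1.2.1, ?_, ?_⟩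
  · refine TD_mono ?_ (Ca_TD p h1.2.2.1)
    intro s hs
    rw [Set.mem_ofPred_eq, Set.mem_singleton_iff, Nat.cast_sub hp1] at hs
    rw [Set.mem_singleton_iff]
    have h3 : (p : ℤ) ≠ 0 := by exact_mod_cast hp.out.ne_zero
    refine mul_left_cancel₀ h3 ?_
    rw [hs]
    push_cast
    ring
  · rw [← Ca_mult p F h1.2.1 h2, h1.2.2.2, mul_zero, map_zero]

end

end MPadcBK
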