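import Pool.Agent.Lib.MP_adc574_ag_BK.LieB
import Pool.Agent.Lib.MP_adc574_ag_BK.LogCarA
import Pool.Agent.Lib.MP_adc574_ag_BK.EForm

/-!
# JOB ResA: forms on `P^{m-1}` and forms killed by `dF ∧`, on one chart

`dl i` is the form `dlog x_i`; `BP q I` = exact forms of degree `q + 1` on the chart `I` of `P^{m-1}` (`Car.lean`). `dF` means `dd (pf F)`.
* `dl`: `(dl i * x).coeff e = ι (Pi.single i 1) * x.coeff e` (`AddMonoidAlgebra.coeff_single_mul_apply`); `dl_Reg`: for `l ∉ I`, `l ≠ i` as `i ∈ I`, `cti l (ι (single i 1) * y) = - ι (..) * cti l y`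
  (`cti_iota_mul`). `dd_dl_mul`: `iota_comm`. `cfe_dl_mul`: `cte_iota_mul`. `Ca_dl_mul`: `Fr p (dl i) = dl i` (`tw_iota`, the twist fixes `Pi.single i 1`), `Ca_Fr_mul`.
* `pf_cancel`: `pf_mul_eq_zero`.
* `mem_BP`: unfold `BP`. `BP_of`: `cartier` (`P = {0}`). `BP_prop`: for `x = dd η`: `cfe (dd η) = (0 : ℤ) • η - dd (cfe η) = 0` (`euler`), `Ca (dd η) = 0`.
* `BP_dl`: `(dl j - dl l) * dd η = - dd ((dl j - dl l) * η)`, `cfe ((dl j - dl l) * η) = η - η - (dl j - dl l) * cfe η = 0`.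
* `dF_BP`: `dF * dd η = - dd (dF * η)`, `dF * η ∈ KK F d (q + 1) I` (`one_mul_self`, `ddpf_mul_TD`). `dF_dl_BP`: `dF * (dl j * dd η) = dd (dF * (dl j * η))` (`dd_ddpf_mul`, `dd_dl_mul`).
* `exists_psi`: `ψ = dl j * k - (d : κ)⁻¹ • w`. From `dF * k = F * w`: `F * (dF * w) = dF * (F * w) = dF * (dF * k) = 0`, so `dF * w = 0` (`pf_cancel`); apply `dd`: `0 = dd (dF * k) = dF * w + F * dd w`
  (`dd k = 0`), so `dd w = 0`; apply `cfe`: `d • F * k - dF * cfe k = F * cfe w` (`cfe_ddpf_mul`, `cfe_fn_mul`), so `cfe w = d • k`; Cartier: `F * Ca w = Ca (Fr (pf F) * w)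
  = Ca (F^p * w) = Ca (F^(p-1) * (dF * k)) = dF * Ca k = 0` (`Ca_Fr_mul`, `Fr_fn`, `Ca_mult`), so `Ca w = 0`. Hence `dd ψ = 0`, `Ca ψ = 0`, `cfe ψ = k - dl j * cfe k - k = 0`,
  `dF * ψ = dF * (dl j * k)`; `BP_of`.
* `res_eq`: apply `cfe` to the hypothesis: `cfe (dF * (dl j * c)) = d • F * (dl j * c) - dF * c`, `cfe (dF * φ) = d • F * φ`, and with `dd (dF * Ξ) = - dF * dd Ξ`,
  `cfe (dd Ξ) = - dd (cfe Ξ)` (`euler`): `cfe (dd (dF * Ξ)) = - d • F * dd Ξ - dF * dd (cfe Ξ)`. So `dF * (c - dd (cfe Ξ)) = F * θ` with `θ = d • (dl j * c - φ + dd Ξ)`.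
* `psi_zero`: `r` from `exists_vf`: `y = cv r (dF * y) + dF * cv r y = cv r (F * θ) + dF * cv r y = F * cv r θ + dF * cv r y` (`cv_ddpf_mul`, `cv_fn_mul`).
-/

set_option autoImplicit false

namespace MPadcBK

open ExteriorAlgebra

universe u

variable {κ : Type u} [Field κ] {m : ℕ}

theorem dl_coeff (i : Fin m) (x : Fo κ m) (e : Ex m) :
    (dl i * x).coeff e = ι κ (Pi.single i 1) * x.coeff e := by
  unfold dl
  rw [AddMonoidAlgebra.coeff_single_mul_apply, neg_zero, zero_add]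

theorem dl_FD (i : Fin m) : (dl i : Fo κ m) ∈ FD (κ := κ) (m := m) 1 := by
  intro e
  have h := dl_coeff i (1 : Fo κ m) e
  rw [mul_one] at h
  rw [h]
  exact iota_mem _ ((FD_zero_iff.2 ⟨1, (map_one fn).symm⟩ : (1 : Fo κ m) ∈ FD (κ := κ) (m := m) 0) e)

theorem dl_Reg {I : Set (Fin m)} {i : Fin m} (hi : i ∈ I) {x : Fo κ m}
    (hx : x ∈ Reg (κ := κ) I) : dl i * x ∈ Reg (κ := κ) I := by
  intro e l hl
  have hli : l ≠ i := fun h => hl (h ▸ hi)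
  rw [dl_coeff]
  refine ⟨fun h => by rw [(hx e l hl).1 h, mul_zero], fun h => ?_⟩
  rw [cti_iota_mul, (hx e l hl).2 h, mul_zero, sub_zero, Pi.single_eq_of_ne hli, zero_smul]

theorem dl_TD (i : Fin m) {P : Set ℤ} {x : Fo κ m} (hx : x ∈ TD (κ := κ) (m := m) P) :
    dl i * x ∈ TD (κ := κ) (m := m) P := by
  intro e he
  rw [dl_coeff, hx e he, mul_zero]

theorem dd_dl_mul (i : Fin m) (x : Fo κ m) : dd (dl i * x) = - (dl i * dd x) := by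
  refine fo_ext fun e => ?_
  rw [dd_coeff, dl_coeff, iota_comm, AddMonoidAlgebra.coeff_neg, Finsupp.neg_apply, dl_coeff,
    dd_coeff]

theorem cfe_dl_mul (i : Fin m) (x : Fo κ m) : cfe (dl i * x) = x - dl i * cfe x := by
  refine fo_ext fun e => ?_
  rw [cfe_coeff, dl_coeff, cte_iota_mul, AddMonoidAlgebra.coeff_sub, Finsupp.sub_apply, dl_coeff,
    cfe_coeff, Finset.sum_pi_single', if_pos (Finset.mem_univ i), one_smul]

theorem pf_cancel {F : MvPolynomial (Fin m) κ} (hF : F ≠ 0) {x y : Fo κ m}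
    (h : pf F * x = pf F * y) : x = y := by
  rw [← sub_eq_zero]
  apply pf_mul_eq_zero hF
  rw [mul_sub, h, sub_self]

theorem mem_BP {q : ℕ} {I : Set (Fin m)} {x : Fo κ m} :
    x ∈ BP (κ := κ) (m := m) q I ↔ ∃ η : Fo κ m, η ∈ Reg (κ := κ) I ∧ η ∈ FD (κ := κ) (m := m) q ∧
      η ∈ TD (κ := κ) (m := m) {0} ∧ cfe η = 0 ∧ dd η = x := by
  unfold BP
  rw [Submodule.mem_map]
  constructor
  · rintro ⟨η, ⟨⟨⟨h1, h2⟩, h3⟩, h4⟩, h5⟩
    exact ⟨η, h1, h2, h3, LinearMap.mem_ker.1 h4, h5⟩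
  · rintro ⟨η, h1, h2, h3, h4, h5⟩
    exact ⟨η, ⟨⟨⟨h1, h2⟩, h3⟩, LinearMap.mem_ker.2 h4⟩, h5⟩

theorem BP_mono {q : ℕ} {I J : Set (Fin m)} (h : I ⊆ J) :
    BP (κ := κ) (m := m) q I ≤ BP q J := by
  intro x hx
  rw [mem_BP] at hx ⊢
  obtain ⟨η, h1, h2, h3, h4, h5⟩ := hx
  exact ⟨η, Reg_mono h h1, h2, h3, h4, h5⟩

theorem BP_mem {q : ℕ} {I : Set (Fin m)} {x : Fo κ m} (hx : x ∈ BP (κ := κ) (m := m) q I) :
    x ∈ Reg (κ := κ) I ∧ x ∈ FD (κ := κ) (m := m) (q + 1) ∧ x ∈ TD (κ := κ) (m := m) {0} ∧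
      cfe x = 0 ∧ dd x = 0 := by
  rw [mem_BP] at hx
  obtain ⟨η, h1, h2, h3, h4, rfl⟩ := hx
  refine ⟨dd_Reg h1, dd_FD h2, dd_TD h3, ?_, dd_dd η⟩
  have h := euler h3
  rw [h4, map_zero, zero_add, Int.cast_zero, zero_smul] at h
  exact h

theorem BP_dl {q : ℕ} {I : Set (Fin m)} {x : Fo κ m} (hx : x ∈ BP (κ := κ) (m := m) q I)
    {j l : Fin m} (hj : j ∈ I) (hl : l ∈ I) : (dl j - dl l) * x ∈ BP (κ := κ) (m := m) (q + 1) I := by
  rw [mem_BP] at hx ⊢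
  obtain ⟨η, h1, h2, h3, h4, rfl⟩ := hx
  refine ⟨-((dl j - dl l) * η), ?_, ?_, ?_, ?_, ?_⟩
  · rw [sub_mul]
    exact Submodule.neg_mem _ (Submodule.sub_mem _ (dl_Reg hj h1) (dl_Reg hl h1))
  · exact Submodule.neg_mem _ (one_mul_FD (Submodule.sub_mem _ (dl_FD j) (dl_FD l)) h2)
  · rw [sub_mul]
    exact Submodule.neg_mem _ (Submodule.sub_mem _ (dl_TD j h3) (dl_TD l h3))
  · rw [sub_mul, map_neg, map_sub, cfe_dl_mul, cfe_dl_mul, h4, mul_zero, mul_zero, sub_self, neg_zero]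
  · rw [sub_mul, map_neg, map_sub, dd_dl_mul, dd_dl_mul, sub_mul]
    abel

theorem dF_BP {d : ℕ} {F : MvPolynomial (Fin m) κ} (hF : F.IsHomogeneous d) {q : ℕ}
    {I : Set (Fin m)} {x : Fo κ m} (hx : x ∈ BP (κ := κ) (m := m) q I) :
    dd (pf F) * x ∈ BK F d (q + 1) I := by
  rw [mem_BP] at hx
  obtain ⟨η, h1, h2, h3, h4, rfl⟩ := hx
  refine Submodule.mem_map.2 ⟨-(dd (pf F) * η), ?_, ?_⟩
  · apply Submodule.neg_mem
    rw [mem_KK]
    refine ⟨ddpf_mul_Reg F h1, ddpf_mul_FD F h2, ?_, one_mul_self (ddpf_mem F) η⟩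
    refine TD_mono ?_ (ddpf_mul_TD hF h3)
    intro t ht
    have ht' : t - (d : ℤ) = 0 := ht
    exact sub_eq_zero.1 ht'
  · rw [map_neg, dd_ddpf_mul, neg_neg]

theorem dF_dl_BP {d : ℕ} {F : MvPolynomial (Fin m) κ} (hF : F.IsHomogeneous d) {q : ℕ}
    {I : Set (Fin m)} {x : Fo κ m} (hx : x ∈ BP (κ := κ) (m := m) q I) {j : Fin m} (hj : j ∈ I) :
    dd (pf F) * (dl j * x) ∈ BK F d (q + 2) I := by
  rw [mem_BP] at hx
  obtain ⟨η, h1, h2, h3, h4, rfl⟩ := hx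
  refine Submodule.mem_map.2 ⟨dd (pf F) * (dl j * η), ?_, ?_⟩
  · rw [mem_KK]
    refine ⟨ddpf_mul_Reg F (dl_Reg hj h1), ddpf_mul_FD F (one_mul_FD (dl_FD j) h2), ?_,
      one_mul_self (ddpf_mem F) _⟩
    refine TD_mono ?_ (ddpf_mul_TD hF (dl_TD j h3))
    intro t ht
    have ht' : t - (d : ℤ) = 0 := ht
    exact sub_eq_zero.1 ht'
  · rw [dd_ddpf_mul, dd_dl_mul, mul_neg, neg_neg]

section

variable (p : ℕ) [hp : Fact p.Prime] [CharP κ p] [PerfectRing κ p]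

theorem Ca_dl_mul (i : Fin m) (x : Fo κ m) : Ca p (dl i * x) = dl i * Ca p x := by
  refine fo_ext fun e => ?_
  rw [Ca_coeff, dl_coeff, dl_coeff, Ca_coeff, map_mul]
  congr 1
  rw [RingEquiv.symm_apply_eq, tw_iota]
  congr 1
  funext l
  by_cases hl : l = i
  · subst hl
    rw [Pi.single_eq_same, map_one]
  · rw [Pi.single_eq_of_ne hl, map_zero]

include p hp in
theorem BP_of {q : ℕ} {I : Set (Fin m)} {x : Fo κ m} (h1 : x ∈ Reg (κ := κ) I)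
    (h2 : x ∈ FD (κ := κ) (m := m) (q + 1)) (h3 : x ∈ TD (κ := κ) (m := m) {0}) (h4 : cfe x = 0)
    (h5 : dd x = 0) (h6 : Ca p x = 0) : x ∈ BP (κ := κ) (m := m) q I := by
  obtain ⟨y, hy, hyx, hc⟩ := cartier p (I := I) (q := q) (P := {0}) (x := x) ⟨⟨h1, h2⟩, h3⟩ h5 h6
  exact mem_BP.2 ⟨y, hy.1.1, hy.1.2, hy.2, hc h4, hyx⟩

include p hp in
theorem exists_psi {d : ℕ} (hd : ¬ p ∣ d) {F : MvPolynomial (Fin m) κ} (hF : F.IsHomogeneous d)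
    (hF0 : F ≠ 0) {q : ℕ} {I : Set (Fin m)} {k w : Fo κ m} (hk : k ∈ BP (κ := κ) (m := m) q I)
    (hw : w ∈ Reg (κ := κ) I ⊓ FD (q + 2) ⊓ TD {0}) (h : dd (pf F) * k = pf F * w) {j : Fin m}
    (hj : j ∈ I) :
    ∃ ψ ∈ BP (κ := κ) (m := m) (q + 1) I, dd (pf F) * ψ = dd (pf F) * (dl j * k) := by
  obtain ⟨kR, kF, kT, kc, kd⟩ := BP_mem hk
  have kC : Ca p k = 0 := by
    obtain ⟨η, _, _, _, _, h5⟩ := mem_BP.1 hk
    rw [← h5]
    exact Ca_dd p η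
  have hdF : dd (pf F) * w = 0 := by
    apply pf_mul_eq_zero hF0
    rw [← mul_assoc, pf_mul_comm F (dd (pf F)), mul_assoc, ← h, one_mul_self (ddpf_mem F)]
  have hdw : dd w = 0 := by
    apply pf_mul_eq_zero hF0
    have h1 := dd_pf_mul F w
    rw [← h, dd_ddpf_mul, kd, mul_zero, neg_zero, hdF, zero_add] at h1
    exact h1.symm
  have hcw : cfe w = (d : κ) • k := by
    apply pf_cancel hF0
    have h1 := cfe_fn_mul (pl F) w
    have h2 : cfe (pf F * w) = pf F * cfe w := h1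
    rw [← h2, ← h, cfe_ddpf_mul hF, kc, mul_zero, sub_zero, mul_smul_comm]
  have hCw : Ca p w = 0 := by
    apply pf_mul_eq_zero hF0
    rw [← Ca_Fr_mul, Fr_pf, pf_pow]
    have hp1 : p = (p - 1) + 1 := by
      have := hp.out.pos
      omega
    have h1 : pf F ^ p * w = pf F ^ (p - 1) * (pf F * w) := by
      rw [← mul_assoc, ← pow_succ, ← hp1]
    rw [h1, ← h, Ca_mult p F kF kd, kC, mul_zero]
  have hd0 : (d : κ) ≠ 0 := fun h0 => hd ((CharP.cast_eq_zero_iff κ p d).1 h0)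
  have hCs : Ca p (((d : κ)⁻¹) • w) = 0 := by
    obtain ⟨a, ha⟩ := (frobeniusEquiv κ p).surjective ((d : κ)⁻¹)
    rw [frobeniusEquiv_def] at ha
    rw [← ha, Ca_smul, hCw, smul_zero]
  refine ⟨dl j * k - ((d : κ)⁻¹) • w, ?_, ?_⟩
  · apply BP_of p
    · exact Submodule.sub_mem _ (dl_Reg hj kR) (Submodule.smul_mem _ _ hw.1.1)
    · exact Submodule.sub_mem _ (one_mul_FD (dl_FD j) kF) (Submodule.smul_mem _ _ hw.1.2)
    · exact Submodule.sub_mem _ (dl_TD j kT) (Submodule.smul_mem _ _ hw.2)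
    · rw [map_sub, map_smul, cfe_dl_mul, kc, mul_zero, sub_zero, hcw, smul_smul,
        inv_mul_cancel₀ hd0, one_smul, sub_self]
    · rw [map_sub, map_smul, dd_dl_mul, kd, mul_zero, neg_zero, hdw, smul_zero, sub_zero]
    · rw [map_sub, Ca_dl_mul, kC, mul_zero, hCs, sub_zero]
  · rw [mul_sub, mul_smul_comm, hdF, smul_zero, sub_zero]

end

theorem res_eq {d : ℕ} {F : MvPolynomial (Fin m) κ} (hF : F.IsHomogeneous d) {q : ℕ}
    {I : Set (Fin m)} {c φ Ξ : Fo κ m} (hc : c ∈ BP (κ := κ) (m := m) q I)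
    (hφ : φ ∈ BP (κ := κ) (m := m) (q + 1) I) (hΞ : Ξ ∈ TD (κ := κ) (m := m) {0}) {j : Fin m}
    (h : dd (pf F) * (dl j * c) - dd (pf F) * φ = dd (dd (pf F) * Ξ)) :
    ∃ θ, dd (pf F) * (c - dd (cfe Ξ)) = pf F * θ := by
  obtain ⟨_, _, _, cc, _⟩ := BP_mem hc
  obtain ⟨_, _, _, φc, _⟩ := BP_mem hφ
  have hE : cfe (dd Ξ) = - dd (cfe Ξ) := by
    have h1 := euler hΞ
    rw [Int.cast_zero, zero_smul] at h1
    exact eq_neg_of_add_eq_zero_right h1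
  have h1 := congrArg cfe h
  rw [map_sub, cfe_ddpf_mul hF, cfe_ddpf_mul hF, cfe_dl_mul, cc, mul_zero, sub_zero, φc, mul_zero,
    sub_zero, dd_ddpf_mul, map_neg, cfe_ddpf_mul hF, hE, mul_neg, sub_neg_eq_add] at h1
  refine ⟨(d : κ) • (dl j * c - φ + dd Ξ), ?_⟩
  rw [mul_smul_comm, mul_add, mul_sub, mul_sub, smul_add, smul_sub]
  have h2 : dd (pf F) * c = (d : κ) • (pf F * (dl j * c)) - (d : κ) • (pf F * φ) +
      ((d : κ) • (pf F * dd Ξ) + dd (pf F) * dd (cfe Ξ)) := by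
    have h3 : (d : κ) • (pf F * dd Ξ) + dd (pf F) * dd (cfe Ξ) =
        -((d : κ) • (pf F * (dl j * c)) - dd (pf F) * c - (d : κ) • (pf F * φ)) := by
      rw [h1, neg_neg]
    rw [h3]
    abel
  rw [h2]
  abel

theorem psi_zero {W : Type*} [AddCommGroup W] (Ψ : Fo κ m →+ W) {d : ℕ}
    {F : MvPolynomial (Fin m) κ} (hF : F.IsHomogeneous d) (hs : Smooth F) (hm : 0 < m)
    (h1 : ∀ x, Ψ (pf F * x) = 0) (h2 : ∀ x, Ψ (dd (pf F) * x) = 0) {y θ : Fo κ m}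
    (h : dd (pf F) * y = pf F * θ) : Ψ y = 0 := by
  have : Nonempty (Fin m) := ⟨⟨0, hm⟩⟩
  obtain ⟨r, _, hr⟩ := exists_vf hF hs (I := Set.univ) Set.univ_nonempty
  have h3 := cv_ddpf_mul hr y
  have h4 : cv r (pf F * θ) = pf F * cv r θ := cv_fn_mul r (pl F) θ
  rw [h, h4] at h3
  have h5 : y = pf F * cv r θ + dd (pf F) * cv r y := by
    rw [h3]
    abel
  rw [h5, map_add, h1, h2, add_zero]

end MPadcBK
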