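import Pool.Agent.Lib.MP_adc574_ag_BK.Kos
import Pool.Agent.Lib.MP_adc574_ag_BK.ResA
import Pool.Agent.Lib.MP_adc574_ag_BK.Cech

/-!
# JOB ResB: from the forms killed by `dF ∧` to the hypersurface

`Ψ` is the restriction of forms to the hypersurface. Let `c` be a closed cochain of length `j + 1`, `c t = Ψ (c' t)`, `c' t ∈ BP i (range t)` (choice). Write `dF = dd (pf F)`.
1. `ω t = dF * (dl (t 0) * c' t) ∈ BK F d (i + 2) (range t)` (`dF_dl_BP`).
2. `k = del c'` is a cochain in `BP i` (`del_Coch`, `BP_mono`) and `Ψ (k t) = del c t = 0` (`del_map`), so `dF * k t = F * w t` (`h3`), and by `exists_psi` (with `j := t 0`) there is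
   `ψ t ∈ BP (i + 1) (range t)` with `dF * ψ t = dF * (dl (t 0) * k t)`.
3. `ψ' t = ψ t + (dl (t 1) - dl (t 0)) * c' (t ∘ Fin.succ)` is a cochain in `BP (i + 1)` (`BP_dl`, `BP_mono`), and `del ω t = dF * ψ' t`: in `del ω t = ∑ k, (-1)^k dF * (dl ((t ∘ k.succAbove) 0) *
   c' (t ∘ k.succAbove))` one has `(t ∘ k.succAbove) 0 = t 0` for `k ≠ 0` and `= t 1` for `k = 0` (`Fin.sum_univ_succ`).
4. `del ψ' = 0`: `dF * del ψ' = del (del ω) = 0` (`del_map`, `del_del`), `cfe (del ψ') = 0`, so `d • (F * del ψ') = cfe (dF * del ψ') + dF * cfe (del ψ') = 0` (`cfe_ddpf_mul`), and `F` is not a zero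
   divisor (`pf_mul_eq_zero`), `(d : κ) ≠ 0`.
5. `exact_BP`: `ψ' = del φ`, `φ` a cochain of length `j + 1` in `BP (i + 1)`.
6. `ω - dF * φ` is a cochain in `BK F d (i + 2)` (`dF_BP`), closed. `j = 0`: it is `0` by `H`; `res_eq` with `Ξ = 0`, then `psi_zero` gives `Ψ (c' t) = 0`.
   `j = j' + 1`: `ω - dF * φ = del χ`, `χ s = dd (dF * ξ s)` with `ξ s ∈ Reg (range s) ⊓ FD (i + 1) ⊓ TD {0}` (the elements of `KK F d (i + 2)` are `dF * ξ` by `kos_local`, `range s` is nonempty).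
   `e s = Ψ (dd (cfe (ξ s)))`, `dd (cfe (ξ s)) ∈ BP i (range s)` (`cfe_Reg`, `cfe_FD`, `cfe_TD`, `cfe_cfe`). With `Ξ = del ξ t`: `dd (dF * Ξ) = ω t - dF * φ t` (`del_map`), `res_eq`, `psi_zero`:
   `c t = Ψ (c' t) = Ψ (dd (cfe Ξ)) = del e t` (`del_map`).
-/

set_option autoImplicit false

namespace MPadcBK

open ExteriorAlgebra

universe u

variable {κ : Type u} [Field κ] {m : ℕ} (p : ℕ) [hp : Fact p.Prime] [CharP κ p] [PerfectRing κ p]

private theorem resb_dF {l : ℕ} (y : Fo κ m) (c : (Fin l → Fin m) → Fo κ m) :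
    del (fun s => y * c s) = fun s => y * del c s :=
  del_map (AddMonoidHom.mulLeft y) c

/-- step 3 -/
private theorem resb_omega {l : ℕ} (y : Fo κ m) (c : (Fin (l + 1) → Fin m) → Fo κ m)
    (t : Fin (l + 2) → Fin m) : del (fun s => y * (dl (s 0) * c s)) t =
      y * (dl (t 0) * del c t) + y * ((dl (t 1) - dl (t 0)) * c (t ∘ Fin.succ)) := by
  have h0 : t ∘ (0 : Fin (l + 2)).succAbove = t ∘ Fin.succ := by
    funext i
    rw [Function.comp_apply, Fin.succAbove_zero, Function.comp_apply]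
  have h1 : (t ∘ Fin.succ) (0 : Fin (l + 1)) = t 1 := rfl
  have h2 : ∀ k : Fin (l + 1), (t ∘ k.succ.succAbove) (0 : Fin (l + 1)) = t 0 := by
    intro k
    rw [Function.comp_apply, Fin.succ_succAbove_zero]
  unfold del
  rw [Fin.sum_univ_succ, Fin.sum_univ_succ (f := fun k : Fin (l + 2) =>
    (-1 : ℤ) ^ (k : ℕ) • c (t ∘ k.succAbove)), Fin.val_zero, pow_zero, one_smul, one_smul, h0]
  change y * (dl ((t ∘ Fin.succ) 0) * c (t ∘ Fin.succ)) +
    ∑ k : Fin (l + 1), (-1 : ℤ) ^ ((k.succ : Fin (l + 2)) : ℕ) •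
      (y * (dl ((t ∘ k.succ.succAbove) 0) * c (t ∘ k.succ.succAbove))) = _
  rw [h1, mul_add (dl (t 0) : Fo κ m), mul_add y, Finset.mul_sum, Finset.mul_sum]
  have h3 : ∑ k : Fin (l + 1), (-1 : ℤ) ^ ((k.succ : Fin (l + 2)) : ℕ) •
      (y * (dl ((t ∘ k.succ.succAbove) 0) * c (t ∘ k.succ.succAbove))) =
      ∑ k : Fin (l + 1), y * (dl (t 0) * ((-1 : ℤ) ^ ((k.succ : Fin (l + 2)) : ℕ) •
        c (t ∘ k.succ.succAbove))) := by
    refine Finset.sum_congr rfl fun k _ => ?_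
    rw [h2, mul_smul_comm, mul_smul_comm]
  rw [h3, sub_mul, mul_sub]
  abel

include p hp in
/-- steps 1 to 6 -/
private theorem resb_main {W : Type*} [AddCommGroup W] (Ψ : Fo κ m →+ W) {d : ℕ} (hd : ¬ p ∣ d)
    {F : MvPolynomial (Fin m) κ} (hF : F.IsHomogeneous d) (hF0 : F ≠ 0)
    (h3 : ∀ (I : Set (Fin m)) (q : ℕ) (k : Fo κ m), I.Nonempty →
      k ∈ Reg (κ := κ) I ⊓ FD (q + 1) ⊓ TD {0} → cfe k = 0 → Ψ k = 0 →
      ∃ w ∈ Reg (κ := κ) I ⊓ FD (q + 2) ⊓ TD {0}, dd (pf F) * k = pf F * w)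
    (i l : ℕ) (c : (Fin (l + 1) → Fin m) → Fo κ m)
    (hc : ∀ t, c t ∈ BP (κ := κ) (m := m) i (Set.range t)) (hdc : ∀ t, Ψ (del c t) = 0) :
    ∃ φ : (Fin (l + 1) → Fin m) → Fo κ m,
      (∀ t, φ t ∈ BP (κ := κ) (m := m) (i + 1) (Set.range t)) ∧
      Coch (fun I => (BK F d (i + 2) I).toAddSubgroup)
        (fun t => dd (pf F) * (dl (t 0) * c t) - dd (pf F) * φ t) ∧
      del (fun t => dd (pf F) * (dl (t 0) * c t) - dd (pf F) * φ t) = 0 := by
  have hd0 : (d : κ) ≠ 0 := by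
    intro h
    exact hd ((CharP.cast_eq_zero_iff κ p d).1 h)
  have hmono : ∀ (q : ℕ) (I J : Set (Fin m)), I ⊆ J →
      (BP (κ := κ) (m := m) q I).toAddSubgroup ≤ (BP (κ := κ) (m := m) q J).toAddSubgroup :=
    fun q I J h => BP_mono h
  have hk : ∀ t, del c t ∈ BP (κ := κ) (m := m) i (Set.range t) := by
    intro t
    exact del_Coch (M := fun I => (BP (κ := κ) (m := m) i I).toAddSubgroup) (hmono i) hc t
  have hψ : ∀ t : Fin (l + 2) → Fin m, ∃ ψ ∈ BP (κ := κ) (m := m) (i + 1) (Set.range t),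
      dd (pf F) * ψ = dd (pf F) * (dl (t 0) * del c t) := by
    intro t
    obtain ⟨k1, k2, k3, k4, -⟩ := BP_mem (hk t)
    obtain ⟨w, hw, hw'⟩ := h3 (Set.range t) i (del c t) (Set.range_nonempty t) ⟨⟨k1, k2⟩, k3⟩ k4
      (hdc t)
    exact exists_psi p hd hF hF0 (hk t) hw hw' (Set.mem_range_self 0)
  choose ψ hψ1 hψ2 using hψ
  let ψ' : (Fin (l + 2) → Fin m) → Fo κ m := fun t =>
    ψ t + (dl (t 1) - dl (t 0)) * c (t ∘ Fin.succ)
  have hψ' : ∀ t, ψ' t ∈ BP (κ := κ) (m := m) (i + 1) (Set.range t) := by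
    intro t
    refine Submodule.add_mem _ (hψ1 t) (BP_dl ?_ (Set.mem_range_self 1) (Set.mem_range_self 0))
    exact BP_mono (Set.range_comp_subset_range _ _) (hc (t ∘ Fin.succ))
  have hω : del (fun s => dd (pf F) * (dl (s 0) * c s)) = fun t => dd (pf F) * ψ' t := by
    funext t
    rw [resb_omega, ← hψ2, ← mul_add]
  have hψd : del ψ' = 0 := by
    funext t
    have h4 : del ψ' t ∈ BP (κ := κ) (m := m) (i + 1) (Set.range t) :=
      del_Coch (M := fun I => (BP (κ := κ) (m := m) (i + 1) I).toAddSubgroup) (hmono (i + 1)) hψ' t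
    obtain ⟨-, -, -, h5, -⟩ := BP_mem h4
    have h6 : dd (pf F) * del ψ' t = 0 := by
      have h7 := congrFun (resb_dF (dd (pf F)) ψ') t
      rw [← hω, del_del] at h7
      exact h7.symm
    have h7 := cfe_ddpf_mul hF (del ψ' t)
    rw [h6, h5, mul_zero, sub_zero, map_zero] at h7
    have h8 : pf F * del ψ' t = 0 := (smul_eq_zero.1 h7.symm).resolve_left hd0
    exact pf_mul_eq_zero hF0 h8
  obtain ⟨φ, hφ1, hφ2⟩ := exact_BP (κ := κ) (m := m) (i + 1) (l + 1) ψ' hψ' hψd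
  refine ⟨φ, hφ1, fun t => ?_, ?_⟩
  · refine Submodule.sub_mem _ (dF_dl_BP hF (hc t) (Set.mem_range_self 0)) ?_
    exact dF_BP hF (hφ1 t)
  · have h4 : (fun t => dd (pf F) * (dl (t 0) * c t) - dd (pf F) * φ t) =
        (fun t => dd (pf F) * (dl (t 0) * c t)) - fun t => dd (pf F) * φ t := rfl
    rw [h4, del_sub, hω, resb_dF, hφ2, sub_self]

include p hp in
theorem res_HZero {W : Type*} [AddCommGroup W] (Ψ : Fo κ m →+ W) {d : ℕ} (hd : ¬ p ∣ d)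
    {F : MvPolynomial (Fin m) κ} (hF : F.IsHomogeneous d) (hF0 : F ≠ 0) (hs : Smooth F)
    (hm : 0 < m) (h1 : ∀ x, Ψ (pf F * x) = 0) (h2 : ∀ x, Ψ (dd (pf F) * x) = 0)
    (h3 : ∀ (I : Set (Fin m)) (q : ℕ) (k : Fo κ m), I.Nonempty →
      k ∈ Reg (κ := κ) I ⊓ FD (q + 1) ⊓ TD {0} → cfe k = 0 → Ψ k = 0 →
      ∃ w ∈ Reg (κ := κ) I ⊓ FD (q + 2) ⊓ TD {0}, dd (pf F) * k = pf F * w)
    (i j : ℕ) (H : HZero (fun I => (BK F d (i + 2) I).toAddSubgroup) j) :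
    HZero (fun I => (BP (κ := κ) (m := m) i I).toAddSubgroup.map Ψ) j := by
  have hlift : ∀ {l : ℕ} (c : (Fin (l + 1) → Fin m) → W),
      Coch (fun I => (BP (κ := κ) (m := m) i I).toAddSubgroup.map Ψ) c → del c = 0 →
      ∃ c' : (Fin (l + 1) → Fin m) → Fo κ m,
        (∀ t, c' t ∈ BP (κ := κ) (m := m) i (Set.range t)) ∧ (∀ t, Ψ (c' t) = c t) ∧
        ∀ t, Ψ (del c' t) = 0 := by
    intro l c hc hdc
    have h4 : ∀ t, ∃ x, x ∈ BP (κ := κ) (m := m) i (Set.range t) ∧ Ψ x = c t := fun t => hc t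
    choose c' hc1 hc2 using h4
    refine ⟨c', hc1, hc2, fun t => ?_⟩
    have h5 := congrFun (del_map Ψ c') t
    have h6 : (fun s => Ψ (c' s)) = c := funext hc2
    rw [h6, hdc] at h5
    exact h5.symm
  cases j with
  | zero =>
    intro c hc hdc
    obtain ⟨c', hc1, hc2, hc3⟩ := hlift c hc hdc
    obtain ⟨φ, hφ1, hφ2, hφ3⟩ := resb_main p Ψ hd hF hF0 h3 i 0 c' hc1 hc3
    have h4 := H _ hφ2 hφ3
    funext t
    have h5 : dd (pf F) * (dl (t 0) * c' t) - dd (pf F) * φ t = dd (dd (pf F) * (0 : Fo κ m)) := by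
      rw [mul_zero, map_zero]
      exact congrFun h4 t
    obtain ⟨θ, hθ⟩ := res_eq hF (hc1 t) (hφ1 t) (Submodule.zero_mem _) h5
    have h6 := psi_zero Ψ hF hs hm h1 h2 hθ
    rw [map_zero, map_zero, sub_zero, hc2] at h6
    exact h6
  | succ j =>
    intro c hc hdc
    obtain ⟨c', hc1, hc2, hc3⟩ := hlift c hc hdc
    obtain ⟨φ, hφ1, hφ2, hφ3⟩ := resb_main p Ψ hd hF hF0 h3 i (j + 1) c' hc1 hc3
    obtain ⟨χ, hχ1, hχ2⟩ := H _ hφ2 hφ3
    have h4 : ∀ s, ∃ ξ : Fo κ m, ξ ∈ Reg (κ := κ) (Set.range s) ∧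
        ξ ∈ FD (κ := κ) (m := m) (i + 1) ∧ ξ ∈ TD (κ := κ) (m := m) {0} ∧
        dd (dd (pf F) * ξ) = χ s := by
      intro s
      obtain ⟨y, ⟨hy1, hy2⟩, hy3⟩ := hχ1 s
      obtain ⟨ξ, ⟨⟨hξ1, hξ2⟩, hξ3⟩, hξ4⟩ := kos_local hF hs (Set.range_nonempty s) (q := i + 1)
        hy1 hy2
      refine ⟨ξ, hξ1, hξ2, TD_mono ?_ hξ3, ?_⟩
      · intro a ha
        have ha' : a + (d : ℤ) = d := ha
        rw [Set.mem_singleton_iff]
        linarith
      · rw [hξ4]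
        exact hy3
    choose ξ hξ1 hξ2 hξ3 hξ4 using h4
    refine ⟨fun s => Ψ (dd (cfe (ξ s))), fun s => ?_, ?_⟩
    · refine ⟨dd (cfe (ξ s)), ?_, rfl⟩
      exact mem_BP.2 ⟨cfe (ξ s), cfe_Reg (hξ1 s), cfe_FD (hξ2 s), cfe_TD (hξ3 s), cfe_cfe _, rfl⟩
    · funext t
      have hΞ : del ξ t ∈ TD (κ := κ) (m := m) {0} :=
        del_Coch (M := fun _ : Set (Fin m) => (TD (κ := κ) (m := m) {0}).toAddSubgroup)
          (fun I J _ => le_rfl) hξ3 t
      have h5 : dd (pf F) * (dl (t 0) * c' t) - dd (pf F) * φ t =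
          dd (dd (pf F) * del ξ t) := by
        have h6 := congrFun (del_map ((dd : Fo κ m →ₗ[κ] Fo κ m).toAddMonoidHom.comp
          (AddMonoidHom.mulLeft (dd (pf F)))) ξ) t
        have h7 : (fun s => ((dd : Fo κ m →ₗ[κ] Fo κ m).toAddMonoidHom.comp
          (AddMonoidHom.mulLeft (dd (pf F)))) (ξ s)) = χ := funext hξ4
        rw [h7, hχ2] at h6
        exact h6
      obtain ⟨θ, hθ⟩ := res_eq hF (hc1 t) (hφ1 t) hΞ h5
      have h6 := psi_zero Ψ hF hs hm h1 h2 hθ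
      rw [map_sub, hc2, sub_eq_zero] at h6
      rw [h6]
      exact congrFun (del_map (Ψ.comp ((dd : Fo κ m →ₗ[κ] Fo κ m).toAddMonoidHom.comp
        (cfe : Fo κ m →ₗ[κ] Fo κ m).toAddMonoidHom)) ξ) t

end MPadcBK
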