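import Pool.Agent.Lib.MP_adc574_ag_BK.LitA
import Pool.Agent.Lib.MP_adc574_ag_BK.LitH
import Pool.Agent.Lib.MP_adc574_ag_BK.ResB

/-!
# JOB LitI: Bloch-Kato ordinarity of the hypersurface

`HZero_congr`: the groups at nonempty index sets only matter (`Set.range s` is nonempty for `s : Fin (l + 1) → Fin m`). `isBK`: `prime_of_smooth`, `xx_ne_zero`, `res_HZero` with `Ψ = (PsiD (yu F hx o)).toAddMonoidHom`, `o : Fin m` any index,
`h1 = PsiD_F`, `h2 = PsiD_dF`, `h3 = ker_X`, and `BO_eq`. `Smooth F` and `0 < m` give `F ≠ 0` (`ne_zero_of_smooth`).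
-/

set_option autoImplicit false

namespace MPadcBK

open ExteriorAlgebra

universe u

theorem HZero_congr {G : Type*} [AddCommGroup G] {ι : Type*} {M M' : Set ι → AddSubgroup G}
    (h : ∀ I : Set ι, I.Nonempty → M I = M' I) {j : ℕ} (hj : HZero M j) : HZero M' j := by
  have hC : ∀ {l : ℕ} (c : (Fin (l + 1) → ι) → G), Coch M' c ↔ Coch M c := by
    intro l c
    unfold Coch
    refine forall_congr' fun s => ?_
    rw [h (Set.range s) (Set.range_nonempty s)]
  cases j with
  | zero =>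
    intro c hc hdc
    exact hj c ((hC c).1 hc) hdc
  | succ j =>
    intro c hc hdc
    obtain ⟨b, hb, hbc⟩ := hj c ((hC c).1 hc) hdc
    exact ⟨b, (hC b).2 hb, hbc⟩

variable {κ : Type u} [Field κ] {m : ℕ} (p : ℕ) [hp : Fact p.Prime] [CharP κ p] [PerfectRing κ p]

include p hp in
/-- If the cohomology of the exact forms killed by `dF ∧` vanishes, the smooth hypersurface `F = 0` is
integral and ordinary in the sense of Bloch and Kato. -/
theorem isBK (hm : 2 < m) (hmp : m < p) {d : ℕ} (hd : 2 ≤ d) (hpd : ¬ p ∣ d)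
    {F : MvPolynomial (Fin m) κ} (hF : F.IsHomogeneous d) (hs : Smooth F)
    (H : ∀ i j : ℕ, HZero (fun I => (BK F d (i + 2) I).toAddSubgroup) j) :
    ∃ _ : (Ideal.span {F}).IsPrime, IsBKOrdinary F := by
  have hm0 : 0 < m := by omega
  have hprime : (Ideal.span {F}).IsPrime := prime_of_smooth p hm (by omega) hpd hF hs
  have hF0 : F ≠ 0 := ne_zero_of_smooth hm0 hs
  refine ⟨hprime, ?_⟩
  intro q j
  have hx : ∀ i, xx F i ≠ 0 := xx_ne_zero F hd hF
  have o : Fin m := ⟨0, hm0⟩
  refine HZero_congr (fun I hI => (BO_eq F p hmp hx o q hI).symm) ?_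
  refine res_HZero p ((PsiD (yu F hx o)).toAddMonoidHom) hpd hF hF0 hs hm0
    (fun x => PsiD_F F hF hx o x) (fun x => PsiD_dF F hF hx o x) ?_ q j (H q j)
  intro I q' k hI hk hc hΨ
  exact ker_X F p hmp hF hF0 hs hx o hI hk hc hΨ

end MPadcBK
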