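import Pool.Agent.Lib.MP_adc574_ag_BK.BKDefs
import Pool.Agent.Lib.MP_adc574_ag_BK.LitI

/-!
# The definition with a generic point
-/

set_option autoImplicit false

namespace MPadcBK

open MvPolynomial

universe u

variable {κ : Type u} [Field κ] {m : ℕ} (F : MvPolynomial (Fin m) κ)

private theorem litj_aeval (P : MvPolynomial (Fin m) κ) :
    aeval (xx F) P = algebraMap (MvPolynomial (Fin m) κ ⧸ Ideal.span {F}) (Cone F)
      (Ideal.Quotient.mk (Ideal.span {F}) P) := by
  induction P using MvPolynomial.induction_on with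
  | C a =>
    rw [aeval_C]
    rfl
  | add p q hp hq => rw [map_add, map_add, map_add, hp, hq]
  | mul_X p i hp => rw [map_mul, map_mul, map_mul, hp, aeval_X]; rfl

private theorem litj_hom {K : Type*} [Field K] [Algebra κ K] (x : Fin m → K) (c : K) {N : ℕ}
    {P : MvPolynomial (Fin m) κ} (hP : P.IsHomogeneous N) :
    aeval (fun i => c * x i) P = c ^ N * aeval x P := by
  have h1 : ∀ e ∈ P.support, ∑ i, e i = N := by
    intro e he
    have h2 := hP (mem_support_iff.mp he)
    rw [Finsupp.weight_apply, Finsupp.sum_fintype _ _ (by simp)] at h2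
    simpa using h2
  rw [aeval_def, aeval_def, eval₂_eq', eval₂_eq', Finset.mul_sum]
  refine Finset.sum_congr rfl fun e he => ?_
  rw [← h1 e he]
  simp only [mul_pow, Finset.prod_mul_distrib, Finset.prod_pow_eq_pow_sum]
  ring

variable [hprime : (Ideal.span {F}).IsPrime]

theorem isBlochKatoOrdinary_of (hm : 0 < m) (hx : ∀ i, xx F i ≠ 0) (H : IsBKOrdinary F) :
    IsBlochKatoOrdinary F := by
  let o : Fin m := ⟨0, hm⟩
  have hmem : ∀ i j, xx F i / xx F j ∈ FF F := fun i j =>
    IntermediateField.subset_adjoin κ _ ⟨i, j, rfl⟩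
  let y : Fin m → FF F := fun i => ⟨xx F i / xx F o, hmem i o⟩
  have hy : ∀ i, (y i : Cone F) = xx F i / xx F o := fun i => rfl
  have hq : ∀ i j, ((y i / y j : FF F) : Cone F) = xx F i / xx F j := by
    intro i j
    rw [IntermediateField.coe_div, hy, hy, div_div_div_cancel_right₀ (hx o)]
  refine ⟨FF F, inferInstance, inferInstance, y, ⟨⟨o, ?_⟩, ?_, ?_⟩, ?_⟩
  · intro h0
    have h1 := congrArg (fun z : FF F => (z : Cone F)) h0
    change xx F o / xx F o = ((0 : FF F) : Cone F) at h1
    rw [div_self (hx o), IntermediateField.coe_zero] at h1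
    exact one_ne_zero h1
  · intro N P hP
    have h1 : ((aeval y P : FF F) : Cone F) = aeval (fun i => (xx F o)⁻¹ * xx F i) P := by
      have h2 : (FF F).val (aeval y P) = aeval (fun i => (FF F).val (y i)) P :=
        MvPolynomial.comp_aeval_apply y (FF F).val P
      have h3 : (fun i => (FF F).val (y i)) = fun i => (xx F o)⁻¹ * xx F i := by
        funext i
        change xx F i / xx F o = _
        rw [div_eq_mul_inv, mul_comm]
      rw [h3] at h2
      exact h2
    rw [litj_hom (xx F) (xx F o)⁻¹ hP, litj_aeval] at h1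
    have h0 : (aeval y P = 0) ↔ ((aeval y P : FF F) : Cone F) = 0 := by
      rw [← IntermediateField.coe_zero (FF F), Subtype.coe_inj]
    rw [h0, h1, mul_eq_zero, or_iff_right (pow_ne_zero _ (inv_ne_zero (hx o))),
      map_eq_zero_iff _ (IsFractionRing.injective (MvPolynomial (Fin m) κ ⧸ Ideal.span {F}) (Cone F)),
      Ideal.Quotient.eq_zero_iff_mem, Ideal.mem_span_singleton]
  · have h1 : ∀ z (hz : z ∈ FF F), (⟨z, hz⟩ : FF F) ∈
        IntermediateField.adjoin κ {z : FF F | ∃ i j, z = y i / y j} := by
      intro z hz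
      unfold FF at hz
      induction hz using IntermediateField.adjoin_induction with
      | mem z hz =>
        obtain ⟨i, j, rfl⟩ := hz
        refine IntermediateField.subset_adjoin κ _ ⟨i, j, ?_⟩
        exact Subtype.ext (hq i j).symm
      | algebraMap a => exact IntermediateField.algebraMap_mem _ a
      | add x y hx hy h1 h2 => exact add_mem h1 h2
      | inv x hx h1 => exact inv_mem h1
      | mul x y hx hy h1 h2 => exact mul_mem h1 h2
    rw [eq_top_iff]
    intro z _
    exact h1 z.1 z.2
  · intro q j
    have h1 : exactFormsOn κ y q = BO F q := by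
      funext I
      unfold exactFormsOn exactForms BO regularFunctions wedgeD
      have h2 : {z : FF F | ∃ j, ∃ i ∈ I, z = y j / y i} =
          {z : FF F | ∃ j, ∃ i ∈ I, (z : Cone F) = xx F j / xx F i} := by
        ext z
        refine exists_congr fun j => exists_congr fun i => and_congr_right fun _ => ?_
        rw [← hq, Subtype.coe_inj]
      rw [h2]
      rfl
    rw [h1]
    exact H q j

end MPadcBK
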