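import Pool.Agent.Lib.MP_adc574_ag_BK.FinG2
import Pool.Agent.Lib.MP_adc574_ag_BK.KeyB
import Pool.Agent.Lib.MP_adc574_ag_BK.LitJ
import Pool.Agent.Lib.MP_adc574_ag_LZ.FinZ

/-!
# Lefschetz pencils: the final assembly
-/

set_option autoImplicit false

namespace MPadcBK

open MvPolynomial MPadcGM MPadcHM MPadcLZ

universe u

/-- A polynomial over a field comes from a finitely generated subring. -/
theorem exists_coeffR {κ : Type u} [Field κ] {m : ℕ} (G H : MvPolynomial (Fin m) κ) :
    ∃ (R : Subalgebra ℤ κ) (_ : R.FG) (GR HR : MvPolynomial (Fin m) R),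
      GR.map (algebraMap R κ) = G ∧ HR.map (algebraMap R κ) = H := by
  classical
  let s : Finset κ := G.support.image (fun e => coeff e G) ∪ H.support.image (fun e => coeff e H)
  let R : Subalgebra ℤ κ := Algebra.adjoin ℤ (s : Set κ)
  have hG : ∀ e, coeff e G ∈ R := by
    intro e
    by_cases he : e ∈ G.support
    · exact Algebra.subset_adjoin (Finset.mem_coe.2 (Finset.mem_union_left _ (Finset.mem_image_of_mem _ he)))
    · rw [notMem_support_iff.1 he]
      exact R.zero_mem
  have hH : ∀ e, coeff e H ∈ R := by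
    intro e
    by_cases he : e ∈ H.support
    · exact Algebra.subset_adjoin (Finset.mem_coe.2 (Finset.mem_union_right _ (Finset.mem_image_of_mem _ he)))
    · rw [notMem_support_iff.1 he]
      exact R.zero_mem
  refine ⟨R, ⟨s, rfl⟩, ∑ e ∈ G.support, monomial e ⟨coeff e G, hG e⟩,
    ∑ e ∈ H.support, monomial e ⟨coeff e H, hH e⟩, ?_, ?_⟩
  · rw [map_sum]
    conv_rhs => rw [G.as_sum]
    refine Finset.sum_congr rfl fun e _ => ?_
    rw [map_monomial]
    rfl
  · rw [map_sum]
    conv_rhs => rw [H.as_sum]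
    refine Finset.sum_congr rfl fun e _ => ?_
    rw [map_monomial]
    rfl

private theorem finl_dg {m : ℕ} {R : Type*} [CommRing R] {d : ℕ} {P : MvPolynomial (Fin m) R} :
    P.IsHomogeneous d ↔ Hm d P := by
  constructor
  · intro h e he
    have h2 := h (mem_support_iff.mp he)
    rw [Finsupp.weight_apply, Finsupp.sum_fintype _ _ (by simp)] at h2
    unfold dg
    simpa using h2
  · intro h e he
    have h2 := h e (mem_support_iff.mpr he)
    rw [Finsupp.weight_apply, Finsupp.sum_fintype _ _ (by simp)]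
    unfold dg at h2
    simpa using h2

private theorem finl_hom {R : Type u} [CommRing R] {m d : ℕ} {G H : MvPolynomial (Fin m) R}
    (hG : G.IsHomogeneous d) (hH : H.IsHomogeneous d) :
    (G.map Polynomial.C - C Polynomial.X * H.map Polynomial.C : MvPolynomial (Fin m)
      (Polynomial R)).IsHomogeneous d := by
  refine (hG.map _).sub ?_
  have h1 := (isHomogeneous_C (Fin m) (Polynomial.X : Polynomial R)).mul
    (hH.map (Polynomial.C : R →+* Polynomial R))
  rwa [zero_add] at h1

theorem key_lefschetz {R : Type u} [CommRing R] [IsDomain R] [CharZero R] {m d : ℕ} (hm : 3 ≤ m)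
    (hd : 3 ≤ d) (G H : MvPolynomial (Fin m) R) (hG : G.IsHomogeneous d) (hH : H.IsHomogeneous d)
    {Ω : Type u} [Field Ω] [IsAlgClosed Ω] (j : R →+* Ω)
    (hj : Function.Injective j) (hs : ∀ x, (∀ i, eval x (pderiv i (H.map j)) = 0) → x = 0)
    (hL : IsLef (G.map j) (H.map j)) {κ : Type u} [Field κ] [CharZero κ] [IsAlgClosed κ]
    (ρ : R →+* κ) (hρ : Function.Injective ρ) :
    Key κ d ((G.map Polynomial.C - C Polynomial.X * H.map Polynomial.C).map (pred ρ)) := by
  have h1 := key_final hm hd G H (finl_dg.1 hG) (finl_dg.1 hH) j hj hs hL ρ hρ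
  exact key_of_keyHyp (by omega) (by omega) ((finl_hom hG hH).map (pred ρ)) h1

theorem pencilsL {k : Type u} [Field k] [CharZero k] (k₀ : Subfield k) (t : k)
    (ht : Transcendental k₀ t) {n : ℕ} (hn : 2 ≤ n) (d : ℕ) (hd : 3 ≤ d)
    (G H : MvPolynomial (Fin (n + 1)) k₀) (hG : G.IsHomogeneous d) (hH : H.IsHomogeneous d)
    (hs : ∀ x : Fin (n + 1) → AlgebraicClosure k₀,
      (∀ i, eval x (pderiv i (H.map (algebraMap k₀ (AlgebraicClosure k₀)))) = 0) → x = 0)
    (hL : IsLef (G.map (algebraMap k₀ (AlgebraicClosure k₀)))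
      (H.map (algebraMap k₀ (AlgebraicClosure k₀))))
    (A : Subalgebra ℤ k) (hA : A.FG) (F : MvPolynomial (Fin (n + 1)) A)
    (hF : F.map (algebraMap A k) = G.map (algebraMap k₀ k) - C t * H.map (algebraMap k₀ k))
    (b : A) (hb : b ≠ 0) :
    ∃ p₀ : ℕ, ∀ p : ℕ, p.Prime → p₀ < p →
      ∃ (κ : Type u) (_ : Field κ) (_ : Finite κ) (φ : A →+* κ), Function.Surjective φ ∧
        φ b ≠ 0 ∧ BKGood p d (F.map φ) := by
  obtain ⟨R, hR, GR, HR, rfl, rfl⟩ := exists_coeffR G H
  have hinj : Function.Injective (algebraMap R k₀) := FaithfulSMul.algebraMap_injective R k₀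
  have hGR : GR.IsHomogeneous d := by
    intro e he
    refine hG (d := e) ?_
    rw [coeff_map]
    exact fun h => he ((map_eq_zero_iff _ hinj).1 h)
  have hHR : HR.IsHomogeneous d := by
    intro e he
    refine hH (d := e) ?_
    rw [coeff_map]
    exact fun h => he ((map_eq_zero_iff _ hinj).1 h)
  let j : R →+* AlgebraicClosure k₀ := (algebraMap k₀ (AlgebraicClosure k₀)).comp (algebraMap R k₀)
  have hj : Function.Injective j := (algebraMap k₀ (AlgebraicClosure k₀)).injective.comp hinj
  have hmap : ∀ P : MvPolynomial (Fin (n + 1)) R,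
      (P.map (algebraMap R k₀)).map (algebraMap k₀ (AlgebraicClosure k₀)) = P.map j := by
    intro P
    rw [map_map]
  rw [hmap] at hs hL
  rw [hmap] at hL
  have hczR : CharZero R := (algebraMap R k₀).charZero
  obtain ⟨a, M, ha, hsm⟩ := smooth_final (by omega) hd GR HR (finl_dg.1 hGR) (finl_dg.1 hHR) j hj hL
  have hk : ∀ (κ : Type u) [Field κ] [CharZero κ] [IsAlgClosed κ] (ρ : R →+* κ),
      Function.Injective ρ →
      Key κ d ((GR.map Polynomial.C - C Polynomial.X * HR.map Polynomial.C).map (pred ρ)) := by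
    intro κ _ _ _ ρ hρ
    exact key_lefschetz (by omega) hd GR HR hGR hHR j hj hs hL ρ hρ
  refine pencils2 k₀ t ht hn d (by omega) R hR
    (GR.map Polynomial.C - C Polynomial.X * HR.map Polynomial.C) (finl_hom hGR hHR) a ha M hsm hk
    A hA F ?_ b hb
  rw [hF, map_sub, map_mul, map_C, map_map, map_map, map_map, map_map]
  have h1 : (Polynomial.eval₂RingHom ((algebraMap k₀ k).comp (algebraMap R k₀)) t).comp
      Polynomial.C = (algebraMap k₀ k).comp (algebraMap R k₀) := by
    apply RingHom.ext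
    intro r
    exact Polynomial.eval₂_C _ _
  have h2 : Polynomial.eval₂RingHom ((algebraMap k₀ k).comp (algebraMap R k₀)) t Polynomial.X =
      t := Polynomial.eval₂_X _ _
  rw [h1, h2]

end MPadcBK
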