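import Pool.Agent.Lib.MP_adc574_ag_BK.Ext

/-!
# JOB FoA: the ring of Laurent forms, products

Mathlib: `AddMonoidAlgebra.coeff_single_mul_apply`, `AddMonoidAlgebra.mapRingHom_single`, `AddMonoidAlgebra.induction_linear`,
`AddMonoidAlgebra.single_mul_single`. Everything is checked on monomials `AddMonoidAlgebra.single e a`.
-/

set_option autoImplicit false

namespace MPadcBK

open ExteriorAlgebra

universe u

variable {κ : Type u} [Field κ] {m : ℕ}

/-- A natural exponent as an integral one. -/
def ex (u : Fin m →₀ ℕ) : Ex m := fun i => (u i : ℤ)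

theorem fo_ext {x y : Fo κ m} (h : ∀ e, x.coeff e = y.coeff e) : x = y := by
  exact AddMonoidAlgebra.coeff_injective (Finsupp.ext h)

theorem coeff_mo_mul (e : Ex m) (x : Fo κ m) (e' : Ex m) :
    (mo e * x).coeff e' = x.coeff (e' - e) := by
  unfold mo
  rw [AddMonoidAlgebra.coeff_single_mul_apply, one_mul, neg_add_eq_sub]

theorem mo_add (a b : Ex m) : (mo (a + b) : Fo κ m) = mo a * mo b := by
  unfold mo
  rw [AddMonoidAlgebra.single_mul_single, one_mul]

theorem mo_zero : (mo 0 : Fo κ m) = 1 := by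
  rfl

theorem mo_neg_mul (a : Ex m) (x : Fo κ m) : mo (-a) * (mo a * x) = x := by
  rw [← mul_assoc, ← mo_add, neg_add_cancel, mo_zero, one_mul]

theorem mo_mul_comm (e : Ex m) (x : Fo κ m) : mo e * x = x * mo e := by
  refine fo_ext fun e' => ?_
  unfold mo
  rw [AddMonoidAlgebra.coeff_single_mul_apply, AddMonoidAlgebra.coeff_mul_single_apply, one_mul,
    mul_one, add_comm]

theorem fn_mul_comm (f : Fn κ m) (x : Fo κ m) : fn f * x = x * fn f := by
  refine AddMonoidAlgebra.induction_linear f ?_ ?_ ?_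
  · rw [map_zero, zero_mul, mul_zero]
  · intro f g hf hg
    rw [map_add, add_mul, mul_add, hf, hg]
  · intro e a
    refine fo_ext fun e' => ?_
    unfold fn
    rw [AddMonoidAlgebra.mapRingHom_single, AddMonoidAlgebra.coeff_single_mul_apply,
      AddMonoidAlgebra.coeff_mul_single_apply, add_comm (-e) e', Algebra.commutes]

theorem fn_single (e : Ex m) (a : κ) : fn (AddMonoidAlgebra.single e a : Fn κ m) = a • mo e := by
  unfold fn mo
  rw [AddMonoidAlgebra.mapRingHom_single, AddMonoidAlgebra.smul_single,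
    Algebra.algebraMap_eq_smul_one]

theorem FD_zero_iff {x : Fo κ m} : x ∈ FD (κ := κ) (m := m) 0 ↔ ∃ f : Fn κ m, x = fn f := by
  constructor
  · intro hx
    have h1 : ∀ e, ∃ a : κ, x.coeff e = algebraMap κ (Lam κ m) a := fun e => mem_zero_iff.1 (hx e)
    choose a ha using h1
    have h0 : ∀ e, a e ≠ 0 → e ∈ x.coeff.support := by
      intro e he
      rw [Finsupp.mem_support_iff]
      intro h
      refine he ?_
      rw [ha e] at h
      exact (ExteriorAlgebra.algebraMap_eq_zero_iff (M := Fin m → κ) (a e)).1 h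
    refine ⟨.ofCoeff (Finsupp.onFinset x.coeff.support a h0), fo_ext fun e => ?_⟩
    unfold fn
    rw [AddMonoidAlgebra.coeff_mapRingHom, ha e]
    rfl
  · rintro ⟨f, rfl⟩ e
    refine mem_zero_iff.2 ⟨f.coeff e, ?_⟩
    unfold fn
    rw [AddMonoidAlgebra.coeff_mapRingHom]

theorem dd_coeff (x : Fo κ m) (e : Ex m) :
    (dd x).coeff e = ι κ (bar κ e) * x.coeff e := rfl

theorem cf_coeff (i : Fin m) (x : Fo κ m) (e : Ex m) : (cf i x).coeff e = cti i (x.coeff e) := rfl

theorem cfe_coeff (x : Fo κ m) (e : Ex m) : (cfe x).coeff e = cte (x.coeff e) := rfl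

end MPadcBK
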