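import Pool.Agent.Lib.MP_adc574_ag_BK.FoP

/-!
# JOB FoB: Leibniz rules

`FD 1`: all coefficients are of the form `ι v` (`⋀^1 = range ι`). Reduce to monomials `single e a` (`AddMonoidAlgebra.induction_linear`; for `x` in
`FD 1` write `x` as the sum of its monomials `single e (x.coeff e)`). For monomials: `bar (e + e') = bar e + bar e'`,
`ι (u + v) * (ι w * y) = ...`, `iota_comm`.
-/

set_option autoImplicit false

namespace MPadcBK

open ExteriorAlgebra

universe u

variable {κ : Type u} [Field κ] {m : ℕ}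

private theorem fob_single_coeff (e e' : Ex m) (a : Lam κ m) :
    (AddMonoidAlgebra.single e a : Fo κ m).coeff e' = if e = e' then a else 0 := by
  rw [AddMonoidAlgebra.coeff_single_apply]

private theorem fob_dd_single (e : Ex m) (a : Lam κ m) :
    dd (AddMonoidAlgebra.single e a : Fo κ m) = AddMonoidAlgebra.single e (ι κ (bar κ e) * a) := by
  apply fo_ext
  intro e'
  rw [dd_coeff, fob_single_coeff, fob_single_coeff]
  by_cases h : e = e'
  · subst h
    rw [if_pos rfl, if_pos rfl]
  · rw [if_neg h, if_neg h, mul_zero]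

private theorem fob_bar_add (e e' : Ex m) : bar κ (e + e') = bar κ e + bar κ e' := by
  funext i
  simp [bar]

private theorem fob_pow_one {x : Lam κ m} : x ∈ ⋀[κ]^1 (Fin m → κ) ↔ ∃ v, ι κ v = x := by
  show x ∈ (LinearMap.range (ι κ : (Fin m → κ) →ₗ[κ] Lam κ m)) ^ 1 ↔ _
  rw [pow_one]
  exact Iff.rfl

private theorem fob_single_mem (e : Ex m) (v : Fin m → κ) :
    (AddMonoidAlgebra.single e (ι κ v) : Fo κ m) ∈ FD (κ := κ) (m := m) 1 := by
  intro e'
  rw [fob_single_coeff]
  split_ifs
  · exact fob_pow_one.2 ⟨v, rfl⟩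
  · exact Submodule.zero_mem _

private theorem fob_ind {P : Fo κ m → Prop} (h0 : P 0)
    (h1 : ∀ (e : Ex m) (v : Fin m → κ), P (AddMonoidAlgebra.single e (ι κ v)))
    (h2 : ∀ x y, x ∈ FD (κ := κ) (m := m) 1 → y ∈ FD (κ := κ) (m := m) 1 → P x → P y → P (x + y))
    {y : Fo κ m} (hy : y ∈ FD (κ := κ) (m := m) 1) : P y := by
  classical
  have key : ∀ s : Finset (Ex m),
      (∑ e ∈ s, (AddMonoidAlgebra.single e (y.coeff e) : Fo κ m)) ∈ FD (κ := κ) (m := m) 1 ∧
        P (∑ e ∈ s, (AddMonoidAlgebra.single e (y.coeff e) : Fo κ m)) := by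
    intro s
    induction s using Finset.induction_on with
    | empty =>
      rw [Finset.sum_empty]
      exact ⟨Submodule.zero_mem _, h0⟩
    | insert a s ha ih =>
      rw [Finset.sum_insert ha]
      obtain ⟨v, hv⟩ := fob_pow_one.1 (hy a)
      rw [← hv]
      exact ⟨Submodule.add_mem _ (fob_single_mem a v) ih.1,
        h2 _ _ (fob_single_mem a v) ih.1 (h1 a v) ih.2⟩
  have h3 := (key y.coeff.support).2
  have h4 : (∑ e ∈ y.coeff.support, (AddMonoidAlgebra.single e (y.coeff e) : Fo κ m)) = y :=
    AddMonoidAlgebra.sum_coeff_single y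
  rwa [h4] at h3

private theorem fob_anti {y z : Fo κ m} (hy : y ∈ FD (κ := κ) (m := m) 1)
    (hz : z ∈ FD (κ := κ) (m := m) 1) (x : Fo κ m) : y * (z * x) = - (z * (y * x)) := by
  refine fob_ind (P := fun y => y * (z * x) = - (z * (y * x))) ?_ ?_ ?_ hy
  · rw [zero_mul, zero_mul, mul_zero, neg_zero]
  · intro e v
    refine fob_ind (P := fun z => (AddMonoidAlgebra.single e (ι κ v) : Fo κ m) * (z * x) =
      - (z * ((AddMonoidAlgebra.single e (ι κ v) : Fo κ m) * x))) ?_ ?_ ?_ hz
    · rw [zero_mul, zero_mul, mul_zero, neg_zero]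
    · intro e' w
      induction x using AddMonoidAlgebra.induction_linear with
      | zero => simp only [mul_zero, neg_zero]
      | add x y hx hy => rw [mul_add, mul_add, mul_add, mul_add, hx, hy, neg_add]
      | single e'' b =>
        rw [AddMonoidAlgebra.single_mul_single, AddMonoidAlgebra.single_mul_single,
          AddMonoidAlgebra.single_mul_single, AddMonoidAlgebra.single_mul_single,
          iota_comm v w b, AddMonoidAlgebra.single_neg, add_left_comm]
    · intro y z _ _ h1 h2
      rw [add_mul, mul_add, h1, h2, add_mul, neg_add]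
  · intro y z _ _ h1 h2
    rw [add_mul, add_mul, mul_add, h1, h2, neg_add]

private theorem fob_self (e : Ex m) (v : Fin m → κ) (x : Fo κ m) :
    (AddMonoidAlgebra.single e (ι κ v) : Fo κ m) *
      ((AddMonoidAlgebra.single e (ι κ v) : Fo κ m) * x) = 0 := by
  induction x using AddMonoidAlgebra.induction_linear with
  | zero => simp only [mul_zero]
  | add x y hx hy => rw [mul_add, mul_add, hx, hy, add_zero]
  | single e'' b =>
    rw [AddMonoidAlgebra.single_mul_single, AddMonoidAlgebra.single_mul_single, iota_self,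
      AddMonoidAlgebra.single_zero]

theorem dd_dd (x : Fo κ m) : dd (dd x) = 0 := by
  apply fo_ext
  intro e
  rw [dd_coeff, dd_coeff, iota_self]
  rfl

theorem dd_fn_mul (f : Fn κ m) (x : Fo κ m) : dd (fn f * x) = dd (fn f) * x + fn f * dd x := by
  induction f using AddMonoidAlgebra.induction_linear with
  | zero => rw [map_zero, zero_mul, map_zero, zero_mul, zero_mul, add_zero]
  | add f g hf hg =>
    rw [map_add, add_mul, map_add, hf, hg, map_add, add_mul, add_mul]
    abel
  | single e c =>
    induction x using AddMonoidAlgebra.induction_linear with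
    | zero => rw [mul_zero, map_zero, mul_zero, mul_zero, add_zero]
    | add x y hx hy =>
      rw [mul_add, map_add, hx, hy, map_add, mul_add, mul_add]
      abel
    | single e' b =>
      have h1 : (fn (AddMonoidAlgebra.single e c : Fn κ m) : Fo κ m) =
          AddMonoidAlgebra.single e (c • (1 : Lam κ m)) := by
        rw [fn_single]
        unfold mo
        rw [AddMonoidAlgebra.smul_single]
      rw [h1, AddMonoidAlgebra.single_mul_single, fob_dd_single, fob_dd_single, fob_dd_single,
        AddMonoidAlgebra.single_mul_single, AddMonoidAlgebra.single_mul_single,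
        ← AddMonoidAlgebra.single_add, fob_bar_add, map_add]
      simp only [smul_mul_assoc, one_mul, mul_smul_comm, mul_one, add_mul, smul_add]

theorem dd_pf_mul (F : MvPolynomial (Fin m) κ) (x : Fo κ m) :
    dd (pf F * x) = dd (pf F) * x + pf F * dd x := by
  unfold pf
  exact dd_fn_mul _ _

theorem ddfn_mem (f : Fn κ m) : dd (fn f) ∈ FD (κ := κ) (m := m) 1 := by
  intro e
  rw [dd_coeff]
  exact iota_mem _ ((FD_zero_iff.2 ⟨f, rfl⟩ : fn f ∈ FD (κ := κ) (m := m) 0) e)

theorem ddpf_mem (F : MvPolynomial (Fin m) κ) : dd (pf F) ∈ FD (κ := κ) (m := m) 1 := by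
  unfold pf
  exact ddfn_mem _

theorem dd_one_mul {y : Fo κ m} (hy : y ∈ FD (κ := κ) (m := m) 1) (x : Fo κ m) :
    dd (y * x) = dd y * x - y * dd x := by
  refine fob_ind (P := fun y => dd (y * x) = dd y * x - y * dd x) ?_ ?_ ?_ hy
  · rw [zero_mul, map_zero, zero_mul, zero_mul, sub_zero]
  · intro e v
    induction x using AddMonoidAlgebra.induction_linear with
    | zero => rw [mul_zero, map_zero, mul_zero, mul_zero, sub_zero]
    | add x y hx hy =>
      rw [mul_add, map_add, hx, hy, map_add, mul_add, mul_add]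
      abel
    | single e' b =>
      rw [AddMonoidAlgebra.single_mul_single, fob_dd_single, fob_dd_single, fob_dd_single,
        AddMonoidAlgebra.single_mul_single, AddMonoidAlgebra.single_mul_single,
        ← AddMonoidAlgebra.single_sub, fob_bar_add, map_add, add_mul,
        iota_comm (bar κ e') v b, mul_assoc, sub_eq_add_neg]
  · intro y z _ _ h1 h2
    rw [add_mul, map_add, h1, h2, map_add, add_mul, add_mul]
    abel

theorem one_mul_self {y : Fo κ m} (hy : y ∈ FD (κ := κ) (m := m) 1) (x : Fo κ m) :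
    y * (y * x) = 0 := by
  refine fob_ind (P := fun y => y * (y * x) = 0) ?_ ?_ ?_ hy
  · rw [zero_mul]
  · intro e v
    exact fob_self e v x
  · intro y z hy hz h1 h2
    rw [add_mul, add_mul, mul_add, mul_add, h1, h2, fob_anti hy hz]
    simp

theorem one_mul_anti {y z : Fo κ m} (hy : y ∈ FD (κ := κ) (m := m) 1)
    (hz : z ∈ FD (κ := κ) (m := m) 1) (x : Fo κ m) : y * (z * x) = - (z * (y * x)) := by
  exact fob_anti hy hz x

theorem dd_ddpf_mul (F : MvPolynomial (Fin m) κ) (x : Fo κ m) :
    dd (dd (pf F) * x) = - (dd (pf F) * dd x) := by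
  rw [dd_one_mul (ddpf_mem F), dd_dd, zero_mul, zero_sub]

/-- `D ^ 2 = 0`. -/
theorem DD_DD (F : MvPolynomial (Fin m) κ) (x : Fo κ m) : DD F (DD F x) = 0 := by
  unfold DD
  rw [map_sub, dd_dd, dd_ddpf_mul, mul_sub, one_mul_self (ddpf_mem F)]
  simp

theorem DD_add (F : MvPolynomial (Fin m) κ) (x y : Fo κ m) : DD F (x + y) = DD F x + DD F y := by
  unfold DD
  rw [map_add, mul_add]
  abel

theorem DD_sub (F : MvPolynomial (Fin m) κ) (x y : Fo κ m) : DD F (x - y) = DD F x - DD F y := by
  unfold DD
  rw [map_sub, mul_sub]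
  abel

theorem DD_neg (F : MvPolynomial (Fin m) κ) (x : Fo κ m) : DD F (-x) = - DD F x := by
  unfold DD
  rw [map_neg, mul_neg]
  abel

end MPadcBK
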