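import Pool.Agent.Lib.MP_adc574_ag_BK.FoB

/-!
# JOB FoC: contractions

`cf_one_mul`: coefficientwise `cti i (ι v * y) = v i • y - ι v * cti i y` (`cti_iota_mul`), reduce to monomials; `cj i x = mo (-Pi.single i 1) * cf i x`.
`cj_ddpf_mul`: `cf i (dd (pf F))` is the sum of the `F.coeff u • (u i : κ) • mo (ex u)`, and `mo (- Pi.single i 1) * ... = pf (pderiv i F)`
(terms with `u i = 0` vanish; `MvPolynomial.pderiv_monomial`). `cfe_ddpf_mul`: the sum of the `u i` is `d` on the support.
`euler`: coefficientwise `ι (bar e) * cte y + cte (ι (bar e) * y) = (∑ i, (e i : κ)) • y` and `tot e = t` where `x.coeff e ≠ 0`.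
-/

set_option autoImplicit false

namespace MPadcBK

open ExteriorAlgebra

universe u

variable {κ : Type u} [Field κ] {m : ℕ}


private theorem foc_cw_single (A : Ex m → Lam κ m →ₗ[κ] Lam κ m) (e : Ex m) (a : Lam κ m) :
    cw A (AddMonoidAlgebra.single e a) = AddMonoidAlgebra.single e (A e a) := by
  refine fo_ext fun e' => ?_
  rw [cw_coeff, AddMonoidAlgebra.coeff_single, AddMonoidAlgebra.coeff_single]
  by_cases h : e' = e
  · subst h
    rw [Finsupp.single_eq_same, Finsupp.single_eq_same]
  · rw [Finsupp.single_eq_of_ne h, Finsupp.single_eq_of_ne h, map_zero]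

private theorem foc_single_mul (e : Ex m) (b : Lam κ m) (x : Fo κ m) (e' : Ex m) :
    (AddMonoidAlgebra.single e b * x).coeff e' = b * x.coeff (e' - e) := by
  rw [AddMonoidAlgebra.coeff_single_mul_apply, neg_add_eq_sub]

private theorem foc_mo (A : Lam κ m →ₗ[κ] Lam κ m) (e : Ex m) (x : Fo κ m) :
    cw (fun _ => A) (mo e * x) = mo e * cw (fun _ => A) x := by
  refine fo_ext fun e' => ?_
  rw [cw_coeff, coeff_mo_mul, coeff_mo_mul, cw_coeff]

private theorem foc_fn (A : Lam κ m →ₗ[κ] Lam κ m) (f : Fn κ m) (x : Fo κ m) :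
    cw (fun _ => A) (fn f * x) = fn f * cw (fun _ => A) x := by
  induction f using AddMonoidAlgebra.induction_linear with
  | zero => rw [map_zero, zero_mul, zero_mul, map_zero]
  | add f g hf hg => rw [map_add, add_mul, add_mul, map_add, hf, hg]
  | single e a =>
    rw [fn_single, smul_mul_assoc, smul_mul_assoc, map_smul, foc_mo]

private theorem foc_ct_iota (φ v : Fin m → κ) :
    ct φ (ι κ v) = (∑ i, φ i * v i) • (1 : Lam κ m) := by
  have h := ct_iota_mul φ v (1 : Lam κ m)
  rw [mul_one, ct_one, mul_zero, sub_zero] at h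
  exact h

private theorem foc_sum (y : Fo κ m) :
    y = ∑ e ∈ y.coeff.support, (AddMonoidAlgebra.single e (y.coeff e) : Fo κ m) := by
  classical
  refine fo_ext fun e' => ?_
  rw [AddMonoidAlgebra.coeff_sum, Finsupp.finsetSum_apply]
  simp only [AddMonoidAlgebra.coeff_single]
  by_cases h : e' ∈ y.coeff.support
  · rw [Finset.sum_eq_single e']
    · rw [Finsupp.single_eq_same]
    · intro b _ hb
      rw [Finsupp.single_eq_of_ne (Ne.symm hb)]
    · intro h'
      exact absurd h h'
  · rw [Finset.sum_eq_zero]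
    · exact Finsupp.notMem_support_iff.mp h
    · intro b hb
      refine Finsupp.single_eq_of_ne ?_
      rintro rfl
      exact h hb

private theorem foc_one_single (φ : Fin m → κ) (e : Ex m) (v : Fin m → κ) (x : Fo κ m) :
    cw (fun _ => ct φ) (AddMonoidAlgebra.single e (ι κ v) * x) =
      cw (fun _ => ct φ) (AddMonoidAlgebra.single e (ι κ v)) * x -
        AddMonoidAlgebra.single e (ι κ v) * cw (fun _ => ct φ) x := by
  refine fo_ext fun e' => ?_
  rw [foc_cw_single, cw_coeff, foc_single_mul, AddMonoidAlgebra.coeff_sub, Finsupp.sub_apply,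
    foc_single_mul, foc_single_mul, cw_coeff, ct_iota_mul, foc_ct_iota, smul_mul_assoc, one_mul]

private theorem foc_one_mul (φ : Fin m → κ) {y : Fo κ m} (hy : y ∈ FD (κ := κ) (m := m) 1)
    (x : Fo κ m) :
    cw (fun _ => ct φ) (y * x) = cw (fun _ => ct φ) y * x - y * cw (fun _ => ct φ) x := by
  have hy' : ∀ e, ∃ v : Fin m → κ, ι κ v = y.coeff e := by
    intro e
    have h := hy e
    rw [ExteriorAlgebra.exteriorPower, pow_one] at h
    exact h
  have key : ∀ s : Finset (Ex m),
      cw (fun _ => ct φ) ((∑ e ∈ s, (AddMonoidAlgebra.single e (y.coeff e) : Fo κ m)) * x) =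
        cw (fun _ => ct φ) (∑ e ∈ s, (AddMonoidAlgebra.single e (y.coeff e) : Fo κ m)) * x -
          (∑ e ∈ s, (AddMonoidAlgebra.single e (y.coeff e) : Fo κ m)) * cw (fun _ => ct φ) x := by
    classical
    intro s
    induction s using Finset.induction_on with
    | empty => rw [Finset.sum_empty, zero_mul, zero_mul, map_zero, zero_mul, sub_zero]
    | insert a s ha ih =>
      rw [Finset.sum_insert ha, add_mul, map_add, ih, map_add, add_mul, add_mul]
      obtain ⟨v, hv⟩ := hy' a
      rw [← hv, foc_one_single]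
      abel
  have h := key y.coeff.support
  rwa [← foc_sum y] at h

private theorem foc_ct_dd_mo (φ : Fin m → κ) (e : Ex m) :
    cw (fun _ => ct φ) (dd (mo e : Fo κ m)) = (∑ i, φ i * (e i : κ)) • mo e := by
  unfold dd mo
  rw [foc_cw_single, foc_cw_single, LinearMap.mulLeft_apply, mul_one, foc_ct_iota,
    AddMonoidAlgebra.smul_single]
  rfl

private theorem foc_mo_swap (e : Ex m) (y z : Fo κ m) : mo e * (y * z) = y * (mo e * z) := by
  rw [← mul_assoc, mo_mul_comm e y, mul_assoc]

private theorem foc_pf_monomial (u : Fin m →₀ ℕ) (a : κ) :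
    (pf (MvPolynomial.monomial u a) : Fo κ m) = a • mo (ex u) := by
  rw [pf, pl_monomial, fn_single]

private theorem foc_sum_single (i : Fin m) (v : Fin m → κ) :
    ∑ j, (Pi.single i (1 : κ) : Fin m → κ) j * v j = v i := by
  classical
  rw [Finset.sum_eq_single i]
  · rw [Pi.single_eq_same, one_mul]
  · intro j _ hj
    rw [Pi.single_eq_of_ne hj, zero_mul]
  · intro h
    exact absurd (Finset.mem_univ i) h

private theorem foc_pderiv (i : Fin m) (F : MvPolynomial (Fin m) κ) :
    mo (-Pi.single i 1) * cf i (dd (pf F : Fo κ m)) = pf (MvPolynomial.pderiv i F) := by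
  classical
  induction F using MvPolynomial.induction_on' with
  | monomial u a =>
    rw [MvPolynomial.pderiv_monomial, foc_pf_monomial, foc_pf_monomial, map_smul, map_smul,
      mul_smul_comm]
    have h1 : cf i (dd (mo (ex u) : Fo κ m)) = ((u i : ℕ) : κ) • mo (ex u) := by
      have h2 := foc_ct_dd_mo (κ := κ) (Pi.single i 1) (ex u)
      rw [foc_sum_single i (fun j => ((ex u j : ℤ) : κ))] at h2
      have h3 : ((ex u i : ℤ) : κ) = ((u i : ℕ) : κ) := by
        unfold ex
        exact Int.cast_natCast _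
      rw [h3] at h2
      exact h2
    rw [h1, mul_smul_comm, ← mo_add, smul_smul]
    by_cases h : u i = 0
    · rw [h, Nat.cast_zero, mul_zero, zero_smul, zero_smul]
    · congr 2
      funext j
      unfold ex
      rw [Pi.add_apply, Pi.neg_apply, Finsupp.tsub_apply]
      by_cases hj : j = i
      · subst hj
        rw [Pi.single_eq_same, Finsupp.single_eq_same]
        have : 1 ≤ u j := Nat.one_le_iff_ne_zero.mpr h
        rw [Nat.cast_sub this]
        push_cast
        ring
      · rw [Pi.single_eq_of_ne hj, Finsupp.single_eq_of_ne hj]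
        simp
  | add p q hp hq => rw [pf_add, map_add, map_add, mul_add, hp, hq, map_add, pf_add]

theorem cf_fn_mul (i : Fin m) (f : Fn κ m) (x : Fo κ m) : cf i (fn f * x) = fn f * cf i x :=
  foc_fn (cti i) f x

theorem cf_one_mul (i : Fin m) {y : Fo κ m} (hy : y ∈ FD (κ := κ) (m := m) 1) (x : Fo κ m) :
    cf i (y * x) = cf i y * x - y * cf i x :=
  foc_one_mul (Pi.single i 1) hy x

theorem cj_pf_mul (i : Fin m) (F : MvPolynomial (Fin m) κ) (x : Fo κ m) :
    cj i (pf F * x) = pf F * cj i x := by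
  unfold cj pf
  rw [cf_fn_mul, foc_mo_swap]

theorem cj_mo_mul (i : Fin m) (e : Ex m) (x : Fo κ m) : cj i (mo e * x) = mo e * cj i x := by
  unfold cj cf
  rw [foc_mo, foc_mo_swap]

theorem cj_add (i : Fin m) (x y : Fo κ m) : cj i (x + y) = cj i x + cj i y := by
  unfold cj
  rw [map_add, mul_add]

theorem cj_smul (i : Fin m) (a : κ) (x : Fo κ m) : cj i (a • x) = a • cj i x := by
  unfold cj
  rw [map_smul, mul_smul_comm]

theorem cj_cj (i : Fin m) (x : Fo κ m) : cj i (cj i x) = 0 := by
  unfold cj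
  have h1 : cf i (mo (-Pi.single i 1) * cf i x) = mo (-Pi.single i 1) * cf i (cf i x) := by
    unfold cf
    exact foc_mo _ _ _
  have h2 : cf i (cf i x) = 0 := by
    refine fo_ext fun e => ?_
    rw [cf_coeff, cf_coeff, cti, ct_ct]
    rfl
  rw [h1, h2, mul_zero, mul_zero]

/-- The contraction of `dF ∧ x` with `∂_i`. -/
theorem cj_ddpf_mul (i : Fin m) (F : MvPolynomial (Fin m) κ) (x : Fo κ m) :
    cj i (dd (pf F) * x) = pf (MvPolynomial.pderiv i F) * x - dd (pf F) * cj i x := by
  unfold cj
  rw [cf_one_mul i (ddpf_mem F), mul_sub, ← mul_assoc, foc_pderiv, foc_mo_swap]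

theorem cfe_fn_mul (f : Fn κ m) (x : Fo κ m) : cfe (fn f * x) = fn f * cfe x :=
  foc_fn cte f x

theorem cfe_one_mul {y : Fo κ m} (hy : y ∈ FD (κ := κ) (m := m) 1) (x : Fo κ m) :
    cfe (y * x) = cfe y * x - y * cfe x :=
  foc_one_mul (fun _ => 1) hy x

theorem cfe_cfe (x : Fo κ m) : cfe (cfe x) = 0 := by
  refine fo_ext fun e => ?_
  rw [cfe_coeff, cfe_coeff, cte, ct_ct]
  rfl

/-- The contraction of `dF ∧ x` with the Euler field. -/
theorem cfe_ddpf_mul {d : ℕ} {F : MvPolynomial (Fin m) κ} (hF : F.IsHomogeneous d) (x : Fo κ m) :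
    cfe (dd (pf F) * x) = (d : κ) • (pf F * x) - dd (pf F) * cfe x := by
  rw [cfe_one_mul (ddpf_mem F)]
  have h1 : cfe (dd (pf F : Fo κ m)) = (d : κ) • pf F := by
    rw [pf_eq_sum, map_sum, map_sum, Finset.smul_sum]
    refine Finset.sum_congr rfl fun u hu => ?_
    have h2 : cfe (dd (mo (ex u) : Fo κ m)) = (d : κ) • mo (ex u) := by
      have h3 := foc_ct_dd_mo (κ := κ) (fun _ => 1) (ex u)
      have h4 : ∑ i, (1 : κ) * ((ex u i : ℤ) : κ) = (d : κ) := by
        have h5 : ∑ i, u i = d := by
          have h6 := hF (MvPolynomial.mem_support_iff.mp hu)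
          rw [Finsupp.weight_apply] at h6
          rw [← h6, Finsupp.sum_fintype]
          · simp
          · intro i
            simp
        rw [← h5, Nat.cast_sum]
        refine Finset.sum_congr rfl fun i _ => ?_
        unfold ex
        rw [one_mul, Int.cast_natCast]
      rw [h4] at h3
      exact h3
    rw [map_smul, map_smul, h2, smul_comm]
  rw [h1, smul_mul_assoc]

/-- Cartan's formula for the Euler field. -/
theorem euler {t : ℤ} {x : Fo κ m} (hx : x ∈ TD (κ := κ) (m := m) {t}) :
    dd (cfe x) + cfe (dd x) = (t : κ) • x := by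
  refine fo_ext fun e => ?_
  rw [AddMonoidAlgebra.coeff_add, Finsupp.add_apply, dd_coeff, cfe_coeff, cfe_coeff, dd_coeff,
    cte_iota_mul, AddMonoidAlgebra.coeff_smul, Finsupp.smul_apply]
  by_cases h : tot e = t
  · have h1 : ∑ i, bar κ e i = (t : κ) := by
      rw [← h]
      unfold bar tot
      push_cast
      rfl
    rw [h1]
    abel
  · have h1 : x.coeff e = 0 := hx e (by simpa using h)
    rw [h1]
    simp

end MPadcBK
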