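import Pool.Agent.Lib.MP_adc574_ag_BK.FoA

/-!
# JOB FoP: polynomials as forms

`pl (monomial u a) = single (ex u) a` (`MvPolynomial.aeval_monomial`, `Finsupp.prod`, `AddMonoidAlgebra.single_pow`, products of singles);
`pf F = fn (pl F)`; `fn` is a ring homomorphism into the centre (`fn_mul_comm`). `pf_mul_eq_zero`: take a monomial order on `Ex m`, for
example the lexicographic order of `Fin m → ℤ` (`Lex`; addition is strictly monotone): if `x ≠ 0` the product of the leading
coefficients (scalar times nonzero element of the vector space `Lam`) is the coefficient of the sum of the leading exponents. Or: the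
coordinates of `x` in a basis of the vector space `Lam κ m` are Laurent polynomials over the field `κ`, and `AddMonoidAlgebra κ (Fin m → ℤ)`
has no zero divisors (`TwoUniqueSums`, `AddMonoidAlgebra.instNoZeroDivisors...`).
-/

set_option autoImplicit false

namespace MPadcBK

open ExteriorAlgebra

universe u

variable {κ : Type u} [Field κ] {m : ℕ}

private theorem fop_prod (u : Fin m →₀ ℕ) (s : Finset (Fin m)) :
    ∏ i ∈ s, (AddMonoidAlgebra.single (Pi.single i 1 : Ex m) (1 : κ)) ^ (u i) =
      AddMonoidAlgebra.single (∑ i ∈ s, (u i) • (Pi.single i 1 : Ex m)) (1 : κ) := by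
  classical
  induction s using Finset.induction_on with
  | empty =>
    rw [Finset.prod_empty, Finset.sum_empty]
    rfl
  | insert i s hi ih =>
    rw [Finset.prod_insert hi, Finset.sum_insert hi, ih, AddMonoidAlgebra.single_pow,
      AddMonoidAlgebra.single_mul_single, one_pow, one_mul]

private theorem fop_ex (u : Fin m →₀ ℕ) :
    ∑ i ∈ u.support, (u i) • (Pi.single i 1 : Ex m) = ex u := by
  funext j
  rw [Finset.sum_apply]
  have h : ∀ i : Fin m, ((u i) • (Pi.single i 1 : Ex m)) j = if j = i then (u i : ℤ) else 0 := by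
    intro i
    rw [Pi.smul_apply, Pi.single_apply]
    split_ifs with h
    · rw [nsmul_eq_mul, mul_one]
    · rw [smul_zero]
  rw [Finset.sum_congr rfl (fun i _ => h i), Finset.sum_ite_eq]
  split_ifs with hj
  · rfl
  · rw [Finsupp.notMem_support_iff] at hj
    show (0 : ℤ) = ((u j : ℕ) : ℤ)
    rw [hj]
    rfl

theorem pl_monomial (u : Fin m →₀ ℕ) (a : κ) :
    pl (MvPolynomial.monomial u a) = AddMonoidAlgebra.single (ex u) a := by
  unfold pl
  rw [MvPolynomial.aeval_monomial, Finsupp.prod, fop_prod, fop_ex, AddMonoidAlgebra.coe_algebraMap,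
    Function.comp_apply, AddMonoidAlgebra.single_mul_single, zero_add, mul_one]
  rfl

private theorem fop_pl_sum (F : MvPolynomial (Fin m) κ) :
    pl F = ∑ u ∈ F.support, (AddMonoidAlgebra.single (ex u) (F.coeff u) : Fn κ m) := by
  conv_lhs => rw [MvPolynomial.as_sum F]
  rw [map_sum]
  exact Finset.sum_congr rfl fun u _ => pl_monomial u _

theorem pf_eq_sum (F : MvPolynomial (Fin m) κ) :
    pf F = ∑ u ∈ F.support, (F.coeff u) • (mo (ex u) : Fo κ m) := by
  unfold pf
  rw [fop_pl_sum, map_sum]
  exact Finset.sum_congr rfl fun u _ => fn_single _ _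

theorem coeff_pf_mul (F : MvPolynomial (Fin m) κ) (x : Fo κ m) (e : Ex m) :
    (pf F * x).coeff e = ∑ u ∈ F.support, F.coeff u • x.coeff (e - ex u) := by
  rw [pf_eq_sum, Finset.sum_mul, AddMonoidAlgebra.coeff_sum, Finsupp.finsetSum_apply]
  refine Finset.sum_congr rfl ?_
  intro u _
  rw [smul_mul_assoc, AddMonoidAlgebra.coeff_smul, Finsupp.smul_apply, coeff_mo_mul]

theorem pf_mul (F G : MvPolynomial (Fin m) κ) : (pf (F * G) : Fo κ m) = pf F * pf G := by
  unfold pf
  rw [map_mul, map_mul]

theorem pf_add (F G : MvPolynomial (Fin m) κ) : (pf (F + G) : Fo κ m) = pf F + pf G := by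
  unfold pf
  rw [map_add, map_add]

theorem pf_neg (F : MvPolynomial (Fin m) κ) : (pf (-F) : Fo κ m) = - pf F := by
  unfold pf
  rw [map_neg, map_neg]

theorem pf_one : (pf 1 : Fo κ m) = 1 := by
  unfold pf
  rw [map_one, map_one]

theorem pf_zero : (pf 0 : Fo κ m) = 0 := by
  unfold pf
  rw [map_zero, map_zero]

theorem pf_pow (F : MvPolynomial (Fin m) κ) (k : ℕ) : (pf (F ^ k) : Fo κ m) = pf F ^ k := by
  unfold pf
  rw [map_pow, map_pow]

theorem pf_sum {ι : Type*} (s : Finset ι) (F : ι → MvPolynomial (Fin m) κ) :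
    (pf (∑ i ∈ s, F i) : Fo κ m) = ∑ i ∈ s, pf (F i) := by
  unfold pf
  rw [map_sum, map_sum]

theorem pf_smul (a : κ) (F : MvPolynomial (Fin m) κ) : (pf (a • F) : Fo κ m) = a • pf F := by
  have h0 : ex (0 : Fin m →₀ ℕ) = 0 := rfl
  have h1 : (pf (MvPolynomial.monomial 0 a) : Fo κ m) = a • 1 := by
    unfold pf
    rw [pl_monomial, fn_single, h0, mo_zero]
  have h2 : a • F = MvPolynomial.monomial 0 a * F := by
    rw [← MvPolynomial.C_apply, MvPolynomial.smul_eq_C_mul]
  rw [h2, pf_mul, h1, smul_mul_assoc, one_mul]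

theorem pf_mul_comm (F : MvPolynomial (Fin m) κ) (x : Fo κ m) : pf F * x = x * pf F :=
  fn_mul_comm _ _

private theorem fop_ex_inj {u v : Fin m →₀ ℕ} (h : ex u = ex v) : u = v := by
  ext i
  have := congrFun h i
  exact Int.natCast_inj.1 this

private theorem fop_pl_ne {F : MvPolynomial (Fin m) κ} (hF : F ≠ 0) : pl F ≠ 0 := by
  classical
  intro h
  apply hF
  ext u
  have h1 : (pl F).coeff (ex u) = F.coeff u := by
    rw [fop_pl_sum, AddMonoidAlgebra.coeff_sum, Finsupp.finsetSum_apply]
    have h2 : ∀ v ∈ F.support, (AddMonoidAlgebra.single (ex v) (F.coeff v) : Fn κ m).coeff (ex u) =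
        if u = v then F.coeff v else 0 := by
      intro v _
      rw [AddMonoidAlgebra.coeff_single, Finsupp.single_apply]
      by_cases huv : u = v
      · rw [if_pos huv, if_pos (by rw [huv])]
      · rw [if_neg huv, if_neg (fun h' => huv (fop_ex_inj h').symm)]
    rw [Finset.sum_congr rfl h2, Finset.sum_ite_eq]
    split_ifs with hu
    · rfl
    · exact (MvPolynomial.notMem_support_iff.1 hu).symm
  rw [h] at h1
  rw [← h1]
  rfl

private theorem fop_coeff_pl_mul (F : MvPolynomial (Fin m) κ) (y : Fn κ m) (e : Ex m) :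
    (pl F * y).coeff e = ∑ u ∈ F.support, F.coeff u * y.coeff (e - ex u) := by
  rw [fop_pl_sum, Finset.sum_mul, AddMonoidAlgebra.coeff_sum, Finsupp.finsetSum_apply]
  refine Finset.sum_congr rfl ?_
  intro u _
  rw [AddMonoidAlgebra.coeff_single_mul_apply, neg_add_eq_sub]

/-- Functions have no zero divisors. -/
theorem pf_mul_eq_zero {F : MvPolynomial (Fin m) κ} (hF : F ≠ 0) {x : Fo κ m}
    (h : pf F * x = 0) : x = 0 := by
  refine fo_ext ?_
  intro e
  show x.coeff e = 0
  refine (Module.forall_dual_apply_eq_zero_iff κ (x.coeff e)).1 ?_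
  intro φ
  let y : Fn κ m := AddMonoidAlgebra.ofCoeff (Finsupp.mapRange φ (map_zero φ) x.coeff)
  have hy : ∀ e', y.coeff e' = φ (x.coeff e') := fun e' => rfl
  have h1 : pl F * y = 0 := by
    apply AddMonoidAlgebra.coeff_injective
    ext e'
    show (pl F * y).coeff e' = 0
    rw [fop_coeff_pl_mul]
    have h2 := congrArg (fun z : Fo κ m => φ (z.coeff e')) h
    have h3 : φ ((pf F * x).coeff e') = 0 := by
      have h4 : φ ((pf F * x).coeff e') = φ ((0 : Fo κ m).coeff e') := h2
      rw [h4]
      exact map_zero φ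
    rw [coeff_pf_mul, map_sum] at h3
    rw [← h3]
    refine Finset.sum_congr rfl ?_
    intro u _
    rw [map_smul, hy, smul_eq_mul]
  have h5 : y = 0 := (mul_eq_zero.1 h1).resolve_left (fop_pl_ne hF)
  rw [← hy, h5]
  rfl

end MPadcBK
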