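import Pool.Agent.Lib.MP_adc574_ag_BK.CData
import Pool.Agent.Lib.MP_adc574_ag_HM.MilDefs
import Pool.Agent.Lib.MP_adc574_ag_HM.PAff
import Pool.Agent.Lib.MP_adc574_ag_HM.PQS
import Pool.Agent.Lib.MP_adc574_ag_HM.KosC

/-!
# JOB FreeX: `κ[x_0, …, x_n] / (∂_1 Φ, …, ∂_n Φ)` is free over `κ[x_0]`

`Φ` homogeneous of degree `d`, `g = bdr Φ = Φ(0, x_1, …, x_n)`, `U` a Milnor basis for `g` (`IsMB`, weights 1; `wt (fun _ => 1) e = ∑ e i`). `mx N u = x_0^(N - |u|) x^u` (exponent `Finsupp.cons (N - |u|) u`).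
`bdr (∂_{j+1} Φ) = ∂_j g` (`bdr_pderiv`).
* `free_span`: strong induction on the tail degree `|e.tail|`. `x^(e.tail) = ∑ c_u x^u + ∑ Q_j ∂_j g` in `n` variables, where one may assume the `Q_j` homogeneous of degree `|e.tail| - (d-1)`. Multiply (after `rename Fin.succ`) by `x_0^(e 0)`: `x^e = ∑ c_u x_0^(e 0) x^u + ∑ x_0^(e 0) Q_j ∂_{j+1} Φ - ∑ x_0^(e 0) Q_j (∂_{j+1} Φ - rename (∂_j g))`,
  and `∂_{j+1} Φ - rename succ (∂_j g)` is divisible by `x_0` (its monomials have `e 0 ≥ 1`) and homogeneous, so the last sum is a combination of monomials of the same total degree and smaller tail degree.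
* `free_ind`: by induction on `N`. `P = ∑_{u ∈ U, |u| ≤ N} c_u x_0^(N-|u|) x^u = ∑_j Q_j ∂_{j+1} Φ`. Apply `bdr` (`x_0 = 0`): `∑_{|u| = N} c_u x^u = ∑ bdr Q_j ∂_j g ∈ Jac g`, so `c_u = 0` for `|u| = N` (`hU.ind`), and `∑ bdr Q_j ∂_j g = 0`. `koszul_mv` (`hM`): `bdr Q_j = ∑_i A j i ∂_i g`, `Asym A`.
  Put `Q'_j = Q_j - ∑_i (rename succ (A j i)) ∂_{i+1} Φ`: `∑ Q'_j ∂_{j+1} Φ = P` by antisymmetry, and `bdr Q'_j = 0`, so `Q'_j = x_0 Q''_j` (all monomials have `e 0 ≥ 1`). `P = x_0 P'` where `P' = ∑_{|u| ≤ N-1} c_u x_0^(N-1-|u|) x^u`, so `P' = ∑ Q''_j ∂_{j+1} Φ` and the induction hypothesis applies (for `N = 0` all `|u| = N`).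
-/

set_option autoImplicit false

namespace MPadcBK

open MvPolynomial MPadcGM MPadcHM

/-- `x_0 ^ (N - |u|) x ^ u`. -/
noncomputable def mx {n : ℕ} (N : ℕ) (u : Fin n →₀ ℕ) : Fin (n + 1) →₀ ℕ :=
  Finsupp.cons (N - ∑ i, u i) u

variable {κ : Type*} [Field κ] {n : ℕ}

private theorem freex_wt (e : Fin n →₀ ℕ) : wt (fun _ => 1) e = ∑ i, e i := by
  unfold wt
  exact Finset.sum_congr rfl fun i _ => one_mul _

private theorem freex_sum_cons (k : ℕ) (q : Fin n →₀ ℕ) :
    ∑ i, (Finsupp.cons k q : Fin (n + 1) →₀ ℕ) i = k + ∑ i, q i := by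
  rw [Fin.sum_univ_succ, Finsupp.cons_zero]
  exact congrArg (k + ·) (Finset.sum_congr rfl fun i _ => Finsupp.cons_succ i k q)

private theorem freex_cons_add (k l : ℕ) (p q : Fin n →₀ ℕ) :
    (Finsupp.cons k p + Finsupp.cons l q : Fin (n + 1) →₀ ℕ) = Finsupp.cons (k + l) (p + q) := by
  ext i
  refine Fin.cases ?_ (fun j => ?_) i
  · rw [Finsupp.add_apply, Finsupp.cons_zero, Finsupp.cons_zero, Finsupp.cons_zero]
  · rw [Finsupp.add_apply, Finsupp.cons_succ, Finsupp.cons_succ, Finsupp.cons_succ,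
      Finsupp.add_apply]

private theorem freex_single (k : ℕ) :
    (Finsupp.single 0 k : Fin (n + 1) →₀ ℕ) = Finsupp.cons k 0 := by
  ext i
  refine Fin.cases ?_ (fun j => ?_) i
  · rw [Finsupp.single_eq_same, Finsupp.cons_zero]
  · rw [Finsupp.cons_succ, Finsupp.single_apply, if_neg (Fin.succ_ne_zero j).symm]
    rfl

private theorem freex_rn (q : Fin n →₀ ℕ) (a : κ) :
    rename Fin.succ (monomial q a) = (monomial (Finsupp.cons 0 q) a : MvPolynomial (Fin (n + 1)) κ) := by
  rw [rename_monomial]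
  congr 2
  ext i
  refine Fin.cases ?_ (fun j => ?_) i
  · rw [Finsupp.cons_zero, Finsupp.mapDomain_of_notMem_range]
    rintro ⟨j, hj⟩
    exact Fin.succ_ne_zero j hj
  · rw [Finsupp.cons_succ, Finsupp.mapDomain_apply (Fin.succ_injective n)]

private theorem freex_X_pow (k : ℕ) (l : ℕ) (q : Fin n →₀ ℕ) (a : κ) :
    (X 0 : MvPolynomial (Fin (n + 1)) κ) ^ k * monomial (Finsupp.cons l q) a =
      monomial (Finsupp.cons (k + l) q) a := by
  rw [X_pow_eq_monomial, monomial_mul, one_mul, freex_single, freex_cons_add, zero_add]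

private theorem freex_bdr_mul (P Q : MvPolynomial (Fin (n + 1)) κ) :
    bdr (P * Q) = bdr P * bdr Q := by
  unfold bdr
  rw [map_mul]

private theorem freex_bdr_sum {ι : Type*} (s : Finset ι) (P : ι → MvPolynomial (Fin (n + 1)) κ) :
    bdr (∑ i ∈ s, P i) = ∑ i ∈ s, bdr (P i) := by
  unfold bdr
  rw [map_sum]

private theorem freex_bdr_sub (P Q : MvPolynomial (Fin (n + 1)) κ) :
    bdr (P - Q) = bdr P - bdr Q := by
  unfold bdr
  rw [map_sub]

private theorem freex_bdr_rn (P : MvPolynomial (Fin n) κ) :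
    bdr (rename Fin.succ P : MvPolynomial (Fin (n + 1)) κ) = P := by
  unfold bdr
  rw [aeval_rename]
  have h1 : ((Fin.cons 0 X : Fin (n + 1) → MvPolynomial (Fin n) κ) ∘ Fin.succ) = X := by
    funext i
    rw [Function.comp_apply, Fin.cons_succ]
  rw [h1, aeval_X_left]
  rfl

/-- the part of `P` which is divisible by `x_0` -/
private theorem freex_split (P : MvPolynomial (Fin (n + 1)) κ) :
    P = rename Fin.succ (bdr P) + ∑ f ∈ P.support with f 0 ≠ 0, monomial f (coeff f P) := by
  have h1 : ∀ f, (monomial f (coeff f P) : MvPolynomial (Fin (n + 1)) κ) =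
      rename Fin.succ (bdr (monomial f (coeff f P))) +
        if f 0 ≠ 0 then monomial f (coeff f P) else 0 := by
    intro f
    rw [bdr_monomial]
    by_cases h : f 0 = 0
    · rw [if_pos h, if_neg (not_not.2 h), freex_rn, add_zero]
      congr 2
      rw [← h, Finsupp.cons_tail]
    · rw [if_neg h, if_pos h, map_zero, zero_add]
  rw [Finset.sum_filter]
  conv_lhs => rw [P.as_sum]
  conv_rhs =>
    enter [1, 2, 1]
    rw [P.as_sum]
  rw [freex_bdr_sum, map_sum, ← Finset.sum_add_distrib]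
  exact Finset.sum_congr rfl fun f _ => h1 f

private theorem freex_div (P : MvPolynomial (Fin (n + 1)) κ) (h : bdr P = 0) :
    ∃ Q, P = X 0 * Q := by
  refine ⟨∑ f ∈ P.support with f 0 ≠ 0, monomial (f - Finsupp.single 0 1) (coeff f P), ?_⟩
  have h1 := freex_split P
  rw [h, map_zero, zero_add] at h1
  conv_lhs => rw [h1]
  rw [Finset.mul_sum]
  refine Finset.sum_congr rfl fun f hf => ?_
  have h2 : f 0 ≠ 0 := (Finset.mem_filter.1 hf).2
  have h3 : (X 0 : MvPolynomial (Fin (n + 1)) κ) = monomial (Finsupp.single 0 1) 1 := rfl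
  rw [h3, monomial_mul, one_mul]
  congr 2
  rw [add_tsub_cancel_of_le]
  rw [Finsupp.single_le_iff]
  exact Nat.one_le_iff_ne_zero.2 h2

/-- weights of the monomials of `∂_j Φ` -/
private theorem freex_pd {m d : ℕ} {F : MvPolynomial (Fin m) κ} (hF : F.IsHomogeneous d) (j : Fin m)
    (e : Fin m →₀ ℕ) (he : coeff e (pderiv j F) ≠ 0) : ∑ i, e i + 1 = d := by
  rw [coeff_pderiv] at he
  have h1 := hF (left_ne_zero_of_mul he)
  rw [Finsupp.weight_apply, Finsupp.sum_fintype _ _ (by simp)] at h1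
  simp only [Pi.one_apply, smul_eq_mul, mul_one, Finsupp.add_apply] at h1
  rw [Finset.sum_add_distrib] at h1
  have h2 : ∑ i, (Finsupp.single j 1 : Fin m →₀ ℕ) i = 1 := by
    rw [Finset.sum_eq_single j]
    · exact Finsupp.single_eq_same
    · intro k _ hk
      rw [Finsupp.single_apply, if_neg hk.symm]
    · intro h
      exact absurd (Finset.mem_univ j) h
  omega

private theorem freex_bdr_hom {d : ℕ} {Φ : MvPolynomial (Fin (n + 1)) κ}
    (hΦ : Φ.IsHomogeneous d) : (bdr Φ).IsHomogeneous d := by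
  intro b hb
  rw [coeff_bdr] at hb
  have h1 := hΦ hb
  rw [Finsupp.weight_apply, Finsupp.sum_fintype _ _ (by simp)] at h1 ⊢
  simp only [Pi.one_apply, smul_eq_mul, mul_one] at h1 ⊢
  rw [freex_sum_cons, zero_add] at h1
  exact h1

/-- the cofactors may be taken homogeneous -/
private theorem freex_cof {m d : ℕ} {F : MvPolynomial (Fin m) κ} (hF : F.IsHomogeneous d)
    (t : ℕ) (P : MvPolynomial (Fin m) κ) (hP : ∀ e, coeff e P ≠ 0 → ∑ i, e i = t)
    (hPJ : P ∈ Jac F) :
    ∃ Q : Fin m → MvPolynomial (Fin m) κ, (∀ j, ∀ e, coeff e (Q j) ≠ 0 → ∑ i, e i + d = t + 1) ∧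
      ∑ j, Q j * pderiv j F = P := by
  classical
  obtain ⟨Q, hQ⟩ := Ideal.mem_span_range_iff_exists_fun.1 hPJ
  have hQ' : ∀ j, ∀ e, coeff e (∑ f ∈ (Q j).support with ∑ i, f i + d = t + 1,
      monomial f (coeff f (Q j))) = if ∑ i, e i + d = t + 1 then coeff e (Q j) else 0 := by
    intro j e
    rw [coeff_sum]
    simp only [coeff_monomial]
    rw [Finset.sum_ite_eq']
    by_cases h1 : ∑ i, e i + d = t + 1
    · rw [if_pos h1]
      by_cases h2 : coeff e (Q j) = 0
      · rw [h2, ite_self]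
      · rw [if_pos]
        exact Finset.mem_filter.2 ⟨mem_support_iff.2 h2, h1⟩
    · rw [if_neg h1, if_neg]
      intro h2
      exact h1 (Finset.mem_filter.1 h2).2
  refine ⟨fun j => ∑ f ∈ (Q j).support with ∑ i, f i + d = t + 1,
      monomial f (coeff f (Q j)), ?_, ?_⟩
  · intro j e he
    rw [hQ'] at he
    by_contra h
    exact he (if_neg h)
  · have h0 : ∀ e, coeff e P = if ∑ i, e i = t then coeff e P else 0 := by
      intro e
      by_cases h1 : ∑ i, e i = t
      · rw [if_pos h1]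
      · rw [if_neg h1]
        by_contra h2
        exact h1 (hP e h2)
    ext e
    rw [h0 e, ← hQ, coeff_sum, coeff_sum]
    have hadd : ∀ x ∈ Finset.HasAntidiagonal.antidiagonal e, ∑ i, x.1 i + ∑ i, x.2 i = ∑ i, e i := by
      intro x hx
      rw [← Finset.sum_add_distrib, ← Finset.HasAntidiagonal.mem_antidiagonal.1 hx]
      exact Finset.sum_congr rfl fun i _ => rfl
    by_cases h1 : ∑ i, e i = t
    · rw [if_pos h1]
      refine Finset.sum_congr rfl fun j _ => ?_
      rw [coeff_mul, coeff_mul]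
      refine Finset.sum_congr rfl fun x hx => ?_
      rw [hQ']
      by_cases h2 : coeff x.2 (pderiv j F) = 0
      · rw [h2, mul_zero, mul_zero]
      · have h3 := freex_pd hF j _ h2
        have h4 := hadd x hx
        rw [if_pos (by omega)]
    · rw [if_neg h1]
      refine Finset.sum_eq_zero fun j _ => ?_
      rw [coeff_mul]
      refine Finset.sum_eq_zero fun x hx => ?_
      rw [hQ']
      by_cases h2 : coeff x.2 (pderiv j F) = 0
      · rw [h2, mul_zero]
      · have h3 := freex_pd hF j _ h2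
        have h4 := hadd x hx
        rw [if_neg (by omega), zero_mul]

/-- The ideal generated by `∂_1 Φ, …, ∂_n Φ`. -/
noncomputable def JT (Φ : MvPolynomial (Fin (n + 1)) κ) : Ideal (MvPolynomial (Fin (n + 1)) κ) :=
  Ideal.span (Set.range fun j : Fin n => pderiv j.succ Φ)

theorem free_span {d : ℕ} {Φ : MvPolynomial (Fin (n + 1)) κ} (hΦ : Φ.IsHomogeneous d)
    {U : Finset (Fin n →₀ ℕ)} (hU : IsMB (fun _ => 1) (bdr Φ) U) (e : Fin (n + 1) →₀ ℕ) :
    ∃ c : (Fin n →₀ ℕ) → κ,
      monomial e 1 - ∑ u ∈ U with ∑ i, u i ≤ ∑ i, e i, monomial (mx (∑ i, e i) u) (c u) ∈ JT Φ := by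
  classical
  have key : ∀ (N t : ℕ) (e : Fin (n + 1) →₀ ℕ), ∑ i, e i = N → ∑ i, e.tail i = t →
      ∃ c : (Fin n →₀ ℕ) → κ,
        monomial e 1 - ∑ u ∈ U with ∑ i, u i ≤ N, monomial (mx N u) (c u) ∈ JT Φ := by
    intro N t
    induction t using Nat.strong_induction_on with
    | _ t ih =>
    intro e heN het
    have hadd : ∀ P Q : MvPolynomial (Fin (n + 1)) κ,
        (∃ c : (Fin n →₀ ℕ) → κ,
          P - ∑ u ∈ U with ∑ i, u i ≤ N, monomial (mx N u) (c u) ∈ JT Φ) →
        (∃ c : (Fin n →₀ ℕ) → κ,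
          Q - ∑ u ∈ U with ∑ i, u i ≤ N, monomial (mx N u) (c u) ∈ JT Φ) →
        ∃ c : (Fin n →₀ ℕ) → κ,
          (P + Q) - ∑ u ∈ U with ∑ i, u i ≤ N, monomial (mx N u) (c u) ∈ JT Φ := by
      rintro P Q ⟨c, hc⟩ ⟨c', hc'⟩
      refine ⟨fun u => c u + c' u, ?_⟩
      have h1 : (P + Q) - ∑ u ∈ U with ∑ i, u i ≤ N, monomial (mx N u) (c u + c' u) =
          (P - ∑ u ∈ U with ∑ i, u i ≤ N, monomial (mx N u) (c u)) +
          (Q - ∑ u ∈ U with ∑ i, u i ≤ N, monomial (mx N u) (c' u)) := by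
        simp only [map_add, Finset.sum_add_distrib]
        ring
      rw [h1]
      exact Ideal.add_mem _ hc hc'
    have hsmul : ∀ (a : κ) (P : MvPolynomial (Fin (n + 1)) κ),
        (∃ c : (Fin n →₀ ℕ) → κ,
          P - ∑ u ∈ U with ∑ i, u i ≤ N, monomial (mx N u) (c u) ∈ JT Φ) →
        ∃ c : (Fin n →₀ ℕ) → κ,
          C a * P - ∑ u ∈ U with ∑ i, u i ≤ N, monomial (mx N u) (c u) ∈ JT Φ := by
      rintro a P ⟨c, hc⟩
      refine ⟨fun u => a * c u, ?_⟩
      have h1 : C a * P - ∑ u ∈ U with ∑ i, u i ≤ N, monomial (mx N u) (a * c u) =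
          C a * (P - ∑ u ∈ U with ∑ i, u i ≤ N, monomial (mx N u) (c u)) := by
        rw [mul_sub, Finset.mul_sum]
        simp only [C_mul_monomial]
      rw [h1]
      exact Ideal.mul_mem_left _ _ hc
    have hJ : ∀ P ∈ JT Φ, ∃ c : (Fin n →₀ ℕ) → κ,
          P - ∑ u ∈ U with ∑ i, u i ≤ N, monomial (mx N u) (c u) ∈ JT Φ := by
      intro P hP
      refine ⟨fun _ => 0, ?_⟩
      simp only [map_zero, Finset.sum_const_zero, sub_zero]
      exact hP
    have hsum : ∀ {ι : Type} (s : Finset ι) (P : ι → MvPolynomial (Fin (n + 1)) κ),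
        (∀ i ∈ s, ∃ c : (Fin n →₀ ℕ) → κ,
          P i - ∑ u ∈ U with ∑ i, u i ≤ N, monomial (mx N u) (c u) ∈ JT Φ) →
        ∃ c : (Fin n →₀ ℕ) → κ,
          (∑ i ∈ s, P i) - ∑ u ∈ U with ∑ i, u i ≤ N, monomial (mx N u) (c u) ∈ JT Φ := by
      intro ι s P
      induction s using Finset.induction_on with
      | empty =>
        intro _
        rw [Finset.sum_empty]
        exact hJ 0 (Ideal.zero_mem _)
      | insert i s his ihs =>
        intro h
        rw [Finset.sum_insert his]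
        exact hadd _ _ (h i (Finset.mem_insert_self i s))
          (ihs fun j hj => h j (Finset.mem_insert_of_mem hj))
    obtain ⟨c, hc, hcJ⟩ := hU.span e.tail
    obtain ⟨Q, hQ, hQs⟩ := freex_cof (freex_bdr_hom hΦ) t
      (monomial e.tail 1 - ∑ u ∈ U, monomial u (c u)) (by
        intro f hf
        rw [coeff_sub, coeff_sum] at hf
        simp only [coeff_monomial] at hf
        rw [Finset.sum_ite_eq'] at hf
        by_cases h1 : e.tail = f
        · rw [← h1]
          exact het
        · rw [if_neg h1] at hf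
          by_cases h2 : c f = 0
          · rw [h2, ite_self, sub_zero] at hf
            exact absurd rfl hf
          · have h3 := hc f h2
            rw [freex_wt, freex_wt, het] at h3
            exact h3) hcJ
    have h1 : (monomial e 1 : MvPolynomial (Fin (n + 1)) κ) =
        ∑ u ∈ U, monomial (Finsupp.cons (e 0) u) (c u) +
          ∑ j, ∑ q ∈ (Q j).support, monomial (Finsupp.cons (e 0) q) (coeff q (Q j)) *
            rename Fin.succ (pderiv j (bdr Φ)) := by
      have h2 : (monomial e 1 : MvPolynomial (Fin (n + 1)) κ) =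
          X 0 ^ (e 0) * rename Fin.succ (monomial e.tail 1) := by
        rw [freex_rn, freex_X_pow, add_zero, Finsupp.cons_tail]
      have h3 : (monomial e.tail 1 : MvPolynomial (Fin n) κ) =
          ∑ u ∈ U, monomial u (c u) + ∑ j, Q j * pderiv j (bdr Φ) := by
        rw [hQs]
        ring
      rw [h2, h3, map_add, map_sum, map_sum, mul_add, Finset.mul_sum, Finset.mul_sum]
      congr 1
      · refine Finset.sum_congr rfl fun u _ => ?_
        rw [freex_rn, freex_X_pow, add_zero]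
      · refine Finset.sum_congr rfl fun j _ => ?_
        rw [map_mul, ← mul_assoc, ← Finset.sum_mul]
        congr 1
        conv_lhs => rw [(Q j).as_sum]
        rw [map_sum, Finset.mul_sum]
        refine Finset.sum_congr rfl fun q _ => ?_
        rw [freex_rn, freex_X_pow, add_zero]
    have hN : e 0 + t = N := by
      rw [← heN, ← het, Fin.sum_univ_succ]
      rfl
    rw [h1]
    refine hadd _ _ ⟨c, ?_⟩ (hsum _ _ fun j _ => ?_)
    · have h2 : ∑ u ∈ U, monomial (Finsupp.cons (e 0) u) (c u) =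
          ∑ u ∈ U with ∑ i, u i ≤ N,
            (monomial (mx N u) (c u) : MvPolynomial (Fin (n + 1)) κ) := by
        rw [Finset.sum_filter]
        refine Finset.sum_congr rfl fun u _ => ?_
        by_cases h3 : c u = 0
        · rw [h3, monomial_zero, monomial_zero, ite_self]
        · have h4 := hc u h3
          rw [freex_wt, freex_wt, het] at h4
          rw [if_pos (by omega)]
          unfold mx
          have h5 : e 0 = N - ∑ i, u i := by omega
          rw [h5]
      rw [h2, sub_self]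
      exact Ideal.zero_mem _
    · have hq : ∀ q ∈ (Q j).support, ∃ c : (Fin n →₀ ℕ) → κ,
          monomial (Finsupp.cons (e 0) q) (coeff q (Q j)) *
            rename Fin.succ (pderiv j (bdr Φ)) -
            ∑ u ∈ U with ∑ i, u i ≤ N, monomial (mx N u) (c u) ∈ JT Φ := by
        intro q hq
        have hq1 := hQ j q (mem_support_iff.1 hq)
        have h3 := freex_split (pderiv j.succ Φ)
        rw [bdr_pderiv] at h3
        have h4 : rename Fin.succ (pderiv j (bdr Φ)) = pderiv j.succ Φ +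
            ∑ f ∈ (pderiv j.succ Φ).support with f 0 ≠ 0,
              monomial f (-coeff f (pderiv j.succ Φ)) := by
          simp only [map_neg, Finset.sum_neg_distrib]
          conv_rhs =>
            enter [1]
            rw [h3]
          ring
        rw [h4, mul_add, Finset.mul_sum]
        refine hadd _ _ (hJ _ (Ideal.mul_mem_left _ _ (Ideal.subset_span ⟨j, rfl⟩)))
          (hsum _ _ fun f hf => ?_)
        obtain ⟨hf1, hf2⟩ := Finset.mem_filter.1 hf
        have hf3 := freex_pd hΦ j.succ f (mem_support_iff.1 hf1)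
        have h5 : (monomial (Finsupp.cons (e 0) q) (coeff q (Q j)) *
            monomial f (-coeff f (pderiv j.succ Φ)) : MvPolynomial (Fin (n + 1)) κ) =
            C (coeff q (Q j) * (-coeff f (pderiv j.succ Φ))) *
              monomial (Finsupp.cons (e 0) q + f) 1 := by
          rw [monomial_mul, C_mul_monomial, mul_one]
        rw [h5]
        have h6 : ∑ i, (Finsupp.cons (e 0) q + f : Fin (n + 1) →₀ ℕ) i =
            e 0 + ∑ i, q i + ∑ i, f i := by
          simp only [Finsupp.add_apply]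
          rw [Finset.sum_add_distrib, freex_sum_cons]
        have h7 : ∑ i, f i = f 0 + ∑ i, f.tail i := by
          rw [Fin.sum_univ_succ]
          rfl
        have h8 : ∑ i, (Finsupp.cons (e 0) q + f : Fin (n + 1) →₀ ℕ).tail i =
            ∑ i, q i + ∑ i, f.tail i := by
          rw [← Finset.sum_add_distrib]
          refine Finset.sum_congr rfl fun i _ => ?_
          rw [Finsupp.tail_apply, Finsupp.add_apply, Finsupp.cons_succ, Finsupp.tail_apply]
        exact hsmul _ _ (ih (∑ i, q i + ∑ i, f.tail i) (by omega) _ (by omega) h8)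
      exact hsum _ _ hq
  exact key _ _ e rfl rfl

theorem free_ind {d : ℕ} {Φ : MvPolynomial (Fin (n + 1)) κ} (hΦ : Φ.IsHomogeneous d) {M : ℕ}
    (hM : ∀ i, (X i : MvPolynomial (Fin n) κ) ^ M ∈ Jac (bdr Φ))
    {U : Finset (Fin n →₀ ℕ)} (hU : IsMB (fun _ => 1) (bdr Φ) U) (N : ℕ)
    (c : (Fin n →₀ ℕ) → κ)
    (h : ∑ u ∈ U with ∑ i, u i ≤ N, monomial (mx N u) (c u) ∈ JT Φ) :
    ∀ u ∈ U, ∑ i, u i ≤ N → c u = 0 := by
  classical
  have key : ∀ (N : ℕ), ∑ u ∈ U with ∑ i, u i ≤ N, monomial (mx N u) (c u) ∈ JT Φ →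
      (∀ u ∈ U, ∑ i, u i = N → c u = 0) ∧ ∃ Q ∈ JT Φ,
        ∑ u ∈ U with ∑ i, u i ≤ N, monomial (mx N u) (c u) = X 0 * Q := by
    intro N h
    obtain ⟨Q, hQ⟩ := Ideal.mem_span_range_iff_exists_fun.1 h
    have h1 : ∑ j, bdr (Q j) * pderiv j (bdr Φ) =
        ∑ u ∈ U, monomial u (if ∑ i, u i = N then c u else 0) := by
      have h2 := congrArg bdr hQ
      rw [freex_bdr_sum, freex_bdr_sum, Finset.sum_filter] at h2
      have h3 : ∀ j, bdr (Q j * pderiv j.succ Φ) = bdr (Q j) * pderiv j (bdr Φ) := by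
        intro j
        rw [freex_bdr_mul, bdr_pderiv]
      rw [Finset.sum_congr rfl fun j _ => h3 j] at h2
      rw [h2]
      refine Finset.sum_congr rfl fun u _ => ?_
      rw [bdr_monomial]
      unfold mx
      rw [Finsupp.cons_zero, Finsupp.tail_cons]
      by_cases h4 : ∑ i, u i = N
      · rw [if_pos h4.le, if_pos (by omega), if_pos h4]
      · rw [if_neg h4, monomial_zero]
        by_cases h5 : ∑ i, u i ≤ N
        · rw [if_pos h5, if_neg (by omega)]
        · rw [if_neg h5]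
    have h2 : ∀ u ∈ U, (if ∑ i, u i = N then c u else 0) = 0 := by
      refine hU.ind _ ?_
      rw [← h1]
      exact Ideal.sum_mem _ fun j _ => Ideal.mul_mem_left _ _ (Ideal.subset_span ⟨j, rfl⟩)
    have h3 : ∀ u ∈ U, ∑ i, u i = N → c u = 0 := by
      intro u hu hN
      have h4 := h2 u hu
      rwa [if_pos hN] at h4
    refine ⟨h3, ?_⟩
    have h4 : ∑ j, bdr (Q j) * pderiv j (bdr Φ) = 0 := by
      rw [h1]
      refine Finset.sum_eq_zero fun u hu => ?_
      rw [h2 u hu, monomial_zero]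
    obtain ⟨A, hA, hAQ⟩ := koszul_mv (fun j => pderiv j (bdr Φ)) M hM _ h4
    have h5 : ∀ j, ∃ Q'', Q j - ∑ i, rename Fin.succ (A j i) * pderiv i.succ Φ = X 0 * Q'' := by
      intro j
      refine freex_div _ ?_
      rw [freex_bdr_sub, freex_bdr_sum, hAQ j, sub_eq_zero]
      refine Finset.sum_congr rfl fun i _ => ?_
      rw [freex_bdr_mul, freex_bdr_rn, bdr_pderiv]
    choose Q'' hQ'' using h5
    refine ⟨∑ j, Q'' j * pderiv j.succ Φ, Ideal.sum_mem _ fun j _ =>
      Ideal.mul_mem_left _ _ (Ideal.subset_span ⟨j, rfl⟩), ?_⟩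
    have h6 : ∑ j, (∑ i, rename Fin.succ (A j i) * pderiv i.succ Φ) * pderiv j.succ Φ = 0 := by
      have h7 : ∑ j, (∑ i, rename Fin.succ (A j i) * pderiv i.succ Φ) * pderiv j.succ Φ =
          ∑ j, ∑ i, rename Fin.succ (A j i) * (pderiv i.succ Φ * pderiv j.succ Φ) := by
        refine Finset.sum_congr rfl fun j _ => ?_
        rw [Finset.sum_mul]
        exact Finset.sum_congr rfl fun i _ => mul_assoc _ _ _
      rw [h7, ← Finset.sum_product']
      refine Finset.sum_involution (fun x _ => (x.2, x.1)) ?_ ?_ ?_ ?_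
      · intro x _
        change rename Fin.succ (A x.1 x.2) * (pderiv x.2.succ Φ * pderiv x.1.succ Φ) +
          rename Fin.succ (A x.2 x.1) * (pderiv x.1.succ Φ * pderiv x.2.succ Φ) = 0
        rw [hA.2 x.1 x.2, map_neg]
        ring
      · intro x _ hx hc
        apply hx
        have h8 : x.2 = x.1 := congrArg Prod.fst hc
        change rename Fin.succ (A x.1 x.2) * (pderiv x.2.succ Φ * pderiv x.1.succ Φ) = 0
        rw [h8, hA.1, map_zero, zero_mul]
      · intro x _
        exact Finset.mem_product.2 ⟨Finset.mem_univ _, Finset.mem_univ _⟩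
      · intro x _
        rfl
    calc ∑ u ∈ U with ∑ i, u i ≤ N, monomial (mx N u) (c u)
        = ∑ j, Q j * pderiv j.succ Φ := hQ.symm
      _ = ∑ j, (X 0 * Q'' j) * pderiv j.succ Φ +
          ∑ j, (∑ i, rename Fin.succ (A j i) * pderiv i.succ Φ) * pderiv j.succ Φ := by
        rw [← Finset.sum_add_distrib]
        refine Finset.sum_congr rfl fun j _ => ?_
        rw [← hQ'' j]
        ring
      _ = X 0 * ∑ j, Q'' j * pderiv j.succ Φ := by
        rw [h6, add_zero, Finset.mul_sum]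
        exact Finset.sum_congr rfl fun j _ => mul_assoc _ _ _
  induction N with
  | zero =>
    intro u hu hN
    exact (key 0 h).1 u hu (Nat.le_zero.1 hN)
  | succ N ih =>
    obtain ⟨h1, Q, hQ, hQs⟩ := key (N + 1) h
    have h2 : ∑ u ∈ U with ∑ i, u i ≤ N + 1, monomial (mx (N + 1) u) (c u) =
        X 0 * ∑ u ∈ U with ∑ i, u i ≤ N,
          (monomial (mx N u) (c u) : MvPolynomial (Fin (n + 1)) κ) := by
      rw [Finset.sum_filter, Finset.sum_filter, Finset.mul_sum]
      refine Finset.sum_congr rfl fun u hu => ?_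
      by_cases h3 : ∑ i, u i ≤ N
      · rw [if_pos h3, if_pos (by omega)]
        unfold mx
        have h4 := freex_X_pow (κ := κ) 1 (N - ∑ i, u i) u (c u)
        rw [pow_one] at h4
        rw [h4]
        have h5 : N + 1 - ∑ i, u i = 1 + (N - ∑ i, u i) := by omega
        rw [h5]
      · rw [if_neg h3, mul_zero]
        by_cases h4 : ∑ i, u i ≤ N + 1
        · rw [if_pos h4, h1 u hu (by omega), monomial_zero]
        · rw [if_neg h4]
    rw [h2] at hQs
    have h3 := mul_left_cancel₀ (X_ne_zero (R := κ) (0 : Fin (n + 1))) hQs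
    have h4 := ih (by rw [h3]; exact hQ)
    intro u hu hN
    rcases Nat.lt_or_ge N (∑ i, u i) with h5 | h5
    · exact h1 u hu (by omega)
    · exact h4 u hu h5

end MPadcBK
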