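import Pool.Agent.Lib.MP_adc574_ag_BK.FoC

/-!
# JOB RegA: the operations preserve regularity

Everything is coefficientwise. `Reg I`: `(∀ e, ∀ i ∉ I, (e i < 0 → x.coeff e = 0) ∧ (e i = 0 → cti i (x.coeff e) = 0))`.
Products with `mo e`, `pf F`: `coeff_mo_mul`, `coeff_pf_mul`. `dd`: `cti i (ι (bar e) * y) = (e i : κ) • y - ι (bar e) * cti i y`.
`cj i = x_i^{-1} cti i`: at `e` the coefficient is `cti i (x.coeff (e + Pi.single i 1))`; for `j = i ∉ I`: `e i < 0` means `e i + 1 ≤ 0`;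
`cti i (cti i y) = 0`; for `j ≠ i` use `ct_comm`.
`dd (pf F) * x`: `dd (pf F)` is the sum of the `F.coeff u • (mo (ex u) * single 0 (ι (bar (ex u))))`; or use
`dd (pf F) * x = dd (pf F * x) - pf F * dd x`.
-/

set_option autoImplicit false

namespace MPadcBK

open ExteriorAlgebra

universe u

variable {κ : Type u} [Field κ] {m : ℕ} {I J : Set (Fin m)}

private theorem rega_ext {x : Fo κ m} : x ∈ Reg (κ := κ) I ↔ ∀ e, ∀ i ∉ I,
    (e i < 0 → x.coeff e = 0) ∧ (e i = 0 → cti i (x.coeff e) = 0) := Iff.rfl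

theorem Reg_mono (h : I ⊆ J) : Reg (κ := κ) I ≤ Reg J := by
  intro x hx
  exact fun e i hi => hx e i fun h' => hi (h h')

theorem mo_mul_Reg {e : Ex m} (he : ∀ i ∉ I, 0 ≤ e i) {x : Fo κ m} (hx : x ∈ Reg (κ := κ) I) :
    mo e * x ∈ Reg (κ := κ) I := by
  rw [rega_ext]
  intro e' i hi
  rw [coeff_mo_mul]
  have h1 := he i hi
  have h2 : (e' - e) i = e' i - e i := rfl
  refine ⟨fun h => (hx (e' - e) i hi).1 (by omega), fun h => ?_⟩
  by_cases h3 : e i = 0
  · exact (hx (e' - e) i hi).2 (by omega)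
  · rw [(hx (e' - e) i hi).1 (by omega), map_zero]

theorem pf_mul_Reg (F : MvPolynomial (Fin m) κ) {x : Fo κ m} (hx : x ∈ Reg (κ := κ) I) :
    pf F * x ∈ Reg (κ := κ) I := by
  rw [pf_eq_sum, Finset.sum_mul]
  refine Submodule.sum_mem _ fun u _ => ?_
  rw [smul_mul_assoc]
  exact Submodule.smul_mem _ _ (mo_mul_Reg (fun i _ => Int.natCast_nonneg _) hx)

theorem dd_Reg {x : Fo κ m} (hx : x ∈ Reg (κ := κ) I) : dd x ∈ Reg (κ := κ) I := by
  rw [rega_ext]
  intro e i hi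
  rw [dd_coeff]
  refine ⟨fun h => by rw [(hx e i hi).1 h, mul_zero], fun h => ?_⟩
  have h1 : bar κ e i = 0 := by
    show ((e i : ℤ) : κ) = 0
    rw [h, Int.cast_zero]
  rw [cti_iota_mul, (hx e i hi).2 h, mul_zero, sub_zero, h1, zero_smul]

theorem ddpf_mul_Reg (F : MvPolynomial (Fin m) κ) {x : Fo κ m} (hx : x ∈ Reg (κ := κ) I) :
    dd (pf F) * x ∈ Reg (κ := κ) I := by
  have h1 : dd (pf F) * x = dd (pf F * x) - pf F * dd x := by
    rw [dd_pf_mul, add_sub_cancel_right]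
  rw [h1]
  exact Submodule.sub_mem _ (dd_Reg (pf_mul_Reg F hx)) (pf_mul_Reg F (dd_Reg hx))

private theorem rega_comm (i : Fin m) (φ : Fin m → κ) {y : Lam κ m} (hy : cti i y = 0) :
    cti i (ct φ y) = 0 := by
  have h1 : cti i (ct φ y) = - ct φ (cti i y) := ct_comm _ _ _
  rw [h1, hy, map_zero, neg_zero]

theorem cj_Reg (i : Fin m) {x : Fo κ m} (hx : x ∈ Reg (κ := κ) I) : cj i x ∈ Reg (κ := κ) I := by
  rw [rega_ext]
  intro e j hj
  unfold cj
  rw [coeff_mo_mul, cf_coeff]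
  set e' : Ex m := e - -Pi.single i 1 with he'
  by_cases hij : j = i
  · subst hij
    have h1 : e' j = e j + 1 := by
      rw [he', Pi.sub_apply, Pi.neg_apply, Pi.single_eq_same, sub_neg_eq_add]
    refine ⟨fun h => ?_, fun _ => ct_ct _ _⟩
    by_cases h2 : e' j = 0
    · exact (hx e' j hj).2 h2
    · rw [(hx e' j hj).1 (by omega), map_zero]
  · have h1 : e' j = e j := by
      rw [he', Pi.sub_apply, Pi.neg_apply, Pi.single_eq_of_ne hij, neg_zero, sub_zero]
    refine ⟨fun h => ?_, fun h => ?_⟩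
    · rw [(hx e' j hj).1 (by omega), map_zero]
    · exact rega_comm j _ ((hx e' j hj).2 (by omega))

theorem cf_Reg (i : Fin m) {x : Fo κ m} (hx : x ∈ Reg (κ := κ) I) : cf i x ∈ Reg (κ := κ) I := by
  rw [rega_ext]
  intro e j hj
  rw [cf_coeff]
  exact ⟨fun h => by rw [(hx e j hj).1 h, map_zero], fun h => rega_comm j _ ((hx e j hj).2 h)⟩

theorem cfe_Reg {x : Fo κ m} (hx : x ∈ Reg (κ := κ) I) : cfe x ∈ Reg (κ := κ) I := by
  rw [rega_ext]
  intro e j hj
  rw [cfe_coeff]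
  exact ⟨fun h => by rw [(hx e j hj).1 h, map_zero], fun h => rega_comm j _ ((hx e j hj).2 h)⟩

theorem mo_Reg {e : Ex m} (he : ∀ i ∉ I, 0 ≤ e i) : (mo e : Fo κ m) ∈ Reg (κ := κ) I := by
  classical
  rw [rega_ext]
  intro e' i hi
  have h1 : (mo e : Fo κ m).coeff e' = if e = e' then 1 else 0 := by
    unfold mo
    rw [AddMonoidAlgebra.coeff_single, Finsupp.single_apply]
  rw [h1]
  have h2 := he i hi
  refine ⟨fun h => ?_, fun _ => ?_⟩
  · rw [if_neg]
    rintro rfl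
    omega
  · split_ifs
    · exact ct_one _
    · exact map_zero _

theorem pf_Reg (F : MvPolynomial (Fin m) κ) : (pf F : Fo κ m) ∈ Reg (κ := κ) I := by
  rw [pf_eq_sum]
  exact Submodule.sum_mem _ fun u _ =>
    Submodule.smul_mem _ _ (mo_Reg fun i _ => Int.natCast_nonneg _)

end MPadcBK
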