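import Pool.Agent.Lib.MP_adc574_ag_BK.FoC

/-!
# JOB RegB: form degree and total degree

Everything is coefficientwise (`coeff_mo_mul`, `coeff_pf_mul`, `iota_mem`, `ct_mem`, `ct_mem_zero`, `ext_top`).
`dd (pf F) * x = dd (pf F * x) - pf F * dd x` (`dd_pf_mul`). `tot (a + b) = tot a + tot b`, `tot (ex u) = ∑ u i` (`= d` on the support of a
homogeneous polynomial), `tot (-Pi.single i 1) = -1`.
`Reg_empty_tot`: if `x.coeff e = y ≠ 0` then all `e i ≥ 0` and `cti i y = 0` whenever `e i = 0`. Let `S = {i | 1 ≤ e i}`. A `y` in `⋀^q` with `cti i y = 0` for all `i ∉ S`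
vanishes if `q > card S`: e.g. by induction, using `split_i` and `cti_iota_mul`, `y` is in the image of the exterior algebra of `κ^S`; or: if all
contractions `cti i y`, `i ∈ S`, of `y` in `⋀^(q+1)` vanish (and those with `i ∉ S`), then `y = 0`, and `cti i y` satisfies the hypothesis for
`S \ {i}` and `q`. (An element of `⋀^(q+1)` all of whose contractions vanish is 0: iterate `split_i`, `y = cti i (ι i * y)` for all `i`, so
`y = cti 0 (ι 0 * cti 1 (ι 1 * ...))`; `ι 0 * ... * ι (m-1) * y = 0` by `ext_top`.) Then `q ≤ card S ≤ tot e = t`.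
-/

set_option autoImplicit false

namespace MPadcBK

open ExteriorAlgebra

universe u

variable {κ : Type u} [Field κ] {m : ℕ}

private theorem regb_tot_sub (a b : Ex m) : tot (a - b) = tot a - tot b := by
  unfold tot
  rw [← Finset.sum_sub_distrib]
  rfl

private theorem regb_tot_ex {d : ℕ} {F : MvPolynomial (Fin m) κ} (hF : F.IsHomogeneous d)
    {u : Fin m →₀ ℕ} (hu : u ∈ F.support) : tot (ex u) = d := by
  have h1 : u.degree = d := by
    by_contra h
    exact (MvPolynomial.mem_support_iff.1 hu) (MvPolynomial.IsHomogeneous.coeff_eq_zero hF h)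
  unfold tot ex
  rw [← h1, Finsupp.degree_eq_sum]
  push_cast
  rfl

private theorem regb_van (T : Finset (Fin m)) : ∀ (q : ℕ) (y : Lam κ m),
    y ∈ ⋀[κ]^q (Fin m → κ) → (∀ i ∈ T, cti i y = 0) → m < q + T.card → y = 0 := by
  induction T using Finset.induction_on with
  | empty =>
    intro q y hy _ hm
    exact ext_top (by simpa using hm) hy
  | insert i T hi ih =>
    intro q y hy h hm
    rw [Finset.card_insert_of_notMem hi] at hm
    have h1 : ι κ (Pi.single i 1) * y = 0 := by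
      refine ih (q + 1) _ (iota_mem _ hy) ?_ (by omega)
      intro j hj
      have hne : j ≠ i := by
        rintro rfl
        exact hi hj
      rw [cti_iota_mul, h j (Finset.mem_insert_of_mem hj), mul_zero, sub_zero,
        Pi.single_eq_of_ne hne, zero_smul]
    rw [split_i i y, h i (Finset.mem_insert_self _ _), h1, mul_zero, map_zero, add_zero]

theorem mo_mul_FD (e : Ex m) {q : ℕ} {x : Fo κ m} (hx : x ∈ FD (κ := κ) (m := m) q) :
    mo e * x ∈ FD (κ := κ) (m := m) q := by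
  intro e'
  rw [coeff_mo_mul]
  exact hx _

theorem fn_mul_FD (f : Fn κ m) {q : ℕ} {x : Fo κ m} (hx : x ∈ FD (κ := κ) (m := m) q) :
    fn f * x ∈ FD (κ := κ) (m := m) q := by
  induction f using AddMonoidAlgebra.induction_linear with
  | zero =>
    rw [map_zero, zero_mul]
    exact Submodule.zero_mem _
  | add f g hf hg =>
    rw [map_add, add_mul]
    exact Submodule.add_mem _ hf hg
  | single e a =>
    rw [fn_single, smul_mul_assoc]
    exact Submodule.smul_mem _ _ (mo_mul_FD e hx)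

theorem pf_mul_FD (F : MvPolynomial (Fin m) κ) {q : ℕ} {x : Fo κ m}
    (hx : x ∈ FD (κ := κ) (m := m) q) : pf F * x ∈ FD (κ := κ) (m := m) q := by
  exact fn_mul_FD _ hx

theorem dd_FD {q : ℕ} {x : Fo κ m} (hx : x ∈ FD (κ := κ) (m := m) q) :
    dd x ∈ FD (κ := κ) (m := m) (q + 1) := by
  intro e
  rw [dd_coeff]
  exact iota_mem _ (hx e)

theorem one_mul_FD {q : ℕ} {y x : Fo κ m} (hy : y ∈ FD (κ := κ) (m := m) 1)
    (hx : x ∈ FD (κ := κ) (m := m) q) : y * x ∈ FD (κ := κ) (m := m) (q + 1) := by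
  rw [← AddMonoidAlgebra.sum_coeff_single y]
  unfold Finsupp.sum
  rw [Finset.sum_mul]
  refine Submodule.sum_mem _ fun e _ => ?_
  intro e'
  rw [AddMonoidAlgebra.coeff_single_mul_apply]
  have h1 := hy e
  have h2 := hx (-e + e')
  have h3 := Submodule.mul_mem_mul h1 h2
  have h4 : (⋀[κ]^1 (Fin m → κ)) * (⋀[κ]^q (Fin m → κ)) = ⋀[κ]^(q + 1) (Fin m → κ) := by
    unfold ExteriorAlgebra.exteriorPower
    rw [← pow_add, add_comm]
  rw [h4] at h3
  exact h3

theorem ddpf_mul_FD (F : MvPolynomial (Fin m) κ) {q : ℕ} {x : Fo κ m}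
    (hx : x ∈ FD (κ := κ) (m := m) q) : dd (pf F) * x ∈ FD (κ := κ) (m := m) (q + 1) := by
  exact one_mul_FD (ddpf_mem F) hx

theorem cf_FD (i : Fin m) {q : ℕ} {x : Fo κ m} (hx : x ∈ FD (κ := κ) (m := m) (q + 1)) :
    cf i x ∈ FD (κ := κ) (m := m) q := by
  intro e
  rw [cf_coeff]
  exact ct_mem _ (hx e)

theorem cfe_FD {q : ℕ} {x : Fo κ m} (hx : x ∈ FD (κ := κ) (m := m) (q + 1)) :
    cfe x ∈ FD (κ := κ) (m := m) q := by
  intro e
  rw [cfe_coeff]
  exact ct_mem _ (hx e)

theorem cj_FD (i : Fin m) {q : ℕ} {x : Fo κ m} (hx : x ∈ FD (κ := κ) (m := m) (q + 1)) :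
    cj i x ∈ FD (κ := κ) (m := m) q := by
  exact mo_mul_FD _ (cf_FD i hx)

theorem cj_FD_zero (i : Fin m) {x : Fo κ m} (hx : x ∈ FD (κ := κ) (m := m) 0) : cj i x = 0 := by
  have h : cf i x = 0 := by
    refine fo_ext fun e => ?_
    rw [cf_coeff]
    exact (ct_mem_zero _ (hx e)).trans (by simp)
  unfold cj
  rw [h, mul_zero]

theorem cfe_FD_zero {x : Fo κ m} (hx : x ∈ FD (κ := κ) (m := m) 0) : cfe x = 0 := by
  refine fo_ext fun e => ?_
  rw [cfe_coeff]
  exact (ct_mem_zero _ (hx e)).trans (by simp)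

theorem FD_top {q : ℕ} (hq : m < q) {x : Fo κ m} (hx : x ∈ FD (κ := κ) (m := m) q) : x = 0 := by
  refine fo_ext fun e => ?_
  exact (ext_top hq (hx e)).trans (by simp)

theorem mo_mul_TD (e : Ex m) {P : Set ℤ} {x : Fo κ m} (hx : x ∈ TD (κ := κ) (m := m) P) :
    mo e * x ∈ TD (κ := κ) (m := m) {t | t - tot e ∈ P} := by
  intro e' he'
  rw [coeff_mo_mul]
  refine hx _ fun h => he' ?_
  rw [regb_tot_sub] at h
  exact h

theorem pf_mul_TD {d : ℕ} {F : MvPolynomial (Fin m) κ} (hF : F.IsHomogeneous d) {P : Set ℤ}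
    {x : Fo κ m} (hx : x ∈ TD (κ := κ) (m := m) P) :
    pf F * x ∈ TD (κ := κ) (m := m) {t | t - d ∈ P} := by
  intro e he
  rw [coeff_pf_mul]
  refine Finset.sum_eq_zero fun u hu => ?_
  rw [hx, smul_zero]
  intro h
  rw [regb_tot_sub, regb_tot_ex hF hu] at h
  exact he h

theorem dd_TD {P : Set ℤ} {x : Fo κ m} (hx : x ∈ TD (κ := κ) (m := m) P) :
    dd x ∈ TD (κ := κ) (m := m) P := by
  intro e he
  rw [dd_coeff, hx e he, mul_zero]

theorem ddpf_mul_TD {d : ℕ} {F : MvPolynomial (Fin m) κ} (hF : F.IsHomogeneous d) {P : Set ℤ}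
    {x : Fo κ m} (hx : x ∈ TD (κ := κ) (m := m) P) :
    dd (pf F) * x ∈ TD (κ := κ) (m := m) {t | t - d ∈ P} := by
  have h : dd (pf F) * x = dd (pf F * x) - pf F * dd x := by
    rw [dd_pf_mul, add_sub_cancel_right]
  rw [h]
  exact Submodule.sub_mem _ (dd_TD (pf_mul_TD hF hx)) (pf_mul_TD hF (dd_TD hx))

theorem cf_TD (i : Fin m) {P : Set ℤ} {x : Fo κ m} (hx : x ∈ TD (κ := κ) (m := m) P) :
    cf i x ∈ TD (κ := κ) (m := m) P := by
  intro e he
  rw [cf_coeff, hx e he, map_zero]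

theorem cfe_TD {P : Set ℤ} {x : Fo κ m} (hx : x ∈ TD (κ := κ) (m := m) P) :
    cfe x ∈ TD (κ := κ) (m := m) P := by
  intro e he
  rw [cfe_coeff, hx e he, map_zero]

theorem cj_TD (i : Fin m) {P : Set ℤ} {x : Fo κ m} (hx : x ∈ TD (κ := κ) (m := m) P) :
    cj i x ∈ TD (κ := κ) (m := m) {t | t + 1 ∈ P} := by
  have h := mo_mul_TD (-Pi.single i 1) (cf_TD i hx)
  have h2 : tot (-Pi.single i 1 : Ex m) = -1 := by
    unfold tot
    simp
  rw [h2] at h
  have h3 : {t : ℤ | t - -1 ∈ P} = {t | t + 1 ∈ P} := by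
    ext t
    rw [Set.mem_ofPred_eq, Set.mem_ofPred_eq, sub_neg_eq_add]
  rw [h3] at h
  exact h

theorem TD_mono {P Q : Set ℤ} (h : P ⊆ Q) : TD (κ := κ) (m := m) P ≤ TD Q := by
  intro x hx e he
  exact hx e fun h2 => he (h h2)

theorem TD_empty {x : Fo κ m} (hx : x ∈ TD (κ := κ) (m := m) ∅) : x = 0 := by
  refine fo_ext fun e => ?_
  exact (hx e (Set.notMem_empty _)).trans (by simp)

/-- A regular form of total degree `< q` is 0 on the chart `∅`, and more generally all exponents of a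
regular `q`-form on `∅` are nonnegative, with at least `q` positive entries. -/
theorem Reg_empty_tot {q : ℕ} {t : ℤ} (ht : t < q) {x : Fo κ m} (hx : x ∈ Reg (κ := κ) ∅)
    (hq : x ∈ FD (κ := κ) (m := m) q) (ht' : x ∈ TD (κ := κ) (m := m) {t}) : x = 0 := by
  refine fo_ext fun e => ?_
  show x.coeff e = (0 : Fo κ m).coeff e
  have hz : (0 : Fo κ m).coeff e = 0 := by simp
  rw [hz]
  by_cases h1 : tot e = t
  · by_cases h2 : ∃ i, e i < 0
    · obtain ⟨i, hi⟩ := h2
      exact (hx e i (Set.notMem_empty _)).1 hi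
    · have h3 : ∀ i, 0 ≤ e i := fun i => not_lt.1 fun h => h2 ⟨i, h⟩
      refine regb_van (Finset.univ.filter fun i => e i = 0) q (x.coeff e) (hq e) ?_ ?_
      · intro i hi
        exact (hx e i (Set.notMem_empty _)).2 (Finset.mem_filter.1 hi).2
      · have h4 : (m : ℤ) ≤ t + ((Finset.univ.filter fun i => e i = 0).card : ℤ) := by
          rw [← h1, Finset.natCast_card_filter, tot, ← Finset.sum_add_distrib]
          calc (m : ℤ) = ∑ _i : Fin m, (1 : ℤ) := by simp
            _ ≤ _ := by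
              refine Finset.sum_le_sum fun i _ => ?_
              have := h3 i
              split_ifs <;> omega
        omega
  · exact ht' e h1

end MPadcBK
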