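import Pool.Agent.Lib.MP_adc574_ag_BK.Tw
import Pool.Agent.Lib.MP_adc574_ag_BK.RegA
import Pool.Agent.Lib.MP_adc574_ag_BK.RegB

/-!
# JOB Frob: Frobenius and Cartier operator of Laurent forms

`Fr (x ^ e y) = x ^ (p e) (tw y)`, `(Ca x).coeff e = tw⁻¹ (x.coeff (p e))`. The exponents `e` are integers, so `bar (p e) = 0` and
`tw (ι (bar e)) = ι (bar e)` (Frobenius is the identity on the prime field).
-/

set_option autoImplicit false

namespace MPadcBK

open ExteriorAlgebra

universe u

variable {κ : Type u} [Field κ] {m : ℕ}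

/-- Multiplication of exponents by `p`. -/
def pmul (p m : ℕ) : Ex m →+ Ex m where
  toFun e := fun i => (p : ℤ) * e i
  map_zero' := by ext; simp
  map_add' a b := by ext; simp [mul_add]

variable (p : ℕ) [hp : Fact p.Prime] [CharP κ p] [PerfectRing κ p]

theorem pmul_injective : Function.Injective (pmul p m) := by
  intro a b h
  ext i
  have h1 := congrFun h i
  have h2 : (p : ℤ) ≠ 0 := by exact_mod_cast hp.out.ne_zero
  exact mul_left_cancel₀ h2 h1

/-- The Frobenius of the ring of Laurent forms. -/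
noncomputable def Fr : Fo κ m →+* Fo κ m :=
  (AddMonoidAlgebra.mapDomainRingHom (Lam κ m) (pmul p m)).comp
    (AddMonoidAlgebra.mapRingHom (Ex m) (tw (frobeniusEquiv κ p)).toRingHom)

/-- The Cartier operator. -/
noncomputable def Ca : Fo κ m →+ Fo κ m where
  toFun x := AddMonoidAlgebra.map (tw (m := m) (frobeniusEquiv κ p)).symm.toAddMonoidHom
    (AddMonoidAlgebra.comapDomain (pmul p m) (pmul_injective p) x)
  map_zero' := by simp
  map_add' x y := by simp [AddMonoidAlgebra.map_add]

private theorem frob_bar_pmul (e : Ex m) : bar κ (pmul p m e) = 0 := by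
  ext i
  change ((((p : ℤ) * e i : ℤ)) : κ) = 0
  push_cast
  rw [CharP.cast_eq_zero κ p, zero_mul]

theorem Fr_coeff (x : Fo κ m) (e : Ex m) :
    (Fr p x).coeff (pmul p m e) = tw (frobeniusEquiv κ p) (x.coeff e) := by
  change Finsupp.mapDomain (pmul p m) _ (pmul p m e) = _
  rw [Finsupp.mapDomain_apply (pmul_injective p)]
  exact AddMonoidAlgebra.coeff_mapRingHom _ _ _

theorem Fr_coeff' (x : Fo κ m) (e : Ex m) (he : ∀ e', e ≠ pmul p m e') :
    (Fr p x).coeff e = 0 := by
  change Finsupp.mapDomain (pmul p m) _ e = _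
  apply Finsupp.mapDomain_notin_range
  rintro ⟨e', h⟩
  exact he e' h.symm

theorem Ca_coeff (x : Fo κ m) (e : Ex m) :
    (Ca p x).coeff e = (tw (frobeniusEquiv κ p)).symm (x.coeff (pmul p m e)) := by
  rfl

private theorem frob_Fr_single (a : Ex m) (b : Lam κ m) :
    Fr p (AddMonoidAlgebra.single a b) =
      AddMonoidAlgebra.single (pmul p m a) (tw (frobeniusEquiv κ p) b) := by
  change AddMonoidAlgebra.mapDomain (pmul p m)
    (AddMonoidAlgebra.mapRingHom (Ex m) (tw (frobeniusEquiv κ p)).toRingHom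
      (AddMonoidAlgebra.single a b)) = _
  rw [AddMonoidAlgebra.mapRingHom_single, AddMonoidAlgebra.mapDomain_single]
  rfl

private theorem frob_Ca_single (a : Ex m) (b : Lam κ m) :
    Ca p (AddMonoidAlgebra.single (pmul p m a) b) =
      AddMonoidAlgebra.single a ((tw (frobeniusEquiv κ p)).symm b) := by
  classical
  apply fo_ext
  intro e
  rw [Ca_coeff, AddMonoidAlgebra.coeff_single_apply, AddMonoidAlgebra.coeff_single_apply]
  by_cases h : a = e
  · rw [if_pos h, if_pos (by rw [h])]
  · rw [if_neg h, if_neg (fun h' => h (pmul_injective p h')), map_zero]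

private theorem frob_Ca_single' (a : Ex m) (ha : ∀ e', a ≠ pmul p m e') (b : Lam κ m) :
    Ca p (AddMonoidAlgebra.single a b) = 0 := by
  classical
  apply fo_ext
  intro e
  rw [Ca_coeff, AddMonoidAlgebra.coeff_single_apply, if_neg (ha e), map_zero]
  rfl

private theorem frob_pmul_sub {a c e' : Ex m} (h : pmul p m a + c = pmul p m e') :
    c = pmul p m (e' - a) := by
  rw [map_sub, ← h]
  abel

theorem Ca_Fr_mul (y x : Fo κ m) : Ca p (Fr p y * x) = y * Ca p x := by
  induction x using AddMonoidAlgebra.induction_linear with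
  | zero => rw [mul_zero, map_zero, mul_zero]
  | add x1 x2 h1 h2 => rw [mul_add, map_add, map_add, mul_add, h1, h2]
  | single c d =>
    induction y using AddMonoidAlgebra.induction_linear with
    | zero => rw [map_zero, zero_mul, map_zero, zero_mul]
    | add y1 y2 h1 h2 => rw [map_add, add_mul, map_add, add_mul, h1, h2]
    | single a b =>
      rw [frob_Fr_single, AddMonoidAlgebra.single_mul_single]
      by_cases h : ∃ e', c = pmul p m e'
      · obtain ⟨e', rfl⟩ := h
        rw [← map_add, frob_Ca_single, frob_Ca_single, AddMonoidAlgebra.single_mul_single, map_mul,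
          RingEquiv.symm_apply_apply]
      · push Not at h
        rw [frob_Ca_single' p c h, mul_zero]
        apply frob_Ca_single'
        intro e' he'
        exact h _ (frob_pmul_sub p he')

theorem Ca_mul_Fr (x y : Fo κ m) : Ca p (x * Fr p y) = Ca p x * y := by
  induction x using AddMonoidAlgebra.induction_linear with
  | zero => rw [zero_mul, map_zero, zero_mul]
  | add x1 x2 h1 h2 => rw [add_mul, map_add, map_add, add_mul, h1, h2]
  | single c d =>
    induction y using AddMonoidAlgebra.induction_linear with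
    | zero => rw [map_zero, mul_zero, map_zero, mul_zero]
    | add y1 y2 h1 h2 => rw [map_add, mul_add, map_add, mul_add, h1, h2]
    | single a b =>
      rw [frob_Fr_single, AddMonoidAlgebra.single_mul_single]
      by_cases h : ∃ e', c = pmul p m e'
      · obtain ⟨e', rfl⟩ := h
        rw [← map_add, frob_Ca_single, frob_Ca_single, AddMonoidAlgebra.single_mul_single, map_mul,
          RingEquiv.symm_apply_apply]
      · push Not at h
        rw [frob_Ca_single' p c h, zero_mul]
        apply frob_Ca_single'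
        intro e' he'
        exact h _ (frob_pmul_sub p (by rw [add_comm]; exact he'))

theorem Ca_Fr (x : Fo κ m) : Ca p (Fr p x) = x := by
  have h := Ca_Fr_mul p x 1
  rw [mul_one] at h
  have h1 : Ca p (1 : Fo κ m) = 1 := by
    have h2 : (1 : Fo κ m) = AddMonoidAlgebra.single (pmul p m 0) 1 := by
      rw [map_zero]
      rfl
    rw [h2, frob_Ca_single, map_one, map_zero]
  rw [h, h1, mul_one]

theorem Ca_dd (x : Fo κ m) : Ca p (dd x) = 0 := by
  apply fo_ext
  intro e
  rw [Ca_coeff, dd_coeff, frob_bar_pmul, map_zero, zero_mul, map_zero]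
  rfl

theorem dd_Fr (x : Fo κ m) : dd (Fr p x) = 0 := by
  apply fo_ext
  intro e
  rw [dd_coeff]
  by_cases h : ∃ e', e = pmul p m e'
  · obtain ⟨e', rfl⟩ := h
    rw [frob_bar_pmul, map_zero, zero_mul]
    rfl
  · push Not at h
    rw [Fr_coeff' p x e h, mul_zero]
    rfl

private theorem frob_Fr_FD {q : ℕ} {x : Fo κ m} (hx : x ∈ FD (κ := κ) (m := m) q) :
    Fr p x ∈ FD (κ := κ) (m := m) q := by
  intro e
  by_cases h : ∃ e', e = pmul p m e'
  · obtain ⟨e', rfl⟩ := h
    rw [Fr_coeff]
    exact (tw_mem _).2 (hx e')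
  · push Not at h
    rw [Fr_coeff' p x e h]
    exact Submodule.zero_mem _

theorem dd_Fr_mul {y : Fo κ m} (hy : y ∈ FD (κ := κ) (m := m) 1) (x : Fo κ m) :
    dd (Fr p y * x) = - (Fr p y * dd x) := by
  rw [dd_one_mul (frob_Fr_FD p hy), dd_Fr, zero_mul, zero_sub]

private theorem frob_Fr_fn (f : Fn κ m) : Fr p (fn f) = fn f ^ p := by
  haveI : CharP (Fn κ m) p := charP_of_injective_ringHom (FaithfulSMul.algebraMap_injective κ (Fn κ m)) p
  haveI : ExpChar (Fn κ m) p := ExpChar.prime hp.out
  have h : (Fr p).comp (fn (κ := κ) (m := m)) = (fn (κ := κ) (m := m)).comp (frobenius (Fn κ m) p) := by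
    apply AddMonoidAlgebra.ringHom_ext
    · intro r
      change Fr p (AddMonoidAlgebra.mapRingHom (Ex m) (algebraMap κ (Lam κ m))
        (AddMonoidAlgebra.single 0 r)) = fn ((AddMonoidAlgebra.single 0 r : Fn κ m) ^ p)
      rw [AddMonoidAlgebra.mapRingHom_single, frob_Fr_single, tw_algebraMap,
        AddMonoidAlgebra.single_pow, map_zero, smul_zero]
      change _ = AddMonoidAlgebra.mapRingHom (Ex m) (algebraMap κ (Lam κ m)) _
      rw [AddMonoidAlgebra.mapRingHom_single]
      rfl
    · intro e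
      change Fr p (AddMonoidAlgebra.mapRingHom (Ex m) (algebraMap κ (Lam κ m))
        (AddMonoidAlgebra.single e 1)) = fn ((AddMonoidAlgebra.single e 1 : Fn κ m) ^ p)
      rw [AddMonoidAlgebra.mapRingHom_single, frob_Fr_single, map_one, map_one,
        AddMonoidAlgebra.single_pow, one_pow]
      change _ = AddMonoidAlgebra.mapRingHom (Ex m) (algebraMap κ (Lam κ m)) _
      rw [AddMonoidAlgebra.mapRingHom_single, map_one]
      have h1 : pmul p m e = p • e := by
        ext i
        change (p : ℤ) * e i = (p • e) i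
        rw [Pi.smul_apply, nsmul_eq_mul]
      rw [h1]
  have h' := congrArg (fun g : Fn κ m →+* Fo κ m => g f) h
  rw [← map_pow]
  exact h'

theorem dd_Frfn_mul (f : Fn κ m) (x : Fo κ m) : dd (Fr p (fn f) * x) = Fr p (fn f) * dd x := by
  have h := dd_fn_mul (f ^ p) x
  rw [map_pow, ← frob_Fr_fn p f, dd_Fr, zero_mul, zero_add] at h
  exact h

theorem Fr_fn (f : Fn κ m) : Fr p (fn f) = fn f ^ p := by
  exact frob_Fr_fn p f

theorem Fr_pf (F : MvPolynomial (Fin m) κ) : Fr p (pf F) = pf (F ^ p) := by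
  rw [pf_pow]
  exact frob_Fr_fn p (pl F)

theorem Fr_mo (e : Ex m) : Fr p (mo e : Fo κ m) = mo (pmul p m e) := by
  unfold mo
  rw [frob_Fr_single, map_one]

theorem Fr_FD {q : ℕ} {x : Fo κ m} (hx : x ∈ FD (κ := κ) (m := m) q) :
    Fr p x ∈ FD (κ := κ) (m := m) q := by
  exact frob_Fr_FD p hx

theorem Ca_FD {q : ℕ} {x : Fo κ m} (hx : x ∈ FD (κ := κ) (m := m) q) :
    Ca p x ∈ FD (κ := κ) (m := m) q := by
  intro e
  rw [Ca_coeff]
  apply (tw_mem (frobeniusEquiv κ p)).1
  rw [RingEquiv.apply_symm_apply]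
  exact hx _

private theorem frob_tw_cti (i : Fin m) (y : Lam κ m) :
    tw (frobeniusEquiv κ p) (cti i y) = cti i (tw (frobeniusEquiv κ p) y) := by
  unfold cti
  rw [tw_ct]
  congr 2
  ext j
  by_cases h : j = i
  · subst h
    rw [Pi.single_eq_same, map_one]
  · rw [Pi.single_eq_of_ne h, map_zero]

private theorem frob_tw_cte (y : Lam κ m) :
    tw (frobeniusEquiv κ p) (cte y) = cte (tw (frobeniusEquiv κ p) y) := by
  unfold cte
  rw [tw_ct]
  congr 2
  ext j
  exact map_one _

private theorem frob_symm_cti (i : Fin m) (y : Lam κ m) :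
    cti i ((tw (frobeniusEquiv κ p)).symm y) = (tw (frobeniusEquiv κ p)).symm (cti i y) := by
  apply (tw (m := m) (frobeniusEquiv κ p)).injective
  rw [frob_tw_cti, RingEquiv.apply_symm_apply, RingEquiv.apply_symm_apply]

private theorem frob_symm_cte (y : Lam κ m) :
    cte ((tw (frobeniusEquiv κ p)).symm y) = (tw (frobeniusEquiv κ p)).symm (cte y) := by
  apply (tw (m := m) (frobeniusEquiv κ p)).injective
  rw [frob_tw_cte, RingEquiv.apply_symm_apply, RingEquiv.apply_symm_apply]

private theorem frob_pmul_apply (e : Ex m) (i : Fin m) : pmul p m e i = (p : ℤ) * e i := rfl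

private theorem frob_pos : 0 < (p : ℤ) := by exact_mod_cast hp.out.pos

theorem Fr_Reg {I : Set (Fin m)} {x : Fo κ m} (hx : x ∈ Reg (κ := κ) I) :
    Fr p x ∈ Reg (κ := κ) I := by
  intro e i hi
  by_cases h : ∃ e', e = pmul p m e'
  · obtain ⟨e', rfl⟩ := h
    rw [Fr_coeff]
    obtain ⟨h1, h2⟩ := hx e' i hi
    refine ⟨fun h => ?_, fun h => ?_⟩
    · rw [frob_pmul_apply] at h
      rw [h1 (by
        by_contra h'
        push Not at h'
        have := mul_nonneg (frob_pos p).le h'
        omega), map_zero]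
    · rw [frob_pmul_apply] at h
      have h3 : e' i = 0 := by
        rcases mul_eq_zero.1 h with h4 | h4
        · exact absurd h4 (frob_pos p).ne'
        · exact h4
      rw [← frob_tw_cti, h2 h3, map_zero]
  · push Not at h
    rw [Fr_coeff' p x e h]
    exact ⟨fun _ => rfl, fun _ => map_zero _⟩

theorem Ca_Reg {I : Set (Fin m)} {x : Fo κ m} (hx : x ∈ Reg (κ := κ) I) :
    Ca p x ∈ Reg (κ := κ) I := by
  intro e i hi
  rw [Ca_coeff]
  obtain ⟨h1, h2⟩ := hx (pmul p m e) i hi
  rw [frob_pmul_apply] at h1 h2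
  refine ⟨fun h => ?_, fun h => ?_⟩
  · rw [h1 (mul_neg_of_pos_of_neg (frob_pos p) h), map_zero]
  · rw [frob_symm_cti, h2 (by rw [h, mul_zero]), map_zero]

private theorem frob_tot (e : Ex m) : tot (pmul p m e) = (p : ℤ) * tot e := by
  unfold tot
  rw [Finset.mul_sum]
  rfl

theorem Fr_TD {P : Set ℤ} {x : Fo κ m} (hx : x ∈ TD (κ := κ) (m := m) P) :
    Fr p x ∈ TD (κ := κ) (m := m) {t | ∃ s ∈ P, t = p * s} := by
  intro e he
  by_cases h : ∃ e', e = pmul p m e'
  · obtain ⟨e', rfl⟩ := h
    rw [Fr_coeff, hx e' (fun h' => he ⟨tot e', h', frob_tot p e'⟩), map_zero]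
  · push Not at h
    exact Fr_coeff' p x e h

theorem Ca_TD {P : Set ℤ} {x : Fo κ m} (hx : x ∈ TD (κ := κ) (m := m) P) :
    Ca p x ∈ TD (κ := κ) (m := m) {t | (p : ℤ) * t ∈ P} := by
  intro e he
  rw [Ca_coeff, hx _ (fun h' => he (by rw [frob_tot] at h'; exact h')), map_zero]

theorem Ca_smul (a : κ) (x : Fo κ m) : Ca p ((a ^ p) • x) = a • Ca p x := by
  apply fo_ext
  intro e
  rw [Ca_coeff, AddMonoidAlgebra.coeff_smul, Finsupp.smul_apply, tw_symm_smul,
    AddMonoidAlgebra.coeff_smul, Finsupp.smul_apply, Ca_coeff, ← frobeniusEquiv_def κ p a,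
    RingEquiv.symm_apply_apply]

theorem cfe_Ca (x : Fo κ m) : cfe (Ca p x) = Ca p (cfe x) := by
  apply fo_ext
  intro e
  rw [cfe_coeff, Ca_coeff, Ca_coeff, cfe_coeff, frob_symm_cte]

theorem cfe_Fr (x : Fo κ m) : cfe (Fr p x) = Fr p (cfe x) := by
  apply fo_ext
  intro e
  rw [cfe_coeff]
  by_cases h : ∃ e', e = pmul p m e'
  · obtain ⟨e', rfl⟩ := h
    rw [Fr_coeff, Fr_coeff, cfe_coeff, frob_tw_cte]
  · push Not at h
    rw [Fr_coeff' p x e h, Fr_coeff' p _ e h, map_zero]

end MPadcBK
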