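import Pool.Agent.Lib.MP_adc574_ag_HM.IrrA
import Pool.Agent.Lib.MP_adc574_ag_HM.FinC
import Pool.Agent.Lib.MP_adc574_ag_HM.WA

/-!
# GirA: horizontal endomorphisms preserve `EE k` (all degrees)

`HM/SplA.lean` with the hypothesis `∑ w < d` replaced by `∑ w < d (k + 2)`: it is used only for
`[1]_{k+1} ∈ Hprim`.
-/

set_option autoImplicit false

namespace MPadcBK

open MvPolynomial MPadcGM MPadcHM

universe u

private theorem gira_core {A : Type*} [CommRing A] {V : Type*} [AddCommGroup V] [Module A V]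
    (N W : Submodule A V) (R : V → V) (T : V →ₗ[A] V) (hadd : ∀ x y, R (x + y) = R x + R y)
    (hRW : ∀ x ∈ W, R x ∈ W) (hTW : ∀ x ∈ W, T x ∈ W) (hRN : ∀ x ∈ N, R x ∈ N)
    (hTN : ∀ x ∈ N, T x ∈ N) (hR : ∀ (a : A), ∀ x ∈ W, R (a • x) - a • R x ∈ N) (a c : A)
    (h3 : ∀ x ∈ W, R (R x) - a • R x ∈ N)
    (h5 : ∀ x ∈ W, R (T x) - T (R x) - c • T x ∈ N)
    (hc : ∀ y ∈ W, c • y ∈ N → y ∈ N) (hc1 : ∀ y ∈ W, (c + a) • y ∈ N → y ∈ N)
    (hc2 : ∀ y ∈ W, (c - a) • y ∈ N → y ∈ N) (x : V) (hx : x ∈ W) : T x ∈ N := by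
  have h6 : ∀ x ∈ W, (2 : A) • T (R x) + (c - a) • T x ∈ N := by
    intro x hx
    refine hc _ (Submodule.add_mem _ (Submodule.smul_mem _ _ (hTW _ (hRW _ hx)))
      (Submodule.smul_mem _ _ (hTW _ hx))) ?_
    have hRx := hRW _ hx
    have hTx := hTW _ hx
    have e1 := h5 x hx
    have e2 := hRN _ e1
    have e3 := h5 (R x) hRx
    have e4 := h3 (T x) hTx
    have e5 := hTN _ (h3 x hx)
    have e6 := hR c (T x) hTx
    have e7 : R (T x) = (R (T x) - T (R x) - c • T x) + (T (R x) + c • T x) := by abel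
    have e8 : R (R (T x)) = R (R (T x) - T (R x) - c • T x) + (R (T (R x)) + R (c • T x)) := by
      conv_lhs => rw [e7]
      rw [hadd, hadd]
    have e9 : T (R (R x) - a • R x) = T (R (R x)) - a • T (R x) := by
      rw [map_sub, map_smul]
    rw [e9] at e5
    have e10 : c • ((2 : A) • T (R x) + (c - a) • T x) =
        (R (R (T x)) - a • R (T x)) - R (R (T x) - T (R x) - c • T x) -
        (R (T (R x)) - T (R (R x)) - c • T (R x)) - (T (R (R x)) - a • T (R x)) -
        (R (c • T x) - c • R (T x)) + (a - c) • (R (T x) - T (R x) - c • T x) := by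
      rw [e8]
      module
    rw [e10]
    exact Submodule.add_mem _ (Submodule.sub_mem _ (Submodule.sub_mem _ (Submodule.sub_mem _
      (Submodule.sub_mem _ e4 e2) e3) e5) e6) (Submodule.smul_mem _ _ e1)
  have h7 : T (R x) ∈ N := by
    have hRx := hRW _ hx
    refine hc1 _ (hTW _ hRx) ?_
    have e1 := h6 (R x) hRx
    have e2 := hTN _ (h3 x hx)
    rw [map_sub, map_smul] at e2
    have e3 : (c + a) • T (R x) = ((2 : A) • T (R (R x)) + (c - a) • T (R x)) -
        (2 : A) • (T (R (R x)) - a • T (R x)) := by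
      module
    rw [e3]
    exact Submodule.sub_mem _ e1 (Submodule.smul_mem _ _ e2)
  refine hc2 _ (hTW _ hx) ?_
  have e1 := h6 x hx
  have e2 : (c - a) • T x = ((2 : A) • T (R x) + (c - a) • T x) - (2 : A) • T (R x) := by
    module
  rw [e2]
  exact Submodule.sub_mem _ e1 (Submodule.smul_mem _ _ h7)

private theorem gira_nd {F : Type*} [Field F] {p f : Polynomial F} (hp : Irreducible p)
    (hf : ¬ p ∣ f) {b : F} (hb : b ≠ 0) : ¬ p ∣ Polynomial.C b * f := by
  intro h
  rcases hp.prime.dvd_or_dvd h with h1 | h1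
  · exact hp.not_isUnit (isUnit_of_dvd_unit h1 (Polynomial.isUnit_C.2 (isUnit_iff_ne_zero.2 hb)))
  · exact hf h1

private theorem gira_cancel {F : Type*} [Field F] {V : Type*} [AddCommGroup V]
    [Module (Polynomial F) V] {W N : Submodule (Polynomial F) V} {p : Polynomial F}
    (hp : Irreducible p) (hN : ∀ z ∈ W, p • z ∈ N) {a : Polynomial F} (ha : ¬ p ∣ a) (y : V)
    (hy : y ∈ W) (hay : a • y ∈ N) : y ∈ N := by
  obtain ⟨s, t, hst⟩ := (hp.coprime_iff_not_dvd).2 ha
  have h1 : y = p • (s • y) + t • (a • y) := by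
    rw [smul_smul, smul_smul, ← add_smul, mul_comm p s, hst, one_smul]
  rw [h1]
  exact N.add_mem (hN _ (W.smul_mem _ hy)) (N.smul_mem _ hay)

private theorem gira_key {F : Type*} [Field F] [CharZero F] {V : Type*} [AddCommGroup V]
    [Module (Polynomial F) V] (W : Submodule (Polynomial F) V) (nab : V → V)
    (nadd : ∀ x y, nab (x + y) = nab x + nab y)
    (leib : ∀ (p : Polynomial F) (x : V),
      nab (p • x) = Polynomial.derivative p • x + p • nab x)
    (e : V →ₗ[Polynomial F] V) (hcomm : ∀ x ∈ W, nab (e x) = e (nab x))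
    (δ : Polynomial F) (hδ : δ.Separable) (α : F) (hα : α = 0 ∨ ∀ m : ℤ, α ≠ m)
    (u : V) (hu : δ • u ∈ W) (hWu : ∀ x ∈ W, ∃ p : Polynomial F, nab x - p • u ∈ W)
    (hru : nab (δ • u) - (Polynomial.C α * Polynomial.derivative δ) • u ∈ W)
    (p q : Polynomial F) (hp : Irreducible p) (hnd : ¬ p ∣ q) (m : ℕ)
    (hq : ∀ x ∈ W, (p ^ (m + 1) * q) • e x ∈ W) (x : V) (hx : x ∈ W) :
    ∃ z ∈ W, p • z = (p ^ (m + 1) * q) • e x := by
  set N : Submodule (Polynomial F) V := W.map (LinearMap.lsmul (Polynomial F) V p) with hNdef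
  have hN : ∀ y, y ∈ N ↔ ∃ z ∈ W, p • z = y := by
    intro y
    rw [hNdef, Submodule.mem_map]
    rfl
  have hN1 : ∀ z ∈ W, p • z ∈ N := fun z hz => (hN _).2 ⟨z, hz, rfl⟩
  rw [← hN]
  have hRW : ∀ x ∈ W, δ • nab x ∈ W := by
    intro x hx
    obtain ⟨r, hr⟩ := hWu x hx
    have h1 : δ • nab x = δ • (nab x - r • u) + r • (δ • u) := by module
    rw [h1]
    exact W.add_mem (W.smul_mem _ hr) (W.smul_mem _ hu)
  have hm0 : ((m : F) + 1) ≠ 0 := by exact_mod_cast Nat.succ_ne_zero m
  have hCm : (Polynomial.C ((m : F) + 1) : Polynomial F) = (m : Polynomial F) + 1 := by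
    rw [map_add, map_natCast, map_one]
  have hder : Polynomial.derivative (p ^ (m + 1) * q) =
      p ^ m * (Polynomial.C ((m : F) + 1) * Polynomial.derivative p * q +
        p * Polynomial.derivative q) := by
    rw [Polynomial.derivative_mul, Polynomial.derivative_pow_succ, hCm]
    ring
  have h4 : ∀ x ∈ W, δ • nab ((p ^ (m + 1) * q) • e x) -
      (p ^ (m + 1) * q) • e (δ • nab x) =
      (δ * Polynomial.derivative (p ^ (m + 1) * q)) • e x := by
    intro x hx
    rw [leib, hcomm x hx, map_smul]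
    module
  by_cases hpd : p ∣ δ
  · obtain ⟨δ₂, hδ₂⟩ := hpd
    have hpd' : ¬ p ∣ Polynomial.derivative δ := fun h =>
      hp.not_isUnit (hδ.isUnit_of_dvd' ⟨δ₂, hδ₂⟩ h)
    have hdN : ∀ z ∈ W, δ • z ∈ N := by
      intro z hz
      rw [hδ₂, mul_smul]
      exact hN1 _ (W.smul_mem _ hz)
    have hder2 : Polynomial.derivative δ = Polynomial.derivative p * δ₂ +
        p * Polynomial.derivative δ₂ := by
      rw [hδ₂, Polynomial.derivative_mul]
    have hmα : ((m : F) + 1) + α ≠ 0 := by
      rcases hα with h | h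
      · rw [h, add_zero]
        exact hm0
      · intro h1
        refine h (-((m : ℤ) + 1)) ?_
        push_cast
        linear_combination h1
    have hmα' : ((m : F) + 1) - α ≠ 0 := by
      rcases hα with h | h
      · rw [h, sub_zero]
        exact hm0
      · intro h1
        refine h ((m : ℤ) + 1) ?_
        push_cast
        linear_combination -h1
    refine gira_core N W (fun x => δ • nab x) ((p ^ (m + 1) * q) • e) ?_ hRW ?_ ?_ ?_ ?_
      (Polynomial.C α * Polynomial.derivative δ)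
      (Polynomial.C ((m : F) + 1) * Polynomial.derivative δ) ?_ ?_ ?_ ?_ ?_ x hx
    · intro x y
      simp only [nadd, smul_add]
    · intro x hx
      rw [LinearMap.smul_apply]
      exact hq x hx
    · intro y hy
      obtain ⟨z, hz, rfl⟩ := (hN _).1 hy
      have h1 : δ • nab (p • z) = p • ((δ₂ * Polynomial.derivative p) • z + δ • nab z) := by
        rw [leib]
        conv_lhs => rw [hδ₂]
        conv_rhs => rw [hδ₂]
        module
      show δ • nab (p • z) ∈ N
      rw [h1]
      exact hN1 _ (W.add_mem (W.smul_mem _ hz) (hRW z hz))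
    · intro y hy
      obtain ⟨z, hz, rfl⟩ := (hN _).1 hy
      rw [map_smul]
      refine hN1 _ ?_
      rw [LinearMap.smul_apply]
      exact hq z hz
    · intro a x hx
      have h1 : δ • nab (a • x) - a • δ • nab x = δ • (Polynomial.derivative a • x) := by
        rw [leib]
        module
      show δ • nab (a • x) - a • δ • nab x ∈ N
      rw [h1]
      exact hdN _ (W.smul_mem _ hx)
    · intro x hx
      obtain ⟨r, hr⟩ := hWu x hx
      obtain ⟨y, hy⟩ : ∃ y, y = nab x - r • u := ⟨_, rfl⟩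
      obtain ⟨z, hz⟩ : ∃ z, z = nab (δ • u) -
        (Polynomial.C α * Polynomial.derivative δ) • u := ⟨_, rfl⟩
      rw [← hy] at hr
      rw [← hz] at hru
      have e1 : nab x = y + r • u := by rw [hy]; abel
      have e2 : δ • nab x = δ • y + r • (δ • u) := by rw [e1]; module
      have e3 : nab (δ • u) = z + (Polynomial.C α * Polynomial.derivative δ) • u := by
        rw [hz]; abel
      have e4 : nab (δ • nab x) = Polynomial.derivative δ • y + δ • nab y +
          Polynomial.derivative r • (δ • u) +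
          r • (z + (Polynomial.C α * Polynomial.derivative δ) • u) := by
        rw [e2, nadd, leib, leib, e3]
        abel
      have e5 : δ • nab (δ • nab x) - (Polynomial.C α * Polynomial.derivative δ) • (δ • nab x) =
          δ • (Polynomial.derivative δ • y + δ • nab y + Polynomial.derivative r • (δ • u) +
            r • z - (Polynomial.C α * Polynomial.derivative δ) • y) := by
        rw [e4, e2]
        module
      show δ • nab (δ • nab x) - (Polynomial.C α * Polynomial.derivative δ) • (δ • nab x) ∈ N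
      rw [e5]
      exact hdN _ (W.sub_mem (W.add_mem (W.add_mem (W.add_mem (W.smul_mem _ hr) (hRW _ hr))
        (W.smul_mem _ hu)) (W.smul_mem _ hru)) (W.smul_mem _ hr))
    · intro x hx
      show δ • nab ((p ^ (m + 1) * q) • e x) - (p ^ (m + 1) * q) • e (δ • nab x) -
        (Polynomial.C ((m : F) + 1) * Polynomial.derivative δ) • ((p ^ (m + 1) * q) • e x) ∈ N
      have hT := hq x hx
      refine gira_cancel hp hN1 hnd _ (W.sub_mem (W.sub_mem (hRW _ hT) (hq _ (hRW x hx)))
        (W.smul_mem _ hT)) ?_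
      rw [h4 x hx, hder]
      have e1 : q • ((δ * (p ^ m * (Polynomial.C ((m : F) + 1) * Polynomial.derivative p * q +
          p * Polynomial.derivative q))) • e x -
          (Polynomial.C ((m : F) + 1) * Polynomial.derivative δ) •
            ((p ^ (m + 1) * q) • e x)) =
          p • ((δ₂ * Polynomial.derivative q - Polynomial.C ((m : F) + 1) * q *
            Polynomial.derivative δ₂) • ((p ^ (m + 1) * q) • e x)) := by
        rw [hder2, hδ₂]
        simp only [smul_smul, ← sub_smul]
        congr 1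
        ring
      rw [e1]
      exact hN1 _ (W.smul_mem _ hT)
    · exact fun y hy hy' => gira_cancel hp hN1 (gira_nd hp hpd' hm0) y hy hy'
    · intro y hy hy'
      rw [← add_mul, ← map_add] at hy'
      exact gira_cancel hp hN1 (gira_nd hp hpd' hmα) y hy hy'
    · intro y hy hy'
      rw [← sub_mul, ← map_sub] at hy'
      exact gira_cancel hp hN1 (gira_nd hp hpd' hmα') y hy hy'
  · have hT := hq x hx
    have hpp : ¬ p ∣ Polynomial.derivative p := fun h =>
      hp.not_isUnit (hp.separable.isUnit_of_dvd' dvd_rfl h)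
    have hy : (δ * Polynomial.derivative (p ^ (m + 1) * q)) • e x ∈ W := by
      rw [← h4 x hx]
      exact W.sub_mem (hRW _ hT) (hq _ (hRW x hx))
    have ha : ¬ p ∣ δ * (Polynomial.C ((m : F) + 1) * (Polynomial.derivative p * q)) := by
      intro h
      rcases hp.prime.dvd_or_dvd h with h1 | h1
      · exact hpd h1
      · refine gira_nd hp ?_ hm0 h1
        intro h2
        rcases hp.prime.dvd_or_dvd h2 with h3 | h3
        · exact hpp h3
        · exact hnd h3
    refine gira_cancel hp hN1 ha _ hT ?_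
    have e1 : (δ * (Polynomial.C ((m : F) + 1) * (Polynomial.derivative p * q))) •
        ((p ^ (m + 1) * q) • e x) =
        p • (q • ((δ * Polynomial.derivative (p ^ (m + 1) * q)) • e x)) -
        p • ((δ * Polynomial.derivative q) • ((p ^ (m + 1) * q) • e x)) := by
      rw [hder]
      simp only [smul_smul, ← sub_smul]
      congr 1
      ring
    rw [e1]
    exact N.sub_mem (hN1 _ (W.smul_mem _ hy)) (hN1 _ (W.smul_mem _ hT))

private theorem gira_all {F : Type*} [Field F] [CharZero F] {V : Type*} [AddCommGroup V]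
    [Module (Polynomial F) V] (W : Submodule (Polynomial F) V)
    (tf : ∀ (p : Polynomial F) (y z : V), p ≠ 0 → p • y = p • z → y = z) (nab : V → V)
    (nadd : ∀ x y, nab (x + y) = nab x + nab y)
    (leib : ∀ (p : Polynomial F) (x : V),
      nab (p • x) = Polynomial.derivative p • x + p • nab x)
    (e : V →ₗ[Polynomial F] V) (hcomm : ∀ x ∈ W, nab (e x) = e (nab x))
    (δ : Polynomial F) (hδ : δ.Separable) (α : F) (hα : α = 0 ∨ ∀ m : ℤ, α ≠ m)
    (u : V) (hu : δ • u ∈ W) (hWu : ∀ x ∈ W, ∃ p : Polynomial F, nab x - p • u ∈ W)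
    (hru : nab (δ • u) - (Polynomial.C α * Polynomial.derivative δ) • u ∈ W) (d : ℕ) :
    ∀ q : Polynomial F, q.natDegree = d → q ≠ 0 → (∀ x ∈ W, q • e x ∈ W) →
      ∀ x ∈ W, e x ∈ W := by
  induction d using Nat.strong_induction_on with
  | _ d ih =>
    intro q hqd hq0 hq
    by_cases hun : IsUnit q
    · obtain ⟨q', hq'⟩ := hun.exists_left_inv
      intro x hx
      have h1 := W.smul_mem q' (hq x hx)
      rwa [smul_smul, hq', one_smul] at h1
    · obtain ⟨p, hp, hdvd⟩ := WfDvdMonoid.exists_irreducible_factor hun hq0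
      obtain ⟨m, q₂, hnd, hqe⟩ := WfDvdMonoid.max_power_factor hq0 hp
      obtain _ | m := m
      · rw [pow_zero, one_mul] at hqe
        rw [hqe] at hdvd
        exact absurd hdvd hnd
      · subst hqe
        have hq₂ : q₂ ≠ 0 := fun h => hnd (h ▸ dvd_zero p)
        have hfac : p ^ (m + 1) * q₂ = p * (p ^ m * q₂) := by ring
        have hne : p ^ m * q₂ ≠ 0 := mul_ne_zero (pow_ne_zero _ hp.ne_zero) hq₂
        refine ih (p ^ m * q₂).natDegree ?_ _ rfl hne ?_
        · rw [← hqd, hfac, Polynomial.natDegree_mul hp.ne_zero hne]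
          have := hp.natDegree_pos
          omega
        · intro x hx
          obtain ⟨z, hz, hz'⟩ := gira_key W nab nadd leib e hcomm δ hδ α hα u hu hWu hru p q₂ hp hnd
            m hq x hx
          rw [hfac, mul_smul] at hz'
          rw [← tf p _ _ hp.ne_zero hz']
          exact hz

variable {κ : Type u} [Field κ] [CharZero κ] {n : ℕ} {S : Dat κ n} {H : Type u} [AddCommGroup H]
  [Module (RatFunc κ) H] [Module κ H] [IsScalarTower κ (RatFunc κ) H] [Module (Polynomial κ) H]
  [IsScalarTower (Polynomial κ) (RatFunc κ) H] [IsScalarTower κ (Polynomial κ) H]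
  {nab : H →ₗ[κ] H} {br : MvPolynomial (Fin n) κ →ₗ[κ] H}

omit [CharZero κ] [IsScalarTower κ (RatFunc κ) H] [IsScalarTower (Polynomial κ) (RatFunc κ) H]
  [IsScalarTower κ (Polynomial κ) H] [Module (Polynomial κ) H] in
/-- `[1]_k` is primitive as soon as `∑ w < d (k + 1)`. -/
theorem lv_one_mem' (k : ℕ) (hwk : ∑ i, S.w i < S.d * (k + 1)) :
    lv nab br k (1 : MvPolynomial (Fin n) κ) ∈ Hprim S nab br := by
  unfold Hprim
  refine Submodule.subset_span ⟨k, 0, ?_, rfl⟩
  have h1 : wtp S.w (0 : Fin n →₀ ℕ) = ∑ i, S.w i := by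
    unfold wtp
    simp
  rw [h1]
  exact hwk

private theorem gira_mult (hn : 0 < n) (hS : S.Ok) (hG : IsGM S nab br) (k : ℕ)
    (e : H →ₗ[RatFunc κ] H) :
    ∃ q : Polynomial κ, q ≠ 0 ∧ ∀ x ∈ EE nab br k, q • e x ∈ EE nab br k := by
  classical
  obtain ⟨G, hGs⟩ := EE_fg (S := S) hn hS hG k
  choose p hp0 hp using fun g : H => EE_span hG k (e g)
  refine ⟨∏ g ∈ G, p g, Finset.prod_ne_zero_iff.2 fun g _ => hp0 g, fun x hx => ?_⟩
  rw [← hGs] at hx
  refine Submodule.span_induction (p := fun x _ => (∏ g ∈ G, p g) • e x ∈ EE nab br k)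
    ?_ ?_ ?_ ?_ hx
  · intro g hg
    obtain ⟨c, hc⟩ := Finset.dvd_prod_of_mem p (Finset.mem_coe.1 hg)
    rw [hc, mul_comm, mul_smul]
    exact Submodule.smul_mem _ _ (hp g)
  · rw [map_zero, smul_zero]
    exact Submodule.zero_mem _
  · intro x y _ _ hx hy
    rw [map_add, smul_add]
    exact Submodule.add_mem _ hx hy
  · intro a x _ hx
    have h1 : e (a • x) = a • e x := by
      rw [← algebraMap_smul (RatFunc κ) a x, map_smul, algebraMap_smul]
    rw [h1, smul_comm]
    exact Submodule.smul_mem _ _ hx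

theorem split_fin' (hn : 0 < n) (hS : S.Ok) (hG : IsGM S nab br) (k : ℕ)
    (hwk : ∑ i, S.w i < S.d * (k + 2))
    (hα : (n : κ) / 2 - 1 - k = 0 ∨ ∀ m : ℤ, (n : κ) / 2 - 1 - k ≠ m)
    (e : H →ₗ[RatFunc κ] H) (he : ∀ x ∈ Hprim S nab br, e x ∈ Hprim S nab br)
    (hcomm : ∀ x ∈ Hprim S nab br, nab (e x) = e (nab x)) (x : H) (hx : x ∈ EE nab br k)
    (hx' : x ∈ Hprim S nab br) : e x ∈ EE nab br k := by
  have tf : ∀ (p : Polynomial κ) (y z : H), p ≠ 0 → p • y = p • z → y = z := by
    intro p y z hp h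
    have hp' : algebraMap (Polynomial κ) (RatFunc κ) p ≠ 0 := by
      intro h0
      exact hp ((IsFractionRing.injective (Polynomial κ) (RatFunc κ)) (by rw [h0, map_zero]))
    rw [← algebraMap_smul (RatFunc κ) p y, ← algebraMap_smul (RatFunc κ) p z] at h
    exact smul_right_injective H hp' h
  have leib : ∀ (p : Polynomial κ) (x : H),
      nab (p • x) = Polynomial.derivative p • x + p • nab x := by
    intro p x
    rw [← algebraMap_smul (RatFunc κ) p x, hG.leib, DK_poly, algebraMap_smul, algebraMap_smul]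
  have tower : ∀ (p : Polynomial κ) (x : H), x ∈ Hprim S nab br → p • x ∈ Hprim S nab br := by
    intro p x hx
    rw [← algebraMap_smul (RatFunc κ) p x]
    exact Submodule.smul_mem _ _ hx
  have hup := lv_one_mem' (nab := nab) (br := br) (k + 1) hwk
  obtain ⟨q, hq0, hq⟩ := gira_mult hn hS hG k e
  have key := gira_all (EE nab br k ⊓ (Hprim S nab br).restrictScalars (Polynomial κ)) tf nab
    (fun x y => map_add nab x y) leib (e.restrictScalars (Polynomial κ))
    (fun x hx => hcomm x hx.2) S.δ hS.sep _ hα (lv nab br (k + 1) 1)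
    ⟨EE_delta hS hG k, tower _ _ hup⟩
    (fun x hx => by
      obtain ⟨p, hp⟩ := EE_succ hS hG k (nab x) (EE_nab hG k x hx.1)
      exact ⟨p, hp, Submodule.sub_mem _ (Hprim_nab hG x hx.2) (tower _ _ hup)⟩)
    ⟨residue_exp hS hG k, Submodule.sub_mem _ (Hprim_nab hG _ (tower _ _ hup)) (tower _ _ hup)⟩
    q.natDegree q rfl hq0 (fun x hx => ⟨hq x hx.1, tower _ _ (he x hx.2)⟩) x ⟨hx, hx'⟩
  exact key.1

end MPadcBK
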