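import Pool.Agent.Lib.MP_adc574_ag_BK.GirA

/-!
# GirB: levels `m` with `d m ≤ ∑ w < d (m + 1)`

* `EE_surj`: `EE (m + 1) ⊂ nab (EE m)`: `EE k` is spanned over `κ` by the `[x^e]_j`, `j ≤ k` (`t [P]_j = [φ P]_j - [P]_{j-1}`), `[x^e]_{j+1} = (j+1)⁻¹ nab [x^e]_j`, `[x^e]_0 = nab [Q ∂_iφ]_0` with `∂_i Q = x^e`.
* `InW_nab`: `nab W_q ⊂ W_{q-d}`.
* `EE_low`: if `d m ≤ ∑ w` then `EE m ∩ W_{∑ w - d - d m} = κ [1]_m`: induction on `m`. `x = nab y`, `y ∈ EE (m - 1)`. If `y ∈ W_q` with `q > q₀ = ∑ w - d m ≥ 0` then `t nab y - (q/d) y ∈ W_{q-1}` and `t nab y ∈ W_{q₀} ⊂ W_{q-1}`, so `y ∈ W_{q-1}`. Hence `y ∈ W_{q₀}`.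
* `split_down'`: `e` maps `EE m ∩ Hprim` to `EE m` for `m ≤ k`.
-/

set_option autoImplicit false
set_option linter.unusedSectionVars false

namespace MPadcBK

open MvPolynomial MPadcGM MPadcHM

universe u

variable {κ : Type u} [Field κ] [CharZero κ] {n : ℕ} {S : Dat κ n} {H : Type u} [AddCommGroup H]
  [Module (RatFunc κ) H] [Module κ H] [IsScalarTower κ (RatFunc κ) H] [Module (Polynomial κ) H]
  [IsScalarTower (Polynomial κ) (RatFunc κ) H] [IsScalarTower κ (Polynomial κ) H]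
  {nab : H →ₗ[κ] H} {br : MvPolynomial (Fin n) κ →ₗ[κ] H}

private theorem girb_mono {i k : ℕ} (h : i ≤ k) : EE nab br i ≤ EE nab br k := by
  apply Submodule.span_mono
  rintro x ⟨j, e, hj, rfl⟩
  exact ⟨j, e, hj.trans h, rfl⟩

private theorem girb_iter (hG : IsGM S nab br) (j i : ℕ) (x : H) (hx : x ∈ EE nab br j) :
    (nab^[i]) x ∈ EE nab br (j + i) := by
  induction i with
  | zero => exact hx
  | succ i ih =>
    rw [Function.iterate_succ_apply']
    exact EE_nab hG (j + i) _ ih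

private theorem girb_leib (hG : IsGM S nab br) (p : Polynomial κ) (x : H) :
    nab (p • x) = Polynomial.derivative p • x + p • nab x := by
  rw [← algebraMap_smul (RatFunc κ) p x, hG.leib, DK_poly, algebraMap_smul, algebraMap_smul]

private theorem girb_top (hG : IsGM S nab br) (j i : ℕ) (p : Polynomial κ) :
    ∃ c : κ, c ≠ 0 ∧ (nab^[i]) (p • lv nab br (j + 1) (1 : MvPolynomial (Fin n) κ)) -
      (Polynomial.C c * p) • lv nab br (j + 1 + i) (1 : MvPolynomial (Fin n) κ) ∈
        EE nab br (j + i) := by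
  induction i with
  | zero =>
    refine ⟨1, one_ne_zero, ?_⟩
    rw [Polynomial.C_1, one_mul]
    have : (nab^[0]) (p • lv nab br (j + 1) (1 : MvPolynomial (Fin n) κ)) =
      p • lv nab br (j + 1) (1 : MvPolynomial (Fin n) κ) := rfl
    rw [this]
    have e : p • lv nab br (j + 1) (1 : MvPolynomial (Fin n) κ) -
        p • lv nab br (j + 1 + 0) (1 : MvPolynomial (Fin n) κ) = 0 := sub_self _
    rw [e]
    exact Submodule.zero_mem _
  | succ i ih =>
    obtain ⟨c, hc, hz⟩ := ih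
    have hne : (((j + 1 + i : ℕ) : κ) + 1) ≠ 0 := by exact_mod_cast Nat.succ_ne_zero (j + 1 + i)
    refine ⟨c * (((j + 1 + i : ℕ) : κ) + 1), mul_ne_zero hc hne, ?_⟩
    rw [Function.iterate_succ_apply']
    obtain ⟨y, hy⟩ : ∃ y : H, y = (nab^[i]) (p • lv nab br (j + 1) (1 : MvPolynomial (Fin n) κ)) :=
      ⟨_, rfl⟩
    rw [← hy] at hz ⊢
    obtain ⟨L, hL⟩ : ∃ L : H, L = lv nab br (j + 1 + i) (1 : MvPolynomial (Fin n) κ) := ⟨_, rfl⟩
    have hnL : nab L = (((j + 1 + i : ℕ) : κ) + 1) •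
        lv nab br (j + 1 + (i + 1)) (1 : MvPolynomial (Fin n) κ) := by
      rw [hL]; exact nab_lv (j + 1 + i) _
    rw [← hL] at hz
    have h1 := EE_nab hG (j + i) _ hz
    have h2 : Polynomial.derivative (Polynomial.C c * p) • L ∈ EE nab br (j + (i + 1)) := by
      apply Submodule.smul_mem
      rw [hL]
      exact EE_mem (j + (i + 1)) (j + 1 + i) (by omega) _
    rw [map_sub, girb_leib hG, hnL] at h1
    have e1 : (Polynomial.C c * p) • (((j + 1 + i : ℕ) : κ) + 1) •
        lv nab br (j + 1 + (i + 1)) (1 : MvPolynomial (Fin n) κ) =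
        (Polynomial.C (c * (((j + 1 + i : ℕ) : κ) + 1)) * p) •
          lv nab br (j + 1 + (i + 1)) (1 : MvPolynomial (Fin n) κ) := by
      rw [← finab_C (((j + 1 + i : ℕ) : κ) + 1), smul_smul, Polynomial.C_mul]
      congr 1
      ring
    rw [e1] at h1
    have e2 : nab y - (Polynomial.C (c * (((j + 1 + i : ℕ) : κ) + 1)) * p) •
          lv nab br (j + 1 + (i + 1)) (1 : MvPolynomial (Fin n) κ) =
        (nab y - (Polynomial.derivative (Polynomial.C c * p) • L +
          (Polynomial.C (c * (((j + 1 + i : ℕ) : κ) + 1)) * p) •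
          lv nab br (j + 1 + (i + 1)) (1 : MvPolynomial (Fin n) κ))) +
        Polynomial.derivative (Polynomial.C c * p) • L := by abel
    rw [e2]
    exact Submodule.add_mem _ h1 h2

private theorem girb_down (hS : S.Ok) (hG : IsGM S nab br) (k : ℕ)
    (hAnn : ∀ a : Polynomial κ, a • lv nab br (k + 1) (1 : MvPolynomial (Fin n) κ) ∈
      EE nab br k → S.δ ∣ a) (j : ℕ) (hj : j + 1 ≤ k) (y : H) (hy : y ∈ EE nab br (j + 1))
    (hy' : (nab^[k - j]) y ∈ EE nab br k) : y ∈ EE nab br j := by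
  obtain ⟨p, hp⟩ := EE_succ hS hG j y hy
  obtain ⟨c, hc, hz⟩ := girb_top (nab := nab) (br := br) hG j (k - j) p
  have e0 : j + (k - j) = k := by omega
  have e1 : j + 1 + (k - j) = k + 1 := by omega
  rw [e0, e1] at hz
  have h1 := girb_iter hG j (k - j) _ hp
  rw [e0, iterate_map_sub] at h1
  have h2 : (Polynomial.C c * p) • lv nab br (k + 1) (1 : MvPolynomial (Fin n) κ) ∈
      EE nab br k := by
    have h3 := Submodule.sub_mem _ (Submodule.sub_mem _ hy' h1) hz
    rw [sub_sub_cancel, sub_sub_cancel] at h3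
    exact h3
  obtain ⟨s, hs⟩ := hAnn _ h2
  have h4 : p = S.δ * (Polynomial.C c⁻¹ * s) := by
    have h5 : Polynomial.C c⁻¹ * (Polynomial.C c * p) = p := by
      rw [← mul_assoc, ← Polynomial.C_mul, inv_mul_cancel₀ hc, Polynomial.C_1, one_mul]
    rw [← h5, hs]
    ring
  have h6 : p • lv nab br (j + 1) (1 : MvPolynomial (Fin n) κ) ∈ EE nab br j := by
    rw [h4, mul_comm, mul_smul]
    exact Submodule.smul_mem _ _ (EE_delta hS hG j)
  have h7 := Submodule.add_mem _ hp h6
  rwa [sub_add_cancel] at h7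

theorem split_down' (hS : S.Ok) (hG : IsGM S nab br) (k : ℕ)
    (hAnn : ∀ a : Polynomial κ, a • lv nab br (k + 1) (1 : MvPolynomial (Fin n) κ) ∈
      EE nab br k → S.δ ∣ a)
    (e : H →ₗ[RatFunc κ] H) (hcomm : ∀ x ∈ Hprim S nab br, nab (e x) = e (nab x))
    (h0 : ∀ x ∈ EE nab br k, x ∈ Hprim S nab br → e x ∈ EE nab br k) (m : ℕ) (hmk : m ≤ k) (x : H)
    (hx : x ∈ EE nab br m) (hx' : x ∈ Hprim S nab br) : e x ∈ EE nab br m := by
  have hit : ∀ i : ℕ, (nab^[i]) x ∈ Hprim S nab br ∧ (nab^[i]) (e x) = e ((nab^[i]) x) := by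
    intro i
    induction i with
    | zero => exact ⟨hx', rfl⟩
    | succ i ih =>
      rw [Function.iterate_succ_apply', Function.iterate_succ_apply', ih.2]
      exact ⟨Hprim_nab hG _ ih.1, hcomm _ ih.1⟩
  have hk : ∀ i : ℕ, m + i ≤ k → (nab^[i]) (e x) ∈ EE nab br k := by
    intro i hi
    rw [(hit i).2]
    refine h0 _ ?_ (hit i).1
    have h1 := girb_iter hG m i x hx
    exact girb_mono hi h1
  have key : ∀ i : ℕ, m + i ≤ k → e x ∈ EE nab br (k - i) := by
    intro i
    induction i with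
    | zero => intro _; exact hk 0 (by omega)
    | succ i ih =>
      intro hi
      have h1 := ih (by omega)
      have e1 : k - i = (k - (i + 1)) + 1 := by omega
      rw [e1] at h1
      refine girb_down hS hG k hAnn (k - (i + 1)) (by omega) (e x) h1 (hk _ ?_)
      omega
  have h1 := key (k - m) (by omega)
  have e1 : k - (k - m) = m := by omega
  rwa [e1] at h1

/-! ### Surjectivity of `nab` -/

private theorem girb_lvmem (j k : ℕ) (hj : j ≤ k) (P : MvPolynomial (Fin n) κ) :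
    lv nab br j P ∈ Submodule.span κ
      {h | ∃ (j : ℕ) (e : Fin n →₀ ℕ), j ≤ k ∧ h = lv nab br j (monomial e 1)} := by
  have h1 : P = ∑ e ∈ P.support, coeff e P • monomial e (1 : κ) := by
    conv_lhs => rw [P.as_sum]
    refine Finset.sum_congr rfl fun e _ => ?_
    rw [smul_monomial, smul_eq_mul, mul_one]
  rw [h1, map_sum]
  refine Submodule.sum_mem _ fun e he => ?_
  rw [map_smul]
  exact Submodule.smul_mem _ _ (Submodule.subset_span ⟨j, e, hj, rfl⟩)

private theorem girb_X (hG : IsGM S nab br) (k : ℕ) (x : H)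
    (hx : x ∈ Submodule.span κ
      {h | ∃ (j : ℕ) (e : Fin n →₀ ℕ), j ≤ k ∧ h = lv nab br j (monomial e 1)}) :
    (Polynomial.X : Polynomial κ) • x ∈ Submodule.span κ
      {h | ∃ (j : ℕ) (e : Fin n →₀ ℕ), j ≤ k ∧ h = lv nab br j (monomial e 1)} := by
  induction hx using Submodule.span_induction with
  | mem x hx =>
    obtain ⟨j, e, hj, rfl⟩ := hx
    rw [← finab_X]
    obtain _ | j := j
    · rw [lv_zero, ← hG.mul, ← lv_zero (nab := nab) (br := br)]
      exact girb_lvmem 0 k (Nat.zero_le _) _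
    · have h1 := lv_mul hG j (monomial e (1 : κ))
      have h2 : (RatFunc.X : RatFunc κ) • lv nab br (j + 1) (monomial e (1 : κ)) =
          lv nab br (j + 1) (S.φ * monomial e (1 : κ)) - lv nab br j (monomial e (1 : κ)) := by
        rw [h1]
        abel
      rw [h2]
      exact Submodule.sub_mem _ (girb_lvmem (j + 1) k hj _) (girb_lvmem j k (by omega) _)
  | zero => rw [smul_zero]; exact Submodule.zero_mem _
  | add x y _ _ hx hy => rw [smul_add]; exact Submodule.add_mem _ hx hy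
  | smul a x _ hx =>
    rw [smul_comm]
    exact Submodule.smul_mem _ _ hx

private theorem girb_poly (hG : IsGM S nab br) (k : ℕ) (a : Polynomial κ) (x : H)
    (hx : x ∈ Submodule.span κ
      {h | ∃ (j : ℕ) (e : Fin n →₀ ℕ), j ≤ k ∧ h = lv nab br j (monomial e 1)}) :
    a • x ∈ Submodule.span κ
      {h | ∃ (j : ℕ) (e : Fin n →₀ ℕ), j ≤ k ∧ h = lv nab br j (monomial e 1)} := by
  induction a using Polynomial.induction_on' with
  | add p q hp hq => rw [add_smul]; exact Submodule.add_mem _ hp hq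
  | monomial m c =>
    rw [← Polynomial.C_mul_X_pow_eq_monomial, mul_smul, finab_C]
    refine Submodule.smul_mem _ _ ?_
    induction m with
    | zero => rw [pow_zero, one_smul]; exact hx
    | succ m ih =>
      rw [pow_succ', mul_smul]
      exact girb_X hG k _ ih

private theorem girb_span (hG : IsGM S nab br) (k : ℕ) (x : H) (hx : x ∈ EE nab br k) :
    x ∈ Submodule.span κ
      {h | ∃ (j : ℕ) (e : Fin n →₀ ℕ), j ≤ k ∧ h = lv nab br j (monomial e 1)} := by
  unfold EE at hx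
  induction hx using Submodule.span_induction with
  | mem x hx => exact Submodule.subset_span hx
  | zero => exact Submodule.zero_mem _
  | add x y _ _ hx hy => exact Submodule.add_mem _ hx hy
  | smul a x _ hx => exact girb_poly hG k a x hx

theorem EE_surj (hn : 0 < n) (hG : IsGM S nab br) (m : ℕ) (x : H)
    (hx : x ∈ EE nab br (m + 1)) : ∃ y ∈ EE nab br m, nab y = x := by
  have h1 := girb_span hG (m + 1) x hx
  clear hx
  induction h1 using Submodule.span_induction with
  | mem x hx =>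
    obtain ⟨j, e, hj, rfl⟩ := hx
    obtain _ | j := j
    · obtain ⟨i⟩ : Nonempty (Fin n) := ⟨⟨0, hn⟩⟩
      have hc : (((e i : ℕ) : κ) + 1) ≠ 0 := by exact_mod_cast Nat.succ_ne_zero (e i)
      have h2 : pderiv i (monomial (e + Finsupp.single i 1) ((((e i : ℕ) : κ) + 1)⁻¹)) =
          monomial e (1 : κ) := by
        rw [pderiv_monomial, add_tsub_cancel_right, Finsupp.add_apply, Finsupp.single_eq_same]
        congr 1
        push_cast
        rw [inv_mul_cancel₀ hc]
      refine ⟨br (monomial (e + Finsupp.single i 1) ((((e i : ℕ) : κ) + 1)⁻¹) * pderiv i S.φ),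
        ?_, ?_⟩
      · rw [← lv_zero (nab := nab) (br := br)]
        exact EE_mem m 0 (Nat.zero_le _) _
      · rw [hG.exa, h2, lv_zero]
    · have hc : ((j : κ) + 1) ≠ 0 := by exact_mod_cast Nat.succ_ne_zero j
      refine ⟨((j : κ) + 1)⁻¹ • lv nab br j (monomial e 1),
        finab_smul _ _ _ (EE_mem m j (by omega) _), ?_⟩
      rw [map_smul, nab_lv, smul_smul, inv_mul_cancel₀ hc, one_smul]
  | zero => exact ⟨0, Submodule.zero_mem _, map_zero _⟩
  | add x y _ _ hx hy =>
    obtain ⟨a, ha, ha'⟩ := hx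
    obtain ⟨b, hb, hb'⟩ := hy
    exact ⟨a + b, Submodule.add_mem _ ha hb, by rw [map_add, ha', hb']⟩
  | smul c x _ hx =>
    obtain ⟨a, ha, ha'⟩ := hx
    exact ⟨c • a, finab_smul _ _ _ ha, by rw [map_smul, ha']⟩

/-! ### The filtration at infinity -/

variable {U : Finset (Fin n →₀ ℕ)}

private theorem girb_Xinv {d : ℕ} : Bd d (-(d : ℤ)) ((RatFunc.X : RatFunc κ)⁻¹) := by
  right
  rw [RatFunc.intDegree_inv, RatFunc.intDegree_X]
  linarith

private theorem girb_X1 {d : ℕ} : Bd d (d : ℤ) (RatFunc.X : RatFunc κ) := by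
  right
  rw [RatFunc.intDegree_X]
  linarith

theorem InW_nab (hn : 0 < n) (hS : S.Ok) (hG : IsGM S nab br)
    (hgen : ∀ (P : MvPolynomial (Fin n) κ) (N : ℕ), (∀ e ∈ P.support, wt S.w e ≤ N) →
      ∃ a : (Fin n →₀ ℕ) → Polynomial κ, (∀ u, a u ≠ 0 → S.d * (a u).natDegree + wt S.w u ≤ N) ∧
        br P = ∑ u ∈ U, algebraMap (Polynomial κ) (RatFunc κ) (a u) • br (monomial u 1))
    (q : ℤ) (x : H) (hx : InW S br U q x) : InW S br U (q - S.d) (nab x) := by
  have h1 := InW_theta hgen hn hS hG q x hx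
  have h2 := InW_add (InW_mono (by linarith : q - 1 ≤ q) h1) (InW_smul ((q : κ) / S.d) hx)
  rw [sub_add_cancel] at h2
  have h3 := InW_mul (girb_Xinv (d := S.d)) h2
  rw [smul_smul, inv_mul_cancel₀ RatFunc.X_ne_zero, one_smul] at h3
  have h4 : q + -(S.d : ℤ) = q - S.d := by ring
  rwa [h4] at h3

theorem EE_low (hn : 0 < n) (hS : S.Ok) (hG : IsGM S nab br)
    (hgen : ∀ (P : MvPolynomial (Fin n) κ) (N : ℕ), (∀ e ∈ P.support, wt S.w e ≤ N) →
      ∃ a : (Fin n →₀ ℕ) → Polynomial κ, (∀ u, a u ≠ 0 → S.d * (a u).natDegree + wt S.w u ≤ N) ∧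
        br P = ∑ u ∈ U, algebraMap (Polynomial κ) (RatFunc κ) (a u) • br (monomial u 1))
    (hli : ∀ a : (Fin n →₀ ℕ) → RatFunc κ, ∑ u ∈ U, a u • br (monomial u 1) = 0 →
      ∀ u ∈ U, a u = 0) (m : ℕ) (hm : S.d * m ≤ ∑ i, S.w i) (x : H) (hx : x ∈ EE nab br m)
    (hx' : InW S br U (((∑ i, S.w i : ℕ) : ℤ) - (S.d : ℤ) - S.d * m) x) :
    ∃ c : κ, x = c • lv nab br m 1 := by
  have hd : (S.d : κ) ≠ 0 := by exact_mod_cast hS.d_pos.ne'
  induction m generalizing x with
  | zero =>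
    rw [lv_zero]
    refine InW_low hgen hS hG hli x hx ?_
    rw [Nat.cast_zero, mul_zero, sub_zero] at hx'
    exact hx'
  | succ m ih =>
    obtain ⟨y, hy, hyx⟩ := EE_surj hn hG m x hx
    obtain ⟨q₀, hq₀⟩ : ∃ q₀ : ℤ, q₀ = ((∑ i, S.w i : ℕ) : ℤ) - (S.d : ℤ) - S.d * m := ⟨_, rfl⟩
    have hq0 : 0 ≤ q₀ := by
      have h1 : ((S.d * (m + 1) : ℕ) : ℤ) ≤ ((∑ i, S.w i : ℕ) : ℤ) := by exact_mod_cast hm
      rw [hq₀]
      push_cast at h1 ⊢
      linarith
    have hX : InW S br U q₀ ((RatFunc.X : RatFunc κ) • nab y) := by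
      rw [hyx]
      have h1 := InW_mul (girb_X1 (d := S.d)) hx'
      refine InW_mono ?_ h1
      rw [hq₀]
      push_cast
      linarith
    have hlow : ∀ i : ℕ, InW S br U (q₀ + i) y → InW S br U q₀ y := by
      intro i
      induction i with
      | zero =>
        intro h
        rwa [Nat.cast_zero, add_zero] at h
      | succ i ihi =>
        intro h
        apply ihi
        have h1 := InW_theta hgen hn hS hG _ _ h
        have h2 : InW S br U (q₀ + i) ((RatFunc.X : RatFunc κ) • nab y) :=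
          InW_mono (by linarith [Int.natCast_nonneg i]) hX
        have e1 : q₀ + ((i + 1 : ℕ) : ℤ) - 1 = q₀ + i := by push_cast; ring
        rw [e1] at h1
        have h3 := InW_sub h2 h1
        rw [sub_sub_cancel] at h3
        have hne : (((q₀ + ((i + 1 : ℕ) : ℤ) : ℤ) : κ) / S.d) ≠ 0 := by
          apply div_ne_zero _ hd
          have h4 : q₀ + ((i + 1 : ℕ) : ℤ) ≠ 0 := by
            push_cast
            have := Int.natCast_nonneg i
            omega
          exact_mod_cast h4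
        have h5 := InW_smul (((q₀ + ((i + 1 : ℕ) : ℤ) : ℤ) : κ) / S.d)⁻¹ h3
        rwa [smul_smul, inv_mul_cancel₀ hne, one_smul] at h5
    have hyW : InW S br U q₀ y := by
      obtain ⟨q, hq⟩ := InW_exists (nab := nab) hgen hG y
      refine hlow (q - q₀).toNat (InW_mono ?_ hq)
      have := Int.self_le_toNat (q - q₀)
      linarith
    rw [hq₀] at hyW
    obtain ⟨c, hc⟩ := ih (le_trans (Nat.mul_le_mul_left _ (Nat.le_succ m)) hm) y hy hyW
    refine ⟨c * ((m : κ) + 1), ?_⟩
    rw [← hyx, hc, map_smul, nab_lv, smul_smul]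

end MPadcBK
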