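import Pool.Agent.Lib.MP_adc574_ag_BK.GirB
import Pool.Agent.Lib.MP_adc574_ag_HM.SplC

/-!
# GirC: no direct decomposition (all degrees)

`HM/SplC.lean` (`stable_one`, `no_split`) without `∑ w < d`: let `m` be such that `d m ≤ ∑ w < d (m + 1)`. Then `[1]_m ∈ Hprim`, `[1]_m ∈ EE m ∩ W_{∑ w - d - d m} = κ [1]_m` (`EE_low`); a projector `e` maps it to `c [1]_m`, provided `m ≤ k` (`split_down'`).
-/

set_option autoImplicit false
set_option linter.unusedSectionVars false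

namespace MPadcBK

open MvPolynomial MPadcGM MPadcHM

universe u

variable {κ : Type u} [Field κ] [CharZero κ] {n : ℕ} {S : Dat κ n} {H : Type u} [AddCommGroup H]
  [Module (RatFunc κ) H] [Module κ H] [IsScalarTower κ (RatFunc κ) H] [Module (Polynomial κ) H]
  [IsScalarTower (Polynomial κ) (RatFunc κ) H] [IsScalarTower κ (Polynomial κ) H]
  {nab : H →ₗ[κ] H} {br : MvPolynomial (Fin n) κ →ₗ[κ] H} {U : Finset (Fin n →₀ ℕ)}

private theorem girc_tower {F : Submodule (RatFunc κ) H} (p : Polynomial κ) {h : H}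
    (hh : h ∈ F) : p • h ∈ F := by
  rw [← algebraMap_smul (RatFunc κ) p h]
  exact F.smul_mem _ hh

theorem stable_one' (hn : 0 < n) (hS : S.Ok) (hG : IsGM S nab br) (k : ℕ)
    (hwk : ∑ i, S.w i < S.d * (k + 2))
    (H' : Submodule (RatFunc κ) H) (hle : H' ≤ Hprim S nab br) (hst : ∀ h ∈ H', nab h ∈ H')
    (h1 : lv nab br (k + 1) (1 : MvPolynomial (Fin n) κ) ∈ H') : H' = Hprim S nab br := by
  refine no_lattice hn hS hG k H' hle hst (fun x hx hxH => ?_)
  obtain ⟨p, hp⟩ := EE_succ hS hG k (nab x) (EE_nab hG k x hx)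
  refine ⟨_, hp, Submodule.sub_mem _ (Hprim_nab hG x hxH) (girc_tower p (lv_one_mem' (k + 1) hwk)), ?_⟩
  rw [sub_sub_cancel]
  exact girc_tower p h1

private theorem girc_proj {K : Type*} [Field K] {M : Type*} [AddCommGroup M] [Module K M]
    (H1 H2 : Submodule K M) (hinf : H1 ⊓ H2 = ⊥) :
    ∃ e : M →ₗ[K] M, (∀ x, e x ∈ H1) ∧ (∀ x ∈ H1, e x = x) ∧ ∀ x ∈ H2, e x = 0 := by
  obtain ⟨C, hC⟩ := Submodule.exists_isCompl (H1 ⊔ H2)
  have h : IsCompl H1 (H2 ⊔ C) :=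
    Disjoint.isCompl_sup_right_of_isCompl_sup_left (disjoint_iff.2 hinf) hC
  refine ⟨H1.projection (H2 ⊔ C) h, fun x => Submodule.projection_apply_mem h x, fun x hx => ?_,
    fun x hx => ?_⟩
  · exact Submodule.projection_apply_of_mem_left h hx
  · exact (Submodule.projection_apply_eq_zero_iff h).2 (Submodule.mem_sup_left hx)

private theorem girc_lv (H' : Submodule (RatFunc κ) H) (hst : ∀ h ∈ H', nab h ∈ H') (m : ℕ)
    (h1 : lv nab br m (1 : MvPolynomial (Fin n) κ) ∈ H') (k : ℕ) :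
    lv nab br (m + k) (1 : MvPolynomial (Fin n) κ) ∈ H' := by
  induction k with
  | zero => exact h1
  | succ k ih =>
    have h2 := hst _ ih
    rw [nab_lv] at h2
    have hk : (((m + k : ℕ) : κ) + 1) ≠ 0 := by exact_mod_cast Nat.succ_ne_zero (m + k)
    have h3 := Submodule.smul_of_tower_mem H' ((((m + k : ℕ) : κ) + 1)⁻¹) h2
    rwa [smul_smul, inv_mul_cancel₀ hk, one_smul] at h3

private theorem girc_W (hn : 0 < n) (hS : S.Ok) (hG : IsGM S nab br)
    (hgen : ∀ (P : MvPolynomial (Fin n) κ) (N : ℕ), (∀ e ∈ P.support, wt S.w e ≤ N) →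
      ∃ a : (Fin n →₀ ℕ) → Polynomial κ, (∀ u, a u ≠ 0 → S.d * (a u).natDegree + wt S.w u ≤ N) ∧
        br P = ∑ u ∈ U, algebraMap (Polynomial κ) (RatFunc κ) (a u) • br (monomial u 1))
    (m : ℕ) : InW S br U (((∑ i, S.w i : ℕ) : ℤ) - (S.d : ℤ) - S.d * m)
      (lv nab br m (1 : MvPolynomial (Fin n) κ)) := by
  induction m with
  | zero =>
    rw [lv_zero, Nat.cast_zero, mul_zero, sub_zero]
    refine InW_br hgen 1 _ fun a ha => ?_
    have ha0 : a = 0 := by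
      have h3 : (1 : MvPolynomial (Fin n) κ) = C 1 := rfl
      rw [h3, mem_support_iff, coeff_C] at ha
      by_contra hc
      exact ha (if_neg fun h => hc h.symm)
    rw [ha0]
    have h3 : wtp S.w (0 : Fin n →₀ ℕ) = ∑ i, S.w i := by
      unfold wtp
      simp
    rw [h3]
  | succ m ih =>
    have h1 := InW_nab hn hS hG hgen _ _ ih
    rw [nab_lv] at h1
    have hm : ((m : κ) + 1) ≠ 0 := by exact_mod_cast Nat.succ_ne_zero m
    have h2 := InW_smul ((m : κ) + 1)⁻¹ h1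
    rw [smul_smul, inv_mul_cancel₀ hm, one_smul] at h2
    refine InW_mono ?_ h2
    push_cast
    linarith

theorem no_split' (hn : 0 < n) (hS : S.Ok) (hG : IsGM S nab br) (m : ℕ)
    (hm1 : S.d * m ≤ ∑ i, S.w i) (hm2 : ∑ i, S.w i < S.d * (m + 1))
    (hgen : ∀ (P : MvPolynomial (Fin n) κ) (N : ℕ), (∀ e ∈ P.support, wt S.w e ≤ N) →
      ∃ a : (Fin n →₀ ℕ) → Polynomial κ, (∀ u, a u ≠ 0 → S.d * (a u).natDegree + wt S.w u ≤ N) ∧
        br P = ∑ u ∈ U, algebraMap (Polynomial κ) (RatFunc κ) (a u) • br (monomial u 1))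
    (hli : ∀ a : (Fin n →₀ ℕ) → RatFunc κ, ∑ u ∈ U, a u • br (monomial u 1) = 0 →
      ∀ u ∈ U, a u = 0) (k : ℕ) (hmk : m ≤ k)
    (hα : (n : κ) / 2 - 1 - k = 0 ∨ ∀ m : ℤ, (n : κ) / 2 - 1 - k ≠ m)
    (hAnn : ∀ a : Polynomial κ, a • lv nab br (k + 1) (1 : MvPolynomial (Fin n) κ) ∈
      EE nab br k → S.δ ∣ a) (H1 H2 : Submodule (RatFunc κ) H)
    (h1 : ∀ h ∈ H1, nab h ∈ H1) (h2 : ∀ h ∈ H2, nab h ∈ H2) (hinf : H1 ⊓ H2 = ⊥)
    (hsup : H1 ⊔ H2 = Hprim S nab br) : H1 = ⊥ ∨ H2 = ⊥ := by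
  have hwk : ∑ i, S.w i < S.d * (k + 2) := by
    refine lt_of_lt_of_le hm2 (Nat.mul_le_mul_left _ (by omega))
  obtain ⟨e, he0, he1, he2⟩ := girc_proj H1 H2 hinf
  have hle1 : H1 ≤ Hprim S nab br := by
    rw [← hsup]
    exact le_sup_left
  have hle2 : H2 ≤ Hprim S nab br := by
    rw [← hsup]
    exact le_sup_right
  have he : ∀ x ∈ Hprim S nab br, e x ∈ Hprim S nab br := fun x _ => hle1 (he0 x)
  have hcomm : ∀ x ∈ Hprim S nab br, nab (e x) = e (nab x) := by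
    intro x hx
    rw [← hsup] at hx
    obtain ⟨y, hy, z, hz, rfl⟩ := Submodule.mem_sup.1 hx
    rw [map_add, he1 y hy, he2 z hz, add_zero, map_add nab, map_add e, he1 _ (h1 y hy),
      he2 _ (h2 z hz), add_zero]
  have hfin : ∀ x ∈ EE nab br k, x ∈ Hprim S nab br → e x ∈ EE nab br k := fun x hx hx' =>
    split_fin' hn hS hG k hwk hα e he hcomm x hx hx'
  obtain ⟨x₀, hx₀⟩ : ∃ x₀ : H, x₀ = lv nab br m (1 : MvPolynomial (Fin n) κ) := ⟨_, rfl⟩
  have hb0 : x₀ ∈ EE nab br m := by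
    rw [hx₀]
    exact EE_mem m m le_rfl _
  have hbH : x₀ ∈ Hprim S nab br := by
    rw [hx₀]
    exact lv_one_mem' m hm2
  have hbW : InW S br U (((∑ i, S.w i : ℕ) : ℤ) - (S.d : ℤ) - S.d * m) x₀ := by
    rw [hx₀]
    exact girc_W hn hS hG hgen m
  have hd := split_down' hS hG k hAnn e hcomm hfin m hmk x₀ hb0 hbH
  have hi := split_inf hn hS hG hgen e he hcomm _ x₀ hbH hbW
  obtain ⟨c, hc⟩ := EE_low hn hS hG hgen hli m hm1 _ hd hi
  rw [← hx₀] at hc
  -- idempotent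
  have hc2 : (c * c - c) • x₀ = 0 := by
    have h3 : e (e (x₀)) = e (x₀) := he1 _ (he0 _)
    rw [hc, LinearMap.map_smul_of_tower, hc, smul_smul] at h3
    rw [sub_smul, h3, sub_self]
  have hup : ∀ H' : Submodule (RatFunc κ) H, (∀ h ∈ H', nab h ∈ H') → x₀ ∈ H' →
      lv nab br (k + 1) (1 : MvPolynomial (Fin n) κ) ∈ H' := by
    intro H' hst hb
    rw [hx₀] at hb
    have h3 := girc_lv H' hst m hb (k + 1 - m)
    have h4 : m + (k + 1 - m) = k + 1 := by omega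
    rwa [h4] at h3
  have fin1 : x₀ ∈ H1 → H1 = ⊥ ∨ H2 = ⊥ := by
    intro hb
    right
    have h3 := stable_one' hn hS hG k hwk H1 hle1 h1 (hup H1 h1 hb)
    rw [eq_bot_iff, ← hinf]
    refine le_inf ?_ le_rfl
    rw [h3]
    exact hle2
  have fin2 : x₀ ∈ H2 → H1 = ⊥ ∨ H2 = ⊥ := by
    intro hb
    left
    have h3 := stable_one' hn hS hG k hwk H2 hle2 h2 (hup H2 h2 hb)
    rw [eq_bot_iff, ← hinf]
    refine le_inf le_rfl ?_
    rw [h3]
    exact hle1
  by_cases hb : x₀ = 0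
  · exact fin1 (by rw [hb]; exact Submodule.zero_mem _)
  by_cases hcc : c * c - c = 0
  · have h3 : c * (c - 1) = 0 := by linear_combination hcc
    rcases mul_eq_zero.1 h3 with h4 | h4
    · apply fin2
      rw [h4, zero_smul] at hc
      have h5 := hbH
      rw [← hsup] at h5
      obtain ⟨y, hy, z, hz, hyz⟩ := Submodule.mem_sup.1 h5
      rw [← hyz, map_add, he1 y hy, he2 z hz, add_zero] at hc
      rw [← hyz, hc, zero_add]
      exact hz
    · apply fin1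
      rw [sub_eq_zero.1 h4, one_smul] at hc
      rw [← hc]
      exact he0 _
  · exfalso
    apply hb
    have h3 := congrArg (fun y => (c * c - c)⁻¹ • y) hc2
    simp only [smul_zero] at h3
    rwa [smul_smul, inv_mul_cancel₀ hcc, one_smul] at h3

end MPadcBK
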