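import Pool.Agent.Lib.MP_adc574_ag_HM.GalA
import Pool.Agent.Lib.MP_adc574_ag_HM.GalB
import Pool.Agent.Lib.MP_adc574_ag_HM.GalC
import Pool.Agent.Lib.MP_adc574_ag_HM.MilC
import Pool.Agent.Lib.MP_adc574_ag_BK.GirC

/-!
# GirD: irreducibility over an algebraically closed field if `δ` is irreducible over a subfield (all degrees)

`HM/GalC.lean`, `HM/GalD.lean` without `∑ w < d`; hypothesis: `2 ∑ w < n d` if `n` is even (nothing if `n` is odd). The level `k` is `n/2 - 1` (`n` even) or `m = ⌊∑ w / d⌋` (`n` odd, `n/2 - 1 - k` is not an integer).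
-/

set_option autoImplicit false
set_option linter.unusedSectionVars false

namespace MPadcBK

open MvPolynomial MPadcGM MPadcHM

universe u

section stable

variable {κ : Type u} [Field κ] [CharZero κ] {n : ℕ} {S : Dat κ n} {H : Type u} [AddCommGroup H]
  [Module (RatFunc κ) H] [Module κ H] [IsScalarTower κ (RatFunc κ) H] [Module (Polynomial κ) H]
  [IsScalarTower (Polynomial κ) (RatFunc κ) H] [IsScalarTower κ (Polynomial κ) H]
  {nab : H →ₗ[κ] H} {br : MvPolynomial (Fin n) κ →ₗ[κ] H}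

private theorem gird_cancel {F : Submodule (RatFunc κ) H} {p : Polynomial κ} (hp : p ≠ 0) {h : H}
    (hh : p • h ∈ F) : h ∈ F := by
  have hp' : algebraMap (Polynomial κ) (RatFunc κ) p ≠ 0 := by
    intro h0
    exact hp ((IsFractionRing.injective (Polynomial κ) (RatFunc κ)) (by rw [h0, map_zero]))
  rw [← algebraMap_smul (RatFunc κ) p h] at hh
  have h2 := F.smul_mem (algebraMap (Polynomial κ) (RatFunc κ) p)⁻¹ hh
  rwa [smul_smul, inv_mul_cancel₀ hp', one_smul] at h2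

private theorem gird_tower {F : Submodule (RatFunc κ) H} (p : Polynomial κ) {h : H}
    (hh : h ∈ F) : p • h ∈ F := by
  rw [← algebraMap_smul (RatFunc κ) p h]
  exact F.smul_mem _ hh

private theorem gird_nab (hG : IsGM S nab br) (q : Polynomial κ) (h : H) :
    nab (q • h) = Polynomial.derivative q • h + q • nab h := by
  have h1 := hG.leib (algebraMap (Polynomial κ) (RatFunc κ) q) h
  rw [DK_poly] at h1
  simp only [algebraMap_smul] at h1
  exact h1

theorem sing_all' [IsAlgClosed κ] (hn : 0 < n) (hS : S.Ok) (hG : IsGM S nab br)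
    (k : ℕ) (H' : Submodule (RatFunc κ) H)
    (hle : H' ≤ Hprim S nab br) (hst : ∀ h ∈ H', nab h ∈ H') (hne : H' ≠ Hprim S nab br) :
    ∃ τ : κ, S.δ.IsRoot τ ∧ ∀ x ∈ EE nab br k, x ∈ H' → ∀ p : Polynomial κ,
      nab x - p • lv nab br (k + 1) (1 : MvPolynomial (Fin n) κ) ∈ EE nab br k →
        p.eval τ = 0 := by
  obtain ⟨u, hu⟩ : ∃ u : H, u = lv nab br (k + 1) (1 : MvPolynomial (Fin n) κ) := ⟨_, rfl⟩
  have hdel : S.δ • u ∈ EE nab br k := by
    rw [hu]
    exact EE_delta hS hG k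
  rw [← hu]
  obtain ⟨I, hI⟩ : ∃ I : Ideal (Polynomial κ), ∀ p, p ∈ I ↔
      ∃ x ∈ EE nab br k, x ∈ H' ∧ nab x - p • u ∈ EE nab br k := by
    refine ⟨{ carrier := {p | ∃ x ∈ EE nab br k, x ∈ H' ∧ nab x - p • u ∈ EE nab br k}
              add_mem' := ?_
              zero_mem' := ?_
              smul_mem' := ?_ }, fun p => Iff.rfl⟩
    · rintro p q ⟨x, hx, hx', hxp⟩ ⟨y, hy, hy', hyq⟩
      refine ⟨x + y, Submodule.add_mem _ hx hy, Submodule.add_mem _ hx' hy', ?_⟩
      have e : nab (x + y) - (p + q) • u = (nab x - p • u) + (nab y - q • u) := by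
        rw [map_add, add_smul]
        abel
      rw [e]
      exact Submodule.add_mem _ hxp hyq
    · refine ⟨0, Submodule.zero_mem _, Submodule.zero_mem _, ?_⟩
      rw [map_zero, zero_smul, sub_zero]
      exact Submodule.zero_mem _
    · rintro a p ⟨x, hx, hx', hxp⟩
      refine ⟨a • x, Submodule.smul_mem _ _ hx, gird_tower a hx', ?_⟩
      have e : nab (a • x) - (a • p) • u = Polynomial.derivative a • x + a • (nab x - p • u) := by
        rw [gird_nab hG, smul_eq_mul, mul_smul, smul_sub]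
        abel
      rw [e]
      exact Submodule.add_mem _ (Submodule.smul_mem _ _ hx) (Submodule.smul_mem _ _ hxp)
  obtain ⟨g, hg⟩ : ∃ g : Polynomial κ, ∀ a, a ∈ I ↔ g ∣ a := by
    obtain ⟨g, hg⟩ := (IsPrincipalIdealRing.principal I).principal
    refine ⟨g, fun a => ?_⟩
    rw [hg]
    exact Ideal.mem_span_singleton
  have hgδ : g ∣ S.δ := by
    rw [← hg, hI]
    refine ⟨0, Submodule.zero_mem _, Submodule.zero_mem _, ?_⟩
    rw [map_zero, zero_sub]
    exact Submodule.neg_mem _ hdel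
  by_cases hgu : IsUnit g
  · exfalso
    apply hne
    have h1 : (1 : Polynomial κ) ∈ I := (hg 1).2 hgu.dvd
    obtain ⟨x₀, hx₀, hx₀', hx₀p⟩ := (hI 1).1 h1
    rw [one_smul] at hx₀p
    refine no_lattice hn hS hG k H' hle hst (fun x hx hxH => ?_)
    obtain ⟨p, hp⟩ := EE_succ hS hG k (nab x) (EE_nab hG k x hx)
    rw [← hu] at hp
    have hm : p • nab x₀ ∈ H' := gird_tower _ (hst x₀ hx₀')
    refine ⟨nab x - p • nab x₀, ?_, ?_, by rw [sub_sub_cancel]; exact hm⟩
    · have e : nab x - p • nab x₀ = (nab x - p • u) - p • (nab x₀ - u) := by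
        rw [smul_sub]
        abel
      rw [e]
      exact Submodule.sub_mem _ hp (Submodule.smul_mem _ _ hx₀p)
    · exact Submodule.sub_mem _ (Hprim_nab hG x hxH) (hle hm)
  · have hg0 : g ≠ 0 := by
      intro h0
      rw [h0, zero_dvd_iff] at hgδ
      exact hS.sep.ne_zero hgδ
    have hdeg : g.degree ≠ 0 := by
      intro h0
      exact hgu (Polynomial.isUnit_iff_degree_eq_zero.2 h0)
    obtain ⟨τ, hτ⟩ := IsAlgClosed.exists_root g hdeg
    refine ⟨τ, hτ.dvd hgδ, fun x hx hx' p hp => ?_⟩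
    have h2 : g ∣ p := (hg p).1 ((hI p).2 ⟨x, hx, hx', hp⟩)
    exact hτ.dvd h2

theorem ann_gen' (hn : 0 < n) (hS : S.Ok) (hG : IsGM S nab br)
    (hne : Hprim S nab br ≠ ⊥) (k : ℕ) : ∃ g : Polynomial κ, ¬ IsUnit g ∧ g ∣ S.δ ∧
      ∀ a : Polynomial κ, a • lv nab br (k + 1) (1 : MvPolynomial (Fin n) κ) ∈ EE nab br k ↔
        g ∣ a := by
  obtain ⟨u, hu⟩ : ∃ u : H, u = lv nab br (k + 1) (1 : MvPolynomial (Fin n) κ) := ⟨_, rfl⟩
  have hdel : S.δ • u ∈ EE nab br k := by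
    rw [hu]
    exact EE_delta hS hG k
  rw [← hu]
  have hu_not : u ∉ EE nab br k := by
    intro hcon
    have h1 := no_lattice hn hS hG k ⊥ bot_le (fun h hh => by
      rw [Submodule.mem_bot] at hh
      rw [hh, map_zero]
      exact Submodule.zero_mem _) (fun x hx hx' => ⟨nab x, by
        obtain ⟨p, hp⟩ := EE_succ hS hG k (nab x) (EE_nab hG k x hx)
        rw [← hu] at hp
        have h1 := Submodule.add_mem _ hp (Submodule.smul_mem _ p hcon)
        rwa [sub_add_cancel] at h1, Hprim_nab hG x hx', by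
        rw [sub_self]
        exact Submodule.zero_mem _⟩)
    exact hne h1.symm
  obtain ⟨I, hI⟩ : ∃ I : Ideal (Polynomial κ), ∀ a, a ∈ I ↔ a • u ∈ EE nab br k :=
    ⟨(EE nab br k).comap (LinearMap.toSpanSingleton (Polynomial κ) H u), fun a => by
      rw [Submodule.mem_comap, LinearMap.toSpanSingleton_apply]⟩
  obtain ⟨g, hg⟩ : ∃ g : Polynomial κ, ∀ a, a • u ∈ EE nab br k ↔ g ∣ a := by
    obtain ⟨g, hg⟩ := (IsPrincipalIdealRing.principal I).principal
    refine ⟨g, fun a => ?_⟩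
    rw [← hI, hg]
    exact Ideal.mem_span_singleton
  refine ⟨g, ?_, (hg _).1 hdel, hg⟩
  intro h
  apply hu_not
  have h1 := (hg 1).2 h.dvd
  rwa [one_smul] at h1

end stable

section core

variable {κ : Type u} [Field κ] {n : ℕ} {S : Dat κ n} {H : Type u} [AddCommGroup H]
  [Module (RatFunc κ) H] [Module κ H]
  {nab : H →ₗ[κ] H} {br : MvPolynomial (Fin n) κ →ₗ[κ] H} {σ : κ ≃+* κ}

/-- The action of an automorphism of the constants. -/
private structure GireAct (nab : H →ₗ[κ] H) (br : MvPolynomial (Fin n) κ →ₗ[κ] H)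
    (σ : κ ≃+* κ) where
  s : RatFunc κ ≃+* RatFunc κ
  T : H ≃+ H
  hs : ∀ p : Polynomial κ, s (algebraMap (Polynomial κ) (RatFunc κ) p) =
    algebraMap (Polynomial κ) (RatFunc κ) (p.map (σ : κ →+* κ))
  hsmul : ∀ (a : RatFunc κ) (h : H), T (a • h) = s a • T h
  hnab : ∀ h, T (nab h) = nab (T h)
  hbr : ∀ P : MvPolynomial (Fin n) κ, T (br P) = br (P.map (σ : κ →+* κ))

/-- The image of a subspace. -/
private def gireIm (A : GireAct nab br σ) (F : Submodule (RatFunc κ) H) :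
    Submodule (RatFunc κ) H where
  carrier := {y | A.T.symm y ∈ F}
  zero_mem' := by
    show A.T.symm 0 ∈ F
    rw [map_zero]
    exact F.zero_mem
  add_mem' := by
    intro x y hx hy
    show A.T.symm (x + y) ∈ F
    rw [map_add]
    exact F.add_mem hx hy
  smul_mem' := by
    intro a y hy
    show A.T.symm (a • y) ∈ F
    have h1 : A.T.symm (a • y) = A.s.symm a • A.T.symm y := by
      rw [AddEquiv.symm_apply_eq, A.hsmul, RingEquiv.apply_symm_apply,
        AddEquiv.apply_symm_apply]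
    rw [h1]
    exact F.smul_mem _ hy

/-- The preimage of a subspace. -/
private def girePre (A : GireAct nab br σ) (F : Submodule (RatFunc κ) H) :
    Submodule (RatFunc κ) H where
  carrier := {x | A.T x ∈ F}
  zero_mem' := by
    show A.T 0 ∈ F
    rw [map_zero]
    exact F.zero_mem
  add_mem' := by
    intro x y hx hy
    show A.T (x + y) ∈ F
    rw [map_add]
    exact F.add_mem hx hy
  smul_mem' := by
    intro a y hy
    show A.T (a • y) ∈ F
    rw [A.hsmul]
    exact F.smul_mem _ hy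

private theorem gire_im_mem (A : GireAct nab br σ) {F : Submodule (RatFunc κ) H} {x : H}
    (hx : x ∈ F) : A.T x ∈ gireIm A F := by
  show A.T.symm (A.T x) ∈ F
  rw [AddEquiv.symm_apply_apply]
  exact hx

private theorem gire_im_st (A : GireAct nab br σ) {F : Submodule (RatFunc κ) H}
    (hF : ∀ h ∈ F, nab h ∈ F) : ∀ h ∈ gireIm A F, nab h ∈ gireIm A F := by
  intro y hy
  show A.T.symm (nab y) ∈ F
  have h1 : A.T.symm (nab y) = nab (A.T.symm y) := by
    rw [AddEquiv.symm_apply_eq, A.hnab, AddEquiv.apply_symm_apply]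
  rw [h1]
  exact hF _ hy

private theorem gire_pre_st (A : GireAct nab br σ) {F : Submodule (RatFunc κ) H}
    (hF : ∀ h ∈ F, nab h ∈ F) : ∀ h ∈ girePre A F, nab h ∈ girePre A F := by
  intro y hy
  show A.T (nab y) ∈ F
  rw [A.hnab]
  exact hF _ hy

private theorem gire_sup {F G : Submodule (RatFunc κ) H} (hF : ∀ h ∈ F, nab h ∈ F)
    (hG : ∀ h ∈ G, nab h ∈ G) : ∀ h ∈ F ⊔ G, nab h ∈ F ⊔ G := by
  intro h hh
  obtain ⟨y, hy, z, hz, rfl⟩ := Submodule.mem_sup.1 hh
  rw [map_add]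
  exact Submodule.add_mem _ (Submodule.mem_sup_left (hF y hy)) (Submodule.mem_sup_right (hG z hz))

private theorem gire_inf {F G : Submodule (RatFunc κ) H} (hF : ∀ h ∈ F, nab h ∈ F)
    (hG : ∀ h ∈ G, nab h ∈ G) : ∀ h ∈ F ⊓ G, nab h ∈ F ⊓ G :=
  fun h hh => ⟨hF h hh.1, hG h hh.2⟩

private theorem gire_pow (A : GireAct nab br σ) (j : ℕ) (h : H) :
    A.T ((nab ^ j) h) = (nab ^ j) (A.T h) := by
  induction j with
  | zero => rw [pow_zero]; rfl
  | succ j ih => rw [pow_succ', Module.End.mul_apply, Module.End.mul_apply, A.hnab, ih]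

variable [Module (Polynomial κ) H] [IsScalarTower (Polynomial κ) (RatFunc κ) H]

private theorem gire_poly (A : GireAct nab br σ) (p : Polynomial κ) (h : H) :
    A.T (p • h) = (p.map (σ : κ →+* κ)) • A.T h := by
  rw [← algebraMap_smul (RatFunc κ) p h, A.hsmul, A.hs, algebraMap_smul]

variable [IsScalarTower κ (Polynomial κ) H]

private theorem gire_const (A : GireAct nab br σ) (c : κ) (h : H) :
    A.T (c • h) = σ c • A.T h := by
  rw [← finab_C c h, gire_poly A, Polynomial.map_C]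
  exact finab_C _ _

private theorem gire_lv (A : GireAct nab br σ) (j : ℕ) (e : Fin n →₀ ℕ) :
    A.T (lv nab br j (monomial e 1)) = lv nab br j (monomial e 1) := by
  have h0 : ∀ P : MvPolynomial (Fin n) κ,
      lv nab br j P = ((j.factorial : κ)⁻¹) • (nab ^ j) (br P) := fun P => rfl
  rw [h0, gire_const, gire_pow, A.hbr, map_monomial, map_inv₀, map_natCast, map_one]

private theorem gire_EE (A : GireAct nab br σ) (k : ℕ) (x : H) (hx : x ∈ EE nab br k) :
    A.T x ∈ EE nab br k := by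
  unfold EE at hx ⊢
  induction hx using Submodule.span_induction with
  | mem x hx =>
    obtain ⟨j, e, hj, rfl⟩ := hx
    rw [gire_lv]
    exact Submodule.subset_span ⟨j, e, hj, rfl⟩
  | zero => rw [map_zero]; exact Submodule.zero_mem _
  | add x y _ _ hx hy => rw [map_add]; exact Submodule.add_mem _ hx hy
  | smul a x _ hx => rw [gire_poly]; exact Submodule.smul_mem _ _ hx

private theorem gire_Hprim (A : GireAct nab br σ) (x : H) (hx : x ∈ Hprim S nab br) :
    A.T x ∈ Hprim S nab br := by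
  unfold Hprim at hx ⊢
  induction hx using Submodule.span_induction with
  | mem x hx =>
    obtain ⟨j, e, hj, rfl⟩ := hx
    rw [gire_lv]
    exact Submodule.subset_span ⟨j, e, hj, rfl⟩
  | zero => rw [map_zero]; exact Submodule.zero_mem _
  | add x y _ _ hx hy => rw [map_add]; exact Submodule.add_mem _ hx hy
  | smul a x _ hx => rw [A.hsmul]; exact Submodule.smul_mem _ _ hx

private theorem gire_im_prim (A : GireAct nab br σ) {F : Submodule (RatFunc κ) H}
    (hF : F ≤ Hprim S nab br) : gireIm A F ≤ Hprim S nab br := by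
  intro y hy
  have h1 := gire_Hprim A (A.T.symm y) (hF hy)
  rw [AddEquiv.apply_symm_apply] at h1
  exact h1

private theorem gire_alpha [CharZero κ] (m : ℕ) (hm : Even n → 2 * m < n) :
    ∃ k : ℕ, m ≤ k ∧ ((n : κ) / 2 - 1 - k = 0 ∨ ∀ z : ℤ, (n : κ) / 2 - 1 - k ≠ z) := by
  rcases Nat.even_or_odd' n with ⟨r, hr | hr⟩
  · have h0 := hm ⟨r, by omega⟩
    refine ⟨r - 1, by omega, Or.inl ?_⟩
    have h1 : 1 ≤ r := by omega
    rw [hr]
    push_cast [Nat.cast_sub h1]
    ring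
  · refine ⟨m, le_rfl, Or.inr fun z hz => ?_⟩
    rw [hr] at hz
    have h2 : (2 : κ) ≠ 0 := two_ne_zero
    have h3 : ((2 * (r : ℤ) + 1 : ℤ) : κ) = ((2 * (z + 1 + m) : ℤ) : κ) := by
      push_cast at hz ⊢
      field_simp at hz
      linear_combination hz
    have h4 : (2 * (r : ℤ) + 1 : ℤ) = 2 * (z + 1 + m) := by exact_mod_cast h3
    omega

private theorem gire_eval (σ : κ ≃+* κ) (p : Polynomial κ) (z : κ) :
    (p.map (σ : κ →+* κ)).eval (σ z) = σ (p.eval z) := by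
  rw [Polynomial.eval_map]
  exact Polynomial.eval₂_at_apply (σ : κ →+* κ) z

variable [IsScalarTower κ (RatFunc κ) H]

private theorem gire_ann [CharZero κ] [IsAlgClosed κ] (hn : 0 < n) (hS : S.Ok)
    (hG : IsGM S nab br) (hne : Hprim S nab br ≠ ⊥) (k : ℕ)
    (hact : ∀ τ τ' : κ, S.δ.IsRoot τ → S.δ.IsRoot τ' →
      ∃ σ : κ ≃+* κ, σ τ = τ' ∧ Nonempty (GireAct nab br σ)) (a : Polynomial κ)
    (ha : a • lv nab br (k + 1) (1 : MvPolynomial (Fin n) κ) ∈ EE nab br k) : S.δ ∣ a := by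
  obtain ⟨g, hgu, hgδ, hg⟩ := ann_gen' hn hS hG hne k
  have hδ0 : S.δ ≠ 0 := hS.sep.ne_zero
  have hg0 : g ≠ 0 := by
    intro h
    rw [h] at hgδ
    exact hδ0 (zero_dvd_iff.1 hgδ)
  have hroot : ∀ q : Polynomial κ, ¬ IsUnit q → ∃ z, q.IsRoot z := by
    intro q hqu
    refine IsAlgClosed.exists_root q ?_
    intro hd
    exact hqu (Polynomial.isUnit_iff_degree_eq_zero.2 hd)
  obtain ⟨τ, hτ⟩ := hroot g hgu
  have hall : ∀ τ', S.δ.IsRoot τ' → g.IsRoot τ' := by
    intro τ' hτ'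
    obtain ⟨σ, hσ, ⟨A⟩⟩ := hact τ' τ hτ' (hτ.dvd hgδ)
    have h1 : (g.map (σ : κ →+* κ)) • lv nab br (k + 1) (1 : MvPolynomial (Fin n) κ) ∈
        EE nab br k := by
      have h2 := gire_EE A k _ ((hg g).2 (dvd_refl g))
      rw [gire_poly] at h2
      have h3 : A.T (lv nab br (k + 1) (1 : MvPolynomial (Fin n) κ)) =
          lv nab br (k + 1) (1 : MvPolynomial (Fin n) κ) := gire_lv A (k + 1) 0
      rw [h3] at h2
      exact h2
    have h4 : (g.map (σ : κ →+* κ)).IsRoot τ := hτ.dvd ((hg _).1 h1)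
    rw [Polynomial.IsRoot.def, ← hσ, gire_eval] at h4
    exact (map_eq_zero_iff σ σ.injective).1 h4
  have hδg : S.δ ∣ g := by
    obtain ⟨q, hq⟩ := hgδ
    by_cases hqu : IsUnit q
    · obtain ⟨v, hv⟩ := hqu.exists_right_inv
      exact ⟨v, by rw [hq, mul_assoc, hv, mul_one]⟩
    · exfalso
      obtain ⟨z, hz⟩ := hroot q hqu
      have hzδ : S.δ.IsRoot z := hz.dvd ⟨g, by rw [hq, mul_comm]⟩
      have hzg := hall z hzδ
      have h6 : (Polynomial.X - Polynomial.C z) * (Polynomial.X - Polynomial.C z) ∣ S.δ := by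
        rw [hq]
        exact mul_dvd_mul (Polynomial.dvd_iff_isRoot.2 hzg) (Polynomial.dvd_iff_isRoot.2 hz)
      exact Polynomial.not_isUnit_X_sub_C z (hS.sep.squarefree _ h6)
  exact hδg.trans ((hg a).1 ha)

private theorem gire_core [CharZero κ] [IsAlgClosed κ] (hn : 2 ≤ n) (hS : S.Ok)
    (hG : IsGM S nab br) (hwd : Even n → 2 * ∑ i, S.w i < n * S.d) {U : Finset (Fin n →₀ ℕ)}
    (hgen : ∀ (P : MvPolynomial (Fin n) κ) (N : ℕ), (∀ e ∈ P.support, wt S.w e ≤ N) →
      ∃ a : (Fin n →₀ ℕ) → Polynomial κ, (∀ u, a u ≠ 0 → S.d * (a u).natDegree + wt S.w u ≤ N) ∧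
        br P = ∑ u ∈ U, algebraMap (Polynomial κ) (RatFunc κ) (a u) • br (monomial u 1))
    (hli : ∀ a : (Fin n →₀ ℕ) → RatFunc κ, ∑ u ∈ U, a u • br (monomial u 1) = 0 →
      ∀ u ∈ U, a u = 0)
    (hact : ∀ τ τ' : κ, S.δ.IsRoot τ → S.δ.IsRoot τ' →
      ∃ σ : κ ≃+* κ, σ τ = τ' ∧ Nonempty (GireAct nab br σ))
    (H₀ : Submodule (RatFunc κ) H) (hle : H₀ ≤ Hprim S nab br) (hst : ∀ h ∈ H₀, nab h ∈ H₀) :
    H₀ = ⊥ ∨ H₀ = Hprim S nab br := by
  classical
  by_cases hne : Hprim S nab br = ⊥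
  · left
    rw [hne] at hle
    exact le_bot_iff.1 hle
  by_cases h0 : H₀ = ⊥
  · exact Or.inl h0
  right
  have hn0 : 0 < n := by omega
  obtain ⟨m, hm⟩ : ∃ m : ℕ, m = (∑ i, S.w i) / S.d := ⟨_, rfl⟩
  have hm1 : S.d * m ≤ ∑ i, S.w i := by
    rw [hm]
    exact Nat.mul_div_le _ _
  have hm2 : ∑ i, S.w i < S.d * (m + 1) := by
    rw [hm]
    exact Nat.lt_mul_div_succ _ hS.d_pos
  obtain ⟨k, hmk, hα⟩ := gire_alpha (κ := κ) (n := n) m (by
    intro he
    have h1 := hwd he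
    by_contra h2
    have h3 : n * S.d ≤ 2 * m * S.d := Nat.mul_le_mul_right _ (by omega)
    have h4 : 2 * m * S.d = 2 * (S.d * m) := by ring
    omega)
  have hfin : Module.Finite (RatFunc κ) H := H_finite hn0 hS hG
  have hTu : ∀ {σ : κ ≃+* κ} (A : GireAct nab br σ),
      A.T (lv nab br (k + 1) (1 : MvPolynomial (Fin n) κ)) =
        lv nab br (k + 1) (1 : MvPolynomial (Fin n) κ) := fun A => gire_lv A (k + 1) 0
  have hart : IsArtinian (RatFunc κ) H := inferInstance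
  have hnoe : IsNoetherian (RatFunc κ) H := inferInstance
  obtain ⟨H1, ⟨hH1le, hH1st, hH1ne⟩, hH1min⟩ := IsArtinian.set_has_minimal
    {Z : Submodule (RatFunc κ) H | Z ≤ H₀ ∧ (∀ h ∈ Z, nab h ∈ Z) ∧ Z ≠ ⊥}
    ⟨H₀, le_refl _, hst, h0⟩
  have hmin : ∀ Z : Submodule (RatFunc κ) H, Z ≤ H1 → (∀ h ∈ Z, nab h ∈ Z) →
      Z = ⊥ ∨ Z = H1 := by
    intro Z hZ hZst
    by_cases hZ0 : Z = ⊥
    · exact Or.inl hZ0
    · right
      by_contra hne'
      exact hH1min Z ⟨hZ.trans hH1le, hZst, hZ0⟩ (lt_of_le_of_ne hZ hne')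
  have hH1P : H1 ≤ Hprim S nab br := hH1le.trans hle
  have hbot : ∀ h ∈ (⊥ : Submodule (RatFunc κ) H), nab h ∈ (⊥ : Submodule (RatFunc κ) H) := by
    intro h hh
    rw [Submodule.mem_bot] at hh
    rw [hh, map_zero]
    exact Submodule.zero_mem _
  obtain ⟨Y, ⟨hYP, hYst, hYinf⟩, hYmax⟩ := set_has_maximal_iff_noetherian.2 hnoe
    {Z : Submodule (RatFunc κ) H | Z ≤ Hprim S nab br ∧ (∀ h ∈ Z, nab h ∈ Z) ∧ H1 ⊓ Z = ⊥}
    ⟨⊥, bot_le, hbot, inf_bot_eq _⟩
  have hXst : ∀ h ∈ H1 ⊔ Y, nab h ∈ H1 ⊔ Y := gire_sup hH1st hYst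
  by_cases hX : H1 ⊔ Y = Hprim S nab br
  · rcases no_split' hn0 hS hG m hm1 hm2 hgen hli k hmk hα
      (gire_ann hn0 hS hG hne k hact) H1 Y hH1st hYst hYinf hX with h | h
    · exact absurd h hH1ne
    · rw [h, sup_bot_eq] at hX
      refine le_antisymm hle ?_
      rw [← hX]
      exact hH1le
  · exfalso
    obtain ⟨τ', hτ', hall⟩ := sing_all' hn0 hS hG k (H1 ⊔ Y) (sup_le hH1P hYP) hXst hX
    obtain ⟨τ, hτ, x, hxE, hxH, p, hp, hpe⟩ := sing_ne hn0 hS hG k H1 hH1P hH1st hH1ne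
    obtain ⟨σ, hσ, ⟨A⟩⟩ := hact τ τ' hτ hτ'
    have hTx : A.T x ∉ H1 ⊔ Y := by
      intro hmem
      have h1 := hall (A.T x) (gire_EE A k x hxE) hmem (p.map (σ : κ →+* κ)) (by
        have h2 := gire_EE A k _ hp
        rw [map_sub, A.hnab, gire_poly, hTu A] at h2
        exact h2)
      rw [← hσ, gire_eval] at h1
      exact hpe ((map_eq_zero_iff σ σ.injective).1 h1)
    have hIst : ∀ h ∈ gireIm A H1, nab h ∈ gireIm A H1 := gire_im_st A hH1st
    have hIP : gireIm A H1 ≤ Hprim S nab br := gire_im_prim A hH1P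
    have hinf : gireIm A H1 ⊓ (H1 ⊔ Y) = ⊥ := by
      rcases hmin (girePre A (gireIm A H1 ⊓ (H1 ⊔ Y))) (by
        intro z hz
        have h1 : A.T.symm (A.T z) ∈ H1 := hz.1
        rw [AddEquiv.symm_apply_apply] at h1
        exact h1) (gire_pre_st A (gire_inf hIst hXst)) with h1 | h1
      · rw [eq_bot_iff]
        intro y hy
        have h2 : A.T.symm y ∈ girePre A (gireIm A H1 ⊓ (H1 ⊔ Y)) := by
          show A.T (A.T.symm y) ∈ gireIm A H1 ⊓ (H1 ⊔ Y)
          rw [AddEquiv.apply_symm_apply]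
          exact hy
        rw [h1, Submodule.mem_bot] at h2
        rw [Submodule.mem_bot, ← A.T.apply_symm_apply y, h2, map_zero]
      · exfalso
        have h2 : x ∈ girePre A (gireIm A H1 ⊓ (H1 ⊔ Y)) := by
          rw [h1]
          exact hxH
        exact hTx h2.2
    have hY' : Y < Y ⊔ gireIm A H1 := by
      refine lt_of_le_of_ne le_sup_left ?_
      intro he
      apply hTx
      have h1 : A.T x ∈ Y ⊔ gireIm A H1 := Submodule.mem_sup_right (gire_im_mem A hxH)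
      rw [← he] at h1
      exact Submodule.mem_sup_right h1
    refine hYmax (Y ⊔ gireIm A H1) ⟨sup_le hYP hIP, gire_sup hYst hIst, ?_⟩ hY'
    rw [eq_bot_iff]
    rintro h ⟨hh1, hh2⟩
    obtain ⟨y, hy, z, hz, hyz⟩ := Submodule.mem_sup.1 hh2
    have hz0 : z ∈ gireIm A H1 ⊓ (H1 ⊔ Y) := by
      refine ⟨hz, ?_⟩
      have h1 : z = h - y := by rw [← hyz]; abel
      rw [h1]
      exact Submodule.sub_mem _ (Submodule.mem_sup_left hh1) (Submodule.mem_sup_right hy)
    rw [hinf, Submodule.mem_bot] at hz0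
    rw [hz0, add_zero] at hyz
    have h2 : h ∈ H1 ⊓ Y := ⟨hh1, by rw [← hyz]; exact hy⟩
    rw [hYinf] at h2
    exact h2

end core

private theorem gire_hom {κ : Type*} [Field κ] {n : ℕ} (w : Fin n → ℕ) (d : ℕ)
    (φ : MvPolynomial (Fin n) κ) : Hom w d (part w d φ) := by
  classical
  intro e he
  by_contra h
  rw [mem_support_iff] at he
  apply he
  unfold part
  rw [coeff_weightedHomogeneousComponent, if_neg]
  intro h1
  apply h
  rw [← h1, Finsupp.weight_apply]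
  refine Eq.symm ((Finsupp.sum_fintype e (fun i c => c • w i) (fun i => zero_smul ℕ (w i))).trans ?_)
  unfold wt
  refine Finset.sum_congr rfl fun i _ => ?_
  rw [smul_eq_mul, mul_comm]

private theorem gire_fix {k₁ M : Type u} [Field k₁] [Field M] [Algebra k₁ M] {n : ℕ}
    (S₁ : Dat k₁ n) (σ : M ≃+* M) (hσ : ∀ x : k₁, σ (algebraMap k₁ M x) = algebraMap k₁ M x) :
    (S₁.map (algebraMap k₁ M)).map (σ : M →+* M) = S₁.map (algebraMap k₁ M) := by
  have h1 : (σ : M →+* M).comp (algebraMap k₁ M) = algebraMap k₁ M := RingHom.ext hσ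
  unfold Dat.map
  simp only [MvPolynomial.map_map, Polynomial.map_map, h1]

theorem gen_irr' {k₁ M : Type u} [Field k₁] [CharZero k₁] [Field M] [CharZero M] [Algebra k₁ M]
    [IsAlgClosed M] {n : ℕ} (hn : 2 ≤ n) (S₁ : Dat k₁ n) (hS₁ : S₁.Ok) (hirr : Irreducible S₁.δ)
    (hwd : Even n → 2 * ∑ i, S₁.w i < n * S₁.d) : GMIrr (S₁.map (algebraMap k₁ M)) := by
  intro nab hG H' hle hst
  have hS := map_ok S₁ hS₁ (algebraMap k₁ M)
  have hfix := gire_fix (M := M) S₁
  have hroot : ∀ τ : M, (S₁.map (algebraMap k₁ M)).δ.IsRoot τ → Polynomial.aeval τ S₁.δ = 0 := by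
    intro τ hτ
    rw [← Polynomial.eval_map_algebraMap]
    exact hτ
  have hwd' : Even n → 2 * ∑ i, (S₁.map (algebraMap k₁ M)).w i <
      n * (S₁.map (algebraMap k₁ M)).d := hwd
  generalize S₁.map (algebraMap k₁ M) = S at *
  obtain ⟨U, hU⟩ := exists_MB S.w hS.w_pos S.d (part S.w S.d S.φ) (gire_hom S.w S.d S.φ) S.M hS.jac
  refine gire_core hn hS hG hwd' (fun P N hP => h_gen hn hS hG U hU P N hP)
    (fun a h => h_ind hn S hS U hU a h) ?_ H' hle hst
  intro τ τ' hτ hτ'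
  obtain ⟨σ, hσ1, hσ2⟩ := exists_aut S₁.δ hirr τ τ' (hroot τ hτ) (hroot τ' hτ')
  obtain ⟨s, T, h1, h2, h3, h4⟩ := exists_act S hS σ (hfix σ hσ1) nab hG
  exact ⟨σ, hσ2, ⟨⟨s, T, h1, h2, h3, h4⟩⟩⟩

end MPadcBK
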