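import Pool.Agent.Lib.MP_adc574_ag_HM.Irr
import Pool.Agent.Lib.MP_adc574_ag_BK.GirD

/-!
# GirE: the primitive part of the Gauss-Manin module of a Morse polynomial is irreducible (all degrees)

`HM/Irr.lean` with `∑ w < d` replaced by: `w i < d` for all `i`, and `2 ∑ w < n d` if `n` is even. For weights 1 this is `d ≥ 3`.
-/

set_option autoImplicit false

namespace MPadcBK

open MvPolynomial MPadcGM MPadcHM

universe u

private theorem girE_indep {κ M N : Type u} [Field κ] [Field M] [Algebra κ M] [Field N]
    [Algebra (PowerSeries M) N] [IsFractionRing (PowerSeries M) N] [Algebra κ N]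
    [IsScalarTower κ (PowerSeries M) N] {n : ℕ} (β : Fin n → M)
    (hβ : AlgebraicIndependent κ β) : AlgebraicIndependent κ fun i =>
      algebraMap (PowerSeries M) N (PowerSeries.X * PowerSeries.C (β i)) := by
  have hm : ∀ (e : Fin n →₀ ℕ) (c : κ), aeval (fun i => (PowerSeries.X * PowerSeries.C (β i) :
      PowerSeries M)) (monomial e c) = PowerSeries.X ^ (e.sum fun _ a => a) *
        PowerSeries.C (aeval β (monomial e c)) := by
    intro e c
    have h3 : algebraMap κ (PowerSeries M) c = PowerSeries.C (algebraMap κ M c) :=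
      PowerSeries.algebraMap_apply
    rw [aeval_monomial, aeval_monomial, h3, Finsupp.prod, Finsupp.prod, Finsupp.sum, map_mul,
      map_prod]
    simp only [mul_pow, Finset.prod_mul_distrib, map_pow]
    rw [Finset.prod_pow_eq_pow_sum]
    ring
  have h1 : AlgebraicIndependent κ (fun i => (PowerSeries.X * PowerSeries.C (β i) :
      PowerSeries M)) := by
    rw [algebraicIndependent_iff_injective_aeval, injective_iff_map_eq_zero]
    intro P hP
    have hk : ∀ (k : ℕ) (Q : MvPolynomial (Fin n) κ), PowerSeries.coeff k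
        (aeval (fun i => (PowerSeries.X * PowerSeries.C (β i) : PowerSeries M)) Q) =
          aeval β (homogeneousComponent k Q) := by
      intro k Q
      induction Q using MvPolynomial.induction_on' with
      | monomial e c =>
        rw [hm, PowerSeries.coeff_X_pow_mul', PowerSeries.coeff_C]
        have hd : (e.sum fun _ a => a) = e.degree := rfl
        by_cases h : k = e.degree
        · subst h
          rw [hd, if_pos le_rfl, Nat.sub_self, if_pos rfl]
          congr 1
          rw [homogeneousComponent_of_mem (isHomogeneous_monomial c rfl), if_pos rfl]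
        · have h5 : homogeneousComponent k (monomial e c) = 0 := by
            rw [homogeneousComponent_of_mem (isHomogeneous_monomial c rfl), if_neg h]
          rw [h5, map_zero]
          by_cases h2 : e.degree ≤ k
          · rw [hd, if_pos h2, if_neg]
            omega
          · rw [hd, if_neg h2]
      | add p q hp hq => rw [map_add, map_add, map_add, map_add, hp, hq]
    have h2 : ∀ k, homogeneousComponent k P = 0 := fun k => hβ (by
      rw [← hk, hP, map_zero, map_zero])
    rw [← sum_homogeneousComponent P]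
    exact Finset.sum_eq_zero fun k _ => h2 k
  exact h1.map' (f := IsScalarTower.toAlgHom κ (PowerSeries M) N) (IsFractionRing.injective _ _)

private theorem girE_wt_single {n : ℕ} (w : Fin n → ℕ) (i : Fin n) (M : ℕ) :
    wt w (Finsupp.single i M) = w i * M := by
  unfold wt
  rw [Finset.sum_eq_single i]
  · rw [Finsupp.single_eq_same]
  · intro j _ hj
    rw [Finsupp.single_eq_of_ne hj, mul_zero]
  · intro h
    exact absurd (Finset.mem_univ i) h

private theorem girE_weight {n : ℕ} (w : Fin n → ℕ) (e : Fin n →₀ ℕ) :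
    Finsupp.weight w e = wt w e := by
  rw [Finsupp.weight_apply]
  refine (Finsupp.sum_fintype e (fun i c => c • w i) (fun i => zero_smul ℕ (w i))).trans ?_
  unfold wt
  refine Finset.sum_congr rfl fun i _ => ?_
  rw [smul_eq_mul, mul_comm]

private theorem girE_coeff_lin {R : Type*} [CommRing R] {n : ℕ} (b : Fin n → R)
    (e : Fin n →₀ ℕ) (he : coeff e (∑ i, C (b i) * X i : MvPolynomial (Fin n) R) ≠ 0) :
    ∃ i, e = Finsupp.single i 1 := by
  classical
  by_contra hcon
  push Not at hcon
  apply he
  rw [coeff_sum]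
  refine Finset.sum_eq_zero fun i _ => ?_
  rw [coeff_C_mul, coeff_X, if_neg (fun h => hcon i h.symm), mul_zero]

private theorem girE_part {κ k₁ : Type u} [Field κ] [Field k₁] [Algebra κ k₁] {n : ℕ}
    (w : Fin n → ℕ) (d : ℕ) (hwd : ∀ i, w i < d) (g : MvPolynomial (Fin n) κ) (b : Fin n → k₁) :
    part w d (g.map (algebraMap κ k₁) + ∑ i, C (b i) * X i) =
      (part w d g).map (algebraMap κ k₁) := by
  classical
  ext e
  unfold part
  rw [coeff_weightedHomogeneousComponent, coeff_map, coeff_weightedHomogeneousComponent,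
    girE_weight]
  by_cases h : wt w e = d
  · rw [if_pos h, if_pos h, coeff_add, coeff_map]
    have h1 : coeff e (∑ i, C (b i) * X i : MvPolynomial (Fin n) k₁) = 0 := by
      by_contra h2
      obtain ⟨i, hi⟩ := girE_coeff_lin b e h2
      rw [hi, girE_wt_single, mul_one] at h
      exact absurd h (ne_of_lt (hwd i))
    rw [h1, add_zero]
  · rw [if_neg h, if_neg h, map_zero]

private theorem girE_deg {κ k₁ : Type u} [Field κ] [Field k₁] [Algebra κ k₁] {n : ℕ}
    (w : Fin n → ℕ) (d : ℕ) (hwd : ∀ i, w i < d) (g : MvPolynomial (Fin n) κ)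
    (hg : DegLe w d g) (b : Fin n → k₁) :
    DegLe w d (g.map (algebraMap κ k₁) + ∑ i, C (b i) * X i) := by
  intro e he
  rw [mem_support_iff, coeff_add, coeff_map] at he
  by_cases h1 : coeff e g = 0
  · rw [h1, map_zero, zero_add] at he
    obtain ⟨i, hi⟩ := girE_coeff_lin b e he
    rw [hi, girE_wt_single, mul_one]
    exact le_of_lt (hwd i)
  · exact hg e (mem_support_iff.2 h1)

private theorem girE_jac {κ k₁ : Type u} [Field κ] [Field k₁] [Algebra κ k₁] {n : ℕ}
    (g : MvPolynomial (Fin n) κ) (e : Fin n →₀ ℕ) (he : monomial e (1 : κ) ∈ Jac g) :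
    monomial e (1 : k₁) ∈ Jac (g.map (algebraMap κ k₁)) := by
  obtain ⟨q, hq⟩ := Ideal.mem_span_range_iff_exists_fun.mp he
  refine Ideal.mem_span_range_iff_exists_fun.mpr ⟨fun j => map (algebraMap κ k₁) (q j), ?_⟩
  have h2 := congrArg (map (algebraMap κ k₁)) hq
  rw [map_sum, map_monomial, map_one] at h2
  rw [← h2]
  refine Finset.sum_congr rfl fun j _ => ?_
  rw [map_mul, pderiv_map]

private theorem girE_map {k₁ N N' : Type u} [Field k₁] [Field N] [Field N'] [Algebra k₁ N]
    [Algebra N N'] [Algebra k₁ N'] [IsScalarTower k₁ N N'] {n : ℕ} (S₁ : Dat k₁ n) :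
    (S₁.map (algebraMap k₁ N)).map (algebraMap N N') = S₁.map (algebraMap k₁ N') := by
  have h1 : (algebraMap N N').comp (algebraMap k₁ N) = algebraMap k₁ N' :=
    (IsScalarTower.algebraMap_eq k₁ N N').symm
  unfold Dat.map
  simp only [MvPolynomial.map_map, Polynomial.map_map, h1]

/-- Generic member over `k₁ ⊆ N`. -/
private theorem girE_gen {κ k₁ N : Type u} [Field κ] [CharZero κ] [Field k₁] [Algebra κ k₁]
    [Field N] [Algebra k₁ N] {n : ℕ} (hn : 2 ≤ n)
    (S : Dat κ n) (hS : S.Ok) (hwd' : ∀ i, S.w i < S.d)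
    (hwd : Even n → 2 * ∑ i, S.w i < n * S.d) (b : Fin n → k₁)
    (hb : AlgebraicIndependent κ b)
    (htop : IntermediateField.adjoin κ (Set.range b) = ⊤) :
    ∃ S' : Dat N n, S'.Ok ∧ S'.w = S.w ∧ S'.d = S.d ∧
      S'.φ = (S.φ.map (algebraMap κ k₁) + ∑ i, C (b i) * X i).map (algebraMap k₁ N) ∧
      GMIrr S' := by
  have hck : CharZero k₁ := charZero_of_injective_algebraMap (algebraMap κ k₁).injective
  have hcN : CharZero N := charZero_of_injective_algebraMap (algebraMap k₁ N).injective
  have hcN' : CharZero (AlgebraicClosure N) :=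
    charZero_of_injective_algebraMap (algebraMap N (AlgebraicClosure N)).injective
  have hgT : ∀ i, (X i : MvPolynomial (Fin n) κ) ∈ (Jac (part S.w S.d S.φ)).radical := by
    intro i
    refine Ideal.mem_radical_iff.2 ⟨S.M, ?_⟩
    have h1 : monomial (Finsupp.single i S.M) (1 : κ) ∈ Jac (part S.w S.d S.φ) := by
      refine hS.jac _ ?_
      rw [girE_wt_single]
      exact Nat.le_mul_of_pos_left _ (hS.w_pos i)
    rw [X_pow_eq_monomial]
    exact h1
  obtain ⟨h1, δ₁, h2, h3⟩ := family_irr (by omega) b hb htop S.w hS.w_pos S.d hwd' S.φ hS.deg hgT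
    (S.φ.map (algebraMap κ k₁) + ∑ i, C (b i) * X i) rfl
  choose ξ₁ hξ₁ using h1
  have hS₁ : (⟨S.w, S.d, S.φ.map (algebraMap κ k₁) + ∑ i, C (b i) * X i, S.M, δ₁, ξ₁⟩ :
      Dat k₁ n).Ok := by
    refine ⟨hS.w_pos, hS.d_pos, girE_deg S.w S.d hwd' S.φ hS.deg b, ?_, h3.separable, h2, hξ₁⟩
    intro e he
    show monomial e (1 : k₁) ∈ Jac (part S.w S.d (S.φ.map (algebraMap κ k₁) + ∑ i, C (b i) * X i))
    rw [girE_part S.w S.d hwd' S.φ b]
    exact girE_jac _ e (hS.jac e he)
  refine ⟨Dat.map _ (algebraMap k₁ N), map_ok _ hS₁ _, rfl, rfl, rfl, ?_⟩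
  refine bc_irr (κ' := AlgebraicClosure N) hn _ (map_ok _ hS₁ _) ?_
  rw [girE_map]
  exact gen_irr' (M := AlgebraicClosure N) hn _ hS₁ h3 hwd

private theorem girE_core {κ M N : Type u} [Field κ] [CharZero κ] [Field M] [Algebra κ M]
    [IsAlgClosed M] [Field N] [Algebra (PowerSeries M) N] [IsFractionRing (PowerSeries M) N]
    [Algebra κ N] [IsScalarTower κ (PowerSeries M) N] {n : ℕ} (β : Fin n → M)
    (hβ : AlgebraicIndependent κ β) (hn : 2 ≤ n) (S : Dat κ n) (hS : S.Ok)
    (hwd' : ∀ i, S.w i < S.d) (hwd : Even n → 2 * ∑ i, S.w i < n * S.d) : GMIrr S := by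
  have hcM : CharZero M := charZero_of_injective_algebraMap (algebraMap κ M).injective
  have hcN : CharZero N := charZero_of_injective_algebraMap (algebraMap κ N).injective
  have hind := girE_indep (N := N) β hβ
  obtain ⟨b, hb⟩ : ∃ b : Fin n → N, b = fun i =>
      algebraMap (PowerSeries M) N (PowerSeries.X * PowerSeries.C (β i)) := ⟨_, rfl⟩
  rw [← hb] at hind
  have hmem : ∀ i, b i ∈ IntermediateField.adjoin κ (Set.range b) := fun i =>
    IntermediateField.subset_adjoin κ _ (Set.mem_range_self i)
  obtain ⟨b', hb'⟩ : ∃ b' : Fin n → IntermediateField.adjoin κ (Set.range b),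
      b' = fun i => ⟨b i, hmem i⟩ := ⟨_, rfl⟩
  have hval : ∀ i, algebraMap (IntermediateField.adjoin κ (Set.range b)) N (b' i) = b i := by
    intro i
    rw [hb']
    rfl
  have hb'ind : AlgebraicIndependent κ b' := by
    refine AlgebraicIndependent.of_comp (IntermediateField.val _) ?_
    have h1 : (IntermediateField.val (IntermediateField.adjoin κ (Set.range b))) ∘ b' = b := by
      funext i
      exact hval i
    rw [h1]
    exact hind
  have htop : IntermediateField.adjoin κ (Set.range b') = ⊤ := by
    apply IntermediateField.lift_injective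
    rw [IntermediateField.lift_adjoin, IntermediateField.lift_top]
    have h1 : Subtype.val '' Set.range b' = Set.range b := by
      rw [← Set.range_comp]
      have h2 : (Subtype.val ∘ b' : Fin n → N) = b := by
        funext i
        exact hval i
      rw [h2]
    rw [h1]
  obtain ⟨S', hS', hw, hd, hφ, hirr⟩ := girE_gen (N := N) hn S hS hwd' hwd b' hb'ind htop
  refine bc_irr (κ' := M) hn S hS ?_
  refine iso_irr (N := N) hn (S.map (algebraMap κ M)) (map_ok S hS _) (∑ i, C (β i) * X i) ?_ S' hS'
    hw hd ?_ hirr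
  · intro e he
    rw [mem_support_iff] at he
    obtain ⟨i, hi⟩ := girE_coeff_lin β e he
    show wt S.w e < S.d
    rw [hi, girE_wt_single, mul_one]
    exact hwd' i
  · rw [hφ]
    have h1 : (algebraMap (IntermediateField.adjoin κ (Set.range b)) N).comp
        (algebraMap κ (IntermediateField.adjoin κ (Set.range b))) =
        (algebraMap (PowerSeries M) N).comp (PowerSeries.C.comp (algebraMap κ M)) := by
      ext x
      show algebraMap (IntermediateField.adjoin κ (Set.range b)) N
        (algebraMap κ (IntermediateField.adjoin κ (Set.range b)) x) =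
          algebraMap (PowerSeries M) N (PowerSeries.C (algebraMap κ M x))
      rw [← IsScalarTower.algebraMap_apply κ (IntermediateField.adjoin κ (Set.range b)) N,
        IsScalarTower.algebraMap_apply κ (PowerSeries M) N, PowerSeries.algebraMap_apply]
    unfold phs
    rw [map_add, MvPolynomial.map_map, h1, map_add, map_mul, map_C, map_sum, map_sum, map_sum]
    show _ = ((S.φ.map (algebraMap κ M)).map PowerSeries.C).map (algebraMap (PowerSeries M) N) + _
    rw [MvPolynomial.map_map, MvPolynomial.map_map, Finset.mul_sum]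
    refine congrArg₂ (· + ·) rfl (Finset.sum_congr rfl fun i _ => ?_)
    rw [map_mul, map_C, map_X, map_mul, map_C, map_X, map_mul, map_C, map_X, hval, hb, ← mul_assoc,
      ← C_mul, ← map_mul]

/-- The primitive part of the Gauss-Manin module of a Morse polynomial is irreducible, for all
degrees. -/
theorem gm_irr' {κ : Type u} [Field κ] [CharZero κ] {n : ℕ} (hn : 2 ≤ n) (S : Dat κ n) (hS : S.Ok)
    (hwd' : ∀ i, S.w i < S.d) (hwd : Even n → 2 * ∑ i, S.w i < n * S.d) : GMIrr S := by
  have h1 : AlgebraicIndependent κ (fun i : Fin n =>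
      algebraMap (MvPolynomial (Fin n) κ)
        (AlgebraicClosure (FractionRing (MvPolynomial (Fin n) κ))) (X i)) := by
    have h2 := (MvPolynomial.algebraicIndependent_X (Fin n) κ).map'
      (f := IsScalarTower.toAlgHom κ (MvPolynomial (Fin n) κ)
        (AlgebraicClosure (FractionRing (MvPolynomial (Fin n) κ)))) ?_
    · exact h2
    · show Function.Injective (algebraMap (MvPolynomial (Fin n) κ)
        (AlgebraicClosure (FractionRing (MvPolynomial (Fin n) κ))))
      rw [IsScalarTower.algebraMap_eq (MvPolynomial (Fin n) κ)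
        (FractionRing (MvPolynomial (Fin n) κ))
        (AlgebraicClosure (FractionRing (MvPolynomial (Fin n) κ)))]
      exact (RingHom.injective (algebraMap (FractionRing (MvPolynomial (Fin n) κ))
        (AlgebraicClosure (FractionRing (MvPolynomial (Fin n) κ))))).comp
          (IsFractionRing.injective (MvPolynomial (Fin n) κ) (FractionRing (MvPolynomial (Fin n) κ)))
  exact girE_core (M := AlgebraicClosure (FractionRing (MvPolynomial (Fin n) κ)))
    (N := FractionRing (PowerSeries (AlgebraicClosure (FractionRing (MvPolynomial (Fin n) κ)))))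
    _ h1 hn S hS hwd' hwd

/-- Weights 1, degree at least 3. -/
theorem gm_irr_three {κ : Type u} [Field κ] [CharZero κ] {n : ℕ} (hn : 2 ≤ n) (S : Dat κ n)
    (hS : S.Ok) (hw : S.w = fun _ => 1) (hd : 3 ≤ S.d) : GMIrr S := by
  refine gm_irr' hn S hS (fun i => ?_) fun _ => ?_
  · rw [hw]
    show 1 < S.d
    omega
  · rw [hw, Finset.sum_const, Finset.card_univ, Fintype.card_fin, smul_eq_mul, mul_one]
    nlinarith

end MPadcBK
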