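import Pool.Agent.Lib.MP_adc574_ag_BK.Zig3

/-!
# JOB IndA: injectivity of `H^j (ZK^q) → H^j (KK^q)`

`D = DD F`; `j = l + 1`, degree `q + 1`, `q + j = n`, i.e. `q + l + 1 = n`. `z = del θ` closed of length `j + 1` with values in `ZK F d (q+1)`, `θ` of length `j` with values in `KK F d (q+1)`.
`D (θ s) = dd (θ s) ∈ TT d 1 (q+2) I`, `al 1 (D (θ s)) = 0` (`al_one_DD`), `del (D ∘ θ) = D ∘ z = 0` (`ZK_TI`), `D ∘ D ∘ θ = 0`. `zig_exists` (`l`, degree `q + 2`, `N = 1`): `h ∈ TT d (1 + l) (q + 2 + l) ∅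
= TT d j (n+1) ∅`, `Zig F d (l+1) (q+2) (D ∘ θ) h`. `zig_al_all` (`l`, `q + 1`): `al i h ∈ JJ F d i` for `1 ≤ i ≤ j`. `InjJ` (`j ≤ n < p`): `h = D η`, `η ∈ TT d (j-1) n ∅ ≤ TI d n ∅`.
`zig_back` (`l`, degree `q + 1`; `(q+1) + l = n`): `ρ ∈ Coch (TI d (q+1))` of length `j`, `D ∘ ρ = 0`, `del ρ = del θ = z`. `des1` (`Set.range s` nonempty): `ρ s = ρ1 s + D (ψ s)`, `ρ1 s ∈ ZK F d (q+1)`,
`ψ s ∈ TI d q`. Then `z - del ρ1 = del (D ∘ ψ) = D ∘ del ψ` is a cochain of length `j + 1` with values in `ZK F d (q+1)` hence in `TD {d}`, and `del ψ ∈ Coch (TI d q)`, so by `des2` it has values in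
`BK F d q`, and it is closed (`del z = del (del θ) = 0`). By `hA`: `z - del ρ1 = del b`, `b ∈ Coch (BK F d q)` of length `j`, and `ζ = ρ1 + b` (`BK_le_ZK`).
-/

set_option autoImplicit false

namespace MPadcBK

open ExteriorAlgebra

universe u

variable {κ : Type u} [Field κ] {n : ℕ} (p : ℕ) [hp : Fact p.Prime] [CharP κ p] [PerfectRing κ p]

private theorem indA_D (F : MvPolynomial (Fin (n + 1)) κ) {l : ℕ}
    (c : (Fin l → Fin (n + 1)) → Fo κ (n + 1)) :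
    del (fun s => DD F (c s)) = fun s => DD F (del c s) :=
  del_map (AddMonoidHom.mk' (DD F) (DD_add F)) c

private theorem indA_TT {d : ℕ} {F : MvPolynomial (Fin (n + 1)) κ} {q : ℕ}
    {I : Set (Fin (n + 1))} {x : Fo κ (n + 1)} (hx : x ∈ KK F d q I) :
    DD F x ∈ TT (κ := κ) d 1 (q + 1) I := by
  unfold KK at hx
  obtain ⟨⟨⟨h1, h2⟩, h3⟩, h4⟩ := hx
  have h5 : dd (pf F) * x = 0 := h4
  have h6 : DD F x = dd x := by
    unfold DD
    rw [h5, sub_zero]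
  rw [h6]
  refine ⟨⟨dd_Reg h1, dd_FD h2⟩, TD_mono ?_ (dd_TD h3)⟩
  intro t ht
  exact ⟨1, le_rfl, le_rfl, by rw [Set.mem_singleton_iff.1 ht, Nat.cast_one, one_mul]⟩

theorem indA {d : ℕ} {F : MvPolynomial (Fin (n + 1)) κ} (H : Hyp p d F) {q l : ℕ}
    (hq : q + l + 1 = n) (hS : SurjJ p F d (l + 1))
    (hA : HZero (fun I => (BK F d q I).toAddSubgroup) (l + 1))
    (z : (Fin (l + 2) → Fin (n + 1)) → Fo κ (n + 1))
    (hz : Coch (fun I => (ZK F d (q + 1) I).toAddSubgroup) z)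
    (θ : (Fin (l + 1) → Fin (n + 1)) → Fo κ (n + 1))
    (hθ : Coch (fun I => (KK F d (q + 1) I).toAddSubgroup) θ) (h : del θ = z) :
    ∃ ζ : (Fin (l + 1) → Fin (n + 1)) → Fo κ (n + 1),
      Coch (fun I => (ZK F d (q + 1) I).toAddSubgroup) ζ ∧ del ζ = z := by
  have hm : 2 ≤ n + 1 := by have := H.hn; omega
  have hnp := H.hnp
  have hn := H.hn
  have hθT : Coch (fun I => (TI (κ := κ) d (q + 1) I).toAddSubgroup) θ := fun s =>
    TT_le_TI (KK_TI (hθ s))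
  have hdc : del (fun s => DD F (θ s)) = 0 := by
    rw [indA_D, h]
    funext s
    exact (ZK_TI (hz s)).2
  obtain ⟨h0, hh0, -, hzig⟩ := zig_exists hm H.hd H.hF l (q + 2) 1 (fun s => DD F (θ s))
    (fun s => indA_TT (hθ s)) hdc (fun s => DD_DD F _)
  have hal := zig_al_all p (by omega) H.hd H.hF l (q + 1) (by omega) (by omega)
    (fun s => DD F (θ s)) h0 hzig (fun s => al_one_DD p H.hF H.hd (hθT s))
  have hP : h0 ∈ TT (κ := κ) d (l + 1) (n + 1) ∅ := by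
    have e1 : q + 2 + l = n + 1 := by omega
    have e2 : 1 + l = l + 1 := by omega
    rw [e1, e2] at hh0
    exact hh0
  obtain ⟨η, hη, hDη⟩ := InjJ p H.hF H.hd (by omega) (by omega) (by omega) hS hP hal
  obtain ⟨ρ, hρ, hDρ, hdρ⟩ := zig_back p H l (q + 1) (by omega) θ hθT h0 η hzig
    (TT_le_TI hη) hDη
  have hdes : ∀ s : Fin (l + 1) → Fin (n + 1), ∃ x1 ∈ ZK F d (q + 1) (Set.range s),
      ∃ y ∈ TI (κ := κ) d q (Set.range s), ρ s = x1 + DD F y := fun s =>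
    des1 H.hd H.hF H.hs ⟨s 0, Set.mem_range_self 0⟩ (hρ s) (hDρ s)
  choose ρ1 hρ1 ψ hψ hsum using hdes
  have hρ1C : Coch (fun I => (ZK F d (q + 1) I).toAddSubgroup) ρ1 := fun s => hρ1 s
  have hdρ1 : Coch (fun I => (ZK F d (q + 1) I).toAddSubgroup) (del ρ1) :=
    del_Coch (fun I J hIJ x hx => ZK_mono hIJ hx) hρ1C
  have hw : ∀ s, (z - del ρ1) s = DD F (del ψ s) := by
    intro s
    have h1 := congrFun (indA_D F ψ) s
    have h2 : (fun s => DD F (ψ s)) = ρ - ρ1 := by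
      funext s
      rw [Pi.sub_apply, hsum s, add_sub_cancel_left]
    rw [h2, del_sub, hdρ, h] at h1
    exact h1
  have hwZ : ∀ s, (z - del ρ1) s ∈ ZK F d (q + 1) (Set.range s) := fun s =>
    AddSubgroup.sub_mem _ (hz s) (hdρ1 s)
  have hdψ : Coch (fun I => (TI (κ := κ) d q I).toAddSubgroup) (del ψ) :=
    del_Coch (M := fun I => (TI (κ := κ) d q I).toAddSubgroup)
      (fun I J hIJ x hx => ⟨⟨Reg_mono hIJ hx.1.1, hx.1.2⟩, hx.2⟩) (fun s => hψ s)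
  have hwB : Coch (fun I => (BK F d q I).toAddSubgroup) (z - del ρ1) := by
    intro s
    have h1 := hwZ s
    have h2 : (z - del ρ1) s ∈ TD (κ := κ) (m := n + 1) {(d : ℤ)} := h1.1.1.2
    exact des2 H.hd H.hF H.hs ⟨s 0, Set.mem_range_self 0⟩ h2 (hdψ s) (hw s).symm
  have hdw : del (z - del ρ1) = 0 := by
    rw [del_sub, ← h, del_del, del_del, sub_zero]
  obtain ⟨b, hb, hdb⟩ := hA (z - del ρ1) hwB hdw
  refine ⟨ρ1 + b, fun s => AddSubgroup.add_mem _ (hρ1C s) (BK_le_ZK (hb s)), ?_⟩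
  rw [del_add, hdb]
  abel

end MPadcBK
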