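import Pool.Agent.Lib.MP_adc574_ag_BK.KosG
import Pool.Agent.Lib.MP_adc574_ag_BK.Cech

/-!
# JOB KC: Čech cohomology of the forms killed by `dF ∧`

`KK_exact`: induction on `l`. `c` closed of length `l + 1` in `KK F (k d) q`. By `exact_pos` (`P = {k d}`, `1 ≤ k d`) `c = del a`, `a` a cochain of length `l` in
`Reg I ⊓ FD q ⊓ TD {k d}`. `b' = dF * a` is a cochain in `KK F ((k+1) d) (q+1)` (`one_mul_self`), `del b' = dF * c = 0` (`del_map` with `dF *`).
* `l = 1`: `b'` is constant `= g` (`const_of_del`), `g` is regular on all `{i}`, hence on `∅` (`reg_inter`, as `2 ≤ m`). If `q + 1 < m`: `kos_global`, `g = dF * g'`,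
  `g' ∈ Reg ∅ ⊓ FD q ⊓ TD {k d}`; `a - g'` is a cochain in `KK F (k d) q` with `del = c`. If `m < q + 1`: `g = 0` (`FD_top`), so `a` is in `KK`. (`q + 1 = m` is excluded.)
* `l ≥ 2`: by induction `b' = del b`, `b` in `KK F ((k+1) d) (q+1)` of length `l - 1 ≥ 1`; the index sets are nonempty, so with `y s = kk (s 0) (b s)`: `dF * y = b` (`kk_add`, `dF * b = 0`),
  `y s ∈ Reg ⊓ FD q ⊓ TD {k d}`; `a - del y` is in `KK` and has `del = c`.
`KK_fin`: the same induction. `W'` for `(l - 1, q + 1, k + 1)` (for `l = 1`: `W' =` constant cochains with values in `Reg ∅ ⊓ FD m ⊓ TD {(k+1) d}`, finite dimensional by `fin_empty`);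
`W = image of W'` under the linear map `w ↦ del (fun s => kk (s 0) (w s))`.
`fin_empty`: exponents of regular forms on `∅` are `≥ 0` with sum `t`: finitely many; `Lam κ m` is finite dimensional.
-/

set_option autoImplicit false

namespace MPadcBK

open ExteriorAlgebra

universe u

variable {κ : Type u} [Field κ] {m : ℕ}

private theorem kc_mem {F : MvPolynomial (Fin m) κ} {t : ℤ} {q : ℕ} {I : Set (Fin m)} {x : Fo κ m} :
    x ∈ KK F t q I ↔ x ∈ Reg (κ := κ) I ⊓ FD q ⊓ TD {t} ∧ dd (pf F) * x = 0 := by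
  unfold KK
  rw [Submodule.mem_inf, LinearMap.mem_ker, LinearMap.mulLeft_apply]

private theorem kc_mk {t : ℤ} {q : ℕ} {I : Set (Fin m)} {x : Fo κ m} (h1 : x ∈ Reg (κ := κ) I)
    (h2 : x ∈ FD (κ := κ) (m := m) q) (h3 : x ∈ TD (κ := κ) (m := m) {t}) :
    x ∈ Reg (κ := κ) I ⊓ FD q ⊓ TD {t} := ⟨⟨h1, h2⟩, h3⟩

theorem KK_mono {F : MvPolynomial (Fin m) κ} {t : ℤ} {q : ℕ} {I J : Set (Fin m)} (h : I ⊆ J) :
    KK F t q I ≤ KK F t q J := by
  intro x hx
  rw [kc_mem] at hx ⊢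
  obtain ⟨⟨⟨h1, h2⟩, h3⟩, h4⟩ := hx
  exact ⟨kc_mk (Reg_mono h h1) h2 h3, h4⟩

theorem reg_inter (hm : 2 ≤ m) {x : Fo κ m} (h : ∀ i : Fin m, x ∈ Reg (κ := κ) {i}) :
    x ∈ Reg (κ := κ) ∅ := by
  intro e i _
  have hj : ∃ j : Fin m, i ≠ j := by
    by_contra hc
    push Not at hc
    have h0 := hc ⟨0, by omega⟩
    have h1 := hc ⟨1, by omega⟩
    rw [h0] at h1
    have := congrArg Fin.val h1
    simp at this
  obtain ⟨j, hj⟩ := hj
  exact h j e i (fun hi => hj (Set.mem_singleton_iff.1 hi))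

theorem fin_empty (q : ℕ) (t : ℤ) :
    FiniteDimensional κ (Reg (κ := κ) (∅ : Set (Fin m)) ⊓ FD q ⊓ TD {t} : Submodule κ (Fo κ m)) := by
  classical
  let S : Finset (Ex m) := Fintype.piFinset fun _ => Finset.Icc (0 : ℤ) t
  let L : (Reg (κ := κ) (∅ : Set (Fin m)) ⊓ FD q ⊓ TD {t} : Submodule κ (Fo κ m)) →ₗ[κ]
      (S → ⋀[κ]^q (Fin m → κ)) :=
    { toFun := fun x e => ⟨(x : Fo κ m).coeff e, x.2.1.2 e⟩
      map_add' := fun x y => by
        funext e
        apply Subtype.ext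
        show (((x + y : _) : Fo κ m)).coeff e = _
        rw [Submodule.coe_add, AddMonoidAlgebra.coeff_add, Finsupp.add_apply]
        rfl
      map_smul' := fun a x => by
        funext e
        apply Subtype.ext
        show (((a • x : _) : Fo κ m)).coeff e = _
        rw [Submodule.coe_smul, AddMonoidAlgebra.coeff_smul, Finsupp.smul_apply]
        rfl }
  refine FiniteDimensional.of_injective L ?_
  intro x y hxy
  apply Subtype.ext
  refine fo_ext fun e => ?_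
  have hz : ∀ z : (Reg (κ := κ) (∅ : Set (Fin m)) ⊓ FD q ⊓ TD {t} : Submodule κ (Fo κ m)),
      e ∉ S → (z : Fo κ m).coeff e = 0 := by
    intro z he
    obtain ⟨⟨h1, _⟩, h3⟩ := z.2
    by_contra hne
    apply he
    have ht : tot e = t := by
      by_contra h'
      exact hne (h3 e (by simpa using h'))
    have h0 : ∀ i, 0 ≤ e i := by
      intro i
      by_contra h'
      exact hne ((h1 e i (Set.notMem_empty _)).1 (not_le.1 h'))
    rw [Fintype.mem_piFinset]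
    intro i
    rw [Finset.mem_Icc]
    refine ⟨h0 i, ?_⟩
    rw [← ht]
    unfold tot
    exact Finset.single_le_sum (f := fun i => e i) (fun j _ => h0 j) (Finset.mem_univ i)
  by_cases he : e ∈ S
  · exact congrArg Subtype.val (congrFun hxy ⟨e, he⟩)
  · rw [hz x he, hz y he]

section aux

variable {d : ℕ} {F : MvPolynomial (Fin m) κ}

private theorem kc_td {k : ℕ} {x : Fo κ m}
    (hx : x ∈ TD (κ := κ) (m := m) {t | t - (d : ℤ) ∈ ({(k : ℤ) * d} : Set ℤ)}) :
    x ∈ TD (κ := κ) (m := m) {((k + 1 : ℕ) : ℤ) * d} := by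
  refine TD_mono ?_ hx
  intro t ht
  rw [Set.mem_ofPred_eq, Set.mem_singleton_iff] at ht
  rw [Set.mem_singleton_iff]
  push_cast
  linarith

private theorem kc_td' {k : ℕ} {x : Fo κ m}
    (hx : x ∈ TD (κ := κ) (m := m) {t | t + (d : ℤ) ∈ ({((k + 1 : ℕ) : ℤ) * d} : Set ℤ)}) :
    x ∈ TD (κ := κ) (m := m) {(k : ℤ) * d} := by
  refine TD_mono ?_ hx
  intro t ht
  rw [Set.mem_ofPred_eq, Set.mem_singleton_iff] at ht
  rw [Set.mem_singleton_iff]
  push_cast at ht
  linarith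

/-- multiplication by `dF` of a regular form -/
private theorem kc_step (hF : F.IsHomogeneous d) {k q : ℕ} {I : Set (Fin m)} {x : Fo κ m}
    (hx : x ∈ Reg (κ := κ) I ⊓ FD q ⊓ TD {(k : ℤ) * d}) :
    dd (pf F) * x ∈ KK F (((k + 1 : ℕ) : ℤ) * d) (q + 1) I := by
  obtain ⟨⟨h1, h2⟩, h3⟩ := hx
  rw [kc_mem]
  exact ⟨kc_mk (ddpf_mul_Reg F h1) (ddpf_mul_FD F h2) (kc_td (ddpf_mul_TD hF h3)),
    one_mul_self (ddpf_mem F) x⟩

/-- the homotopy on cochains -/
private noncomputable def kcY (hF : F.IsHomogeneous d) (hs : Smooth F) {l : ℕ} :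
    ((Fin (l + 1) → Fin m) → Fo κ m) →ₗ[κ] ((Fin (l + 1) → Fin m) → Fo κ m) where
  toFun w s := kk hF hs (s 0) (w s)
  map_add' w w' := by funext s; simp
  map_smul' a w := by funext s; simp

/-- the linear version of `del` -/
private noncomputable def kcD {l : ℕ} :
    ((Fin l → Fin m) → Fo κ m) →ₗ[κ] ((Fin (l + 1) → Fin m) → Fo κ m) where
  toFun w := del w
  map_add' w w' := del_add w w'
  map_smul' a w := by
    funext s
    unfold del
    simp only [Pi.smul_apply, RingHom.id_apply, Finset.smul_sum]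
    exact Finset.sum_congr rfl fun k _ => smul_comm _ _ _

private theorem kcY_mem (hF : F.IsHomogeneous d) (hs : Smooth F) {l k q : ℕ}
    {w : (Fin (l + 1) → Fin m) → Fo κ m}
    (hw : ∀ s, w s ∈ KK F (((k + 1 : ℕ) : ℤ) * d) (q + 1) (Set.range s))
    (s : Fin (l + 1) → Fin m) :
    kcY hF hs w s ∈ Reg (κ := κ) (Set.range s) ⊓ FD q ⊓ TD {(k : ℤ) * d} ∧
      dd (pf F) * kcY hF hs w s = w s := by
  have h := hw s
  rw [kc_mem] at h
  obtain ⟨⟨⟨h1, h2⟩, h3⟩, h4⟩ := h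
  have hk := kk_add hF hs (s 0) (w s)
  rw [h4, map_zero, zero_add] at hk
  exact ⟨kc_mk (kk_Reg hF hs (Set.mem_range_self 0) h1) (kk_FD hF hs (s 0) h2)
    (kc_td' (kk_TD hF hs (s 0) h3)), hk⟩

/-- cochains of regular forms -/
private noncomputable def kcB (d k q : ℕ) (I : Set (Fin m)) : AddSubgroup (Fo κ m) :=
  (Reg (κ := κ) I ⊓ FD (m := m) q ⊓ TD {(k : ℤ) * d}).toAddSubgroup

private theorem kcB_mono (d k q : ℕ) (I J : Set (Fin m)) (h : I ⊆ J) :
    kcB (κ := κ) d k q I ≤ kcB d k q J := by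
  rintro x ⟨⟨h1, h2⟩, h3⟩
  exact kc_mk (Reg_mono h h1) h2 h3

private theorem kc_del_mul {l : ℕ} (a : (Fin l → Fin m) → Fo κ m) (s : Fin (l + 1) → Fin m) :
    dd (pf F) * del a s = del (fun s => dd (pf F) * a s) s := by
  have h := del_map (AddMonoidHom.mulLeft (dd (pf F))) a
  exact (congrFun h s).symm

private theorem kcW (hF : F.IsHomogeneous d) (hs : Smooth F) {l k q : ℕ}
    {w : (Fin (l + 1) → Fin m) → Fo κ m}
    (hw : ∀ s, w s ∈ KK F (((k + 1 : ℕ) : ℤ) * d) (q + 1) (Set.range s)) (hdw : del w = 0) :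
    Coch (fun I => (KK F (k * d) q I).toAddSubgroup) (del (kcY hF hs w)) := by
  intro s
  show del (kcY hF hs w) s ∈ KK F (k * d) q (Set.range s)
  rw [kc_mem]
  have h1 : Coch (kcB d k q) (kcY hF hs w) := fun s => (kcY_mem hF hs hw s).1
  refine ⟨del_Coch (kcB_mono d k q) h1 s, ?_⟩
  rw [kc_del_mul]
  have h2 : (fun s => dd (pf F) * kcY hF hs w s) = w := by
    funext s
    exact (kcY_mem hF hs hw s).2
  rw [h2, hdw]
  rfl

/-- subtraction of the homotopy -/
private theorem kc_sub (hF : F.IsHomogeneous d) (hs : Smooth F) {l k q : ℕ}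
    {a : (Fin (l + 1) → Fin m) → Fo κ m} (ha : Coch (kcB d k q) a)
    {w : (Fin (l + 1) → Fin m) → Fo κ m}
    (hw : ∀ s, w s ∈ KK F (((k + 1 : ℕ) : ℤ) * d) (q + 1) (Set.range s))
    (hE : ∀ s, dd (pf F) * a s = w s) :
    Coch (fun I => (KK F (k * d) q I).toAddSubgroup) (a - kcY hF hs w) := by
  intro s
  show (a - kcY hF hs w) s ∈ KK F (k * d) q (Set.range s)
  rw [kc_mem, Pi.sub_apply]
  obtain ⟨h1, h2⟩ := kcY_mem hF hs hw s
  refine ⟨Submodule.sub_mem _ (ha s) h1, ?_⟩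
  rw [mul_sub, h2, hE, sub_self]

/-- subtraction of the homotopy, general version -/
private theorem kc_sub2 (hF : F.IsHomogeneous d) (hs : Smooth F) {l k q : ℕ}
    {a : (Fin (l + 2) → Fin m) → Fo κ m} (ha : Coch (kcB d k q) a)
    {w : (Fin (l + 2) → Fin m) → Fo κ m}
    (hw : ∀ s, w s ∈ KK F (((k + 1 : ℕ) : ℤ) * d) (q + 1) (Set.range s))
    {b : (Fin (l + 1) → Fin m) → Fo κ m}
    (hb : ∀ s, b s ∈ KK F (((k + 1 : ℕ) : ℤ) * d) (q + 1) (Set.range s))
    (hE : ∀ s, dd (pf F) * a s = w s + del b s) :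
    Coch (fun I => (KK F (k * d) q I).toAddSubgroup) (a - kcY hF hs w - del (kcY hF hs b)) := by
  intro s
  show (a - kcY hF hs w - del (kcY hF hs b)) s ∈ KK F (k * d) q (Set.range s)
  rw [kc_mem, Pi.sub_apply, Pi.sub_apply]
  obtain ⟨h1, h2⟩ := kcY_mem hF hs hw s
  have h3 : Coch (kcB d k q) (kcY hF hs b) := fun s => (kcY_mem hF hs hb s).1
  have h4 : del (kcY hF hs b) s ∈ kcB (κ := κ) d k q (Set.range s) := del_Coch (kcB_mono d k q) h3 s
  refine ⟨Submodule.sub_mem _ (Submodule.sub_mem _ (ha s) h1) h4, ?_⟩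
  have h5 : (fun s => dd (pf F) * kcY hF hs b s) = b := by
    funext s
    exact (kcY_mem hF hs hb s).2
  rw [mul_sub, mul_sub, h2, hE, kc_del_mul, h5]
  abel

private theorem kc_start (hd : 1 ≤ d) {k q l : ℕ} (hk : 1 ≤ k)
    {c : (Fin (l + 1) → Fin m) → Fo κ m}
    (hc : Coch (fun I => (KK F (k * d) q I).toAddSubgroup) c) (hdc : del c = 0) :
    ∃ a : (Fin l → Fin m) → Fo κ m, Coch (kcB d k q) a ∧ del a = c ∧
      del (fun s => dd (pf F) * a s) = 0 := by
  have hP : ∀ t ∈ ({(k : ℤ) * d} : Set ℤ), 1 ≤ t := by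
    intro t ht
    rw [Set.mem_singleton_iff] at ht
    rw [ht]
    have h1 : (1 : ℤ) ≤ k := by exact_mod_cast hk
    have h2 : (1 : ℤ) ≤ d := by exact_mod_cast hd
    nlinarith
  have hc' : Coch (fun I => (Reg (κ := κ) I ⊓ FD (m := m) q ⊓ TD {(k : ℤ) * d}).toAddSubgroup) c := by
    intro s
    have h := hc s
    have h' : c s ∈ KK F (k * d) q (Set.range s) := h
    rw [kc_mem] at h'
    exact h'.1
  obtain ⟨a, ha, hda⟩ := exact_pos {(k : ℤ) * d} hP q l c hc' hdc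
  refine ⟨a, ha, hda, ?_⟩
  funext s
  rw [← kc_del_mul, hda]
  have h := hc s
  have h' : c s ∈ KK F (k * d) q (Set.range s) := h
  rw [kc_mem] at h'
  exact h'.2

/-- the constant in the first step -/
private theorem kc_const (hm : 2 ≤ m) (hF : F.IsHomogeneous d) {k q : ℕ}
    {a : (Fin 1 → Fin m) → Fo κ m} (ha : Coch (kcB d k q) a)
    (hda : del (fun s => dd (pf F) * a s) = 0) :
    ∃ g : Fo κ m, (∀ s, dd (pf F) * a s = g) ∧
      g ∈ KK F (((k + 1 : ℕ) : ℤ) * d) (q + 1) ∅ := by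
  have : Nonempty (Fin m) := ⟨⟨0, by omega⟩⟩
  obtain ⟨g, hg⟩ := const_of_del hda
  have hgi : ∀ i : Fin m, g ∈ KK F (((k + 1 : ℕ) : ℤ) * d) (q + 1) {i} := by
    intro i
    have h1 := kc_step hF (ha fun _ => i)
    have h2 : Set.range (fun _ : Fin 1 => i) = {i} := Set.range_const
    rw [h2] at h1
    rw [← hg fun _ => i]
    exact h1
  refine ⟨g, hg, ?_⟩
  have h0 := hgi ⟨0, by omega⟩
  rw [kc_mem] at h0 ⊢
  obtain ⟨⟨⟨_, h2⟩, h3⟩, h4⟩ := h0
  refine ⟨kc_mk (reg_inter hm fun i => ?_) h2 h3, h4⟩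
  have h := hgi i
  rw [kc_mem] at h
  exact h.1.1.1

private theorem kc_exact (hm : 2 ≤ m) (hd : 1 ≤ d) (hF : F.IsHomogeneous d) (hs : Smooth F) (l : ℕ) :
    ∀ k q : ℕ, 1 ≤ k → l + 1 + q ≠ m →
      ExactAt (fun I => (KK F (k * d) q I).toAddSubgroup) (l + 1) := by
  induction l with
  | zero =>
    intro k q hk h c hc hdc
    obtain ⟨a, ha, hda, hda2⟩ := kc_start hd hk hc hdc
    obtain ⟨g, hg, hgK⟩ := kc_const hm hF ha hda2
    rw [kc_mem] at hgK
    rcases Nat.lt_or_ge (q + 1) m with hq | hq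
    · obtain ⟨g', ⟨⟨hg1, hg2⟩, hg3⟩, hg4⟩ := kos_global hF hs hq hgK.1 hgK.2
      refine ⟨a - fun _ => g', ?_, ?_⟩
      · intro s
        show a s - g' ∈ KK F (k * d) q (Set.range s)
        rw [kc_mem]
        refine ⟨Submodule.sub_mem _ (ha s) (kc_mk (Reg_mono (Set.empty_subset _) hg1) hg2 ?_), ?_⟩
        · have e : (((k + 1 : ℕ) : ℤ) * d - d) = (k : ℤ) * d := by push_cast; ring
          rw [e] at hg3
          exact hg3
        · rw [mul_sub, hg, hg4, sub_self]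
      · rw [del_sub, hda, del_const, sub_zero]
    · have hg0 : g = 0 := FD_top (by omega) hgK.1.1.2
      refine ⟨a, ?_, hda⟩
      intro s
      show a s ∈ KK F (k * d) q (Set.range s)
      rw [kc_mem]
      exact ⟨ha s, by rw [hg, hg0]⟩
  | succ l ih =>
    intro k q hk h c hc hdc
    obtain ⟨a, ha, hda, hda2⟩ := kc_start hd hk hc hdc
    obtain ⟨b, hb, hdb⟩ := ih (k + 1) (q + 1) (by omega) (by omega) (fun s => dd (pf F) * a s)
      (fun s => kc_step hF (ha s)) hda2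
    have hw0 : ∀ s : Fin (l + 2) → Fin m, (0 : (Fin (l + 2) → Fin m) → Fo κ m) s ∈
        KK F (((k + 1 : ℕ) : ℤ) * d) (q + 1) (Set.range s) := fun s => Submodule.zero_mem _
    have hsub := kc_sub2 hF hs ha hw0 hb (fun s => by
      rw [hdb, Pi.zero_apply, zero_add])
    rw [map_zero, sub_zero] at hsub
    refine ⟨_, hsub, ?_⟩
    rw [del_sub, hda, del_del, sub_zero]

private theorem kc_fin (hm : 2 ≤ m) (hd : 1 ≤ d) (hF : F.IsHomogeneous d) (hs : Smooth F) (l : ℕ) :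
    ∀ k q : ℕ, 1 ≤ k → l + 1 + q = m →
    ∃ W : Submodule κ ((Fin (l + 1 + 1) → Fin m) → Fo κ m), FiniteDimensional κ W ∧
      (∀ w ∈ W, Coch (fun I => (KK F (k * d) q I).toAddSubgroup) w ∧ del w = 0) ∧
      ∀ c : (Fin (l + 1 + 1) → Fin m) → Fo κ m, Coch (fun I => (KK F (k * d) q I).toAddSubgroup) c →
        del c = 0 → ∃ w ∈ W, ∃ b : (Fin (l + 1) → Fin m) → Fo κ m,
          Coch (fun I => (KK F (k * d) q I).toAddSubgroup) b ∧ c = w + del b := by
  induction l with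
  | zero =>
    intro k q hk h
    let V : Submodule κ (Fo κ m) := Reg (κ := κ) (∅ : Set (Fin m)) ⊓ FD (q + 1) ⊓
      TD {((k + 1 : ℕ) : ℤ) * d}
    let cst : Fo κ m →ₗ[κ] ((Fin 1 → Fin m) → Fo κ m) := LinearMap.pi fun _ => LinearMap.id
    let L : Fo κ m →ₗ[κ] ((Fin 2 → Fin m) → Fo κ m) := kcD ∘ₗ kcY hF hs ∘ₗ cst
    have hcst : ∀ (g : Fo κ m), cst g = fun _ => g := by
      intro g
      funext s
      rfl
    have hV : ∀ g ∈ V, g ∈ KK F (((k + 1 : ℕ) : ℤ) * d) (q + 1) ∅ := by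
      intro g hg
      rw [kc_mem]
      refine ⟨hg, ?_⟩
      exact FD_top (q := q + 1 + 1) (by omega) (ddpf_mul_FD F hg.1.2)
    have hVs : ∀ g ∈ V, ∀ s : Fin 1 → Fin m, cst g s ∈
        KK F (((k + 1 : ℕ) : ℤ) * d) (q + 1) (Set.range s) := by
      intro g hg s
      rw [hcst]
      exact KK_mono (Set.empty_subset _) (hV g hg)
    have hfV : FiniteDimensional κ V := fin_empty (κ := κ) (m := m) (q + 1) (((k + 1 : ℕ) : ℤ) * d)
    refine ⟨V.map L, inferInstance, ?_, ?_⟩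
    · rintro w ⟨g, hg, rfl⟩
      have h1 : L g = del (kcY hF hs (cst g)) := rfl
      rw [h1]
      refine ⟨kcW hF hs (hVs g hg) ?_, del_del _⟩
      rw [hcst]
      exact del_const g
    · intro c hc hdc
      obtain ⟨a, ha, hda, hda2⟩ := kc_start hd hk hc hdc
      obtain ⟨g, hg, hgK⟩ := kc_const hm hF ha hda2
      rw [kc_mem] at hgK
      have hgV : g ∈ V := hgK.1
      refine ⟨L g, ⟨g, hgV, rfl⟩, a - kcY hF hs (cst g), ?_, ?_⟩
      · exact kc_sub hF hs ha (hVs g hgV) (fun s => by rw [hcst]; exact hg s)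
      · have h1 : L g = del (kcY hF hs (cst g)) := rfl
        rw [h1, del_sub, hda]
        abel
  | succ l ih =>
    intro k q hk h
    obtain ⟨W', hfin, hW', hc'⟩ := ih (k + 1) (q + 1) (by omega) (by omega)
    let L : ((Fin (l + 2) → Fin m) → Fo κ m) →ₗ[κ] ((Fin (l + 3) → Fin m) → Fo κ m) :=
      kcD ∘ₗ kcY hF hs
    refine ⟨W'.map L, inferInstance, ?_, ?_⟩
    · rintro w ⟨w', hw', rfl⟩
      have h1 : L w' = del (kcY hF hs w') := rfl
      rw [h1]
      obtain ⟨h2, h3⟩ := hW' w' hw'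
      exact ⟨kcW hF hs (fun s => h2 s) h3, del_del _⟩
    · intro c hc hdc
      obtain ⟨a, ha, hda, hda2⟩ := kc_start hd hk hc hdc
      obtain ⟨w', hw', b, hb, hE⟩ := hc' (fun s => dd (pf F) * a s) (fun s => kc_step hF (ha s)) hda2
      obtain ⟨h2, h3⟩ := hW' w' hw'
      refine ⟨L w', ⟨w', hw', rfl⟩, a - kcY hF hs w' - del (kcY hF hs b), ?_, ?_⟩
      · exact kc_sub2 hF hs ha (fun s => h2 s) (fun s => hb s) (fun s => congrFun hE s)
      · have h1 : L w' = del (kcY hF hs w') := rfl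
        rw [h1, del_sub, del_sub, hda, del_del]
        abel

end aux

section

variable {d : ℕ} {F : MvPolynomial (Fin m) κ} (hm : 2 ≤ m) (hd : 1 ≤ d) (hF : F.IsHomogeneous d)
  (hs : Smooth F)

include hm hd hF hs

theorem KK_exact {k q l : ℕ} (hk : 1 ≤ k) (hl : 1 ≤ l) (h : l + q ≠ m) :
    ExactAt (fun I => (KK F (k * d) q I).toAddSubgroup) l := by
  obtain ⟨l', rfl⟩ := Nat.exists_eq_add_of_le' hl
  exact kc_exact hm hd hF hs l' k q hk h

theorem KK_fin {k q l : ℕ} (hk : 1 ≤ k) (hl : 1 ≤ l) (h : l + q = m) :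
    ∃ W : Submodule κ ((Fin (l + 1) → Fin m) → Fo κ m), FiniteDimensional κ W ∧
      (∀ w ∈ W, Coch (fun I => (KK F (k * d) q I).toAddSubgroup) w ∧ del w = 0) ∧
      ∀ c : (Fin (l + 1) → Fin m) → Fo κ m, Coch (fun I => (KK F (k * d) q I).toAddSubgroup) c →
        del c = 0 → ∃ w ∈ W, ∃ b : (Fin l → Fin m) → Fo κ m,
          Coch (fun I => (KK F (k * d) q I).toAddSubgroup) b ∧ c = w + del b := by
  obtain ⟨l', rfl⟩ := Nat.exists_eq_add_of_le' hl
  exact kc_fin hm hd hF hs l' k q hk h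

theorem KK_empty {q : ℕ} (hq : 2 ≤ q) (hq' : q < m) {x : Fo κ m} (hx : x ∈ KK F d q ∅) :
    x = 0 := by
  obtain ⟨q', rfl⟩ := Nat.exists_eq_add_of_le' (show 1 ≤ q by omega)
  rw [kc_mem] at hx
  obtain ⟨y, ⟨⟨h1, h2⟩, h3⟩, h4⟩ := kos_global hF hs hq' hx.1 hx.2
  rw [sub_self] at h3
  have h5 : y = 0 := Reg_empty_tot (q := q') (t := 0) (by omega) h1 h2 h3
  rw [← h4, h5, mul_zero]

theorem KK_empty_one {x : Fo κ m} (hx : x ∈ KK F d 1 ∅) (hm' : 2 < m) :
    ∃ a : κ, x = a • dd (pf F) := by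
  rw [kc_mem] at hx
  obtain ⟨y, ⟨⟨h1, h2⟩, h3⟩, h4⟩ := kos_global (q := 0) hF hs (by omega) hx.1 hx.2
  rw [sub_self] at h3
  obtain ⟨a, ha⟩ := mem_zero_iff.1 (h2 0)
  refine ⟨a, ?_⟩
  have hy : y = a • (1 : Fo κ m) := by
    refine fo_ext fun e => ?_
    rw [← mo_zero]
    unfold mo
    rw [AddMonoidAlgebra.smul_single, AddMonoidAlgebra.coeff_single]
    by_cases he : e = 0
    · subst he
      rw [Finsupp.single_eq_same, ha, Algebra.algebraMap_eq_smul_one]
    · rw [Finsupp.single_eq_of_ne he]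
      by_contra hne
      apply he
      have h0 : ∀ i, 0 ≤ e i := by
        intro i
        by_contra h'
        exact hne ((h1 e i (Set.notMem_empty _)).1 (not_le.1 h'))
      have ht : tot e = 0 := by
        by_contra h'
        exact hne (h3 e (by simpa using h'))
      unfold tot at ht
      funext i
      exact (Finset.sum_eq_zero_iff_of_nonneg fun j _ => h0 j).1 ht i (Finset.mem_univ i)
  rw [← h4, hy, mul_smul_comm, mul_one]

end

end MPadcBK
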