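import Pool.Agent.Lib.MP_adc574_ag_BK.RelM
import Pool.Agent.Lib.MP_adc574_ag_HM.LocE

/-!
# The nonvanishing property of the determinants of flat functionals (definition)
-/

set_option autoImplicit false

namespace MPadcBK

open MvPolynomial MPadcGM MPadcHM

universe u

/-- The nonvanishing property: for flat functionals `C v` (up to a matrix `ν`), independent over `L`, and
monomials `x ^ (g u)` which are independent in the cohomology the determinant is not 0. -/
def Key (κ : Type u) [Field κ] {m : ℕ} (d : ℕ) (F : MvPolynomial (Fin m) (RatFunc κ)) : Prop :=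
  ∀ (L : Type u) [Field L] [Algebra (RatFunc κ) L] (DL : Derivation ℤ L L),
    (∀ x, DL (algebraMap (RatFunc κ) L x) = algebraMap (RatFunc κ) L (DK κ x)) →
    (∀ x : L, IsAlgebraic (RatFunc κ) x → x ∈ (algebraMap (RatFunc κ) L).range) →
    ∀ (V : Type) [Fintype V] [DecidableEq V] (C : V → ℕ → MvPolynomial (Fin m) L →ₗ[L] L),
    (∀ v k, 1 ≤ k → ∀ j Q, C v (k + 1) (Q * pderiv j (F.map (algebraMap (RatFunc κ) L))) =
      C v k (pderiv j Q)) →
    ∀ ν : Matrix V V L,
    (∀ (v : V) (k : ℕ), 1 ≤ k → ∀ e : Fin m →₀ ℕ, tdg e = k * d →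
      DL (C v k (monomial e 1)) =
        -C v (k + 1) ((cder (DZ κ) F).map (algebraMap (RatFunc κ) L) *
          monomial e 1) + ∑ v', ν v v' * C v' k (monomial e 1)) →
    (∀ lam : V → L, (∀ (k : ℕ), 1 ≤ k → ∀ e : Fin m →₀ ℕ, tdg e = k * d →
      ∑ v, lam v * C v k (monomial e 1) = 0) → lam = 0) →
    ∀ (g : V → Fin m →₀ ℕ) (lv : V → ℕ), (∀ v, 1 ≤ lv v) → (∀ v, tdg (g v) = lv v * d) →
    IndepM F g → (Matrix.of fun v u : V => C v (lv u) (monomial (g u) 1)).det ≠ 0

end MPadcBK
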