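import Pool.Agent.Lib.MP_adc574_ag_HM.KeyE

/-!
# JOB KeyG: the key lemma for stable families

The same as `MPadcHM.key` (HM/KeyE.lean; copy its private lemma and reuse the main part of its proof), but the rows `c v` only span a stable space:
`DL (c v j) = ∑ i, c v i Γ i j + ∑ v', ν v v' c v' j`.

* `dform_deriv_gen`: `DL (dform c J) = act Γ (dform c) J + trace ν * dform c J`: Leibniz column by column as in `dform_deriv`; the second part: for the matrix `m v u = c v (J u)`:
  `∑ u, det (m with column u replaced by (ν m) column u) = trace ν * det m` (`Matrix.det` derivative identity: `∑ u, det (updateCol m u (ν *ᵥ (column u))) = ∑ u ∑ v, (adjugate m) u v (ν m) v u = trace (adjugate m * ν * m) = trace ν * det m`,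
  `Matrix.trace_mul_comm`, `Matrix.mul_adjugate`, `Matrix.cramer`).
* `theta_nab_gen`: as `theta_nab` with `DL (r J) = act Γ r J + τ r J`: for `θ : L → K` linear put `θ' x = DK' (θ x) - θ (DL x) + θ (τ x)`, again `K`-linear, and `nabT DK' 1 Γ (θ ∘ r) = θ' ∘ r`.
* `exch`: if `det (c_v . f_u) = 0` for some independent `f` then there is an independent `f'` (`g` vectors) such that the matrix `m = (c_v . f'_u)` has rank exactly `g - 1`. Among all independent families `f` with determinant 0 choose one with maximal rank `r < g` of the matrix. Suppose `r < g - 1`.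
  The columns `c(e_j)` (`e_j` the standard basis of `K^ι`) span `L^g` (rows `c v` independent), so some `c(e_j)` is not in the column space of `m`. The columns of `m` are dependent, so some column `u` is a combination of the others. Replace `f u` by `e_j`: the column space is the old one plus `c(e_j)`, rank `r + 1 ≤ g - 1 < g`,
  so the determinant is still 0; the new family is independent over `K` (otherwise `e_j` is a `K`-combination of the `f w`, `w ≠ u`, and `c(e_j)` would be in the column space). Contradiction to maximality.
* Main proof: suppose the determinant is 0 and take `f` from `exch`: `m` has rank `g - 1`, so `m.adjugate ≠ 0` (rank `g - 1` means some minor of size `g - 1` is nonzero; e.g. `m.adjugate = 0` implies rank `≤ g - 2`), say `m.adjugate u0 v0 ≠ 0`, and the kernel of `m` is one-dimensional.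
  The column `y = m.adjugate · v0` satisfies `m y = det m = 0`, `y u0 ≠ 0`: this is all that the rest of the proof of `MPadcHM.key` uses (there `hadj` was used only for `adjugate u0 v ≠ 0` for one `v`). So no need for the kernel to be one-dimensional.
  Then `theta_nab_gen`, `hLJ`, `tensor_act`, `det_split` as in `key`.
-/

set_option autoImplicit false

namespace MPadcBK

open MPadcLP MPadcHM
open scoped TensorProduct

private theorem keyg_ten {K L E : Type*} [Field K] [Field L] [Field E] [Algebra K L]
    [Algebra K E] {ι : Type} [Fintype ι] (l : ι → E) (hl : LinearIndependent K l) (z : ι → L)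
    (h : ∑ i, z i ⊗ₜ[K] l i = 0) : ∀ i, z i = 0 := by
  intro i
  refine (Module.forall_dual_apply_eq_zero_iff K (z i)).1 fun θ => ?_
  have h1 : ∑ i, θ (z i) • l i = 0 := by
    have h2 : (TensorProduct.lid K E) (LinearMap.rTensor E θ (∑ i, z i ⊗ₜ[K] l i)) = 0 := by
      rw [h, map_zero, map_zero]
    rw [map_sum, map_sum] at h2
    rw [← h2]
    refine Finset.sum_congr rfl fun i _ => ?_
    rw [LinearMap.rTensor_tmul, TensorProduct.lid_tmul]
  exact Fintype.linearIndependent_iff.1 hl _ h1 i

section Deriv

variable {γ ι : Type} [Fintype γ] [DecidableEq γ] [Fintype ι] [DecidableEq ι]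

private theorem keyg_leibniz {L : Type*} [CommRing L] (D : Der L) (s : Finset γ) (f : γ → L) :
    D (∏ j ∈ s, f j) = ∑ j ∈ s, D (f j) * ∏ k ∈ s.erase j, f k := by
  induction s using Finset.induction_on with
  | empty => rw [Finset.prod_empty, Finset.sum_empty, Derivation.map_one_eq_zero]
  | insert a s ha ih =>
    rw [Finset.prod_insert ha, Derivation.leibniz, ih, Finset.sum_insert ha,
      Finset.erase_insert ha, smul_eq_mul, smul_eq_mul, Finset.mul_sum, add_comm,
      mul_comm (∏ j ∈ s, f j)]
    congr 1
    refine Finset.sum_congr rfl fun j hj => ?_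
    have hja : j ≠ a := fun h => ha (h ▸ hj)
    rw [Finset.erase_insert_of_ne hja.symm, Finset.prod_insert
      (fun h => ha (Finset.mem_of_mem_erase h))]
    ring

/-- derivative of a determinant, column by column -/
private theorem keyg_jacobi {L : Type*} [CommRing L] (D : Der L) (m : Matrix γ γ L) :
    D m.det = ∑ u, (m.updateCol u fun v => D (m v u)).det := by
  rw [Matrix.det_apply', map_sum]
  have h0 : ∀ p : Equiv.Perm γ, D ((((Equiv.Perm.sign p : ℤˣ) : ℤ) : L) * ∏ u, m (p u) u) =
      ∑ u, (((Equiv.Perm.sign p : ℤˣ) : ℤ) : L) *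
        (D (m (p u) u) * ∏ k ∈ Finset.univ.erase u, m (p k) k) := by
    intro p
    rw [Derivation.leibniz, keyg_leibniz, Derivation.map_intCast, smul_zero, add_zero, smul_eq_mul,
      Finset.mul_sum]
  rw [Finset.sum_congr rfl fun p _ => h0 p, Finset.sum_comm]
  refine Finset.sum_congr rfl fun u _ => ?_
  rw [Matrix.det_apply']
  refine Finset.sum_congr rfl fun p _ => ?_
  have h2 : ∏ k, (m.updateCol u fun v => D (m v u)) (p k) k =
      D (m (p u) u) * ∏ k ∈ Finset.univ.erase u, m (p k) k := by
    rw [← Finset.mul_prod_erase Finset.univ _ (Finset.mem_univ u), Matrix.updateCol_self]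
    congr 1
    refine Finset.prod_congr rfl fun k hk => ?_
    rw [Matrix.updateCol_ne (Finset.ne_of_mem_erase hk)]
  rw [h2]

private theorem keyg_trace {L : Type*} [CommRing L] (m ν : Matrix γ γ L) :
    ∑ u, (m.updateCol u fun v => ∑ v', ν v v' * m v' u).det = ν.trace * m.det := by
  have h1 : ∀ u, (m.updateCol u fun v => ∑ v', ν v v' * m v' u).det = (m.adjugate * (ν * m)) u u := by
    intro u
    rw [← Matrix.cramer_apply, Matrix.cramer_eq_adjugate_mulVec]
    rfl
  rw [Finset.sum_congr rfl fun u _ => h1 u]
  have h2 : ∑ u, (m.adjugate * (ν * m)) u u = (m.adjugate * (ν * m)).trace := rfl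
  rw [h2, Matrix.trace_mul_comm, Matrix.mul_assoc, Matrix.mul_adjugate, Matrix.mul_smul,
    Matrix.mul_one, Matrix.trace_smul, smul_eq_mul, mul_comm]

private theorem keyg_deriv {L : Type*} [CommRing L] (D : Der L) (Γ : Matrix ι ι L) (c : γ → ι → L)
    (ν : Matrix γ γ L)
    (hc : ∀ v j, D (c v j) = ∑ i, c v i * Γ i j + ∑ v', ν v v' * c v' j) (J : γ → ι) :
    D (dform c J) = act Γ (dform c) J + ν.trace * dform c J := by
  have h1 : D (dform c J) = ∑ u, ((Matrix.of fun v u => c v (J u)).updateCol u
      fun v => D (c v (J u))).det := keyg_jacobi D _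
  rw [h1]
  have h2 : ∀ u, ((Matrix.of fun v u => c v (J u)).updateCol u fun v => D (c v (J u))).det =
      (∑ i, dform c (Function.update J u i) * Γ i (J u)) +
      ((Matrix.of fun v u => c v (J u)).updateCol u fun v => ∑ v', ν v v' *
        (Matrix.of fun v u => c v (J u)) v' u).det := by
    intro u
    have h3 : (fun v => D (c v (J u))) = (fun v => ∑ i, c v i * Γ i (J u)) +
        fun v => ∑ v', ν v v' * (Matrix.of fun v u => c v (J u)) v' u := by
      funext v
      exact hc v (J u)
    rw [h3, Matrix.det_updateCol_add]
    congr 1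
    have h4 : (fun v => ∑ i, c v i * Γ i (J u)) = ∑ i, Γ i (J u) • fun v => c v i := by
      funext v
      rw [Finset.sum_apply]
      refine Finset.sum_congr rfl fun i _ => ?_
      rw [Pi.smul_apply, smul_eq_mul, mul_comm]
    rw [h4, ← Matrix.cramer_apply, map_sum, Finset.sum_apply]
    refine Finset.sum_congr rfl fun i _ => ?_
    rw [map_smul, Pi.smul_apply, smul_eq_mul, mul_comm, Matrix.cramer_apply]
    congr 2
    ext v w
    rw [Matrix.updateCol_apply]
    by_cases hw : w = u
    · rw [if_pos hw, hw]
      show _ = c v (Function.update J u i u)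
      rw [Function.update_self]
    · rw [if_neg hw]
      show c v (J w) = c v (Function.update J u i w)
      rw [Function.update_of_ne hw]
  rw [Finset.sum_congr rfl fun u _ => h2 u, Finset.sum_add_distrib, keyg_trace]
  rfl

/-- the map `x ↦ DK (θ x) - θ (DL x) + θ (τ x)` -/
private def keyg_th {K L : Type*} [Field K] [Field L] [Algebra K L] (DK' : Der K) (DL : Der L)
    (hD : ∀ x, DL (algebraMap K L x) = algebraMap K L (DK' x)) (τ : L) (θ : L →ₗ[K] K) :
    L →ₗ[K] K where
  toFun x := DK' (θ x) - θ (DL x) + θ (τ * x)
  map_add' x y := by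
    rw [map_add, map_add, map_add, map_add, mul_add, map_add]
    ring
  map_smul' a x := by
    have h1 : DL (a • x) = a • DL x + (DK' a) • x := by
      rw [Algebra.smul_def, Derivation.leibniz, hD, smul_eq_mul, smul_eq_mul, Algebra.smul_def, Algebra.smul_def]
      ring
    have h2 : θ (a • x) = a * θ x := by rw [map_smul, smul_eq_mul]
    have h3 : θ (a • DL x + (DK' a) • x) = a * θ (DL x) + DK' a * θ x := by
      rw [map_add, map_smul, map_smul, smul_eq_mul, smul_eq_mul]
    have h4 : DK' (a * θ x) = a * DK' (θ x) + θ x * DK' a := by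
      rw [Derivation.leibniz, smul_eq_mul, smul_eq_mul]
    have h5 : θ (τ * a • x) = a * θ (τ * x) := by
      rw [mul_smul_comm, map_smul, smul_eq_mul]
    rw [h1, h2, h3, h4, h5, RingHom.id_apply, smul_eq_mul]
    ring

private theorem keyg_nab {K L : Type*} [Field K] [Field L] [Algebra K L] (DK' : Der K) (DL : Der L)
    (hD : ∀ x, DL (algebraMap K L x) = algebraMap K L (DK' x)) (Γ : Matrix ι ι K) (τ : L)
    (r : (γ → ι) → L) (hr : ∀ J, DL (r J) = act (Γ.map (algebraMap K L)) r J + τ * r J)
    (μ : (γ → ι) → K) (hμ : ∑ J, algebraMap K L (μ J) * r J = 0) (θ : L →ₗ[K] K) (k : ℕ) :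
    μ ⬝ᵥ ((nabT DK' 1 Γ)^[k] fun J => θ (r J)) = 0 := by
  induction k generalizing θ with
  | zero =>
    show ∑ J, μ J * θ (r J) = 0
    have h1 : ∑ J, μ J * θ (r J) = θ (∑ J, algebraMap K L (μ J) * r J) := by
      rw [map_sum]
      refine Finset.sum_congr rfl fun J _ => ?_
      rw [← Algebra.smul_def, map_smul, smul_eq_mul]
    rw [h1, hμ, map_zero]
  | succ k ih =>
    rw [Function.iterate_succ_apply]
    have h : nabT DK' 1 Γ (fun J => θ (r J)) = fun J => (keyg_th DK' DL hD τ θ) (r J) := by
      funext σ
      show 1 * DK' (θ (r σ)) - act Γ (fun J => θ (r J)) σ =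
        DK' (θ (r σ)) - θ (DL (r σ)) + θ (τ * r σ)
      have h5 : act Γ (fun J => θ (r J)) σ = θ (act (Γ.map (algebraMap K L)) r σ) := by
        unfold act
        rw [map_sum]
        refine Finset.sum_congr rfl fun j _ => ?_
        rw [map_sum]
        refine Finset.sum_congr rfl fun i _ => ?_
        rw [Matrix.map_apply, mul_comm (r _), ← Algebra.smul_def, map_smul, smul_eq_mul, mul_comm]
      rw [one_mul, hr, h5, map_add]
      ring
    rw [h]
    exact ih _

end Deriv

/-- the columns of the matrix of pairings -/
private def keyg_col {K L : Type*} [Field K] [Field L] [Algebra K L] {ι : Type} [Fintype ι] {g : ℕ}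
    (c : Fin g → ι → L) (f : Fin g → ι → K) (u : Fin g) : Fin g → L :=
  fun v => ∑ i, c v i * algebraMap K L (f u i)

private theorem keyg_exch {K L : Type*} [Field K] [Field L] [Algebra K L] {ι : Type} [Fintype ι]
    [DecidableEq ι] (g : ℕ) (c : Fin g → ι → L) (hci : LinearIndependent L c) (N : ℕ) :
    ∀ f : Fin g → ι → K, LinearIndependent K f →
      (Matrix.of fun v u : Fin g => keyg_col c f u v).det = 0 →
      g ≤ Module.finrank L (Submodule.span L (Set.range (keyg_col c f))) + N →
      ∃ f' : Fin g → ι → K, LinearIndependent K f' ∧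
        (Matrix.of fun v u : Fin g => keyg_col c f' u v).det = 0 ∧
        ∃ u v, (Matrix.of fun v u : Fin g => keyg_col c f' u v).adjugate u v ≠ 0 := by
  induction N with
  | zero =>
    intro f hf hdet hr
    exfalso
    rw [add_zero] at hr
    -- the columns span everything
    obtain ⟨w, hw0, hw⟩ := Matrix.exists_vecMul_eq_zero_iff.2 hdet
    have h1 : Submodule.span L (Set.range (keyg_col c f)) = ⊤ := by
      apply Submodule.eq_top_of_finrank_eq
      apply le_antisymm (Submodule.finrank_le _)
      rwa [Module.finrank_fin_fun]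
    have h2 : Submodule.span L (Set.range (keyg_col c f)) ≤
        LinearMap.ker (Fintype.linearCombination L w) := by
      rw [Submodule.span_le]
      rintro _ ⟨u, rfl⟩
      rw [SetLike.mem_coe, LinearMap.mem_ker, Fintype.linearCombination_apply]
      have h3 := congrFun hw u
      have h4 : (Matrix.vecMul w (Matrix.of fun v u : Fin g => keyg_col c f u v)) u =
          ∑ v, w v * keyg_col c f u v := rfl
      rw [h4, Pi.zero_apply] at h3
      rw [← h3]
      refine Finset.sum_congr rfl fun v _ => ?_
      rw [smul_eq_mul, mul_comm]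
    apply hw0
    funext v
    have h5 : (Pi.single v 1 : Fin g → L) ∈ LinearMap.ker (Fintype.linearCombination L w) := by
      apply h2
      rw [h1]
      exact Submodule.mem_top
    rw [LinearMap.mem_ker, Fintype.linearCombination_apply] at h5
    rw [Finset.sum_eq_single v] at h5
    · rw [Pi.single_eq_same, one_smul] at h5
      exact h5
    · intro b _ hb
      rw [Pi.single_eq_of_ne hb, zero_smul]
    · intro h
      exact absurd (Finset.mem_univ v) h
  | succ N ih =>
    intro f hf hdet hr
    by_cases hadj : ∃ u v, (Matrix.of fun v u : Fin g => keyg_col c f u v).adjugate u v ≠ 0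
    · exact ⟨f, hf, hdet, hadj⟩
    push Not at hadj
    obtain ⟨w, hw0, hw⟩ := Matrix.exists_vecMul_eq_zero_iff.2 hdet
    obtain ⟨y, hy0, hy⟩ := Matrix.exists_mulVec_eq_zero_iff.2 hdet
    obtain ⟨u, hu⟩ : ∃ u, y u ≠ 0 := Function.ne_iff.1 hy0
    have hwc : ∀ u, ∑ v, w v * keyg_col c f u v = 0 := fun u => congrFun hw u
    -- a coordinate vector
    obtain ⟨j, hj⟩ : ∃ j, ∑ v, w v * c v j ≠ 0 := by
      by_contra hcon
      push Not at hcon
      apply hw0
      funext v
      refine Fintype.linearIndependent_iff.1 hci w ?_ v
      funext j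
      rw [Finset.sum_apply, Pi.zero_apply, ← hcon j]
      rfl
    have hcol : keyg_col c (Function.update f u (Pi.single j 1)) =
        Function.update (keyg_col c f) u (fun v => c v j) := by
      funext u'
      by_cases h : u' = u
      · rw [h, Function.update_self]
        funext v
        unfold keyg_col
        rw [Function.update_self, Finset.sum_eq_single j]
        · rw [Pi.single_eq_same, map_one, mul_one]
        · intro b _ hb
          rw [Pi.single_eq_of_ne hb, map_zero, mul_zero]
        · intro h
          exact absurd (Finset.mem_univ j) h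
      · rw [Function.update_of_ne h]
        funext v
        unfold keyg_col
        rw [Function.update_of_ne h]
    have hf' : LinearIndependent K (Function.update f u (Pi.single j 1)) := by
      rw [Fintype.linearIndependent_iff]
      intro a ha
      have h1 : ∀ v, ∑ u', algebraMap K L (a u') *
          keyg_col c (Function.update f u (Pi.single j 1)) u' v = 0 := by
        intro v
        have h2 : ∑ u', algebraMap K L (a u') *
            keyg_col c (Function.update f u (Pi.single j 1)) u' v =
            ∑ i, c v i * algebraMap K L ((∑ u', a u' •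
              Function.update f u (Pi.single j 1) u') i) := by
          unfold keyg_col
          simp only [Finset.mul_sum, Finset.sum_apply, map_sum]
          rw [Finset.sum_comm]
          refine Finset.sum_congr rfl fun i _ => ?_
          refine Finset.sum_congr rfl fun u' _ => ?_
          rw [Pi.smul_apply, smul_eq_mul, map_mul]
          ring
        rw [h2, ha]
        simp
      have h3 : ∑ v, w v * ∑ u', algebraMap K L (a u') *
          keyg_col c (Function.update f u (Pi.single j 1)) u' v = 0 := by
        refine Finset.sum_eq_zero fun v _ => ?_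
        rw [h1, mul_zero]
      have h4 : ∑ v, w v * ∑ u', algebraMap K L (a u') *
          keyg_col c (Function.update f u (Pi.single j 1)) u' v =
          algebraMap K L (a u) * ∑ v, w v * c v j := by
        have h5 : ∑ v, w v * ∑ u', algebraMap K L (a u') *
            keyg_col c (Function.update f u (Pi.single j 1)) u' v =
            ∑ u', algebraMap K L (a u') * ∑ v, w v *
              keyg_col c (Function.update f u (Pi.single j 1)) u' v := by
          simp only [Finset.mul_sum]
          rw [Finset.sum_comm]
          refine Finset.sum_congr rfl fun u' _ => ?_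
          refine Finset.sum_congr rfl fun v _ => ?_
          ring
        rw [h5, Finset.sum_eq_single u]
        · rw [hcol, Function.update_self]
        · intro b _ hb
          rw [hcol, Function.update_of_ne hb, hwc, mul_zero]
        · intro h
          exact absurd (Finset.mem_univ u) h
      rw [h4] at h3
      have h6 : a u = 0 := by
        rcases mul_eq_zero.1 h3 with h | h
        · exact (map_eq_zero (algebraMap K L)).1 h
        · exact absurd h hj
      have h7 : ∑ u', a u' • f u' = 0 := by
        rw [← ha]
        refine Finset.sum_congr rfl fun u' _ => ?_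
        by_cases h : u' = u
        · rw [h, h6, zero_smul, zero_smul]
        · rw [Function.update_of_ne h]
      exact Fintype.linearIndependent_iff.1 hf a h7
    have hmat : (Matrix.of fun v u' : Fin g =>
        keyg_col c (Function.update f u (Pi.single j 1)) u' v) =
        (Matrix.of fun v u : Fin g => keyg_col c f u v).updateCol u (fun v => c v j) := by
      ext v u'
      rw [Matrix.of_apply, hcol, Matrix.updateCol_apply]
      by_cases h : u' = u
      · rw [if_pos h, h, Function.update_self]
      · rw [if_neg h, Function.update_of_ne h, Matrix.of_apply]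
    refine ih (Function.update f u (Pi.single j 1)) hf' ?_ ?_
    · rw [hmat, ← Matrix.cramer_apply, Matrix.cramer_eq_adjugate_mulVec]
      show ∑ v, (Matrix.of fun v u : Fin g => keyg_col c f u v).adjugate u v * c v j = 0
      refine Finset.sum_eq_zero fun v _ => ?_
      rw [hadj, zero_mul]
    · have hlt : Submodule.span L (Set.range (keyg_col c f)) <
          Submodule.span L (Set.range (keyg_col c (Function.update f u (Pi.single j 1)))) := by
        have hmem : ∀ u', u' ≠ u → keyg_col c f u' ∈
            Submodule.span L (Set.range (keyg_col c (Function.update f u (Pi.single j 1)))) := by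
          intro u' h
          refine Submodule.subset_span ⟨u', ?_⟩
          rw [hcol, Function.update_of_ne h]
        refine lt_of_le_of_ne ?_ ?_
        · rw [Submodule.span_le]
          rintro _ ⟨u', rfl⟩
          by_cases h : u' = u
          · rw [h]
            have h1 : keyg_col c f u = ∑ u' ∈ Finset.univ.erase u, (-(y u' / y u)) • keyg_col c f u' := by
              funext v
              have h2 : ∑ u', keyg_col c f u' v * y u' = 0 := congrFun hy v
              rw [← Finset.add_sum_erase Finset.univ _ (Finset.mem_univ u)] at h2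
              rw [Finset.sum_apply]
              have h3 : keyg_col c f u v = -(∑ u' ∈ Finset.univ.erase u, keyg_col c f u' v * y u') / y u := by
                rw [eq_div_iff hu]
                exact eq_neg_of_add_eq_zero_left h2
              rw [h3, neg_div, Finset.sum_div, ← Finset.sum_neg_distrib]
              refine Finset.sum_congr rfl fun u' _ => ?_
              rw [Pi.smul_apply, smul_eq_mul]
              ring
            rw [h1]
            refine Submodule.sum_mem _ fun u' hu' => ?_
            exact Submodule.smul_mem _ _ (hmem u' (Finset.ne_of_mem_erase hu'))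
          · exact hmem u' h
        · intro heq
          have h1 : (fun v => c v j) ∈ Submodule.span L (Set.range (keyg_col c f)) := by
            rw [heq]
            refine Submodule.subset_span ⟨u, ?_⟩
            rw [hcol, Function.update_self]
          have h2 : Submodule.span L (Set.range (keyg_col c f)) ≤
              LinearMap.ker (Fintype.linearCombination L w) := by
            rw [Submodule.span_le]
            rintro _ ⟨u, rfl⟩
            rw [SetLike.mem_coe, LinearMap.mem_ker, Fintype.linearCombination_apply]
            rw [← hwc u]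
            refine Finset.sum_congr rfl fun v _ => ?_
            rw [smul_eq_mul, mul_comm]
          have h3 := h2 h1
          rw [LinearMap.mem_ker, Fintype.linearCombination_apply] at h3
          apply hj
          rw [← h3]
          refine Finset.sum_congr rfl fun v _ => ?_
          rw [smul_eq_mul, mul_comm]
      have h8 := Submodule.finrank_lt_finrank_of_lt hlt
      omega

theorem key_gen {K L E : Type*} [Field K] [CharZero K] [Field L] [Field E] [Algebra K L]
    [Algebra K E] [IsDomain (L ⊗[K] E)] (DK' : Der K) (DL : Der L)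
    (hD : ∀ x, DL (algebraMap K L x) = algebraMap K L (DK' x))
    {ι : Type} [Fintype ι] [DecidableEq ι] (Γ : Matrix ι ι K) (a l : ι → E)
    (ha : LinearIndependent K a) (hl : LinearIndependent K l)
    (hLJ : ∀ (g : ℕ) (c : (Fin g → ι) → K), Alt c → ∀ μ : (Fin g → ι) → K,
      (∀ k : ℕ, μ ⬝ᵥ ((nabT DK' 1 Γ)^[k] c) = 0) →
      (fun J => algebraMap K E (μ J)) ⬝ᵥ
        act (Matrix.vecMulVec a l) (fun J => algebraMap K E (c J)) = 0)
    (g : ℕ) (c : Fin g → ι → L) (ν : Matrix (Fin g) (Fin g) L)
    (hc : ∀ v j, DL (c v j) = ∑ i, c v i * algebraMap K L (Γ i j) + ∑ v', ν v v' * c v' j)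
    (hci : LinearIndependent L c) (f : Fin g → ι → K) (hf : LinearIndependent K f) :
    (Matrix.of fun v u : Fin g => ∑ i, c v i * algebraMap K L (f u i)).det ≠ 0 := by
  classical
  intro hdet0
  obtain ⟨f, hf, hdet, u0, v0, hadj⟩ := keyg_exch g c hci g f hf hdet0 (Nat.le_add_left _ _)
  obtain ⟨m, hm⟩ : ∃ m : Matrix (Fin g) (Fin g) L,
      m = Matrix.of fun v u => ∑ i, c v i * algebraMap K L (f u i) := ⟨_, rfl⟩
  have hdet : m.det = 0 := by
    rw [hm]
    exact hdet
  have hadj : m.adjugate u0 v0 ≠ 0 := by
    rw [hm]
    exact hadj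
  obtain ⟨μ, hμdef⟩ : ∃ μ : (Fin g → ι) → K, μ = fun J => ∏ u, f u (J u) := ⟨_, rfl⟩
  have hr0 : ∀ J, DL (dform c J) = act (Γ.map (algebraMap K L)) (dform c) J +
      ν.trace * dform c J :=
    keyg_deriv DL (Γ.map (algebraMap K L)) c ν (fun v j => hc v j)
  have hμ : ∑ J, algebraMap K L (μ J) * dform c J = 0 := by
    have h1 := ev_dform c (fun u i => algebraMap K L (f u i))
    have h2 : ev (dform c) (fun u i => algebraMap K L (f u i)) =
        ∑ J, algebraMap K L (μ J) * dform c J := by
      unfold ev
      refine Finset.sum_congr rfl fun J _ => ?_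
      rw [hμdef, map_prod, mul_comm]
    rw [← h2, h1, ← hm]
    exact hdet
  have hθ : ∀ θ : L →ₗ[K] K, (fun J => algebraMap K E (μ J)) ⬝ᵥ
      act (Matrix.vecMulVec a l) (fun J => algebraMap K E (θ (dform c J))) = 0 := by
    intro θ
    refine hLJ g (fun J => θ (dform c J)) ?_ μ
      (fun k => keyg_nab DK' DL hD Γ ν.trace (dform c) hr0 μ hμ θ k)
    obtain ⟨h1, h2⟩ := dform_alt c
    constructor
    · intro σ j k hjk
      show θ (dform c (σ ∘ Equiv.swap j k)) = -θ (dform c σ)
      rw [h1 σ j k hjk, map_neg]
    · intro σ j k hjk h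
      show θ (dform c σ) = 0
      rw [h2 σ j k hjk h, map_zero]
  have hT := tensor_act (Matrix.vecMulVec a l) (dform c) μ hθ
  obtain ⟨iL, hiL⟩ : ∃ iL : L →+* L ⊗[K] E, ∀ x, iL x = x ⊗ₜ[K] (1 : E) :=
    ⟨Algebra.TensorProduct.includeLeftRingHom, fun x => rfl⟩
  obtain ⟨x', hx'⟩ : ∃ x' : Fin g → L ⊗[K] E,
      x' = fun v => ∑ i, iL (c v i) * ((1 : L) ⊗ₜ[K] a i) := ⟨_, rfl⟩
  obtain ⟨y', hy'⟩ : ∃ y' : Fin g → L ⊗[K] E,
      y' = fun u => ∑ i, ((1 : L) ⊗ₜ[K] l i) * iL (algebraMap K L (f u i)) := ⟨_, rfl⟩
  have hKT : ∀ x : K, algebraMap K (L ⊗[K] E) x = iL (algebraMap K L x) := by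
    intro x
    rw [hiL]
    rfl
  have hN : ∀ u, ((Matrix.vecMulVec a l).map fun x => (1 : L) ⊗ₜ[K] x).mulVec
      (fun i => iL (algebraMap K L (f u i))) = fun i => y' u * ((1 : L) ⊗ₜ[K] a i) := by
    intro u
    funext i
    show ∑ j, ((1 : L) ⊗ₜ[K] (a i * l j)) * iL (algebraMap K L (f u j)) = _
    rw [hy', Finset.sum_mul]
    refine Finset.sum_congr rfl fun j _ => ?_
    have h1 : ((1 : L) ⊗ₜ[K] (a i * l j) : L ⊗[K] E) =
        ((1 : L) ⊗ₜ[K] a i) * ((1 : L) ⊗ₜ[K] l j) := by
      rw [Algebra.TensorProduct.tmul_mul_tmul, one_mul]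
    rw [h1]
    ring
  have hS : ∑ j, y' j * ((m.map iL).updateCol j x').det = 0 := by
    have e1 : (fun J => algebraMap K (L ⊗[K] E) (μ J)) ⬝ᵥ
        act ((Matrix.vecMulVec a l).map fun x => (1 : L) ⊗ₜ[K] x)
          (fun J => dform c J ⊗ₜ[K] (1 : E)) =
        ev (act ((Matrix.vecMulVec a l).map fun x => (1 : L) ⊗ₜ[K] x)
          (dform fun v i => iL (c v i))) (fun u i => iL (algebraMap K L (f u i))) := by
      have e0 : (fun J => dform c J ⊗ₜ[K] (1 : E)) = dform fun v i => iL (c v i) := by
        funext J
        rw [← hiL]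
        unfold dform
        rw [RingHom.map_det]
        rfl
      rw [e0]
      unfold ev
      refine Finset.sum_congr rfl fun J _ => ?_
      show algebraMap K (L ⊗[K] E) (μ J) * _ = _
      rw [mul_comm, hμdef, hKT, map_prod, map_prod]
    rw [e1, ev_act] at hT
    rw [← hT]
    refine Finset.sum_congr rfl fun j _ => ?_
    rw [ev_dform, hN]
    have e2 : (Matrix.of fun v u => ∑ i, iL (c v i) *
        Function.update (fun u i => iL (algebraMap K L (f u i))) j
          (fun i => y' j * ((1 : L) ⊗ₜ[K] a i)) u i) =
        (m.map iL).updateCol j (y' j • x') := by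
      ext v u
      rw [Matrix.of_apply, Matrix.updateCol_apply]
      by_cases huj : u = j
      · rw [if_pos huj, huj, Function.update_self]
        show _ = y' j * x' v
        rw [hx', Finset.mul_sum]
        refine Finset.sum_congr rfl fun i _ => ?_
        ring
      · rw [if_neg huj, Function.update_of_ne huj, Matrix.map_apply, hm, Matrix.of_apply,
          map_sum]
        refine Finset.sum_congr rfl fun i _ => ?_
        rw [map_mul]
    rw [e2, Matrix.det_updateCol_smul]
  obtain ⟨y, hyd⟩ : ∃ y : Fin g → L, y = fun u => m.adjugate u v0 := ⟨_, rfl⟩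
  have hu0 : y u0 ≠ 0 := by
    rw [hyd]
    exact hadj
  have hy : m.mulVec y = 0 := by
    funext v
    have h1 : (m * m.adjugate) v v0 = 0 := by
      rw [Matrix.mul_adjugate, hdet, zero_smul, Matrix.zero_apply]
    rw [hyd]
    exact h1
  have hsplit := det_split iL m y hy u0 x' y'
  rw [hS, mul_zero] at hsplit
  rcases mul_eq_zero.1 hsplit.symm with h1 | h1
  · have h2 : ∑ i, (∑ u, y u * algebraMap K L (f u i)) ⊗ₜ[K] l i = 0 := by
      rw [← h1, hy']
      simp only [Finset.mul_sum]
      rw [Finset.sum_comm]
      refine Finset.sum_congr rfl fun i _ => ?_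
      rw [TensorProduct.sum_tmul]
      refine Finset.sum_congr rfl fun u _ => ?_
      rw [hiL, hiL, Algebra.TensorProduct.tmul_mul_tmul, Algebra.TensorProduct.tmul_mul_tmul,
        one_mul, one_mul, mul_one]
    have h3 := keyg_ten l hl _ h2
    have h4 : y u0 = 0 := by
      refine (Module.forall_dual_apply_eq_zero_iff K (y u0)).1 fun θ => ?_
      have h5 : ∑ u, θ (y u) • f u = 0 := by
        funext i
        have h6 := congrArg θ (h3 i)
        rw [map_sum, map_zero] at h6
        rw [Finset.sum_apply, Pi.zero_apply, ← h6]
        refine Finset.sum_congr rfl fun u _ => ?_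
        have h7 : y u * algebraMap K L (f u i) = f u i • y u := by
          rw [Algebra.smul_def, mul_comm]
        rw [h7, map_smul, Pi.smul_apply, smul_eq_mul, smul_eq_mul, mul_comm]
      exact Fintype.linearIndependent_iff.1 hf _ h5 u0
    exact hu0 h4
  · have h2 : ∑ i, (∑ v, m.adjugate u0 v * c v i) ⊗ₜ[K] a i = 0 := by
      rw [← h1, hx']
      simp only [Finset.mul_sum]
      rw [Finset.sum_comm]
      refine Finset.sum_congr rfl fun i _ => ?_
      rw [TensorProduct.sum_tmul]
      refine Finset.sum_congr rfl fun v _ => ?_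
      rw [hiL, hiL, Algebra.TensorProduct.tmul_mul_tmul, Algebra.TensorProduct.tmul_mul_tmul,
        one_mul, one_mul, mul_one]
    have h3 := keyg_ten a ha _ h2
    have h5 : ∑ v, m.adjugate u0 v • c v = 0 := by
      funext i
      rw [Finset.sum_apply, Pi.zero_apply, ← h3 i]
      rfl
    exact hadj (Fintype.linearIndependent_iff.1 hci _ h5 v0)

end MPadcBK
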