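import Pool.Agent.Lib.MP_adc574_ag_BK.RegA
import Pool.Agent.Lib.MP_adc574_ag_BK.RegB

/-!
# JOB Kos: the local Koszul homotopy

`exists_kk`: `X i ^ N = ∑ j, c_j ∂_j F`; taking the homogeneous component of degree `N` we may assume `c_j` homogeneous of degree `N - (d - 1)` (as `X i ^ N ≠ 0` and
the `∂_j F` are homogeneous of degree `d - 1`, some term of the component is not 0, so `d - 1 ≤ N`; `0 < d` since otherwise all `∂_j F = 0`).
`kk x = mo (-(N • Pi.single i 1)) * ∑ j, pf (c_j) * cj j x`. Then `cj_ddpf_mul` gives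
`kk (dF x) = mo (-N ε_i) * ∑ j pf (c_j) * (pf (∂_j F) * x - dF * cj j x) = x - dF * kk x` (`mo_neg_mul`, centrality of `mo`, `pf`).
Regularity: `mo_mul_Reg` (the exponent `-N ε_i` is `0` outside `I`), `pf_mul_Reg`, `cj_Reg`. Degrees: `cj_TD`, `pf_mul_TD`, `mo_mul_TD`.
`kos_local`: `y = kk x` for some `i ∈ I`.
-/

set_option autoImplicit false

namespace MPadcBK

open ExteriorAlgebra

universe u

variable {κ : Type u} [Field κ] {m : ℕ}

private theorem kos_comp {N e : ℕ} (a b : MvPolynomial (Fin m) κ) (hb : b.IsHomogeneous e) :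
    MvPolynomial.homogeneousComponent N (a * b) =
      if e ≤ N then MvPolynomial.homogeneousComponent (N - e) a * b else 0 := by
  classical
  have h1 : a * b = ∑ k ∈ Finset.range (a.totalDegree + 1),
      MvPolynomial.homogeneousComponent k a * b := by
    rw [← Finset.sum_mul, MvPolynomial.sum_homogeneousComponent]
  have h2 : ∀ k, MvPolynomial.homogeneousComponent N (MvPolynomial.homogeneousComponent k a * b) =
      if N = k + e then MvPolynomial.homogeneousComponent k a * b else 0 := by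
    intro k
    exact MvPolynomial.homogeneousComponent_of_mem
      ((MvPolynomial.homogeneousComponent_isHomogeneous k a).mul hb)
  rw [h1, map_sum, Finset.sum_congr rfl fun k _ => h2 k]
  split_ifs with h
  · by_cases h3 : N - e ∈ Finset.range (a.totalDegree + 1)
    · rw [Finset.sum_eq_single (N - e)]
      · rw [if_pos (by omega)]
      · intro k _ hk
        rw [if_neg (by omega)]
      · intro h4
        exact absurd h3 h4
    · rw [Finset.sum_eq_zero, MvPolynomial.homogeneousComponent_eq_zero _ _ (by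
        rw [Finset.mem_range] at h3
        omega), zero_mul]
      intro k hk
      rw [if_neg]
      rintro h4
      apply h3
      have h5 : N - e = k := by omega
      rw [h5]
      exact hk
  · refine Finset.sum_eq_zero fun k _ => ?_
    rw [if_neg (by omega)]

private theorem kos_coef {d : ℕ} {F : MvPolynomial (Fin m) κ} (hF : F.IsHomogeneous d)
    (hs : Smooth F) (i : Fin m) : ∃ (d' k : ℕ) (c : Fin m → MvPolynomial (Fin m) κ),
      d = d' + 1 ∧ (∀ j, (c j).IsHomogeneous k) ∧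
      ∑ j, c j * MvPolynomial.pderiv j F = MvPolynomial.X i ^ (d' + k) := by
  classical
  obtain ⟨N, hN⟩ := hs i
  obtain ⟨c, hc⟩ := (Submodule.mem_span_range_iff_exists_fun _).1 hN
  simp only [smul_eq_mul] at hc
  have hX0 : (MvPolynomial.X i : MvPolynomial (Fin m) κ) ^ N ≠ 0 :=
    pow_ne_zero _ (MvPolynomial.X_ne_zero i)
  have hXh : ((MvPolynomial.X i : MvPolynomial (Fin m) κ) ^ N).IsHomogeneous N := by
    have := (MvPolynomial.isHomogeneous_X κ i).pow N
    rwa [one_mul] at this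
  have h0 := congrArg (MvPolynomial.homogeneousComponent N) hc
  rw [MvPolynomial.homogeneousComponent_eq_self hXh, map_sum,
    Finset.sum_congr rfl fun j _ => kos_comp (N := N) (c j) _ (hF.pderiv (i := j))] at h0
  have hd1 : d - 1 ≤ N := by
    by_contra h
    rw [Finset.sum_eq_zero] at h0
    · exact hX0 h0.symm
    · intro j _
      rw [if_neg h]
  have hd0 : d ≠ 0 := by
    intro h
    subst h
    refine hX0 ?_
    rw [← hc]
    refine Finset.sum_eq_zero fun j _ => ?_
    have h1 : F.totalDegree = 0 := Nat.le_zero.1 hF.totalDegree_le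
    rw [MvPolynomial.totalDegree_eq_zero_iff_eq_C.1 h1, MvPolynomial.pderiv_C, mul_zero]
  refine ⟨d - 1, N - (d - 1), fun j => MvPolynomial.homogeneousComponent (N - (d - 1)) (c j),
    by omega, fun j => MvPolynomial.homogeneousComponent_isHomogeneous _ _, ?_⟩
  have h3 : d - 1 + (N - (d - 1)) = N := by omega
  rw [h3, ← h0]
  refine Finset.sum_congr rfl fun j _ => ?_
  rw [if_pos hd1]

theorem exists_kk {d : ℕ} {F : MvPolynomial (Fin m) κ} (hF : F.IsHomogeneous d) (hs : Smooth F)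
    (i : Fin m) : ∃ kk : Fo κ m →ₗ[κ] Fo κ m,
      (∀ x, kk (dd (pf F) * x) + dd (pf F) * kk x = x) ∧
      (∀ I : Set (Fin m), i ∈ I → ∀ x ∈ Reg (κ := κ) I, kk x ∈ Reg (κ := κ) I) ∧
      (∀ q, ∀ x ∈ FD (κ := κ) (m := m) (q + 1), kk x ∈ FD (κ := κ) (m := m) q) ∧
      (∀ x ∈ FD (κ := κ) (m := m) 0, kk x = 0) ∧
      (∀ P : Set ℤ, ∀ x ∈ TD (κ := κ) (m := m) P, kk x ∈ TD (κ := κ) (m := m) {t | t + d ∈ P}) := by
  classical
  obtain ⟨d', k, c, hd, hc, hsum⟩ := kos_coef hF hs i
  obtain ⟨E, hE⟩ : ∃ E : Ex m, E = ex (Finsupp.single i (d' + k)) := ⟨_, rfl⟩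
  have hEt : tot E = d' + k := by
    rw [hE]
    unfold tot ex
    rw [Finset.sum_eq_single i]
    · rw [Finsupp.single_eq_same]
      push_cast
      rfl
    · intro j _ hj
      rw [Finsupp.single_eq_of_ne hj]
      rfl
    · intro h
      exact absurd (Finset.mem_univ i) h
  have hEo : ∀ j, j ≠ i → E j = 0 := by
    intro j hj
    rw [hE]
    unfold ex
    rw [Finsupp.single_eq_of_ne hj]
    rfl
  have hX : (pf (MvPolynomial.X i ^ (d' + k)) : Fo κ m) = mo E := by
    have h1 : (MvPolynomial.X i ^ (d' + k) : MvPolynomial (Fin m) κ) =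
        MvPolynomial.monomial (Finsupp.single i (d' + k)) 1 := by
      rw [MvPolynomial.X_pow_eq_monomial]
    rw [h1, pf, pl_monomial, fn_single, one_smul, hE]
  refine ⟨{ toFun := fun x => mo (-E) * ∑ j, pf (c j) * cj j x,
            map_add' := ?_, map_smul' := ?_ }, ?_, ?_, ?_, ?_, ?_⟩
  · intro x y
    simp only [cj_add, mul_add, Finset.sum_add_distrib]
  · intro a x
    simp only [cj_smul, mul_smul_comm, ← Finset.smul_sum, RingHom.id_apply]
  · intro x
    show mo (-E) * (∑ j, pf (c j) * cj j (dd (pf F) * x)) +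
      dd (pf F) * (mo (-E) * ∑ j, pf (c j) * cj j x) = x
    have h1 : ∀ j, pf (c j) * cj j (dd (pf F) * x) =
        pf (c j * MvPolynomial.pderiv j F) * x - dd (pf F) * (pf (c j) * cj j x) := by
      intro j
      rw [cj_ddpf_mul, mul_sub, ← mul_assoc, ← pf_mul, ← mul_assoc (pf (c j)) (dd (pf F)),
        pf_mul_comm (c j) (dd (pf F)), mul_assoc]
    rw [Finset.sum_congr rfl fun j _ => h1 j, Finset.sum_sub_distrib, ← Finset.sum_mul,
      ← pf_sum, hsum, hX, mul_sub, mo_neg_mul, ← Finset.mul_sum]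
    have h2 : mo (-E) * (dd (pf F) * ∑ j, pf (c j) * cj j x) =
        dd (pf F) * (mo (-E) * ∑ j, pf (c j) * cj j x) := by
      rw [← mul_assoc, mo_mul_comm (-E) (dd (pf F)), mul_assoc]
    rw [h2, sub_add_cancel]
  · intro I hi x hx
    show mo (-E) * (∑ j, pf (c j) * cj j x) ∈ Reg (κ := κ) I
    refine mo_mul_Reg ?_ (Submodule.sum_mem _ fun j _ => pf_mul_Reg _ (cj_Reg j hx))
    intro j hj
    have h1 : E j = 0 := hEo j (fun h => hj (h ▸ hi))
    rw [Pi.neg_apply, h1, neg_zero]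
  · intro q x hx
    show mo (-E) * (∑ j, pf (c j) * cj j x) ∈ FD (κ := κ) (m := m) q
    exact mo_mul_FD _ (Submodule.sum_mem _ fun j _ => pf_mul_FD _ (cj_FD j hx))
  · intro x hx
    show mo (-E) * (∑ j, pf (c j) * cj j x) = 0
    rw [Finset.sum_eq_zero, mul_zero]
    intro j _
    rw [cj_FD_zero j hx, mul_zero]
  · intro P x hx
    show mo (-E) * (∑ j, pf (c j) * cj j x) ∈ TD (κ := κ) (m := m) {t | t + d ∈ P}
    have h1 : (∑ j, pf (c j) * cj j x) ∈ TD (κ := κ) (m := m) {t | t - k ∈ {t : ℤ | t + 1 ∈ P}} :=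
      Submodule.sum_mem _ fun j _ => pf_mul_TD (hc j) (cj_TD j hx)
    have h2 := mo_mul_TD (-E) h1
    refine TD_mono ?_ h2
    intro t ht
    have h3 : tot (-E) = -(d' + k : ℤ) := by
      rw [← hEt]
      unfold tot
      rw [← Finset.sum_neg_distrib]
      rfl
    have h4 : t - tot (-E) - k + 1 ∈ P := ht
    have h5 : t - tot (-E) - k + 1 = t + d := by
      rw [h3, hd]
      push_cast
      ring
    rw [h5] at h4
    exact h4

/-- The chosen homotopy. -/
noncomputable def kk {d : ℕ} {F : MvPolynomial (Fin m) κ} (hF : F.IsHomogeneous d) (hs : Smooth F)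
    (i : Fin m) : Fo κ m →ₗ[κ] Fo κ m := Classical.choose (exists_kk hF hs i)

section

variable {d : ℕ} {F : MvPolynomial (Fin m) κ} (hF : F.IsHomogeneous d) (hs : Smooth F)

theorem kk_add (i : Fin m) (x : Fo κ m) :
    kk hF hs i (dd (pf F) * x) + dd (pf F) * kk hF hs i x = x :=
  (Classical.choose_spec (exists_kk hF hs i)).1 x

theorem kk_Reg {i : Fin m} {I : Set (Fin m)} (hi : i ∈ I) {x : Fo κ m}
    (hx : x ∈ Reg (κ := κ) I) : kk hF hs i x ∈ Reg (κ := κ) I :=
  (Classical.choose_spec (exists_kk hF hs i)).2.1 I hi x hx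

theorem kk_FD (i : Fin m) {q : ℕ} {x : Fo κ m} (hx : x ∈ FD (κ := κ) (m := m) (q + 1)) :
    kk hF hs i x ∈ FD (κ := κ) (m := m) q :=
  (Classical.choose_spec (exists_kk hF hs i)).2.2.1 q x hx

theorem kk_FD_zero (i : Fin m) {x : Fo κ m} (hx : x ∈ FD (κ := κ) (m := m) 0) :
    kk hF hs i x = 0 :=
  (Classical.choose_spec (exists_kk hF hs i)).2.2.2.1 x hx

theorem kk_TD (i : Fin m) {P : Set ℤ} {x : Fo κ m} (hx : x ∈ TD (κ := κ) (m := m) P) :
    kk hF hs i x ∈ TD (κ := κ) (m := m) {t | t + d ∈ P} :=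
  (Classical.choose_spec (exists_kk hF hs i)).2.2.2.2 P x hx

include hF hs

theorem kos_local {I : Set (Fin m)} (hI : I.Nonempty) {q : ℕ} {P : Set ℤ} {x : Fo κ m}
    (hx : x ∈ Reg (κ := κ) I ⊓ FD (q + 1) ⊓ TD P) (h : dd (pf F) * x = 0) :
    ∃ y ∈ Reg (κ := κ) I ⊓ FD q ⊓ TD {t | t + d ∈ P}, dd (pf F) * y = x := by
  obtain ⟨i, hi⟩ := hI
  obtain ⟨⟨h1, h2⟩, h3⟩ := hx
  refine ⟨kk hF hs i x, ⟨⟨kk_Reg hF hs hi h1, kk_FD hF hs i h2⟩, kk_TD hF hs i h3⟩, ?_⟩
  have h4 := kk_add hF hs i x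
  rw [h, map_zero, zero_add] at h4
  exact h4

theorem kos_local_zero (i : Fin m) {x : Fo κ m} (hx : x ∈ FD (κ := κ) (m := m) 0)
    (h : dd (pf F) * x = 0) : x = 0 := by
  have h4 := kk_add hF hs i x
  rw [h, map_zero, zero_add, kk_FD_zero hF hs i hx, mul_zero] at h4
  exact h4.symm

end

end MPadcBK
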