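import Pool.Agent.Lib.MP_adc574_ag_BK.Kos

/-!
# JOB KosG: the global Koszul complex

`mo (N ε_l)` is `mo (N • Pi.single l 1)`. Let `N` be such that `X l ^ N ∈ Jac` for all `l` (maximum). `K_l := ∑ i, pf (c_li) * cj i x` where `X l ^ N = ∑ c_li ∂_i F`:
it preserves `Reg ∅`, lowers the form degree by one (0 on `FD 0`), and `K_l (dF x) + dF K_l x = mo (N ε_l) * x`.
`nd` (nonzero divisor): `w = ∑_{l < j} mo (N ε_l) z'_l` with `(z'_l).coeff e = 0` if `e j < 0`, `= cti j (ι_j * (z_l).coeff (e + N ε_j))` if `e j = 0`,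
`= (z_l).coeff (e + N ε_j)` if `0 < e j` (`l ≠ j`, so `(e - N ε_l) j = e j`; `w.coeff e = 0` for `e j < 0`, and `cti j (ι_j * w.coeff e) = w.coeff e` for `e j = 0` by `split_i`).
Regularity of `z'_l`: `cti i` anticommutes with `cti j` and with `ι_j *` (`i ≠ j`).
`claim (j q)`, `q + j < m`: `x ∈ Reg ∅ ⊓ FD q` and `dF * x = ∑_{l<j} mo (N ε_l) z_l` (`z_l ∈ Reg ∅ ⊓ FD (q+1)`) imply `x = dF * y + ∑_{l<j} mo (N ε_l) z'_l` with
`y ∈ Reg ∅` (of degree `q - 1`, `y = 0` for `q = 0`), `z'_l ∈ Reg ∅ ⊓ FD q`. Induction on `q` (all `j`).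
`q = 0`: `mo (N ε_j) * x = K_j (dF x) = ∑_{l<j} mo (N ε_l) K_j z_l`, use `nd`.
`q + 1`: `W = K_j x` in `FD q`; `dF * W = mo (N ε_j) x - ∑_{l<j} mo (N ε_l) K_j z_l`, so `claim (j+1) q` applies: `W = dF * y + ∑_{l≤j} mo (N ε_l) z'_l`,
`dF * W = ∑_{l≤j} mo (N ε_l) dF z'_l`, hence `mo (N ε_j) (x - dF z'_j) = ∑_{l<j} mo (N ε_l) (..)`, and `nd`.
`kos_global`: `claim 0 (q+1)`, then take the component of total degree `t - d` of `y` (a `cw` projection; it preserves `Reg`, `FD`, and commutes with `dF *` up to the shift by `d`,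
e.g. `x = dF * y`, `y = ∑ of components`, compare the total degrees).
-/

set_option autoImplicit false

namespace MPadcBK

open ExteriorAlgebra

universe u

variable {κ : Type u} [Field κ] {m : ℕ}

/-- The exponent `N ε_l`. -/
private def kosg_e (N : ℕ) (l : Fin m) : Ex m := Pi.single l (N : ℤ)

private theorem kosg_e_self (N : ℕ) (l : Fin m) : (kosg_e N l : Ex m) l = N :=
  Pi.single_eq_same _ _

private theorem kosg_e_ne (N : ℕ) {l j : Fin m} (h : j ≠ l) : (kosg_e N l : Ex m) j = 0 :=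
  Pi.single_eq_of_ne h _

private theorem kosg_e_nonneg (N : ℕ) (l j : Fin m) : 0 ≤ (kosg_e N l : Ex m) j := by
  by_cases h : j = l
  · subst h
    rw [kosg_e_self]
    exact Int.natCast_nonneg _
  · rw [kosg_e_ne N h]

/-- The indices `< j`. -/
private def kosg_I (m j : ℕ) : Finset (Fin m) := Finset.univ.filter fun l => (l : ℕ) < j

private theorem kosg_I_mem {j : ℕ} {l : Fin m} : l ∈ kosg_I m j ↔ (l : ℕ) < j := by
  unfold kosg_I
  rw [Finset.mem_filter]
  exact ⟨fun h => h.2, fun h => ⟨Finset.mem_univ _, h⟩⟩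

private theorem kosg_I_zero : kosg_I m 0 = ∅ := by
  refine Finset.eq_empty_of_forall_notMem fun l hl => ?_
  have h := kosg_I_mem.1 hl
  omega

private theorem kosg_I_succ {j : ℕ} (hj : j < m) {M : Type*} [AddCommMonoid M] (f : Fin m → M) :
    ∑ l ∈ kosg_I m (j + 1), f l = ∑ l ∈ kosg_I m j, f l + f ⟨j, hj⟩ := by
  classical
  have h1 : kosg_I m (j + 1) = insert (⟨j, hj⟩ : Fin m) (kosg_I m j) := by
    ext l
    rw [Finset.mem_insert, kosg_I_mem, kosg_I_mem, Fin.ext_iff]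
    show (l : ℕ) < j + 1 ↔ (l : ℕ) = j ∨ (l : ℕ) < j
    omega
  have h2 : (⟨j, hj⟩ : Fin m) ∉ kosg_I m j := by
    rw [kosg_I_mem]
    exact lt_irrefl _
  rw [h1, Finset.sum_insert h2, add_comm]

/-- The coefficientwise part of the division by `x_j ^ N`. -/
private noncomputable def kosg_A (j : Fin m) (e : Ex m) : Lam κ m →ₗ[κ] Lam κ m :=
  if e j < 0 then 0 else if e j = 0 then
    (cti j).comp (LinearMap.mulLeft κ (ι κ (Pi.single j 1))) else LinearMap.id

private theorem kosg_A_neg {j : Fin m} {e : Ex m} (h : e j < 0) (y : Lam κ m) :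
    kosg_A j e y = 0 := by
  unfold kosg_A
  rw [if_pos h]
  rfl

private theorem kosg_A_zero {j : Fin m} {e : Ex m} (h : e j = 0) (y : Lam κ m) :
    kosg_A j e y = cti j (ι κ (Pi.single j 1) * y) := by
  unfold kosg_A
  rw [if_neg (by omega), if_pos h]
  rfl

private theorem kosg_A_pos {j : Fin m} {e : Ex m} (h : 0 < e j) (y : Lam κ m) :
    kosg_A j e y = y := by
  unfold kosg_A
  rw [if_neg (by omega), if_neg (by omega)]
  rfl

private theorem kosg_A_congr {j : Fin m} {e e' : Ex m} (h : e j = e' j) :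
    (kosg_A j e : Lam κ m →ₗ[κ] Lam κ m) = kosg_A j e' := by
  unfold kosg_A
  rw [h]

/-- The division by `x_j ^ N`. -/
private noncomputable def kosg_T (N : ℕ) (j : Fin m) (z : Fo κ m) : Fo κ m :=
  cw (kosg_A j) (mo (-kosg_e N j) * z)

private theorem kosg_T_coeff (N : ℕ) (j : Fin m) (z : Fo κ m) (e : Ex m) :
    (kosg_T N j z).coeff e = kosg_A j e (z.coeff (e + kosg_e N j)) := by
  unfold kosg_T
  rw [cw_coeff, coeff_mo_mul, sub_neg_eq_add]

private theorem kosg_T_sum (N : ℕ) (j : Fin m) (s : Finset (Fin m)) (z : Fin m → Fo κ m) :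
    kosg_T N j (∑ l ∈ s, z l) = ∑ l ∈ s, kosg_T N j (z l) := by
  unfold kosg_T
  rw [Finset.mul_sum, map_sum]

private theorem kosg_T_mo (N : ℕ) {j l : Fin m} (h : l ≠ j) (z : Fo κ m) :
    kosg_T N j (mo (kosg_e N l) * z) = mo (kosg_e N l) * kosg_T N j z := by
  refine fo_ext fun e => ?_
  rw [kosg_T_coeff, coeff_mo_mul, coeff_mo_mul, kosg_T_coeff]
  have h1 : (e - kosg_e N l) j = e j := by
    rw [Pi.sub_apply, kosg_e_ne N h.symm, sub_zero]
  rw [kosg_A_congr h1, add_sub_right_comm]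

private theorem kosg_T_self (N : ℕ) (j : Fin m) {w : Fo κ m} (hw : w ∈ Reg (κ := κ) ∅) :
    kosg_T N j (mo (kosg_e N j) * w) = w := by
  refine fo_ext fun e => ?_
  rw [kosg_T_coeff, coeff_mo_mul, add_sub_cancel_right]
  have h := hw e j (Set.notMem_empty _)
  rcases lt_trichotomy (e j) 0 with h1 | h1 | h1
  · rw [kosg_A_neg h1, h.1 h1]
  · rw [kosg_A_zero h1]
    have h2 := split_i j (w.coeff e)
    rw [h.2 h1, mul_zero, zero_add] at h2
    exact h2.symm
  · rw [kosg_A_pos h1]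

private theorem kosg_T_Reg (N : ℕ) (j : Fin m) {z : Fo κ m} (hz : z ∈ Reg (κ := κ) ∅) :
    kosg_T N j z ∈ Reg (κ := κ) ∅ := by
  intro e i hi
  rw [kosg_T_coeff]
  have h := hz (e + kosg_e N j) i hi
  by_cases hij : i = j
  · subst hij
    refine ⟨fun h1 => kosg_A_neg h1 _, fun h1 => ?_⟩
    rw [kosg_A_zero h1]
    exact ct_ct _ _
  · have h1 : (e + kosg_e N j) i = e i := by
      rw [Pi.add_apply, kosg_e_ne N hij, add_zero]
    rw [h1] at h
    refine ⟨fun h2 => by rw [h.1 h2, map_zero], fun h2 => ?_⟩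
    have h3 := h.2 h2
    rcases lt_trichotomy (e j) 0 with h4 | h4 | h4
    · rw [kosg_A_neg h4, map_zero]
    · rw [kosg_A_zero h4]
      have h5 : cti i (cti j (ι κ (Pi.single j 1) * z.coeff (e + kosg_e N j))) =
          - cti j (cti i (ι κ (Pi.single j 1) * z.coeff (e + kosg_e N j))) := ct_comm _ _ _
      rw [h5, cti_iota_mul, h3, mul_zero, sub_zero, Pi.single_eq_of_ne hij, zero_smul, map_zero,
        neg_zero]
    · rw [kosg_A_pos h4, h3]

private theorem kosg_T_FD (N : ℕ) (j : Fin m) {q : ℕ} {z : Fo κ m}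
    (hz : z ∈ FD (κ := κ) (m := m) q) : kosg_T N j z ∈ FD (κ := κ) (m := m) q := by
  intro e
  rw [kosg_T_coeff]
  have h := hz (e + kosg_e N j)
  rcases lt_trichotomy (e j) 0 with h1 | h1 | h1
  · rw [kosg_A_neg h1]
    exact Submodule.zero_mem _
  · rw [kosg_A_zero h1]
    exact ct_mem _ (iota_mem _ h)
  · rw [kosg_A_pos h1]
    exact h

/-- `x_j ^ N` is a nonzero divisor modulo the `x_l ^ N`, `l < j`. -/
private theorem kosg_nd (N : ℕ) {j : ℕ} (hj : j < m) {q : ℕ} {w : Fo κ m}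
    (hw : w ∈ Reg (κ := κ) ∅) {z : Fin m → Fo κ m}
    (hz : ∀ l, z l ∈ Reg (κ := κ) ∅ ⊓ FD (κ := κ) (m := m) q)
    (h : mo (kosg_e N ⟨j, hj⟩) * w = ∑ l ∈ kosg_I m j, mo (kosg_e N l) * z l) :
    ∃ z' : Fin m → Fo κ m, (∀ l, z' l ∈ Reg (κ := κ) ∅ ⊓ FD (κ := κ) (m := m) q) ∧
      w = ∑ l ∈ kosg_I m j, mo (kosg_e N l) * z' l := by
  refine ⟨fun l => kosg_T N ⟨j, hj⟩ (z l),
    fun l => ⟨kosg_T_Reg N _ (hz l).1, kosg_T_FD N _ (hz l).2⟩, ?_⟩
  rw [← kosg_T_self N ⟨j, hj⟩ hw, h, kosg_T_sum]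
  refine Finset.sum_congr rfl fun l hl => kosg_T_mo N ?_ _
  intro h1
  have h2 := kosg_I_mem.1 hl
  rw [h1] at h2
  exact lt_irrefl _ h2

/-- The contraction operator attached to a family of polynomials. -/
private noncomputable def kosg_K (c : Fin m → MvPolynomial (Fin m) κ) (x : Fo κ m) : Fo κ m :=
  ∑ i, pf (c i) * cj i x

private theorem kosg_K_dF {c : Fin m → MvPolynomial (Fin m) κ} {F : MvPolynomial (Fin m) κ}
    {G : MvPolynomial (Fin m) κ} (hc : ∑ i, c i * MvPolynomial.pderiv i F = G) (x : Fo κ m) :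
    kosg_K c (dd (pf F) * x) = pf G * x - dd (pf F) * kosg_K c x := by
  unfold kosg_K
  rw [← hc, pf_sum, Finset.sum_mul, Finset.mul_sum, ← Finset.sum_sub_distrib]
  refine Finset.sum_congr rfl fun i _ => ?_
  rw [cj_ddpf_mul, mul_sub, pf_mul, mul_assoc, ← mul_assoc (pf (c i)) (dd (pf F)),
    pf_mul_comm (c i) (dd (pf F)), mul_assoc]

private theorem kosg_K_Reg (c : Fin m → MvPolynomial (Fin m) κ) {x : Fo κ m}
    (hx : x ∈ Reg (κ := κ) ∅) : kosg_K c x ∈ Reg (κ := κ) ∅ :=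
  Submodule.sum_mem _ fun i _ => pf_mul_Reg _ (cj_Reg i hx)

private theorem kosg_K_FD (c : Fin m → MvPolynomial (Fin m) κ) {q : ℕ} {x : Fo κ m}
    (hx : x ∈ FD (κ := κ) (m := m) (q + 1)) : kosg_K c x ∈ FD (κ := κ) (m := m) q :=
  Submodule.sum_mem _ fun i _ => pf_mul_FD _ (cj_FD i hx)

private theorem kosg_K_FD_zero (c : Fin m → MvPolynomial (Fin m) κ) {x : Fo κ m}
    (hx : x ∈ FD (κ := κ) (m := m) 0) : kosg_K c x = 0 :=
  Finset.sum_eq_zero fun i _ => by rw [cj_FD_zero i hx, mul_zero]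

private theorem kosg_K_add (c : Fin m → MvPolynomial (Fin m) κ) (x y : Fo κ m) :
    kosg_K c (x + y) = kosg_K c x + kosg_K c y := by
  unfold kosg_K
  rw [← Finset.sum_add_distrib]
  refine Finset.sum_congr rfl fun i _ => ?_
  rw [cj_add, mul_add]

private theorem kosg_K_mo (c : Fin m → MvPolynomial (Fin m) κ) (e : Ex m) (x : Fo κ m) :
    kosg_K c (mo e * x) = mo e * kosg_K c x := by
  unfold kosg_K
  rw [Finset.mul_sum]
  refine Finset.sum_congr rfl fun i _ => ?_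
  rw [cj_mo_mul, ← mul_assoc, ← mul_assoc, mo_mul_comm]

private theorem kosg_K_sum (c : Fin m → MvPolynomial (Fin m) κ) (N : ℕ) (s : Finset (Fin m))
    (z : Fin m → Fo κ m) :
    kosg_K c (∑ l ∈ s, mo (kosg_e N l) * z l) = ∑ l ∈ s, mo (kosg_e N l) * kosg_K c (z l) := by
  classical
  induction s using Finset.induction_on with
  | empty =>
    rw [Finset.sum_empty, Finset.sum_empty]
    exact kosg_K_FD_zero c (Submodule.zero_mem _)
  | insert a s ha ih =>
    rw [Finset.sum_insert ha, Finset.sum_insert ha, kosg_K_add, ih, kosg_K_mo]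

private theorem kosg_pf_X (N : ℕ) (l : Fin m) :
    (pf ((MvPolynomial.X l : MvPolynomial (Fin m) κ) ^ N) : Fo κ m) = mo (kosg_e N l) := by
  have h1 : (MvPolynomial.X l : MvPolynomial (Fin m) κ) ^ N =
      MvPolynomial.monomial (Finsupp.single l N) 1 := MvPolynomial.X_pow_eq_monomial
  rw [h1, pf, pl_monomial, fn_single, one_smul]
  have h2 : ex (Finsupp.single l N) = kosg_e N l := by
    classical
    funext j
    unfold ex kosg_e
    by_cases hj : j = l
    · subst hj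
      rw [Finsupp.single_eq_same, Pi.single_eq_same]
    · rw [Finsupp.single_eq_of_ne hj, Pi.single_eq_of_ne hj, Nat.cast_zero]
  rw [h2]

private theorem kosg_exists {F : MvPolynomial (Fin m) κ} (hs : Smooth F) :
    ∃ (N : ℕ) (c : Fin m → Fin m → MvPolynomial (Fin m) κ),
      ∀ l, ∑ i, c l i * MvPolynomial.pderiv i F = MvPolynomial.X l ^ N := by
  choose n hn using hs
  refine ⟨Finset.univ.sup n, ?_⟩
  have h1 : ∀ l, ∃ c : Fin m → MvPolynomial (Fin m) κ,
      ∑ i, c i * MvPolynomial.pderiv i F = MvPolynomial.X l ^ (Finset.univ.sup n) := by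
    intro l
    have h2 : n l ≤ Finset.univ.sup n := Finset.le_sup (Finset.mem_univ l)
    have h3 : (MvPolynomial.X l : MvPolynomial (Fin m) κ) ^ (Finset.univ.sup n) ∈
        Ideal.span (Set.range fun j => MvPolynomial.pderiv j F) := by
      rw [← Nat.sub_add_cancel h2, pow_add]
      exact Ideal.mul_mem_left _ _ (hn l)
    exact Ideal.mem_span_range_iff_exists_fun.1 h3
  choose c hc using h1
  exact ⟨c, hc⟩

private theorem kosg_swap (F : MvPolynomial (Fin m) κ) (e : Ex m) (x : Fo κ m) :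
    dd (pf F) * (mo e * x) = mo e * (dd (pf F) * x) := by
  rw [← mul_assoc, ← mo_mul_comm, mul_assoc]

private theorem kosg_claim {F : MvPolynomial (Fin m) κ} {N : ℕ}
    {c : Fin m → Fin m → MvPolynomial (Fin m) κ}
    (hc : ∀ l, ∑ i, c l i * MvPolynomial.pderiv i F = MvPolynomial.X l ^ N) (q : ℕ) :
    ∀ (j : ℕ), q + j < m → ∀ (x : Fo κ m), x ∈ Reg (κ := κ) ∅ → x ∈ FD (κ := κ) (m := m) q →
      ∀ z : Fin m → Fo κ m, (∀ l, z l ∈ Reg (κ := κ) ∅ ⊓ FD (κ := κ) (m := m) (q + 1)) →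
      dd (pf F) * x = ∑ l ∈ kosg_I m j, mo (kosg_e N l) * z l →
      ∃ (y : Fo κ m) (z' : Fin m → Fo κ m), y ∈ Reg (κ := κ) ∅ ∧
        (∀ q', q = q' + 1 → y ∈ FD (κ := κ) (m := m) q') ∧
        (∀ l, z' l ∈ Reg (κ := κ) ∅ ⊓ FD (κ := κ) (m := m) q) ∧
        x = dd (pf F) * y + ∑ l ∈ kosg_I m j, mo (kosg_e N l) * z' l := by
  induction q with
  | zero =>
    intro j hj x hxR hxF z hz h
    have hj' : j < m := by omega
    have h1 := kosg_K_dF (hc ⟨j, hj'⟩) x
    rw [kosg_K_FD_zero _ hxF, mul_zero, sub_zero, kosg_pf_X, h, kosg_K_sum] at h1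
    obtain ⟨z', hz', hw⟩ := kosg_nd N hj' hxR
      (z := fun l => kosg_K (c ⟨j, hj'⟩) (z l)) (q := 0)
      (fun l => ⟨kosg_K_Reg _ (hz l).1, kosg_K_FD _ (hz l).2⟩) h1.symm
    refine ⟨0, z', Submodule.zero_mem _, fun q' hq' => ?_, hz', ?_⟩
    · omega
    · rw [mul_zero, zero_add]
      exact hw
  | succ q ih =>
    intro j hj x hxR hxF z hz h
    have hj' : j < m := by omega
    have h1 := kosg_K_dF (hc ⟨j, hj'⟩) x
    rw [kosg_pf_X, h, kosg_K_sum] at h1
    have hWR := kosg_K_Reg (c ⟨j, hj'⟩) hxR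
    have hWF := kosg_K_FD (c ⟨j, hj'⟩) hxF
    obtain ⟨Z, hZdef⟩ : ∃ Z : Fin m → Fo κ m, Z = fun l =>
      if l = ⟨j, hj'⟩ then x else - kosg_K (c ⟨j, hj'⟩) (z l) := ⟨_, rfl⟩
    have hZ1 : Z ⟨j, hj'⟩ = x := by
      rw [hZdef]
      exact if_pos rfl
    have hZ2 : ∀ l ∈ kosg_I m j, Z l = - kosg_K (c ⟨j, hj'⟩) (z l) := by
      intro l hl
      rw [hZdef]
      refine if_neg ?_
      intro h2
      have h3 := kosg_I_mem.1 hl
      rw [h2] at h3
      exact lt_irrefl _ h3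
    have hZ3 : ∀ l, Z l ∈ Reg (κ := κ) ∅ ⊓ FD (κ := κ) (m := m) (q + 1) := by
      intro l
      rw [hZdef]
      show (if l = ⟨j, hj'⟩ then x else - kosg_K (c ⟨j, hj'⟩) (z l)) ∈ _
      split_ifs
      · exact ⟨hxR, hxF⟩
      · exact Submodule.neg_mem _ ⟨kosg_K_Reg _ (hz l).1, kosg_K_FD _ (hz l).2⟩
    have h2 : dd (pf F) * kosg_K (c ⟨j, hj'⟩) x =
        ∑ l ∈ kosg_I m (j + 1), mo (kosg_e N l) * Z l := by
      rw [kosg_I_succ hj', hZ1, Finset.sum_congr rfl fun l hl => by rw [hZ2 l hl, mul_neg],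
        Finset.sum_neg_distrib, h1]
      abel
    obtain ⟨y, z', hyR, _, hz', hW⟩ := ih (j + 1) (by omega) _ hWR hWF Z hZ3 h2
    have h3 : dd (pf F) * kosg_K (c ⟨j, hj'⟩) x =
        ∑ l ∈ kosg_I m (j + 1), mo (kosg_e N l) * (dd (pf F) * z' l) := by
      conv_lhs => rw [hW]
      rw [mul_add, one_mul_self (ddpf_mem F), zero_add, Finset.mul_sum]
      exact Finset.sum_congr rfl fun l _ => kosg_swap F _ _
    have h4 : mo (kosg_e N ⟨j, hj'⟩) * (x - dd (pf F) * z' ⟨j, hj'⟩) =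
        ∑ l ∈ kosg_I m j, mo (kosg_e N l) *
          (dd (pf F) * z' l + kosg_K (c ⟨j, hj'⟩) (z l)) := by
      rw [kosg_I_succ hj'] at h3
      have h5 : ∑ l ∈ kosg_I m j, mo (kosg_e N l) *
          (dd (pf F) * z' l + kosg_K (c ⟨j, hj'⟩) (z l)) =
          ∑ l ∈ kosg_I m j, mo (kosg_e N l) * (dd (pf F) * z' l) +
          ∑ l ∈ kosg_I m j, mo (kosg_e N l) * kosg_K (c ⟨j, hj'⟩) (z l) := by
        rw [← Finset.sum_add_distrib]
        exact Finset.sum_congr rfl fun l _ => mul_add _ _ _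
      rw [h5, h1, mul_sub, h3]
      abel
    obtain ⟨z'', hz'', hw⟩ := kosg_nd N hj'
      (Submodule.sub_mem _ hxR (ddpf_mul_Reg F (hz' ⟨j, hj'⟩).1))
      (z := fun l => dd (pf F) * z' l + kosg_K (c ⟨j, hj'⟩) (z l)) (q := q + 1)
      (fun l => ⟨Submodule.add_mem _ (ddpf_mul_Reg F (hz' l).1) (kosg_K_Reg _ (hz l).1),
        Submodule.add_mem _ (ddpf_mul_FD F (hz' l).2) (kosg_K_FD _ (hz l).2)⟩) h4
    refine ⟨z' ⟨j, hj'⟩, z'', (hz' _).1, fun q' hq' => ?_, hz'', ?_⟩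
    · have h6 : q' = q := by omega
      rw [h6]
      exact (hz' _).2
    · rw [← hw]
      abel

theorem kos_global {d : ℕ} {F : MvPolynomial (Fin m) κ} (hF : F.IsHomogeneous d) (hs : Smooth F)
    {q : ℕ} (hq : q + 1 < m) {t : ℤ} {x : Fo κ m} (hx : x ∈ Reg (κ := κ) ∅ ⊓ FD (q + 1) ⊓ TD {t})
    (h : dd (pf F) * x = 0) :
    ∃ y ∈ Reg (κ := κ) ∅ ⊓ FD q ⊓ TD {t - d}, dd (pf F) * y = x := by
  classical
  obtain ⟨⟨hxR, hxF⟩, hxT⟩ := hx
  obtain ⟨N, c, hc⟩ := kosg_exists hs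
  obtain ⟨y, z', hyR, hyF, _, hxy⟩ := kosg_claim hc (q + 1) 0 hq x hxR hxF (fun _ => 0)
    (fun l => Submodule.zero_mem _) (by rw [kosg_I_zero, Finset.sum_empty]; exact h)
  rw [kosg_I_zero, Finset.sum_empty, add_zero] at hxy
  have hyF' := hyF q rfl
  obtain ⟨y', hy'⟩ : ∃ y' : Fo κ m, ∀ e, y'.coeff e = if tot e = t - d then y.coeff e else 0 := by
    refine ⟨cw (fun e => if tot e = t - d then LinearMap.id else 0) y, fun e => ?_⟩
    rw [cw_coeff]
    split_ifs <;> rfl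
  have hT1 : y' ∈ TD (κ := κ) (m := m) {t - (d : ℤ)} := by
    intro e he
    rw [hy' e, if_neg]
    exact fun h1 => he h1
  have hT2 : y - y' ∈ TD (κ := κ) (m := m) {s | s ≠ t - (d : ℤ)} := by
    intro e he
    rw [AddMonoidAlgebra.coeff_sub, Finsupp.sub_apply, hy' e, if_pos, sub_self]
    by_contra h1
    exact he h1
  refine ⟨y', ⟨⟨?_, ?_⟩, hT1⟩, ?_⟩
  · intro e i hi
    rw [hy' e]
    have h1 := hyR e i hi
    split_ifs
    · exact h1
    · exact ⟨fun _ => rfl, fun _ => map_zero _⟩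
  · intro e
    rw [hy' e]
    split_ifs
    · exact hyF' e
    · exact Submodule.zero_mem _
  · have h1 := ddpf_mul_TD hF hT1
    have h2 := ddpf_mul_TD hF hT2
    refine fo_ext fun e => ?_
    by_cases he : tot e = t
    · have h3 : (dd (pf F) * (y - y')).coeff e = 0 := by
        refine h2 e fun h4 => ?_
        have h5 : tot e - (d : ℤ) ≠ t - (d : ℤ) := h4
        exact h5 (by rw [he])
      rw [mul_sub, ← hxy, AddMonoidAlgebra.coeff_sub, Finsupp.sub_apply, sub_eq_zero] at h3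
      exact h3.symm
    · have h3 : (dd (pf F) * y').coeff e = 0 := by
        refine h1 e fun h4 => he ?_
        have h5 : tot e - (d : ℤ) = t - (d : ℤ) := h4
        omega
      rw [h3]
      exact (hxT e he).symm

end MPadcBK
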