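import Pool.Agent.Lib.MP_adc574_ag_BK.LieB
import Pool.Agent.Lib.MP_adc574_ag_BK.LogCarA

/-!
# JOB LogCarB: Taylor expansion of closed forms killed by `dF ∧`

`r` is a vector field with `r F = 1` (`cv r (dd (pf F)) = 1`), `L = Li r`: `[L, F] = 1` (`Li_pf_mul`, `Li_pf_pow_mul`), `L` commutes with `dd` and with `dF ∧` (`Li_ddpf_mul`).
* `Li_ZK`, `Li_KK`: `Li_Reg`, `Li_FD`, `Li_TD`, `Li_ddpf_mul`, `dd_Li`.
* `taylor`: induction on `k`. `k = 0`: `x = ω_0`. Step `k → k + 1` (`k + 2 ≤ p`): `y = L x` is in `ZK F (t - d) (q+1) I` and `L^(k+1) y = L^(k+2) x`, so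
  `y = ∑_{j ≤ k} F^j η_j` with `η_j ∈ ZK F (t - d - j d) (q+1) I`, `L η_j ∈ dd (KK ..)`. Put `ω_(j+1) = (j+1)⁻¹ η_j` for `j ≤ k` (`j + 1 < p`, invertible) and
  `ω_0 = x - ∑_{j ≤ k} F^(j+1) ω_(j+1)`. Then `L ω_0 = y - ∑ ((j+1) F^j ω_(j+1) + F^(j+1) L ω_(j+1)) = - ∑ F^(j+1) L ω_(j+1)` and `F^(j+1) * dd κ' = dd (F^(j+1) κ')` for
  `κ'` killed by `dF ∧` (`dd_pf_pow_KK`, `pf_pow_KK`).
* `split_omega`: `L ω = dd κ'`, `κ' ∈ KK F (t - d) q I`; `ξ = cv r ω - κ'`: `dd ξ = dd (cv r ω) - L ω = - cv r (dd ω) = 0`, `dF * ξ = dF * cv r ω = ω - cv r (dF * ω) = ω` (`cv_ddpf_mul`).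
-/

set_option autoImplicit false

namespace MPadcBK

open ExteriorAlgebra

universe u

variable {κ : Type u} [Field κ] {m : ℕ}

/-- The Lie derivative as a linear map. -/
private noncomputable def logcarb_L (r : Fin m → Fn κ m) : Fo κ m →ₗ[κ] Fo κ m where
  toFun := Li r
  map_add' := Li_add r
  map_smul' := Li_smul r

private theorem logcarb_L_apply (r : Fin m → Fn κ m) (x : Fo κ m) : logcarb_L r x = Li r x := rfl

theorem Li_KK {F : MvPolynomial (Fin m) κ} {I : Set (Fin m)} {d : ℕ} {r : Fin m → Fn κ m}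
    (hr : IsVF I d r) (h : cv r (dd (pf F)) = 1) {q : ℕ} {t : ℤ} {x : Fo κ m}
    (hx : x ∈ KK F t q I) : Li r x ∈ KK F (t - d) q I := by
  obtain ⟨h1, h2, h3, h4⟩ := mem_KK.1 hx
  refine mem_KK.2 ⟨Li_Reg hr h1, Li_FD r h2, Li_TD hr h3, ?_⟩
  rw [← Li_ddpf_mul h, h4, Li_zero]

theorem Li_ZK {F : MvPolynomial (Fin m) κ} {I : Set (Fin m)} {d : ℕ} {r : Fin m → Fn κ m}
    (hr : IsVF I d r) (h : cv r (dd (pf F)) = 1) {q : ℕ} {t : ℤ} {x : Fo κ m}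
    (hx : x ∈ ZK F t q I) : Li r x ∈ ZK F (t - d) q I := by
  obtain ⟨h1, h2⟩ := mem_ZK.1 hx
  refine mem_ZK.2 ⟨Li_KK hr h h1, ?_⟩
  rw [dd_Li, h2, Li_zero]

private theorem logcarb_pow_ZK {d : ℕ} {F : MvPolynomial (Fin m) κ} (hF : F.IsHomogeneous d)
    {t s : ℤ} {q : ℕ} {I : Set (Fin m)} (k : ℕ) {x : Fo κ m} (hx : x ∈ ZK F t q I)
    (hs : s = t + k * d) : pf F ^ k * x ∈ ZK F s q I := by
  obtain ⟨h1, h2⟩ := mem_ZK.1 hx
  rw [hs]
  refine mem_ZK.2 ⟨pf_pow_KK hF k h1, ?_⟩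
  rw [dd_pf_pow_KK k (mem_KK.1 h1).2.2.2, h2, mul_zero]

private theorem logcarb_pow_BK {d : ℕ} {F : MvPolynomial (Fin m) κ} (hF : F.IsHomogeneous d)
    {t s : ℤ} {q : ℕ} {I : Set (Fin m)} (k : ℕ) {x : Fo κ m}
    (hx : x ∈ (KK F t q I).map (dd : Fo κ m →ₗ[κ] Fo κ m)) (hs : s = t + k * d) :
    pf F ^ k * x ∈ (KK F s q I).map (dd : Fo κ m →ₗ[κ] Fo κ m) := by
  obtain ⟨y, hy, rfl⟩ := Submodule.mem_map.1 hx
  rw [hs]
  refine Submodule.mem_map.2 ⟨pf F ^ k * y, pf_pow_KK hF k hy, ?_⟩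
  rw [dd_pf_pow_KK k (mem_KK.1 hy).2.2.2]

theorem taylor (p : ℕ) [Fact p.Prime] [CharP κ p] {d : ℕ} {F : MvPolynomial (Fin m) κ}
    (hF : F.IsHomogeneous d) {I : Set (Fin m)} {r : Fin m → Fn κ m} (hr : IsVF I d r)
    (h : cv r (dd (pf F)) = 1) {q : ℕ} (k : ℕ) (hk : k + 1 ≤ p) (t : ℤ) (x : Fo κ m)
    (hx : x ∈ ZK F t (q + 1) I)
    (hx' : (Li r)^[k + 1] x ∈ (KK F (t - (k + 1 : ℕ) * d) q I).map (dd : Fo κ m →ₗ[κ] Fo κ m)) :
    ∃ ω : ℕ → Fo κ m, (∀ j, j ≤ k → ω j ∈ ZK F (t - j * d) (q + 1) I ∧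
        Li r (ω j) ∈ (KK F (t - (j + 1 : ℕ) * d) q I).map (dd : Fo κ m →ₗ[κ] Fo κ m)) ∧
      x = ∑ j ∈ Finset.range (k + 1), pf F ^ j * ω j := by
  induction k generalizing t x with
  | zero =>
    refine ⟨fun _ => x, ?_, ?_⟩
    · intro j hj
      obtain rfl : j = 0 := by omega
      refine ⟨?_, hx'⟩
      rw [Nat.cast_zero, zero_mul, sub_zero]
      exact hx
    · rw [Finset.sum_range_one, pow_zero, one_mul]
  | succ k ih =>
    have hy : Li r x ∈ ZK F (t - d) (q + 1) I := Li_ZK hr h hx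
    have hy' : (Li r)^[k + 1] (Li r x) ∈
        (KK F ((t - d) - (k + 1 : ℕ) * d) q I).map (dd : Fo κ m →ₗ[κ] Fo κ m) := by
      have h1 : (t - d) - ((k + 1 : ℕ) : ℤ) * d = t - ((k + 1 + 1 : ℕ) : ℤ) * d := by
        push_cast
        ring
      rw [h1, ← Function.iterate_succ_apply]
      exact hx'
    obtain ⟨η, hη, hsum⟩ := ih (by omega) (t - d) (Li r x) hy hy'
    have hinv : ∀ j, j ≤ k → ((j + 1 : ℕ) : κ) ≠ 0 := by
      intro j hj h0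
      rw [CharP.cast_eq_zero_iff κ p] at h0
      have := Nat.le_of_dvd (by omega) h0
      omega
    set θ : ℕ → Fo κ m := fun j => (((j + 1 : ℕ) : κ)⁻¹) • η j with hθ
    have hθ1 : ∀ j, j ≤ k → θ j ∈ ZK F (t - (j + 1 : ℕ) * d) (q + 1) I := by
      intro j hj
      have h1 : t - ((j + 1 : ℕ) : ℤ) * d = (t - d) - (j : ℤ) * d := by
        push_cast
        ring
      rw [h1]
      exact Submodule.smul_mem _ _ (hη j hj).1
    have hθ2 : ∀ j, j ≤ k → Li r (θ j) ∈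
        (KK F (t - (j + 1 + 1 : ℕ) * d) q I).map (dd : Fo κ m →ₗ[κ] Fo κ m) := by
      intro j hj
      have h1 : t - ((j + 1 + 1 : ℕ) : ℤ) * d = (t - d) - ((j + 1 : ℕ) : ℤ) * d := by
        push_cast
        ring
      rw [h1, hθ]
      simp only [Li_smul]
      exact Submodule.smul_mem _ _ (hη j hj).2
    set ω0 : Fo κ m := x - ∑ j ∈ Finset.range (k + 1), pf F ^ (j + 1) * θ j with hω0
    have hω1 : ω0 ∈ ZK F (t - ((0 : ℕ) : ℤ) * d) (q + 1) I := by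
      rw [Nat.cast_zero, zero_mul, sub_zero, hω0]
      refine Submodule.sub_mem _ hx (Submodule.sum_mem _ fun j hj => ?_)
      refine logcarb_pow_ZK hF (j + 1) (hθ1 j (by have := Finset.mem_range.1 hj; omega)) ?_
      ring
    have hω2 : Li r ω0 ∈
        (KK F (t - ((0 + 1 : ℕ) : ℤ) * d) q I).map (dd : Fo κ m →ₗ[κ] Fo κ m) := by
      have h1 : Li r ω0 = - ∑ j ∈ Finset.range (k + 1), pf F ^ (j + 1) * Li r (θ j) := by
        rw [← logcarb_L_apply, hω0, map_sub, map_sum, logcarb_L_apply, hsum,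
          ← Finset.sum_sub_distrib, ← Finset.sum_neg_distrib]
        refine Finset.sum_congr rfl fun j hj => ?_
        have hj' : j ≤ k := by have := Finset.mem_range.1 hj; omega
        rw [logcarb_L_apply, Li_pf_pow_mul h]
        have h2 : ((j + 1 : ℕ) : κ) • (pf F ^ j * θ j) = pf F ^ j * η j := by
          rw [hθ]
          simp only
          rw [mul_smul_comm, smul_smul, mul_inv_cancel₀ (hinv j hj'), one_smul]
        rw [h2]
        abel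
      rw [h1]
      refine Submodule.neg_mem _ (Submodule.sum_mem _ fun j hj => ?_)
      refine logcarb_pow_BK hF (j + 1) (hθ2 j (by have := Finset.mem_range.1 hj; omega)) ?_
      push_cast
      ring
    refine ⟨fun j => Nat.casesOn j ω0 θ, ?_, ?_⟩
    · intro j hj
      cases j with
      | zero => exact ⟨hω1, hω2⟩
      | succ j => exact ⟨hθ1 j (by omega), hθ2 j (by omega)⟩
    · rw [Finset.sum_range_succ', pow_zero, one_mul]
      show x = (∑ j ∈ Finset.range (k + 1), pf F ^ (j + 1) * θ j) + ω0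
      rw [hω0, add_sub_cancel]

theorem split_omega {F : MvPolynomial (Fin m) κ} {I : Set (Fin m)} {d : ℕ} {r : Fin m → Fn κ m}
    (hr : IsVF I d r) (h : cv r (dd (pf F)) = 1) {q : ℕ} {t : ℤ} {x : Fo κ m}
    (hx : x ∈ ZK F t (q + 1) I)
    (hx' : Li r x ∈ (KK F (t - d) q I).map (dd : Fo κ m →ₗ[κ] Fo κ m)) :
    ∃ ξ ∈ Reg (κ := κ) I ⊓ FD q ⊓ TD {t - d}, dd ξ = 0 ∧ dd (pf F) * ξ = x := by
  obtain ⟨h1, h2⟩ := mem_ZK.1 hx
  obtain ⟨h3, h4, h5, h6⟩ := mem_KK.1 h1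
  obtain ⟨y, hy, hy2⟩ := Submodule.mem_map.1 hx'
  obtain ⟨g3, g4, g5, g6⟩ := mem_KK.1 hy
  refine ⟨cv r x - y, ?_, ?_, ?_⟩
  · refine ⟨⟨?_, ?_⟩, ?_⟩
    · exact Submodule.sub_mem _ (cv_Reg hr h3) g3
    · exact Submodule.sub_mem _ (cv_FD r h4) g4
    · exact Submodule.sub_mem _ (cv_TD hr h5) g5
  · rw [map_sub, hy2, Li, h2, cv_zero, add_zero, sub_self]
  · have h7 := cv_ddpf_mul h x
    rw [h6, cv_zero] at h7
    rw [mul_sub, g6, sub_zero]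
    exact (sub_eq_zero.1 h7.symm).symm

end MPadcBK
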