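import Pool.Agent.Lib.MP_adc574_ag_BK.Kos
import Pool.Agent.Lib.MP_adc574_ag_BK.LogCarB

/-!
# JOB LogCarC: the Cartier isomorphism for the forms killed by `dF ∧`

`r` from `exists_vf`, `L = Li r`.
* `log_decomp`: `x ∈ ZK F d (q+1) I`; by `Li_pow_closed` and `taylor` (`k = p - 1`) `x = ∑_{j<p} F^j ω_j`, by `split_omega` `ω_j = dF * ξ_j`, `ξ_j` closed, regular, of form degree `q` and total
  degree `d - j d - d = - j d`. For `1 ≤ j < p`: `(-(j d) : κ) ≠ 0`, `euler`: `ξ_j = dd ρ_j`, `ρ_j = (-(j d))⁻¹ • cfe ξ_j` (for `q = 0`: `cfe ξ_j = 0`, so `ξ_j = 0`, take `ρ_j = 0`)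
  and `F^j * (dF * dd ρ_j) = - dd (F^j * (dF * ρ_j))`, `F^j * (dF * ρ_j) ∈ KK F d q I` (if `q = 0` it is `0`). So `x = dF * ξ_0 + dd y`, `y ∈ KK F d q I`.
* `lc_cartier`: `0 = Ca (F^(p-1) x) = dF * Ca ξ_0` (`Ca_mult`, `Ca_F_dd`). `Ca ξ_0` is regular of form degree `q` and total degree `0`. If `q = 0`: `dF * Ca ξ_0 = 0` gives `Ca ξ_0 = 0`
  (`kos_local_zero`), `ξ_0 = 0` (`cartier_zero`). If `q = q' + 1`: `Ca ξ_0 = dF * μ` with `μ` regular of form degree `q'` and total degree `-d` (`kos_local` with `P = {0}`);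
  `ξ' = ξ_0 - F^(p-1) * (dF * Fr μ)` is closed, of total degree `0`, `Ca ξ' = 0` (`Ca_mul_Fr`, `Ca_pow_ddpf`), so `ξ' = dd η` (`cartier`), and `dF * ξ_0 = dF * dd η = - dd (dF * η)`.
* `lc_surj`: `y = dF * ξ`, `ξ` regular of form degree `q - 1` and total degree `0` (`kos_local`; for `q = 0` `y = 0` by `kos_local_zero`), `x = dF * Fr ξ`:
  `F^(p-1) * (dF * Fr ξ) = (F^(p-1) * dF) * Fr ξ` (`Ca_mul_Fr`, `Ca_pow_ddpf`).
-/

set_option autoImplicit false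

namespace MPadcBK

open ExteriorAlgebra

universe u

variable {κ : Type u} [Field κ] {m : ℕ} (p : ℕ) [hp : Fact p.Prime] [CharP κ p] [PerfectRing κ p]

private theorem lcc_TD {P Q : Set ℤ} (h : P ⊆ Q) {x : Fo κ m}
    (hx : x ∈ TD (κ := κ) (m := m) P) : x ∈ TD (κ := κ) (m := m) Q := TD_mono h hx

/-- `dF * ρ` is in `KK`. -/
private theorem lcc_mul_KK {d : ℕ} {F : MvPolynomial (Fin m) κ} (hF : F.IsHomogeneous d)
    {I : Set (Fin m)} {q : ℕ} {s t : ℤ} (hst : s + d = t) {ρ : Fo κ m}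
    (h1 : ρ ∈ Reg (κ := κ) I) (h2 : ρ ∈ FD (κ := κ) (m := m) q)
    (h3 : ρ ∈ TD (κ := κ) (m := m) {s}) : dd (pf F) * ρ ∈ KK F t (q + 1) I := by
  rw [mem_KK]
  refine ⟨ddpf_mul_Reg F h1, ddpf_mul_FD F h2, ?_, one_mul_self (ddpf_mem F) _⟩
  refine lcc_TD ?_ (ddpf_mul_TD hF h3)
  intro u hu
  have h4 : u - d = s := hu
  show u = t
  rw [← hst, ← h4]
  ring

omit hp [PerfectRing κ p] in
private theorem lcc_cast_ne {d j : ℕ} (hd : ¬ p ∣ d) (hj : 0 < j) (hjp : j < p) {t : ℤ}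
    (ht : t = -((j : ℤ) * d)) : (t : κ) ≠ 0 := by
  rw [ht]
  push_cast
  rw [neg_ne_zero]
  refine mul_ne_zero ?_ ?_
  · intro h
    rw [CharP.cast_eq_zero_iff κ p] at h
    exact absurd (Nat.le_of_dvd hj h) (by omega)
  · intro h
    rw [CharP.cast_eq_zero_iff κ p] at h
    exact hd h

/-- The term `F ^ j ω_j` with `0 < j < p` is exact. -/
private theorem lcc_term {d : ℕ} (hd : ¬ p ∣ d) {F : MvPolynomial (Fin m) κ}
    (hF : F.IsHomogeneous d) {I : Set (Fin m)} {q j : ℕ} (hj : 0 < j) (hjp : j < p) {ξ : Fo κ m}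
    (h1 : ξ ∈ Reg (κ := κ) I) (h2 : ξ ∈ FD (κ := κ) (m := m) q)
    (h3 : ξ ∈ TD (κ := κ) (m := m) {(d : ℤ) - j * d - d}) (h4 : dd ξ = 0) :
    ∃ y ∈ KK F d q I, pf F ^ j * (dd (pf F) * ξ) = dd y := by
  have ht : ((((d : ℤ) - j * d - d : ℤ)) : κ) ≠ 0 := lcc_cast_ne p hd hj hjp (by ring)
  set t : ℤ := (d : ℤ) - j * d - d with htd
  have he := euler h3
  rw [h4, map_zero, add_zero] at he
  set ρ : Fo κ m := ((t : κ))⁻¹ • cfe ξ with hρ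
  have hξ : ξ = dd ρ := by
    rw [hρ, map_smul, he, smul_smul, inv_mul_cancel₀ ht, one_smul]
  have hR : ρ ∈ Reg (κ := κ) I := Submodule.smul_mem _ _ (cfe_Reg h1)
  have hT : ρ ∈ TD (κ := κ) (m := m) {t} := by
    refine Submodule.smul_mem _ _ ?_
    intro e he'
    rw [cfe_coeff, h3 e he', map_zero]
  have hKK : dd (pf F) * ρ ∈ KK F (t + d) q I := by
    cases q with
    | zero =>
      have h0 : ρ = 0 := by rw [hρ, cfe_FD_zero h2, smul_zero]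
      rw [h0, mul_zero]
      exact Submodule.zero_mem _
    | succ q =>
      exact lcc_mul_KK hF rfl hR (Submodule.smul_mem _ _ (cfe_FD h2)) hT
  refine ⟨-(pf F ^ j * (dd (pf F) * ρ)), ?_, ?_⟩
  · refine Submodule.neg_mem _ ?_
    have h5 := pf_pow_KK hF j hKK
    have h6 : t + d + j * d = (d : ℤ) := by rw [htd]; ring
    rw [h6] at h5
    exact h5
  · rw [map_neg, dd_pf_pow_KK j (one_mul_self (ddpf_mem F) _), dd_ddpf_mul, mul_neg, neg_neg, ← hξ]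

theorem log_decomp {d : ℕ} (hd : ¬ p ∣ d) {F : MvPolynomial (Fin m) κ} (hF : F.IsHomogeneous d)
    (hs : Smooth F) {I : Set (Fin m)} (hI : I.Nonempty) {q : ℕ} {x : Fo κ m}
    (hx : x ∈ ZK F d (q + 1) I) :
    ∃ ξ ∈ Reg (κ := κ) I ⊓ FD q ⊓ TD {0}, dd ξ = 0 ∧
      ∃ y ∈ KK F d q I, x = dd (pf F) * ξ + dd y := by
  classical
  obtain ⟨r, hr, h⟩ := exists_vf hF hs hI
  obtain ⟨y, hy, hy'⟩ := Li_pow_closed p hr h hx
  obtain ⟨k, hk⟩ : ∃ k, p = k + 1 := Nat.exists_eq_succ_of_ne_zero hp.out.ne_zero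
  have hx' : (Li r)^[k + 1] x ∈
      (KK F ((d : ℤ) - (k + 1 : ℕ) * d) q I).map (dd : Fo κ m →ₗ[κ] Fo κ m) := by
    rw [← hk]
    exact ⟨y, hy, hy'.symm⟩
  obtain ⟨ω, hω, hsum⟩ := taylor p hF hr h k hk.ge (d : ℤ) x hx hx'
  have hsplit : ∀ j, j ≤ k → ∃ ξ ∈ Reg (κ := κ) I ⊓ FD q ⊓ TD {(d : ℤ) - j * d - d}, dd ξ = 0 ∧
      dd (pf F) * ξ = ω j := by
    intro j hj
    obtain ⟨h1, h2⟩ := hω j hj
    have h3 : (d : ℤ) - ((j + 1 : ℕ) : ℤ) * d = (d : ℤ) - j * d - d := by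
      push_cast
      ring
    rw [h3] at h2
    exact split_omega hr h h1 h2
  have hterm : ∀ j, ∃ y, y ∈ KK F d q I ∧ (0 < j → j ≤ k → pf F ^ j * ω j = dd y) := by
    intro j
    by_cases hj : 0 < j ∧ j ≤ k
    · obtain ⟨ξ, ⟨⟨h1, h2⟩, h3⟩, h4, h5⟩ := hsplit j hj.2
      obtain ⟨y, hy, hy'⟩ := lcc_term p hd hF hj.1 (by omega) h1 h2 h3 h4
      exact ⟨y, hy, fun _ _ => by rw [← h5]; exact hy'⟩
    · exact ⟨0, Submodule.zero_mem _, fun h1 h2 => absurd ⟨h1, h2⟩ hj⟩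
  choose Y hY hY' using hterm
  obtain ⟨ξ, ⟨⟨h1, h2⟩, h3⟩, h4, h5⟩ := hsplit 0 (Nat.zero_le _)
  have h6 : (d : ℤ) - (0 : ℕ) * d - d = 0 := by
    push_cast
    ring
  rw [h6] at h3
  refine ⟨ξ, ⟨⟨h1, h2⟩, h3⟩, h4, ∑ j ∈ Finset.range k, Y (j + 1),
    Submodule.sum_mem _ fun j _ => hY _, ?_⟩
  rw [hsum, Finset.sum_range_succ', pow_zero, one_mul, h5, map_sum, add_comm]
  congr 1
  refine Finset.sum_congr rfl fun j hj => ?_
  exact hY' (j + 1) (Nat.succ_pos _) (by have := Finset.mem_range.1 hj; omega)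

/-- Cartier isomorphism, injectivity. -/
theorem lc_cartier {d : ℕ} (hd : ¬ p ∣ d) {F : MvPolynomial (Fin m) κ} (hF : F.IsHomogeneous d)
    (hs : Smooth F) {I : Set (Fin m)} (hI : I.Nonempty) {q : ℕ} {x : Fo κ m}
    (hx : x ∈ ZK F d (q + 1) I) (h : Ca p (pf F ^ (p - 1) * x) = 0) : x ∈ BK F d q I := by
  obtain ⟨ξ, ⟨⟨hξ1, hξ2⟩, hξ3⟩, hξ4, y, hy, hxy⟩ := log_decomp p hd hF hs hI hx
  have hy0 : dd (pf F) * y = 0 := (mem_KK.1 hy).2.2.2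
  have hC : dd (pf F) * Ca p ξ = 0 := by
    rw [hxy, mul_add, map_add, Ca_mult p F hξ2 hξ4, Ca_F_dd p F hy0, add_zero] at h
    exact h
  have hp0 : (p : ℤ) ≠ 0 := by exact_mod_cast hp.out.ne_zero
  cases q with
  | zero =>
    obtain ⟨i, _⟩ := hI
    have h1 : Ca p ξ = 0 := kos_local_zero hF hs i (Ca_FD p hξ2) hC
    have h2 : ξ = 0 := cartier_zero p hξ2 hξ4 h1
    rw [hxy, h2, mul_zero, zero_add]
    exact ⟨y, hy, rfl⟩
  | succ q =>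
    have hT : Ca p ξ ∈ TD (κ := κ) (m := m) {0} := by
      refine lcc_TD ?_ (Ca_TD p hξ3)
      intro t ht
      have h1 : (p : ℤ) * t = 0 := ht
      exact (mul_eq_zero.1 h1).resolve_left hp0
    obtain ⟨μ, ⟨⟨hμ1, hμ2⟩, hμ3⟩, hμ4⟩ := kos_local hF hs hI
      (show Ca p ξ ∈ Reg (κ := κ) I ⊓ FD (q + 1) ⊓ TD {0} from
        ⟨⟨Ca_Reg p hξ1, Ca_FD p hξ2⟩, hT⟩) hC
    have hFμ : Fr p μ ∈ TD (κ := κ) (m := m) {-((p : ℤ) * d)} := by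
      refine lcc_TD ?_ (Fr_TD p hμ3)
      rintro t ⟨s, hs', rfl⟩
      have h1 : s + d = 0 := hs'
      show (p : ℤ) * s = -((p : ℤ) * d)
      have h2 : s = -d := by omega
      rw [h2]
      ring
    have hK := pf_pow_KK hF (p - 1) (lcc_mul_KK hF rfl (Fr_Reg p hμ1) (Fr_FD p hμ2) hFμ)
    have h6 : -((p : ℤ) * d) + d + ((p - 1 : ℕ) : ℤ) * d = 0 := by
      have h7 : ((p - 1 : ℕ) : ℤ) = (p : ℤ) - 1 := by
        have := hp.out.one_lt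
        omega
      rw [h7]
      ring
    rw [h6] at hK
    set ζ : Fo κ m := pf F ^ (p - 1) * (dd (pf F) * Fr p μ) with hζ
    have hζ1 : dd ζ = 0 := by
      rw [hζ, dd_pf_pow_KK (p - 1) (one_mul_self (ddpf_mem F) _), dd_ddpf_mul, dd_Fr, mul_zero,
        neg_zero, mul_zero]
    have hζ2 : Ca p ζ = Ca p ξ := by
      rw [hζ, ← mul_assoc, Ca_mul_Fr, Ca_pow_ddpf, hμ4]
    have hζ3 := mem_KK.1 hK
    obtain ⟨η, ⟨⟨hη1, hη2⟩, hη3⟩, hη4, _⟩ := cartier p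
      (show ξ - ζ ∈ Reg (κ := κ) I ⊓ FD (q + 1) ⊓ TD {0} from
        ⟨⟨Submodule.sub_mem _ hξ1 hζ3.1, Submodule.sub_mem _ hξ2 hζ3.2.1⟩,
          Submodule.sub_mem _ hξ3 hζ3.2.2.1⟩)
      (by rw [map_sub, hξ4, hζ1, sub_zero]) (by rw [map_sub, hζ2, sub_self])
    have h8 : dd (pf F) * ξ = dd (-(dd (pf F) * η)) := by
      rw [map_neg, dd_ddpf_mul, neg_neg, hη4, mul_sub, hζ3.2.2.2, sub_zero]
    rw [hxy, h8, ← map_add]
    refine ⟨_, Submodule.add_mem _ (Submodule.neg_mem _ ?_) hy, rfl⟩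
    exact lcc_mul_KK hF (by ring) hη1 hη2 hη3

omit hp [CharP κ p] [PerfectRing κ p] in
theorem lc_zero {d : ℕ} {F : MvPolynomial (Fin m) κ} (hF : F.IsHomogeneous d)
    (hs : Smooth F) {I : Set (Fin m)} (hI : I.Nonempty) {x : Fo κ m} (hx : x ∈ KK F d 0 I) :
    x = 0 := by
  obtain ⟨i, _⟩ := hI
  obtain ⟨_, h2, _, h4⟩ := mem_KK.1 hx
  exact kos_local_zero hF hs i h2 h4

/-- Cartier isomorphism, surjectivity. -/
theorem lc_surj {d : ℕ} {F : MvPolynomial (Fin m) κ} (hF : F.IsHomogeneous d)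
    (hs : Smooth F) {I : Set (Fin m)} (hI : I.Nonempty) {q : ℕ} {y : Fo κ m}
    (hy : y ∈ KK F d q I) : ∃ x ∈ ZK F d q I, Ca p (pf F ^ (p - 1) * x) = y := by
  cases q with
  | zero =>
    refine ⟨0, Submodule.zero_mem _, ?_⟩
    rw [lc_zero hF hs hI hy, mul_zero, map_zero]
  | succ q =>
    obtain ⟨h1, h2, h3, h4⟩ := mem_KK.1 hy
    obtain ⟨ξ, ⟨⟨hξ1, hξ2⟩, hξ3⟩, hξ4⟩ := kos_local hF hs hI
      (show y ∈ Reg (κ := κ) I ⊓ FD (q + 1) ⊓ TD {(d : ℤ)} from ⟨⟨h1, h2⟩, h3⟩) h4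
    have hT : Fr p ξ ∈ TD (κ := κ) (m := m) {0} := by
      refine lcc_TD ?_ (Fr_TD p hξ3)
      rintro t ⟨s, hs', rfl⟩
      have h5 : s + d = (d : ℤ) := hs'
      have h6 : s = 0 := by omega
      show (p : ℤ) * s = 0
      rw [h6, mul_zero]
    refine ⟨dd (pf F) * Fr p ξ, mem_ZK.2 ⟨?_, ?_⟩, ?_⟩
    · exact lcc_mul_KK hF (by ring) (Fr_Reg p hξ1) (Fr_FD p hξ2) hT
    · rw [dd_ddpf_mul, dd_Fr, mul_zero, neg_zero]
    · rw [← mul_assoc, Ca_mul_Fr, Ca_pow_ddpf, hξ4]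

end MPadcBK
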