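import Pool.Agent.Lib.MP_adc574_ag_BK.Alp
import Pool.Agent.Lib.MP_adc574_ag_BK.Kos
import Pool.Agent.Lib.MP_adc574_ag_BK.Car
import Pool.Agent.Lib.MP_adc574_ag_BK.LogCarC

/-!
# The logarithmic Cartier theorem on charts
-/

set_option autoImplicit false

namespace MPadcBK

open ExteriorAlgebra

universe u

variable {κ : Type u} [Field κ] {m : ℕ} (p : ℕ) [hp : Fact p.Prime] [CharP κ p] [PerfectRing κ p]
  {d : ℕ} {F : MvPolynomial (Fin m) κ} (hd : 1 ≤ d) (hpd : ¬ p ∣ d) (hF : F.IsHomogeneous d)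
  (hs : Smooth F)

include hd hpd hF hs

theorem log_cartier {I : Set (Fin m)} (hI : I.Nonempty) {q : ℕ} {x : Fo κ m}
    (hx : x ∈ ZK F d (q + 1) I) (h : al p F d 1 x = 0) : x ∈ BK F d q I := by
  refine lc_cartier p hpd hF hs hI hx ?_
  rw [al_KK p hd (show x ∈ KK F d (q + 1) I from hx.1), neg_eq_zero] at h
  exact h

end MPadcBK
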