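import Pool.Agent.Lib.MP_adc574_ag_BK.RegA
import Pool.Agent.Lib.MP_adc574_ag_BK.RegB

/-!
# JOB LieA: vector fields on a chart, the Lie derivative

A vector field is a family `r : Fin m → Fn κ m` (the field `∑ r_i ∂_i`), `cv r x = ∑ fn (r i) * cj i x` the contraction,
`Li r x = dd (cv r x) + cv r (dd x)` the Lie derivative.
`cv_fn_mul`: `fn` is central (`fn_mul_comm`), `cj_fn_mul` as `cj_pf_mul` (`cf_fn_mul`, `mo_mul_comm`). `cv_one_mul`: `cf_one_mul`; for `y` in `FD 1`
`cf i y` is in `FD 0`, so it is a function `fn f` (`FD_zero_iff`) and commutes with everything.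
`Li_fn`: `cv r (fn f) = 0` (`cj_FD_zero`). `Li_fn_mul`, `Li_ddfn_mul`: expand with `dd_fn_mul`, `dd_one_mul`, `cv_one_mul`, `cv_fn_mul`;
`dd (dd (fn f)) = 0`. `exists_vf`: `j ∈ I`, `X_j ^ N = ∑ a_i ∂_i F` (`Ideal.mem_span_range_iff_exists_fun`); by homogeneity take for `a_i` its homogeneous component of
degree `N + 1 - d` (if `N + 1 < d` replace `N` by a larger number first: multiply by a power of `X_j`), `r_i = x_j^{-N} a_i`.
-/

set_option autoImplicit false

namespace MPadcBK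

open ExteriorAlgebra

universe u

variable {κ : Type u} [Field κ] {m : ℕ}

/-- The contraction with the vector field `∑ r_i ∂_i`. -/
noncomputable def cv (r : Fin m → Fn κ m) (x : Fo κ m) : Fo κ m := ∑ i, fn (r i) * cj i x

/-- The Lie derivative. -/
noncomputable def Li (r : Fin m → Fn κ m) (x : Fo κ m) : Fo κ m := dd (cv r x) + cv r (dd x)

/-- Regular vector fields of degree `-t` on the chart `I`. -/
def IsVF (I : Set (Fin m)) (t : ℤ) (r : Fin m → Fn κ m) : Prop :=
  ∀ i, (fn (r i) : Fo κ m) ∈ Reg (κ := κ) I ⊓ TD {1 - t}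

theorem cv_add (r : Fin m → Fn κ m) (x y : Fo κ m) : cv r (x + y) = cv r x + cv r y := by
  unfold cv
  rw [← Finset.sum_add_distrib]
  exact Finset.sum_congr rfl fun i _ => by rw [cj_add, mul_add]

theorem cv_smul (r : Fin m → Fn κ m) (a : κ) (x : Fo κ m) : cv r (a • x) = a • cv r x := by
  unfold cv
  rw [Finset.smul_sum]
  exact Finset.sum_congr rfl fun i _ => by rw [cj_smul, mul_smul_comm]

theorem cv_neg (r : Fin m → Fn κ m) (x : Fo κ m) : cv r (-x) = - cv r x := by
  have h := cv_smul r (-1 : κ) x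
  rwa [neg_one_smul, neg_one_smul] at h

theorem cv_sub (r : Fin m → Fn κ m) (x y : Fo κ m) : cv r (x - y) = cv r x - cv r y := by
  rw [sub_eq_add_neg, cv_add, cv_neg, ← sub_eq_add_neg]

theorem cv_zero (r : Fin m → Fn κ m) : cv r 0 = 0 := by
  have h := cv_smul r (0 : κ) 0
  rwa [zero_smul, zero_smul] at h

theorem cj_fn_mul (i : Fin m) (f : Fn κ m) (x : Fo κ m) : cj i (fn f * x) = fn f * cj i x := by
  unfold cj
  rw [cf_fn_mul, ← mul_assoc, mo_mul_comm _ (fn f), mul_assoc]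

theorem cv_fn_mul (r : Fin m → Fn κ m) (f : Fn κ m) (x : Fo κ m) :
    cv r (fn f * x) = fn f * cv r x := by
  unfold cv
  rw [Finset.mul_sum]
  exact Finset.sum_congr rfl fun i _ => by
    rw [cj_fn_mul, ← mul_assoc, fn_mul_comm (r i) (fn f), mul_assoc]

theorem cv_fn (r : Fin m → Fn κ m) (f : Fn κ m) : cv r (fn f) = 0 := by
  unfold cv
  exact Finset.sum_eq_zero fun i _ => by
    rw [cj_FD_zero i (FD_zero_iff.2 ⟨f, rfl⟩), mul_zero]

private theorem liea_cj_one_mul (i : Fin m) {y : Fo κ m} (hy : y ∈ FD (κ := κ) (m := m) 1)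
    (x : Fo κ m) : cj i (y * x) = cj i y * x - y * cj i x := by
  unfold cj
  rw [cf_one_mul i hy, mul_sub, ← mul_assoc, ← mul_assoc (mo _) y, mo_mul_comm _ y, mul_assoc y]

private theorem liea_cj_sum {ι : Type*} (i : Fin m) (s : Finset ι) (f : ι → Fo κ m) :
    cj i (∑ j ∈ s, f j) = ∑ j ∈ s, cj i (f j) := by
  unfold cj
  rw [map_sum, Finset.mul_sum]

private theorem liea_cj_comm (i j : Fin m) (x : Fo κ m) : cj i (cj j x) = - cj j (cj i x) := by
  have h0 : cf i (cf j x) = - cf j (cf i x) := by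
    refine fo_ext fun e => ?_
    rw [cf_coeff, cf_coeff, AddMonoidAlgebra.coeff_neg, Finsupp.neg_apply, cf_coeff, cf_coeff]
    exact ct_comm _ _ _
  have h1 : ∀ a b : Fin m, cj a (cj b x) = mo (-Pi.single b 1) * (mo (-Pi.single a 1) * cf a (cf b x)) := by
    intro a b
    have h2 : cj b x = mo (-Pi.single b 1) * cf b x := rfl
    rw [h2, cj_mo_mul]
    rfl
  rw [h1 i j, h1 j i, h0, mul_neg, mul_neg, ← mul_assoc, ← mul_assoc, ← mo_add, ← mo_add, add_comm]

private theorem liea_sum (f : Fn κ m) : f = ∑ e ∈ f.coeff.support,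
    (AddMonoidAlgebra.single e (f.coeff e) : Fn κ m) :=
  (AddMonoidAlgebra.sum_coeff_single f).symm

private theorem liea_fn_sum (f : Fn κ m) (x : Fo κ m) : fn f * x = ∑ e ∈ f.coeff.support,
    f.coeff e • (mo e * x) := by
  have h : fn f * x = fn (∑ e ∈ f.coeff.support,
      (AddMonoidAlgebra.single e (f.coeff e) : Fn κ m)) * x :=
    congrArg (fun g => fn g * x) (liea_sum f)
  rw [h, map_sum, Finset.sum_mul]
  refine Finset.sum_congr rfl fun e _ => ?_
  rw [fn_single, smul_mul_assoc]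

private theorem liea_fn_coeff (f : Fn κ m) (e : Ex m) :
    (fn f : Fo κ m).coeff e = algebraMap κ (Lam κ m) (f.coeff e) := by
  unfold fn
  rw [AddMonoidAlgebra.coeff_mapRingHom]

private theorem liea_coeff_zero {f : Fn κ m} {e : Ex m} (h : (fn f : Fo κ m).coeff e = 0) :
    f.coeff e = 0 := by
  rw [liea_fn_coeff] at h
  exact (ExteriorAlgebra.algebraMap_eq_zero_iff (M := Fin m → κ) _).1 h

private theorem liea_fn_mul_Reg {I : Set (Fin m)} {f : Fn κ m} (hf : fn f ∈ Reg (κ := κ) I)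
    {x : Fo κ m} (hx : x ∈ Reg (κ := κ) I) : fn f * x ∈ Reg (κ := κ) I := by
  rw [liea_fn_sum]
  refine Submodule.sum_mem _ fun e he => Submodule.smul_mem _ _ (mo_mul_Reg ?_ hx)
  intro i hi
  by_contra h
  exact (Finsupp.mem_support_iff.1 he) (liea_coeff_zero ((hf e i hi).1 (not_le.1 h)))

private theorem liea_fn_mul_TD {s t : ℤ} {f : Fn κ m} (hf : fn f ∈ TD (κ := κ) (m := m) {s})
    {x : Fo κ m} (hx : x ∈ TD (κ := κ) (m := m) {t}) :
    fn f * x ∈ TD (κ := κ) (m := m) {s + t} := by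
  rw [liea_fn_sum]
  refine Submodule.sum_mem _ fun e he => Submodule.smul_mem _ _ ?_
  have h1 : tot e = s := by
    by_contra h
    exact (Finsupp.mem_support_iff.1 he) (liea_coeff_zero (hf e h))
  refine TD_mono ?_ (mo_mul_TD e hx)
  intro b hb
  have h3 : b - tot e = t := hb
  rw [Set.mem_singleton_iff]
  omega

private theorem liea_one_TD : (1 : Fo κ m) ∈ TD (κ := κ) (m := m) {0} := by
  classical
  intro e he
  have h1 : (1 : Fo κ m).coeff e = if (0 : Ex m) = e then 1 else 0 := by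
    rw [← mo_zero]
    unfold mo
    rw [AddMonoidAlgebra.coeff_single, Finsupp.single_apply]
  rw [h1, if_neg]
  rintro rfl
  exact he (by unfold tot; simp)

private theorem liea_hc {d : ℕ} (hd : 1 ≤ d) (N₀ : ℕ) {P : MvPolynomial (Fin m) κ}
    (hP : P.IsHomogeneous (d - 1)) (a : MvPolynomial (Fin m) κ) :
    MvPolynomial.homogeneousComponent (d + N₀) (a * P) =
      MvPolynomial.homogeneousComponent (N₀ + 1) a * P := by
  induction a using MvPolynomial.induction_on' with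
  | monomial u c =>
    have h1 : (MvPolynomial.monomial u c).IsHomogeneous u.degree :=
      MvPolynomial.isHomogeneous_monomial c rfl
    have h2 := h1.mul hP
    rw [MvPolynomial.homogeneousComponent_of_mem ((MvPolynomial.mem_homogeneousSubmodule _ _).2 h2),
      MvPolynomial.homogeneousComponent_of_mem ((MvPolynomial.mem_homogeneousSubmodule _ _).2 h1)]
    by_cases h : u.degree = N₀ + 1
    · rw [if_pos (by omega), if_pos h.symm]
    · rw [if_neg (by omega), if_neg (Ne.symm h), zero_mul]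
  | add p q hp hq => rw [add_mul, map_add, hp, hq, map_add, add_mul]

private theorem liea_homog {d : ℕ} {F : MvPolynomial (Fin m) κ} (hF : F.IsHomogeneous d)
    (hd : 1 ≤ d) (j : Fin m) (N₀ : ℕ) (a : Fin m → MvPolynomial (Fin m) κ)
    (ha : ∑ i, a i * MvPolynomial.pderiv i F = (MvPolynomial.X j) ^ (d + N₀)) :
    ∃ G : Fin m → MvPolynomial (Fin m) κ, (∀ i, (G i).IsHomogeneous (N₀ + 1)) ∧
      ∑ i, G i * MvPolynomial.pderiv i F = (MvPolynomial.X j) ^ (d + N₀) := by
  classical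
  refine ⟨fun i => MvPolynomial.homogeneousComponent (N₀ + 1) (a i),
    fun i => MvPolynomial.homogeneousComponent_isHomogeneous _ _, ?_⟩
  have hp : ∀ i, (MvPolynomial.pderiv i F).IsHomogeneous (d - 1) := fun i => hF.pderiv
  have h1 := congrArg (MvPolynomial.homogeneousComponent (d + N₀)) ha
  rw [map_sum] at h1
  have h2 : (MvPolynomial.X j ^ (d + N₀) : MvPolynomial (Fin m) κ).IsHomogeneous (d + N₀) :=
    MvPolynomial.isHomogeneous_X_pow j (d + N₀)
  rw [MvPolynomial.homogeneousComponent_eq_self h2] at h1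
  rw [← h1]
  exact Finset.sum_congr rfl fun i _ => (liea_hc hd N₀ (hp i) (a i)).symm

theorem cv_one_mul (r : Fin m → Fn κ m) {y : Fo κ m} (hy : y ∈ FD (κ := κ) (m := m) 1)
    (x : Fo κ m) : cv r (y * x) = cv r y * x - y * cv r x := by
  unfold cv
  rw [Finset.sum_mul, Finset.mul_sum, ← Finset.sum_sub_distrib]
  exact Finset.sum_congr rfl fun i _ => by
    rw [liea_cj_one_mul i hy, mul_sub, mul_assoc, ← mul_assoc (fn (r i)) y, fn_mul_comm (r i) y,
      mul_assoc]

theorem cv_cv (r : Fin m → Fn κ m) (x : Fo κ m) : cv r (cv r x) = 0 := by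
  have h1 : cv r (cv r x) = ∑ i, ∑ j, fn (r i) * (fn (r j) * cj i (cj j x)) := by
    have h2 : cv r (cv r x) = ∑ i, fn (r i) * cj i (cv r x) := rfl
    rw [h2]
    refine Finset.sum_congr rfl fun i _ => ?_
    have h3 : cj i (cv r x) = ∑ j, fn (r j) * cj i (cj j x) := by
      unfold cv
      rw [liea_cj_sum]
      exact Finset.sum_congr rfl fun j _ => cj_fn_mul i _ _
    rw [h3, Finset.mul_sum]
  rw [h1, ← Fintype.sum_prod_type' (f := fun i j => fn (r i) * (fn (r j) * cj i (cj j x)))]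
  refine Finset.sum_involution (fun q _ => q.swap) ?_ ?_ ?_ ?_
  · rintro ⟨i, j⟩ _
    show fn (r i) * (fn (r j) * cj i (cj j x)) + fn (r j) * (fn (r i) * cj j (cj i x)) = 0
    rw [liea_cj_comm i j, mul_neg, mul_neg, ← mul_assoc, ← mul_assoc,
      fn_mul_comm (r i) (fn (r j)), neg_add_cancel]
  · rintro ⟨i, j⟩ _ h h'
    have h2 : j = i := congrArg Prod.fst h'
    subst h2
    exact h (by rw [cj_cj, mul_zero, mul_zero])
  · exact fun _ _ => Finset.mem_univ _
  · rintro ⟨i, j⟩ _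
    rfl

theorem cv_FD (r : Fin m → Fn κ m) {q : ℕ} {x : Fo κ m} (hx : x ∈ FD (κ := κ) (m := m) (q + 1)) :
    cv r x ∈ FD (κ := κ) (m := m) q := by
  unfold cv
  exact Submodule.sum_mem _ fun i _ => fn_mul_FD _ (cj_FD i hx)

theorem cv_FD_zero (r : Fin m → Fn κ m) {x : Fo κ m} (hx : x ∈ FD (κ := κ) (m := m) 0) :
    cv r x = 0 := by
  unfold cv
  exact Finset.sum_eq_zero fun i _ => by rw [cj_FD_zero i hx, mul_zero]

theorem cv_Reg {I : Set (Fin m)} {t : ℤ} {r : Fin m → Fn κ m} (hr : IsVF I t r) {x : Fo κ m}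
    (hx : x ∈ Reg (κ := κ) I) : cv r x ∈ Reg (κ := κ) I := by
  unfold cv
  exact Submodule.sum_mem _ fun i _ => liea_fn_mul_Reg (hr i).1 (cj_Reg i hx)

theorem cv_TD {I : Set (Fin m)} {t s : ℤ} {r : Fin m → Fn κ m} (hr : IsVF I t r) {x : Fo κ m}
    (hx : x ∈ TD (κ := κ) (m := m) {s}) : cv r x ∈ TD (κ := κ) (m := m) {s - t} := by
  unfold cv
  refine Submodule.sum_mem _ fun i _ => ?_
  have h1 : cj i x ∈ TD (κ := κ) (m := m) {s - 1} := by
    refine TD_mono ?_ (cj_TD i hx)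
    intro a ha
    rw [Set.mem_singleton_iff]
    have h2 : a + 1 = s := ha
    omega
  have h2 := liea_fn_mul_TD (hr i).2 h1
  have h3 : 1 - t + (s - 1) = s - t := by ring
  rwa [h3] at h2

/-- Functions are closed under multiplication by regular functions. -/
theorem fn_mul_Reg {I : Set (Fin m)} {f : Fn κ m} (hf : fn f ∈ Reg (κ := κ) I) {x : Fo κ m}
    (hx : x ∈ Reg (κ := κ) I) : fn f * x ∈ Reg (κ := κ) I := by
  exact liea_fn_mul_Reg hf hx

theorem fn_mul_TD {s t : ℤ} {f : Fn κ m} (hf : fn f ∈ TD (κ := κ) (m := m) {s}) {x : Fo κ m}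
    (hx : x ∈ TD (κ := κ) (m := m) {t}) : fn f * x ∈ TD (κ := κ) (m := m) {s + t} := by
  exact liea_fn_mul_TD hf hx

theorem Li_add (r : Fin m → Fn κ m) (x y : Fo κ m) : Li r (x + y) = Li r x + Li r y := by
  unfold Li
  rw [cv_add, map_add, map_add, cv_add]
  abel

theorem Li_smul (r : Fin m → Fn κ m) (a : κ) (x : Fo κ m) : Li r (a • x) = a • Li r x := by
  unfold Li
  rw [cv_smul, map_smul, map_smul, cv_smul, smul_add]

theorem dd_Li (r : Fin m → Fn κ m) (x : Fo κ m) : dd (Li r x) = Li r (dd x) := by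
  unfold Li
  rw [map_add, dd_dd, dd_dd, cv_zero, zero_add, add_zero]

theorem Li_fn (r : Fin m → Fn κ m) (f : Fn κ m) : Li r (fn f) = cv r (dd (fn f)) := by
  unfold Li
  rw [cv_fn, map_zero, zero_add]

theorem Li_fn_mem (r : Fin m → Fn κ m) (f : Fn κ m) : ∃ g : Fn κ m, Li r (fn f) = fn g := by
  rw [Li_fn]
  exact FD_zero_iff.1 (cv_FD r (ddfn_mem f))

theorem Li_fn_mul (r : Fin m → Fn κ m) (f : Fn κ m) (x : Fo κ m) :
    Li r (fn f * x) = Li r (fn f) * x + fn f * Li r x := by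
  rw [Li_fn]
  unfold Li
  rw [cv_fn_mul, dd_fn_mul, dd_fn_mul, cv_add, cv_one_mul r (ddfn_mem f), cv_fn_mul, mul_add]
  abel

theorem Li_ddfn_mul (r : Fin m → Fn κ m) (f : Fn κ m) (x : Fo κ m) :
    Li r (dd (fn f) * x) = dd (Li r (fn f)) * x + dd (fn f) * Li r x := by
  obtain ⟨g, hg⟩ := Li_fn_mem r f
  have hg2 : cv r (dd (fn f)) = fn g := by rw [← Li_fn]; exact hg
  have h1 : Li r (dd (fn f) * x) = dd (cv r (dd (fn f) * x)) + cv r (dd (dd (fn f) * x)) := rfl
  have h2 : Li r x = dd (cv r x) + cv r (dd x) := rfl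
  rw [h1, h2, hg, cv_one_mul r (ddfn_mem f), hg2, map_sub, dd_fn_mul, dd_one_mul (ddfn_mem f),
    dd_one_mul (ddfn_mem f), dd_dd, zero_mul, zero_mul, zero_sub, zero_sub, cv_neg,
    cv_one_mul r (ddfn_mem f), hg2, mul_add]
  abel

theorem Li_Reg {I : Set (Fin m)} {t : ℤ} {r : Fin m → Fn κ m} (hr : IsVF I t r) {x : Fo κ m}
    (hx : x ∈ Reg (κ := κ) I) : Li r x ∈ Reg (κ := κ) I := by
  exact Submodule.add_mem _ (dd_Reg (cv_Reg hr hx)) (cv_Reg hr (dd_Reg hx))

theorem Li_TD {I : Set (Fin m)} {t s : ℤ} {r : Fin m → Fn κ m} (hr : IsVF I t r) {x : Fo κ m}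
    (hx : x ∈ TD (κ := κ) (m := m) {s}) : Li r x ∈ TD (κ := κ) (m := m) {s - t} := by
  exact Submodule.add_mem _ (dd_TD (cv_TD hr hx)) (cv_TD hr (dd_TD hx))

theorem Li_FD (r : Fin m → Fn κ m) {q : ℕ} {x : Fo κ m} (hx : x ∈ FD (κ := κ) (m := m) q) :
    Li r x ∈ FD (κ := κ) (m := m) q := by
  unfold Li
  refine Submodule.add_mem _ ?_ (cv_FD r (dd_FD hx))
  cases q with
  | zero =>
    rw [cv_FD_zero r hx, map_zero]
    exact Submodule.zero_mem _
  | succ q => exact dd_FD (cv_FD r hx)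

/-- On a nonempty chart there is a regular vector field `r` of degree `-d` with `r F = 1`. -/
theorem exists_vf {d : ℕ} {F : MvPolynomial (Fin m) κ} (hF : F.IsHomogeneous d) (hs : Smooth F)
    {I : Set (Fin m)} (hI : I.Nonempty) :
    ∃ r : Fin m → Fn κ m, IsVF I d r ∧ cv r (dd (pf F)) = 1 := by
  classical
  obtain ⟨j, hj⟩ := hI
  obtain ⟨N₀, hN₀⟩ := hs j
  have hN : (MvPolynomial.X j : MvPolynomial (Fin m) κ) ^ (d + N₀) ∈
      Ideal.span (Set.range fun j => MvPolynomial.pderiv j F) := by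
    rw [pow_add]
    exact Ideal.mul_mem_left _ _ hN₀
  have hd : 1 ≤ d := by
    by_contra hd
    have hd0 : d = 0 := by omega
    subst hd0
    have h1 : ∀ i, MvPolynomial.pderiv i F = 0 := by
      intro i
      have h2 : F = MvPolynomial.C (F.coeff 0) :=
        MvPolynomial.totalDegree_eq_zero_iff_eq_C.1 (Nat.le_zero.1 hF.totalDegree_le)
      rw [h2, MvPolynomial.pderiv_C]
    have h3 : Ideal.span (Set.range fun j => MvPolynomial.pderiv j F) =
        (⊥ : Ideal (MvPolynomial (Fin m) κ)) := by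
      rw [Ideal.span_eq_bot]
      rintro _ ⟨i, rfl⟩
      exact h1 i
    rw [h3, Ideal.mem_bot] at hN
    exact pow_ne_zero _ (MvPolynomial.X_ne_zero j) hN
  obtain ⟨a, ha⟩ := Ideal.mem_span_range_iff_exists_fun.1 hN
  obtain ⟨G, hG1, hG2⟩ := liea_homog hF hd j N₀ a ha
  set u : Fin m →₀ ℕ := Finsupp.single j (d + N₀) with hu
  have htot : tot (-ex u) = -((d + N₀ : ℕ) : ℤ) := by
    unfold tot ex
    rw [show (∑ i, (-fun i => ((u i : ℕ) : ℤ)) i) = -∑ i, ((u i : ℕ) : ℤ) by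
      rw [← Finset.sum_neg_distrib]; rfl]
    rw [Finset.sum_eq_single j]
    · rw [hu, Finsupp.single_eq_same]
    · intro i _ hi
      rw [hu, Finsupp.single_eq_of_ne hi, Nat.cast_zero]
    · intro h
      exact absurd (Finset.mem_univ j) h
  have hfn : ∀ i, (fn ((AddMonoidAlgebra.single (-ex u) 1 : Fn κ m) * pl (G i)) : Fo κ m) =
      mo (-ex u) * pf (G i) := by
    intro i
    rw [map_mul, fn_single, one_smul]
    rfl
  refine ⟨fun i => (AddMonoidAlgebra.single (-ex u) 1 : Fn κ m) * pl (G i), ?_, ?_⟩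
  · intro i
    rw [hfn i]
    refine ⟨mo_mul_Reg ?_ (pf_Reg _), ?_⟩
    · intro k hk
      have hkj : k ≠ j := by
        rintro rfl
        exact hk hj
      have h1 : (-ex u) k = 0 := by
        show -((u k : ℕ) : ℤ) = 0
        rw [hu, Finsupp.single_eq_of_ne hkj, Nat.cast_zero, neg_zero]
      rw [h1]
    · have h1 : (pf (G i) : Fo κ m) ∈ TD (κ := κ) (m := m) {((N₀ + 1 : ℕ) : ℤ)} := by
        have h2 := pf_mul_TD (hG1 i) (x := (1 : Fo κ m)) (P := {0}) liea_one_TD
        rw [mul_one] at h2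
        refine TD_mono ?_ h2
        intro b hb
        have h3 : b - ((N₀ + 1 : ℕ) : ℤ) = 0 := hb
        rw [Set.mem_singleton_iff]
        omega
      refine TD_mono ?_ (mo_mul_TD (-ex u) h1)
      intro b hb
      have h3 : b - tot (-ex u) = ((N₀ + 1 : ℕ) : ℤ) := hb
      rw [htot] at h3
      rw [Set.mem_singleton_iff]
      push_cast at h3
      omega
  · have h1 : ∀ i, cj i (dd (pf F)) = (pf (MvPolynomial.pderiv i F) : Fo κ m) := by
      intro i
      have h2 := cj_ddpf_mul i F (1 : Fo κ m)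
      have h3 : cj i (1 : Fo κ m) = 0 :=
        cj_FD_zero i (FD_zero_iff.2 ⟨1, (map_one fn).symm⟩)
      rw [h3, mul_zero, sub_zero, mul_one, mul_one] at h2
      exact h2
    unfold cv
    have h4 : (∑ i, fn ((AddMonoidAlgebra.single (-ex u) 1 : Fn κ m) * pl (G i)) *
        cj i (dd (pf F : Fo κ m))) = mo (-ex u) * pf (∑ i, G i * MvPolynomial.pderiv i F) := by
      rw [pf_sum, Finset.mul_sum]
      refine Finset.sum_congr rfl fun i _ => ?_
      rw [hfn i, h1 i, pf_mul, mul_assoc]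
    rw [h4, hG2, MvPolynomial.X_pow_eq_monomial]
    have h5 : (pf (MvPolynomial.monomial (Finsupp.single j (d + N₀)) (1 : κ)) : Fo κ m) = mo (ex u) := by
      rw [pf, pl_monomial, fn_single, one_smul]
    rw [h5, ← mo_add, neg_add_cancel, mo_zero]

end MPadcBK
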