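import Pool.Agent.Lib.MP_adc574_ag_BK.LieA

/-!
# JOB LieB: iterates of the Lie derivative, the `p`-th power of a derivation is a derivation

`(Li r)^[k]` = the `k`-th iterate (`Function.iterate_succ_apply'`, `Function.iterate_add_apply`).
* `Li_pow_fn_mul`, `Li_pow_ddfn_mul`: prove by induction on `k` the Leibniz formulas
  `(Li r)^[k] (fn f * x) = ∑ ij ∈ antidiagonal k, (k.choose ij.1) • ((Li r)^[ij.1] (fn f) * (Li r)^[ij.2] x)` and
  `(Li r)^[k] (dd (fn f) * x) = ∑ ij ∈ antidiagonal k, (k.choose ij.1) • (dd ((Li r)^[ij.1] (fn f)) * (Li r)^[ij.2] x)`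
  (`Finset.sum_antidiagonal_choose_succ_nsmul`; every `(Li r)^[j] (fn f)` is again a function `fn g` by `Li_iter_fn_mem`, so `Li_fn_mul`, `Li_ddfn_mul` apply to it);
  for `k = p` the binomial coefficients with `0 < ij.1 < p` vanish in `κ` (`Nat.Prime.dvd_choose_self`, `CharP.cast_eq_zero_iff`).
* `ext_op`: the set of `f` with `A (fn f) = 0` contains `1`, the `single (Pi.single i 1) 1` (`pf (X i) = fn (single (Pi.single i 1) 1)`), is closed under products and linear
  combinations; if `f g = 1` and `A (fn f) = 0` then `0 = A 1 = fn f * A (fn g)` and `A (fn g) = fn g * (fn f * A (fn g)) = 0`: so it contains the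
  `single (-Pi.single i 1) 1`, hence all `single e 1` (induction: the `e` with this property form a subgroup of `Ex m` containing the `Pi.single i 1`), hence everything. Then the set of
  `x` with `A x = 0` is closed under `x ↦ fn f * x` and `x ↦ dd (fn f) * x`; `mo (-e) * dd (mo e)` is `single 0 (ι (bar e))`, so it contains
  `single e (ι v1 * (ι v2 * ...))` for all `e`, `v`: by `CliffordAlgebra.left_induction` (for `y : Lam κ m`, all `single e y`): `single e (ι v * y) = ∑ i, v i • fn (single (-Pi.single i 1) 1) *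
  (dd (fn (single (Pi.single i 1) 1)) * single e y)`.
* `exists_vf_p`: `s i` with `fn (s i) = (Li r)^[p] (pf (X i))` (`Li_iter_fn_mem`). Apply `ext_op` to `A x = (Li r)^[p] x - Li s x` (a linear map by `Li_iter_add`, ...):
  `A 1 = 0` (`Li r 1 = 0`, `cv r (dd 1) = 0`), `Li s (pf (X i)) = cv s (dd (pf (X i))) = ∑ j, fn (s j) * cj j (dd (pf (X i))) = fn (s i)` (`cj j (dd (pf (X i)))` is `1` if
  `j = i`, else `0`: `cj_ddpf_mul` with `x = 1` and `MvPolynomial.pderiv_X`). `IsVF`: `Li_iter_Reg`, `Li_iter_TD` with `pf (X i) ∈ Reg I ⊓ TD {1}`.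
* `cv_s`: `cv s (dd (pf F)) = Li s (pf F) = (Li r)^[p] (pf F) = (Li r)^[p - 1] 1 = 0` (`p - 1 ≥ 1`, `Li r (pf F) = 1`, `Li r 1 = 0`).
* `Li_pow_closed`: `(Li r)^[p] x = Li s x = dd (cv s x) + cv s (dd x)`; `dF * cv s x = cv s (dF) * x - cv s (dF * x) = 0` (`cv_one_mul`).
-/

set_option autoImplicit false

namespace MPadcBK

open ExteriorAlgebra

universe u

variable {κ : Type u} [Field κ] {m : ℕ}

theorem Li_zero (r : Fin m → Fn κ m) : Li r 0 = 0 := by
  have h := Li_smul r (0 : κ) (0 : Fo κ m)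
  rw [zero_smul, zero_smul] at h
  exact h

theorem Li_neg (r : Fin m → Fn κ m) (x : Fo κ m) : Li r (-x) = - Li r x := by
  have h := Li_smul r (-1 : κ) x
  rw [neg_one_smul, neg_one_smul] at h
  exact h

theorem Li_sub (r : Fin m → Fn κ m) (x y : Fo κ m) : Li r (x - y) = Li r x - Li r y := by
  rw [sub_eq_add_neg, Li_add, Li_neg, ← sub_eq_add_neg]

theorem Li_one (r : Fin m → Fn κ m) : Li r 1 = 0 := by
  have h := Li_fn_mul r 1 (1 : Fo κ m)
  rw [map_one, mul_one, mul_one, one_mul] at h
  exact left_eq_add.mp h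

theorem Li_iter_add (r : Fin m → Fn κ m) (k : ℕ) (x y : Fo κ m) :
    (Li r)^[k] (x + y) = (Li r)^[k] x + (Li r)^[k] y := by
  induction k with
  | zero => rfl
  | succ k ih =>
    rw [Function.iterate_succ_apply', Function.iterate_succ_apply', Function.iterate_succ_apply',
      ih, Li_add]

theorem Li_iter_sub (r : Fin m → Fn κ m) (k : ℕ) (x y : Fo κ m) :
    (Li r)^[k] (x - y) = (Li r)^[k] x - (Li r)^[k] y := by
  induction k with
  | zero => rfl
  | succ k ih =>
    rw [Function.iterate_succ_apply', Function.iterate_succ_apply', Function.iterate_succ_apply',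
      ih, Li_sub]

theorem Li_iter_smul (r : Fin m → Fn κ m) (k : ℕ) (a : κ) (x : Fo κ m) :
    (Li r)^[k] (a • x) = a • (Li r)^[k] x := by
  induction k with
  | zero => rfl
  | succ k ih =>
    rw [Function.iterate_succ_apply', Function.iterate_succ_apply', ih, Li_smul]

theorem dd_Li_iter (r : Fin m → Fn κ m) (k : ℕ) (x : Fo κ m) :
    dd ((Li r)^[k] x) = (Li r)^[k] (dd x) := by
  induction k with
  | zero => rfl
  | succ k ih =>
    rw [Function.iterate_succ_apply', Function.iterate_succ_apply', dd_Li, ih]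

theorem Li_iter_fn_mem (r : Fin m → Fn κ m) (k : ℕ) (f : Fn κ m) :
    ∃ g : Fn κ m, (Li r)^[k] (fn f) = fn g := by
  induction k with
  | zero => exact ⟨f, rfl⟩
  | succ k ih =>
    obtain ⟨g, hg⟩ := ih
    rw [Function.iterate_succ_apply', hg]
    exact Li_fn_mem r g

theorem Li_iter_Reg {I : Set (Fin m)} {t : ℤ} {r : Fin m → Fn κ m} (hr : IsVF I t r) (k : ℕ)
    {x : Fo κ m} (hx : x ∈ Reg (κ := κ) I) : (Li r)^[k] x ∈ Reg (κ := κ) I := by
  induction k with
  | zero => exact hx
  | succ k ih =>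
    rw [Function.iterate_succ_apply']
    exact Li_Reg hr ih

theorem Li_iter_TD {I : Set (Fin m)} {t s : ℤ} {r : Fin m → Fn κ m} (hr : IsVF I t r) (k : ℕ)
    {x : Fo κ m} (hx : x ∈ TD (κ := κ) (m := m) {s}) :
    (Li r)^[k] x ∈ TD (κ := κ) (m := m) {s - k * t} := by
  induction k with
  | zero =>
    rw [Nat.cast_zero, zero_mul, sub_zero]
    exact hx
  | succ k ih =>
    rw [Function.iterate_succ_apply']
    have h1 : s - ((k + 1 : ℕ) : ℤ) * t = s - (k : ℤ) * t - t := by
      push_cast
      ring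
    rw [h1]
    exact Li_TD hr ih

theorem Li_iter_FD (r : Fin m → Fn κ m) (k : ℕ) {q : ℕ} {x : Fo κ m}
    (hx : x ∈ FD (κ := κ) (m := m) q) : (Li r)^[k] x ∈ FD (κ := κ) (m := m) q := by
  induction k with
  | zero => exact hx
  | succ k ih =>
    rw [Function.iterate_succ_apply']
    exact Li_FD r ih

private theorem lieB_pfX (i : Fin m) :
    (pf (MvPolynomial.X i) : Fo κ m) = mo (Pi.single i 1) := by
  unfold pf pl
  rw [MvPolynomial.aeval_X, fn_single, one_smul]

private theorem lieB_dd_mo (e : Ex m) :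
    dd (mo e : Fo κ m) = AddMonoidAlgebra.single e (ι κ (bar κ e)) := by
  refine fo_ext fun e' => ?_
  unfold mo
  rw [dd_coeff, AddMonoidAlgebra.coeff_single, AddMonoidAlgebra.coeff_single]
  by_cases h : e' = e
  · subst h
    rw [Finsupp.single_eq_same, Finsupp.single_eq_same, mul_one]
  · rw [Finsupp.single_eq_of_ne h, Finsupp.single_eq_of_ne h, mul_zero]

private theorem lieB_bar (i : Fin m) : bar κ (Pi.single i 1 : Ex m) = Pi.single i 1 := by
  funext j
  unfold bar
  by_cases h : j = i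
  · subst h
    rw [Pi.single_eq_same, Pi.single_eq_same, Int.cast_one]
  · rw [Pi.single_eq_of_ne h, Pi.single_eq_of_ne h, Int.cast_zero]

private theorem lieB_single (e : Ex m) (v : Fin m → κ) (y : Lam κ m) :
    (AddMonoidAlgebra.single e (ι κ v * y) : Fo κ m) = ∑ i, v i •
      (fn (AddMonoidAlgebra.single (-Pi.single i 1) 1) *
        (dd (fn (AddMonoidAlgebra.single (Pi.single i 1) 1)) * AddMonoidAlgebra.single e y)) := by
  have h1 : ∀ i : Fin m, (fn (AddMonoidAlgebra.single (-Pi.single i 1) 1) *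
        (dd (fn (AddMonoidAlgebra.single (Pi.single i 1) 1)) * AddMonoidAlgebra.single e y) :
          Fo κ m) = AddMonoidAlgebra.single e (ι κ (Pi.single i 1) * y) := by
    intro i
    rw [fn_single, fn_single, one_smul, one_smul, lieB_dd_mo, lieB_bar, mo,
      AddMonoidAlgebra.single_mul_single, AddMonoidAlgebra.single_mul_single, one_mul,
      neg_add_cancel_left]
  have h2 : ι κ v = ∑ i, v i • ι κ (Pi.single i (1 : κ) : Fin m → κ) := by
    have h3 : v = ∑ i, v i • (Pi.single i (1 : κ) : Fin m → κ) := by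
      have h4 := (Finset.univ_sum_single v).symm
      rw [h4]
      refine Finset.sum_congr rfl fun i _ => ?_
      rw [← h4, ← Pi.single_smul, smul_eq_mul, mul_one]
    conv_lhs => rw [h3]
    rw [map_sum]
    refine Finset.sum_congr rfl fun i _ => ?_
    rw [map_smul]
  rw [h2, Finset.sum_mul]
  have h5 : (AddMonoidAlgebra.single e (∑ i, (v i • ι κ (Pi.single i (1 : κ) : Fin m → κ)) * y) :
      Fo κ m) = ∑ i, AddMonoidAlgebra.single e ((v i • ι κ (Pi.single i (1 : κ) : Fin m → κ)) * y) :=
    map_sum (AddMonoidAlgebra.singleAddHom e) _ _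
  rw [h5]
  refine Finset.sum_congr rfl fun i _ => ?_
  rw [h1, AddMonoidAlgebra.smul_single, smul_mul_assoc]

/-- A linear operator which is a derivation with respect to the products with functions and exact
1-forms and which kills the coordinates is `0`. -/
theorem ext_op (A : Fo κ m →ₗ[κ] Fo κ m) (h1 : A 1 = 0)
    (hX : ∀ i, A (pf (MvPolynomial.X i)) = 0)
    (hf : ∀ (f : Fn κ m) (x : Fo κ m), A (fn f * x) = A (fn f) * x + fn f * A x)
    (hd : ∀ (f : Fn κ m) (x : Fo κ m),
      A (dd (fn f) * x) = dd (A (fn f)) * x + dd (fn f) * A x) (x : Fo κ m) : A x = 0 := by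
  have hmo : ∀ e : Ex m, (mo e : Fo κ m) = fn (AddMonoidAlgebra.single e 1) := fun e => by
    rw [fn_single, one_smul]
  have hadd : ∀ a b : Ex m, A (mo a) = 0 → A (mo b) = 0 → A (mo (a + b)) = 0 := by
    intro a b ha hb
    rw [mo_add, hmo a, hf, ← hmo a, ha, hb, zero_mul, mul_zero, add_zero]
  have hneg : ∀ a : Ex m, A (mo a) = 0 → A (mo (-a)) = 0 := by
    intro a ha
    have h2 : A (mo a * mo (-a)) = mo a * A (mo (-a)) := by
      rw [hmo a, hf, ← hmo a, ha, zero_mul, zero_add]
    rw [← mo_add, add_neg_cancel, mo_zero, h1] at h2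
    rw [← mo_neg_mul a (A (mo (-a))), ← h2, mul_zero]
  let S : AddSubgroup (Ex m) :=
    { carrier := {e | A (mo e) = 0}
      add_mem' := fun {a b} ha hb => hadd a b ha hb
      zero_mem' := by
        change A (mo 0) = 0
        rw [mo_zero, h1]
      neg_mem' := fun {a} ha => hneg a ha }
  have hS : ∀ e : Ex m, e ∈ S := by
    intro e
    rw [← Finset.univ_sum_single e]
    refine S.sum_mem fun i _ => ?_
    have h2 : (Pi.single i (e i) : Ex m) = e i • Pi.single i (1 : ℤ) := by
      rw [← Pi.single_smul, smul_eq_mul, mul_one]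
    rw [h2]
    refine S.zsmul_mem ?_ (e i)
    change A (mo (Pi.single i 1)) = 0
    rw [← lieB_pfX]
    exact hX i
  have hF : ∀ f : Fn κ m, A (fn f) = 0 := by
    intro f
    induction f using AddMonoidAlgebra.induction_linear with
    | zero => rw [map_zero, map_zero]
    | add f g h2 h3 => rw [map_add, map_add, h2, h3, add_zero]
    | single e a =>
      rw [fn_single, map_smul]
      have h2 : A (mo e) = 0 := hS e
      rw [h2, smul_zero]
  have hf' : ∀ (f : Fn κ m) (y : Fo κ m), A (fn f * y) = fn f * A y := fun f y => by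
    rw [hf, hF, zero_mul, zero_add]
  have hd' : ∀ (f : Fn κ m) (y : Fo κ m), A (dd (fn f) * y) = dd (fn f) * A y := fun f y => by
    rw [hd, hF, map_zero, zero_mul, zero_add]
  have hL : ∀ (y : Lam κ m) (e : Ex m), A (AddMonoidAlgebra.single e y) = 0 := by
    intro y
    induction y using CliffordAlgebra.left_induction with
    | algebraMap a =>
      intro e
      have h2 : (AddMonoidAlgebra.single e (algebraMap κ (Lam κ m) a) : Fo κ m) =
          fn (AddMonoidAlgebra.single e a) := by
        rw [fn_single, mo, AddMonoidAlgebra.smul_single, Algebra.algebraMap_eq_smul_one]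
      exact (congrArg A h2).trans (hF _)
    | add x y hx hy =>
      intro e
      rw [AddMonoidAlgebra.single_add, map_add, hx e, hy e, add_zero]
    | ι_mul y v hy =>
      intro e
      have h2 : (AddMonoidAlgebra.single e (ι κ v * y) : Fo κ m) = ∑ i, v i •
          (fn (AddMonoidAlgebra.single (-Pi.single i 1) 1) *
            (dd (fn (AddMonoidAlgebra.single (Pi.single i 1) 1)) * AddMonoidAlgebra.single e y)) :=
        lieB_single e v y
      refine (congrArg A h2).trans ?_
      rw [map_sum]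
      refine Finset.sum_eq_zero fun i _ => ?_
      rw [map_smul, hf', hd', hy e, mul_zero, mul_zero, smul_zero]
  induction x using AddMonoidAlgebra.induction_linear with
  | zero => exact map_zero A
  | add x y hx hy => rw [map_add, hx, hy, add_zero]
  | single e y => exact hL y e

section

variable (p : ℕ) [Fact p.Prime] [CharP κ p]

private theorem lieB_leib (r : Fin m → Fn κ m) (g : ℕ → Fo κ m)
    (hg : ∀ j y, Li r (g j * y) = g (j + 1) * y + g j * Li r y) (x : Fo κ m) (k : ℕ) :
    (Li r)^[k] (g 0 * x) =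
      ∑ ij ∈ Finset.HasAntidiagonal.antidiagonal k, k.choose ij.1 • (g ij.1 * (Li r)^[ij.2] x) := by
  induction k with
  | zero =>
    rw [Finset.Nat.antidiagonal_zero, Finset.sum_singleton]
    simp
  | succ k ih =>
    have hn : ∀ (n : ℕ) (y : Fo κ m), Li r (n • y) = n • Li r y := by
      intro n y
      rw [← Nat.cast_smul_eq_nsmul κ, Li_smul, Nat.cast_smul_eq_nsmul κ]
    have hsum : ∀ (s : Finset (ℕ × ℕ)) (u : ℕ × ℕ → Fo κ m),
        Li r (∑ ij ∈ s, u ij) = ∑ ij ∈ s, Li r (u ij) := by
      classical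
      intro s u
      induction s using Finset.induction_on with
      | empty => rw [Finset.sum_empty, Finset.sum_empty, Li_zero]
      | insert a s ha ih2 => rw [Finset.sum_insert ha, Finset.sum_insert ha, Li_add, ih2]
    rw [Function.iterate_succ_apply', ih, hsum,
      Finset.sum_antidiagonal_choose_succ_nsmul (fun i j => g i * (Li r)^[j] x) k,
      ← Finset.sum_add_distrib]
    refine Finset.sum_congr rfl fun ij hij => ?_
    have h1 : k.choose ij.2 = k.choose ij.1 :=
      Nat.choose_symm_of_eq_add (by rw [← Finset.HasAntidiagonal.mem_antidiagonal.1 hij, add_comm])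
    rw [hn, hg, h1, Function.iterate_succ_apply', smul_add, add_comm]

private theorem lieB_pow (r : Fin m → Fn κ m) (g : ℕ → Fo κ m)
    (hg : ∀ j y, Li r (g j * y) = g (j + 1) * y + g j * Li r y) (x : Fo κ m) :
    (Li r)^[p] (g 0 * x) = g p * x + g 0 * (Li r)^[p] x := by
  have hp : p.Prime := Fact.out
  rw [lieB_leib r g hg x p]
  rw [Finset.sum_eq_add_of_mem ((p, 0) : ℕ × ℕ) ((0, p) : ℕ × ℕ)]
  · rw [Nat.choose_self, Nat.choose_zero_right, one_smul, one_smul]
    rfl
  · rw [Finset.HasAntidiagonal.mem_antidiagonal, add_zero]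
  · rw [Finset.HasAntidiagonal.mem_antidiagonal, zero_add]
  · intro h
    exact hp.ne_zero (congrArg Prod.fst h)
  · rintro ⟨i, j⟩ hij ⟨h1, h2⟩
    rw [Finset.HasAntidiagonal.mem_antidiagonal] at hij
    have hij' : i + j = p := hij
    have hi0 : i ≠ 0 := by
      rintro rfl
      exact h2 (by rw [← hij', zero_add])
    have hip : i < p := by
      rcases Nat.lt_or_ge i p with h | h
      · exact h
      · exfalso
        have hj : j = 0 := by omega
        have hi : i = p := by omega
        exact h1 (by rw [hj, hi])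
    have h3 : ((p.choose i : ℕ) : κ) = 0 :=
      (CharP.cast_eq_zero_iff κ p _).2 (hp.dvd_choose_self hi0 hip)
    change p.choose i • _ = _
    rw [← Nat.cast_smul_eq_nsmul κ, h3, zero_smul]

theorem Li_pow_fn_mul (r : Fin m → Fn κ m) (f : Fn κ m) (x : Fo κ m) :
    (Li r)^[p] (fn f * x) = (Li r)^[p] (fn f) * x + fn f * (Li r)^[p] x := by
  have h := lieB_pow p r (fun j => (Li r)^[j] (fn f)) (fun j y => by
    obtain ⟨g, hg⟩ := Li_iter_fn_mem r j f
    simp only [Function.iterate_succ_apply']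
    rw [hg, Li_fn_mul]) x
  exact h

theorem Li_pow_ddfn_mul (r : Fin m → Fn κ m) (f : Fn κ m) (x : Fo κ m) :
    (Li r)^[p] (dd (fn f) * x) = dd ((Li r)^[p] (fn f)) * x + dd (fn f) * (Li r)^[p] x := by
  have h := lieB_pow p r (fun j => dd ((Li r)^[j] (fn f))) (fun j y => by
    obtain ⟨g, hg⟩ := Li_iter_fn_mem r j f
    simp only [Function.iterate_succ_apply']
    rw [hg, Li_ddfn_mul]) x
  exact h

private theorem lieB_iter_zero (r : Fin m → Fn κ m) (k : ℕ) : (Li r)^[k] 0 = 0 := by
  induction k with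
  | zero => rfl
  | succ k ih => rw [Function.iterate_succ_apply', ih, Li_zero]

omit [CharP κ p] in
private theorem lieB_iter_one (r : Fin m → Fn κ m) : (Li r)^[p] 1 = 0 := by
  have hp : p.Prime := Fact.out
  obtain ⟨k, rfl⟩ := Nat.exists_eq_succ_of_ne_zero hp.ne_zero
  rw [Function.iterate_succ_apply, Li_one, lieB_iter_zero]

/-- In characteristic `p` the `p`-th iterate of the Lie derivative along `r` is the Lie derivative
along the field `r ^ p`. -/
theorem exists_vf_p {I : Set (Fin m)} {t : ℤ} {r : Fin m → Fn κ m} (hr : IsVF I t r) :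
    ∃ s : Fin m → Fn κ m, IsVF I (p * t) s ∧ ∀ x, (Li r)^[p] x = Li s x := by
  classical
  have h1 : ∀ i : Fin m, ∃ g : Fn κ m, (Li r)^[p] (pf (MvPolynomial.X i)) = fn g := fun i =>
    Li_iter_fn_mem r p (pl (MvPolynomial.X i))
  choose s hs using h1
  have hcj : ∀ i j : Fin m, cj j (dd (pf (MvPolynomial.X i) : Fo κ m)) =
      if i = j then 1 else 0 := by
    intro i j
    have h2 := cj_ddpf_mul j (MvPolynomial.X i) (1 : Fo κ m)
    have h3 : cj j (1 : Fo κ m) = 0 := cj_FD_zero j (FD_zero_iff.2 ⟨1, (map_one fn).symm⟩)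
    rw [mul_one, mul_one, h3, mul_zero, sub_zero, MvPolynomial.pderiv_X] at h2
    rw [h2]
    by_cases h : i = j
    · subst h
      rw [Pi.single_eq_same, pf_one, if_pos rfl]
    · rw [Pi.single_eq_of_ne h, pf_zero, if_neg h]
  refine ⟨s, ?_, ?_⟩
  · intro i
    rw [← hs i]
    refine ⟨Li_iter_Reg hr p (pf_Reg _), Li_iter_TD hr p ?_⟩
    intro e he
    rw [lieB_pfX, mo, AddMonoidAlgebra.coeff_single]
    refine Finsupp.single_eq_of_ne ?_
    rintro rfl
    apply he
    rw [Set.mem_singleton_iff]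
    unfold tot
    simp
  · intro x
    let A : Fo κ m →ₗ[κ] Fo κ m :=
      { toFun := fun x => (Li r)^[p] x - Li s x
        map_add' := fun x y => by
          rw [Li_iter_add, Li_add]
          abel
        map_smul' := fun a x => by
          rw [Li_iter_smul, Li_smul, RingHom.id_apply, smul_sub] }
    have hA : ∀ x, A x = (Li r)^[p] x - Li s x := fun x => rfl
    have h0 : A x = 0 := by
      refine ext_op A ?_ ?_ ?_ ?_ x
      · rw [hA, Li_one, lieB_iter_one p r, sub_zero]
      · intro i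
        rw [hA, hs i]
        have h2 : Li s (pf (MvPolynomial.X i)) = fn (s i) := by
          have h3 : Li s (pf (MvPolynomial.X i)) = cv s (dd (pf (MvPolynomial.X i))) :=
            Li_fn s (pl (MvPolynomial.X i))
          rw [h3]
          unfold cv
          rw [Finset.sum_eq_single i]
          · rw [hcj, if_pos rfl, mul_one]
          · intro j _ hj
            rw [hcj, if_neg (Ne.symm hj), mul_zero]
          · intro h
            exact absurd (Finset.mem_univ i) h
        rw [h2, sub_self]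
      · intro f y
        rw [hA, hA, hA, Li_pow_fn_mul, Li_fn_mul, sub_mul, mul_sub]
        abel
      · intro f y
        rw [hA, hA, hA, Li_pow_ddfn_mul, Li_ddfn_mul, map_sub, sub_mul, mul_sub]
        abel
    rw [hA] at h0
    exact sub_eq_zero.mp h0

end

theorem Li_pf {F : MvPolynomial (Fin m) κ} {r : Fin m → Fn κ m} (h : cv r (dd (pf F)) = 1) :
    Li r (pf F) = 1 := by
  have h1 : Li r (pf F) = cv r (dd (pf F)) := Li_fn r (pl F)
  rw [h1, h]

/-- `[L, F] = 1`. -/
theorem Li_pf_mul {F : MvPolynomial (Fin m) κ} {r : Fin m → Fn κ m} (h : cv r (dd (pf F)) = 1)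
    (x : Fo κ m) : Li r (pf F * x) = x + pf F * Li r x := by
  have h1 : Li r (pf F * x) = Li r (pf F) * x + pf F * Li r x := Li_fn_mul r (pl F) x
  rw [h1, Li_pf h, one_mul]

theorem Li_pf_pow_mul {F : MvPolynomial (Fin m) κ} {r : Fin m → Fn κ m} (h : cv r (dd (pf F)) = 1)
    (k : ℕ) (x : Fo κ m) :
    Li r (pf F ^ (k + 1) * x) = ((k + 1 : ℕ) : κ) • (pf F ^ k * x) + pf F ^ (k + 1) * Li r x := by
  induction k generalizing x with
  | zero =>
    rw [zero_add, pow_one, pow_zero, one_mul, Nat.cast_one, one_smul]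
    exact Li_pf_mul h x
  | succ k ih =>
    rw [pow_succ' (pf F) (k + 1), mul_assoc, Li_pf_mul h, ih, mul_add, mul_smul_comm,
      ← mul_assoc (pf F) (pf F ^ k), ← pow_succ', ← mul_assoc (pf F) (pf F ^ (k + 1)),
      ← add_assoc, Nat.cast_succ (k + 1), add_smul, one_smul,
      add_comm (((k + 1 : ℕ) : κ) • (pf F ^ (k + 1) * x))]

/-- `L` commutes with `dF ∧`. -/
theorem Li_ddpf_mul {F : MvPolynomial (Fin m) κ} {r : Fin m → Fn κ m} (h : cv r (dd (pf F)) = 1)
    (x : Fo κ m) : Li r (dd (pf F) * x) = dd (pf F) * Li r x := by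
  have h1 : Li r (dd (pf F) * x) = dd (Li r (pf F)) * x + dd (pf F) * Li r x :=
    Li_ddfn_mul r (pl F) x
  have h2 : dd (1 : Fo κ m) = 0 := by
    have h3 := dd_fn_mul (1 : Fn κ m) 1
    rw [map_one, mul_one, mul_one, one_mul] at h3
    exact left_eq_add.mp h3
  rw [h1, Li_pf h, h2, zero_mul, zero_add]

theorem cv_ddpf_mul {F : MvPolynomial (Fin m) κ} {r : Fin m → Fn κ m} (h : cv r (dd (pf F)) = 1)
    (x : Fo κ m) : cv r (dd (pf F) * x) = x - dd (pf F) * cv r x := by
  rw [cv_one_mul r (ddpf_mem F), h, one_mul]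

/-- The `p`-th iterate of `L` on a closed form killed by `dF ∧` is `d` of such a form. -/
theorem Li_pow_closed (p : ℕ) [Fact p.Prime] [CharP κ p] {F : MvPolynomial (Fin m) κ}
    {I : Set (Fin m)} {d : ℕ} {r : Fin m → Fn κ m} (hr : IsVF I d r) (h : cv r (dd (pf F)) = 1)
    {q : ℕ} {t : ℤ} {x : Fo κ m} (hx : x ∈ ZK F t (q + 1) I) :
    ∃ y ∈ KK F (t - p * d) q I, (Li r)^[p] x = dd y := by
  obtain ⟨s, hs, hsx⟩ := exists_vf_p p hr
  have hK : x ∈ KK F t (q + 1) I := hx.1
  have hdx : dd x = 0 := hx.2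
  have hR : x ∈ Reg (κ := κ) I := hK.1.1.1
  have hq : x ∈ FD (κ := κ) (m := m) (q + 1) := hK.1.1.2
  have hT : x ∈ TD (κ := κ) (m := m) {t} := hK.1.2
  have hk : dd (pf F) * x = 0 := hK.2
  have hcs : cv s (dd (pf F)) = 0 := by
    have h1 : Li s (pf F) = cv s (dd (pf F)) := Li_fn s (pl F)
    rw [← h1, ← hsx]
    have hp : p.Prime := Fact.out
    obtain ⟨k, hk2⟩ : ∃ k, p = k + 2 := ⟨p - 2, by have := hp.two_le; omega⟩
    rw [hk2, Function.iterate_succ_apply, Li_pf h, Function.iterate_succ_apply, Li_one,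
      lieB_iter_zero]
  refine ⟨cv s x, ⟨⟨⟨cv_Reg hs hR, cv_FD s hq⟩, cv_TD hs hT⟩, ?_⟩, ?_⟩
  · change dd (pf F) * cv s x = 0
    have h2 := cv_one_mul s (ddpf_mem F) x
    rw [hk, cv_zero, hcs, zero_mul, zero_sub] at h2
    exact neg_eq_zero.mp h2.symm
  · rw [hsx]
    unfold Li
    rw [hdx, cv_zero, add_zero]

end MPadcBK
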