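import Pool.Agent.Lib.MP_adc574_ag_BK.KosG

/-!
# JOB LitA: smooth hypersurfaces are irreducible

* `hom_factors`: compare the highest and the lowest homogeneous components of `G` and `H` (`MvPolynomial.homogeneousComponent`, `MvPolynomial.sum_homogeneousComponent`, the ring has no zero divisors): if `a, a'` are the
  highest and the lowest degree of a nonzero component of `G`, `b, b'` the same for `H`, the products of these components are nonzero and they are the components of degree `a + b`, `a' + b'` of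
  `G H`, so `a + b = d = a' + b'`, `a = a'`, `b = b'`. (Or with `pf`, or by `MvPolynomial.totalDegree_mul` and the substitution `x_i ↦ T x_i`: `G H` becomes `T ^ d G H` in the domain `S[T]`; a
  divisor of `T ^ d G H` ... whatever is easiest.)
* `ne_zero_of_smooth`: if `F = 0` all `pderiv` vanish, `X i ^ N ∈ ⊥`.
* `irred_of_smooth`: `F` is not a unit (`0 < d`, homogeneous). Let `F = G H`, `G`, `H` homogeneous of degrees `a`, `b`, `a + b = d`; suppose `0 < a`, `0 < b` (if `a = 0` then `G` is a nonzero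
  constant, a unit). `p ∤ d`, so by symmetry `p ∤ b`, `(b : κ) ≠ 0`. `x = dd (pf G) * dd (pf H)` is in `Reg ∅ ⊓ FD 2 ⊓ TD {d}` and `dd (pf F) = pf G * dd (pf H) + pf H * dd (pf G)` (`dd_pf_mul`, `pf_mul`), so
  `dd (pf F) * x = 0` (`one_mul_self`, `one_mul_anti`). `kos_global` (`q = 1`, `2 < m`): `x = dd (pf F) * y`, `y ∈ Reg ∅ ⊓ FD 1 ⊓ TD {0}`, so `y = 0` (`Reg_empty_tot`), `x = 0`. `cfe x = 0` reads
  `a • (pf G * dd (pf H)) = b • (dd (pf G) * pf H)` (`cfe_ddpf_mul`, with `dd (pf H) * 1`), so `dd (pf F) = (1 + a / b) • pf G * dd (pf H)` and `dd (pf F) * dd (pf H) = 0`. `kos_global` (`q = 0`):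
  `dd (pf H) = dd (pf F) * y'`, `y' ∈ Reg ∅ ⊓ FD 0 ⊓ TD {b - d}`, `b - d < 0`: `y' = 0` (`Reg_empty_tot` with `q = 0`). So `dd (pf H) = 0`, `dd (pf F) = 0`; then all `pf (pderiv i F) = cj i (dd (pf F) * 1) = 0`,
  contradiction to smoothness (`pf` is injective: `pf_mul_eq_zero` with `x = 1`).
* `prime_of_smooth`: `MvPolynomial` over a field is a UFD: `Irreducible.prime`, `Ideal.span_singleton_prime`.
-/

set_option autoImplicit false

namespace MPadcBK

open ExteriorAlgebra

universe u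

variable {κ : Type u} [Field κ] {m : ℕ}

/-- The substitution `x_i ↦ T x_i`. -/
private noncomputable def lita_T : MvPolynomial (Fin m) κ →ₐ[κ] Polynomial (MvPolynomial (Fin m) κ) :=
  MvPolynomial.aeval fun i => Polynomial.X * Polynomial.C (MvPolynomial.X i)

private theorem lita_T_monomial (u : Fin m →₀ ℕ) (a : κ) :
    lita_T (MvPolynomial.monomial u a) =
      Polynomial.C (MvPolynomial.monomial u a) * Polynomial.X ^ u.degree := by
  unfold lita_T
  rw [MvPolynomial.aeval_monomial, MvPolynomial.monomial_eq, Finsupp.prod, Finsupp.prod]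
  have h1 : ∏ i ∈ u.support, (Polynomial.X * Polynomial.C (MvPolynomial.X i) :
      Polynomial (MvPolynomial (Fin m) κ)) ^ u i =
      Polynomial.X ^ u.degree * Polynomial.C (∏ i ∈ u.support, MvPolynomial.X i ^ u i) := by
    rw [Finset.prod_congr rfl fun i _ => mul_pow (Polynomial.X :
      Polynomial (MvPolynomial (Fin m) κ)) (Polynomial.C (MvPolynomial.X i)) (u i),
      Finset.prod_mul_distrib, Finset.prod_pow_eq_pow_sum, map_prod]
    congr 1
    refine Finset.prod_congr rfl fun i _ => ?_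
    rw [map_pow]
  rw [h1, map_mul]
  have h2 : (algebraMap κ (Polynomial (MvPolynomial (Fin m) κ)) a) =
      Polynomial.C (MvPolynomial.C a) := rfl
  rw [h2]
  ring

private theorem lita_T_coeff (G : MvPolynomial (Fin m) κ) (n : ℕ) :
    (lita_T G).coeff n = MvPolynomial.homogeneousComponent n G := by
  induction G using MvPolynomial.induction_on' with
  | monomial u a =>
    rw [lita_T_monomial, Polynomial.coeff_C_mul_X_pow,
      MvPolynomial.homogeneousComponent_of_mem (n := u.degree)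
        ((MvPolynomial.mem_homogeneousSubmodule _ _).2 (MvPolynomial.isHomogeneous_monomial a rfl))]
  | add F G hF hG => rw [map_add, Polynomial.coeff_add, hF, hG, map_add]

private theorem lita_T_hom {G : MvPolynomial (Fin m) κ} {a : ℕ}
    (h : ∀ n, (lita_T G).coeff n ≠ 0 → n = a) : G.IsHomogeneous a := by
  intro u hu
  have h1 : (lita_T G).coeff u.degree ≠ 0 := by
    intro h2
    rw [lita_T_coeff] at h2
    have h3 := congrArg (MvPolynomial.coeff u) h2
    rw [MvPolynomial.coeff_homogeneousComponent, if_pos rfl, MvPolynomial.coeff_zero] at h3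
    exact hu h3
  have h4 := h _ h1
  rw [Finsupp.degree_eq_weight_one] at h4
  exact h4

theorem hom_factors {d : ℕ} {G H : MvPolynomial (Fin m) κ} (h : (G * H).IsHomogeneous d)
    (h0 : G * H ≠ 0) : ∃ a b, G.IsHomogeneous a ∧ H.IsHomogeneous b ∧ a + b = d := by
  have hc : ∀ n, (lita_T (G * H)).coeff n = if n = d then G * H else 0 := by
    intro n
    rw [lita_T_coeff, MvPolynomial.homogeneousComponent_of_mem
      ((MvPolynomial.mem_homogeneousSubmodule _ _).2 h)]
  have hd1 : (lita_T (G * H)).natDegree = d := by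
    apply Polynomial.natDegree_eq_of_le_of_coeff_ne_zero
    · rw [Polynomial.natDegree_le_iff_coeff_eq_zero]
      intro N hN
      rw [hc, if_neg (by omega)]
    · rw [hc, if_pos rfl]
      exact h0
  have hT0 : lita_T (G * H) ≠ 0 := by
    intro h1
    have h2 := hc d
    rw [h1, Polynomial.coeff_zero, if_pos rfl] at h2
    exact h0 h2.symm
  have hd2 : (lita_T (G * H)).natTrailingDegree = d := by
    have h1 : (lita_T (G * H)).coeff (lita_T (G * H)).natTrailingDegree ≠ 0 := by
      have h2 := Polynomial.trailingCoeff_nonzero_iff_nonzero.2 hT0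
      exact h2
    rw [hc] at h1
    by_contra h3
    rw [if_neg h3] at h1
    exact h1 rfl
  have hGH : lita_T G * lita_T H ≠ 0 := by
    rw [← map_mul]
    exact hT0
  have hG0 := left_ne_zero_of_mul hGH
  have hH0 := right_ne_zero_of_mul hGH
  rw [map_mul, Polynomial.natDegree_mul hG0 hH0] at hd1
  rw [map_mul, Polynomial.natTrailingDegree_mul hG0 hH0] at hd2
  have h1 := Polynomial.natTrailingDegree_le_natDegree (lita_T G)
  have h2 := Polynomial.natTrailingDegree_le_natDegree (lita_T H)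
  refine ⟨(lita_T G).natDegree, (lita_T H).natDegree, lita_T_hom fun n hn => ?_,
    lita_T_hom fun n hn => ?_, hd1⟩
  · have h3 := Polynomial.le_natDegree_of_ne_zero hn
    have h4 := Polynomial.natTrailingDegree_le_of_ne_zero hn
    omega
  · have h3 := Polynomial.le_natDegree_of_ne_zero hn
    have h4 := Polynomial.natTrailingDegree_le_of_ne_zero hn
    omega

private theorem lita_exists (hm : 0 < m) {F : MvPolynomial (Fin m) κ} (hs : Smooth F) :
    ∃ j, MvPolynomial.pderiv j F ≠ 0 := by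
  by_contra h
  push Not at h
  obtain ⟨N, hN⟩ := hs ⟨0, hm⟩
  have h1 : Ideal.span (Set.range fun j => MvPolynomial.pderiv j F) = ⊥ := by
    rw [Ideal.span_eq_bot]
    rintro x ⟨j, rfl⟩
    exact h j
  rw [h1, Ideal.mem_bot] at hN
  exact pow_ne_zero N (MvPolynomial.X_ne_zero _) hN

theorem ne_zero_of_smooth (hm : 0 < m) {F : MvPolynomial (Fin m) κ} (hs : Smooth F) : F ≠ 0 := by
  rintro rfl
  obtain ⟨j, hj⟩ := lita_exists hm hs
  exact hj (map_zero _)

private theorem lita_one_TD : (1 : Fo κ m) ∈ TD (κ := κ) (m := m) {0} := by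
  intro e he
  rw [AddMonoidAlgebra.one_def, AddMonoidAlgebra.coeff_single, Finsupp.single_apply, if_neg]
  rintro rfl
  apply he
  show tot (0 : Ex m) = 0
  unfold tot
  exact Finset.sum_eq_zero fun i _ => rfl

private theorem lita_one_FD : (1 : Fo κ m) ∈ FD (κ := κ) (m := m) 0 :=
  FD_zero_iff.2 ⟨1, (map_one _).symm⟩

private theorem lita_pf_TD {b : ℕ} {H : MvPolynomial (Fin m) κ} (hH : H.IsHomogeneous b) :
    (pf H : Fo κ m) ∈ TD (κ := κ) (m := m) {(b : ℤ)} := by
  have h := pf_mul_TD hH (lita_one_TD (κ := κ) (m := m))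
  rw [mul_one] at h
  refine TD_mono ?_ h
  intro t ht
  have h1 : t - (b : ℤ) = 0 := ht
  show t = (b : ℤ)
  omega

private theorem lita_aux (hm : 2 < m) {a b d : ℕ} (hab : a + b = d) (ha : 0 < a)
    (hb : (b : κ) ≠ 0) {F G H : MvPolynomial (Fin m) κ} (hF : F.IsHomogeneous d) (hs : Smooth F)
    (hFGH : F = G * H) (hG : G.IsHomogeneous a) (hH : H.IsHomogeneous b) : False := by
  have hdF : (dd (pf F) : Fo κ m) = dd (pf G) * pf H + pf G * dd (pf H) := by
    rw [hFGH, pf_mul, dd_pf_mul]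
  have hHR : (dd (pf H) : Fo κ m) ∈ Reg (κ := κ) ∅ := dd_Reg (pf_Reg H)
  have hHF : (dd (pf H) : Fo κ m) ∈ FD (κ := κ) (m := m) 1 := ddpf_mem H
  have hHT : (dd (pf H) : Fo κ m) ∈ TD (κ := κ) (m := m) {(b : ℤ)} := dd_TD (lita_pf_TD hH)
  have hHH : (dd (pf H) * dd (pf H) : Fo κ m) = 0 := by
    have h := one_mul_self hHF (1 : Fo κ m)
    rw [mul_one] at h
    exact h
  have hx0 : dd (pf F) * (dd (pf G) * dd (pf H)) = (0 : Fo κ m) := by
    rw [hdF, add_mul]
    have h1 : (dd (pf G) * pf H) * (dd (pf G) * dd (pf H)) = (0 : Fo κ m) := by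
      rw [← pf_mul_comm, mul_assoc, one_mul_self (ddpf_mem G), mul_zero]
    have h2 : (pf G * dd (pf H)) * (dd (pf G) * dd (pf H)) = (0 : Fo κ m) := by
      rw [mul_assoc, one_mul_anti hHF (ddpf_mem G), hHH, mul_zero, neg_zero, mul_zero]
    rw [h1, h2, add_zero]
  have hxM : (dd (pf G) * dd (pf H) : Fo κ m) ∈
      Reg (κ := κ) ∅ ⊓ FD (1 + 1) ⊓ TD {(d : ℤ)} := by
    refine ⟨⟨ddpf_mul_Reg G hHR, ddpf_mul_FD G hHF⟩, ?_⟩
    refine TD_mono ?_ (ddpf_mul_TD hG hHT)
    intro t ht
    have h1 : t - (a : ℤ) = b := ht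
    show t = (d : ℤ)
    omega
  obtain ⟨y, ⟨⟨hyR, hyF⟩, hyT⟩, hy⟩ := kos_global hF hs (q := 1) (by omega) hxM hx0
  have hy0 : y = 0 := Reg_empty_tot (q := 1) (by push_cast; omega) hyR hyF hyT
  rw [hy0, mul_zero] at hy
  -- `cfe x = 0`
  have hcH : cfe (dd (pf H) : Fo κ m) = (b : κ) • pf H := by
    have h := cfe_ddpf_mul hH (1 : Fo κ m)
    rw [mul_one, mul_one, cfe_FD_zero lita_one_FD, mul_zero, sub_zero] at h
    exact h
  have hE := cfe_ddpf_mul hG (dd (pf H) : Fo κ m)
  rw [← hy, map_zero, hcH] at hE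
  have hE' : (a : κ) • (pf G * dd (pf H) : Fo κ m) = (b : κ) • (dd (pf G) * pf H) := by
    rw [mul_smul_comm] at hE
    exact (sub_eq_zero.1 hE.symm)
  have hbF : (b : κ) • (dd (pf F) : Fo κ m) = ((a : κ) + b) • (pf G * dd (pf H)) := by
    rw [hdF, smul_add, ← hE', ← add_smul]
  have hFH : dd (pf F) * dd (pf H) = (0 : Fo κ m) := by
    have h1 : (b : κ) • (dd (pf F) * dd (pf H) : Fo κ m) = 0 := by
      rw [← smul_mul_assoc, hbF, smul_mul_assoc, mul_assoc, hHH, mul_zero, smul_zero]
    exact (smul_eq_zero.1 h1).resolve_left hb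
  obtain ⟨y', ⟨⟨hyR', hyF'⟩, hyT'⟩, hy'⟩ := kos_global hF hs (q := 0) (by omega)
    (x := dd (pf H)) (t := (b : ℤ)) ⟨⟨hHR, hHF⟩, hHT⟩ hFH
  have hy0' : y' = 0 := Reg_empty_tot (q := 0) (by push_cast; omega) hyR' hyF' hyT'
  rw [hy0', mul_zero] at hy'
  rw [← hy', mul_zero, smul_zero] at hbF
  have hdF0 : (dd (pf F) : Fo κ m) = 0 := (smul_eq_zero.1 hbF).resolve_left hb
  obtain ⟨j, hj⟩ := lita_exists (by omega) hs
  have h1 := cj_ddpf_mul j F (1 : Fo κ m)
  rw [hdF0, zero_mul, zero_mul, sub_zero] at h1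
  have h2 : cj j (0 : Fo κ m) = 0 := by
    unfold cj
    rw [map_zero, mul_zero]
  rw [h2] at h1
  have h3 := pf_mul_eq_zero hj h1.symm
  exact one_ne_zero h3

theorem irred_of_smooth (p : ℕ) [Fact p.Prime] [CharP κ p] (hm : 2 < m) {d : ℕ} (hd : 0 < d)
    (hpd : ¬ p ∣ d) {F : MvPolynomial (Fin m) κ} (hF : F.IsHomogeneous d) (hs : Smooth F) :
    Irreducible F := by
  have hF0 : F ≠ 0 := ne_zero_of_smooth (by omega) hs
  have hconst : ∀ G : MvPolynomial (Fin m) κ, G ≠ 0 → G.IsHomogeneous 0 → IsUnit G := by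
    intro G hG0 hG
    have h1 : G = MvPolynomial.C (G.coeff 0) := by
      have h2 := (MvPolynomial.totalDegree_zero_iff_isHomogeneous _).2 hG
      exact MvPolynomial.totalDegree_eq_zero_iff_eq_C.1 h2
    rw [h1]
    refine IsUnit.map _ (IsUnit.mk0 _ ?_)
    intro h3
    rw [h3, map_zero] at h1
    exact hG0 h1
  constructor
  · intro hu
    have h1 : IsUnit (MvPolynomial.constantCoeff F) := hu.map _
    have h2 : MvPolynomial.coeff 0 F ≠ 0 := h1.ne_zero
    have h3 := hF h2
    rw [map_zero] at h3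
    omega
  · intro G H hFGH
    have h0 : G * H ≠ 0 := by
      rw [← hFGH]
      exact hF0
    obtain ⟨a, b, hG, hH, hab⟩ := hom_factors (by rw [← hFGH]; exact hF) h0
    by_cases ha : a = 0
    · left
      rw [ha] at hG
      exact hconst G (left_ne_zero_of_mul h0) hG
    by_cases hb : b = 0
    · right
      rw [hb] at hH
      exact hconst H (right_ne_zero_of_mul h0) hH
    exfalso
    by_cases hpb : p ∣ b
    · have hpa : ¬ p ∣ a := by
        intro hpa
        apply hpd
        rw [← hab]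
        exact dvd_add hpa hpb
      refine lita_aux hm (a := b) (b := a) (by omega) (Nat.pos_of_ne_zero hb) ?_ hF hs
        (G := H) (H := G) (by rw [hFGH, mul_comm]) hH hG
      rw [Ne, CharP.cast_eq_zero_iff κ p]
      exact hpa
    · refine lita_aux hm hab (Nat.pos_of_ne_zero ha) ?_ hF hs hFGH hG hH
      rw [Ne, CharP.cast_eq_zero_iff κ p]
      exact hpb

theorem prime_of_smooth (p : ℕ) [Fact p.Prime] [CharP κ p] (hm : 2 < m) {d : ℕ} (hd : 0 < d)
    (hpd : ¬ p ∣ d) {F : MvPolynomial (Fin m) κ} (hF : F.IsHomogeneous d) (hs : Smooth F) :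
    (Ideal.span {F}).IsPrime := by
  rw [Ideal.span_singleton_prime (ne_zero_of_smooth (by omega) hs)]
  exact (irred_of_smooth p hm hd hpd hF hs).prime

end MPadcBK
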