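import Pool.Agent.Lib.MP_adc574_ag_BK.FoP

/-!
# JOB LitB: the value of a form at a point with coordinates in a field `K`

`ev y`: the value of a Laurent polynomial. `PsiG y w : x_i ↦ y i`, `dlog x_i ↦ w i`, a ring homomorphism.
Everything is checked on monomials `AddMonoidAlgebra.single e a` (`AddMonoidAlgebra.liftNCRingHom_single`, `AddMonoidAlgebra.lift_single`, `AddMonoidAlgebra.induction_linear`), and for `a : Lam κ m` by
`ExteriorAlgebra.induction` / `CliffordAlgebra.left_induction`; two ring homomorphisms `Lam κ m → A` which agree on `algebraMap κ _ a` and on the `ι κ v` are equal.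
* `ev_pl`: `pl_monomial`, `MvPolynomial.induction_on'` or `MvPolynomial.algHom_ext`.
* `PsiG_map`: naturality in the module `N`.
* `PsiG_ct`: `CliffordAlgebra.contractLeft_ι_mul`; on `single e (ι v * a)`; needs `λ (w l) = if l = i then c else 0`-type hypothesis, see the statement: `ℓ (w l) = if l = i then 1 else 0` gives
  `contractLeft ℓ (PsiG x) = PsiG (cf i x)`.
-/

set_option autoImplicit false

namespace MPadcBK

open ExteriorAlgebra

universe u

variable {κ : Type u} [Field κ] {m : ℕ}

section

variable {K : Type u} [Field K] [Algebra κ K]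

/-- The monomials at a point. -/
noncomputable def um (y : Fin m → Kˣ) : Multiplicative (Ex m) →* Kˣ where
  toFun e := ∏ i, y i ^ (Multiplicative.toAdd e i)
  map_one' := by simp
  map_mul' a b := by
    simp only [toAdd_mul, Pi.add_apply, zpow_add, Finset.prod_mul_distrib]

/-- The value of a Laurent polynomial at a point. -/
noncomputable def ev (y : Fin m → Kˣ) : Fn κ m →ₐ[κ] K :=
  AddMonoidAlgebra.lift κ K (Ex m) ((Units.coeHom K).comp (um y))

private theorem litb_um_single (y : Fin m → Kˣ) (i : Fin m) :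
    ((um y (Multiplicative.ofAdd (Pi.single i 1 : Ex m)) : Kˣ) : K) = (y i : K) := by
  have h : um y (Multiplicative.ofAdd (Pi.single i 1 : Ex m)) = y i := by
    show ∏ j, y j ^ ((Pi.single i 1 : Ex m) j) = y i
    rw [Finset.prod_eq_single i]
    · rw [Pi.single_eq_same, zpow_one]
    · intro b _ hb
      rw [Pi.single_eq_of_ne hb, zpow_zero]
    · intro h
      exact absurd (Finset.mem_univ i) h
  rw [h]

private theorem litb_um_neg_single (y : Fin m → Kˣ) (i : Fin m) :
    ((um y (Multiplicative.ofAdd (-Pi.single i 1 : Ex m)) : Kˣ) : K) = (y i : K)⁻¹ := by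
  have h : um y (Multiplicative.ofAdd (-Pi.single i 1 : Ex m)) = (y i)⁻¹ := by
    show ∏ j, y j ^ ((-Pi.single i 1 : Ex m) j) = (y i)⁻¹
    rw [Finset.prod_eq_single i]
    · rw [Pi.neg_apply, Pi.single_eq_same, zpow_neg, zpow_one]
    · intro b _ hb
      rw [Pi.neg_apply, Pi.single_eq_of_ne hb, neg_zero, zpow_zero]
    · intro h
      exact absurd (Finset.mem_univ i) h
  rw [h, Units.val_inv_eq_inv_val]

private theorem litb_fn_single (e : Ex m) (a : κ) :
    (fn (AddMonoidAlgebra.single e a) : Fo κ m) =
      AddMonoidAlgebra.single e (algebraMap κ (Lam κ m) a) := by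
  unfold fn
  rw [AddMonoidAlgebra.mapRingHom_single]

private theorem litb_pf_C (a : κ) :
    (pf (MvPolynomial.C a) : Fo κ m) = AddMonoidAlgebra.single 0 (algebraMap κ (Lam κ m) a) := by
  have h1 : (pl (MvPolynomial.C a) : Fn κ m) = AddMonoidAlgebra.single 0 a := by
    have h2 := pl_monomial (m := m) 0 a
    have h3 : ex (0 : Fin m →₀ ℕ) = 0 := rfl
    rw [h3] at h2
    exact h2
  unfold pf
  rw [h1, litb_fn_single]

private theorem litb_single_coeff (e e' : Ex m) (a : Lam κ m) :
    (AddMonoidAlgebra.single e a : Fo κ m).coeff e' = if e = e' then a else 0 := by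
  rw [AddMonoidAlgebra.coeff_single, Finsupp.single_apply]

private theorem litb_dd_single (e : Ex m) (a : Lam κ m) :
    dd (AddMonoidAlgebra.single e a : Fo κ m) = AddMonoidAlgebra.single e (ι κ (bar κ e) * a) := by
  apply fo_ext
  intro e'
  rw [dd_coeff, litb_single_coeff, litb_single_coeff]
  by_cases h : e = e'
  · subst h
    rw [if_pos rfl, if_pos rfl]
  · rw [if_neg h, if_neg h, mul_zero]

private theorem litb_cf_single (i : Fin m) (e : Ex m) (a : Lam κ m) :
    cf i (AddMonoidAlgebra.single e a : Fo κ m) = AddMonoidAlgebra.single e (cti i a) := by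
  apply fo_ext
  intro e'
  rw [cf_coeff, litb_single_coeff, litb_single_coeff]
  by_cases h : e = e'
  · subst h
    rw [if_pos rfl, if_pos rfl]
  · rw [if_neg h, if_neg h, map_zero]

private theorem litb_bar_add (e e' : Ex m) : bar κ (e + e') = bar κ e + bar κ e' := by
  funext i
  simp [bar]

private theorem litb_single_mul (e e' : Ex m) (a b : Lam κ m) :
    (AddMonoidAlgebra.single e a : Fo κ m) * AddMonoidAlgebra.single e' b =
      AddMonoidAlgebra.single (e + e') (a * b) :=
  AddMonoidAlgebra.single_mul_single _ _ _ _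

private theorem litb_dd_fn_mul (f g : Fn κ m) :
    dd (fn f * fn g) = dd (fn f) * fn g + fn f * dd (fn g) := by
  refine AddMonoidAlgebra.induction_linear f ?_ ?_ ?_
  · rw [map_zero, zero_mul, zero_mul, map_zero, zero_mul, add_zero]
  · intro f1 f2 h1 h2
    rw [map_add, add_mul, map_add, h1, h2, map_add, add_mul, add_mul]
    abel
  · intro e a
    refine AddMonoidAlgebra.induction_linear g ?_ ?_ ?_
    · rw [map_zero, mul_zero, mul_zero, map_zero, mul_zero, add_zero]
    · intro f1 f2 h1 h2
      rw [map_add, mul_add, map_add, h1, h2, map_add, mul_add, mul_add]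
      abel
    · intro e' b
      rw [litb_fn_single, litb_fn_single, litb_single_mul, litb_dd_single, litb_dd_single,
        litb_dd_single, litb_single_mul, litb_single_mul, ← AddMonoidAlgebra.single_add,
        litb_bar_add, map_add, add_mul]
      congr 2
      · rw [mul_assoc]
      · rw [← mul_assoc, ← mul_assoc, Algebra.commutes]

private theorem litb_dd_pf_mul (F G : MvPolynomial (Fin m) κ) :
    dd (pf F * pf G : Fo κ m) = dd (pf F) * pf G + pf F * dd (pf G) :=
  litb_dd_fn_mul _ _

private theorem litb_bar_zero : bar κ (0 : Ex m) = 0 := by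
  funext i
  unfold bar
  rw [Pi.zero_apply, Int.cast_zero]
  rfl

theorem ev_single (y : Fin m → Kˣ) (e : Ex m) (a : κ) :
    ev y (AddMonoidAlgebra.single e a) = a • ((um y (Multiplicative.ofAdd e) : Kˣ) : K) := by
  unfold ev
  rw [AddMonoidAlgebra.lift_single]
  rfl

theorem ev_pl (y : Fin m → Kˣ) (G : MvPolynomial (Fin m) κ) :
    ev y (pl G) = MvPolynomial.aeval (fun i => (y i : K)) G := by
  have h : (ev (κ := κ) y).comp pl = MvPolynomial.aeval (fun i => (y i : K)) := by
    refine MvPolynomial.algHom_ext fun i => ?_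
    rw [AlgHom.comp_apply, MvPolynomial.aeval_X]
    have h1 : (pl (MvPolynomial.X i) : Fn κ m) = AddMonoidAlgebra.single (Pi.single i 1) 1 := by
      unfold pl
      rw [MvPolynomial.aeval_X]
    rw [h1, ev_single, one_smul, litb_um_single]
  exact congrArg (fun f => f G) h

variable {N : Type u} [AddCommGroup N] [Module K N] [Module κ N] [IsScalarTower κ K N]

/-- The linear map `v ↦ ∑ v_i w_i`. -/
noncomputable def lamLin (w : Fin m → N) : (Fin m → κ) →ₗ[κ] ExteriorAlgebra K N where
  toFun v := ι K (∑ i, v i • w i)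
  map_add' v v' := by
    rw [← map_add]
    congr 1
    rw [← Finset.sum_add_distrib]
    exact Finset.sum_congr rfl fun i _ => add_smul _ _ _
  map_smul' a v := by
    have h : (∑ i, (a • v) i • w i) = algebraMap κ K a • ∑ i, v i • w i := by
      rw [Finset.smul_sum]
      refine Finset.sum_congr rfl fun i _ => ?_
      rw [Pi.smul_apply, smul_eq_mul, mul_smul, algebraMap_smul]
    rw [h, map_smul, algebraMap_smul, RingHom.id_apply]

/-- The coefficients. -/
noncomputable def lamMap (w : Fin m → N) : Lam κ m →ₐ[κ] ExteriorAlgebra K N :=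
  ExteriorAlgebra.lift κ ⟨lamLin (κ := κ) (K := K) w, fun v => by
    change ι K (∑ i, v i • w i) * ι K (∑ i, v i • w i) = 0
    exact ι_sq_zero _⟩

/-- `x_i ↦ y i`, `dlog x_i ↦ w i`. -/
noncomputable def PsiG (y : Fin m → Kˣ) (w : Fin m → N) : Fo κ m →+* ExteriorAlgebra K N :=
  AddMonoidAlgebra.liftNCRingHom (lamMap (κ := κ) (K := K) w).toRingHom
    (((algebraMap K (ExteriorAlgebra K N)).toMonoidHom.comp (Units.coeHom K)).comp (um y))
    (fun x e => (Algebra.commutes ((um y e : Kˣ) : K) (lamMap (κ := κ) (K := K) w x)).symm)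

theorem lamMap_iota (w : Fin m → N) (v : Fin m → κ) :
    lamMap (κ := κ) (K := K) w (ι κ v) = ι K (∑ i, v i • w i) := by
  unfold lamMap
  rw [ExteriorAlgebra.lift_ι_apply]
  rfl

private theorem litb_alg_smul (a : κ) (u : K) :
    algebraMap κ (ExteriorAlgebra K N) a * algebraMap K (ExteriorAlgebra K N) u =
      algebraMap K (ExteriorAlgebra K N) (a • u) := by
  rw [Algebra.smul_def, map_mul, ← IsScalarTower.algebraMap_apply κ K (ExteriorAlgebra K N)]

private theorem litb_lamMap_map {N' : Type u} [AddCommGroup N'] [Module K N'] [Module κ N']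
    [IsScalarTower κ K N'] (g : N →ₗ[K] N') (w : Fin m → N) (a : Lam κ m) :
    ExteriorAlgebra.map g (lamMap (κ := κ) (K := K) w a) =
      lamMap (κ := κ) (K := K) (fun i => g (w i)) a := by
  refine ExteriorAlgebra.induction ?_ ?_ ?_ ?_ a
  · intro r
    rw [AlgHom.commutes, AlgHom.commutes, IsScalarTower.algebraMap_apply κ K (ExteriorAlgebra K N),
      AlgHom.commutes, ← IsScalarTower.algebraMap_apply κ K (ExteriorAlgebra K N')]
  · intro v
    rw [lamMap_iota, lamMap_iota, ExteriorAlgebra.map_apply_ι, map_sum]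
    congr 1
    refine Finset.sum_congr rfl fun i _ => ?_
    rw [← algebraMap_smul K (v i) (w i), map_smul, algebraMap_smul]
  · intro x y hx hy
    rw [map_mul, map_mul, map_mul, hx, hy]
  · intro x y hx hy
    rw [map_add, map_add, map_add, hx, hy]

private theorem litb_ct_lam (ℓ : Module.Dual K N) (w : Fin m → N) (i : Fin m)
    (h : ∀ l, ℓ (w l) = if l = i then 1 else 0) (a : Lam κ m) :
    CliffordAlgebra.contractLeft ℓ (lamMap (κ := κ) (K := K) w a) =
      lamMap (κ := κ) (K := K) w (cti i a) := by
  induction a using CliffordAlgebra.left_induction with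
  | algebraMap r =>
    have h1 : cti i (algebraMap κ (Lam κ m) r) = 0 := by
      have h2 := ct_smul_mul (Pi.single i 1) r (1 : Lam κ m)
      rw [mul_one, ct_one, mul_zero] at h2
      exact h2
    have h2 : lamMap (κ := κ) (K := K) w (algebraMap κ (Lam κ m) r) =
        algebraMap K (ExteriorAlgebra K N) (algebraMap κ K r) := by
      rw [AlgHom.commutes, ← IsScalarTower.algebraMap_apply κ K (ExteriorAlgebra K N)]
    have h3 : CliffordAlgebra.contractLeft ℓ (algebraMap K (ExteriorAlgebra K N)
        (algebraMap κ K r)) = 0 :=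
      CliffordAlgebra.contractLeft_algebraMap (Q := (0 : QuadraticForm K N)) ℓ _
    have h4 : lamMap (κ := κ) (K := K) w (cti i (algebraMap κ (Lam κ m) r)) = 0 := by
      rw [h1, map_zero]
    refine (congrArg _ h2).trans (h3.trans ?_)
    exact h4.symm
  | add x y hx hy =>
    have e1 : lamMap (κ := κ) (K := K) w (x + y) = lamMap (κ := κ) (K := K) w x +
        lamMap (κ := κ) (K := K) w y := map_add _ _ _
    have e2 : cti i (x + y) = cti i x + cti i y := map_add _ _ _
    rw [e1, e2, map_add, map_add, hx, hy]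
  | ι_mul x v hx =>
    have e1 : lamMap (κ := κ) (K := K) w (CliffordAlgebra.ι 0 v * x) =
        ι K (∑ j, v j • w j) * lamMap (κ := κ) (K := K) w x := by
      refine (map_mul _ _ _).trans ?_
      exact congrArg (fun z => z * lamMap (κ := κ) (K := K) w x) (lamMap_iota w v)
    have e2 : cti i (CliffordAlgebra.ι 0 v * x) = v i • x - ι κ v * cti i x := cti_iota_mul i v x
    have e3 : ℓ (∑ j, v j • w j) = algebraMap κ K (v i) := by
      rw [map_sum, Finset.sum_eq_single i]
      · rw [← algebraMap_smul K (v i) (w i), map_smul, h, if_pos rfl, smul_eq_mul, mul_one]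
      · intro b _ hb
        rw [← algebraMap_smul K (v b) (w b), map_smul, h, if_neg hb, smul_zero]
      · intro h
        exact absurd (Finset.mem_univ i) h
    have e4 : CliffordAlgebra.contractLeft ℓ (ι K (∑ j, v j • w j) *
        lamMap (κ := κ) (K := K) w x) = ℓ (∑ j, v j • w j) • lamMap (κ := κ) (K := K) w x -
        ι K (∑ j, v j • w j) * CliffordAlgebra.contractLeft ℓ (lamMap (κ := κ) (K := K) w x) :=
      CliffordAlgebra.contractLeft_ι_mul (Q := (0 : QuadraticForm K N)) ℓ _ _
    rw [e1, e2, e4, e3, hx, map_sub, map_smul, map_mul, lamMap_iota, algebraMap_smul]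

theorem PsiG_single (y : Fin m → Kˣ) (w : Fin m → N) (e : Ex m) (a : Lam κ m) :
    PsiG y w (AddMonoidAlgebra.single e a) = lamMap (K := K) w a *
      algebraMap K (ExteriorAlgebra K N) ((um y (Multiplicative.ofAdd e) : Kˣ) : K) := by
  unfold PsiG
  rw [AddMonoidAlgebra.liftNCRingHom_single]
  rfl

theorem PsiG_fn (y : Fin m → Kˣ) (w : Fin m → N) (f : Fn κ m) :
    PsiG y w (fn f) = algebraMap K (ExteriorAlgebra K N) (ev y f) := by
  refine AddMonoidAlgebra.induction_linear f ?_ ?_ ?_
  · rw [map_zero, map_zero, map_zero, map_zero]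
  · intro f g hf hg
    rw [map_add, map_add, map_add, map_add, hf, hg]
  · intro e a
    rw [litb_fn_single, PsiG_single, AlgHom.commutes, ev_single, litb_alg_smul]

theorem PsiG_pf (y : Fin m → Kˣ) (w : Fin m → N) (G : MvPolynomial (Fin m) κ) :
    PsiG y w (pf G) = algebraMap K (ExteriorAlgebra K N)
      (MvPolynomial.aeval (fun i => (y i : K)) G) := by
  unfold pf
  rw [PsiG_fn, ev_pl]

/-- The differential of a monomial. -/
theorem PsiG_dd_single (y : Fin m → Kˣ) (w : Fin m → N) (e : Ex m) (a : κ) :
    PsiG y w (dd (fn (AddMonoidAlgebra.single e a))) =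
      ι K ((a • ((um y (Multiplicative.ofAdd e) : Kˣ) : K)) • ∑ i, (e i : κ) • w i) := by
  rw [litb_fn_single, litb_dd_single, PsiG_single, map_mul, AlgHom.commutes, lamMap_iota, mul_assoc,
    litb_alg_smul, ← Algebra.commutes, ← Algebra.smul_def, ← map_smul]
  rfl

/-- Naturality. -/
theorem PsiG_map {N' : Type u} [AddCommGroup N'] [Module K N'] [Module κ N']
    [IsScalarTower κ K N'] (g : N →ₗ[K] N') (y : Fin m → Kˣ) (w : Fin m → N) (x : Fo κ m) :
    ExteriorAlgebra.map g (PsiG y w x) = PsiG y (fun i => g (w i)) x := by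
  refine AddMonoidAlgebra.induction_linear x ?_ ?_ ?_
  · rw [map_zero, map_zero, map_zero]
  · intro f g hf hg
    rw [map_add, map_add, map_add, hf, hg]
  · intro e a
    rw [PsiG_single, PsiG_single, map_mul, AlgHom.commutes, litb_lamMap_map]

/-- Contraction. -/
theorem PsiG_ct (ℓ : Module.Dual K N) (y : Fin m → Kˣ) (w : Fin m → N) (i : Fin m)
    (h : ∀ l, ℓ (w l) = if l = i then 1 else 0) (x : Fo κ m) :
    CliffordAlgebra.contractLeft ℓ (PsiG y w x) = PsiG y w (cf i x) := by
  refine AddMonoidAlgebra.induction_linear x ?_ ?_ ?_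
  · rw [map_zero, map_zero, map_zero, map_zero]
  · intro f g hf hg
    rw [map_add, map_add, map_add, map_add, hf, hg]
  · intro e a
    rw [PsiG_single, litb_cf_single, PsiG_single, ← litb_ct_lam ℓ w i h a]
    exact CliffordAlgebra.contractLeft_mul_algebraMap (Q := (0 : QuadraticForm K N)) ℓ _ _

end

section

variable {K : Type u} [Field K] [Algebra κ K]

private theorem litb_D_smul (a : κ) (u : K) :
    KaehlerDifferential.D κ K (a • u) = a • KaehlerDifferential.D κ K u :=
  Derivation.map_smul _ _ _

private theorem litb_dlog_zpow (y : Kˣ) (n : ℤ) :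
    KaehlerDifferential.D κ K ((y ^ n : Kˣ) : K) =
      ((y ^ n : Kˣ) : K) • ((n : κ) • ((y : K)⁻¹ • KaehlerDifferential.D κ K (y : K))) := by
  rw [Units.val_zpow_eq_zpow_val, Derivation.leibniz_zpow, Int.cast_smul_eq_zsmul,
    smul_comm (_ : K) n, smul_smul, zpow_sub_one₀ (Units.ne_zero y)]

private theorem litb_dlog_mul (x y : Kˣ) (α β : Ω[K⁄κ])
    (hx : KaehlerDifferential.D κ K (x : K) = (x : K) • α)
    (hy : KaehlerDifferential.D κ K (y : K) = (y : K) • β) :
    KaehlerDifferential.D κ K ((x * y : Kˣ) : K) = ((x * y : Kˣ) : K) • (α + β) := by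
  rw [Units.val_mul, Derivation.leibniz, hx, hy, smul_smul, smul_smul, smul_add,
    mul_comm (y : K), add_comm]

private theorem litb_dlog_um (y : Fin m → Kˣ) (e : Ex m) :
    KaehlerDifferential.D κ K ((um y (Multiplicative.ofAdd e) : Kˣ) : K) =
      ((um y (Multiplicative.ofAdd e) : Kˣ) : K) •
        ∑ i, (e i : κ) • ((y i : K)⁻¹ • KaehlerDifferential.D κ K (y i : K)) := by
  classical
  have h : ∀ s : Finset (Fin m), KaehlerDifferential.D κ K ((∏ i ∈ s, y i ^ e i : Kˣ) : K) =
      ((∏ i ∈ s, y i ^ e i : Kˣ) : K) •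
        ∑ i ∈ s, (e i : κ) • ((y i : K)⁻¹ • KaehlerDifferential.D κ K (y i : K)) := by
    intro s
    induction s using Finset.induction_on with
    | empty =>
      rw [Finset.prod_empty, Finset.sum_empty, smul_zero, Units.val_one]
      exact Derivation.map_one_eq_zero _
    | insert a s ha ih =>
      rw [Finset.prod_insert ha, Finset.sum_insert ha]
      exact litb_dlog_mul _ _ _ _ (litb_dlog_zpow (y a) (e a)) ih
  exact h Finset.univ

/-- The restriction of forms to a point with coordinates in `K`, as differential forms. -/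
noncomputable def PsiD (y : Fin m → Kˣ) : Fo κ m →+* ExteriorAlgebra K (Ω[K⁄κ]) :=
  PsiG y fun i => ((y i : K)⁻¹) • KaehlerDifferential.D κ K (y i : K)

theorem PsiD_dd_fn (y : Fin m → Kˣ) (f : Fn κ m) :
    PsiD y (dd (fn f)) = ι K (KaehlerDifferential.D κ K (ev y f)) := by
  unfold PsiD
  refine AddMonoidAlgebra.induction_linear f ?_ ?_ ?_
  · rw [map_zero, map_zero, map_zero, map_zero, map_zero, map_zero]
  · intro f g hf hg
    rw [map_add, map_add, map_add, map_add, map_add, map_add, hf, hg]
  · intro e a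
    rw [PsiG_dd_single, ev_single, litb_D_smul, litb_dlog_um, smul_assoc]

/-- The restriction of forms to a point, coefficients of `dx_i`. -/
noncomputable def PsiV (y : Fin m → Kˣ) : Fo κ m →+* ExteriorAlgebra K (Fin m → K) :=
  PsiG y fun i => ((y i : K)⁻¹) • (Pi.single i 1 : Fin m → K)

theorem PsiV_ddpf (y : Fin m → Kˣ) (G : MvPolynomial (Fin m) κ) :
    PsiV y (dd (pf G)) = ι K (fun i => MvPolynomial.aeval (fun i => (y i : K))
      (MvPolynomial.pderiv i G)) := by
  induction G using MvPolynomial.induction_on with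
  | C a =>
    have h1 : dd (pf (MvPolynomial.C a) : Fo κ m) = 0 := by
      rw [litb_pf_C, litb_dd_single, litb_bar_zero, map_zero, zero_mul]
      exact AddMonoidAlgebra.single_zero _
    have h2 : (fun i => MvPolynomial.aeval (fun i => (y i : K))
        (MvPolynomial.pderiv i (MvPolynomial.C a : MvPolynomial (Fin m) κ))) = 0 := by
      funext i
      rw [MvPolynomial.pderiv_C, map_zero]
      rfl
    rw [h1, h2, map_zero, map_zero]
  | add p q hp hq =>
    have h2 : (fun i => MvPolynomial.aeval (fun i => (y i : K)) (MvPolynomial.pderiv i (p + q))) =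
        (fun i => MvPolynomial.aeval (fun i => (y i : K)) (MvPolynomial.pderiv i p)) +
        (fun i => MvPolynomial.aeval (fun i => (y i : K)) (MvPolynomial.pderiv i q)) := by
      funext i
      rw [map_add, map_add]
      rfl
    rw [pf_add, map_add, map_add, hp, hq, h2, map_add]
  | mul_X p j hp =>
    have h1 : PsiV y (dd (pf (MvPolynomial.X j) : Fo κ m)) = ι K (Pi.single j (1 : K)) := by
      have h3 : (pf (MvPolynomial.X j) : Fo κ m) =
          fn (AddMonoidAlgebra.single (Pi.single j 1) 1) := by
        unfold pf pl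
        rw [MvPolynomial.aeval_X]
      unfold PsiV
      rw [h3, PsiG_dd_single, one_smul, litb_um_single]
      congr 1
      rw [Finset.sum_eq_single j]
      · rw [Pi.single_eq_same, Int.cast_one, one_smul, smul_smul,
          mul_inv_cancel₀ (Units.ne_zero _), one_smul]
      · intro b _ hb
        rw [Pi.single_eq_of_ne hb, Int.cast_zero, zero_smul]
      · intro h
        exact absurd (Finset.mem_univ j) h
    have h2 : (fun i => MvPolynomial.aeval (fun i => (y i : K))
        (MvPolynomial.pderiv i (p * MvPolynomial.X j))) =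
        (y j : K) • (fun i => MvPolynomial.aeval (fun i => (y i : K)) (MvPolynomial.pderiv i p)) +
        MvPolynomial.aeval (fun i => (y i : K)) p • (Pi.single j (1 : K) : Fin m → K) := by
      funext i
      rw [Pi.add_apply, Pi.smul_apply, Pi.smul_apply, smul_eq_mul, smul_eq_mul,
        MvPolynomial.pderiv_mul, map_add, map_mul, map_mul, MvPolynomial.aeval_X]
      by_cases hij : i = j
      · subst hij
        rw [MvPolynomial.pderiv_X_self, map_one, Pi.single_eq_same]
        ring
      · rw [MvPolynomial.pderiv_X_of_ne (fun h => hij h.symm), map_zero, Pi.single_eq_of_ne hij]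
        ring
    rw [pf_mul, litb_dd_pf_mul, map_add, map_mul, map_mul, hp, h1, h2, map_add, map_smul, map_smul]
    unfold PsiV
    rw [PsiG_pf, PsiG_pf, MvPolynomial.aeval_X, ← Algebra.commutes, ← Algebra.smul_def,
      ← Algebra.smul_def]

/-- Contraction with `∂_i`. -/
theorem PsiV_cj (y : Fin m → Kˣ) (i : Fin m) (x : Fo κ m) :
    CliffordAlgebra.contractLeft (LinearMap.proj i : (Fin m → K) →ₗ[K] K) (PsiV y x) =
      PsiV y (cj i x) := by
  have h : ∀ l, ((y i : K) • (LinearMap.proj i : (Fin m → K) →ₗ[K] K))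
      (((y l : K)⁻¹) • (Pi.single l 1 : Fin m → K)) = if l = i then 1 else 0 := by
    intro l
    rw [LinearMap.smul_apply, map_smul, LinearMap.proj_apply, smul_eq_mul, smul_eq_mul]
    by_cases hl : l = i
    · subst hl
      rw [if_pos rfl, Pi.single_eq_same, mul_one, mul_inv_cancel₀ (Units.ne_zero _)]
    · rw [if_neg hl, Pi.single_eq_of_ne (fun h => hl h.symm), mul_zero, mul_zero]
  have h1 := PsiG_ct ((y i : K) • (LinearMap.proj i : (Fin m → K) →ₗ[K] K)) y
    (fun l => ((y l : K)⁻¹) • (Pi.single l 1 : Fin m → K)) i h x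
  have h2 : PsiV y (cj i x) = (y i : K)⁻¹ • PsiV y (cf i x) := by
    unfold cj PsiV
    rw [map_mul]
    unfold mo
    rw [PsiG_single, map_one, one_mul, litb_um_neg_single, ← Algebra.smul_def]
  rw [h2]
  unfold PsiV
  rw [← h1, map_smul, LinearMap.smul_apply, smul_smul,
    inv_mul_cancel₀ (Units.ne_zero _), one_smul]

end

end MPadcBK
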