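import Pool.Agent.Lib.MP_adc574_ag_BK.LitDefs
import Pool.Agent.Lib.MP_adc574_ag_BK.LitB
import Pool.Agent.Lib.MP_adc574_ag_BK.LieA

/-!
# JOB LitC: the generic point of the cone

* `aeval_xx`: `MvPolynomial.aeval (xx F) G` is the image of the class of `G` (`MvPolynomial.induction_on` or `MvPolynomial.algHom_ext`). `ker_poly`: `IsFractionRing.injective`, `Ideal.Quotient.eq_zero_iff_mem`,
  `Ideal.mem_span_singleton`.
* `xx_ne_zero`: if `F ∣ X i` then `X i = F G`, `totalDegree`: `1 = totalDegree F + totalDegree G ≥ 2` (`MvPolynomial.totalDegree_mul_of_isDomain`, `MvPolynomial.IsHomogeneous.totalDegree`; `F ≠ 0`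
  as `X i ≠ 0`).
* `ker_fn`: `x = fn f` (`FD_zero_iff`). Choose `N` with `e i + N ≥ 0` for all exponents `e` of `f` and all `i ∈ I` (for `i ∉ I` `e i ≥ 0` by regularity); let `u` be the exponent `N` on `I`, `0` outside.
  `mo u * fn f = pf G` for a polynomial `G` (`G = ∑ e, monomial (e + u) (f.coeff e)`), and `G` is homogeneous of degree `t + N card I` (all exponents of `f` have total degree `t`); if `f = 0` take `w = 0`.
  `ev (xu F hx) f = 0` gives `aeval (xx F) G = 0` (`ev` is multiplicative, `ev_pl`), `F ∣ G` (`ker_poly`), `G = F * H`, and we may take `H` homogeneous (its component of the right degree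
  `t + N card I - d`; if `G ≠ 0` the degree of `G` is `≥ d`; if `G = 0` then `f = 0`). `w = mo (-u) * pf H`.
-/

set_option autoImplicit false

namespace MPadcBK

open ExteriorAlgebra

universe u

variable {κ : Type u} [Field κ] {m : ℕ} (F : MvPolynomial (Fin m) κ) [(Ideal.span {F}).IsPrime]

theorem aeval_xx (G : MvPolynomial (Fin m) κ) : MvPolynomial.aeval (xx F) G =
    algebraMap (MvPolynomial (Fin m) κ ⧸ Ideal.span {F}) (Cone F)
      (Ideal.Quotient.mk (Ideal.span {F}) G) := by
  have h : (MvPolynomial.aeval (xx F) : MvPolynomial (Fin m) κ →ₐ[κ] Cone F) =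
      (IsScalarTower.toAlgHom κ (MvPolynomial (Fin m) κ ⧸ Ideal.span {F}) (Cone F)).comp
        (Ideal.Quotient.mkₐ κ (Ideal.span {F})) := by
    refine MvPolynomial.algHom_ext fun i => ?_
    rw [MvPolynomial.aeval_X]
    rfl
  exact congrArg (fun f => f G) h

theorem ker_poly (G : MvPolynomial (Fin m) κ) : MvPolynomial.aeval (xx F) G = 0 ↔ F ∣ G := by
  rw [aeval_xx, map_eq_zero_iff _ (IsFractionRing.injective _ (Cone F)),
    Ideal.Quotient.eq_zero_iff_mem, Ideal.mem_span_singleton]

theorem xx_ne_zero {d : ℕ} (hd : 2 ≤ d) (hF : F.IsHomogeneous d) (i : Fin m) : xx F i ≠ 0 := by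
  intro h
  have h1 : MvPolynomial.aeval (xx F) (MvPolynomial.X i : MvPolynomial (Fin m) κ) = 0 := by
    rw [MvPolynomial.aeval_X]
    exact h
  rw [ker_poly] at h1
  obtain ⟨G, hG⟩ := h1
  have hX : (MvPolynomial.X i : MvPolynomial (Fin m) κ) ≠ 0 := MvPolynomial.X_ne_zero i
  have hF0 : F ≠ 0 := by
    rintro rfl
    rw [zero_mul] at hG
    exact hX hG
  have hG0 : G ≠ 0 := by
    rintro rfl
    rw [mul_zero] at hG
    exact hX hG
  have h2 := congrArg MvPolynomial.totalDegree hG
  rw [MvPolynomial.totalDegree_mul_of_isDomain hF0 hG0, hF.totalDegree hF0,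
    MvPolynomial.totalDegree_X] at h2
  omega

/-- The coordinates of the generic point of the cone, as units. -/
noncomputable def xu (hx : ∀ i, xx F i ≠ 0) (i : Fin m) : (Cone F)ˣ := Units.mk0 (xx F i) (hx i)

theorem xu_coe (hx : ∀ i, xx F i ≠ 0) (i : Fin m) : ((xu F hx i : (Cone F)ˣ) : Cone F) = xx F i :=
  rfl

omit [(Ideal.span {F}).IsPrime] in
private theorem litc_hc {d : ℕ} (hF : F.IsHomogeneous d) (T : ℕ) (a : MvPolynomial (Fin m) κ) :
    MvPolynomial.homogeneousComponent T (a * F) =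
      if d ≤ T then MvPolynomial.homogeneousComponent (T - d) a * F else 0 := by
  induction a using MvPolynomial.induction_on' with
  | monomial u c =>
    have h1 : (MvPolynomial.monomial u c).IsHomogeneous u.degree :=
      MvPolynomial.isHomogeneous_monomial c rfl
    have h2 := h1.mul hF
    rw [MvPolynomial.homogeneousComponent_of_mem ((MvPolynomial.mem_homogeneousSubmodule _ _).2 h2),
      MvPolynomial.homogeneousComponent_of_mem ((MvPolynomial.mem_homogeneousSubmodule _ _).2 h1)]
    by_cases hd : d ≤ T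
    · rw [if_pos hd]
      by_cases h : T - d = u.degree
      · rw [if_pos (by omega), if_pos h]
      · rw [if_neg (by omega), if_neg h, zero_mul]
    · rw [if_neg hd, if_neg (by omega)]
  | add p q hp hq =>
    rw [add_mul, map_add, hp, hq, map_add, add_mul]
    by_cases hd : d ≤ T
    · rw [if_pos hd, if_pos hd, if_pos hd]
    · rw [if_neg hd, if_neg hd, if_neg hd, add_zero]

private theorem litc_coeff_zero {f : Fn κ m} {e : Ex m} (h : (fn f : Fo κ m).coeff e = 0) :
    f.coeff e = 0 := by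
  have h1 : (fn f : Fo κ m).coeff e = algebraMap κ (Lam κ m) (f.coeff e) := by
    unfold fn
    rw [AddMonoidAlgebra.coeff_mapRingHom]
  rw [h1] at h
  exact (ExteriorAlgebra.algebraMap_eq_zero_iff (M := Fin m → κ) _).1 h

private theorem litc_one_TD : (1 : Fo κ m) ∈ TD (κ := κ) (m := m) {0} := by
  classical
  intro e he
  have h1 : (1 : Fo κ m).coeff e = if (0 : Ex m) = e then 1 else 0 := by
    rw [← mo_zero]
    unfold mo
    rw [AddMonoidAlgebra.coeff_single, Finsupp.single_apply]
  rw [h1, if_neg]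
  rintro rfl
  exact he (by unfold tot; simp)

private theorem litc_tot_add (a b : Ex m) : tot (a + b) = tot a + tot b := by
  unfold tot
  rw [← Finset.sum_add_distrib]
  rfl

private theorem litc_tot_neg (a : Ex m) : tot (-a) = -tot a := by
  unfold tot
  rw [← Finset.sum_neg_distrib]
  rfl

private theorem litc_degree (v : Fin m →₀ ℕ) : ((v.degree : ℕ) : ℤ) = tot (ex v) := by
  unfold tot ex
  rw [Finsupp.degree_eq_sum]
  push_cast
  rfl

/-- A regular function which vanishes at the generic point is divisible by `F`. -/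
theorem ker_fn {d : ℕ} (hF : F.IsHomogeneous d) (hF0 : F ≠ 0) (hx : ∀ i, xx F i ≠ 0) {I : Set (Fin m)} {t : ℤ}
    {f : Fn κ m} (hf : fn f ∈ Reg (κ := κ) I ⊓ TD {t}) (h : ev (xu F hx) f = 0) :
    ∃ w ∈ Reg (κ := κ) I ⊓ FD 0 ⊓ TD {t - d}, fn f = pf F * w := by
  classical
  by_cases hf0 : f = 0
  · refine ⟨0, Submodule.zero_mem _, ?_⟩
    rw [hf0, map_zero, mul_zero]
  obtain ⟨hfR, hfT⟩ := hf
  have hreg : ∀ e ∈ f.coeff.support, ∀ i ∉ I, 0 ≤ e i := by
    intro e he i hi
    by_contra h1
    exact (Finsupp.mem_support_iff.1 he) (litc_coeff_zero ((hfR e i hi).1 (not_le.1 h1)))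
  have htot : ∀ e ∈ f.coeff.support, tot e = t := by
    intro e he
    by_contra h1
    exact (Finsupp.mem_support_iff.1 he) (litc_coeff_zero (hfT e h1))
  obtain ⟨N, hN⟩ : ∃ N : ℕ, ∀ e ∈ f.coeff.support, ∀ i, 0 ≤ e i + N := by
    refine ⟨∑ e ∈ f.coeff.support, ∑ i, (e i).natAbs, fun e he i => ?_⟩
    have h1 : (e i).natAbs ≤ ∑ i, (e i).natAbs :=
      Finset.single_le_sum (f := fun i => (e i).natAbs) (fun _ _ => Nat.zero_le _)
        (Finset.mem_univ i)
    have h2 : ∑ i, (e i).natAbs ≤ ∑ e ∈ f.coeff.support, ∑ i, (e i).natAbs :=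
      Finset.single_le_sum (f := fun e : Ex m => ∑ i, (e i).natAbs) (fun _ _ => Nat.zero_le _) he
    omega
  obtain ⟨u, hu⟩ : ∃ u : Fin m →₀ ℕ, ∀ i, u i = if i ∈ I then N else 0 :=
    ⟨Finsupp.equivFunOnFinite.symm fun i => if i ∈ I then N else 0, fun i => rfl⟩
  have hex : ∀ e ∈ f.coeff.support, ∃ v : Fin m →₀ ℕ, ex v = e + ex u := by
    intro e he
    refine ⟨Finsupp.equivFunOnFinite.symm fun i => (e i + (u i : ℤ)).toNat, ?_⟩
    funext i
    show (((e i + (u i : ℤ)).toNat : ℕ) : ℤ) = e i + (u i : ℤ)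
    rw [Int.toNat_of_nonneg]
    rw [hu i]
    by_cases hi : i ∈ I
    · rw [if_pos hi]
      exact hN e he i
    · rw [if_neg hi]
      have := hreg e he i hi
      simpa using this
  choose! v hv using hex
  obtain ⟨G, hG⟩ : ∃ G : MvPolynomial (Fin m) κ,
      G = ∑ e ∈ f.coeff.support, MvPolynomial.monomial (v e) (f.coeff e) := ⟨_, rfl⟩
  have hplG : pl G = (AddMonoidAlgebra.single (ex u) 1 : Fn κ m) * f := by
    have h1 : (AddMonoidAlgebra.single (ex u) 1 : Fn κ m) * f =
        ∑ e ∈ f.coeff.support, (AddMonoidAlgebra.single (ex u) 1 : Fn κ m) *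
          AddMonoidAlgebra.single e (f.coeff e) := by
      rw [← Finset.mul_sum]
      exact congrArg (fun g => (AddMonoidAlgebra.single (ex u) 1 : Fn κ m) * g)
        (AddMonoidAlgebra.sum_coeff_single f).symm
    rw [h1, hG, map_sum]
    refine Finset.sum_congr rfl fun e he => ?_
    rw [pl_monomial, AddMonoidAlgebra.single_mul_single, one_mul, hv e he, add_comm]
  have hpfG : (pf G : Fo κ m) = mo (ex u) * fn f := by
    unfold pf
    rw [hplG, map_mul, fn_single, one_smul]
  have hdvd : F ∣ G := by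
    rw [← ker_poly]
    have h1 := ev_pl (κ := κ) (xu F hx) G
    rw [hplG, map_mul, h, mul_zero] at h1
    exact h1.symm
  obtain ⟨e0, he0⟩ : ∃ e0, e0 ∈ f.coeff.support := by
    by_contra hcon
    push Not at hcon
    apply hf0
    apply AddMonoidAlgebra.coeff_injective
    ext e
    have := hcon e
    rw [Finsupp.notMem_support_iff] at this
    rw [this]
    rfl
  have hdeg : ∀ e ∈ f.coeff.support, ((v e).degree : ℤ) = t + tot (ex u) := by
    intro e he
    rw [litc_degree, hv e he, litc_tot_add, htot e he]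
  obtain ⟨T, hT⟩ : ∃ T : ℕ, (T : ℤ) = t + tot (ex u) := ⟨_, hdeg e0 he0⟩
  have hGhom : G.IsHomogeneous T := by
    rw [hG]
    refine MvPolynomial.IsHomogeneous.sum _ _ _ fun e he => ?_
    refine MvPolynomial.isHomogeneous_monomial _ ?_
    have h1 := hdeg e he
    rw [← hT] at h1
    exact_mod_cast h1
  have hG0 : G ≠ 0 := by
    intro h1
    rw [h1, pf_zero] at hpfG
    have h2 : (fn f : Fo κ m) = 0 := by
      rw [← mo_neg_mul (ex u) (fn f), ← hpfG, mul_zero]
    apply hf0
    apply AddMonoidAlgebra.coeff_injective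
    ext e
    have h3 : (fn f : Fo κ m).coeff e = 0 := by
      rw [h2]
      rfl
    rw [litc_coeff_zero h3]
    rfl
  obtain ⟨H0, hH0⟩ := hdvd
  have hcomp := litc_hc F hF T H0
  rw [mul_comm, ← hH0, MvPolynomial.homogeneousComponent_eq_self hGhom] at hcomp
  by_cases hdT : d ≤ T
  · rw [if_pos hdT] at hcomp
    obtain ⟨H, hH⟩ : ∃ H, H = MvPolynomial.homogeneousComponent (T - d) H0 := ⟨_, rfl⟩
    rw [← hH] at hcomp
    have hHhom : H.IsHomogeneous (T - d) := by
      rw [hH]
      exact MvPolynomial.homogeneousComponent_isHomogeneous _ _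
    refine ⟨mo (-ex u) * pf H, ⟨⟨?_, ?_⟩, ?_⟩, ?_⟩
    · refine mo_mul_Reg (fun i hi => ?_) (pf_Reg _)
      show 0 ≤ -((u i : ℕ) : ℤ)
      rw [hu i, if_neg hi]
      simp
    · refine mo_mul_FD _ ?_
      exact FD_zero_iff.2 ⟨pl H, rfl⟩
    · have h1 : (pf H : Fo κ m) ∈ TD (κ := κ) (m := m) {((T - d : ℕ) : ℤ)} := by
        have h2 := pf_mul_TD hHhom (x := (1 : Fo κ m)) (P := {0}) litc_one_TD
        rw [mul_one] at h2
        refine TD_mono ?_ h2
        intro b hb
        have h3 : b - ((T - d : ℕ) : ℤ) = 0 := hb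
        rw [Set.mem_singleton_iff]
        omega
      refine TD_mono ?_ (mo_mul_TD (-ex u) h1)
      intro b hb
      have h3 : b - tot (-ex u) = ((T - d : ℕ) : ℤ) := hb
      rw [litc_tot_neg, Nat.cast_sub hdT] at h3
      rw [Set.mem_singleton_iff]
      omega
    · rw [← mul_assoc, ← mo_mul_comm, mul_assoc, ← pf_mul, mul_comm F H, ← hcomp, hpfG,
        mo_neg_mul]
  · rw [if_neg hdT] at hcomp
    exact absurd hcomp hG0

end MPadcBK
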