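import Pool.Agent.Lib.MP_adc574_ag_BK.LitC

/-!
# JOB LitD: a derivation of the function field of the cone

Write `L = Cone F`, `v = (∂_j F (x))_j ∈ L ^ m`. Some `∂_i₀ F (x)` is not 0 (`exists_pderiv`): otherwise `F ∣ ∂_j F` for all `j` (`ker_poly`), `X 0 ^ N ∈ Jac ⊆ (F)`, so `xx F 0 ^ N = 0` (`aeval_xx`).
`exists_sigma`: let `c i = -(∂_i₀ F (x))⁻¹` for `i = i₀` and `c i = 0` otherwise. `δ = MvPolynomial.mkDerivation κ (fun i => Pi.single i 1 + c i • v)` is a `κ`-derivation from `S = MvPolynomial (Fin m) κ` to `L ^ m`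
(an `S`-module through `S → R = S / (F) → L`; use `Module.compHom` or the algebra instances), `δ G = ∑ i, ∂_i G (x) • (Pi.single i 1 + c i • v)` (`MvPolynomial.mkDerivation_eq..`), so
`δ F = v + (∑ i, ∂_i F (x) * c i) • v = v - v = 0`. So `δ (F G) = 0` and `δ` induces a derivation of `R = S / (F)` (as a linear map by `Submodule.liftQ` / `Ideal.Quotient`, the Leibniz rule by surjectivity), which gives
an `R`-linear map `Ω[R⁄κ] → L ^ m` (`Derivation.liftKaehlerDifferential`), and an `L`-linear map `σ : Ω[L⁄κ] → L ^ m` because `Ω[L⁄κ]` is the localization of `Ω[R⁄κ]`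
(`KaehlerDifferential.isLocalizedModule_map`, `IsLocalizedModule.lift`, `IsLocalizedModule.extendScalarsOfIsLocalization`; or `KaehlerDifferential.isBaseChange_of_formallyEtale`, `IsBaseChange.lift`).
(Alternatively define the derivation on `L` directly by the quotient rule.)
-/

set_option autoImplicit false

namespace MPadcBK

open ExteriorAlgebra

universe u

variable {κ : Type u} [Field κ] {m : ℕ} (F : MvPolynomial (Fin m) κ) [(Ideal.span {F}).IsPrime]

/-- The differential of `F` at the generic point of the cone. -/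
noncomputable def dv : Fin m → Cone F := fun j =>
  MvPolynomial.aeval (xx F) (MvPolynomial.pderiv j F)

theorem exists_pderiv (hs : Smooth F) (hx : ∀ i, xx F i ≠ 0) (hm : 0 < m) : ∃ j, dv F j ≠ 0 := by
  by_contra hc
  push Not at hc
  obtain ⟨N, hN⟩ := hs ⟨0, hm⟩
  have h1 : Ideal.span (Set.range fun j => MvPolynomial.pderiv j F) ≤ Ideal.span {F} := by
    rw [Ideal.span_le]
    rintro _ ⟨j, rfl⟩
    exact Ideal.mem_span_singleton.2 ((ker_poly F _).1 (hc j))
  have h2 := (ker_poly F _).2 (Ideal.mem_span_singleton.1 (h1 hN))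
  rw [map_pow, MvPolynomial.aeval_X] at h2
  exact pow_ne_zero N (hx _) h2

/-- the vectors `e_i + c_i v` -/
private noncomputable def litd_w (c : Fin m → Cone F) (i : Fin m) : Fin m → Cone F :=
  Pi.single i 1 + c i • dv F

/-- the derivation of the polynomial ring -/
private noncomputable def litd_d (c : Fin m → Cone F) :
    MvPolynomial (Fin m) κ →ₗ[κ] (Fin m → Cone F) where
  toFun G := ∑ i, MvPolynomial.aeval (xx F) (MvPolynomial.pderiv i G) • litd_w F c i
  map_add' G H := by
    rw [← Finset.sum_add_distrib]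
    refine Finset.sum_congr rfl fun i _ => ?_
    rw [map_add, map_add, add_smul]
  map_smul' a G := by
    rw [RingHom.id_apply, Finset.smul_sum]
    refine Finset.sum_congr rfl fun i _ => ?_
    rw [Derivation.map_smul, map_smul, smul_assoc]

private theorem litd_d_apply (c : Fin m → Cone F) (G : MvPolynomial (Fin m) κ) :
    litd_d F c G = ∑ i, MvPolynomial.aeval (xx F) (MvPolynomial.pderiv i G) • litd_w F c i := rfl

private theorem litd_d_mul (c : Fin m → Cone F) (G H : MvPolynomial (Fin m) κ) :
    litd_d F c (G * H) = MvPolynomial.aeval (xx F) G • litd_d F c H +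
      MvPolynomial.aeval (xx F) H • litd_d F c G := by
  rw [litd_d_apply, litd_d_apply, litd_d_apply, Finset.smul_sum, Finset.smul_sum,
    ← Finset.sum_add_distrib]
  refine Finset.sum_congr rfl fun i _ => ?_
  rw [Derivation.leibniz, map_add, smul_eq_mul, smul_eq_mul, map_mul, map_mul, add_smul, mul_smul,
    mul_smul]

private theorem litd_d_X (c : Fin m → Cone F) (i : Fin m) :
    litd_d F c (MvPolynomial.X i) = litd_w F c i := by
  rw [litd_d_apply, Finset.sum_eq_single i]
  · rw [MvPolynomial.pderiv_X_self, map_one, one_smul]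
  · intro j _ hj
    rw [MvPolynomial.pderiv_X_of_ne hj.symm, map_zero, zero_smul]
  · intro h
    exact absurd (Finset.mem_univ i) h

private theorem litd_d_F {c : Fin m → Cone F} (hc : ∑ i, dv F i * c i = -1) :
    litd_d F c F = 0 := by
  rw [litd_d_apply]
  have h1 : ∀ i, MvPolynomial.aeval (xx F) (MvPolynomial.pderiv i F) • litd_w F c i =
      dv F i • (Pi.single i 1 : Fin m → Cone F) + (dv F i * c i) • dv F := by
    intro i
    unfold litd_w
    rw [smul_add, mul_smul]
    rfl
  rw [Finset.sum_congr rfl fun i _ => h1 i, Finset.sum_add_distrib, ← Finset.sum_smul, hc, neg_smul,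
    one_smul]
  have h2 : ∑ i, dv F i • (Pi.single i 1 : Fin m → Cone F) = dv F := by
    funext j
    rw [Finset.sum_apply, Finset.sum_eq_single j]
    · rw [Pi.smul_apply, Pi.single_eq_same, smul_eq_mul, mul_one]
    · intro i _ hi
      rw [Pi.smul_apply, Pi.single_eq_of_ne hi.symm, smul_zero]
    · intro h
      exact absurd (Finset.mem_univ j) h
  rw [h2, add_neg_cancel]

private theorem litd_d_dvd {c : Fin m → Cone F} (hc : ∑ i, dv F i * c i = -1)
    {G : MvPolynomial (Fin m) κ} (hG : F ∣ G) : litd_d F c G = 0 := by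
  obtain ⟨H, rfl⟩ := hG
  rw [litd_d_mul, litd_d_F F hc, smul_zero, add_zero, (ker_poly F F).2 dvd_rfl, zero_smul]

private theorem litd_d_congr {c : Fin m → Cone F} (hc : ∑ i, dv F i * c i = -1)
    {G H : MvPolynomial (Fin m) κ}
    (hG : Ideal.Quotient.mk (Ideal.span {F}) G = Ideal.Quotient.mk (Ideal.span {F}) H) :
    litd_d F c G = litd_d F c H := by
  have h1 : litd_d F c (G - H) = 0 :=
    litd_d_dvd F hc (Ideal.mem_span_singleton.1 (Ideal.Quotient.eq.1 hG))
  rw [map_sub] at h1
  exact sub_eq_zero.1 h1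

/-- a representative -/
private noncomputable def litd_rep (a : MvPolynomial (Fin m) κ ⧸ Ideal.span {F}) :
    MvPolynomial (Fin m) κ := (Ideal.Quotient.mk_surjective a).choose

private theorem litd_rep_spec (a : MvPolynomial (Fin m) κ ⧸ Ideal.span {F}) :
    Ideal.Quotient.mk (Ideal.span {F}) (litd_rep F a) = a :=
  (Ideal.Quotient.mk_surjective a).choose_spec

private theorem litd_smul (G : MvPolynomial (Fin m) κ) (x : Fin m → Cone F) :
    MvPolynomial.aeval (xx F) G • x = (Ideal.Quotient.mk (Ideal.span {F}) G) • x := by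
  rw [aeval_xx, algebraMap_smul]

/-- the derivation of the coordinate ring -/
private noncomputable def litd_D {c : Fin m → Cone F} (hc : ∑ i, dv F i * c i = -1) :
    Derivation κ (MvPolynomial (Fin m) κ ⧸ Ideal.span {F}) (Fin m → Cone F) :=
  Derivation.mk'
    { toFun := fun a => litd_d F c (litd_rep F a)
      map_add' := fun a b => by
        rw [← map_add]
        exact litd_d_congr F hc (by rw [litd_rep_spec, map_add, litd_rep_spec, litd_rep_spec])
      map_smul' := fun t a => by
        rw [RingHom.id_apply, ← map_smul]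
        refine litd_d_congr F hc ?_
        have h1 : Ideal.Quotient.mk (Ideal.span {F}) (t • litd_rep F a) =
            t • Ideal.Quotient.mk (Ideal.span {F}) (litd_rep F a) := rfl
        rw [litd_rep_spec, h1, litd_rep_spec] }
    (fun a b => by
      show litd_d F c (litd_rep F (a * b)) = a • litd_d F c (litd_rep F b) +
        b • litd_d F c (litd_rep F a)
      have h1 : litd_d F c (litd_rep F (a * b)) = litd_d F c (litd_rep F a * litd_rep F b) :=
        litd_d_congr F hc (by rw [litd_rep_spec, map_mul, litd_rep_spec, litd_rep_spec])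
      rw [h1, litd_d_mul, litd_smul, litd_smul, litd_rep_spec, litd_rep_spec])

private theorem litd_D_mk {c : Fin m → Cone F} (hc : ∑ i, dv F i * c i = -1)
    (G : MvPolynomial (Fin m) κ) :
    litd_D F hc (Ideal.Quotient.mk (Ideal.span {F}) G) = litd_d F c G :=
  litd_d_congr F hc (litd_rep_spec F _)

theorem exists_sigma (hs : Smooth F) (hx : ∀ i, xx F i ≠ 0) (hm : 0 < m) :
    ∃ σ : Ω[Cone F⁄κ] →ₗ[Cone F] (Fin m → Cone F), ∀ i, ∃ c : Cone F,
      σ (KaehlerDifferential.D κ (Cone F) (xx F i)) = Pi.single i 1 + c • dv F := by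
  obtain ⟨i₀, hi₀⟩ := exists_pderiv F hs hx hm
  let c : Fin m → Cone F := Pi.single i₀ (-(dv F i₀)⁻¹)
  have hc : ∑ i, dv F i * c i = -1 := by
    rw [Finset.sum_eq_single i₀]
    · show dv F i₀ * (Pi.single i₀ (-(dv F i₀)⁻¹) : Fin m → Cone F) i₀ = -1
      rw [Pi.single_eq_same, mul_neg, mul_inv_cancel₀ hi₀]
    · intro i _ hi
      show dv F i * (Pi.single i₀ (-(dv F i₀)⁻¹) : Fin m → Cone F) i = 0
      rw [Pi.single_eq_of_ne hi, mul_zero]
    · intro h
      exact absurd (Finset.mem_univ i₀) h
  have hE : Algebra.FormallyEtale (MvPolynomial (Fin m) κ ⧸ Ideal.span {F}) (Cone F) :=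
    Algebra.FormallyEtale.of_isLocalization (Rₘ := Cone F)
      (nonZeroDivisors (MvPolynomial (Fin m) κ ⧸ Ideal.span {F}))
  have hB := KaehlerDifferential.isBaseChange_of_formallyEtale κ
    (MvPolynomial (Fin m) κ ⧸ Ideal.span {F}) (Cone F)
  refine ⟨hB.lift (litd_D F hc).liftKaehlerDifferential, fun i => ⟨c i, ?_⟩⟩
  have h1 : KaehlerDifferential.D κ (Cone F) (xx F i) =
      KaehlerDifferential.map κ κ (MvPolynomial (Fin m) κ ⧸ Ideal.span {F}) (Cone F)
        (KaehlerDifferential.D κ (MvPolynomial (Fin m) κ ⧸ Ideal.span {F})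
          (Ideal.Quotient.mk (Ideal.span {F}) (MvPolynomial.X i))) := by
    rw [KaehlerDifferential.map_D]
    rfl
  rw [h1, IsBaseChange.lift_eq, Derivation.liftKaehlerDifferential_comp_D, litd_D_mk, litd_d_X]
  rfl

end MPadcBK
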