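import Pool.Agent.Lib.MP_adc574_ag_BK.Defs

/-!
# The sheaves of exact forms on a projective hypersurface

`X` is the hypersurface `F = 0` in the projective space with the homogeneous coordinates `x_i`, `i : Fin m`,
over the field `κ`, where `F` is homogeneous and the ideal of `F` is prime.
-/

set_option autoImplicit false

namespace MPadcBK

universe u

variable {κ : Type u} [Field κ] {m : ℕ} (F : MvPolynomial (Fin m) κ)

/-- The field of fractions of the homogeneous coordinate ring `κ[x] / (F)`. -/
abbrev Cone := FractionRing (MvPolynomial (Fin m) κ ⧸ Ideal.span {F})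

/-- The homogeneous coordinates. -/
noncomputable def xx (i : Fin m) : Cone F :=
  algebraMap (MvPolynomial (Fin m) κ ⧸ Ideal.span {F}) (Cone F)
    (Ideal.Quotient.mk (Ideal.span {F}) (MvPolynomial.X i))

variable [(Ideal.span {F}).IsPrime]

/-- The function field of `X`: it is generated by the quotients `x_i / x_j`. -/
noncomputable def FF : IntermediateField κ (Cone F) :=
  IntermediateField.adjoin κ {z | ∃ i j, z = xx F i / xx F j}

/-- The ring of regular functions on the affine open set of the points of `X` with `x_i ≠ 0` for all
`i ∈ I` (for `I` nonempty): it is generated by the `x_j / x_i`, `i ∈ I`. -/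
noncomputable def OO (I : Set (Fin m)) : Subalgebra κ (FF F) :=
  Algebra.adjoin κ {z | ∃ j, ∃ i ∈ I, (z : Cone F) = xx F j / xx F i}

/-- The group of exact forms of degree `q + 1` on this open set, that is the group
generated by the products `D a_0 ∧ ⋯ ∧ D a_q` with regular functions `a_0, …, a_q`. -/
noncomputable def BO (q : ℕ) (I : Set (Fin m)) :
    AddSubgroup (ExteriorAlgebra (FF F) (Ω[FF F⁄κ])) :=
  AddSubgroup.closure {ω | ∃ a : Fin (q + 1) → FF F, (∀ l, a l ∈ OO F I) ∧
    ω = ExteriorAlgebra.ιMulti (FF F) (q + 1) fun l => KaehlerDifferential.D κ (FF F) (a l)}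

/-- `X` is ordinary in the sense of Bloch and Kato: `H ^ j (X, B Ω ^ i) = 0` for all `i ≥ 1` and all `j`,
where the cohomology is computed by the Čech complex of the covering by the open sets `x_i ≠ 0`. -/
def IsBKOrdinary : Prop := ∀ q j : ℕ, HZero (BO F q) j

end MPadcBK
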