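import Pool.Agent.Lib.MP_adc574_ag_BK.LitD
import Pool.Agent.Lib.MP_adc574_ag_BK.RegA
import Pool.Agent.Lib.MP_adc574_ag_BK.RegB

/-!
# JOB LitE: forms which vanish on the cone

`L = Cone F`, `xu F hx : Fin m → Lˣ` the coordinates.
* `PsiV_ker`: induction on `q` (all `t`). `q = 0`: `τ = fn f` (`FD_zero_iff`), `PsiG_fn` (`algebraMap` to the exterior algebra is injective: `ExteriorAlgebra.algebraMap_injective` or
  `ExteriorAlgebra.algebraMap_leftInverse`), `ker_fn`. `q + 1`: if `m < q + 1` then `τ = 0` (`FD_top`). Otherwise `q + 1 ≤ m < p`, so `((q + 1 : ℕ) : κ) ≠ 0`. `cj i τ ∈ Reg I ⊓ FD q ⊓ TD {t - 1}` and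
  `PsiV (cj i τ) = contractLeft .. (PsiV τ) = 0` (`PsiV_cj`), so `cj i τ = pf F * w_i`. And `(q + 1) • τ = ∑ i, dd (mo (Pi.single i 1)) * cj i τ` (coefficientwise: `∑ i, ι (single i 1) * cti i y = (q + 1) • y` for
  `y ∈ ⋀^(q+1)`: `sum_iota_ct`, by induction on products, `cti_iota_mul`), hence `τ = pf F * ((q+1)⁻¹ • ∑ i, dd (mo (Pi.single i 1)) * w_i)`. `dd (mo (single i 1)) = dd (pf (X i))`, so the products are in
  `Reg I` (`ddpf_mul_Reg`), `FD (q + 1)` (`ddpf_mul_FD`), `TD {t - 1 - d + 1}`.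
* `wedge_sec`: let `σ` be as in `exists_sigma`. For all `x`: `ι (dv F) * ExteriorAlgebra.map σ (PsiD (xu F hx) x) = ι (dv F) * PsiV (xu F hx) x`: by `PsiG_map` both are `PsiG y w x` with `w_i` differing by a multiple of `dv F`
  (`PsiD`: `w i = (y i)⁻¹ • σ (D (y i)) = (y i)⁻¹ • (Pi.single i 1 + c • dv F)`); prove for any `w, w'` with `w i - w' i ∈ L v`: `ι v * PsiG y w x = ι v * PsiG y w' x` on `x = single e a` by
  `CliffordAlgebra.left_induction` on `a` (`ι v * (ι (s + c v) * z) = - ι (s) * (ι v * z)`...).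
* `ker_cone`: `PsiD x = 0` gives `ι (dv F) * PsiV x = 0`, that is `PsiV (dd (pf F) * x) = 0` (`PsiV_ddpf`); `dd (pf F) * x ∈ Reg I ⊓ FD (q + 1) ⊓ TD {t + d}`; `PsiV_ker`.
-/

set_option autoImplicit false

namespace MPadcBK

open ExteriorAlgebra

universe u

variable {κ : Type u} [Field κ] {m : ℕ}

theorem sum_iota_ct {q : ℕ} {y : Lam κ m} (hy : y ∈ ⋀[κ]^q (Fin m → κ)) :
    ∑ i, ι κ (Pi.single i 1) * cti i y = (q : κ) • y := by
  induction q generalizing y with
  | zero =>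
    rw [Nat.cast_zero, zero_smul]
    refine Finset.sum_eq_zero fun i _ => ?_
    rw [cti, ct_mem_zero _ hy, mul_zero]
  | succ q ih =>
    change y ∈ (LinearMap.range (ι κ)) ^ (q + 1) at hy
    rw [pow_succ'] at hy
    refine Submodule.mul_induction_on hy ?_ ?_
    · rintro _ ⟨v, rfl⟩ z hz
      have h1 : ∀ i : Fin m, ι κ (Pi.single i (1 : κ)) * cti i (ι κ v * z) =
          v i • (ι κ (Pi.single i (1 : κ)) * z) + ι κ v * (ι κ (Pi.single i (1 : κ)) * cti i z) := by
        intro i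
        rw [cti_iota_mul, mul_sub, mul_smul_comm, iota_comm (Pi.single i 1) v (cti i z),
          sub_neg_eq_add]
      rw [Finset.sum_congr rfl fun i _ => h1 i, Finset.sum_add_distrib, ← Finset.mul_sum, ih hz]
      have h2 : ∑ i, v i • (ι κ (Pi.single i (1 : κ)) * z) = ι κ v * z := by
        have h3 : v = ∑ i, v i • (Pi.single i (1 : κ) : Fin m → κ) := by
          funext j
          rw [Finset.sum_apply, Finset.sum_eq_single j]
          · simp
          · intro b _ hb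
            simp [Pi.single_eq_of_ne hb.symm]
          · intro h
            exact absurd (Finset.mem_univ j) h
        conv_rhs => rw [h3, map_sum, Finset.sum_mul]
        refine Finset.sum_congr rfl fun i _ => ?_
        rw [map_smul, smul_mul_assoc]
      rw [h2, mul_smul_comm, Nat.cast_succ, add_smul, one_smul, add_comm]
    · intro a b ha hb
      simp only [map_add, mul_add, Finset.sum_add_distrib, ha, hb, smul_add]

private theorem ddX_eq (i : Fin m) : dd (pf (MvPolynomial.X i) : Fo κ m) =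
    AddMonoidAlgebra.single (Pi.single i 1) (ι κ (Pi.single i 1)) := by
  have h1 : (pf (MvPolynomial.X i) : Fo κ m) = mo (Pi.single i 1) := by
    rw [pf, pl, MvPolynomial.aeval_X, fn_single, one_smul]
  rw [h1]
  refine fo_ext fun e => ?_
  rw [dd_coeff, mo, AddMonoidAlgebra.coeff_single, AddMonoidAlgebra.coeff_single]
  by_cases h : Pi.single i 1 = e
  · subst h
    rw [Finsupp.single_eq_same, Finsupp.single_eq_same, mul_one]
    congr 1
    funext j
    rcases eq_or_ne j i with rfl | hj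
    · simp [bar]
    · simp [bar, Pi.single_eq_of_ne hj]
  · rw [Finsupp.single_eq_of_ne (Ne.symm h), Finsupp.single_eq_of_ne (Ne.symm h), mul_zero]

theorem sum_ddX_cj {q : ℕ} {x : Fo κ m} (hx : x ∈ FD (κ := κ) (m := m) q) :
    ∑ i, dd (pf (MvPolynomial.X i)) * cj i x = (q : κ) • x := by
  refine fo_ext fun e => ?_
  have h1 : ∀ i : Fin m, (dd (pf (MvPolynomial.X i)) * cj i x).coeff e =
      ι κ (Pi.single i 1) * cti i (x.coeff e) := by
    intro i
    rw [ddX_eq, AddMonoidAlgebra.coeff_single_mul_apply, cj, coeff_mo_mul, cf_coeff]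
    congr 3
    abel
  rw [AddMonoidAlgebra.coeff_sum, Finsupp.finsetSum_apply, Finset.sum_congr rfl fun i _ => h1 i,
    sum_iota_ct (hx e), AddMonoidAlgebra.coeff_smul, Finsupp.smul_apply]

private theorem lam_wedge {K : Type u} [Field K] [Algebra κ K] {N : Type u} [AddCommGroup N] [Module K N]
    [Module κ N] [IsScalarTower κ K N] (w w' : Fin m → N) (v : N)
    (h : ∀ i, ∃ c : K, w i = w' i + c • v) (a : Lam κ m) :
    ι K v * lamMap (κ := κ) (K := K) w a = ι K v * lamMap (κ := κ) (K := K) w' a := by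
  have hcomm : ∀ (s t : N) (z : ExteriorAlgebra K N), ι K s * (ι K t * z) = - (ι K t * (ι K s * z)) := by
    intro s t z
    rw [eq_neg_iff_add_eq_zero, ← mul_assoc, ← mul_assoc, ← add_mul, ι_add_mul_swap, zero_mul]
  induction a using CliffordAlgebra.left_induction with
  | algebraMap r =>
    have h1 : ∀ w : Fin m → N, lamMap (κ := κ) (K := K) w (algebraMap κ (Lam κ m) r) =
        algebraMap κ _ r := fun w => AlgHom.commutes _ _
    exact (congrArg (fun z => ι K v * z) (h1 w)).trans (congrArg (fun z => ι K v * z) (h1 w')).symm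
  | add a b ha hb => rw [map_add, map_add, mul_add, mul_add, ha, hb]
  | ι_mul a u ha =>
    choose c hc using h
    have h2 : ∑ i, u i • w i = ∑ i, u i • w' i + (∑ i, u i • c i) • v := by
      rw [Finset.sum_smul, ← Finset.sum_add_distrib]
      refine Finset.sum_congr rfl fun i _ => ?_
      rw [hc i, smul_add, smul_assoc]
    change ι K v * lamMap (κ := κ) (K := K) w (ι κ u * a) =
      ι K v * lamMap (κ := κ) (K := K) w' (ι κ u * a)
    rw [map_mul, map_mul, lamMap_iota, lamMap_iota, h2, map_add, map_smul, add_mul, mul_add,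
      smul_mul_assoc, mul_smul_comm, hcomm v v]
    have h3 : ι K v * (ι K v * lamMap (κ := κ) (K := K) w a) = 0 := by
      rw [← mul_assoc, ι_sq_zero, zero_mul]
    rw [h3, neg_zero, smul_zero, add_zero, hcomm v, hcomm v, ha]

theorem PsiG_wedge {K : Type u} [Field K] [Algebra κ K] {N : Type u} [AddCommGroup N] [Module K N]
    [Module κ N] [IsScalarTower κ K N] (y : Fin m → Kˣ) (w w' : Fin m → N) (v : N)
    (h : ∀ i, ∃ c : K, w i = w' i + c • v) (x : Fo κ m) :
    ι K v * PsiG y w x = ι K v * PsiG y w' x := by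
  induction x using AddMonoidAlgebra.induction_linear with
  | zero => rw [map_zero, map_zero]
  | add a b ha hb => rw [map_add, map_add, mul_add, mul_add, ha, hb]
  | single e a => rw [PsiG_single, PsiG_single, ← mul_assoc, ← mul_assoc, lam_wedge w w' v h a]

variable (F : MvPolynomial (Fin m) κ) [(Ideal.span {F}).IsPrime]

theorem PsiV_ker (p : ℕ) [Fact p.Prime] [CharP κ p] (hmp : m < p) {d : ℕ}
    (hF : F.IsHomogeneous d) (hF0 : F ≠ 0) (hx : ∀ i, xx F i ≠ 0) {I : Set (Fin m)} (q : ℕ)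
    (t : ℤ) (τ : Fo κ m) (hτ : τ ∈ Reg (κ := κ) I ⊓ FD q ⊓ TD {t}) (h : PsiV (xu F hx) τ = 0) :
    ∃ w ∈ Reg (κ := κ) I ⊓ FD q ⊓ TD {t - d}, τ = pf F * w := by
  induction q generalizing t τ with
  | zero =>
    obtain ⟨⟨hR, hq⟩, hT⟩ := hτ
    obtain ⟨f, rfl⟩ := FD_zero_iff.1 hq
    rw [PsiV, PsiG_fn] at h
    have h1 : ev (xu F hx) f = 0 :=
      (ExteriorAlgebra.algebraMap_eq_zero_iff _ _).1 h
    exact ker_fn F hF hF0 hx ⟨hR, hT⟩ h1
  | succ q ih =>
    obtain ⟨⟨hR, hq⟩, hT⟩ := hτ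
    by_cases hmq : m < q + 1
    · refine ⟨0, Submodule.zero_mem _, ?_⟩
      rw [FD_top hmq hq, mul_zero]
    · have h1 : ∀ i : Fin m, ∃ w ∈ Reg (κ := κ) I ⊓ FD q ⊓ TD {t - 1 - d}, cj i τ = pf F * w := by
        intro i
        refine ih (t - 1) (cj i τ) ⟨⟨cj_Reg i hR, cj_FD i hq⟩, ?_⟩ ?_
        · refine TD_mono ?_ (cj_TD i hT)
          intro s hs
          simp only [Set.mem_ofPred_eq, Set.mem_singleton_iff] at hs ⊢
          omega
        · rw [← PsiV_cj, h, map_zero]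
      choose w hw hw' using h1
      have h2 : ((q + 1 : ℕ) : κ) ≠ 0 := by
        intro h0
        rw [CharP.cast_eq_zero_iff κ p] at h0
        have := Nat.le_of_dvd (Nat.succ_pos q) h0
        omega
      have h3 : ((q + 1 : ℕ) : κ) • τ = pf F * ∑ i, dd (pf (MvPolynomial.X i)) * w i := by
        rw [← sum_ddX_cj hq, Finset.mul_sum]
        refine Finset.sum_congr rfl fun i _ => ?_
        rw [hw' i, ← mul_assoc, ← mul_assoc, ← pf_mul_comm F (dd (pf (MvPolynomial.X i)))]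
      refine ⟨((q + 1 : ℕ) : κ)⁻¹ • ∑ i, dd (pf (MvPolynomial.X i)) * w i, ?_, ?_⟩
      · refine Submodule.smul_mem _ _ (Submodule.sum_mem _ fun i _ => ?_)
        obtain ⟨⟨hwR, hwq⟩, hwT⟩ := hw i
        refine ⟨⟨ddpf_mul_Reg _ hwR, ddpf_mul_FD _ hwq⟩, ?_⟩
        refine TD_mono ?_ (ddpf_mul_TD (MvPolynomial.isHomogeneous_X κ i) hwT)
        intro s hs
        simp only [Set.mem_ofPred_eq, Set.mem_singleton_iff, Nat.cast_one] at hs ⊢
        omega
      · rw [mul_smul_comm, ← h3, smul_smul, inv_mul_cancel₀ h2, one_smul]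

/-- A regular form which vanishes on the cone. -/
theorem ker_cone (p : ℕ) [Fact p.Prime] [CharP κ p] (hm : 0 < m) (hmp : m < p) {d : ℕ}
    (hF : F.IsHomogeneous d) (hF0 : F ≠ 0) (hs : Smooth F) (hx : ∀ i, xx F i ≠ 0)
    {I : Set (Fin m)} {q : ℕ} {t : ℤ} {x : Fo κ m}
    (hx' : x ∈ Reg (κ := κ) I ⊓ FD q ⊓ TD {t}) (h : PsiD (xu F hx) x = 0) :
    ∃ w ∈ Reg (κ := κ) I ⊓ FD (q + 1) ⊓ TD {t}, dd (pf F) * x = pf F * w := by
  obtain ⟨σ, hσ⟩ := exists_sigma F hs hx hm
  have h1 : PsiG (xu F hx) (fun i => σ (((xu F hx i : (Cone F)ˣ) : Cone F)⁻¹ •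
      KaehlerDifferential.D κ (Cone F) ((xu F hx i : (Cone F)ˣ) : Cone F))) x = 0 := by
    rw [← PsiG_map, ← PsiD, h, map_zero]
  have h2 : ι (Cone F) (dv F) * PsiV (xu F hx) x = 0 := by
    have h3 := PsiG_wedge (xu F hx) (fun i => σ (((xu F hx i : (Cone F)ˣ) : Cone F)⁻¹ •
      KaehlerDifferential.D κ (Cone F) ((xu F hx i : (Cone F)ˣ) : Cone F)))
      (fun i => ((xu F hx i : (Cone F)ˣ) : Cone F)⁻¹ • (Pi.single i 1 : Fin m → Cone F)) (dv F)
      (by
        intro i
        obtain ⟨c, hc⟩ := hσ i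
        refine ⟨((xu F hx i : (Cone F)ˣ) : Cone F)⁻¹ * c, ?_⟩
        rw [map_smul, xu_coe, hc, smul_add, smul_smul]) x
    rw [h1, mul_zero] at h3
    exact h3.symm
  have h3 : PsiV (xu F hx) (dd (pf F) * x) = 0 := by
    rw [map_mul, PsiV_ddpf]
    exact h2
  obtain ⟨⟨hR, hq⟩, hT⟩ := hx'
  obtain ⟨w, hw, hw'⟩ := PsiV_ker F p hmp hF hF0 hx (q + 1) (t + d) (dd (pf F) * x)
    ⟨⟨ddpf_mul_Reg F hR, ddpf_mul_FD F hq⟩, by
      refine TD_mono ?_ (ddpf_mul_TD hF hT)
      intro s hs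
      simp only [Set.mem_ofPred_eq, Set.mem_singleton_iff] at hs ⊢
      omega⟩ h3
  refine ⟨w, ?_, hw'⟩
  rw [show t + (d : ℤ) - d = t by ring] at hw
  exact hw

end MPadcBK
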