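import Pool.Agent.Lib.MP_adc574_ag_BK.LieA
import Pool.Agent.Lib.MP_adc574_ag_BK.ResA
import Pool.Agent.Lib.MP_adc574_ag_BK.LitE

/-!
# JOB LitG: the forms on an affine chart of `P^{m-1}` are generated by functions

`prodd a = dd (fn (a 0)) * ... * dd (fn (a (q-1)))`.
* `prodd_succ`, `dd_prodd`, `prodd_mem`: `List.ofFn_succ`, induction on `q` (`dd_one_mul` or `dd (dd (fn f) * x) = - dd (fn f) * dd x`).
  `cfe (dd (fn f)) = 0` for `fn f ∈ TD {0}` (`euler`, `cfe_FD_zero`), `cfe_one_mul`.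
* `gen_mem`: `⊇` by closure induction. `⊆`: induction on `q`. `q = 0`: `x = fn f` (`FD_zero_iff`), in `Reg I ⊓ TD {0}`. `q + 1`: if `m < q + 1` then `x = 0` (`FD_top`); otherwise `((q + 1 : ℕ) : κ) ≠ 0` (`q + 1 ≤ m < p`). Let `o ∈ I`.
  `(q + 1) • x = ∑ i, dl i * cf i x` (as `sum_ddX_cj`, or from it: `dd (pf (X i)) * cj i x = dl i * cf i x`) and `∑ i, cf i x = cfe x = 0` (`cte_eq_sum`), so `(q + 1) • x = ∑ i, (dl i - dl o) * cf i x`. Put
  `y_i = single (Pi.single i 1 - Pi.single o 1) 1` (the function `x_i / x_o`): `dd (fn y_i) = fn y_i * (dl i - dl o)`, so `(dl i - dl o) * cf i x = dd (fn y_i) * (mo (Pi.single o 1 - Pi.single i 1) * cf i x)` and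
  `mo (Pi.single o 1 - Pi.single i 1) * cf i x = mo (Pi.single o 1) * cj i x` is in `Reg I ⊓ FD q ⊓ TD {0}` (`cj_Reg`, `mo_mul_Reg`, `o ∈ I`) and is killed by `cfe` (`cfe` anticommutes with `cf i`: `ct_comm`).
  By induction it is a sum of `fn a0 * prodd a`, and `dd (fn y_i) * (fn a0 * prodd a) = fn a0 * prodd (Fin.cons y_i a)`; scalars: `(q+1)⁻¹ • (fn a0 * z) = fn ((q+1)⁻¹ • a0) * z`.
* `BP_gen`: `dd (fn a0 * prodd a) = dd (fn a0) * prodd a = prodd (Fin.cons a0 a)`.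
-/

set_option autoImplicit false

namespace MPadcBK

open ExteriorAlgebra

universe u

variable {κ : Type u} [Field κ] {m : ℕ}

/-- The product of the exact 1-forms `d a_l`. -/
noncomputable def prodd {q : ℕ} (a : Fin q → Fn κ m) : Fo κ m :=
  (List.ofFn fun l => dd (fn (a l) : Fo κ m)).prod

theorem prodd_zero (a : Fin 0 → Fn κ m) : prodd a = 1 := by
  unfold prodd
  rw [List.ofFn_zero, List.prod_nil]

theorem prodd_succ {q : ℕ} (a : Fin (q + 1) → Fn κ m) :
    prodd a = dd (fn (a 0)) * prodd (fun l => a l.succ) := by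
  unfold prodd
  rw [List.ofFn_succ, List.prod_cons]

private theorem litg_dd_one : dd (1 : Fo κ m) = 0 := by
  have h := dd_fn_mul (1 : Fn κ m) (1 : Fo κ m)
  rw [map_one, mul_one, one_mul, mul_one] at h
  exact left_eq_add.1 h

private theorem litg_ddfn_Reg {I : Set (Fin m)} {f : Fn κ m} (hf : fn f ∈ Reg (κ := κ) I)
    {x : Fo κ m} (hx : x ∈ Reg (κ := κ) I) : dd (fn f) * x ∈ Reg (κ := κ) I := by
  have h := dd_fn_mul f x
  have h1 : dd (fn f) * x = dd (fn f * x) - fn f * dd x := by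
    rw [h, add_sub_cancel_right]
  rw [h1]
  exact Submodule.sub_mem _ (dd_Reg (fn_mul_Reg hf hx)) (fn_mul_Reg hf (dd_Reg hx))

private theorem litg_fn_TD {f : Fn κ m} (hf : fn f ∈ TD (κ := κ) (m := m) {0})
    {x : Fo κ m} (hx : x ∈ TD (κ := κ) (m := m) {0}) : fn f * x ∈ TD (κ := κ) (m := m) {0} := by
  have h := fn_mul_TD hf hx
  rw [zero_add] at h
  exact h

private theorem litg_ddfn_TD {f : Fn κ m} (hf : fn f ∈ TD (κ := κ) (m := m) {0})
    {x : Fo κ m} (hx : x ∈ TD (κ := κ) (m := m) {0}) :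
    dd (fn f) * x ∈ TD (κ := κ) (m := m) {0} := by
  have h := dd_fn_mul f x
  have h1 : dd (fn f) * x = dd (fn f * x) - fn f * dd x := by
    rw [h, add_sub_cancel_right]
  rw [h1]
  exact Submodule.sub_mem _ (dd_TD (litg_fn_TD hf hx)) (litg_fn_TD hf (dd_TD hx))

private theorem litg_cfe_ddfn {f : Fn κ m} (hf : fn f ∈ TD (κ := κ) (m := m) {0})
    {x : Fo κ m} (hx : cfe x = 0) : cfe (dd (fn f) * x) = 0 := by
  rw [cfe_one_mul (ddfn_mem _), hx, mul_zero, sub_zero]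
  have h := euler hf
  rw [cfe_FD_zero (FD_zero_iff.2 ⟨f, rfl⟩), map_zero, zero_add] at h
  rw [h]
  simp

private theorem litg_one_TD : (1 : Fo κ m) ∈ TD (κ := κ) (m := m) {0} := by
  intro e he
  have h1 : (1 : Fo κ m) = mo 0 := mo_zero.symm
  rw [h1]
  unfold mo
  rw [AddMonoidAlgebra.coeff_single, Finsupp.single_apply, if_neg]
  rintro rfl
  apply he
  change tot 0 = 0
  unfold tot
  simp

private theorem litg_one_Reg {I : Set (Fin m)} : (1 : Fo κ m) ∈ Reg (κ := κ) I := by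
  have h1 : (1 : Fo κ m) = mo 0 := mo_zero.symm
  rw [h1]
  exact mo_Reg fun i _ => le_refl _

theorem dd_prodd {q : ℕ} (a : Fin q → Fn κ m) : dd (prodd a) = 0 := by
  induction q with
  | zero => rw [prodd_zero, litg_dd_one]
  | succ q ih => rw [prodd_succ, dd_one_mul (ddfn_mem _), dd_dd, zero_mul, ih, mul_zero, sub_zero]

theorem prodd_mem {I : Set (Fin m)} {q : ℕ} {a : Fin q → Fn κ m}
    (ha : ∀ l, fn (a l) ∈ Reg (κ := κ) I ⊓ TD {0}) :
    prodd a ∈ Reg (κ := κ) I ⊓ FD q ⊓ TD {0} ∧ cfe (prodd a) = 0 := by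
  induction q with
  | zero =>
    rw [prodd_zero]
    have h0 : (1 : Fo κ m) ∈ FD (κ := κ) (m := m) 0 := FD_zero_iff.2 ⟨1, (map_one _).symm⟩
    exact ⟨⟨⟨litg_one_Reg, h0⟩, litg_one_TD⟩, cfe_FD_zero h0⟩
  | succ q ih =>
    rw [prodd_succ]
    obtain ⟨⟨⟨h1, h2⟩, h3⟩, h4⟩ := ih (a := fun l => a l.succ) (fun l => ha l.succ)
    exact ⟨⟨⟨litg_ddfn_Reg (ha 0).1 h1, one_mul_FD (ddfn_mem _) h2⟩, litg_ddfn_TD (ha 0).2 h3⟩,
      litg_cfe_ddfn (ha 0).2 h4⟩

/-- The function `x_i / x_o`. -/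
private noncomputable def litg_y (i o : Fin m) : Fn κ m :=
  AddMonoidAlgebra.single (Pi.single i 1 - Pi.single o 1) 1

private theorem litg_tot_single (o : Fin m) : tot (Pi.single o 1 : Ex m) = 1 := by
  unfold tot
  rw [Finset.sum_pi_single' o (1 : ℤ) Finset.univ, if_pos (Finset.mem_univ o)]

private theorem litg_tot_sub (a b : Ex m) : tot (a - b) = tot a - tot b := by
  unfold tot
  rw [← Finset.sum_sub_distrib]
  rfl

private theorem litg_ddmo (e : Ex m) :
    dd (mo e : Fo κ m) = AddMonoidAlgebra.single e (ι κ (bar κ e)) := by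
  refine fo_ext fun e' => ?_
  rw [dd_coeff]
  unfold mo
  rw [AddMonoidAlgebra.coeff_single, AddMonoidAlgebra.coeff_single, Finsupp.single_apply,
    Finsupp.single_apply]
  by_cases h : e = e'
  · rw [if_pos h, if_pos h, mul_one, h]
  · rw [if_neg h, if_neg h, mul_zero]

private theorem litg_bar_single (i : Fin m) : bar κ (Pi.single i 1 : Ex m) = Pi.single i 1 := by
  funext l
  unfold bar
  by_cases hl : l = i
  · subst hl
    rw [Pi.single_eq_same, Pi.single_eq_same, Int.cast_one]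
  · rw [Pi.single_eq_of_ne hl, Pi.single_eq_of_ne hl, Int.cast_zero]

private theorem litg_bar_sub (a b : Ex m) : bar κ (a - b) = bar κ a - bar κ b := by
  funext l
  unfold bar
  rw [Pi.sub_apply, Pi.sub_apply, Int.cast_sub]

private theorem litg_pfX (i : Fin m) :
    (pf (MvPolynomial.X i) : Fo κ m) = mo (Pi.single i 1) := by
  unfold pf pl
  rw [MvPolynomial.aeval_X, fn_single, one_smul]

private theorem litg_step (o : Fin m) (x : Fo κ m) (i : Fin m) :
    dd (fn (litg_y (κ := κ) i o)) * (mo (Pi.single o 1) * cj i x) =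
      dd (pf (MvPolynomial.X i)) * cj i x - dl o * cf i x := by
  refine fo_ext fun e => ?_
  rw [AddMonoidAlgebra.coeff_sub, Finsupp.sub_apply, dl_coeff, litg_pfX]
  unfold litg_y cj
  rw [fn_single, one_smul, litg_ddmo, litg_ddmo, AddMonoidAlgebra.coeff_single_mul_apply,
    AddMonoidAlgebra.coeff_single_mul_apply, coeff_mo_mul, coeff_mo_mul, coeff_mo_mul]
  have e1 : -(Pi.single i 1 - Pi.single o 1 : Ex m) + e - Pi.single o 1 - -Pi.single i 1 = e := by
    abel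
  have e2 : -(Pi.single i 1 : Ex m) + e - -Pi.single i 1 = e := by abel
  rw [e1, e2, litg_bar_sub, litg_bar_single, litg_bar_single, map_sub, sub_mul]

private theorem litg_sum_cf (x : Fo κ m) : ∑ i, cf i x = cfe x := by
  refine fo_ext fun e => ?_
  rw [AddMonoidAlgebra.coeff_sum, Finsupp.finsetSum_apply, cfe_coeff, cte_eq_sum]
  rfl

private theorem litg_y_mem {I : Set (Fin m)} {o : Fin m} (ho : o ∈ I) (i : Fin m) :
    (fn (litg_y (κ := κ) i o) : Fo κ m) ∈ Reg (κ := κ) I ⊓ TD {0} := by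
  unfold litg_y
  rw [fn_single, one_smul]
  refine ⟨mo_Reg fun l hl => ?_, ?_⟩
  · have hlo : l ≠ o := fun h => hl (h ▸ ho)
    rw [Pi.sub_apply, Pi.single_eq_of_ne hlo, sub_zero]
    by_cases hli : l = i
    · rw [hli, Pi.single_eq_same]
      exact zero_le_one
    · rw [Pi.single_eq_of_ne hli]
  · intro e he
    unfold mo
    rw [AddMonoidAlgebra.coeff_single, Finsupp.single_apply, if_neg]
    rintro rfl
    apply he
    change tot _ = 0
    rw [litg_tot_sub, litg_tot_single, litg_tot_single, sub_self]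

private theorem litg_dd_mem {I : Set (Fin m)} {q : ℕ} {y : Fn κ m}
    (hy : fn y ∈ Reg (κ := κ) I ⊓ TD {0}) {z : Fo κ m}
    (hz : z ∈ AddSubgroup.closure {z : Fo κ m | ∃ (a0 : Fn κ m) (a : Fin q → Fn κ m),
        fn a0 ∈ Reg (κ := κ) I ⊓ TD {0} ∧ (∀ l, fn (a l) ∈ Reg (κ := κ) I ⊓ TD {0}) ∧
        z = fn a0 * prodd a}) :
    dd (fn y) * z ∈ AddSubgroup.closure {z : Fo κ m | ∃ (a0 : Fn κ m) (a : Fin (q + 1) → Fn κ m),
        fn a0 ∈ Reg (κ := κ) I ⊓ TD {0} ∧ (∀ l, fn (a l) ∈ Reg (κ := κ) I ⊓ TD {0}) ∧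
        z = fn a0 * prodd a} := by
  refine AddSubgroup.closure_induction (p := fun z _ => dd (fn y) * z ∈ AddSubgroup.closure
      {z : Fo κ m | ∃ (a0 : Fn κ m) (a : Fin (q + 1) → Fn κ m),
        fn a0 ∈ Reg (κ := κ) I ⊓ TD {0} ∧ (∀ l, fn (a l) ∈ Reg (κ := κ) I ⊓ TD {0}) ∧
        z = fn a0 * prodd a}) ?_ ?_ ?_ ?_ hz
  · rintro z ⟨a0, a, h1, h2, rfl⟩
    refine AddSubgroup.subset_closure ⟨a0, Fin.cons y a, h1, fun l => ?_, ?_⟩
    · refine Fin.cases ?_ (fun l => ?_) l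
      · rw [Fin.cons_zero]
        exact hy
      · rw [Fin.cons_succ]
        exact h2 l
    · rw [prodd_succ, Fin.cons_zero, ← mul_assoc, ← mul_assoc, fn_mul_comm a0 (dd (fn y))]
      rfl
  · rw [mul_zero]
    exact AddSubgroup.zero_mem _
  · intro x z _ _ h1 h2
    rw [mul_add]
    exact AddSubgroup.add_mem _ h1 h2
  · intro x _ h1
    rw [mul_neg]
    exact AddSubgroup.neg_mem _ h1

private theorem litg_fn_smul (c : κ) (f : Fn κ m) : fn (c • f) = c • fn f := by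
  refine fo_ext fun e => ?_
  unfold fn
  rw [AddMonoidAlgebra.coeff_mapRingHom, AddMonoidAlgebra.coeff_smul, AddMonoidAlgebra.coeff_smul,
    Finsupp.smul_apply, Finsupp.smul_apply, AddMonoidAlgebra.coeff_mapRingHom, smul_eq_mul, map_mul,
    Algebra.smul_def]

private theorem litg_smul_mem {I : Set (Fin m)} {q : ℕ} (c : κ) {z : Fo κ m}
    (hz : z ∈ AddSubgroup.closure {z : Fo κ m | ∃ (a0 : Fn κ m) (a : Fin q → Fn κ m),
        fn a0 ∈ Reg (κ := κ) I ⊓ TD {0} ∧ (∀ l, fn (a l) ∈ Reg (κ := κ) I ⊓ TD {0}) ∧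
        z = fn a0 * prodd a}) :
    c • z ∈ AddSubgroup.closure {z : Fo κ m | ∃ (a0 : Fn κ m) (a : Fin q → Fn κ m),
        fn a0 ∈ Reg (κ := κ) I ⊓ TD {0} ∧ (∀ l, fn (a l) ∈ Reg (κ := κ) I ⊓ TD {0}) ∧
        z = fn a0 * prodd a} := by
  refine AddSubgroup.closure_induction (p := fun z _ => c • z ∈ AddSubgroup.closure
      {z : Fo κ m | ∃ (a0 : Fn κ m) (a : Fin q → Fn κ m),
        fn a0 ∈ Reg (κ := κ) I ⊓ TD {0} ∧ (∀ l, fn (a l) ∈ Reg (κ := κ) I ⊓ TD {0}) ∧
        z = fn a0 * prodd a}) ?_ ?_ ?_ ?_ hz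
  · rintro z ⟨a0, a, h1, h2, rfl⟩
    refine AddSubgroup.subset_closure ⟨c • a0, a, ?_, h2, ?_⟩
    · rw [litg_fn_smul]
      exact Submodule.smul_mem _ c h1
    · rw [litg_fn_smul, smul_mul_assoc]
  · rw [smul_zero]
    exact AddSubgroup.zero_mem _
  · intro x z _ _ h1 h2
    rw [smul_add]
    exact AddSubgroup.add_mem _ h1 h2
  · intro x _ h1
    rw [smul_neg]
    exact AddSubgroup.neg_mem _ h1

/-- The regular forms on an affine chart of the projective space are generated by functions. -/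
theorem gen_mem (p : ℕ) [Fact p.Prime] [CharP κ p] (hmp : m < p) {I : Set (Fin m)}
    (hI : I.Nonempty) (q : ℕ) (x : Fo κ m) :
    (x ∈ Reg (κ := κ) I ⊓ FD q ⊓ TD {0} ∧ cfe x = 0) ↔
      x ∈ AddSubgroup.closure {z : Fo κ m | ∃ (a0 : Fn κ m) (a : Fin q → Fn κ m),
        fn a0 ∈ Reg (κ := κ) I ⊓ TD {0} ∧ (∀ l, fn (a l) ∈ Reg (κ := κ) I ⊓ TD {0}) ∧
        z = fn a0 * prodd a} := by
  constructor
  · induction q generalizing x with
    | zero =>
      rintro ⟨⟨⟨h1, h2⟩, h3⟩, h4⟩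
      obtain ⟨f, rfl⟩ := FD_zero_iff.1 h2
      refine AddSubgroup.subset_closure ⟨f, fun l => l.elim0, ⟨h1, h3⟩, fun l => l.elim0, ?_⟩
      rw [prodd_zero, mul_one]
    | succ q ih =>
      rintro ⟨⟨⟨h1, h2⟩, h3⟩, h4⟩
      by_cases hq : m < q + 1
      · rw [FD_top hq h2]
        exact AddSubgroup.zero_mem _
      have hq0 : ((q + 1 : ℕ) : κ) ≠ 0 := by
        rw [Ne, CharP.cast_eq_zero_iff κ p]
        intro hd
        have := Nat.le_of_dvd (Nat.succ_pos q) hd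
        omega
      obtain ⟨o, ho⟩ := hI
      have key : (((q + 1 : ℕ) : κ)) • x = ∑ i, dd (fn (litg_y (κ := κ) i o)) *
          (mo (Pi.single o 1) * cj i x) := by
        have e1 : ∀ i, dd (fn (litg_y (κ := κ) i o)) * (mo (Pi.single o 1) * cj i x) =
            dd (pf (MvPolynomial.X i)) * cj i x - dl o * cf i x := litg_step o x
        rw [Finset.sum_congr rfl fun i _ => e1 i, Finset.sum_sub_distrib, ← Finset.mul_sum,
          litg_sum_cf, h4, mul_zero, sub_zero, sum_ddX_cj h2]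
      have hx : x = ∑ i, (((q + 1 : ℕ) : κ))⁻¹ • (dd (fn (litg_y (κ := κ) i o)) *
          (mo (Pi.single o 1) * cj i x)) := by
        rw [← Finset.smul_sum, ← key, smul_smul, inv_mul_cancel₀ hq0, one_smul]
      rw [hx]
      refine AddSubgroup.sum_mem _ fun i _ => litg_smul_mem _ ?_
      refine litg_dd_mem (litg_y_mem ho i) (ih _ ⟨⟨⟨?_, ?_⟩, ?_⟩, ?_⟩)
      · refine mo_mul_Reg (fun l hl => ?_) (cj_Reg i h1)
        have hlo : l ≠ o := fun h => hl (h ▸ ho)
        rw [Pi.single_eq_of_ne hlo]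
      · exact mo_mul_FD _ (cj_FD i h2)
      · refine TD_mono ?_ (mo_mul_TD (Pi.single o 1) (cj_TD i h3))
        intro t ht
        have ht' : t - tot (Pi.single o 1 : Ex m) + 1 = 0 := ht
        rw [litg_tot_single] at ht'
        change t = 0
        omega
      · have e1 : (mo (Pi.single o 1) * cj i x : Fo κ m) =
            fn (AddMonoidAlgebra.single (Pi.single o 1) 1) *
              (fn (AddMonoidAlgebra.single (-Pi.single i 1) 1) * cf i x) := by
          rw [fn_single, fn_single, one_smul, one_smul]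
          rfl
        rw [e1, cfe_fn_mul, cfe_fn_mul]
        have e2 : cfe (cf i x) = 0 := by
          refine fo_ext fun e => ?_
          rw [cfe_coeff, cf_coeff, cte, cti, ct_comm]
          have e3 : (cfe x).coeff e = 0 := by
            rw [h4]
            rfl
          have e4 : ct (fun _ => 1) (x.coeff e) = 0 := e3
          rw [e4, map_zero, neg_zero]
          rfl
        rw [e2, mul_zero, mul_zero]
  · intro h
    refine AddSubgroup.closure_induction (p := fun x _ => x ∈ Reg (κ := κ) I ⊓ FD q ⊓ TD {0} ∧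
      cfe x = 0) ?_ ?_ ?_ ?_ h
    · rintro z ⟨a0, a, h1, h2, rfl⟩
      obtain ⟨⟨⟨g1, g2⟩, g3⟩, g4⟩ := prodd_mem h2
      refine ⟨⟨⟨fn_mul_Reg h1.1 g1, fn_mul_FD _ g2⟩, litg_fn_TD h1.2 g3⟩, ?_⟩
      rw [cfe_fn_mul, g4, mul_zero]
    · exact ⟨Submodule.zero_mem _, map_zero _⟩
    · rintro x y _ _ ⟨h1, h2⟩ ⟨h3, h4⟩
      exact ⟨Submodule.add_mem _ h1 h3, by rw [map_add, h2, h4, add_zero]⟩
    · rintro x _ ⟨h1, h2⟩
      exact ⟨Submodule.neg_mem _ h1, by rw [map_neg, h2, neg_zero]⟩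

theorem BP_gen (p : ℕ) [Fact p.Prime] [CharP κ p] (hmp : m < p) {I : Set (Fin m)}
    (hI : I.Nonempty) (q : ℕ) (x : Fo κ m) :
    x ∈ BP (κ := κ) (m := m) q I ↔
      x ∈ AddSubgroup.closure {z : Fo κ m | ∃ a : Fin (q + 1) → Fn κ m,
        (∀ l, fn (a l) ∈ Reg (κ := κ) I ⊓ TD {0}) ∧ z = prodd a} := by
  constructor
  · intro h
    obtain ⟨η, h1, h2, h3, h4, rfl⟩ := mem_BP.1 h
    have h5 := (gen_mem p hmp hI q η).1 ⟨⟨⟨h1, h2⟩, h3⟩, h4⟩
    refine AddSubgroup.closure_induction (p := fun z _ => dd z ∈ AddSubgroup.closure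
      {z : Fo κ m | ∃ a : Fin (q + 1) → Fn κ m,
        (∀ l, fn (a l) ∈ Reg (κ := κ) I ⊓ TD {0}) ∧ z = prodd a}) ?_ ?_ ?_ ?_ h5
    · rintro z ⟨a0, a, g1, g2, rfl⟩
      refine AddSubgroup.subset_closure ⟨Fin.cons a0 a, fun l => ?_, ?_⟩
      · refine Fin.cases ?_ (fun l => ?_) l
        · rw [Fin.cons_zero]
          exact g1
        · rw [Fin.cons_succ]
          exact g2 l
      · rw [prodd_succ, Fin.cons_zero, dd_fn_mul, dd_prodd, mul_zero, add_zero]
        rfl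
    · rw [map_zero]
      exact AddSubgroup.zero_mem _
    · intro x z _ _ h1 h2
      rw [map_add]
      exact AddSubgroup.add_mem _ h1 h2
    · intro x _ h1
      rw [map_neg]
      exact AddSubgroup.neg_mem _ h1
  · intro h
    refine AddSubgroup.closure_induction (p := fun x _ => x ∈ BP (κ := κ) (m := m) q I)
      ?_ ?_ ?_ ?_ h
    · rintro z ⟨a, ha, rfl⟩
      obtain ⟨⟨⟨g1, g2⟩, g3⟩, g4⟩ := prodd_mem (a := fun l => a l.succ) (fun l => ha l.succ)
      refine mem_BP.2 ⟨fn (a 0) * prodd (fun l => a l.succ), fn_mul_Reg (ha 0).1 g1,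
        fn_mul_FD _ g2, litg_fn_TD (ha 0).2 g3, ?_, ?_⟩
      · rw [cfe_fn_mul, g4, mul_zero]
      · rw [dd_fn_mul, dd_prodd, mul_zero, add_zero, prodd_succ]
    · exact Submodule.zero_mem _
    · intro x y _ _ h1 h2
      exact Submodule.add_mem _ h1 h2
    · intro x _ h1
      exact Submodule.neg_mem _ h1

end MPadcBK
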