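import Pool.Agent.Lib.MP_adc574_ag_BK.LitE
import Pool.Agent.Lib.MP_adc574_ag_BK.LitG

/-!
# JOB LitF: from the function field of the cone to the function field of the hypersurface

`yu F hx o` = the coordinates `x_i / x_o` of the generic point of `X`, units of the function field `FF F`.
* `um_yu`: `um (yu F hx o) e = x^e / x_o^(tot e)`, so for `tot e = 0` it is `um (xu F hx) e`. `ev_yu`: for `fn f ∈ TD {0}` `f` is a linear combination of monomials of total degree `0`.
* `exists_emb`: the `FF F`-linear map `Ω[FF F⁄κ] → Ω[Cone F⁄κ]` (`KaehlerDifferential.map κ κ (FF F) (Cone F)`, `KaehlerDifferential.map_D`) composed with `ι` (restrict scalars to `FF F`) has square zero, so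
  `ExteriorAlgebra.lift (FF F)` gives an `FF F`-algebra homomorphism (`ExteriorAlgebra (Cone F) (Ω[Cone F⁄κ])` is an `FF F`-algebra: `CliffordAlgebra.instAlgebra'`, needs
  `IsScalarTower (FF F) (Cone F) (Ω[Cone F⁄κ])`).
* `emb_PsiD`: for `x = fn a0 * prodd a` with functions of total degree 0: `PsiD_dd_fn`, `PsiG_fn`, `ev_yu`; `gen_mem` and closure induction.
* `ker_X`: `emb_PsiD`, `ker_cone`.
* `PsiD_F`: `PsiD (yu ..) (pf F * x) = 0` since `aeval (fun i => x_i / x_o) F = x_o^(-d) aeval (xx F) F = 0` in `Cone F` (`MvPolynomial.IsHomogeneous.eval₂`/`aeval`, or by `ev_pl` and `um`), and `FF F → Cone F` is injective.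
  `PsiD_dF`: `PsiD_dd_fn`, `D 0 = 0`.
-/

set_option autoImplicit false

namespace MPadcBK

open ExteriorAlgebra

universe u

variable {κ : Type u} [Field κ] {m : ℕ} (F : MvPolynomial (Fin m) κ) [(Ideal.span {F}).IsPrime]

theorem div_mem_FF (i j : Fin m) : xx F i / xx F j ∈ FF F :=
  IntermediateField.subset_adjoin _ _ ⟨i, j, rfl⟩

/-- The coordinates `x_i / x_o` of the generic point, as units of the function field. -/
noncomputable def yu (hx : ∀ i, xx F i ≠ 0) (o : Fin m) (i : Fin m) : (FF F)ˣ :=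
  Units.mk0 ⟨xx F i / xx F o, div_mem_FF F i o⟩ (fun h => by
    have h' : xx F i / xx F o = 0 := congrArg (fun z : FF F => (z : Cone F)) h
    exact (div_ne_zero (hx i) (hx o)) h')

theorem yu_coe (hx : ∀ i, xx F i ≠ 0) (o i : Fin m) :
    (((yu F hx o i : (FF F)ˣ) : FF F) : Cone F) = xx F i / xx F o := rfl

private theorem litf_prod_zpow {G ι : Type*} [CommGroup G] (a : G) (e : ι → ℤ) (s : Finset ι) :
    ∏ i ∈ s, a ^ (e i) = a ^ (∑ i ∈ s, e i) := by
  classical
  induction s using Finset.induction_on with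
  | empty => rw [Finset.prod_empty, Finset.sum_empty, zpow_zero]
  | insert i s hi ih => rw [Finset.prod_insert hi, Finset.sum_insert hi, zpow_add, ih]

theorem um_yu (hx : ∀ i, xx F i ≠ 0) (o : Fin m) {e : Ex m} (he : tot e = 0) :
    (((um (yu F hx o) (Multiplicative.ofAdd e) : (FF F)ˣ) : FF F) : Cone F) =
      ((um (xu F hx) (Multiplicative.ofAdd e) : (Cone F)ˣ) : Cone F) := by
  have h1 : (((um (yu F hx o) (Multiplicative.ofAdd e) : (FF F)ˣ) : FF F) : Cone F) =
      ((Units.map ((FF F).val : FF F →* Cone F) (um (yu F hx o) (Multiplicative.ofAdd e)) :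
        (Cone F)ˣ) : Cone F) := rfl
  have h2 : ∀ i, Units.map ((FF F).val : FF F →* Cone F) (yu F hx o i) =
      xu F hx i / xu F hx o := by
    intro i
    apply Units.ext
    rw [Units.val_div_eq_div_val]
    rfl
  have h3 : Units.map ((FF F).val : FF F →* Cone F) (um (yu F hx o) (Multiplicative.ofAdd e)) =
      um (xu F hx) (Multiplicative.ofAdd e) := by
    have h4 : um (yu F hx o) (Multiplicative.ofAdd e) = ∏ i, yu F hx o i ^ (e i) := rfl
    have h5 : um (xu F hx) (Multiplicative.ofAdd e) = ∏ i, xu F hx i ^ (e i) := rfl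
    have h6 : ∑ i, e i = 0 := he
    rw [h4, h5, map_prod]
    have h7 : ∀ i ∈ Finset.univ, Units.map ((FF F).val : FF F →* Cone F) (yu F hx o i ^ (e i)) =
        xu F hx i ^ (e i) / xu F hx o ^ (e i) := by
      intro i _
      rw [map_zpow, h2, div_zpow]
    rw [Finset.prod_congr rfl h7, Finset.prod_div_distrib, litf_prod_zpow, h6, zpow_zero, div_one]
  rw [h1, h3]

theorem ev_yu (hx : ∀ i, xx F i ≠ 0) (o : Fin m) {f : Fn κ m}
    (hf : fn f ∈ TD (κ := κ) (m := m) {0}) :
    ((ev (yu F hx o) f : FF F) : Cone F) = ev (xu F hx) f := by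
  have h1 : f = ∑ e ∈ f.coeff.support, AddMonoidAlgebra.single e (f.coeff e) := by
    apply AddMonoidAlgebra.coeff_injective
    rw [AddMonoidAlgebra.coeff_sum]
    conv_lhs => rw [← Finsupp.sum_single f.coeff]
    rfl
  have h2 : ∀ e ∈ f.coeff.support, tot e = 0 := by
    intro e he
    by_contra h
    have h3 : (fn f : Fo κ m).coeff e = 0 := hf e h
    unfold fn at h3
    rw [AddMonoidAlgebra.coeff_mapRingHom] at h3
    exact (Finsupp.mem_support_iff.1 he)
      ((ExteriorAlgebra.algebraMap_eq_zero_iff (M := Fin m → κ) (f.coeff e)).1 h3)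
  have h4 : ((ev (yu F hx o) f : FF F) : Cone F) = (FF F).val (ev (yu F hx o) f) := rfl
  rw [h4, h1, map_sum, map_sum, map_sum]
  refine Finset.sum_congr rfl fun e he => ?_
  rw [ev_single, ev_single, map_smul]
  congr 1
  exact um_yu F hx o (h2 e he)

theorem exists_emb : ∃ Θ : ExteriorAlgebra (FF F) (Ω[FF F⁄κ]) →+*
      ExteriorAlgebra (Cone F) (Ω[Cone F⁄κ]),
    (∀ a : FF F, Θ (algebraMap (FF F) _ a) = algebraMap (Cone F) _ (a : Cone F)) ∧
    ∀ a : FF F, Θ (ι (FF F) (KaehlerDifferential.D κ (FF F) a)) =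
      ι (Cone F) (KaehlerDifferential.D κ (Cone F) (a : Cone F)) := by
  let g : Ω[FF F⁄κ] →ₗ[FF F] ExteriorAlgebra (Cone F) (Ω[Cone F⁄κ]) :=
    ((ι (Cone F) (M := Ω[Cone F⁄κ])).restrictScalars (FF F)).comp
      (KaehlerDifferential.map κ κ (FF F) (Cone F))
  have hg : ∀ v, g v * g v = 0 := fun v => ι_sq_zero _
  refine ⟨(ExteriorAlgebra.lift (FF F) ⟨g, hg⟩).toRingHom, fun a => ?_, fun a => ?_⟩
  · exact (ExteriorAlgebra.lift (FF F) ⟨g, hg⟩).commutes a
  · have h1 : (ExteriorAlgebra.lift (FF F) ⟨g, hg⟩).toRingHom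
        (ι (FF F) (KaehlerDifferential.D κ (FF F) a)) =
        g (KaehlerDifferential.D κ (FF F) a) := ExteriorAlgebra.lift_ι_apply _ g hg _
    rw [h1]
    change ι (Cone F) (KaehlerDifferential.map κ κ (FF F) (Cone F)
      (KaehlerDifferential.D κ (FF F) a)) = _
    rw [KaehlerDifferential.map_D]
    rfl

theorem emb_PsiD (p : ℕ) [Fact p.Prime] [CharP κ p] (hmp : m < p) (hx : ∀ i, xx F i ≠ 0)
    (o : Fin m) {I : Set (Fin m)} (hI : I.Nonempty) {q : ℕ} {x : Fo κ m}
    (hx' : x ∈ Reg (κ := κ) I ⊓ FD q ⊓ TD {0}) (hc : cfe x = 0)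
    (Θ : ExteriorAlgebra (FF F) (Ω[FF F⁄κ]) →+* ExteriorAlgebra (Cone F) (Ω[Cone F⁄κ]))
    (h1 : ∀ a : FF F, Θ (algebraMap (FF F) _ a) = algebraMap (Cone F) _ (a : Cone F))
    (h2 : ∀ a : FF F, Θ (ι (FF F) (KaehlerDifferential.D κ (FF F) a)) =
      ι (Cone F) (KaehlerDifferential.D κ (Cone F) (a : Cone F))) :
    Θ (PsiD (yu F hx o) x) = PsiD (xu F hx) x := by
  have h3 := (gen_mem p hmp hI q x).1 ⟨hx', hc⟩
  refine AddSubgroup.closure_induction
    (p := fun x _ => Θ (PsiD (yu F hx o) x) = PsiD (xu F hx) x) ?_ ?_ ?_ ?_ h3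
  · rintro z ⟨a0, a, g1, g2, rfl⟩
    rw [map_mul, map_mul, map_mul]
    congr 1
    · unfold PsiD
      rw [PsiG_fn, PsiG_fn, h1, ev_yu F hx o g1.2]
    · clear h3 hx' hc
      induction q with
      | zero => rw [prodd_zero, map_one, map_one, map_one]
      | succ q ih =>
        rw [prodd_succ, map_mul, map_mul, map_mul, ih (fun l => a l.succ) (fun l => g2 l.succ)]
        congr 1
        rw [PsiD_dd_fn, PsiD_dd_fn, h2, ev_yu F hx o (g2 0).2]
  · rw [map_zero, map_zero, map_zero]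
  · intro x z _ _ h1 h2
    rw [map_add, map_add, map_add, h1, h2]
  · intro x _ h1
    rw [map_neg, map_neg, map_neg, h1]

/-- A regular form on a chart of the projective space which vanishes on `X`. -/
theorem ker_X (p : ℕ) [Fact p.Prime] [CharP κ p] (hmp : m < p) {d : ℕ}
    (hF : F.IsHomogeneous d) (hF0 : F ≠ 0) (hs : Smooth F) (hx : ∀ i, xx F i ≠ 0) (o : Fin m)
    {I : Set (Fin m)} (hI : I.Nonempty) {q : ℕ} {x : Fo κ m}
    (hx' : x ∈ Reg (κ := κ) I ⊓ FD q ⊓ TD {0}) (hc : cfe x = 0)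
    (h : PsiD (yu F hx o) x = 0) :
    ∃ w ∈ Reg (κ := κ) I ⊓ FD (q + 1) ⊓ TD {0}, dd (pf F) * x = pf F * w := by
  obtain ⟨Θ, h1, h2⟩ := exists_emb F
  have h3 := emb_PsiD F p hmp hx o hI hx' hc Θ h1 h2
  rw [h, map_zero] at h3
  have hm : 0 < m := lt_of_le_of_lt (Nat.zero_le _) o.isLt
  exact ker_cone F p hm hmp hF hF0 hs hx hx' h3.symm

private theorem litf_aeval {d : ℕ} (hF : F.IsHomogeneous d) (hx : ∀ i, xx F i ≠ 0) (o : Fin m) :
    MvPolynomial.aeval (fun i => ((yu F hx o i : (FF F)ˣ) : FF F)) F = 0 := by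
  apply (FF F).val.injective
  rw [map_zero]
  have h1 : (FF F).val (MvPolynomial.aeval (fun i => ((yu F hx o i : (FF F)ˣ) : FF F)) F) =
      MvPolynomial.aeval (fun i => xx F i / xx F o) F := by
    exact MvPolynomial.comp_aeval_apply (fun i => ((yu F hx o i : (FF F)ˣ) : FF F)) (FF F).val F
  have h2 : MvPolynomial.aeval (fun i => xx F i / xx F o) F =
      ((xx F o)⁻¹) ^ d * MvPolynomial.aeval (xx F) F := by
    rw [MvPolynomial.aeval_def, MvPolynomial.aeval_def, MvPolynomial.eval₂_eq',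
      MvPolynomial.eval₂_eq', Finset.mul_sum]
    refine Finset.sum_congr rfl fun u hu => ?_
    have h3 : ∑ i, u i = d := by
      have h6 := hF (MvPolynomial.mem_support_iff.mp hu)
      rw [Finsupp.weight_apply] at h6
      rw [← h6, Finsupp.sum_fintype]
      · refine Finset.sum_congr rfl fun i _ => ?_
        simp
      · intro i
        simp
    have h4 : ∏ i, (xx F i / xx F o) ^ u i = ((xx F o)⁻¹) ^ d * ∏ i, xx F i ^ u i := by
      rw [← h3, ← Finset.prod_pow_eq_pow_sum, ← Finset.prod_mul_distrib]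
      refine Finset.prod_congr rfl fun i _ => ?_
      rw [div_eq_mul_inv, mul_pow, mul_comm]
    rw [h4]
    ring
  rw [(ker_poly F F).2 (dvd_refl F), mul_zero] at h2
  exact h1.trans h2

theorem PsiD_F {d : ℕ} (hF : F.IsHomogeneous d) (hx : ∀ i, xx F i ≠ 0) (o : Fin m)
    (x : Fo κ m) : PsiD (yu F hx o) (pf F * x) = 0 := by
  rw [map_mul]
  unfold PsiD
  rw [PsiG_pf, litf_aeval F hF hx o, map_zero, zero_mul]

theorem PsiD_dF {d : ℕ} (hF : F.IsHomogeneous d) (hx : ∀ i, xx F i ≠ 0) (o : Fin m)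
    (x : Fo κ m) : PsiD (yu F hx o) (dd (pf F) * x) = 0 := by
  rw [map_mul]
  have h1 : PsiD (yu F hx o) (dd (pf F)) = 0 := by
    have h2 : (dd (pf F) : Fo κ m) = dd (fn (pl F)) := rfl
    rw [h2, PsiD_dd_fn, ev_pl, litf_aeval F hF hx o, map_zero, map_zero]
  rw [h1, zero_mul]

end MPadcBK
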