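import Pool.Agent.Lib.MP_adc574_ag_BK.RegA
import Pool.Agent.Lib.MP_adc574_ag_BK.RegB

/-!
# JOB Prj: projection to a total degree

Everything is coefficientwise; `prj_ddpf`: `ddpf_mul` shifts the total degree by `d` on each homogeneous part: write `x = prj (t - d) x + (x - prj (t - d) x)`; the first part goes to `TD {t}`
(`ddpf_mul_TD`), the second, in `TD {s | s ≠ t - d}`, goes to `TD {s | s ≠ t}`.
`TI_TT`: the support of `x` is finite; for each exponent choose `k`, take the maximum.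
`TT_decomp`: coefficientwise; `tot e = k d` for exactly one `k` (`1 ≤ d`).
-/

set_option autoImplicit false

namespace MPadcBK

open ExteriorAlgebra

universe u

variable {κ : Type u} [Field κ] {m : ℕ}

/-- The projection to the total degree `t`. -/
noncomputable def prj (t : ℤ) : Fo κ m →ₗ[κ] Fo κ m :=
  cw fun e => if tot e = t then LinearMap.id else 0

theorem prj_coeff (t : ℤ) (x : Fo κ m) (e : Ex m) :
    (prj t x).coeff e = if tot e = t then x.coeff e else 0 := by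
  unfold prj
  rw [cw_coeff]
  split_ifs <;> rfl

theorem prj_TD (t : ℤ) (x : Fo κ m) : prj t x ∈ TD (κ := κ) (m := m) {t} := by
  intro e he
  rw [prj_coeff, if_neg]
  exact fun h => he h

theorem prj_of_mem {t : ℤ} {x : Fo κ m} (hx : x ∈ TD (κ := κ) (m := m) {t}) : prj t x = x := by
  refine fo_ext fun e => ?_
  rw [prj_coeff]
  split_ifs with h
  · rfl
  · exact (hx e fun h' => h h').symm

theorem prj_of_notMem {t : ℤ} {P : Set ℤ} (ht : t ∉ P) {x : Fo κ m}
    (hx : x ∈ TD (κ := κ) (m := m) P) : prj t x = 0 := by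
  refine fo_ext fun e => ?_
  rw [prj_coeff]
  split_ifs with h
  · exact (hx e (by rw [h]; exact ht)).trans (by simp)
  · exact Eq.trans rfl (by simp)

theorem mem_TD_of_prj {P : Set ℤ} {x : Fo κ m} (h : ∀ t, t ∉ P → prj t x = 0) :
    x ∈ TD (κ := κ) (m := m) P := by
  intro e he
  have h2 : (prj (tot e) x).coeff e = (0 : Fo κ m).coeff e := by rw [h (tot e) he]
  rw [prj_coeff, if_pos rfl] at h2
  exact h2.trans (by simp)

theorem prj_Reg (t : ℤ) {I : Set (Fin m)} {x : Fo κ m} (hx : x ∈ Reg (κ := κ) I) :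
    prj t x ∈ Reg (κ := κ) I := by
  intro e i hi
  rw [prj_coeff]
  have h1 := hx e i hi
  split_ifs
  · exact h1
  · exact ⟨fun _ => rfl, fun _ => map_zero _⟩

theorem prj_FD (t : ℤ) {q : ℕ} {x : Fo κ m} (hx : x ∈ FD (κ := κ) (m := m) q) :
    prj t x ∈ FD (κ := κ) (m := m) q := by
  intro e
  rw [prj_coeff]
  split_ifs
  · exact hx e
  · exact Submodule.zero_mem _

theorem prj_dd (t : ℤ) (x : Fo κ m) : prj t (dd x) = dd (prj t x) := by
  refine fo_ext fun e => ?_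
  rw [prj_coeff, dd_coeff, dd_coeff, prj_coeff]
  split_ifs
  · rfl
  · rw [mul_zero]

private theorem prj_aux {d : ℕ} (A : Fo κ m →ₗ[κ] Fo κ m)
    (hA : ∀ (P : Set ℤ) (x : Fo κ m), x ∈ TD (κ := κ) (m := m) P →
      A x ∈ TD (κ := κ) (m := m) {s | s - (d : ℤ) ∈ P}) (t : ℤ) (x : Fo κ m) :
    prj t (A x) = A (prj (t - d) x) := by
  have h1 : prj t (A (prj (t - d) x)) = A (prj (t - d) x) := by
    refine prj_of_mem (TD_mono ?_ (hA _ _ (prj_TD (t - d) x)))
    intro s hs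
    have h2 : s - (d : ℤ) = t - d := hs
    have h3 : s = t := by omega
    exact h3
  have h2 : prj t (A (x - prj (t - d) x)) = 0 := by
    have h3 : x - prj (t - (d : ℤ)) x ∈ TD (κ := κ) (m := m) {s | s ≠ t - (d : ℤ)} := by
      intro e he
      have h4 : tot e = t - (d : ℤ) := by
        by_contra h5
        exact he h5
      rw [AddMonoidAlgebra.coeff_sub, Finsupp.sub_apply, prj_coeff, if_pos h4, sub_self]
    refine prj_of_notMem ?_ (hA _ _ h3)
    intro h4
    have h5 : t - (d : ℤ) ≠ t - (d : ℤ) := h4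
    exact h5 rfl
  have h3 : A x = A (prj (t - d) x) + A (x - prj (t - d) x) := by
    rw [← map_add, add_sub_cancel]
  rw [h3, map_add, h1, h2, add_zero]

theorem prj_ddpf {d : ℕ} {F : MvPolynomial (Fin m) κ} (hF : F.IsHomogeneous d) (t : ℤ)
    (x : Fo κ m) : prj t (dd (pf F) * x) = dd (pf F) * prj (t - d) x := by
  exact prj_aux (LinearMap.mulLeft κ (dd (pf F))) (fun P y hy => ddpf_mul_TD hF hy) t x

theorem prj_pf_mul {d : ℕ} {F : MvPolynomial (Fin m) κ} (hF : F.IsHomogeneous d) (t : ℤ)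
    (x : Fo κ m) : prj t (pf F * x) = pf F * prj (t - d) x := by
  exact prj_aux (LinearMap.mulLeft κ (pf F)) (fun P y hy => pf_mul_TD hF hy) t x

theorem prj_DD {d : ℕ} {F : MvPolynomial (Fin m) κ} (hF : F.IsHomogeneous d) (t : ℤ)
    (x : Fo κ m) : prj t (DD F x) = dd (prj t x) - dd (pf F) * prj (t - d) x := by
  unfold DD
  rw [map_sub, prj_dd, prj_ddpf hF]

theorem TT_mono {d N N' q : ℕ} (h : N ≤ N') {I J : Set (Fin m)} (h' : I ⊆ J) :
    TT (κ := κ) d N q I ≤ TT d N' q J := by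
  refine inf_le_inf (inf_le_inf (Reg_mono h') le_rfl) (TD_mono ?_)
  rintro t ⟨k, h1, h2, h3⟩
  exact ⟨k, h1, h2.trans h, h3⟩

theorem TT_le_TI {d N q : ℕ} {I : Set (Fin m)} : TT (κ := κ) d N q I ≤ TI d q I := by
  refine inf_le_inf le_rfl (TD_mono ?_)
  rintro t ⟨k, h1, _, h3⟩
  exact ⟨k, h1, h3⟩

theorem TI_TT {d q : ℕ} {I : Set (Fin m)} {x : Fo κ m} (hx : x ∈ TI (κ := κ) d q I) :
    ∃ N, x ∈ TT (κ := κ) d N q I := by
  have h1 : ∀ e ∈ x.coeff.support, ∃ k : ℕ, 1 ≤ k ∧ tot e = k * d := by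
    intro e he
    by_contra h2
    refine (Finsupp.mem_support_iff.1 he) (hx.2 e ?_)
    rintro ⟨k, h3, h4⟩
    exact h2 ⟨k, h3, h4⟩
  choose! K hK using h1
  refine ⟨x.coeff.support.sup K, hx.1, ?_⟩
  intro e he
  by_contra h2
  have h3 : e ∈ x.coeff.support := Finsupp.mem_support_iff.2 h2
  exact he ⟨K e, (hK e h3).1, Finset.le_sup h3, (hK e h3).2⟩

theorem TT_decomp {d N q : ℕ} (hd : 1 ≤ d) {I : Set (Fin m)} {x : Fo κ m}
    (hx : x ∈ TT (κ := κ) d N q I) : x = ∑ k ∈ Finset.range (N + 1), prj ((k : ℤ) * d) x := by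
  refine fo_ext fun e => ?_
  rw [AddMonoidAlgebra.coeff_sum, Finsupp.finsetSum_apply]
  by_cases h : x.coeff e = 0
  · rw [h]
    refine (Finset.sum_eq_zero fun k _ => ?_).symm
    rw [prj_coeff, h]
    split_ifs <;> rfl
  · have h1 : ∃ k : ℕ, 1 ≤ k ∧ k ≤ N ∧ tot e = k * d := by
      by_contra h2
      exact h (hx.2 e h2)
    obtain ⟨k, h2, h3, h4⟩ := h1
    rw [Finset.sum_eq_single k]
    · rw [prj_coeff, if_pos h4]
    · intro k' _ hk'
      rw [prj_coeff, if_neg]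
      intro h5
      rw [h4] at h5
      have h6 : ((k : ℕ) : ℤ) = k' := by
        refine mul_right_cancel₀ ?_ h5
        have : (1 : ℤ) ≤ d := by exact_mod_cast hd
        omega
      exact hk' (by exact_mod_cast h6.symm)
    · intro h5
      exact absurd (Finset.mem_range.2 (by omega)) h5

theorem prj_TT_zero {d N q : ℕ} (hd : 1 ≤ d) {I : Set (Fin m)} {x : Fo κ m}
    (hx : x ∈ TT (κ := κ) d N q I) {k : ℕ} (hk : k = 0 ∨ N < k) : prj ((k : ℤ) * d) x = 0 := by
  refine prj_of_notMem ?_ hx.2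
  rintro ⟨k', h1, h2, h3⟩
  have h4 : ((k : ℕ) : ℤ) = k' := by
    refine mul_right_cancel₀ ?_ h3
    have : (1 : ℤ) ≤ d := by exact_mod_cast hd
    omega
  have h5 : k = k' := by exact_mod_cast h4
  omega

theorem KK_TI {d q : ℕ} {F : MvPolynomial (Fin m) κ} {I : Set (Fin m)} {x : Fo κ m}
    (hx : x ∈ KK F d q I) : x ∈ TT (κ := κ) d 1 q I := by
  refine ⟨hx.1.1, TD_mono ?_ hx.1.2⟩
  intro t ht
  have h1 : t = (d : ℤ) := ht
  exact ⟨1, le_rfl, le_rfl, by rw [h1, Nat.cast_one, one_mul]⟩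

/-- `DD` raises the number of degrees by one. -/
theorem DD_TT {d N q : ℕ} {F : MvPolynomial (Fin m) κ} (hF : F.IsHomogeneous d) {I : Set (Fin m)}
    {x : Fo κ m} (hx : x ∈ TT (κ := κ) d N q I) : DD F x ∈ TT (κ := κ) d (N + 1) (q + 1) I := by
  unfold DD
  refine ⟨⟨?_, ?_⟩, ?_⟩
  · exact Submodule.sub_mem _ (dd_Reg hx.1.1) (ddpf_mul_Reg F hx.1.1)
  · exact Submodule.sub_mem _ (dd_FD hx.1.2) (ddpf_mul_FD F hx.1.2)
  · refine Submodule.sub_mem _ (TD_mono ?_ (dd_TD hx.2)) (TD_mono ?_ (ddpf_mul_TD hF hx.2))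
    · rintro t ⟨k, h1, h2, h3⟩
      exact ⟨k, h1, by omega, h3⟩
    · rintro t ⟨k, h1, h2, h3⟩
      refine ⟨k + 1, by omega, by omega, ?_⟩
      push_cast
      linarith

theorem DD_TI {d q : ℕ} {F : MvPolynomial (Fin m) κ} (hF : F.IsHomogeneous d) {I : Set (Fin m)}
    {x : Fo κ m} (hx : x ∈ TI (κ := κ) d q I) : DD F x ∈ TI (κ := κ) d (q + 1) I := by
  obtain ⟨N, hN⟩ := TI_TT hx
  exact TT_le_TI (DD_TT hF hN)

end MPadcBK
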