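import Pool.Agent.Lib.MP_adc574_ag_BK.CData
import Pool.Agent.Lib.MP_adc574_ag_HM.KosC

/-!
# JOB RelM: monomials which are independent modulo the Jacobian ideal are independent in the cohomology

`RelM F` is the space of all sums `∑_j (∂_j Q_j + Q_j ∂_j F)`. `F` homogeneous of degree `d ≥ 2` and smooth over a field. If `CData d J F g lv c h`, `h ≠ 0`, then the monomials `x^(g v)` are independent modulo `RelM F`.

Proof. `mem_RelM`: `P ∈ RelM F ↔ ∃ Q, P = ∑_j (∂_j Q_j + Q_j * ∂_j F)` (span induction; the set of these sums is a subspace).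
`relM_low` (one step): let `Q` have all total degrees `≤ N` (all `j`, all `e ∈ (Q j).support`), `P = ∑_j (∂_j Q_j + Q_j F_j)`, and suppose that the homogeneous component of degree `N + (d - 1)` of `P` is 0. Then there is `Q'` with the same sum and all total degrees `< N` (`Q' = 0` if `N = 0`, so state it as `∑ e < N`, `e ∈ (Q' j).support`).
The component of degree `N + (d-1)` of `P` is `∑_j Q_j^(N) F_j` (`homogeneousComponent`; `∂_j Q_j` has degrees `≤ N - 1 < N + d - 1`), so it is 0. `koszul_hom` (HM/KosC, weights 1, `h j = ∂_j F`, `hM` from `Smooth F` with a common exponent `M`) gives `A`, antisymmetric, homogeneous, `Q_i^(N) = ∑_j A_ij F_j`, all monomials of `A_ij` of degree `N - (d-1)`.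
Put `Q'_i = Q_i - ∑_j (A_ij F_j + ∂_j A_ij)`. Then `∑_i (∂_i + F_i)(∑_j (∂_j + F_j) A_ij) = 0` because `A` is antisymmetric and `(∂_i + F_i)(∂_j + F_j)` is symmetric in `i, j` (`∂_i ∂_j F = ∂_j ∂_i F`, `MvPolynomial.pderiv_pderiv_comm`-style). `Q_i - ∑_j A_ij F_j = Q_i - Q_i^(N)` has degrees `< N`, `∂_j A_ij` too (`d ≥ 2`).
Main: let `P = ∑_v a_v x^(g v) ∈ RelM F`. By induction on `N` (bound of the degrees of `Q`): if the component of degree `N + (d-1)` of `P` is not 0, it is the sum of the `a_v x^(g v)` with `|g v| = N + d - 1` (all of them have the same level `i`, `tdg (g v) = i d`, `lv v = i`), and it equals `∑_j Q_j^(N) F_j ∈ Jac F`, so `ell c v` kills it (`hC.ker`), but `ell c v` of it is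
`a_v h` (`hC.self`), so `a_v = 0` for all these `v`: contradiction. So `relM_low` applies, and at the end `P = 0`; then `a_v h = ell c v P = 0`.
-/

set_option autoImplicit false

namespace MPadcBK

open MvPolynomial MPadcGM MPadcHM

/-- The relations `∂_j Q + Q ∂_j F`. -/
noncomputable def RelM {K : Type*} [Field K] {m : ℕ} (F : MvPolynomial (Fin m) K) :
    Submodule K (MvPolynomial (Fin m) K) :=
  Submodule.span K {P | ∃ j Q, P = pderiv j Q + Q * pderiv j F}

/-- The monomials `x ^ (g v)` are independent modulo the relations. -/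
def IndepM {K : Type*} [Field K] {m : ℕ} (F : MvPolynomial (Fin m) K) {V : Type*} [Fintype V]
    (g : V → Fin m →₀ ℕ) : Prop :=
  ∀ a : V → K, ∑ v, monomial (g v) (a v) ∈ RelM F → a = 0

variable {K : Type*} [Field K] {m : ℕ} {F : MvPolynomial (Fin m) K}

private theorem relm_pcomm {R : Type*} [CommRing R] (i j : Fin m) (P : MvPolynomial (Fin m) R) :
    pderiv i (pderiv j P) = pderiv j (pderiv i P) := by
  ext e
  rw [coeff_pderiv, coeff_pderiv, coeff_pderiv, coeff_pderiv]
  by_cases h : i = j
  · rw [h]
  · rw [add_right_comm e (Finsupp.single i 1) (Finsupp.single j 1)]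
    rw [Finsupp.add_apply, Finsupp.add_apply, Finsupp.single_eq_of_ne (Ne.symm h),
      Finsupp.single_eq_of_ne h]
    push_cast
    ring

/-- All monomials have total degree `< N`. -/
private def LtD {R : Type*} [CommRing R] (N : ℕ) (P : MvPolynomial (Fin m) R) : Prop :=
  ∀ e, coeff e P ≠ 0 → ∑ i, e i < N

private theorem ltD_sub {N : ℕ} {P Q : MvPolynomial (Fin m) K} (hP : LtD N P) (hQ : LtD N Q) :
    LtD N (P - Q) := by
  intro e he
  rw [coeff_sub] at he
  by_cases h : coeff e P = 0
  · exact hQ e fun h' => he (by rw [h, h', sub_zero])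
  · exact hP e h

private theorem ltD_add {N : ℕ} {P Q : MvPolynomial (Fin m) K} (hP : LtD N P) (hQ : LtD N Q) :
    LtD N (P + Q) := by
  intro e he
  rw [coeff_add] at he
  by_cases h : coeff e P = 0
  · exact hQ e fun h' => he (by rw [h, h', add_zero])
  · exact hP e h

private theorem ltD_sum {N : ℕ} {α : Type*} (s : Finset α) (P : α → MvPolynomial (Fin m) K)
    (hP : ∀ a ∈ s, LtD N (P a)) : LtD N (∑ a ∈ s, P a) := by
  intro e he
  rw [coeff_sum] at he
  obtain ⟨a, ha, h⟩ := Finset.exists_ne_zero_of_sum_ne_zero he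
  exact hP a ha e h

private theorem ltD_mono {N N' : ℕ} (h : N ≤ N') {P : MvPolynomial (Fin m) K} (hP : LtD N P) :
    LtD N' P := fun e he => lt_of_lt_of_le (hP e he) h

private theorem ltD_pderiv {N : ℕ} {P : MvPolynomial (Fin m) K} (hP : LtD (N + 1) P) (j : Fin m) :
    LtD N (pderiv j P) := by
  intro e he
  rw [coeff_pderiv] at he
  have h1 := hP (e + Finsupp.single j 1) (left_ne_zero_of_mul he)
  have h2 : ∑ i, (e + Finsupp.single j 1 : Fin m →₀ ℕ) i = ∑ i, e i + 1 := by
    simp only [Finsupp.add_apply]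
    rw [Finset.sum_add_distrib]
    congr 1
    rw [Finset.sum_eq_single j]
    · simp
    · intro b _ hb
      exact Finsupp.single_eq_of_ne hb
    · intro hj
      exact absurd (Finset.mem_univ j) hj
  omega

private theorem relm_hom {k : ℕ} {P : MvPolynomial (Fin m) K} (hP : P.IsHomogeneous k)
    {e : Fin m →₀ ℕ} (he : coeff e P ≠ 0) : ∑ i, e i = k := by
  have h1 := hP he
  rw [Finsupp.weight_apply, Finsupp.sum_fintype _ _ (by simp)] at h1
  simpa only [Pi.one_apply, smul_eq_mul, mul_one] using h1

private theorem ltD_mul {N k : ℕ} {P G : MvPolynomial (Fin m) K} (hP : LtD N P)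
    (hG : G.IsHomogeneous k) : LtD (N + k) (P * G) := by
  classical
  intro e he
  rw [coeff_mul] at he
  obtain ⟨x, hx, h⟩ := Finset.exists_ne_zero_of_sum_ne_zero he
  have h1 := hP _ (left_ne_zero_of_mul h)
  have h2 := relm_hom hG (right_ne_zero_of_mul h)
  rw [Finset.HasAntidiagonal.mem_antidiagonal] at hx
  rw [← hx]
  simp only [Finsupp.add_apply]
  rw [Finset.sum_add_distrib]
  omega

private theorem relm_deg (e : Fin m →₀ ℕ) : e.degree = ∑ i, e i := Finsupp.degree_eq_sum e

private theorem relm_hc_zero {N : ℕ} {P : MvPolynomial (Fin m) K} (hP : LtD N P) :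
    homogeneousComponent N P = 0 := by
  ext e
  rw [coeff_homogeneousComponent, coeff_zero, relm_deg]
  split_ifs with h
  · by_contra h'
    exact absurd (hP e h') (by omega)
  · rfl

private theorem relm_split {N : ℕ} {P : MvPolynomial (Fin m) K} (hP : LtD (N + 1) P) :
    LtD N (P - homogeneousComponent N P) := by
  intro e he
  rw [coeff_sub, coeff_homogeneousComponent, relm_deg] at he
  split_ifs at he with h
  · exact absurd (sub_self _) he
  · rw [sub_zero] at he
    have := hP e he
    omega

/-- The component of degree `N + (d - 1)` of the sum. -/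
private theorem relm_top {d : ℕ} (hF : F.IsHomogeneous d) {N : ℕ}
    (Q : Fin m → MvPolynomial (Fin m) K) (hQ : ∀ j, LtD (N + 1) (Q j)) :
    homogeneousComponent (N + (d - 1)) (∑ j, (pderiv j (Q j) + Q j * pderiv j F)) =
      ∑ j, homogeneousComponent N (Q j) * pderiv j F := by
  rw [map_sum]
  refine Finset.sum_congr rfl fun j _ => ?_
  have h1 : homogeneousComponent (N + (d - 1)) (pderiv j (Q j)) = 0 :=
    relm_hc_zero (ltD_mono (by omega) (ltD_pderiv (hQ j) j))
  have h2 : Q j * pderiv j F = homogeneousComponent N (Q j) * pderiv j F +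
      (Q j - homogeneousComponent N (Q j)) * pderiv j F := by ring
  have h3 : (pderiv j F).IsHomogeneous (d - 1) := hF.pderiv
  have h4 : homogeneousComponent (N + (d - 1))
      ((Q j - homogeneousComponent N (Q j)) * pderiv j F) = 0 :=
    relm_hc_zero (ltD_mul (relm_split (hQ j)) h3)
  have h5 : homogeneousComponent (N + (d - 1)) (homogeneousComponent N (Q j) * pderiv j F) =
      homogeneousComponent N (Q j) * pderiv j F := by
    rw [homogeneousComponent_of_mem (n := N + (d - 1)), if_pos rfl]
    rw [mem_homogeneousSubmodule]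
    exact (homogeneousComponent_isHomogeneous N (Q j)).mul h3
  rw [map_add, h1, zero_add, h2, map_add, h4, h5, add_zero]

private theorem relm_asym {M' : Type*} [AddCommGroup M'] (T : Fin m → Fin m → M')
    (h0 : ∀ i, T i i = 0) (h1 : ∀ i j, T i j + T j i = 0) : ∑ i, ∑ j, T i j = 0 := by
  rw [← Finset.sum_product']
  refine Finset.sum_involution (fun a _ => (a.2, a.1)) ?_ ?_ ?_ ?_
  · intro a _
    exact h1 a.1 a.2
  · intro a _ ha h2
    apply ha
    have h3 : a.2 = a.1 := congrArg Prod.fst h2
    rw [h3]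
    exact h0 _
  · intro a _
    exact Finset.mem_product.mpr ⟨Finset.mem_univ _, Finset.mem_univ _⟩
  · intro a _
    rfl

theorem mem_RelM {P : MvPolynomial (Fin m) K} :
    P ∈ RelM F ↔ ∃ Q : Fin m → MvPolynomial (Fin m) K, P = ∑ j, (pderiv j (Q j) + Q j * pderiv j F) := by
  classical
  constructor
  · intro h
    refine Submodule.span_induction ?_ ?_ ?_ ?_ h
    · rintro x ⟨j, Q, rfl⟩
      refine ⟨fun i => if i = j then Q else 0, ?_⟩
      rw [Finset.sum_eq_single j]
      · simp
      · intro b _ hb
        beta_reduce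
        rw [if_neg hb]
        simp
      · intro hj
        exact absurd (Finset.mem_univ j) hj
    · exact ⟨fun _ => 0, by simp⟩
    · rintro x y _ _ ⟨Q, hQ⟩ ⟨Q', hQ'⟩
      refine ⟨fun j => Q j + Q' j, ?_⟩
      rw [hQ, hQ', ← Finset.sum_add_distrib]
      refine Finset.sum_congr rfl fun j _ => ?_
      rw [map_add]
      ring
    · rintro a x _ ⟨Q, hQ⟩
      refine ⟨fun j => a • Q j, ?_⟩
      rw [hQ, Finset.smul_sum]
      refine Finset.sum_congr rfl fun j _ => ?_
      rw [Derivation.map_smul, smul_add, smul_mul_assoc]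
  · rintro ⟨Q, rfl⟩
    exact Submodule.sum_mem _ fun j _ => Submodule.subset_span ⟨j, Q j, rfl⟩

theorem relM_low {d : ℕ} (hd : 2 ≤ d) (hF : F.IsHomogeneous d) {M : ℕ}
    (hM : ∀ i, (X i : MvPolynomial (Fin m) K) ^ M ∈ Ideal.span (Set.range fun j => pderiv j F))
    {N : ℕ} (Q : Fin m → MvPolynomial (Fin m) K) (hQ : ∀ j, ∀ e ∈ (Q j).support, ∑ i, e i ≤ N)
    (h0 : homogeneousComponent (N + (d - 1)) (∑ j, (pderiv j (Q j) + Q j * pderiv j F)) = 0) :
    ∃ Q' : Fin m → MvPolynomial (Fin m) K, (∀ j, ∀ e ∈ (Q' j).support, ∑ i, e i < N) ∧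
      ∑ j, (pderiv j (Q' j) + Q' j * pderiv j F) = ∑ j, (pderiv j (Q j) + Q j * pderiv j F) := by
  have hQ1 : ∀ j, LtD (N + 1) (Q j) := fun j e he =>
    Nat.lt_succ_of_le (hQ j e (mem_support_iff.mpr he))
  rw [relm_top hF Q hQ1] at h0
  rcases Nat.eq_zero_or_pos m with hm | hm
  · subst hm
    exact ⟨Q, fun j => j.elim0, rfl⟩
  obtain ⟨A, ⟨hA0, hA1⟩, hA2, hA3⟩ := koszul_hom (fun _ => 1) d (fun j => pderiv j F) M hM (by
      intro j e he
      have h1 := relm_hom (hF.pderiv (i := j)) (mem_support_iff.mp he)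
      unfold wt
      simp only [one_mul]
      omega) (N + m - 1) (fun j => homogeneousComponent N (Q j)) (by
      intro j e he
      have h1 := relm_hom (homogeneousComponent_isHomogeneous N (Q j)) (mem_support_iff.mp he)
      unfold wtp
      simp only [one_mul]
      rw [Finset.sum_add_distrib]
      simp only [Finset.sum_const, Finset.card_univ, Fintype.card_fin, smul_eq_mul, mul_one]
      omega) h0
  have hA4 : ∀ i j, LtD N (A i j) := by
    intro i j e he
    have h1 := hA2 i j e (mem_support_iff.mpr he)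
    unfold wtp at h1
    simp only [one_mul] at h1
    rw [Finset.sum_add_distrib] at h1
    simp only [Finset.sum_const, Finset.card_univ, Fintype.card_fin, smul_eq_mul, mul_one] at h1
    omega
  refine ⟨fun i => Q i - ∑ j, (A i j * pderiv j F + pderiv j (A i j)), ?_, ?_⟩
  · intro i e he
    have h1 : Q i - ∑ j, (A i j * pderiv j F + pderiv j (A i j)) =
        (Q i - homogeneousComponent N (Q i)) - ∑ j, pderiv j (A i j) := by
      rw [Finset.sum_add_distrib, hA3 i]
      ring
    have h2 : LtD N (Q i - ∑ j, (A i j * pderiv j F + pderiv j (A i j))) := by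
      rw [h1]
      exact ltD_sub (relm_split (hQ1 i)) (ltD_sum _ _ fun j _ =>
        ltD_pderiv (ltD_mono (Nat.le_succ N) (hA4 i j)) j)
    exact h2 e (mem_support_iff.mp he)
  · have h1 : ∑ i, ∑ j, (pderiv i (A i j * pderiv j F + pderiv j (A i j)) +
        (A i j * pderiv j F + pderiv j (A i j)) * pderiv i F) = 0 := by
      refine relm_asym _ ?_ ?_
      · intro i
        rw [hA0 i]
        simp
      · intro i j
        have h2 : A j i = - A i j := hA1 j i
        rw [h2]
        simp only [map_add, map_neg, neg_mul, pderiv_mul]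
        rw [relm_pcomm i j F, relm_pcomm i j (A i j)]
        ring
    have h2 : ∀ i, pderiv i (Q i - ∑ j, (A i j * pderiv j F + pderiv j (A i j))) +
        (Q i - ∑ j, (A i j * pderiv j F + pderiv j (A i j))) * pderiv i F =
        (pderiv i (Q i) + Q i * pderiv i F) -
          ∑ j, (pderiv i (A i j * pderiv j F + pderiv j (A i j)) +
            (A i j * pderiv j F + pderiv j (A i j)) * pderiv i F) := by
      intro i
      rw [map_sub, map_sum, sub_mul, Finset.sum_mul, Finset.sum_add_distrib (f := fun j =>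
        pderiv i (A i j * pderiv j F + pderiv j (A i j)))]
      ring
    rw [Finset.sum_congr rfl fun i _ => h2 i, Finset.sum_sub_distrib, h1, sub_zero]

theorem indepM_of_cdata {d : ℕ} (hd : 2 ≤ d) (hF : F.IsHomogeneous d) {M : ℕ}
    (hM : ∀ i, (X i : MvPolynomial (Fin m) K) ^ M ∈ Ideal.span (Set.range fun j => pderiv j F))
    {V : Type*} [Fintype V] [DecidableEq V] {J : ℕ} {g : V → Fin m →₀ ℕ} {lv : V → ℕ}
    {c : V → (Fin m →₀ ℕ) → K} {h : K} (hC : CData d J F g lv c h) (hh : h ≠ 0) :
    IndepM F g := by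
  intro a ha
  have hell : ∀ (S : V → Prop) [DecidablePred S] (v₀ : V), S v₀ →
      ell c v₀ (∑ v, if S v then monomial (g v) (a v) else 0) = a v₀ * h := by
    intro S _ v₀ hv₀
    rw [map_sum, Finset.sum_eq_single v₀]
    · rw [if_pos hv₀, ell_monomial, hC.self, if_pos rfl]
    · intro v _ hv
      split_ifs
      · rw [ell_monomial, hC.self, if_neg (Ne.symm hv), mul_zero]
      · exact map_zero _
    · intro hv
      exact absurd (Finset.mem_univ v₀) hv
  have main : ∀ N : ℕ, ∀ Q : Fin m → MvPolynomial (Fin m) K, (∀ j, LtD N (Q j)) →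
      ∑ v, monomial (g v) (a v) = ∑ j, (pderiv j (Q j) + Q j * pderiv j F) →
      ∑ v, monomial (g v) (a v) = 0 := by
    intro N
    induction N with
    | zero =>
      intro Q hQ he
      rw [he]
      refine Finset.sum_eq_zero fun j _ => ?_
      have h1 : Q j = 0 := by
        ext e
        by_contra h2
        exact absurd (hQ j e h2) (Nat.not_lt_zero _)
      rw [h1]
      simp
    | succ N ih =>
      intro Q hQ he
      have h1 : homogeneousComponent (N + (d - 1)) (∑ v, monomial (g v) (a v)) =
          ∑ v, if (∑ i, (g v) i = N + (d - 1)) then monomial (g v) (a v) else 0 := by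
        rw [map_sum]
        refine Finset.sum_congr rfl fun v _ => ?_
        rw [homogeneousComponent_of_mem (n := ∑ i, (g v) i)
          ((mem_homogeneousSubmodule _ _).mpr (isHomogeneous_monomial _ (relm_deg _)))]
        by_cases h2 : ∑ i, (g v) i = N + (d - 1)
        · rw [if_pos h2, if_pos h2.symm]
        · rw [if_neg h2, if_neg (Ne.symm h2)]
      have h2 : homogeneousComponent (N + (d - 1)) (∑ v, monomial (g v) (a v)) =
          ∑ j, homogeneousComponent N (Q j) * pderiv j F := by
        rw [he]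
        exact relm_top hF Q hQ
      have h3 : ∀ v, ∑ i, (g v) i = N + (d - 1) → a v = 0 := by
        intro v hv
        have h4 := hell (fun v => ∑ i, (g v) i = N + (d - 1)) v hv
        rw [← h1, h2, map_sum, Finset.sum_eq_zero fun j _ => hC.ker v j _] at h4
        rcases mul_eq_zero.mp h4.symm with h5 | h5
        · exact h5
        · exact absurd h5 hh
      have h4 : homogeneousComponent (N + (d - 1))
          (∑ j, (pderiv j (Q j) + Q j * pderiv j F)) = 0 := by
        rw [← he, h1]
        refine Finset.sum_eq_zero fun v _ => ?_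
        split_ifs with h5
        · rw [h3 v h5, monomial_zero]
        · rfl
      obtain ⟨Q', hQ', hQ''⟩ := relM_low hd hF hM Q (fun j e he' =>
        Nat.le_of_lt_succ (hQ j e (mem_support_iff.mp he'))) h4
      exact ih Q' (fun j e he' => hQ' j e (mem_support_iff.mpr he')) (by rw [he, hQ''])
  obtain ⟨Q, hQ⟩ := mem_RelM.mp ha
  have hb : ∃ N, ∀ j, LtD N (Q j) := by
    refine ⟨(Finset.univ.sup fun j => (Q j).support.sup fun e => ∑ i, e i) + 1, ?_⟩
    intro j e he
    have h1 : ∑ i, e i ≤ (Q j).support.sup fun e => ∑ i, e i :=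
      Finset.le_sup (f := fun e : Fin m →₀ ℕ => ∑ i, e i) (mem_support_iff.mpr he)
    have h2 : ((Q j).support.sup fun e => ∑ i, e i) ≤
        Finset.univ.sup fun j => (Q j).support.sup fun e => ∑ i, e i :=
      Finset.le_sup (f := fun j => (Q j).support.sup fun e => ∑ i, e i) (Finset.mem_univ j)
    omega
  obtain ⟨N, hN⟩ := hb
  have h1 := main N Q hN hQ
  funext v
  have h2 := hell (fun _ => True) v trivial
  simp only [if_true] at h2
  rw [h1, map_zero] at h2
  rcases mul_eq_zero.mp h2.symm with h5 | h5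
  · exact h5
  · exact absurd h5 hh

end MPadcBK
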