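import Pool.Agent.Lib.MP_adc574_ag_BK.CData

/-!
# JOB Spr: spreading out coordinates

`A₀` a domain, `ι : A₀ → K` injective, every element of the field `K` is a quotient of elements of `ι A₀`. There are only finitely many `e` with `tdg e ≤ J d`; for the other `e` all `c' v e = 0` (`zero`, `lv_le`).
`span` for these `e` (level `i ≤ J`): `x^e - ∑ = ∑_j Q_{e,j} ∂_j (F.map ι)`, finitely many coefficients of the `Q_{e,j}` in `K`. Let `h ≠ 0` in `A₀` be a common denominator of all `c' v e` and all coefficients of the `Q_{e,j}` (finite products of denominators; `ι (h) * x ∈ ι A₀`).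
Then `c v e` with `ι (c v e) = ι h * c' v e` (choose `0` when `c' v e = 0`). All conditions can be checked after `ι` (injective; `MvPolynomial.map_injective`): `ker`: `ι (ell c v (Q * ∂_j F)) = ell (ι c) v (..) = ι h * ell c' v (..) = 0`; `span`: `C h x^e - ∑ monomial (g v) (c v e) = ∑_j Q'_{e,j} ∂_j F` with `Q'.map ι = ι h • Q`.
`CData.uniq`: two data over a domain with the same `F`, `g`, `lv`: `h' * c v e = h * c' v e`: apply `ell c v` to `C h' x^e - ∑ monomial (g v') (c' v' e) ∈ Jac`: `h' c v e - c' v e * h = 0` for `e` of level `lv v`; for other `e` both are 0 (`zero`).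
-/

set_option autoImplicit false

namespace MPadcBK

open MvPolynomial MPadcGM MPadcHM

private theorem spr_clear {A₀ K : Type*} [CommRing A₀] [IsDomain A₀] [Field K] (ι : A₀ →+* K)
    (hfr : ∀ x : K, ∃ b s : A₀, s ≠ 0 ∧ ι s * x = ι b) {T : Type*} (s : Finset T) (x : T → K) :
    ∃ h : A₀, h ≠ 0 ∧ ∀ t ∈ s, ∃ b : A₀, ι b = ι h * x t := by
  classical
  induction s using Finset.induction_on with
  | empty => exact ⟨1, one_ne_zero, fun t ht => absurd ht (Finset.notMem_empty t)⟩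
  | insert a s _ ih =>
    obtain ⟨h, hh, hb⟩ := ih
    obtain ⟨b, r, hr, hbr⟩ := hfr (x a)
    refine ⟨r * h, mul_ne_zero hr hh, fun t ht => ?_⟩
    rcases Finset.mem_insert.mp ht with h1 | h1
    · refine ⟨h * b, ?_⟩
      rw [h1, map_mul, map_mul, ← hbr]
      ring
    · obtain ⟨b', hb'⟩ := hb t h1
      refine ⟨r * b', ?_⟩
      rw [map_mul, map_mul, hb']
      ring

private theorem spr_clearP {A₀ K : Type*} [CommRing A₀] [IsDomain A₀] [Field K] (ι : A₀ →+* K)
    (hfr : ∀ x : K, ∃ b s : A₀, s ≠ 0 ∧ ι s * x = ι b) {m : ℕ} (P : MvPolynomial (Fin m) K) :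
    ∃ h : A₀, h ≠ 0 ∧ ∃ P' : MvPolynomial (Fin m) A₀, P'.map ι = C (ι h) * P := by
  obtain ⟨h, hh, hb⟩ := spr_clear ι hfr P.support (fun u => coeff u P)
  have hb' : ∀ u : Fin m →₀ ℕ, ∃ b : A₀, u ∈ P.support → ι b = ι h * coeff u P := by
    intro u
    by_cases hu : u ∈ P.support
    · obtain ⟨b, hbb⟩ := hb u hu
      exact ⟨b, fun _ => hbb⟩
    · exact ⟨0, fun h' => absurd h' hu⟩
  choose b hb2 using hb'
  refine ⟨h, hh, ∑ u ∈ P.support, monomial u (b u), ?_⟩
  rw [map_sum]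
  conv_rhs => rw [MvPolynomial.as_sum P]
  rw [Finset.mul_sum]
  refine Finset.sum_congr rfl fun u hu => ?_
  rw [MvPolynomial.map_monomial, hb2 u hu, MvPolynomial.C_mul_monomial]

private theorem spr_clearF {A₀ K : Type*} [CommRing A₀] [IsDomain A₀] [Field K] (ι : A₀ →+* K)
    (hfr : ∀ x : K, ∃ b s : A₀, s ≠ 0 ∧ ι s * x = ι b) {m : ℕ} {T : Type*} (s : Finset T)
    (P : T → MvPolynomial (Fin m) K) :
    ∃ h : A₀, h ≠ 0 ∧ ∀ t ∈ s, ∃ P' : MvPolynomial (Fin m) A₀, P'.map ι = C (ι h) * P t := by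
  classical
  induction s using Finset.induction_on with
  | empty => exact ⟨1, one_ne_zero, fun t ht => absurd ht (Finset.notMem_empty t)⟩
  | insert a s _ ih =>
    obtain ⟨h, hh, hb⟩ := ih
    obtain ⟨r, hr, P', hP'⟩ := spr_clearP ι hfr (P a)
    refine ⟨r * h, mul_ne_zero hr hh, fun t ht => ?_⟩
    rcases Finset.mem_insert.mp ht with h1 | h1
    · refine ⟨C h * P', ?_⟩
      rw [h1, map_mul, map_mul, hP', MvPolynomial.map_C, C_mul]
      ring
    · obtain ⟨P'', hP''⟩ := hb t h1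
      refine ⟨C r * P'', ?_⟩
      rw [map_mul, map_mul, hP'', MvPolynomial.map_C, C_mul]
      ring

private theorem spr_fin (m N : ℕ) : {e : Fin m →₀ ℕ | tdg e ≤ N}.Finite := by
  refine (Set.finite_Iic (Finsupp.equivFunOnFinite.symm (fun _ : Fin m => N))).subset ?_
  intro e he
  have he' : tdg e ≤ N := he
  rw [Set.mem_Iic, Finsupp.le_def]
  intro i
  change e i ≤ N
  unfold tdg at he'
  have h1 := Finset.single_le_sum (f := fun i => e i + 1) (fun _ _ => Nat.zero_le _) (Finset.mem_univ i)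
  have h2 : e i + 1 ≤ ∑ i, (e i + 1) := h1
  omega

private theorem spr_scale {m : ℕ} {R : Type*} [CommRing R] {V : Type*}
    (c : V → (Fin m →₀ ℕ) → R) (a : R) (v : V) (P : MvPolynomial (Fin m) R) :
    ell (fun v e => a * c v e) v P = a * ell c v P := by
  rw [ell_eq_sum, ell_eq_sum, Finset.mul_sum]
  refine Finset.sum_congr rfl fun e _ => ?_
  ring

private theorem spr_jac {m : ℕ} {R : Type*} [CommRing R] {V : Type*} [Fintype V] [DecidableEq V]
    {d J : ℕ} {F : MvPolynomial (Fin m) R} {g : V → Fin m →₀ ℕ} {lv : V → ℕ}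
    {c : V → (Fin m →₀ ℕ) → R} {h : R} (hC : CData d J F g lv c h) (v : V)
    {P : MvPolynomial (Fin m) R} (hP : P ∈ Ideal.span (Set.range fun j => pderiv j F)) :
    ell c v P = 0 := by
  obtain ⟨Q, hQ⟩ := Ideal.mem_span_range_iff_exists_fun.mp hP
  rw [← hQ, map_sum]
  exact Finset.sum_eq_zero fun j _ => hC.ker v j (Q j)

theorem CData.spread {A₀ K : Type*} [CommRing A₀] [IsDomain A₀] [Field K] (ι : A₀ →+* K)
    (hι : Function.Injective ι) (hfr : ∀ x : K, ∃ b s : A₀, s ≠ 0 ∧ ι s * x = ι b) {m : ℕ}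
    {V : Type*} [Fintype V] [DecidableEq V] {d J : ℕ} {F : MvPolynomial (Fin m) A₀}
    {g : V → Fin m →₀ ℕ} {lv : V → ℕ} {c' : V → (Fin m →₀ ℕ) → K}
    (hC : CData d J (F.map ι) g lv c' 1) :
    ∃ (h : A₀) (c : V → (Fin m →₀ ℕ) → A₀), h ≠ 0 ∧ (∀ v e, ι (c v e) = ι h * c' v e) ∧
      CData d J F g lv c h := by
  classical
  -- the relations
  have hQ : ∀ (t : ℕ × (Fin m →₀ ℕ)), ∃ Q : Fin m → MvPolynomial (Fin m) K,
      (1 ≤ t.1 → t.1 ≤ J → tdg t.2 = t.1 * d → ∑ j, Q j * pderiv j (F.map ι) =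
        C 1 * monomial t.2 1 - ∑ v, (if lv v = t.1 then monomial (g v) (c' v t.2) else 0)) := by
    intro t
    by_cases ht : 1 ≤ t.1 ∧ t.1 ≤ J ∧ tdg t.2 = t.1 * d
    · obtain ⟨Q, hQ⟩ := Ideal.mem_span_range_iff_exists_fun.mp (hC.span t.1 ht.1 ht.2.1 t.2 ht.2.2)
      exact ⟨Q, fun _ _ _ => hQ⟩
    · exact ⟨fun _ => 0, fun h1 h2 h3 => absurd ⟨h1, h2, h3⟩ ht⟩
  choose Q hQ using hQ
  set E : Finset (Fin m →₀ ℕ) := (spr_fin m (J * d)).toFinset with hE
  have hEmem : ∀ e, tdg e ≤ J * d → e ∈ E := by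
    intro e he
    rw [hE, Set.Finite.mem_toFinset]
    exact he
  obtain ⟨h1, hh1, hb1⟩ := spr_clear ι hfr ((Finset.univ : Finset V) ×ˢ E) (fun t => c' t.1 t.2)
  obtain ⟨h2, hh2, hb2⟩ := spr_clearF ι hfr
    (((Finset.range (J + 1)) ×ˢ E) ×ˢ (Finset.univ : Finset (Fin m))) (fun t => Q t.1 t.2)
  have hc : ∀ v e, ∃ b : A₀, ι b = ι (h1 * h2) * c' v e := by
    intro v e
    by_cases he : tdg e = lv v * d
    · have h3 : e ∈ E := hEmem e (by rw [he]; exact Nat.mul_le_mul_right d (hC.lv_le v))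
      obtain ⟨b, hb⟩ := hb1 (v, e) (Finset.mem_product.mpr ⟨Finset.mem_univ _, h3⟩)
      refine ⟨h2 * b, ?_⟩
      rw [map_mul, map_mul, hb]
      ring
    · refine ⟨0, ?_⟩
      rw [hC.zero v e he, mul_zero, map_zero]
  choose c hc using hc
  refine ⟨h1 * h2, c, mul_ne_zero hh1 hh2, hc, hC.lv_pos, hC.lv_le, hC.lev, ?_, ?_, ?_, ?_⟩
  · intro v j P
    apply hι
    rw [← ell_map, map_zero]
    have h3 : (fun v e => ι (c v e)) = fun v e => ι (h1 * h2) * c' v e := by
      funext v e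
      exact hc v e
    have h4 : MvPolynomial.map ι (P * pderiv j F) = MvPolynomial.map ι P * pderiv j (F.map ι) := by
      rw [map_mul, MvPolynomial.pderiv_map]
    rw [h3, spr_scale, h4, hC.ker, mul_zero]
  · intro v v'
    apply hι
    rw [hc, hC.self]
    split_ifs with h3
    · rw [mul_one]
    · rw [mul_zero, map_zero]
  · intro v e he
    apply hι
    rw [hc, hC.zero v e he, mul_zero, map_zero]
  · intro i hi hiJ e he
    have heE : e ∈ E := hEmem e (by rw [he]; exact Nat.mul_le_mul_right d hiJ)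
    have hP : ∀ j, ∃ P' : MvPolynomial (Fin m) A₀, P'.map ι = C (ι h2) * Q (i, e) j := by
      intro j
      exact hb2 ((i, e), j) (Finset.mem_product.mpr ⟨Finset.mem_product.mpr
        ⟨Finset.mem_range.mpr (Nat.lt_succ_of_le hiJ), heE⟩, Finset.mem_univ _⟩)
    choose P hP using hP
    have hrel := hQ (i, e) hi hiJ he
    rw [Ideal.mem_span_range_iff_exists_fun]
    refine ⟨fun j => C h1 * P j, ?_⟩
    apply MvPolynomial.map_injective ι hι
    have h4 : MvPolynomial.map ι (∑ j, C h1 * P j * pderiv j F) =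
        C (ι (h1 * h2)) * ∑ j, Q (i, e) j * pderiv j (F.map ι) := by
      rw [map_sum, Finset.mul_sum]
      refine Finset.sum_congr rfl fun j _ => ?_
      rw [map_mul, map_mul, hP j, MvPolynomial.map_C, MvPolynomial.pderiv_map, map_mul, C_mul]
      ring
    have h6 : MvPolynomial.map ι (C (h1 * h2) * monomial e 1) =
        C (ι (h1 * h2)) * (monomial e 1 : MvPolynomial (Fin m) K) := by
      rw [map_mul (MvPolynomial.map ι) (C (h1 * h2)) (monomial e 1), MvPolynomial.map_C,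
        MvPolynomial.map_monomial, map_one]
    rw [h4, hrel, map_sub, h6, C_1, one_mul, mul_sub, map_sum, Finset.mul_sum]
    congr 1
    refine Finset.sum_congr rfl fun v _ => ?_
    split_ifs with h5
    · rw [MvPolynomial.map_monomial, MvPolynomial.C_mul_monomial, hc]
    · rw [mul_zero, map_zero]

theorem CData.uniq {R : Type*} [CommRing R] {m : ℕ} {V : Type*} [Fintype V]
    [DecidableEq V] {d J : ℕ} {F : MvPolynomial (Fin m) R} {g : V → Fin m →₀ ℕ} {lv : V → ℕ}
    {c c' : V → (Fin m →₀ ℕ) → R} {h h' : R} (hC : CData d J F g lv c h)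
    (hC' : CData d J F g lv c' h') (v : V) (e : Fin m →₀ ℕ) : h' * c v e = h * c' v e := by
  by_cases he : tdg e = lv v * d
  · have h1 := spr_jac hC v (hC'.span (lv v) (hC'.lv_pos v) (hC'.lv_le v) e he)
    rw [map_sub, map_sum, MvPolynomial.C_mul_monomial, mul_one, ell_monomial, sub_eq_zero] at h1
    rw [h1, Finset.sum_eq_single v]
    · rw [if_pos rfl, ell_monomial, hC.self, if_pos rfl, mul_comm]
    · intro v' _ hv'
      split_ifs with h2
      · rw [ell_monomial, hC.self, if_neg (fun h => hv' h.symm), mul_zero]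
      · exact map_zero _
    · intro h2
      exact absurd (Finset.mem_univ v) h2
  · rw [hC.zero v e he, hC'.zero v e he, mul_zero, mul_zero]

end MPadcBK
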