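import Pool.Agent.Lib.MP_adc574_ag_BK.FactD
import Pool.Agent.Lib.MP_adc574_ag_BK.LocD
import Pool.Agent.Lib.MP_adc574_ag_BK.KeyG
import Pool.Agent.Lib.MP_adc574_ag_HM.TheoremC

/-!
# JOB ThCG: nonvanishing of the determinants of all pole orders

Follow the proof of `MPadcHM.theoremC` (HM/TheoremC.lean) with `key_gen` instead of `key` and `local_data'` instead of `local_data`. If `V = Vs U d J` is empty the determinant is 1.
* `exists_nab` gives `nab`, `hG`. `fact` for every `v` gives `cb v`, `fact_der` the derivation rule on `Hprim`.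
* `f u := ((lvu d u - 1)! : K) • lv nab S.br (lvu d u - 1) (monomial u 1) ∈ Hprim` (`wtp u < d (lvu u)`), and `cb v (f u) = C v (lvu u) (x^(gu u))` (`hx d (lvu u) u = gu d u`; `d * k` / `k * d`). The `f u`, `u ∈ V`, are `K`-independent (`indH` with `k u = lvu d u - 1`, factorials are not 0; `h_gen`, `h_ind`, `hU` transported by `part_aff`; note `wtp S.w = wtp (fun _ => 1)` by `hw`).
* `k` with `α = n/2 - 1 - k` equal to 0 or not an integer and `∑ w = n < d (k+2)`: `n` even: `k = n/2 - 1` (`n < d (n/2 + 1)` as `2 ≤ d`); `n` odd: `k = n`.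
* `b` a basis of `Hprim`, `ΓK`, `irr_coord` (from `hI : GMIrr S`), `local_package`, `isDomain_tensor` as in `theoremC`; coordinates of `f u` in the basis `b`; `c v j = cb v (b j)`: `DL (c v j) = ∑ i, c v i ΓK i j + ∑ v', ν v v' c v' j` (`fact_der`, `b j ∈ Hprim`); they are `L`-independent: if `∑ lam_v c v j = 0` for all `j` then
  `∑ lam_v cb v = 0` on `Hprim`; for `e : Fin (n+1) →₀ ℕ` of level `k ≥ 1` `x^e = x^(hx d k e.tail)` so `∑ lam_v C v k (x^e) = (k-1)! ∑ lam_v cb v (lv (k-1) (x^(e.tail))) = 0`, and `hind` gives `lam = 0`.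
* `key_gen` reindexed by `V ≃ Fin (card V)` (`ν` reindexed as well).
-/

set_option autoImplicit false

namespace MPadcBK

open MvPolynomial MPadcGM MPadcHM

universe u

private theorem thcg_alpha {κ : Type u} [Field κ] [CharZero κ] {n : ℕ} (hn : 2 ≤ n) (d : ℕ)
    (hd : 2 ≤ d) : ∃ k : ℕ, n < d * (k + 2) ∧
      ((n : κ) / 2 - 1 - k = 0 ∨ ∀ m : ℤ, (n : κ) / 2 - 1 - k ≠ m) := by
  rcases Nat.even_or_odd' n with ⟨m, hm | hm⟩
  · refine ⟨m - 1, ?_, Or.inl ?_⟩
    · have h1 : 1 ≤ m := by omega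
      have h2 : m - 1 + 2 = m + 1 := by omega
      rw [h2]
      nlinarith
    · have h1 : 1 ≤ m := by omega
      rw [hm]
      push_cast [Nat.cast_sub h1]
      ring
  · refine ⟨n, ?_, Or.inr fun z hz => ?_⟩
    · nlinarith
    · rw [hm] at hz
      have h2 : (2 : κ) ≠ 0 := two_ne_zero
      have h3 : ((2 * (m : ℤ) + 1 : ℤ) : κ) = ((2 * (z + 1 + (2 * m + 1)) : ℤ) : κ) := by
        push_cast at hz ⊢
        field_simp at hz
        linear_combination hz
      have h4 : (2 * (m : ℤ) + 1 : ℤ) = 2 * (z + 1 + (2 * m + 1)) := by exact_mod_cast h3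
      omega

private theorem thcg_tdg {n : ℕ} (e : Fin (n + 1) →₀ ℕ) :
    tdg e = e 0 + 1 + wtp (fun _ => 1) e.tail := by
  unfold tdg wtp
  rw [Fin.sum_univ_succ]
  congr 1
  refine Finset.sum_congr rfl fun i _ => ?_
  rw [Finsupp.tail_apply, one_mul]

private theorem thcg_hx {n : ℕ} (d k : ℕ) (e : Fin (n + 1) →₀ ℕ) (h : tdg e = (k + 1) * d) :
    wtp (fun _ => 1) e.tail < d * (k + 1) ∧ hx d (k + 1) e.tail = e := by
  have h1 := thcg_tdg e
  rw [h] at h1
  have h2 : (k + 1) * d = d * (k + 1) := mul_comm _ _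
  refine ⟨by omega, ?_⟩
  unfold hx
  have h3 : d * (k + 1) - wtp (fun _ => 1) e.tail - 1 = e 0 := by omega
  rw [h3, Finsupp.cons_tail]

private theorem thcg_gu {n : ℕ} (d : ℕ) (u : Fin n →₀ ℕ) : hx d (wtp (fun _ => 1) u / d + 1) u = gu d u := by
  unfold hx gu lvu
  rw [mul_comm]

private theorem thcg_mb {κ : Type u} [Field κ] {n : ℕ} {S : Dat κ n} (hw : S.w = fun _ => 1)
    {Φ : MvPolynomial (Fin (n + 1)) κ} (hΦ : Φ.IsHomogeneous S.d) (haff : aff Φ = S.φ)
    {U : Finset (Fin n →₀ ℕ)} (hU : IsMB (fun _ => 1) (bdr Φ) U) :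
    IsMB S.w (part S.w S.d S.φ) U := by
  have h1 : (Fin.cons 1 (fun _ => 1) : Fin (n + 1) → ℕ) = 1 := by
    funext i
    refine Fin.cases ?_ (fun j => ?_) i
    · rfl
    · rfl
  have h2 : Φ.IsWeightedHomogeneous (Fin.cons 1 (fun _ => 1) : Fin (n + 1) → ℕ) S.d := by
    rw [h1]
    exact hΦ
  have h3 := part_aff (fun _ => 1) S.d Φ h2
  rw [hw, ← haff, h3]
  exact hU

theorem theoremCG {κ : Type u} [Field κ] [CharZero κ] {n : ℕ} (hn : 2 ≤ n) (S : Dat κ n)
    (hS : S.Ok) (hw : S.w = fun _ => 1) (hd2 : 2 ≤ S.d) (hI : GMIrr S)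
    {Φ : MvPolynomial (Fin (n + 1)) κ} (hΦ : Φ.IsHomogeneous S.d) (haff : aff Φ = S.φ)
    {U : Finset (Fin n →₀ ℕ)} (hU : IsMB (fun _ => 1) (bdr Φ) U) (J : ℕ)
    {L : Type u} [Field L] [Algebra (RatFunc κ) L] (DL : Derivation ℤ L L)
    (hD : ∀ x, DL (algebraMap (RatFunc κ) L x) = algebraMap (RatFunc κ) L (DK κ x))
    (hcl : ∀ x : L, IsAlgebraic (RatFunc κ) x → x ∈ (algebraMap (RatFunc κ) L).range)
    (C : Vs U S.d J → ℕ → MvPolynomial (Fin (n + 1)) L →ₗ[L] L)
    (hC : ∀ v k, 1 ≤ k → ∀ j Q,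
      C v (k + 1) (Q * pderiv j ((FK Φ S.d).map (algebraMap (RatFunc κ) L))) =
        C v k (pderiv j Q))
    (ν : Matrix (Vs U S.d J) (Vs U S.d J) L)
    (hder : ∀ (v : Vs U S.d J) (k : ℕ), 1 ≤ k → ∀ e : Fin (n + 1) →₀ ℕ, tdg e = k * S.d →
      DL (C v k (monomial e 1)) = C v (k + 1) (X 0 ^ S.d * monomial e 1) +
        ∑ v', ν v v' * C v' k (monomial e 1))
    (hind : ∀ lam : Vs U S.d J → L, (∀ (k : ℕ), 1 ≤ k → ∀ e : Fin (n + 1) →₀ ℕ, tdg e = k * S.d →
      ∑ v, lam v * C v k (monomial e 1) = 0) → lam = 0) :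
    (Matrix.of fun v u : Vs U S.d J => C v (lvu S.d u.1) (monomial (gu S.d u.1) 1)).det ≠ 0 := by
  classical
  rcases isEmpty_or_nonempty (Vs U S.d J) with hV | ⟨⟨v0⟩⟩
  · rw [Matrix.det_isEmpty]
    exact one_ne_zero
  have hn0 : 0 < n := by omega
  have : CharZero (RatFunc κ) := charZero_of_injective_algebraMap (algebraMap κ (RatFunc κ)).injective
  obtain ⟨nab, hG, -⟩ := exists_nab S hS
  choose cb hcb using fun v => fact hn hS hw hG hΦ haff hU (C v) (hC v)
  have hcb1 := fact_der hS hw hG DL hD C ν hder cb hcb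
  set q : (Fin n →₀ ℕ) → ℕ := fun u => wtp (fun _ => 1) u / S.d with hq
  set F : Vs U S.d J → HH S.fK := fun v =>
    ((q v.1).factorial : RatFunc κ) • lv nab S.br (q v.1) (monomial v.1 1) with hF
  have hFp : ∀ v, F v ∈ Hprim S nab S.br := by
    intro v
    refine Submodule.smul_mem _ _ (Submodule.subset_span ⟨q v.1, v.1, ?_, rfl⟩)
    rw [hw]
    exact Nat.lt_mul_div_succ _ hS.d_pos
  have hmb := thcg_mb hw hΦ haff hU
  have hFi : LinearIndependent (RatFunc κ) F := by
    rw [Fintype.linearIndependent_iff]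
    intro g hg
    set a : (Fin n →₀ ℕ) → RatFunc κ := fun u =>
      if h : u ∈ Vs U S.d J then g ⟨u, h⟩ * ((q u).factorial : RatFunc κ) else 0 with ha
    have hsub : Vs U S.d J ⊆ U := fun u hu => (mem_Vs.1 hu).1
    have hsum : ∑ u ∈ U, a u • lv nab S.br (q u) (monomial u 1) = 0 := by
      rw [← Finset.sum_subset hsub (fun u _ hu => by
        have h1 : a u = 0 := by
          rw [ha]
          exact dif_neg hu
        rw [h1, zero_smul])]
      rw [← hg, ← Finset.sum_coe_sort]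
      refine Finset.sum_congr rfl fun v _ => ?_
      have h1 : a v.1 = g v * ((q v.1).factorial : RatFunc κ) := by
        rw [ha]
        exact dif_pos v.2
      rw [h1, hF, mul_smul]
    have h0 := indH hn0 hS hG (fun P N hP => h_gen hn hS hG U hmb P N hP)
      (fun a' ha' => h_ind hn S hS U hmb a' ha') q a (by
        intro u _ hdu
        rw [ha]
        refine dif_neg fun h => ?_
        rw [hw] at hdu
        exact (mem_Vs.1 h).2.1 hdu) hsum
    intro v
    have h1 := h0 v.1 (hsub v.2)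
    have h2 : a v.1 = g v * ((q v.1).factorial : RatFunc κ) := by
      rw [ha]
      exact dif_pos v.2
    rw [h2] at h1
    rcases mul_eq_zero.1 h1 with h3 | h3
    · exact h3
    · exact absurd h3 (Nat.cast_ne_zero.2 (Nat.factorial_ne_zero _))
  have hne : Hprim S nab S.br ≠ ⊥ := by
    intro h
    have := hFp v0
    rw [h, Submodule.mem_bot] at this
    exact hFi.ne_zero v0 this
  obtain ⟨k, hkn, hα'⟩ := thcg_alpha (κ := κ) hn S.d hd2
  have hwk : ∑ i, S.w i < S.d * (k + 2) := by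
    rw [hw]
    simpa using hkn
  obtain ⟨r, b, G, E0, ε, p, hb, hspan, hGb, hGe, δ₁, hδ₁, hδ₁d, hα, hε, hp⟩ :=
    local_data' hn0 hS hG k hwk hne
  set δt : RatFunc κ := algebraMap (Polynomial κ) (RatFunc κ) S.δ with hδt
  have hδ0 : δt ≠ 0 := by
    intro h
    exact hS.sep.ne_zero ((map_eq_zero_iff _ (RatFunc.algebraMap_injective κ)).mp h)
  set ΓK : Matrix (Fin r) (Fin r) (RatFunc κ) :=
    fun i j => algebraMap (Polynomial κ) (RatFunc κ) (G i j) / δt with hΓ
  have hΓK : ∀ i j, δt * ΓK i j = algebraMap (Polynomial κ) (RatFunc κ) (G i j) := by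
    intro i j
    show δt * (algebraMap (Polynomial κ) (RatFunc κ) (G i j) / δt) = _
    rw [mul_div_cancel₀ _ hδ0]
  obtain ⟨E, fE, aE, a, l, ha, hl, hLJ⟩ := local_package S.δ δ₁ hS.sep hδ₁ hδ₁d G E0 ε p hGe _ hα hα'
    hε hp ΓK hΓK (fun W hW => irr_coord hS hG (fun H1 h1 h2 => hI nab hG H1 h1 h2) b hb hspan G hGb ΓK hΓK W hW)
  have hco : ∀ v, ∃ x : Fin r → RatFunc κ, ∑ i, x i • b i = F v := by
    intro v
    have := hFp v
    rw [← hspan] at this
    exact (Submodule.mem_span_range_iff_exists_fun _).mp this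
  choose fc hfc using hco
  have hfi : LinearIndependent (RatFunc κ) fc := by
    rw [Fintype.linearIndependent_iff]
    intro g hg
    rw [Fintype.linearIndependent_iff] at hFi
    refine hFi g ?_
    have h1 : ∑ v, g v • F v = ∑ i, (∑ v, g v * fc v i) • b i := by
      have h2 : ∀ v, g v • F v = ∑ i, (g v * fc v i) • b i := by
        intro v
        rw [← hfc v, Finset.smul_sum]
        exact Finset.sum_congr rfl fun i _ => by rw [smul_smul]
      rw [Finset.sum_congr rfl fun v _ => h2 v, Finset.sum_comm]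
      exact Finset.sum_congr rfl fun i _ => by rw [Finset.sum_smul]
    rw [h1]
    refine Finset.sum_eq_zero fun i _ => ?_
    have h3 : ∑ v, g v * fc v i = 0 := by
      have := congrFun hg i
      rw [Finset.sum_apply] at this
      exact this
    rw [h3, zero_smul]
  have hnb : ∀ j, nab (b j) = ∑ i, ΓK i j • b i := by
    intro j
    have h1 : δt • nab (b j) = δt • ∑ i, ΓK i j • b i := by
      rw [hδt, algebraMap_smul, hGb j, ← hδt, Finset.smul_sum]
      refine Finset.sum_congr rfl fun i _ => ?_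
      rw [smul_smul, hΓK, algebraMap_smul]
    have h2 := congrArg (fun x => δt⁻¹ • x) h1
    simp only [smul_smul, inv_mul_cancel₀ hδ0, one_smul] at h2
    exact h2
  have hcbs : ∀ v (x : RatFunc κ) (h : HH S.fK), cb v (x • h) = cb v h * algebraMap (RatFunc κ) L x := by
    intro v x h
    rw [map_smul, Algebra.smul_def, mul_comm]
  have hbp : ∀ j, b j ∈ Hprim S nab S.br := by
    intro j
    rw [← hspan]
    exact Submodule.subset_span ⟨j, rfl⟩
  have hCD : ∀ v j, DL (cb v (b j)) = ∑ i, cb v (b i) * algebraMap (RatFunc κ) L (ΓK i j) +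
      ∑ v', ν v v' * cb v' (b j) := by
    intro v j
    rw [hcb1 v (b j) (hbp j), hnb, map_sum]
    congr 1
    exact Finset.sum_congr rfl fun i _ => hcbs v _ _
  have hCi : LinearIndependent L (fun v => fun j => cb v (b j)) := by
    rw [Fintype.linearIndependent_iff]
    intro lam hlam v
    have h0 : lam = 0 := by
      refine hind lam fun k hk e he => ?_
      obtain ⟨k', rfl⟩ : ∃ k', k = k' + 1 := ⟨k - 1, by omega⟩
      obtain ⟨he1, he2⟩ := thcg_hx S.d k' e he
      let Ψ : HH S.fK →ₗ[RatFunc κ] L := ∑ v, (LinearMap.mulLeft (RatFunc κ) (lam v)).comp (cb v)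
      have hΨ : ∀ h, Ψ h = ∑ v, lam v * cb v h := by
        intro h
        show (∑ v, (LinearMap.mulLeft (RatFunc κ) (lam v)).comp (cb v)) h = _
        rw [LinearMap.sum_apply]
        rfl
      have hle : Hprim S nab S.br ≤ LinearMap.ker Ψ := by
        rw [← hspan, Submodule.span_le]
        rintro _ ⟨j, rfl⟩
        show Ψ (b j) = 0
        rw [hΨ]
        have := congrFun hlam j
        rw [Finset.sum_apply] at this
        exact this
      have hm : lv nab S.br k' (monomial e.tail 1) ∈ Hprim S nab S.br :=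
        Submodule.subset_span ⟨k', e.tail, by rw [hw]; exact he1, rfl⟩
      have h1 : Ψ (lv nab S.br k' (monomial e.tail 1)) = 0 := hle hm
      rw [hΨ] at h1
      have h2 : ∑ v, lam v * C v (k' + 1) (monomial e 1) =
          (k'.factorial : L) * ∑ v, lam v * cb v (lv nab S.br k' (monomial e.tail 1)) := by
        rw [Finset.mul_sum]
        refine Finset.sum_congr rfl fun v _ => ?_
        have h3 := hcb v k' e.tail he1
        rw [he2] at h3
        rw [← h3]
        ring
      rw [h2, h1, mul_zero]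
    rw [h0]
    rfl
  let _ := fE
  let _ := aE
  have := isDomain_tensor (K := RatFunc κ) (L := L) (E := E) hcl
  let eV : Vs U S.d J ≃ Fin (Fintype.card (Vs U S.d J)) := Fintype.equivFin (Vs U S.d J)
  have hkey := key_gen (K := RatFunc κ) (L := L) (E := E) (DZ κ) DL hD ΓK a l ha hl hLJ
    (Fintype.card (Vs U S.d J)) (fun v j => cb (eV.symm v) (b j)) (ν.submatrix eV.symm eV.symm)
    (fun v j => by
      rw [hCD (eV.symm v) j]
      congr 1
      exact (Equiv.sum_comp eV.symm fun v' => ν (eV.symm v) v' * cb v' (b j)).symm)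
    (hCi.comp _ eV.symm.injective)
    (fun v => fc (eV.symm v)) (hfi.comp _ eV.symm.injective)
  have hM : (Matrix.of fun v u : Vs U S.d J => C v (lvu S.d u.1) (monomial (gu S.d u.1) 1)) =
      Matrix.of fun v w : Vs U S.d J => ∑ i, cb v (b i) * algebraMap (RatFunc κ) L (fc w i) := by
    ext x y
    show C x (lvu S.d y.1) (monomial (gu S.d y.1) 1) = ∑ i, cb x (b i) * algebraMap (RatFunc κ) L (fc y i)
    have h1 : cb x (F y) = ∑ i, cb x (b i) * algebraMap (RatFunc κ) L (fc y i) := by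
      rw [← hfc y, map_sum]
      exact Finset.sum_congr rfl fun i _ => hcbs x _ _
    have h2 : cb x (F y) = ((q y.1).factorial : L) * cb x (lv nab S.br (q y.1) (monomial y.1 1)) := by
      rw [hF, hcbs, map_natCast, mul_comm]
    rw [← h1, h2, hcb x (q y.1) y.1 (Nat.lt_mul_div_succ _ hS.d_pos), hq, thcg_gu]
    rfl
  rw [hM, ← Matrix.det_submatrix_equiv_self eV.symm]
  exact hkey

end MPadcBK
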