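import Pool.Agent.Lib.MP_adc574_ag_BK.Defs

/-!
# JOB Tw: the twist of the exterior algebra by an automorphism of the field

For a ring homomorphism `τ : κ → κ` let `B` be `Lam κ m` with the `κ`-algebra structure `a ↦ algebraMap (τ a)` (a type synonym or a local
`Algebra` instance from `RingHom.toAlgebra'`). `v ↦ ι (τ ∘ v)` is `κ`-linear from `κ^m` to `B` and has square zero: `ExteriorAlgebra.lift`
gives a ring homomorphism `s_τ : Lam κ m → Lam κ m` with `s (algebraMap a) = algebraMap (τ a)`, `s (ι v) = ι (τ ∘ v)`. Two ring homomorphisms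
which agree on `algebraMap a` and `ι v` are equal (`ExteriorAlgebra.induction`), so `s_τ` and `s_(τ⁻¹)` are inverse to each other.
`tw_ct`, `tw_mem`: `CliffordAlgebra.left_induction` (or `ExteriorAlgebra.induction`); `(range ι)^q` is mapped into itself.
-/

set_option autoImplicit false

namespace MPadcBK

open ExteriorAlgebra

universe u

variable {κ : Type u} [Field κ] {m : ℕ}

/-- The exterior algebra with the twisted algebra structure. -/
private def TwB (κ : Type u) [Field κ] (m : ℕ) (_ : κ →+* κ) : Type u := Lam κ m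

private noncomputable instance twRing (τ : κ →+* κ) : Ring (TwB κ m τ) :=
  inferInstanceAs (Ring (Lam κ m))

private noncomputable instance twAlg (τ : κ →+* κ) : Algebra κ (TwB κ m τ) :=
  RingHom.toAlgebra' ((algebraMap κ (Lam κ m)).comp τ) (fun c x =>
    @Algebra.commutes κ (Lam κ m) _ _ _ (τ c) x)

private noncomputable def twLin (τ : κ →+* κ) : (Fin m → κ) →ₗ[κ] TwB κ m τ where
  toFun v := (ι κ (fun i => τ (v i)) : Lam κ m)
  map_add' v w := by
    have h : (fun i => τ ((v + w) i)) = (fun i => τ (v i)) + fun i => τ (w i) := by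
      funext i
      simp
    show ι κ (fun i => τ ((v + w) i)) = (ι κ (fun i => τ (v i)) + ι κ (fun i => τ (w i)) : Lam κ m)
    rw [h, map_add]
  map_smul' a v := by
    have h : (fun i => τ ((a • v) i)) = τ a • fun i => τ (v i) := by
      funext i
      simp
    show ι κ (fun i => τ ((a • v) i)) = (algebraMap κ (Lam κ m) (τ a) * ι κ (fun i => τ (v i)) : Lam κ m)
    rw [h, map_smul, Algebra.smul_def]

private noncomputable def twHom (τ : κ →+* κ) : Lam κ m →+* Lam κ m :=
  (ExteriorAlgebra.lift κ (A := TwB κ m τ)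
    ⟨twLin τ, fun v => ExteriorAlgebra.ι_sq_zero (R := κ) (fun i => τ (v i))⟩).toRingHom

private theorem twHom_algebraMap (τ : κ →+* κ) (a : κ) :
    twHom τ (algebraMap κ (Lam κ m) a) = algebraMap κ (Lam κ m) (τ a) :=
  AlgHom.commutes (ExteriorAlgebra.lift κ (A := TwB κ m τ)
    ⟨twLin τ, fun v => ExteriorAlgebra.ι_sq_zero (R := κ) (fun i => τ (v i))⟩) a

private theorem twHom_iota (τ : κ →+* κ) (v : Fin m → κ) :
    twHom τ (ι κ v) = ι κ (fun i => τ (v i)) :=
  ExteriorAlgebra.lift_ι_apply κ (twLin τ)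
    (fun v => ExteriorAlgebra.ι_sq_zero (R := κ) (fun i => τ (v i))) v

private theorem tw_ext {R : Type*} [Semiring R] (f g : Lam κ m →+* R)
    (h1 : ∀ a, f (algebraMap κ _ a) = g (algebraMap κ _ a)) (h2 : ∀ v, f (ι κ v) = g (ι κ v))
    (x : Lam κ m) : f x = g x := by
  induction x using ExteriorAlgebra.induction with
  | algebraMap r => exact h1 r
  | ι v => exact h2 v
  | mul a b ha hb => rw [map_mul, map_mul, ha, hb]
  | add a b ha hb => rw [map_add, map_add, ha, hb]

private theorem twHom_inv (τ : κ ≃+* κ) (x : Lam κ m) :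
    twHom (τ.symm : κ →+* κ) (twHom (τ : κ →+* κ) x) = x := by
  have h := tw_ext (R := Lam κ m) ((twHom (m := m) (τ.symm : κ →+* κ)).comp (twHom (τ : κ →+* κ)))
    (RingHom.id _) (fun a => ?_) (fun v => ?_) x
  · exact h
  · rw [RingHom.comp_apply, twHom_algebraMap, twHom_algebraMap, RingHom.id_apply]
    simp
  · rw [RingHom.comp_apply, twHom_iota, twHom_iota, RingHom.id_apply]
    simp

theorem exists_tw (τ : κ ≃+* κ) : ∃ s : Lam κ m ≃+* Lam κ m,
    (∀ a, s (algebraMap κ (Lam κ m) a) = algebraMap κ (Lam κ m) (τ a)) ∧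
    ∀ v, s (ι κ v) = ι κ (fun i => τ (v i)) := by
  refine ⟨RingEquiv.ofRingHom (twHom (τ : κ →+* κ)) (twHom (τ.symm : κ →+* κ)) ?_ ?_, ?_, ?_⟩
  · ext1 x
    have h := twHom_inv (m := m) τ.symm x
    rw [RingEquiv.symm_symm] at h
    exact h
  · ext1 x
    exact twHom_inv τ x
  · intro a
    exact twHom_algebraMap _ a
  · intro v
    exact twHom_iota _ v

/-- The twist of the exterior algebra. -/
noncomputable def tw (τ : κ ≃+* κ) : Lam κ m ≃+* Lam κ m := Classical.choose (exists_tw τ)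

theorem tw_algebraMap (τ : κ ≃+* κ) (a : κ) :
    tw τ (algebraMap κ (Lam κ m) a) = algebraMap κ (Lam κ m) (τ a) :=
  (Classical.choose_spec (exists_tw τ)).1 a

theorem tw_iota (τ : κ ≃+* κ) (v : Fin m → κ) : tw τ (ι κ v) = ι κ (fun i => τ (v i)) :=
  (Classical.choose_spec (exists_tw τ)).2 v

theorem tw_smul (τ : κ ≃+* κ) (a : κ) (x : Lam κ m) : tw τ (a • x) = τ a • tw τ x := by
  rw [Algebra.smul_def, Algebra.smul_def, map_mul, tw_algebraMap]

theorem tw_symm_smul (τ : κ ≃+* κ) (a : κ) (x : Lam κ m) :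
    (tw τ).symm (a • x) = τ.symm a • (tw τ).symm x := by
  rw [RingEquiv.symm_apply_eq, tw_smul, RingEquiv.apply_symm_apply, RingEquiv.apply_symm_apply]

private theorem tw_ct_algebraMap (φ : Fin m → κ) (r : κ) :
    ct φ (algebraMap κ (Lam κ m) r) = 0 :=
  CliffordAlgebra.contractLeft_algebraMap (0 : QuadraticForm κ (Fin m → κ))
    (∑ i, φ i • (LinearMap.proj i : (Fin m → κ) →ₗ[κ] κ)) r

private theorem tw_ct_iota_mul (φ v : Fin m → κ) (x : Lam κ m) :
    ct φ (ι κ v * x) = (∑ i, φ i * v i) • x - ι κ v * ct φ x := by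
  have h := CliffordAlgebra.contractLeft_ι_mul (Q := (0 : QuadraticForm κ (Fin m → κ)))
    (d := ∑ i, φ i • (LinearMap.proj i : (Fin m → κ) →ₗ[κ] κ)) v x
  have h2 : (∑ i, φ i • (LinearMap.proj i : (Fin m → κ) →ₗ[κ] κ)) v = ∑ i, φ i * v i := by
    simp [LinearMap.sum_apply]
  rw [h2] at h
  exact h

theorem tw_ct (τ : κ ≃+* κ) (φ : Fin m → κ) (x : Lam κ m) :
    tw τ (ct φ x) = ct (fun i => τ (φ i)) (tw τ x) := by
  induction x using CliffordAlgebra.left_induction with
  | algebraMap r =>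
    show tw τ (ct φ (algebraMap κ (Lam κ m) r)) = ct (fun i => τ (φ i)) (tw τ (algebraMap κ (Lam κ m) r))
    rw [tw_ct_algebraMap, map_zero, tw_algebraMap, tw_ct_algebraMap]
  | add x y hx hy =>
    rw [map_add, map_add, map_add, hx, hy, map_add]
  | ι_mul x v hx =>
    show tw τ (ct φ (ι κ v * x)) = ct (fun i => τ (φ i)) (tw τ (ι κ v * x))
    rw [tw_ct_iota_mul, map_sub, map_mul, map_mul, tw_iota, hx, tw_ct_iota_mul, tw_smul, map_sum]
    simp only [map_mul]

private theorem tw_mem_aux (s : Lam κ m ≃+* Lam κ m) (τ : κ ≃+* κ)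
    (h1 : ∀ a, s (algebraMap κ (Lam κ m) a) = algebraMap κ (Lam κ m) (τ a))
    (h2 : ∀ v, s (ι κ v) = ι κ (fun i => τ (v i))) (q : ℕ) :
    ∀ x : Lam κ m, x ∈ ⋀[κ]^q (Fin m → κ) → s x ∈ ⋀[κ]^q (Fin m → κ) := by
  induction q with
  | zero =>
    intro x hx
    change x ∈ LinearMap.range (ι κ (M := Fin m → κ)) ^ 0 at hx
    change s x ∈ LinearMap.range (ι κ (M := Fin m → κ)) ^ 0
    rw [pow_zero, Submodule.mem_one] at hx ⊢
    obtain ⟨a, rfl⟩ := hx
    exact ⟨τ a, (h1 a).symm⟩
  | succ q ih =>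
    intro x hx
    change x ∈ LinearMap.range (ι κ (M := Fin m → κ)) ^ (q + 1) at hx
    change s x ∈ LinearMap.range (ι κ (M := Fin m → κ)) ^ (q + 1)
    rw [pow_succ] at hx ⊢
    refine Submodule.mul_induction_on hx (fun a ha b hb => ?_) (fun a b ha hb => ?_)
    · rw [map_mul]
      refine Submodule.mul_mem_mul (ih a ha) ?_
      obtain ⟨v, rfl⟩ := hb
      exact ⟨fun i => τ (v i), (h2 v).symm⟩
    · rw [map_add]
      exact Submodule.add_mem _ ha hb

theorem tw_mem (τ : κ ≃+* κ) {q : ℕ} {x : Lam κ m} :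
    tw τ x ∈ ⋀[κ]^q (Fin m → κ) ↔ x ∈ ⋀[κ]^q (Fin m → κ) := by
  refine ⟨fun h => ?_, fun h => tw_mem_aux (tw τ) τ (tw_algebraMap τ) (tw_iota τ) q x h⟩
  have h2 := tw_mem_aux (tw τ).symm τ.symm
    (fun a => by
      rw [RingEquiv.symm_apply_eq, tw_algebraMap, RingEquiv.apply_symm_apply])
    (fun v => by
      rw [RingEquiv.symm_apply_eq, tw_iota]
      simp) q (tw τ x) h
  rwa [RingEquiv.symm_apply_apply] at h2

end MPadcBK
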