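import Pool.Agent.Lib.MP_adc574_ag_BK.Frob
import Pool.Agent.Lib.MP_adc574_ag_BK.Cc

/-!
# JOB Vol: top forms and polynomials

`vol = x_0 ⋯ x_(m-1) dlog x_0 ∧ … = dx_0 ∧ … ∧ dx_(m-1)`, `pt G = pf G * vol`.
Let `ω = ∏ ι (single i 1)` (ordered product of all basis vectors, `List.ofFn`). `ω ∈ ⋀^m`, and every element of `⋀^m (κ^m)` is `a • ω` (e.g. by `split_i` iterated: for `y ∈ ⋀^m` `ι_i * y = 0` (`ext_top`), so `y = ι_0 * cti 0 y`, `cti 0 y ∈ ⋀^(m-1)`, ...; or: `⋀^m` is spanned by the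
products of `m` basis vectors (`exteriorPower` API / `ExteriorAlgebra.ιMulti_family`), which are `0` or `± ω`). `cti i (a • ω) = 0` implies `a = 0` (`ι_i * cti i ω = ω` by `split_i`, `ω ≠ 0`: contract with all `cti` one after the other gives `± 1`).
* `pt_coeff`: `(pt G).coeff e = (coefficient of x ^ (e - 1) in G) • ω` if all `e i ≥ 1`, and `0` otherwise (`coeff_pf_mul`).
* `exists_pt`: `x ∈ Reg ∅ ⊓ FD m ⊓ TD {t}`: `x.coeff e = a_e • ω`; `a_e = 0` if some `e i ≤ 0` (`Reg`: `e i < 0` gives `0`; `e i = 0` gives `cti i (a_e • ω) = 0`), or if `tot e ≠ t`. So `x = pt G`, `G = ∑ a_e x^(e-1)`.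
* `Ca_pt`: coefficientwise: `Ca (pt G)` has at `e` the value `tw⁻¹ ((coefficient of x^(p e - 1) in G) • ω) = (frob⁻¹ ..) • ω` (`tw ω = ω`: `tw_iota` with entries 0, 1), `p e - 1 = p (e - 1) + (p - 1)`; `p e_i ≥ 1` iff `e_i ≥ 1`.
* `ddpf_cj_pt`: `cj_ddpf_mul` and `dF * pt Q = 0` (`FD_top`).
-/

set_option autoImplicit false

namespace MPadcBK

open MvPolynomial MPadcGM MPadcHM

universe u

variable {κ : Type u} [Field κ] {m : ℕ}

/-- The volume form `dx_0 ∧ … ∧ dx_(m-1)`. -/
noncomputable def vol (κ : Type u) [Field κ] (m : ℕ) : Fo κ m :=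
  AddMonoidAlgebra.single (fun _ => 1)
    (List.ofFn fun i : Fin m => ExteriorAlgebra.ι κ (Pi.single i 1 : Fin m → κ)).prod

/-- The top form of a polynomial. -/
noncomputable def pt (G : MvPolynomial (Fin m) κ) : Fo κ m := pf G * vol κ m

private theorem vol_om_eq : (List.ofFn fun i : Fin m =>
    ExteriorAlgebra.ι κ (Pi.single i 1 : Fin m → κ)).prod =
      ExteriorAlgebra.ιMulti κ m (fun i : Fin m => (Pi.single i 1 : Fin m → κ)) :=
  (ExteriorAlgebra.ιMulti_apply _).symm

/-- The product of the basis vectors. -/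
noncomputable def volOm (κ : Type u) [Field κ] (m : ℕ) : Lam κ m :=
  (List.ofFn fun i : Fin m => ExteriorAlgebra.ι κ (Pi.single i 1 : Fin m → κ)).prod

theorem volOm_mem : volOm κ m ∈ ⋀[κ]^m (Fin m → κ) := by
  rw [volOm, vol_om_eq, ← ExteriorAlgebra.ιMulti_span_fixedDegree]
  exact Submodule.subset_span ⟨_, rfl⟩

theorem volOm_ne : volOm κ m ≠ 0 := by
  intro h
  rw [volOm, vol_om_eq] at h
  have h1 := congrArg (ExteriorAlgebra.liftAlternating (R := κ)
    (Pi.single m (Matrix.detRowAlternating (n := Fin m) (R := κ)) :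
      ∀ i, (Fin m → κ) [⋀^Fin i]→ₗ[κ] κ)) h
  rw [ExteriorAlgebra.liftAlternating_apply_ιMulti, Pi.single_eq_same, map_zero] at h1
  have h2 : Matrix.detRowAlternating (n := Fin m) (R := κ)
      (fun i : Fin m => (Pi.single i 1 : Fin m → κ)) = 1 := by
    have h3 : (fun i : Fin m => (Pi.single i 1 : Fin m → κ)) = (1 : Matrix (Fin m) (Fin m) κ) := by
      funext i j
      rw [Matrix.one_apply, Pi.single_apply]
      by_cases hij : i = j
      · rw [if_pos hij, if_pos hij.symm]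
      · rw [if_neg hij, if_neg (fun h' => hij h'.symm)]
    rw [h3]
    exact Matrix.det_one
  rw [h2] at h1
  exact one_ne_zero h1

theorem volOm_spans {y : Lam κ m} (hy : y ∈ ⋀[κ]^m (Fin m → κ)) : ∃ a : κ, y = a • volOm κ m := by
  have hf : Module.finrank κ (⋀[κ]^m (Fin m → κ)) = 1 := by
    rw [exteriorPower.finrank_eq, Module.finrank_fin_fun, Nat.choose_self]
  obtain ⟨a, ha⟩ := (finrank_eq_one_iff_of_nonzero' (⟨volOm κ m, volOm_mem⟩ :
    ⋀[κ]^m (Fin m → κ)) (fun h => volOm_ne (congrArg Subtype.val h))).1 hf ⟨y, hy⟩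
  exact ⟨a, (congrArg Subtype.val ha).symm⟩

private theorem vol_smul_inj {a b : κ} (h : a • volOm κ m = b • volOm κ m) : a = b := by
  have h1 : (a - b) • volOm κ m = 0 := by rw [sub_smul, h, sub_self]
  rcases smul_eq_zero.1 h1 with h2 | h2
  · exact sub_eq_zero.1 h2
  · exact absurd h2 volOm_ne

private theorem vol_cti {i : Fin m} {a : κ} (h : cti i (a • volOm κ m) = 0) : a = 0 := by
  have h1 := split_i i (a • volOm κ m)
  have h2 : ExteriorAlgebra.ι κ (Pi.single i 1 : Fin m → κ) * (a • volOm κ m) = 0 :=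
    ext_top (Nat.lt_succ_self m) (iota_mem _ (Submodule.smul_mem _ a volOm_mem))
  rw [h, h2, mul_zero, map_zero, add_zero] at h1
  rcases smul_eq_zero.1 h1 with h3 | h3
  · exact h3
  · exact absurd h3 volOm_ne

/-- The exponent of `x ^ u dx`. -/
private def vol_vex (u : Fin m →₀ ℕ) : Ex m := fun i => (u i : ℤ) + 1

private theorem vol_vex_inj : Function.Injective (vol_vex (m := m)) := by
  intro u v h
  ext i
  have h1 := congrFun h i
  change (u i : ℤ) + 1 = (v i : ℤ) + 1 at h1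
  omega

private theorem vol_exists_vex {e : Ex m} (h : ∀ i, 1 ≤ e i) : ∃ u, e = vol_vex u := by
  refine ⟨Finsupp.equivFunOnFinite.symm fun i => (e i - 1).toNat, ?_⟩
  funext i
  change e i = (((e i - 1).toNat : ℕ) : ℤ) + 1
  have := h i
  omega

private theorem vol_coeff (e : Ex m) (u : Fin m →₀ ℕ) :
    (vol κ m).coeff (e - ex u) = if e = vol_vex u then volOm κ m else 0 := by
  classical
  rw [vol, AddMonoidAlgebra.coeff_single, Finsupp.single_apply]
  have h : ((fun _ : Fin m => (1 : ℤ)) = e - ex u) ↔ e = vol_vex u := by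
    constructor
    · intro h
      funext i
      have h1 := congrFun h i
      change (1 : ℤ) = e i - (u i : ℤ) at h1
      change e i = (u i : ℤ) + 1
      omega
    · intro h
      rw [h]
      funext i
      change (1 : ℤ) = ((u i : ℤ) + 1) - (u i : ℤ)
      omega
  by_cases h1 : e = vol_vex u
  · rw [if_pos (h.2 h1), if_pos h1]
    rfl
  · rw [if_neg (fun h' => h1 (h.1 h')), if_neg h1]

private theorem vol_pt_coeff (G : MvPolynomial (Fin m) κ) (u : Fin m →₀ ℕ) :
    (pt G : Fo κ m).coeff (vol_vex u) = coeff u G • volOm κ m := by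
  classical
  rw [pt, coeff_pf_mul]
  have h : ∀ v ∈ G.support, coeff v G • (vol κ m).coeff (vol_vex u - ex v) =
      if u = v then coeff v G • volOm κ m else 0 := by
    intro v _
    rw [vol_coeff]
    by_cases h1 : u = v
    · rw [if_pos (by rw [h1]), if_pos h1]
    · rw [if_neg (fun h' => h1 (vol_vex_inj h')), if_neg h1, smul_zero]
  rw [Finset.sum_congr rfl h, Finset.sum_ite_eq]
  by_cases hu : u ∈ G.support
  · rw [if_pos hu]
  · rw [if_neg hu, MvPolynomial.notMem_support_iff.1 hu, zero_smul]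

private theorem vol_pt_coeff' (G : MvPolynomial (Fin m) κ) (e : Ex m) (he : ∀ u, e ≠ vol_vex u) :
    (pt G : Fo κ m).coeff e = 0 := by
  rw [pt, coeff_pf_mul]
  refine Finset.sum_eq_zero fun v _ => ?_
  rw [vol_coeff, if_neg (he v), smul_zero]

private theorem vol_tot (u : Fin m →₀ ℕ) : tot (vol_vex u) = ((∑ i, u i + m : ℕ) : ℤ) := by
  unfold tot
  change ∑ i, ((u i : ℤ) + 1) = _
  rw [Finset.sum_add_distrib, Finset.sum_const, Finset.card_univ, Fintype.card_fin]
  push_cast
  rw [nsmul_eq_mul, mul_one]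

private theorem vol_deg (u : Fin m →₀ ℕ) :
    Finsupp.weight (1 : Fin m → ℕ) u = ∑ i, u i := by
  rw [Finsupp.weight_apply, Finsupp.sum_fintype _ _ (fun i => zero_smul ℕ ((1 : Fin m → ℕ) i))]
  exact Finset.sum_congr rfl fun i _ => by rw [Pi.one_apply, smul_eq_mul, mul_one]


theorem pt_add (G H : MvPolynomial (Fin m) κ) : (pt (G + H) : Fo κ m) = pt G + pt H := by
  unfold pt
  rw [pf_add, add_mul]

theorem pt_sub (G H : MvPolynomial (Fin m) κ) : (pt (G - H) : Fo κ m) = pt G - pt H := by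
  unfold pt pf
  rw [map_sub, map_sub, sub_mul]

theorem pt_zero : (pt 0 : Fo κ m) = 0 := by
  unfold pt
  rw [pf_zero, zero_mul]

theorem pt_sum {ι : Type*} (s : Finset ι) (G : ι → MvPolynomial (Fin m) κ) :
    (pt (∑ i ∈ s, G i) : Fo κ m) = ∑ i ∈ s, pt (G i) := by
  unfold pt
  rw [pf_sum, Finset.sum_mul]

theorem pt_smul (a : κ) (G : MvPolynomial (Fin m) κ) : (pt (a • G) : Fo κ m) = a • pt G := by
  unfold pt
  rw [pf_smul, smul_mul_assoc]

theorem pf_mul_pt (F G : MvPolynomial (Fin m) κ) : pf F * (pt G : Fo κ m) = pt (F * G) := by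
  unfold pt
  rw [pf_mul, mul_assoc]

theorem pt_inj {G H : MvPolynomial (Fin m) κ} (h : (pt G : Fo κ m) = pt H) : G = H := by
  ext u
  apply vol_smul_inj (κ := κ) (m := m)
  rw [← vol_pt_coeff, ← vol_pt_coeff, h]

theorem pt_mem {G : MvPolynomial (Fin m) κ} {N : ℕ} (hG : G.IsHomogeneous N) :
    (pt G : Fo κ m) ∈ Reg (κ := κ) ∅ ⊓ FD m ⊓ TD {((N + m : ℕ) : ℤ)} := by
  classical
  refine Submodule.mem_inf.2 ⟨Submodule.mem_inf.2 ⟨?_, ?_⟩, ?_⟩
  · intro e i _
    by_cases h : ∃ u, e = vol_vex u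
    · obtain ⟨u, rfl⟩ := h
      have h1 : vol_vex u i = (u i : ℤ) + 1 := rfl
      exact ⟨fun h2 => by omega, fun h2 => by omega⟩
    · push Not at h
      rw [vol_pt_coeff' G e h]
      exact ⟨fun _ => rfl, fun _ => map_zero _⟩
  · intro e
    by_cases h : ∃ u, e = vol_vex u
    · obtain ⟨u, rfl⟩ := h
      rw [vol_pt_coeff]
      exact Submodule.smul_mem _ _ volOm_mem
    · push Not at h
      rw [vol_pt_coeff' G e h]
      exact Submodule.zero_mem _
  · intro e he
    by_cases h : ∃ u, e = vol_vex u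
    · obtain ⟨u, rfl⟩ := h
      rw [vol_pt_coeff]
      have h1 : coeff u G = 0 := by
        by_contra h2
        apply he
        rw [Set.mem_singleton_iff, vol_tot]
        have h3 := hG h2
        rw [← vol_deg, h3]
      rw [h1, zero_smul]
    · push Not at h
      exact vol_pt_coeff' G e h

theorem exists_pt {N : ℕ} {x : Fo κ m}
    (hx : x ∈ Reg (κ := κ) ∅ ⊓ FD m ⊓ TD {((N + m : ℕ) : ℤ)}) :
    ∃ G : MvPolynomial (Fin m) κ, G.IsHomogeneous N ∧ x = pt G := by
  classical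
  obtain ⟨⟨hx1, hx2⟩, hx3⟩ := hx
  have h1 : ∀ u : Fin m →₀ ℕ, ∃ a : κ, x.coeff (vol_vex u) = a • volOm κ m :=
    fun u => volOm_spans (hx2 (vol_vex u))
  choose a ha using h1
  have h0 : ∀ u, a u ≠ 0 → vol_vex u ∈ x.coeff.support := by
    intro u hu
    rw [Finsupp.mem_support_iff, ha u]
    exact smul_ne_zero hu volOm_ne
  let T : Finset (Fin m →₀ ℕ) := x.coeff.support.preimage vol_vex vol_vex_inj.injOn
  let G : MvPolynomial (Fin m) κ := ∑ u ∈ T, monomial u (a u)
  have hG : ∀ u, coeff u G = a u := by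
    intro u
    change coeff u (∑ v ∈ T, monomial v (a v)) = a u
    rw [coeff_sum, Finset.sum_congr rfl (fun v _ => coeff_monomial u v (a v)),
      Finset.sum_ite_eq']
    by_cases hu : u ∈ T
    · rw [if_pos hu]
    · rw [if_neg hu]
      by_contra h2
      exact hu (Finset.mem_preimage.2 (h0 u (fun h3 => h2 h3.symm)))
  refine ⟨G, ?_, ?_⟩
  · intro u hu
    rw [hG] at hu
    have h2 : tot (vol_vex u) = ((N + m : ℕ) : ℤ) := by
      by_contra h3
      have h4 := hx3 (vol_vex u) h3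
      rw [ha u] at h4
      exact smul_ne_zero hu volOm_ne h4
    rw [vol_tot] at h2
    have h3 : ∑ i, u i + m = N + m := by exact_mod_cast h2
    rw [vol_deg]
    omega
  · refine fo_ext fun e => ?_
    by_cases h : ∀ i, 1 ≤ e i
    · obtain ⟨u, rfl⟩ := vol_exists_vex h
      rw [vol_pt_coeff, hG, ha]
    · rw [vol_pt_coeff' G e (by
        rintro u rfl
        apply h
        intro i
        change 1 ≤ (u i : ℤ) + 1
        omega)]
      push Not at h
      obtain ⟨i, hi⟩ := h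
      obtain ⟨h2, h3⟩ := hx1 e i (Set.notMem_empty i)
      rcases lt_or_eq_of_le (show e i ≤ 0 by omega) with h4 | h4
      · exact h2 h4
      · have h5 := h3 h4
        obtain ⟨b, hb⟩ := volOm_spans (hx2 e)
        rw [hb] at h5 ⊢
        rw [vol_cti h5, zero_smul]

private theorem vol_tw (p : ℕ) [hp : Fact p.Prime] [CharP κ p] [PerfectRing κ p] :
    (tw (frobeniusEquiv κ p)).symm (volOm κ m) = volOm κ m := by
  apply (tw (m := m) (frobeniusEquiv κ p)).injective
  rw [RingEquiv.apply_symm_apply, volOm, map_list_prod, List.map_ofFn]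
  refine congrArg (fun f : Fin m → Lam κ m => (List.ofFn f).prod) ?_
  funext i
  change _ = tw (frobeniusEquiv κ p) (ExteriorAlgebra.ι κ (Pi.single i 1 : Fin m → κ))
  rw [tw_iota]
  refine congrArg _ ?_
  funext j
  by_cases h : j = i
  · subst h
    rw [Pi.single_eq_same, map_one]
  · rw [Pi.single_eq_of_ne h, map_zero]

private theorem vol_pt_FD (G : MvPolynomial (Fin m) κ) : (pt G : Fo κ m) ∈ FD (κ := κ) m := by
  intro e
  by_cases h : ∃ u, e = vol_vex u
  · obtain ⟨u, rfl⟩ := h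
    rw [vol_pt_coeff]
    exact Submodule.smul_mem _ _ volOm_mem
  · push Not at h
    rw [vol_pt_coeff' G e h]
    exact Submodule.zero_mem _

theorem Ca_pt (p : ℕ) [hp : Fact p.Prime] [CharP κ p] [PerfectRing κ p]
    (G : MvPolynomial (Fin m) κ) :
    Ca p (pt G : Fo κ m) =
      pt ((cc p G).map ((frobeniusEquiv κ p).symm : κ ≃+* κ).toRingHom) := by
  refine fo_ext fun e => ?_
  rw [Ca_coeff]
  have hp0 : 0 < p := hp.out.pos
  by_cases h : ∀ i, 1 ≤ e i
  · obtain ⟨u, rfl⟩ := vol_exists_vex h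
    have h1 : pmul p m (vol_vex u) = vol_vex (p • u + pm1 m p) := by
      funext i
      change (p : ℤ) * ((u i : ℤ) + 1) = (((p • u + pm1 m p) i : ℕ) : ℤ) + 1
      have h2 : (p • u + pm1 m p) i = p * u i + (p - 1) := rfl
      rw [h2]
      push_cast [Nat.cast_sub hp.out.one_le]
      ring
    rw [h1, vol_pt_coeff, vol_pt_coeff, tw_symm_smul, coeff_map, cc_coeff hp0, vol_tw p]
    rfl
  · have h1 : ∀ u, e ≠ vol_vex u := by
      rintro u rfl
      apply h
      intro i
      change 1 ≤ (u i : ℤ) + 1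
      omega
    have h2 : ∀ u, pmul p m e ≠ vol_vex u := by
      intro u hu
      apply h
      intro i
      have h3 := congrFun hu i
      change (p : ℤ) * e i = (u i : ℤ) + 1 at h3
      by_contra h4
      have h5 : (p : ℤ) * e i ≤ 0 :=
        mul_nonpos_of_nonneg_of_nonpos (by exact_mod_cast hp0.le) (by omega)
      omega
    rw [vol_pt_coeff' _ _ h1, vol_pt_coeff' _ _ h2, map_zero]

theorem ddpf_cj_pt (F Q : MvPolynomial (Fin m) κ) (j : Fin m) :
    dd (pf F) * cj j (pt Q : Fo κ m) = pt (Q * pderiv j F) := by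
  have h1 := cj_ddpf_mul j F (pt Q : Fo κ m)
  have h2 : dd (pf F) * (pt Q : Fo κ m) = 0 :=
    FD_top (Nat.lt_succ_self m) (ddpf_mul_FD F (vol_pt_FD Q))
  have h3 : cj j (0 : Fo κ m) = 0 := by
    unfold cj
    rw [map_zero, mul_zero]
  rw [h2, h3] at h1
  rw [mul_comm Q, ← pf_mul_pt]
  exact (sub_eq_zero.1 h1.symm).symm

end MPadcBK
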