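import Pool.Agent.Lib.MP_adc574_ag_BK.Inj
import Pool.Agent.Lib.MP_adc574_ag_BK.KC
import Pool.Agent.Lib.MP_adc574_ag_BK.Des

/-!
# JOB Zig: zigzags

`D = DD F` (additive: `DD_add`), so `del (D ∘ σ) = D ∘ del σ` (`del_map` with the additive map given by `DD_add`).
`zig_exists`: induction on `l`. `l = 0`: `c` is constant `= h` (`const_of_del`), `h ∈ Reg {i}` for all `i`, so `h ∈ Reg ∅` (`reg_inter`). `l + 1`: by `exact_pos` (`P = {t | ∃ k, 1 ≤ k ∧ k ≤ N ∧ t = k d}`)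
`c = del σ`, `σ ∈ Coch (TT d N q)` of length `l + 1`; `D ∘ σ ∈ Coch (TT d (N+1) (q+1))` (`DD_TT`), closed for `del` (`D ∘ c = 0`) and `D`.
`zig_al` (`c` of length `l + 1`, values in degree `q + 1`, `q + l = n`; `al a (c s) = dF * τ s`, `τ` closed): induction on `l`. `l = 0`: `c = h`, `τ = g` constant, `g ∈ Reg ∅` (`reg_inter`), `al a h = dF * g`.
`l + 1`: `c = del σ`, and `τ = del ρ` with `ρ ∈ Coch (Reg ⊓ FD q ⊓ TD {(a-1) d})` of length `l + 1` (`exact_pos`, `1 ≤ (a-1) d`). Put `τ' s = al a (σ s) - dF * ρ s`; `del τ' = al a ∘ c - dF * τ = 0`;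
`al (a+1) (D (σ s)) = dF * al a (σ s) = dF * τ' s` (`al_DD`, `one_mul_self`). Apply the induction hypothesis to `D ∘ σ`, `τ'`, `a + 1`, `q + 1`.
`zig_al_all`: induction on `l`. `l = 0`: `i = 1`, `al 1 h = al 1 (c s) = 0`. `l + 1`: `c = del σ`; `al 1 (D (σ s)) = 0` (`al_one_DD`), which gives `i ≤ l + 1`; for `i = l + 2` use `zig_al` for `D ∘ σ`, `a = 2`,
`τ = al 1 ∘ σ`, closed because `del (al 1 ∘ σ) = al 1 ∘ c = 0`; `al 2 (D (σ s)) = dF * al 1 (σ s)`.
-/

set_option autoImplicit false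

namespace MPadcBK

open ExteriorAlgebra

universe u

variable {κ : Type u} [Field κ] {m : ℕ}

/-- A zigzag from the cochain `c` of length `l` (values of degree `q`) to the global form `h`. -/
def Zig (F : MvPolynomial (Fin m) κ) (d : ℕ) :
    (l : ℕ) → (q : ℕ) → ((Fin l → Fin m) → Fo κ m) → Fo κ m → Prop
  | 0, _, _, _ => False
  | 1, _, c, h => ∀ s, c s = h
  | l + 2, q, c, h => ∃ σ : (Fin (l + 1) → Fin m) → Fo κ m,
      Coch (fun I => (TI (κ := κ) d q I).toAddSubgroup) σ ∧ del σ = c ∧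
        Zig F d (l + 1) (q + 1) (fun s => DD F (σ s)) h

private theorem zig_del_DD (F : MvPolynomial (Fin m) κ) {l : ℕ}
    (σ : (Fin l → Fin m) → Fo κ m) :
    del (fun s => DD F (σ s)) = fun s => DD F (del σ s) :=
  del_map (AddMonoidHom.mk' (DD F) (DD_add F)) σ

private theorem zig_del_mul (F : MvPolynomial (Fin m) κ) {l : ℕ}
    (σ : (Fin l → Fin m) → Fo κ m) :
    del (fun s => dd (pf F) * σ s) = fun s => dd (pf F) * del σ s :=
  del_map (AddMonoidHom.mulLeft (dd (pf F))) σ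

private theorem zig_one_le {k d : ℕ} (hk : 1 ≤ k) (hd : 1 ≤ d) : (1 : ℤ) ≤ (k : ℤ) * d := by
  have h := Nat.mul_le_mul hk hd
  exact_mod_cast h

theorem zig_exists (hm : 2 ≤ m) {d : ℕ} (hd : 1 ≤ d) {F : MvPolynomial (Fin m) κ}
    (hF : F.IsHomogeneous d) (l q N : ℕ) (c : (Fin (l + 1) → Fin m) → Fo κ m)
    (hc : Coch (fun I => (TT (κ := κ) d N q I).toAddSubgroup) c) (hdel : del c = 0)
    (hD : ∀ s, DD F (c s) = 0) :
    ∃ h ∈ TT (κ := κ) d (N + l) (q + l) ∅, DD F h = 0 ∧ Zig F d (l + 1) q c h := by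
  induction l generalizing q N with
  | zero =>
    have : Nonempty (Fin m) := ⟨⟨0, by omega⟩⟩
    obtain ⟨h, hh⟩ := const_of_del hdel
    refine ⟨h, ?_, ?_, hh⟩
    · have h1 : ∀ i : Fin m, h ∈ TT (κ := κ) d N q {i} := fun i => by
        have h2 := hc (fun _ => i)
        rw [hh, Set.range_const] at h2
        exact h2
      obtain ⟨i₀⟩ := ‹Nonempty (Fin m)›
      exact ⟨⟨reg_inter hm fun i => (h1 i).1.1, (h1 i₀).1.2⟩, (h1 i₀).2⟩
    · obtain ⟨i₀⟩ := ‹Nonempty (Fin m)›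
      rw [← hh (fun _ => i₀)]
      exact hD _
  | succ l ih =>
    have hP : ∀ t ∈ {t : ℤ | ∃ k : ℕ, 1 ≤ k ∧ k ≤ N ∧ t = k * d}, 1 ≤ t := by
      rintro t ⟨k, hk, -, rfl⟩
      exact zig_one_le hk hd
    obtain ⟨σ, hσ, hσc⟩ := exact_pos (κ := κ) _ hP q (l + 1) c hc hdel
    have hσ' : ∀ s, σ s ∈ TT (κ := κ) d N q (Set.range s) := fun s => hσ s
    have h1 : Coch (fun I => (TT (κ := κ) d (N + 1) (q + 1) I).toAddSubgroup)
        (fun s => DD F (σ s)) := fun s => DD_TT hF (hσ' s)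
    have h2 : del (fun s => DD F (σ s)) = 0 := by
      rw [zig_del_DD, hσc]
      funext s
      exact hD s
    obtain ⟨h, hh1, hh2, hh3⟩ := ih (q + 1) (N + 1) _ h1 h2 (fun s => DD_DD F (σ s))
    refine ⟨h, ?_, hh2, σ, fun s => TT_le_TI (hσ' s), hσc, hh3⟩
    rw [show N + (l + 1) = N + 1 + l by omega, show q + (l + 1) = q + 1 + l by omega]
    exact hh1

variable {n : ℕ} (p : ℕ) [hp : Fact p.Prime] [CharP κ p] [PerfectRing κ p]

theorem zig_al (hn : 1 ≤ n) {d : ℕ} (hd : 1 ≤ d) {F : MvPolynomial (Fin (n + 1)) κ}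
    (hF : F.IsHomogeneous d) (l q a : ℕ) (ha : 2 ≤ a) (hal : a + l < p) (hq : q + l = n)
    (c : (Fin (l + 1) → Fin (n + 1)) → Fo κ (n + 1)) (h : Fo κ (n + 1))
    (hz : Zig F d (l + 1) (q + 1) c h) (τ : (Fin (l + 1) → Fin (n + 1)) → Fo κ (n + 1))
    (hτ : Coch (fun I => (Reg (κ := κ) I ⊓ FD q ⊓ TD {((a : ℤ) - 1) * d}).toAddSubgroup) τ)
    (hdel : del τ = 0) (hc : ∀ s, al p F d a (c s) = dd (pf F) * τ s) :
    al p F d (a + l) h ∈ JJ F d (a + l) := by
  induction l generalizing q a with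
  | zero =>
    obtain ⟨g, hg⟩ := const_of_del hdel
    have h1 : ∀ i : Fin (n + 1), g ∈ Reg (κ := κ) {i} ⊓ FD q ⊓ TD {((a : ℤ) - 1) * d} :=
      fun i => by
        have h2 := hτ (fun _ => i)
        rw [hg, Set.range_const] at h2
        exact h2
    have h3 : al p F d a h = dd (pf F) * g := by
      have h4 := hc (fun _ => 0)
      rw [hg, hz (fun _ => 0)] at h4
      exact h4
    have hqn : q = n := by omega
    subst hqn
    refine ⟨g, ⟨⟨reg_inter (by omega) fun i => (h1 i).1.1, (h1 0).1.2⟩, ?_⟩, ?_⟩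
    · exact (h1 0).2
    · exact h3.symm
  | succ l ih =>
    obtain ⟨σ, hσ, hσc, hz'⟩ := hz
    have hσ' : ∀ s, σ s ∈ TI (κ := κ) d (q + 1) (Set.range s) := fun s => hσ s
    have hP : ∀ t ∈ ({((a : ℤ) - 1) * d} : Set ℤ), 1 ≤ t := by
      intro t ht
      rw [Set.mem_singleton_iff.1 ht]
      have h1 : ((a : ℤ) - 1) = ((a - 1 : ℕ) : ℤ) := by omega
      rw [h1]
      exact zig_one_le (by omega) hd
    obtain ⟨ρ, hρ, hρτ⟩ := exact_pos (κ := κ) (m := n + 1) _ hP q (l + 1) τ hτ hdel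
    have hρ' : ∀ s, ρ s ∈ Reg (κ := κ) (Set.range s) ⊓ FD q ⊓ TD {((a : ℤ) - 1) * d} :=
      fun s => hρ s
    have hdF := ddpf_mem (κ := κ) F
    have h1 : Coch (fun I => (Reg (κ := κ) I ⊓ FD (q + 1) ⊓
        TD {(((a + 1 : ℕ) : ℤ) - 1) * d}).toAddSubgroup)
        (fun s => al p F d a (σ s) - dd (pf F) * ρ s) := by
      intro s
      refine Submodule.sub_mem (Reg (κ := κ) (Set.range s) ⊓ FD (q + 1) ⊓
        TD {(((a + 1 : ℕ) : ℤ) - 1) * d})
        ⟨⟨al_Reg p F d a (hσ' s).1.1, al_FD p F d a (hσ' s).1.2⟩, ?_⟩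
        ⟨⟨ddpf_mul_Reg F (hρ' s).1.1, ddpf_mul_FD F (hρ' s).1.2⟩, ?_⟩
      · have h2 := al_TD p hF a (σ s)
        rw [show (((a + 1 : ℕ) : ℤ) - 1) = (a : ℤ) by omega]
        exact h2
      · have h2 := ddpf_mul_TD hF (hρ' s).2
        refine TD_mono ?_ h2
        rintro t ht
        have ht' := Set.mem_singleton_iff.1 ht
        refine Set.mem_singleton_iff.2 ?_
        rw [show (((a + 1 : ℕ) : ℤ) - 1) = (a : ℤ) by omega]
        linarith
    have h2 : del (fun s => al p F d a (σ s) - dd (pf F) * ρ s) = 0 := by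
      have h3 : (fun s => al p F d a (σ s) - dd (pf F) * ρ s) =
          (fun s => al p F d a (σ s)) - fun s => dd (pf F) * ρ s := rfl
      have h4 : del (fun s => al p F d a (σ s)) = fun s => al p F d a (del σ s) :=
        del_map (alH p F d a) σ
      rw [h3, del_sub, h4, zig_del_mul, hρτ, hσc]
      funext s
      rw [Pi.sub_apply, hc s, sub_self]
      rfl
    have h3 : ∀ s, al p F d (a + 1) (DD F (σ s)) =
        dd (pf F) * (al p F d a (σ s) - dd (pf F) * ρ s) := by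
      intro s
      rw [al_DD p hF hd (hσ' s) (by omega) (by omega), Nat.add_sub_cancel, mul_sub,
        one_mul_self hdF, sub_zero]
    have h4 := ih (q + 1) (a + 1) (by omega) (by omega) (by omega) _ hz' _ h1 h2 h3
    rw [show a + (l + 1) = a + 1 + l by omega]
    exact h4

theorem zig_al_all (hn : 1 ≤ n) {d : ℕ} (hd : 1 ≤ d) {F : MvPolynomial (Fin (n + 1)) κ}
    (hF : F.IsHomogeneous d) (l q : ℕ) (hl : l + 1 < p) (hq : q + l = n)
    (c : (Fin (l + 1) → Fin (n + 1)) → Fo κ (n + 1)) (h : Fo κ (n + 1))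
    (hz : Zig F d (l + 1) (q + 1) c h) (hc : ∀ s, al p F d 1 (c s) = 0) (i : ℕ) (hi : 1 ≤ i)
    (hil : i ≤ l + 1) : al p F d i h ∈ JJ F d i := by
  induction l generalizing q with
  | zero =>
    have hi1 : i = 1 := by omega
    subst hi1
    have h1 := hc (fun _ => 0)
    rw [hz (fun _ => 0)] at h1
    rw [h1]
    exact Submodule.zero_mem _
  | succ l ih =>
    obtain ⟨σ, hσ, hσc, hz'⟩ := hz
    have hσ' : ∀ s, σ s ∈ TI (κ := κ) d (q + 1) (Set.range s) := fun s => hσ s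
    by_cases hi2 : i ≤ l + 1
    · exact ih (q + 1) (by omega) (by omega) _ hz' (fun s => al_one_DD p hF hd (hσ' s)) hi2
    · have hi3 : i = 2 + l := by omega
      subst hi3
      refine zig_al p hn hd hF l (q + 1) 2 le_rfl (by omega) (by omega) _ h hz'
        (fun s => al p F d 1 (σ s)) ?_ ?_ ?_
      · intro s
        refine ⟨⟨al_Reg p F d 1 (hσ' s).1.1, al_FD p F d 1 (hσ' s).1.2⟩, ?_⟩
        have h2 := al_TD p hF 1 (σ s)
        rw [show (((2 : ℕ) : ℤ) - 1) = ((1 : ℕ) : ℤ) by omega]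
        exact h2
      · have h4 : del (fun s => al p F d 1 (σ s)) = fun s => al p F d 1 (del σ s) :=
          del_map (alH p F d 1) σ
        rw [h4, hσc]
        funext s
        exact hc s
      · intro s
        exact al_DD p hF hd (hσ' s) (by omega) (by omega)

end MPadcBK
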