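import Pool.Agent.Lib.MP_adc574_ag_BK.Zig

/-!
# JOB Zig3: climbing back a zigzag

`D = DD F`. Induction on `l` (all `q`, `θ`). `l = 0` (`q = n`): `D ∘ θ = h = D η`, `ρ s = θ s - η` (`del` of a constant cochain of length 1 is 0, `del_const`; `η ∈ TI d n ∅ ≤ TI d n I`).
`l + 1` (`q + l + 1 = n`, `θ` of length `l + 2`): `D ∘ θ = del σ`, `σ ∈ Coch (TI d (q+1))` of length `l + 1` with `Zig (l+1) (q+2) (D ∘ σ) h`. Induction hypothesis for `σ`, `q + 1`: `ρ' ∈ Coch (TI d (q+1))`,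
`D ∘ ρ' = 0`, `del ρ' = del σ = D ∘ θ`. Then `al 1 ∘ ρ'` is a cochain in `KK F d (q+1)` (`al_closed`) with `del (al 1 ∘ ρ') = al 1 ∘ D ∘ θ = 0` (`al_one_DD`).
Claim: `∃ ν ∈ Coch (ZK F d (q+1))` of length `l` with `al 1 ∘ ρ' = al 1 ∘ del ν` if `1 ≤ l`, and `al 1 ∘ ρ' = 0` if `l = 0`.
* `l = 0`: `al 1 ∘ ρ'` is constant `= g` (`const_of_del`), `g ∈ KK F d n {i}` for all `i`, so `g ∈ KK F d n ∅` (`reg_inter`), `g = 0` (`KK_empty`, `2 ≤ n < m = n + 1`).
* `1 ≤ l`: `KK_exact` (`k = 1`, `l + (q+1) = n ≠ n + 1`): `al 1 ∘ ρ' = del μ`, `μ ∈ Coch (KK F d (q+1))` of length `l ≥ 1`; lift `μ s = al 1 (ν s)` by `log_surj` (`Set.range s` is nonempty as `1 ≤ l`).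
`ρ'' = ρ' - del ν` (or `ρ'`) is `D`-closed (`ZK_TI`), in `TI d (q+1)`, `al 1 ∘ ρ'' = 0`, `del ρ'' = del ρ'` (`del_del`). `CT`: `ρ'' s = D (ψ s)`, `ψ ∈ Coch (TI d q)`; `D ∘ del ψ = del ρ'' = D ∘ θ`.
`ρ = θ - del ψ`.
-/

set_option autoImplicit false

namespace MPadcBK

open ExteriorAlgebra

universe u

variable {κ : Type u} [Field κ] {n : ℕ} (p : ℕ) [hp : Fact p.Prime] [CharP κ p] [PerfectRing κ p]

/-- The standing hypotheses. -/
structure Hyp (d : ℕ) (F : MvPolynomial (Fin (n + 1)) κ) : Prop where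
  hn : 2 ≤ n
  hd : 1 ≤ d
  hnp : n < p
  hpd : ¬ p ∣ d
  hF : F.IsHomogeneous d
  hs : Smooth F

omit [PerfectRing κ p] [CharP κ p] hp in
private theorem zig3_TI_mono {d q : ℕ} {I J : Set (Fin (n + 1))} (h : I ⊆ J) :
    TI (κ := κ) d q I ≤ TI d q J := by
  rintro x ⟨⟨h1, h2⟩, h3⟩
  exact ⟨⟨Reg_mono h h1, h2⟩, h3⟩

private theorem zig3_D (F : MvPolynomial (Fin (n + 1)) κ) {l : ℕ}
    (c : (Fin l → Fin (n + 1)) → Fo κ (n + 1)) :
    del (fun s => DD F (c s)) = fun s => DD F (del c s) :=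
  del_map (AddMonoidHom.mk' (DD F) (DD_add F)) c

private theorem zig3_range {l : ℕ} (s : Fin (l + 1) → Fin (n + 1)) : (Set.range s).Nonempty :=
  ⟨s 0, Set.mem_range_self 0⟩

omit hp [CharP κ p] [PerfectRing κ p] in
private theorem zig3_p2 {d : ℕ} {F : MvPolynomial (Fin (n + 1)) κ} (H : Hyp p d F) : 2 < p :=
  lt_of_le_of_lt H.hn H.hnp

private theorem zig3_beta {d : ℕ} {F : MvPolynomial (Fin (n + 1)) κ} (H : Hyp p d F) (l q : ℕ)
    (hq : q + 1 + l = n) (α : (Fin (l + 1) → Fin (n + 1)) → Fo κ (n + 1))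
    (hα : Coch (fun I => (KK F d (q + 1) I).toAddSubgroup) α) (hdel : del α = 0) :
    ∃ β : (Fin (l + 1) → Fin (n + 1)) → Fo κ (n + 1),
      Coch (fun I => (ZK F d (q + 1) I).toAddSubgroup) β ∧ del β = 0 ∧
        ∀ s, al p F d 1 (β s) = α s := by
  have hm : 2 ≤ n + 1 := by have := H.hn; omega
  cases l with
  | zero =>
    obtain ⟨g, hg⟩ := const_of_del hdel
    have hgi : ∀ i : Fin (n + 1), g ∈ KK F d (q + 1) {i} := by
      intro i
      have h1 := hα fun _ => i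
      have h2 : Set.range (fun _ : Fin 1 => i) = {i} := Set.range_const
      rw [hg] at h1
      have h3 : g ∈ KK F d (q + 1) (Set.range (fun _ : Fin 1 => i)) := h1
      rwa [h2] at h3
    have hg0 : g ∈ KK F d (q + 1) ∅ := by
      have h1 := hgi 0
      unfold KK at h1 ⊢
      obtain ⟨⟨⟨-, h3⟩, h4⟩, h5⟩ := h1
      refine ⟨⟨⟨reg_inter hm fun i => ?_, h3⟩, h4⟩, h5⟩
      have h6 := hgi i
      unfold KK at h6
      exact h6.1.1.1
    have hz : g = 0 := KK_empty hm H.hd H.hF H.hs (by have := H.hn; omega) (by omega) hg0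
    refine ⟨0, fun s => AddSubgroup.zero_mem _, del_zero, fun s => ?_⟩
    rw [hg s, hz, Pi.zero_apply, al_zero_arg]
  | succ l =>
    have e1 : (((1 : ℕ) : ℤ) * (d : ℤ)) = d := by rw [Nat.cast_one, one_mul]
    have hex := KK_exact (κ := κ) (F := F) hm H.hd H.hF H.hs (k := 1) (q := q + 1) (l := l + 1) le_rfl
      (by omega) (by omega)
    rw [e1] at hex
    obtain ⟨μ, hμ, hdμ⟩ := hex α hα hdel
    have hsur : ∀ s : Fin (l + 1) → Fin (n + 1), ∃ x ∈ ZK F d (q + 1) (Set.range s),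
        al p F d 1 x = μ s := fun s =>
      log_surj H.hd H.hF H.hs p (zig3_p2 p H) (zig3_range s) (hμ s)
    choose ν hν1 hν2 using hsur
    refine ⟨del ν, del_Coch (fun I J hIJ => ?_) (fun s => hν1 s), del_del ν, fun s => ?_⟩
    · intro x hx
      exact ZK_mono hIJ hx
    · have h1 := congrFun (del_map (alH p F d 1) ν) s
      have h2 : del (fun s => al p F d 1 (ν s)) s = al p F d 1 (del ν s) := h1
      rw [← h2, ← hdμ]
      congr 1
      funext s
      exact hν2 s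

theorem zig_back {d : ℕ} {F : MvPolynomial (Fin (n + 1)) κ} (H : Hyp p d F) (l q : ℕ)
    (hq : q + l = n) (θ : (Fin (l + 1) → Fin (n + 1)) → Fo κ (n + 1))
    (hθ : Coch (fun I => (TI (κ := κ) d q I).toAddSubgroup) θ) (h η : Fo κ (n + 1))
    (hz : Zig F d (l + 1) (q + 1) (fun s => DD F (θ s)) h) (hη : η ∈ TI (κ := κ) d n ∅)
    (hh : DD F η = h) :
    ∃ ρ : (Fin (l + 1) → Fin (n + 1)) → Fo κ (n + 1),
      Coch (fun I => (TI (κ := κ) d q I).toAddSubgroup) ρ ∧ (∀ s, DD F (ρ s) = 0) ∧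
        del ρ = del θ := by
  induction l generalizing q with
  | zero =>
    have hqn : q = n := by omega
    subst hqn
    refine ⟨θ - fun _ => η, fun s => ?_, fun s => ?_, ?_⟩
    · exact AddSubgroup.sub_mem _ (hθ s) (zig3_TI_mono (Set.empty_subset _) hη)
    · have h1 : DD F (θ s) = h := hz s
      show DD F (θ s - η) = 0
      rw [DD_sub, h1, hh, sub_self]
    · rw [del_sub, del_const, sub_zero]
  | succ l ih =>
    obtain ⟨σ, hσ, hdσ, hzσ⟩ := hz
    obtain ⟨ρ', hρ', hD', hdel'⟩ := ih (q + 1) (by omega) σ hσ hzσ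
    have hd1 : del ρ' = fun s => DD F (θ s) := hdel'.trans hdσ
    have hα : Coch (fun I => (KK F d (q + 1) I).toAddSubgroup) (fun s => al p F d 1 (ρ' s)) :=
      fun s => al_closed H.hd H.hF p (zig3_p2 p H) (hρ' s) (hD' s)
    have hdα : del (fun s => al p F d 1 (ρ' s)) = 0 := by
      have h1 : del (fun s => al p F d 1 (ρ' s)) = fun s => al p F d 1 (del ρ' s) :=
        del_map (alH p F d 1) ρ'
      rw [h1, hd1]
      funext s
      exact al_one_DD p H.hF H.hd (hθ s)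
    obtain ⟨β, hβ, hdβ, hαβ⟩ := zig3_beta p H l q (by omega) _ hα hdα
    have hψ : ∀ s : Fin (l + 1) → Fin (n + 1), ∃ y ∈ TI (κ := κ) d q (Set.range s),
        DD F y = ρ' s - β s := by
      intro s
      have hb : β s ∈ ZK F d (q + 1) (Set.range s) := hβ s
      obtain ⟨hb1, hb2⟩ := ZK_TI hb
      have hr : ρ' s ∈ TI (κ := κ) d (q + 1) (Set.range s) := hρ' s
      refine CT H.hd H.hF H.hs p H.hpd (zig3_range s) (Submodule.sub_mem _ hr hb1) ?_ ?_
      · rw [DD_sub, hD' s, hb2, sub_zero]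
      · rw [al_sub, hαβ s, sub_self]
    choose ψ hψ1 hψ2 using hψ
    refine ⟨θ - del ψ, fun s => ?_, fun s => ?_, ?_⟩
    · refine AddSubgroup.sub_mem _ (hθ s) ?_
      exact del_Coch (M := fun I => (TI (κ := κ) d q I).toAddSubgroup)
        (fun I J hIJ => fun x hx => zig3_TI_mono hIJ hx) (fun s => hψ1 s) s
    · show DD F (θ s - del ψ s) = 0
      have h1 : DD F (del ψ s) = DD F (θ s) := by
        have h2 := congrFun (zig3_D F ψ) s
        have h3 : (fun s => DD F (ψ s)) = ρ' - β := by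
          funext s
          exact hψ2 s
        rw [h3, del_sub, hdβ, sub_zero, hd1] at h2
        exact h2.symm
      rw [DD_sub, h1, sub_self]
    · rw [del_sub, del_del, sub_zero]

end MPadcBK
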